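import Pool.Agent.H4LA.En2

/-!
The inequality for the integral of a power of the slice energy: arithmetic.
-/

set_option autoImplicit false
set_option linter.unusedVariables false

open Set Function

namespace Pool.Agent.H4LA

/-- The weighted sums. -/
theorem arith_Z {ν n K C E BU c5 D1 κ D2 l Y X2 L Λ R S Z KI m es Q : ℝ} (hν : 0 < ν)
    (hn0 : 1 ≤ n) (hK0 : 0 ≤ K) (hC0 : 0 ≤ C) (hBU0 : 0 ≤ BU)
    (hc5 : c5 = n / ν * (3 / 4 * K) + 1 / 2 * K + 1 / 2 * (K * E)) (hE0 : 0 ≤ E) (hE : es ≤ E)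
    (hD1 : D1 = (c5 + 3 * (n / ν) * C) * BU) (hκ0 : 0 ≤ κ)
    (hD2 : D2 = (2 * m * D1) ^ 2 / (4 * (ν / 8 * n))) (hm0 : 0 ≤ m) (hY0 : 0 ≤ Y)
    (hX20 : 0 ≤ X2) (hl1 : 1 ≤ l) (hL1 : 1 ≤ L) (hΛ0 : 0 ≤ Λ) (hlΛ : l * Λ = √L)
    (hlL : l * L = κ * R) (hRQ : R ≤ Q)
    (hS : S = Y + 2 * (√Y * √(m ^ 2 * X2)))
    (hZ : Z = BU * (L * (1 + Y) + Λ * (1 + S))) (hZ2 : KI ≤ Z) (hKI0 : 0 ≤ KI) :
    (n / ν * (3 / 4 * K) + 1 / 2 * K + 1 / 2 * (K * es)) * KI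
      + 3 * (n / ν) * C * (l * Z) ≤ ν / 8 * n * X2 + (2 * D1 + D2) * κ * Q * (1 + Y) := by
  have hn00 : 0 ≤ n := by linarith
  have hc50 : 0 ≤ c5 := by
    rw [hc5]
    positivity
  have hD10 : 0 ≤ D1 := by
    rw [hD1]
    positivity
  have hD20 : 0 ≤ D2 := by
    rw [hD2]
    positivity
  have hL0 : 0 < L := by linarith
  have hl0 : 0 < l := by linarith
  have hS0 : 0 ≤ S := by
    rw [hS]
    positivity
  have hZ0 : 0 ≤ Z := by
    rw [hZ]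
    positivity
  have hZl : Z ≤ l * Z := le_mul_of_one_le_left hZ0 hl1
  obtain ⟨T, hT⟩ : ∃ T, T = √L * (2 * (√Y * √(m ^ 2 * X2))) := ⟨_, rfl⟩
  have hT0 : 0 ≤ T := by
    rw [hT]
    positivity
  have hsL : √L ≤ L := by
    rw [Real.sqrt_le_left (by linarith), sq]
    exact le_mul_of_one_le_left (by linarith) hL1
  have hlZ : l * Z ≤ BU * (2 * (l * L) * (1 + Y) + T) := by
    have e1 : l * Z = BU * ((l * L) * (1 + Y) + (l * Λ) * (1 + S)) := by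
      rw [hZ]
      ring
    rw [e1, hlΛ]
    refine mul_le_mul_of_nonneg_left ?_ hBU0
    have l1 : √L * (1 + Y) ≤ (l * L) * (1 + Y) := by
      refine mul_le_mul_of_nonneg_right ?_ (by positivity)
      exact hsL.trans (le_mul_of_one_le_left hL0.le hl1)
    have l2 : √L * (1 + S) = √L * (1 + Y) + T := by
      rw [hS, hT]
      ring
    rw [l2]
    linarith only [l1]
  have hKIl : KI ≤ BU * (2 * (l * L) * (1 + Y) + T) := (hZ2.trans hZl).trans hlZ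
  have hTa : D1 * T ≤ ν / 8 * n * X2 + D2 * (L * Y) := by
    have h3 := yng (ν := ν / 8 * n) (by positivity) (2 * m * D1) (√L * √Y) (√X2)
    have s1 : √(m ^ 2 * X2) = m * √X2 := by
      rw [Real.sqrt_mul (by positivity), Real.sqrt_sq (by positivity)]
    have s2 : √X2 ^ 2 = X2 := Real.sq_sqrt hX20
    have s3 : (√L * √Y) ^ 2 = L * Y := by
      rw [mul_pow, Real.sq_sqrt hL0.le, Real.sq_sqrt hY0]
    rw [s2, s3, ← hD2] at h3
    rw [hT, s1]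
    refine le_trans (le_of_eq ?_) h3
    ring
  have l0 : n / ν * (3 / 4 * K) + 1 / 2 * K + 1 / 2 * (K * es) ≤ c5 := by
    have := mul_le_mul_of_nonneg_left hE hK0
    rw [hc5]
    linarith only [this]
  have l1 : (n / ν * (3 / 4 * K) + 1 / 2 * K + 1 / 2 * (K * es)) * KI
      ≤ c5 * (BU * (2 * (l * L) * (1 + Y) + T)) :=
    mul_le_mul l0 hKIl hKI0 hc50
  have l2 := mul_le_mul_of_nonneg_left hlZ (by positivity : 0 ≤ 3 * (n / ν) * C)
  have l3 : c5 * (BU * (2 * (l * L) * (1 + Y) + T))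
      + 3 * (n / ν) * C * (BU * (2 * (l * L) * (1 + Y) + T))
      = 2 * D1 * ((l * L) * (1 + Y)) + D1 * T := by
    rw [hD1]
    ring
  have l4 : D2 * (L * Y) ≤ D2 * ((l * L) * (1 + Y)) := by
    refine mul_le_mul_of_nonneg_left ?_ hD20
    have : L ≤ l * L := le_mul_of_one_le_left hL0.le hl1
    exact mul_le_mul this (by linarith only [hY0]) hY0 (by positivity)
  have l5 : (2 * D1 + D2) * ((l * L) * (1 + Y)) ≤ (2 * D1 + D2) * κ * Q * (1 + Y) := by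
    rw [hlL]
    have q1 := mul_le_mul_of_nonneg_left hRQ (by positivity : 0 ≤ (2 * D1 + D2) * κ * (1 + Y))
    linarith only [q1]
  linarith only [l1, l2, l3, l4, l5, hTa]

/-- The sum. -/
theorem arith_K {ν n K C c0 E B DD M y Y l δ X1 X2 R Z μ P KI es hs W Q : ℝ}
    (hν : 0 < ν) (hn0 : 1 ≤ n) (hK0 : 0 ≤ K) (hC0 : 0 ≤ C) (hc00 : 0 < c0) (hc01 : c0 ≤ 1)
    (hB : B = 3 / 4 * (n / ν * K) + 1 / 2 * K + 3 * (n / ν) * C)
    (hcB : c0 * B ≤ ν / 4) (hcP : 3 * (n / ν) * C * c0 ≤ ν / 8 * n)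
    (hE0 : 0 ≤ E) (hE : es ≤ E) (hes : 0 ≤ es) (hhy : hs ≤ y) (hy0 : 0 ≤ y) (hY0 : 0 ≤ Y)
    (hδ0 : 0 < δ) (hδc : δ ≤ c0) (hδl : l * δ = c0) (hX10 : 0 ≤ X1) (hX20 : 0 ≤ X2)
    (hQ : Q = 1 + y + R) (hR0 : 0 ≤ R) (hlM : l * M ^ 2 ≤ R)
    (h1 : P ≤ C * (l * (M ^ 2 + Z + δ * (X1 + X2 + y * (1 + Y)))))
    (h2 : W ≤ (3 / 4 * (n / ν * (K * δ)) + 1 / 2 * (K * δ) - 3 / 4 * ν) * X1
        - ν / 4 * (n * X2) + (n / ν * (3 / 4 * (K * δ) + 9 / 4 * μ) + 21 * n ^ 2 / ν ^ 3 * μ ^ 2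
          + 1 / 2 * (K * δ)) * Y + 3 * (n / ν) * P
        + (hs + (1 / 2 * (K * (δ * (es + y))) + 1 / 2 * y)) * (1 + Y)
        + (n / ν * (3 / 4 * K) + 1 / 2 * K + 1 / 2 * (K * es)) * KI)
    (f6 : (n / ν * (3 / 4 * K) + 1 / 2 * K + 1 / 2 * (K * es)) * KI
      + 3 * (n / ν) * C * (l * Z) ≤ ν / 8 * n * X2 + DD * Q * (1 + Y))
    (hμK : μ ≤ (2 * E + 1) * (1 + y)) (hμ2 : μ ^ 2 ≤ (2 * E ^ 2 + 8 * E) * (1 + y)) :
    W ≤ (n / ν * (3 / 4 * K + 9 / 4 * (2 * E + 1))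
      + 21 * n ^ 2 / ν ^ 3 * (2 * E ^ 2 + 8 * E) + 1 / 2 * K + 3 * (n / ν) * C * 2
      + (2 + 1 / 2 * (K * (E + 1))) + DD) * (Q * (1 + Y)) := by
  have hn00 : 0 ≤ n := by linarith only [hn0]
  have hδ1 : δ ≤ 1 := hδc.trans hc01
  have hQ0 : 0 ≤ Q := by
    rw [hQ]
    positivity
  have hRQ : R ≤ Q := by linarith only [hQ, hy0]
  have hyQ : 1 + y ≤ Q := by linarith only [hQ, hR0]
  have hyQ' : y ≤ Q := by linarith only [hQ, hR0]
  have h1Q : 1 ≤ Q := by linarith only [hQ, hR0, hy0]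
  have hY1 : 0 ≤ 1 + Y := by linarith only [hY0]
  have hnν : 0 ≤ n / ν := by positivity
  -- the pressure
  have hP' : 3 * (n / ν) * P ≤ 3 * (n / ν) * C * (l * M ^ 2)
      + 3 * (n / ν) * C * (l * Z) + 3 * (n / ν) * C * c0 * X1 + 3 * (n / ν) * C * c0 * X2
      + 3 * (n / ν) * C * (y * (1 + Y)) := by
    have l1 := mul_le_mul_of_nonneg_left h1 (by positivity : 0 ≤ 3 * (n / ν))
    have e1 : l * (M ^ 2 + Z + δ * (X1 + X2 + y * (1 + Y)))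
        = l * M ^ 2 + l * Z + (l * δ) * (X1 + X2 + y * (1 + Y)) := by ring
    rw [e1, hδl] at l1
    have l2 : 3 * (n / ν) * C * (c0 * (y * (1 + Y))) ≤ 3 * (n / ν) * C * (1 * (y * (1 + Y))) := by
      refine mul_le_mul_of_nonneg_left ?_ (by positivity)
      exact mul_le_mul_of_nonneg_right hc01 (by positivity)
    linarith only [l1, l2]
  -- the coefficients
  have f1 : (3 / 4 * (n / ν * (K * δ)) + 1 / 2 * (K * δ) - 3 / 4 * ν) * X1
      + 3 * (n / ν) * C * c0 * X1 ≤ 0 := by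
    have l2 : (3 / 4 * (n / ν * K) + 1 / 2 * K) * δ ≤ (3 / 4 * (n / ν * K) + 1 / 2 * K) * c0 :=
      mul_le_mul_of_nonneg_left hδc (by positivity)
    have l1 : 3 / 4 * (n / ν * (K * δ)) + 1 / 2 * (K * δ) + 3 * (n / ν) * C * c0 ≤ c0 * B := by
      rw [hB]
      linarith only [l2]
    have l3 : (3 / 4 * (n / ν * (K * δ)) + 1 / 2 * (K * δ) - 3 / 4 * ν)
        + 3 * (n / ν) * C * c0 ≤ 0 := by linarith only [l1, hcB, hν]
    have l4 := mul_nonneg (neg_nonneg.2 l3) hX10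
    linarith only [l4]
  have f2 : -(ν / 4 * (n * X2)) + 3 * (n / ν) * C * c0 * X2 + ν / 8 * n * X2 ≤ 0 := by
    have l4 := mul_le_mul_of_nonneg_right hcP hX20
    linarith only [l4]
  have f3 : (n / ν * (3 / 4 * (K * δ) + 9 / 4 * μ)
            + 21 * n ^ 2 / ν ^ 3 * μ ^ 2 + 1 / 2 * (K * δ))
      ≤ (n / ν * (3 / 4 * K + 9 / 4 * (2 * E + 1))
        + 21 * n ^ 2 / ν ^ 3 * (2 * E ^ 2 + 8 * E) + 1 / 2 * K) * Q := by
    have l1 : K * δ ≤ K * Q := mul_le_mul_of_nonneg_left (hδ1.trans h1Q) hK0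
    have l2 : μ ≤ (2 * E + 1) * Q := hμK.trans (mul_le_mul_of_nonneg_left hyQ (by positivity))
    have l3 : μ ^ 2 ≤ (2 * E ^ 2 + 8 * E) * Q :=
      hμ2.trans (mul_le_mul_of_nonneg_left hyQ (by positivity))
    have l4 : n / ν * (3 / 4 * (K * δ) + 9 / 4 * μ)
        ≤ n / ν * (3 / 4 * (K * Q) + 9 / 4 * ((2 * E + 1) * Q)) := by
      refine mul_le_mul_of_nonneg_left ?_ hnν
      linarith only [l1, l2]
    have l5 := mul_le_mul_of_nonneg_left l3 (by positivity : 0 ≤ 21 * n ^ 2 / ν ^ 3)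
    linarith only [l1, l4, l5]
  have f3' := mul_le_mul_of_nonneg_right f3 hY0
  have f3q : 0 ≤ (n / ν * (3 / 4 * K + 9 / 4 * (2 * E + 1))
        + 21 * n ^ 2 / ν ^ 3 * (2 * E ^ 2 + 8 * E) + 1 / 2 * K) * Q := by positivity
  have f4 : 3 * (n / ν) * C * (l * M ^ 2) + 3 * (n / ν) * C * (y * (1 + Y))
      ≤ 3 * (n / ν) * C * 2 * (Q * (1 + Y)) := by
    have l0 : l * M ^ 2 ≤ Q * (1 + Y) := by
      have q1 : 0 ≤ Q * Y := by positivity
      linarith only [hlM, hRQ, q1]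
    have l1 : y * (1 + Y) ≤ Q * (1 + Y) := mul_le_mul_of_nonneg_right hyQ' hY1
    have l2 := mul_le_mul_of_nonneg_left (add_le_add l0 l1)
      (by positivity : 0 ≤ 3 * (n / ν) * C)
    linarith only [l2]
  have f5 : hs + (1 / 2 * (K * (δ * (es + y))) + 1 / 2 * y)
      ≤ (2 + 1 / 2 * (K * (E + 1))) * Q := by
    have l1 : δ * (es + y) ≤ (E + 1) * Q := by
      have l2 : δ * (es + y) ≤ 1 * (E + y) :=
        mul_le_mul hδ1 (by linarith only [hE]) (by positivity) zero_le_one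
      have l3 : E ≤ E * Q := le_mul_of_one_le_right hE0 h1Q
      linarith only [l2, l3, hyQ']
    have l5 : K * (δ * (es + y)) ≤ K * ((E + 1) * Q) := mul_le_mul_of_nonneg_left l1 hK0
    linarith only [l5, hyQ', hhy, hQ0]
  have f5' := mul_le_mul_of_nonneg_right f5 hY1
  linarith only [h2, hP', f1, f2, f3', f3q, f4, f5', f6]

end Pool.Agent.H4LA
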