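import Pool.Agent.H459R3.NS.Defs

/-!
Integrals over the period cell as iterated integrals, and the inequality of Loomis and Whitney.
-/

set_option autoImplicit false

open MeasureTheory Set Function
open scoped ENNReal

namespace Pool.Agent.H4LA

open H459R3.NS

/-- Lebesgue measure on the unit interval. -/
noncomputable def m1 : Measure ℝ := volume.restrict (Icc (0 : ℝ) 1)

instance : IsProbabilityMeasure m1 := ⟨by simp [m1]⟩

/-- The integral over the coordinate `j`. -/
noncomputable def I (j : Fin 3) (f : V → ℝ≥0∞) (x : V) : ℝ≥0∞ := ∫⁻ s, f (update x j s) ∂m1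

/-- `f` does not depend on the coordinate `j`. -/
def Ind {E : Type} (j : Fin 3) (f : V → E) : Prop := ∀ x s, f (update x j s) = f x

theorem restrict_cube : (volume : Measure V).restrict cube = Measure.pi fun _ => m1 := by
  have h : (cube : Set V) = Set.pi univ fun _ => Icc (0 : ℝ) 1 := by
    ext x
    simp only [cube, mem_Icc, Set.mem_pi, mem_univ, true_implies, Pi.le_def, Pi.zero_apply,
      Pi.one_apply]
    exact ⟨fun h i => ⟨h.1 i, h.2 i⟩, fun h => ⟨fun i => (h i).1, fun i => (h i).2⟩⟩
  rw [h, volume_pi, Measure.restrict_pi_pi]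
  rfl

theorem meas_I {j : Fin 3} {f : V → ℝ≥0∞} (hf : Measurable f) : Measurable (I j f) := by
  have h : I j f = lmarginal (fun _ : Fin 3 => m1) {j} f := by
    rw [lmarginal_singleton]
    rfl
  rw [h]
  exact hf.lmarginal _

theorem J_eq {f : V → ℝ≥0∞} (hf : Measurable f) (x : V) :
    ∫⁻ y in cube, f y = I 1 (I 0 (I 2 f)) x := by
  have hu : (Finset.univ : Finset (Fin 3)) = insert 1 (insert 0 {2}) := by decide
  have h1 : lmarginal (fun _ : Fin 3 => m1) Finset.univ f x = ∫⁻ y in cube, f y := by
    rw [lmarginal_univ, restrict_cube]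
  rw [← h1, hu, lmarginal_insert f hf (by decide)]
  unfold I
  refine lintegral_congr fun s => ?_
  rw [lmarginal_insert f hf (by decide)]
  refine lintegral_congr fun r => ?_
  rw [lmarginal_singleton]

theorem ind_I (j : Fin 3) (f : V → ℝ≥0∞) : Ind j (I j f) := by
  intro x s
  unfold I
  refine lintegral_congr fun r => ?_
  rw [update_idem]

theorem I_of_ind {j : Fin 3} {f : V → ℝ≥0∞} (hf : Ind j f) (x : V) : I j f x = f x := by
  unfold I
  simp only [hf x]
  simp

end Pool.Agent.H4LA
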