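import Pool.Agent.H459R3.NS.Ibp
import Pool.Agent.H4LA.LW

/-!
Bounds along lines, and an anisotropic bound for products of three functions.
-/

set_option autoImplicit false

open MeasureTheory Set Function
open scoped ENNReal ContDiff

namespace Pool.Agent.H4LA

open H459R3.NS

theorem I_eq (j : Fin 3) (f : V → ℝ≥0∞) : I j f = lmarginal (fun _ : Fin 3 => m1) {j} f := by
  rw [lmarginal_singleton]
  rfl

theorem I_comm {i j : Fin 3} (hij : i ≠ j) {f : V → ℝ≥0∞} (hf : Measurable f) :
    I i (I j f) = I j (I i f) := by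
  simp only [I_eq]
  have h1 : Disjoint ({i} : Finset (Fin 3)) {j} := Finset.disjoint_singleton.2 hij
  rw [← lmarginal_union _ f hf h1, ← lmarginal_union _ f hf h1.symm, Finset.union_comm]

theorem I_I (j : Fin 3) (f : V → ℝ≥0∞) : I j (I j f) = I j f :=
  funext fun x => I_of_ind (ind_I j f) x

theorem J_I (j : Fin 3) {f : V → ℝ≥0∞} (hf : Measurable f) :
    ∫⁻ x in cube, I j f x = ∫⁻ x in cube, f x := by
  have x : V := 0
  rw [J_eq (meas_I hf) x, J_eq hf x]
  fin_cases j
  · show I 1 (I 0 (I 2 (I 0 f))) x = _
    rw [I_comm (by decide : (2 : Fin 3) ≠ 0) hf, I_I]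
  · show I 1 (I 0 (I 2 (I 1 f))) x = _
    rw [I_comm (by decide : (2 : Fin 3) ≠ 1) hf, I_comm (by decide : (0 : Fin 3) ≠ 1) (meas_I hf),
      I_I]
  · show I 1 (I 0 (I 2 (I 2 f))) x = _
    rw [I_I]

/-- `f² + 2 |f ∂ⱼ f|`. -/
noncomputable def rho (j : Fin 3) (f : V → ℝ) (x : V) : ℝ := f x ^ 2 + 2 * |f x * pd j f x|

theorem rho_nonneg (j : Fin 3) (f : V → ℝ) (x : V) : 0 ≤ rho j f x := by
  unfold rho
  positivity

theorem cont_update (x : V) (j : Fin 3) : Continuous fun s : ℝ => update x j s :=
  continuous_const.update j continuous_id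

theorem hasDerivAt_line {f : V → ℝ} (hf : SP f) (x : V) (j : Fin 3) (s : ℝ) :
    HasDerivAt (fun s => f (update x j s)) (pd j f (update x j s)) s := by
  have h1 : HasFDerivAt f (fderiv ℝ f (update x j s)) (update x j s) :=
    (hf.diff _).hasFDerivAt
  have h2 : HasDerivAt (fun s => update x j s) (Pi.single j 1) s := hasDerivAt_update x j s
  exact h1.comp_hasDerivAt s h2

theorem ofReal_line {f : V → ℝ} (hf : Continuous f) (h0 : ∀ x, 0 ≤ f x) (j : Fin 3) (x : V) :
    I j (fun y => ENNReal.ofReal (f y)) x = ENNReal.ofReal (∫ s in (0 : ℝ)..1, f (update x j s)) := by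
  have hc : Continuous fun s : ℝ => f (update x j s) := hf.comp (cont_update x j)
  rw [intervalIntegral.integral_of_le zero_le_one, ← integral_Icc_eq_integral_Ioc,
    ofReal_integral_eq_lintegral_ofReal]
  · rfl
  · exact hc.continuousOn.integrableOn_Icc
  · exact Filter.Eventually.of_forall fun s => h0 _

theorem sq_le_line {f : V → ℝ} (hf : SP f) (j : Fin 3) {x : V} (hx : x ∈ cube) :
    f x ^ 2 ≤ ∫ s in (0 : ℝ)..1, rho j f (update x j s) := by
  set φ : ℝ → ℝ := fun s => f (update x j s) with hφ
  set ψ : ℝ → ℝ := fun s => pd j f (update x j s) with hψ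
  have cφ : Continuous φ := hf.cont.comp (cont_update x j)
  have cψ : Continuous ψ := (hf.pd j).cont.comp (cont_update x j)
  have hxj : x j ∈ Icc (0 : ℝ) 1 := ⟨hx.1 j, hx.2 j⟩
  have hxe : φ (x j) = f x := by
    simp only [hφ, update_eq_self]
  set M : ℝ := ∫ r in (0 : ℝ)..1, 2 * |φ r * ψ r| with hM
  have cM : Continuous fun r => 2 * |φ r * ψ r| := by fun_prop
  have key : ∀ s ∈ Icc (0 : ℝ) 1, φ (x j) ^ 2 ≤ φ s ^ 2 + M := by
    intro s hs
    have h1 : ∫ r in s..(x j), 2 * (φ r * ψ r) = φ (x j) ^ 2 - φ s ^ 2 := by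
      apply intervalIntegral.integral_eq_sub_of_hasDerivAt (f := fun r => φ r ^ 2)
      · intro r _
        have := (hasDerivAt_line hf x j r).pow 2
        refine this.congr_deriv ?_
        simp only [hφ, hψ]
        push_cast
        ring
      · exact Continuous.intervalIntegrable (by fun_prop) _ _
    have h2 : ∫ r in s..(x j), 2 * (φ r * ψ r) ≤ M := by
      calc ∫ r in s..(x j), 2 * (φ r * ψ r) ≤ |∫ r in s..(x j), 2 * (φ r * ψ r)| := le_abs_self _
        _ ≤ |(∫ r in s..(x j), |2 * (φ r * ψ r)|)| :=
            by simpa only [Real.norm_eq_abs] using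
              (intervalIntegral.norm_integral_le_abs_integral_norm (a := s) (b := x j)
                (f := fun r => 2 * (φ r * ψ r)) (μ := volume))
        _ ≤ |(∫ r in (0 : ℝ)..1, |2 * (φ r * ψ r)|)| := by
            apply intervalIntegral.abs_integral_mono_interval
            · rw [uIoc_of_le zero_le_one]
              intro r hr
              rcases hr with ⟨ha, hb⟩
              constructor
              · exact (le_min hs.1 hxj.1).trans_lt ha
              · exact hb.trans (max_le hs.2 hxj.2)
            · exact Filter.Eventually.of_forall fun r => abs_nonneg _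
            · exact Continuous.intervalIntegrable (by fun_prop) _ _
        _ = M := by
            have e : (fun r => |2 * (φ r * ψ r)|) = fun r => 2 * |φ r * ψ r| := by
              funext r
              rw [abs_mul, abs_of_pos (by norm_num : (0 : ℝ) < 2)]
            rw [e, hM]
            apply abs_of_nonneg
            exact intervalIntegral.integral_nonneg zero_le_one fun r _ => by positivity
    linarith
  have h3 : ∫ s in (0 : ℝ)..1, φ (x j) ^ 2 ≤ ∫ s in (0 : ℝ)..1, (φ s ^ 2 + M) := by
    apply intervalIntegral.integral_mono_on zero_le_one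
    · exact intervalIntegrable_const
    · exact Continuous.intervalIntegrable (by fun_prop) _ _
    · exact key
  rw [intervalIntegral.integral_const, intervalIntegral.integral_add
    (Continuous.intervalIntegrable (by fun_prop) _ _) intervalIntegrable_const,
    intervalIntegral.integral_const] at h3
  simp only [sub_zero, one_smul] at h3
  have h4 : ∫ s in (0 : ℝ)..1, rho j f (update x j s)
      = (∫ s in (0 : ℝ)..1, φ s ^ 2) + M := by
    rw [hM, ← intervalIntegral.integral_add]
    · rfl
    · exact Continuous.intervalIntegrable (by fun_prop) _ _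
    · exact cM.intervalIntegrable _ _
  rw [h4, ← hxe]
  exact h3

/-- The integral of `rho j f` over the period cell. -/
noncomputable def NN (j : Fin 3) (f : V → ℝ) : ℝ := ∫ x in cube, rho j f x

theorem NN_le {f : V → ℝ} (hf : SP f) (j : Fin 3) :
    NN j f ≤ (∫ x in cube, f x ^ 2)
      + 2 * (√(∫ x in cube, f x ^ 2) * √(∫ x in cube, pd j f x ^ 2)) := by
  have c1 := hf.cont
  have c2 := (hf.pd j).cont
  have i1 : IntegrableOn (fun x => f x ^ 2) cube := integrableOn_cube (c1.pow 2)
  have i2 : IntegrableOn (fun x => pd j f x ^ 2) cube := integrableOn_cube (c2.pow 2)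
  have i3 : IntegrableOn (fun x => 2 * |f x * pd j f x|) cube :=
    integrableOn_cube (continuous_const.mul (c1.mul c2).abs)
  unfold NN rho
  rw [integral_add i1 i3, integral_const_mul]
  have h := integral_mul_sq_le (μ := volume.restrict cube) (a := fun x => |f x|)
    (b := fun x => |pd j f x|) (by simp only [sq_abs]; exact i1) (by simp only [sq_abs]; exact i2)
    (integrableOn_cube (c1.abs.mul c2.abs))
  simp only [sq_abs] at h
  have h2 : ∫ x in cube, |f x * pd j f x| ≤ √(∫ x in cube, f x ^ 2) * √(∫ x in cube, pd j f x ^ 2) := by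
    rw [← Real.sqrt_mul (integral_nonneg fun x => sq_nonneg _)]
    apply Real.le_sqrt_of_sq_le
    simp only [abs_mul]
    exact h
  linarith

end Pool.Agent.H4LA
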