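import Pool.Agent.H459R3.NS.Evo
import Pool.Agent.H4LA.One
import Pool.Agent.H631R3.PI

/-!
Averages of periodic functions over coordinates.
-/

set_option autoImplicit false
set_option linter.unusedVariables false

open MeasureTheory Set Function Filter Topology
open scoped ENNReal ContDiff

namespace Pool.Agent.H4LA

open H459R3.NS

/-- Continuous periodic functions. -/
structure CP (f : V → ℝ) : Prop where
  cont : Continuous f
  per : Per f

theorem cp_of {f : V → ℝ} (hf : SP f) : CP f := ⟨hf.cont, hf.per⟩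

theorem CP.mul {f g : V → ℝ} (hf : CP f) (hg : CP g) : CP fun x => f x * g x :=
  ⟨hf.cont.mul hg.cont, fun i x => by simp only [hf.per i x, hg.per i x]⟩

theorem CP.add {f g : V → ℝ} (hf : CP f) (hg : CP g) : CP fun x => f x + g x :=
  ⟨hf.cont.add hg.cont, fun i x => by simp only [hf.per i x, hg.per i x]⟩

theorem CP.sub {f g : V → ℝ} (hf : CP f) (hg : CP g) : CP fun x => f x - g x :=
  ⟨hf.cont.sub hg.cont, fun i x => by simp only [hf.per i x, hg.per i x]⟩

theorem CP.abs {f : V → ℝ} (hf : CP f) : CP fun x => |f x| :=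
  ⟨hf.cont.abs, fun i x => by simp only [hf.per i x]⟩

theorem CP.sqrt {f : V → ℝ} (hf : CP f) : CP fun x => √(f x) :=
  ⟨hf.cont.sqrt, fun i x => by simp only [hf.per i x]⟩

theorem CP.pow {f : V → ℝ} (hf : CP f) (n : ℕ) : CP fun x => f x ^ n :=
  ⟨hf.cont.pow n, fun i x => by simp only [hf.per i x]⟩

theorem CP.const (c : ℝ) : CP fun _ => c := ⟨continuous_const, fun i x => rfl⟩

theorem CP.cmul {f : V → ℝ} (hf : CP f) (c : ℝ) : CP fun x => c * f x := (CP.const c).mul hf

theorem CP.sum {ι : Type} {s : Finset ι} {f : ι → V → ℝ} (hf : ∀ i ∈ s, CP (f i)) :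
    CP fun x => ∑ i ∈ s, f i x :=
  ⟨continuous_finsetSum _ fun i hi => (hf i hi).cont, fun j x => by
    refine Finset.sum_congr rfl fun i hi => (hf i hi).per j x⟩

theorem CP.bdd {f : V → ℝ} (hf : CP f) : ∃ C, 0 ≤ C ∧ ∀ x, |f x| ≤ C := by
  have hK : IsCompact (cube : Set V) := isCompact_Icc
  obtain ⟨C, hC⟩ := hK.exists_bound_of_continuousOn hf.cont.continuousOn
  refine ⟨|C|, abs_nonneg _, fun x => ?_⟩
  set m : K3 := fun i => -⌊x i⌋ with hm
  have h1 : f (x + fun i => (m i : ℝ)) = f x := hf.per.int m x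
  have h2 : (x + fun i => (m i : ℝ)) ∈ cube := by
    constructor
    · intro i
      have := Int.floor_le (x i)
      simp only [hm, Pi.zero_apply, Pi.add_apply]
      push_cast
      linarith
    · intro i
      have := Int.lt_floor_add_one (x i)
      simp only [hm, Pi.one_apply, Pi.add_apply]
      push_cast
      linarith
  rw [← h1]
  exact (hC _ h2).trans (le_abs_self C)

theorem CP.int {f : V → ℝ} (hf : CP f) : IntegrableOn f cube := integrableOn_cube hf.cont

/-- The average over the coordinate `j`. -/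
noncomputable def Av (j : Fin 3) (f : V → ℝ) (x : V) : ℝ :=
  ∫ s in Icc (0 : ℝ) 1, f (update x j s)

theorem Av_eq (j : Fin 3) (f : V → ℝ) (x : V) :
    Av j f x = ∫ s in (0 : ℝ)..1, f (update x j s) := by
  rw [intervalIntegral.integral_of_le zero_le_one, ← integral_Icc_eq_integral_Ioc]
  rfl

theorem intOn_line {f : V → ℝ} (hf : Continuous f) (j : Fin 3) (x : V) :
    IntegrableOn (fun s : ℝ => f (update x j s)) (Icc 0 1) :=
  (hf.comp (cont_update x j)).continuousOn.integrableOn_Icc

theorem ofReal_Av {f : V → ℝ} (hf : Continuous f) (h0 : ∀ x, 0 ≤ f x) (j : Fin 3) (x : V) :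
    ENNReal.ofReal (Av j f x) = I j (fun y => ENNReal.ofReal (f y)) x := by
  rw [Av_eq, ofReal_line hf h0]

theorem CP.av {f : V → ℝ} (hf : CP f) (j : Fin 3) : CP (Av j f) where
  cont := by
    unfold Av
    apply continuous_parametric_integral_of_continuous _ isCompact_Icc
    exact hf.cont.comp (Continuous.update continuous_fst j continuous_snd)
  per := by
    intro i x
    unfold Av
    congr 1
    funext s
    by_cases h : i = j
    · subst h
      congr 1
      funext k
      by_cases hk : k = i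
      · subst hk; simp
      · simp [hk]
    · have : update (x + Pi.single i 1) j s = update x j s + Pi.single i 1 := by
        funext k
        by_cases hk : k = j
        · subst hk
          simp [Ne.symm h]
        · simp [hk]
      rw [this, hf.per]

theorem ind_Av (j : Fin 3) (f : V → ℝ) : Ind j (Av j f) := by
  intro x s
  unfold Av
  simp only [update_idem]

theorem Av_of_ind {j : Fin 3} {f : V → ℝ} (hf : Ind j f) (x : V) : Av j f x = f x := by
  unfold Av
  simp only [hf x]
  simp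

theorem Ind.av {i j : Fin 3} (hij : i ≠ j) {f : V → ℝ} (hf : Ind i f) : Ind i (Av j f) := by
  intro x s
  unfold Av
  congr 1
  funext r
  rw [update_comm hij, hf]

theorem Av_mul {j : Fin 3} {g : V → ℝ} (hg : Ind j g) (f : V → ℝ) (x : V) :
    Av j (fun y => g y * f y) x = g x * Av j f x := by
  unfold Av
  simp only [hg x]
  rw [integral_const_mul]

theorem Av_cmul (j : Fin 3) (c : ℝ) (f : V → ℝ) (x : V) :
    Av j (fun y => c * f y) x = c * Av j f x := by
  unfold Av
  rw [integral_const_mul]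

theorem Av_add {f g : V → ℝ} (hf : Continuous f) (hg : Continuous g) (j : Fin 3) (x : V) :
    Av j (fun y => f y + g y) x = Av j f x + Av j g x := by
  unfold Av
  exact integral_add (intOn_line hf j x) (intOn_line hg j x)

theorem Av_sub {f g : V → ℝ} (hf : Continuous f) (hg : Continuous g) (j : Fin 3) (x : V) :
    Av j (fun y => f y - g y) x = Av j f x - Av j g x := by
  unfold Av
  exact integral_sub (intOn_line hf j x) (intOn_line hg j x)

theorem Av_sum {ι : Type} {s : Finset ι} {f : ι → V → ℝ} (hf : ∀ i ∈ s, Continuous (f i))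
    (j : Fin 3) (x : V) : Av j (fun y => ∑ i ∈ s, f i y) x = ∑ i ∈ s, Av j (f i) x := by
  unfold Av
  exact integral_finsetSum _ fun i hi => intOn_line (hf i hi) j x

theorem Av_mono {f g : V → ℝ} (hf : Continuous f) (hg : Continuous g) (h : ∀ x, f x ≤ g x)
    (j : Fin 3) (x : V) : Av j f x ≤ Av j g x :=
  integral_mono (intOn_line hf j x) (intOn_line hg j x) fun _ => h _

theorem Av_nonneg {f : V → ℝ} (h : ∀ x, 0 ≤ f x) (j : Fin 3) (x : V) : 0 ≤ Av j f x :=
  integral_nonneg fun _ => h _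

theorem Av_cs {f g : V → ℝ} (hf : Continuous f) (hg : Continuous g) (j : Fin 3) (x : V) :
    Av j (fun y => f y * g y) x ^ 2 ≤ Av j (fun y => f y ^ 2) x * Av j (fun y => g y ^ 2) x :=
  integral_mul_sq_le (intOn_line (hf.pow 2) j x) (intOn_line (hg.pow 2) j x)
    (intOn_line (hf.mul hg) j x)

theorem abs_Av_le {f : V → ℝ} (j : Fin 3) (x : V) : |Av j f x| ≤ Av j (fun y => |f y|) x :=
  abs_integral_le_integral_abs

theorem int_Av {f : V → ℝ} (hf : CP f) (j : Fin 3) :
    ∫ x in cube, Av j f x = ∫ x in cube, f x := by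
  obtain ⟨C, hC0, hC⟩ := hf.bdd
  set g : V → ℝ := fun x => f x + C with hg
  have cg : CP g := hf.add (CP.const C)
  have g0 : ∀ x, 0 ≤ g x := fun x => by
    have := (abs_le.1 (hC x)).1
    simp only [hg]
    linarith
  have a0 : ∀ x, 0 ≤ Av j g x := fun x => Av_nonneg g0 j x
  have h1 : ∫ x in cube, Av j g x = ∫ x in cube, g x := by
    have e1 := ofReal_integral_eq_lintegral_ofReal (μ := volume.restrict cube)
      (cg.av j).int (Filter.Eventually.of_forall a0)
    have e2 := ofReal_integral_eq_lintegral_ofReal (μ := volume.restrict cube)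
      cg.int (Filter.Eventually.of_forall g0)
    have e3 : ∫⁻ x in cube, ENNReal.ofReal (Av j g x) = ∫⁻ x in cube, ENNReal.ofReal (g x) := by
      rw [← J_I j cg.cont.measurable.ennreal_ofReal]
      refine lintegral_congr fun x => ?_
      exact ofReal_Av cg.cont g0 j x
    rw [e3, ← e2] at e1
    exact (ENNReal.ofReal_eq_ofReal_iff (integral_nonneg a0) (integral_nonneg g0)).1 e1
  have h2 : ∀ x, Av j g x = Av j f x + C := by
    intro x
    rw [hg, Av_add hf.cont continuous_const, Av_of_ind (f := fun _ => C) (fun _ _ => rfl)]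
  simp_rw [h2] at h1
  have hfin := cube_finite
  rw [integral_add (hf.av j).int (integrable_const C), hg,
    integral_add hf.int (integrable_const C)] at h1
  linarith

theorem Av_comm {f : V → ℝ} (hf : CP f) {i j : Fin 3} (hij : i ≠ j) :
    Av i (Av j f) = Av j (Av i f) := by
  obtain ⟨C, hC0, hC⟩ := hf.bdd
  set g : V → ℝ := fun x => f x + C with hg
  have cg : CP g := hf.add (CP.const C)
  have g0 : ∀ x, 0 ≤ g x := fun x => by
    have := (abs_le.1 (hC x)).1
    simp only [hg]
    linarith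
  have e : ∀ k : Fin 3, ∀ x, Av k g x = Av k f x + C := by
    intro k x
    rw [hg, Av_add hf.cont continuous_const, Av_of_ind (f := fun _ => C) (fun _ _ => rfl)]
  have e2 : ∀ k l : Fin 3, ∀ x, Av k (Av l g) x = Av k (Av l f) x + C := by
    intro k l x
    have : Av l g = fun x => Av l f x + C := funext (e l)
    rw [this, Av_add (hf.av l).cont continuous_const, Av_of_ind (f := fun _ => C) (fun _ _ => rfl)]
  have e3 : ∀ k l : Fin 3, ∀ x, ENNReal.ofReal (Av k (Av l g) x)
      = I k (I l fun y => ENNReal.ofReal (g y)) x := by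
    intro k l x
    rw [ofReal_Av (cg.av l).cont (Av_nonneg g0 l) k x]
    congr 1
    funext y
    exact ofReal_Av cg.cont g0 l y
  funext x
  have h1 := e3 i j x
  rw [I_comm hij cg.cont.measurable.ennreal_ofReal, ← e3 j i x] at h1
  have h2 := (ENNReal.ofReal_eq_ofReal_iff (Av_nonneg (Av_nonneg g0 j) i x)
    (Av_nonneg (Av_nonneg g0 i) j x)).1 h1
  rw [e2, e2] at h2
  linarith

/-- The map `(s, x) ↦ update x j s`. -/
noncomputable def upd (j : Fin 3) : ℝ × V →L[ℝ] V :=
  ContinuousLinearMap.pi fun i =>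
    if i = j then ContinuousLinearMap.fst ℝ ℝ V
    else (ContinuousLinearMap.proj i).comp (ContinuousLinearMap.snd ℝ ℝ V)

theorem upd_apply (j : Fin 3) (s : ℝ) (x : V) : upd j (s, x) = update x j s := by
  funext i
  unfold upd
  by_cases h : i = j
  · subst h; simp
  · simp [h]

theorem upd_zero_single {j k : Fin 3} (h : k ≠ j) :
    upd j (0, Pi.single k 1) = Pi.single k 1 := by
  rw [upd_apply]
  funext i
  by_cases hi : i = j
  · subst hi
    simp [Ne.symm h]
  · simp [hi]

theorem upd_zero_single_self (j : Fin 3) : upd j (0, Pi.single j 1) = 0 := by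
  rw [upd_apply]
  funext i
  by_cases hi : i = j
  · subst hi
    simp
  · simp [hi]

open Pool.Agent.H631R3 in
theorem fderiv_Av {f : V → ℝ} (hf : ContDiff ℝ ∞ f) (j : Fin 3) (x v : V) :
    ContDiff ℝ ∞ (Av j f) ∧
    fderiv ℝ (Av j f) x v = ∫ s in Icc (0 : ℝ) 1, fderiv ℝ f (update x j s) (upd j (0, v)) := by
  have hk : ContDiff ℝ ∞ (fun q : ℝ × V => f (upd j q)) := hf.comp (upd j).contDiff
  have e : ∀ y : V, Av j f y = ∫ s in Icc (0 : ℝ) 1, (fun q : ℝ × V => f (upd j q)) (s, y) := by
    intro y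
    unfold Av
    simp only [upd_apply]
  have e' : Av j f = fun y => ∫ s in Icc (0 : ℝ) 1, (fun q : ℝ × V => f (upd j q)) (s, y) :=
    funext e
  constructor
  · rw [e', ← contDiffOn_univ]
    exact contDiffOn_PI isCompact_Icc isOpen_univ isOpen_univ (subset_univ _) hk.contDiffOn
  · rw [e']
    have := fderiv_PI_apply (μ := volume) (K := Icc (0 : ℝ) 1) (W := (univ : Set (ℝ × V)))
      (U := (univ : Set V)) isCompact_Icc isOpen_univ isOpen_univ (subset_univ _)
      (k := fun q : ℝ × V => f (upd j q)) (hk.of_le (by norm_cast)).contDiffOn (mem_univ x) v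
    rw [this]
    congr 1
    funext s
    have h1 : HasFDerivAt (fun q : ℝ × V => f (upd j q))
        ((fderiv ℝ f (upd j (s, x))).comp (upd j)) (s, x) :=
      ((hf.differentiable (by norm_cast)) _).hasFDerivAt.comp (s, x) (upd j).hasFDerivAt
    rw [h1.fderiv, upd_apply]
    rfl

theorem av_sp {f : V → ℝ} (hf : SP f) (j : Fin 3) : SP (Av j f) where
  smooth := (fderiv_Av hf.smooth j 0 0).1
  per := ((cp_of hf).av j).per

theorem pd_Av {f : V → ℝ} (hf : SP f) {j k : Fin 3} (h : k ≠ j) :
    pd k (Av j f) = Av j (pd k f) := by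
  funext x
  unfold pd
  rw [(fderiv_Av hf.smooth j x (Pi.single k 1)).2, upd_zero_single h]
  rfl

theorem pd_Av_self {f : V → ℝ} (hf : SP f) (j : Fin 3) (x : V) : pd j (Av j f) x = 0 := by
  unfold pd
  rw [(fderiv_Av hf.smooth j x (Pi.single j 1)).2, upd_zero_single_self]
  simp

theorem Av_pd_self {f : V → ℝ} (hf : SP f) (j : Fin 3) (x : V) : Av j (pd j f) x = 0 := by
  rw [Av_eq]
  have h1 : ∫ s in (0 : ℝ)..1, pd j f (update x j s) = f (update x j 1) - f (update x j 0) := by
    apply intervalIntegral.integral_eq_sub_of_hasDerivAt (f := fun r => f (update x j r))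
    · intro r _
      exact hasDerivAt_line hf x j r
    · exact ((hf.pd j).cont.comp (cont_update x j)).intervalIntegrable _ _
  rw [h1]
  have h2 : update x j 1 = update x j 0 + Pi.single j 1 := by
    funext k
    by_cases hk : k = j
    · subst hk; simp
    · simp [hk]
  rw [h2, hf.per]
  ring

/-- The derivative in a direction on which the function does not depend. -/
theorem pd_of_ind {f : V → ℝ} (hf : SP f) {j : Fin 3} (hi : Ind j f) (x : V) : pd j f x = 0 := by
  have e : Av j f = f := funext fun y => Av_of_ind hi y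
  have := pd_Av_self hf j x
  rwa [e] at this

/-- Integrals against functions which do not depend on the coordinate `j`. -/
theorem int_mul_Av {f g : V → ℝ} (hf : CP f) (hg : CP g) {j : Fin 3} (hi : Ind j g) :
    ∫ x in cube, g x * Av j f x = ∫ x in cube, g x * f x := by
  rw [← int_Av (hg.mul hf) j]
  congr 1
  funext x
  exact (Av_mul hi f x).symm

section time

variable {T : ℝ}

/-- Smooth in space and time. -/
def JS (T : ℝ) (f : ℝ → V → ℝ) : Prop :=
  ContDiffOn ℝ ∞ (fun z : ℝ × V => f z.1 z.2) (Ioo 0 T ×ˢ univ)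

theorem js_open (T : ℝ) : IsOpen (Ioo 0 T ×ˢ (univ : Set V)) := isOpen_Ioo.prod isOpen_univ

theorem JS.sub {f g : ℝ → V → ℝ} (hf : JS T f) (hg : JS T g) : JS T fun t x => f t x - g t x :=
  ContDiffOn.sub hf hg

theorem JS.pow {f : ℝ → V → ℝ} (hf : JS T f) (n : ℕ) : JS T fun t x => f t x ^ n :=
  ContDiffOn.pow hf n

theorem JS.sum {ι : Type} {s : Finset ι} {f : ι → ℝ → V → ℝ} (hf : ∀ i ∈ s, JS T (f i)) :
    JS T fun t x => ∑ i ∈ s, f i t x :=
  ContDiffOn.sum hf

theorem JS.hasDerivAt {f : ℝ → V → ℝ} (hf : JS T f) {t : ℝ} (ht : t ∈ Ioo 0 T) (x : V) :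
    HasDerivAt (fun s => f s x) (dt f t x) t := by
  have := hasDerivAt_slice (F := f) (hf.of_le (by norm_cast)) ht x
  have h2 := this.deriv
  unfold dt
  rwa [h2]

open Pool.Agent.H631R3 in
theorem js_av_aux {f : ℝ → V → ℝ} (hf : JS T f) (j : Fin 3) :
    JS T (fun t => Av j (f t)) ∧ ∀ t ∈ Ioo 0 T, ∀ x,
      dt (fun t => Av j (f t)) t x = Av j (dt f t) x := by
  set L : ℝ × (ℝ × V) →L[ℝ] ℝ × V :=
    ((ContinuousLinearMap.fst ℝ ℝ V).comp (ContinuousLinearMap.snd ℝ ℝ (ℝ × V))).prod
      ((upd j).comp ((ContinuousLinearMap.fst ℝ ℝ (ℝ × V)).prod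
        ((ContinuousLinearMap.snd ℝ ℝ V).comp (ContinuousLinearMap.snd ℝ ℝ (ℝ × V))))) with hL
  have hLa : ∀ s t x, L (s, (t, x)) = (t, update x j s) := by
    intro s t x
    rw [hL]
    simp [upd_apply]
  have hO := js_open T
  set W : Set (ℝ × (ℝ × V)) := univ ×ˢ (Ioo 0 T ×ˢ univ) with hW
  have hWo : IsOpen W := isOpen_univ.prod hO
  have hmaps : MapsTo L W (Ioo 0 T ×ˢ (univ : Set V)) := by
    rintro ⟨s, t, x⟩ h
    rw [hLa]
    exact ⟨h.2.1, mem_univ _⟩
  have hk : ContDiffOn ℝ ∞ (fun q : ℝ × (ℝ × V) => (fun z : ℝ × V => f z.1 z.2) (L q)) W :=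
    hf.comp L.contDiff.contDiffOn hmaps
  have e : (fun z : ℝ × V => Av j (f z.1) z.2) = fun z => ∫ s in Icc (0 : ℝ) 1,
      (fun q : ℝ × (ℝ × V) => (fun z : ℝ × V => f z.1 z.2) (L q)) (s, z) := by
    funext z
    unfold Av
    simp only [hLa]
  have hsub : Icc (0 : ℝ) 1 ×ˢ (Ioo 0 T ×ˢ (univ : Set V)) ⊆ W :=
    prod_mono (subset_univ _) subset_rfl
  have hJ : JS T (fun t => Av j (f t)) := by
    unfold JS
    rw [e]
    exact contDiffOn_PI isCompact_Icc hWo hO hsub hk
  refine ⟨hJ, fun t ht x => ?_⟩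
  have h1 : dt (fun t => Av j (f t)) t x
      = fderiv ℝ (fun z : ℝ × V => Av j (f z.1) z.2) (t, x) (1, 0) :=
    (hasDerivAt_slice (F := fun t => Av j (f t)) (hJ.of_le (by norm_cast)) ht x).deriv
  rw [h1, e]
  have h2 := fderiv_PI_apply (μ := volume) (K := Icc (0 : ℝ) 1) isCompact_Icc hWo hO hsub
    (k := fun q : ℝ × (ℝ × V) => (fun z : ℝ × V => f z.1 z.2) (L q))
    (hk.of_le (by norm_cast)) (y₀ := (t, x)) ⟨ht, mem_univ _⟩ (1, 0)
  rw [h2]
  unfold Av
  congr 1
  funext s
  have hmem : Ioo 0 T ×ˢ (univ : Set V) ∈ 𝓝 (L (s, (t, x))) := by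
    rw [hLa]
    exact hO.mem_nhds ⟨ht, mem_univ _⟩
  have hd : DifferentiableAt ℝ (fun z : ℝ × V => f z.1 z.2) (L (s, (t, x))) :=
    (hf.contDiffAt hmem).differentiableAt (by norm_cast)
  have h3 : HasFDerivAt (fun q : ℝ × (ℝ × V) => (fun z : ℝ × V => f z.1 z.2) (L q))
      ((fderiv ℝ (fun z : ℝ × V => f z.1 z.2) (L (s, (t, x)))).comp L) (s, (t, x)) :=
    hd.hasFDerivAt.comp (s, (t, x)) L.hasFDerivAt
  rw [h3.fderiv]
  simp only [ContinuousLinearMap.comp_apply]
  have h4 : L (0, (1, 0)) = (1, 0) := by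
    rw [hLa]
    simp
  rw [h4, hLa]
  exact (hasDerivAt_slice (F := f) (hf.of_le (by norm_cast)) ht (update x j s)).deriv.symm

end time

end Pool.Agent.H4LA
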