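import Pool.Agent.H459R3.NS.Defs

/-!
A closed system of integral inequalities.
-/

set_option autoImplicit false
set_option linter.unusedVariables false

open MeasureTheory Set Function Filter Topology

namespace Pool.Agent.H4LA

section

variable {T : ℝ}

theorem integrableOn_of_bdd {y : ℝ → ℝ} {D : ℝ} (cy : ContinuousOn y (Ico 0 T))
    (y0 : ∀ t, 0 ≤ y t) (hD : ∀ t ∈ Ico 0 T, ∫ s in (0 : ℝ)..t, y s ≤ D) (hT : 0 < T) :
    IntegrableOn y (Ioc 0 T) := by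
  have hlim : Tendsto (fun n : ℕ => T - T / (n + 1)) atTop (𝓝 T) := by
    have h1 : Tendsto (fun n : ℕ => T / ((n : ℝ) + 1)) atTop (𝓝 0) :=
      tendsto_const_div_atTop_nhds_zero_nat T |>.comp (tendsto_add_atTop_nat 1) |>.congr
        fun n => by simp
    simpa using tendsto_const_nhds.sub h1
  have hmem : ∀ n : ℕ, T - T / (n + 1) ∈ Ico 0 T := by
    intro n
    have h1 : (0 : ℝ) < n + 1 := by positivity
    have h2 : T / (n + 1) ≤ T := div_le_self hT.le (by linarith [(Nat.cast_nonneg n : (0:ℝ) ≤ n)])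
    have h3 : 0 < T / (n + 1) := by positivity
    constructor <;> linarith
  refine integrableOn_Ioc_of_intervalIntegral_norm_bounded_right (I := D) (l := atTop)
    (b := fun n : ℕ => T - T / (n + 1)) ?_ hlim ?_
  · intro n
    have : ContinuousOn y (Icc 0 (T - T / (n + 1))) :=
      cy.mono fun s hs => ⟨hs.1, hs.2.trans_lt (hmem n).2⟩
    exact this.integrableOn_Icc.mono_set Ioc_subset_Icc_self
  · refine Filter.Eventually.of_forall fun n => ?_
    have h1 := hD _ (hmem n)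
    rw [intervalIntegral.integral_of_le (hmem n).1] at h1
    refine le_trans (le_of_eq ?_) h1
    congr 1
    funext s
    rw [Real.norm_eq_abs, abs_of_nonneg (y0 s)]

/-- Small tails. -/
theorem small_tail {w : ℝ → ℝ} (hT : 0 < T) (hw : IntegrableOn w (Ioc 0 T))
    (w0 : ∀ t ∈ Ioo 0 T, 0 ≤ w t) {ε : ℝ} (hε : 0 < ε) :
    ∃ t0 ∈ Ioo 0 T, ∀ t ∈ Ico t0 T, ∫ s in t0..t, w s ≤ ε := by
  have hwI : IntegrableOn w (uIcc 0 T) := by
    rw [uIcc_of_le hT.le, integrableOn_Icc_iff_integrableOn_Ioc]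
    exact hw
  have hc : ContinuousOn (fun x => ∫ t in (0 : ℝ)..x, w t) (uIcc 0 T) :=
    intervalIntegral.continuousOn_primitive_interval hwI
  rw [uIcc_of_le hT.le] at hc
  have h1 : ContinuousWithinAt (fun x => ∫ t in (0 : ℝ)..x, w t) (Icc 0 T) T :=
    hc T (right_mem_Icc.2 hT.le)
  have h2 : ∀ᶠ x in 𝓝[Icc 0 T] T, (∫ t in (0 : ℝ)..T, w t) - ε < ∫ t in (0 : ℝ)..x, w t :=
    h1 (lt_mem_nhds (by linarith))
  have h3 : ∀ᶠ x in 𝓝[<] T, (∫ t in (0 : ℝ)..T, w t) - ε < ∫ t in (0 : ℝ)..x, w t := by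
    have h4 : 𝓝[Ioo 0 T] T ≤ 𝓝[Icc 0 T] T := nhdsWithin_mono _ Ioo_subset_Icc_self
    rw [nhdsWithin_Ioo_eq_nhdsLT hT] at h4
    exact h4 h2
  have h5 : ∀ᶠ x in 𝓝[<] T, x ∈ Ioo 0 T := Ioo_mem_nhdsLT hT
  obtain ⟨t0, ht1, ht0⟩ := (h3.and h5).exists
  refine ⟨t0, ht0, fun t ht => ?_⟩
  have hI : ∀ a b : ℝ, 0 ≤ a → a ≤ b → b ≤ T → IntervalIntegrable w volume a b := by
    intro a b ha hab hb
    rw [intervalIntegrable_iff_integrableOn_Ioc_of_le hab]
    exact hw.mono_set (Ioc_subset_Ioc ha hb)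
  have e1 : (∫ s in (0 : ℝ)..t0, w s) + ∫ s in t0..t, w s = ∫ s in (0 : ℝ)..t, w s :=
    intervalIntegral.integral_add_adjacent_intervals (hI 0 t0 le_rfl ht0.1.le ht0.2.le)
      (hI t0 t ht0.1.le ht.1 ht.2.le)
  have e2 : (∫ s in (0 : ℝ)..t, w s) + ∫ s in t..T, w s = ∫ s in (0 : ℝ)..T, w s :=
    intervalIntegral.integral_add_adjacent_intervals (hI 0 t le_rfl (ht0.1.le.trans ht.1) ht.2.le)
      (hI t T (ht0.1.le.trans ht.1) ht.2.le le_rfl)
  have e3 : 0 ≤ ∫ s in t..T, w s := by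
    rw [intervalIntegral.integral_of_le ht.2.le, integral_Ioc_eq_integral_Ioo]
    refine setIntegral_nonneg measurableSet_Ioo fun s hs => ?_
    exact w0 s ⟨ht0.1.trans (ht.1.trans_lt hs.1), hs.2⟩
  linarith

end

end Pool.Agent.H4LA
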