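import Pool.Agent.H4LA.Clo

/-!
A third closed system of integral inequalities.
-/

set_option autoImplicit false
set_option linter.unusedVariables false

open MeasureTheory Set Function Filter Topology

namespace Pool.Agent.H4LA

variable {T : ℝ}

/-- The closed system with a parameter. -/
theorem closure3 {a κ C D θ ρ e : ℝ} {y η π Q w : ℝ → ℝ} (hT : 0 < T) (ha : 0 < a)
    (hκ : 0 ≤ κ) (hC : 0 ≤ C) (he : 0 ≤ e) (heC : 2 * (e * C) ≤ a ^ 2) (hθ0 : 0 ≤ θ)
    (hρ0 : 0 ≤ ρ) (hθρ : θ + ρ < 1) (cy : ContinuousOn y (Ico 0 T))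
    (cη : ContinuousOn η (Ico 0 T)) (cπ : ContinuousOn π (Ico 0 T))
    (cQ : ContinuousOn Q (Ico 0 T)) (y0 : ∀ t, 0 ≤ y t) (η0 : ∀ t, 0 ≤ η t)
    (π0 : ∀ t, 0 ≤ π t) (Q0 : ∀ t, 0 ≤ Q t) (hηy : ∀ t ∈ Ioo 0 T, η t ≤ y t)
    (w0 : ∀ t ∈ Ioo 0 T, 0 ≤ w t) (hwI' : IntegrableOn w (Ioo 0 T))
    (hD : ∀ t ∈ Ico 0 T, ∫ s in (0 : ℝ)..t, y s ≤ D)
    (hA : ∀ P, 1 ≤ P → ∀ s t, 0 < s → s ≤ t → t < T → (∀ r ∈ Icc s t, 1 + y r ≤ P) →
      η t - η s ≤ ∫ r in s..t, (-(a * π r) + κ * ((1 + η r) * y r + P ^ ρ * w r)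
        + e * P ^ (-θ) * Q r))
    (hB : ∀ s t, 0 < s → s ≤ t → t < T →
      y t - y s ≤ ∫ r in s..t, (-(a * Q r) + C * ((1 + y r) ^ θ * (η r + π r)))) :
    ∃ M, ∀ t ∈ Ico 0 T, y t ≤ M ∧ η t ≤ M ∧ ∫ r in (0 : ℝ)..t, π r ≤ M := by
  have hyI := integrableOn_of_bdd cy y0 hD hT
  set ε : ℝ := 1 / (2 * (κ + 1)) with hε
  have hε0 : 0 < ε := by positivity
  have hε1 : κ * ε ≤ 1 / 2 := by
    rw [hε, mul_one_div, div_le_div_iff₀ (by positivity) (by norm_num)]
    linarith
  have hε2 : ε ≤ 1 := by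
    rw [hε, div_le_one (by positivity)]
    linarith
  obtain ⟨t0, ht0, htail⟩ := small_tail hT hyI (fun t _ => y0 t) hε0
  set W : ℝ := ∫ s in Ioo 0 T, w s with hW
  have hW0 : 0 ≤ W := setIntegral_nonneg measurableSet_Ioo w0
  set A1 : ℝ := 2 * (η t0 + 1 / 2 + κ * W + e / a * y t0 + a / 2) with hA1
  have hA10 : 0 ≤ A1 := by
    have := y0 t0
    have := η0 t0
    positivity
  set B1 : ℝ := 1 + y t0 + C * (1 + 2 * A1 / a) with hB1
  have hB10 : 1 ≤ B1 := by
    have := y0 t0
    have : 0 ≤ C * (1 + 2 * A1 / a) := by positivity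
    linarith
  set P1 : ℝ := B1 ^ (1 / (1 - (θ + ρ))) with hP1
  have h1θ : 0 < 1 - (θ + ρ) := by linarith
  have hP10 : 0 ≤ P1 := by positivity
  have sub : ∀ t, t < T → Icc t0 t ⊆ Ico 0 T := fun t ht s hs =>
    ⟨ht0.1.le.trans hs.1, hs.2.trans_lt ht⟩
  have ic : ∀ {f : ℝ → ℝ}, ContinuousOn f (Ico 0 T) → ∀ r, t0 ≤ r → r < T →
      IntervalIntegrable f volume t0 r := by
    intro f hf r hr hrT
    apply ContinuousOn.intervalIntegrable
    rw [uIcc_of_le hr]
    exact hf.mono (sub r hrT)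
  have iw : ∀ r, t0 ≤ r → r < T → IntervalIntegrable w volume t0 r := by
    intro r hr hrT
    rw [intervalIntegrable_iff_integrableOn_Ioc_of_le hr]
    exact hwI'.mono_set fun s hs => ⟨ht0.1.trans hs.1, hs.2.trans_lt hrT⟩
  have key : ∀ t ∈ Ico t0 T, y t ≤ P1 ∧ η t ≤ A1 * P1 ^ ρ ∧
      (∫ r in t0..t, π r) ≤ 2 * (A1 * P1 ^ ρ) / a := by
    intro t ht
    have htT := ht.2
    have ht00 := ht.1
    have hcomp : IsCompact (Icc t0 t) := isCompact_Icc
    have hne : (Icc t0 t).Nonempty := ⟨t0, left_mem_Icc.2 ht.1⟩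
    obtain ⟨t1, ht1, hmax1⟩ := hcomp.exists_isMaxOn hne (cy.mono (sub t htT))
    obtain ⟨t2, ht2, hmax2⟩ := hcomp.exists_isMaxOn hne (cη.mono (sub t htT))
    have hy1 : ∀ s ∈ Icc t0 t, y s ≤ y t1 := fun s hs => hmax1 hs
    have hη2 : ∀ s ∈ Icc t0 t, η s ≤ η t2 := fun s hs => hmax2 hs
    set P : ℝ := 1 + y t1 with hP
    have hP1' : 1 ≤ P := by linarith [y0 t1]
    have hP0 : 0 < P := by linarith
    have hPθ : 1 ≤ P ^ θ := Real.one_le_rpow hP1' hθ0
    have hPρ : 1 ≤ P ^ ρ := Real.one_le_rpow hP1' hρ0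
    have hPn : P ^ (-θ) ≤ 1 := Real.rpow_le_one_of_one_le_of_nonpos hP1' (by linarith)
    have hPn0 : 0 < P ^ (-θ) := Real.rpow_pos_of_pos hP0 _
    have hPP : P ^ (-θ) * P ^ θ = 1 := by
      rw [← Real.rpow_add hP0]
      simp
    -- elementary bounds
    have b1 : ∀ r ∈ Icc t0 t, ∫ s in t0..r, y s ≤ ε := fun r hr =>
      htail r ⟨hr.1, hr.2.trans_lt htT⟩
    have b2 : ∀ r ∈ Icc t0 t, ∫ s in t0..r, η s ≤ 1 := by
      intro r hr
      refine le_trans ?_ ((b1 r hr).trans hε2)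
      have hrT := hr.2.trans_lt htT
      apply intervalIntegral.integral_mono_on hr.1 (ic cη r hr.1 hrT) (ic cy r hr.1 hrT)
      intro s hs
      exact hηy s ⟨ht0.1.trans_le hs.1, hs.2.trans_lt hrT⟩
    have b3 : ∀ r ∈ Icc t0 t, ∫ s in t0..r, w s ≤ W := by
      intro r hr
      rw [intervalIntegral.integral_of_le hr.1]
      refine setIntegral_mono_set hwI' ?_ ?_
      · exact (ae_restrict_iff' measurableSet_Ioo).2 (Filter.Eventually.of_forall w0)
      · exact Filter.Eventually.of_forall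
          (fun s hs => ⟨ht0.1.trans hs.1, (hs.2.trans hr.2).trans_lt htT⟩)
    have b4 : ∀ r ∈ Icc t0 t, 0 ≤ ∫ s in t0..r, π s := fun r hr =>
      intervalIntegral.integral_nonneg hr.1 fun s _ => π0 s
    have b5 : ∀ r ∈ Icc t0 t, 0 ≤ ∫ s in t0..r, Q s := fun r hr =>
      intervalIntegral.integral_nonneg hr.1 fun s _ => Q0 s
    -- the second inequality
    have hB' : ∀ r ∈ Icc t0 t, y r + a * (∫ s in t0..r, Q s)
        ≤ y t0 + C * P ^ θ * (1 + ∫ s in t0..r, π s) := by
      intro r hr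
      have hrT := hr.2.trans_lt htT
      have h1 := hB t0 r ht0.1 hr.1 hrT
      have j1 := ic cQ r hr.1 hrT
      have j2 := ic cη r hr.1 hrT
      have j3 := ic cπ r hr.1 hrT
      have c4 : ContinuousOn (fun r => C * ((1 + y r) ^ θ * (η r + π r))) (Ico 0 T) :=
        continuousOn_const.mul (((continuousOn_const.add cy).rpow_const
          fun x hx => Or.inr hθ0).mul (cη.add cπ))
      have j4 := ic c4 r hr.1 hrT
      have j1' : IntervalIntegrable (fun s => -(a * Q s)) volume t0 r := (j1.const_mul a).neg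
      rw [intervalIntegral.integral_add j1' j4, intervalIntegral.integral_neg,
        intervalIntegral.integral_const_mul] at h1
      have h2 : ∫ s in t0..r, C * ((1 + y s) ^ θ * (η s + π s))
          ≤ ∫ s in t0..r, C * P ^ θ * (η s + π s) := by
        apply intervalIntegral.integral_mono_on hr.1 j4 ((j2.add j3).const_mul _)
        intro s hs
        have l0 : 0 < 1 + y s := by linarith [y0 s]
        have l2 : (1 + y s) ^ θ ≤ P ^ θ :=
          Real.rpow_le_rpow l0.le (by linarith [hy1 s ⟨hs.1, hs.2.trans hr.2⟩]) hθ0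
        have l3 := mul_le_mul_of_nonneg_right l2 (add_nonneg (η0 s) (π0 s))
        have l4 := mul_le_mul_of_nonneg_left l3 hC
        linarith
      have e2 : ∫ s in t0..r, C * P ^ θ * (η s + π s)
          = C * P ^ θ * ((∫ s in t0..r, η s) + ∫ s in t0..r, π s) := by
        rw [intervalIntegral.integral_const_mul, intervalIntegral.integral_add j2 j3]
      rw [e2] at h2
      have h3 := mul_le_mul_of_nonneg_left
        (add_le_add (b2 r hr) (le_refl (∫ s in t0..r, π s)))
        (by positivity : 0 ≤ C * P ^ θ)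
      linarith
    -- the first inequality
    have hA' : ∀ r ∈ Icc t0 t, η r + a / 2 * (∫ s in t0..r, π s)
        ≤ η t0 + (1 + η t2) / 2 + κ * W * P ^ ρ + e / a * y t0 + a / 2 := by
      intro r hr
      have hrT := hr.2.trans_lt htT
      have h1 := hA P hP1' t0 r ht0.1 hr.1 hrT (fun s hs => by
        have := hy1 s ⟨hs.1, hs.2.trans hr.2⟩
        linarith)
      have j1 := ic cπ r hr.1 hrT
      have cηy : ContinuousOn (fun s => (1 + η s) * y s) (Ico 0 T) :=
        (continuousOn_const.add cη).mul cy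
      have j2 := ic cηy r hr.1 hrT
      have j3 := iw r hr.1 hrT
      have j4 := ic cQ r hr.1 hrT
      have j5 := ic cy r hr.1 hrT
      have k1 : IntervalIntegrable (fun s => -(a * π s)) volume t0 r := (j1.const_mul a).neg
      have k2 : IntervalIntegrable (fun s => (1 + η s) * y s + P ^ ρ * w s) volume t0 r :=
        j2.add (j3.const_mul _)
      have k3 : IntervalIntegrable (fun s => -(a * π s)
          + κ * ((1 + η s) * y s + P ^ ρ * w s)) volume t0 r := k1.add (k2.const_mul κ)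
      rw [intervalIntegral.integral_add k3 (j4.const_mul _),
        intervalIntegral.integral_add k1 (k2.const_mul κ), intervalIntegral.integral_neg,
        intervalIntegral.integral_const_mul, intervalIntegral.integral_const_mul,
        intervalIntegral.integral_add j2 (j3.const_mul _), intervalIntegral.integral_const_mul,
        intervalIntegral.integral_const_mul] at h1
      have h2 : ∫ s in t0..r, (1 + η s) * y s ≤ (1 + η t2) * ε := by
        have l1 : ∫ s in t0..r, (1 + η s) * y s ≤ ∫ s in t0..r, (1 + η t2) * y s := by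
          apply intervalIntegral.integral_mono_on hr.1 j2 (j5.const_mul _)
          intro s hs
          have := hη2 s ⟨hs.1, hs.2.trans hr.2⟩
          exact mul_le_mul_of_nonneg_right (by linarith) (y0 s)
        rw [intervalIntegral.integral_const_mul] at l1
        exact l1.trans (mul_le_mul_of_nonneg_left (b1 r hr) (by linarith [η0 t2]))
      have h3 : P ^ ρ * ∫ s in t0..r, w s ≤ P ^ ρ * W :=
        mul_le_mul_of_nonneg_left (b3 r hr) (by linarith)
      have h4 : κ * ((∫ s in t0..r, (1 + η s) * y s) + P ^ ρ * ∫ s in t0..r, w s)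
          ≤ (1 + η t2) / 2 + κ * W * P ^ ρ := by
        have l1 := mul_le_mul_of_nonneg_left (add_le_add h2 h3) hκ
        have l2 := mul_le_mul_of_nonneg_right hε1 (by linarith [η0 t2] : 0 ≤ 1 + η t2)
        linarith
      have h5 : e * P ^ (-θ) * (∫ s in t0..r, Q s)
          ≤ e / a * y t0 + a / 2 * (1 + ∫ s in t0..r, π s) := by
        have l1 := hB' r hr
        have l2 : a * (∫ s in t0..r, Q s) ≤ y t0 + C * P ^ θ * (1 + ∫ s in t0..r, π s) := by
          linarith [y0 r]
        have l3 : (∫ s in t0..r, Q s) ≤ (y t0 + C * P ^ θ * (1 + ∫ s in t0..r, π s)) / a := by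
          rw [le_div_iff₀ ha]
          linarith
        have l4 := mul_le_mul_of_nonneg_left l3 (by positivity : 0 ≤ e * P ^ (-θ))
        have l5 : e * P ^ (-θ) * ((y t0 + C * P ^ θ * (1 + ∫ s in t0..r, π s)) / a)
            = P ^ (-θ) * (e / a * y t0)
              + (P ^ (-θ) * P ^ θ) * (e * C / a * (1 + ∫ s in t0..r, π s)) := by
          field_simp
        rw [l5, hPP, one_mul] at l4
        have l6 : P ^ (-θ) * (e / a * y t0) ≤ e / a * y t0 :=
          mul_le_of_le_one_left (by have := y0 t0; positivity) hPn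
        have l7 : e * C / a ≤ a / 2 := by
          rw [div_le_iff₀ ha]
          nlinarith
        have l8 := mul_le_mul_of_nonneg_right l7 (by linarith [b4 r hr] :
          0 ≤ 1 + ∫ s in t0..r, π s)
        linarith
      linarith
    set A : ℝ := A1 * P ^ ρ with hAd
    have hAb : 2 * (η t0 + 1 / 2 + κ * W * P ^ ρ + e / a * y t0 + a / 2) ≤ A := by
      have q1 : 0 ≤ η t0 + 1 / 2 + e / a * y t0 + a / 2 := by
        have := y0 t0
        have := η0 t0
        positivity
      have q2 := mul_le_mul_of_nonneg_left hPρ q1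
      rw [hAd, hA1]
      linarith
    have hη2A : η t2 ≤ A := by
      have h1 := hA' t2 ht2
      have h2 := mul_nonneg (by positivity : 0 ≤ a / 2) (b4 t2 ht2)
      linarith
    have hπA : ∀ r ∈ Icc t0 t, ∫ s in t0..r, π s ≤ 2 * A / a := by
      intro r hr
      have h1 := hA' r hr
      have h2 := η0 r
      rw [le_div_iff₀ ha]
      linarith
    have hPb : P ≤ B1 * P ^ (θ + ρ) := by
      have h1 := hB' t1 ht1
      have h2 := mul_nonneg ha.le (b5 t1 ht1)
      have h3 := hπA t1 ht1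
      have h4 : C * P ^ θ * (1 + ∫ s in t0..t1, π s) ≤ C * P ^ θ * (1 + 2 * A / a) :=
        mul_le_mul_of_nonneg_left (by linarith) (by positivity)
      have h5 : 1 + 2 * A / a ≤ (1 + 2 * A1 / a) * P ^ ρ := by
        have e1 : (1 + 2 * A1 / a) * P ^ ρ = P ^ ρ + 2 * A / a := by
          rw [hAd]
          ring
        rw [e1]
        linarith
      have h6 := mul_le_mul_of_nonneg_left h5 (by positivity : 0 ≤ C * P ^ θ)
      have h7 : 1 ≤ P ^ (θ + ρ) := Real.one_le_rpow hP1' (by linarith)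
      have h8 : 1 + y t0 ≤ (1 + y t0) * P ^ (θ + ρ) :=
        le_mul_of_one_le_right (by linarith [y0 t0]) h7
      have h9 : C * P ^ θ * ((1 + 2 * A1 / a) * P ^ ρ)
          = C * (1 + 2 * A1 / a) * P ^ (θ + ρ) := by
        rw [Real.rpow_add hP0]
        ring
      rw [h9] at h6
      have h10 : B1 * P ^ (θ + ρ) = (1 + y t0) * P ^ (θ + ρ)
          + C * (1 + 2 * A1 / a) * P ^ (θ + ρ) := by
        rw [hB1]
        ring
      rw [h10]
      linarith
    have hPP1 : P ≤ P1 := by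
      have h1 : P ^ (1 - (θ + ρ)) ≤ B1 := by
        have h2 : P ^ (1 - (θ + ρ)) = P / P ^ (θ + ρ) := by
          rw [Real.rpow_sub hP0, Real.rpow_one]
        rw [h2, div_le_iff₀ (by positivity)]
        exact hPb
      have h3 := Real.rpow_le_rpow (by positivity) h1 (by positivity : 0 ≤ 1 / (1 - (θ + ρ)))
      rw [← Real.rpow_mul hP0.le, mul_one_div, div_self h1θ.ne', Real.rpow_one] at h3
      exact h3
    have hAA : A ≤ A1 * P1 ^ ρ :=
      mul_le_mul_of_nonneg_left (Real.rpow_le_rpow hP0.le hPP1 hρ0) hA10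
    have hte : t ∈ Icc t0 t := right_mem_Icc.2 ht00
    refine ⟨?_, ?_, ?_⟩
    · have := hy1 t hte
      linarith
    · exact ((hη2 t hte).trans hη2A).trans hAA
    · refine (hπA t hte).trans ?_
      exact div_le_div_of_nonneg_right (by linarith) ha.le
  -- the interval before t0
  have hc0 : Icc 0 t0 ⊆ Ico 0 T := fun s hs => ⟨hs.1, hs.2.trans_lt ht0.2⟩
  obtain ⟨b1, hb1⟩ := (isCompact_Icc.image_of_continuousOn (cy.mono hc0)).bddAbove
  obtain ⟨b2, hb2⟩ := (isCompact_Icc.image_of_continuousOn (cη.mono hc0)).bddAbove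
  set I0 : ℝ := ∫ r in (0 : ℝ)..t0, π r with hI0
  have hI00 : 0 ≤ I0 := intervalIntegral.integral_nonneg ht0.1.le fun s _ => π0 s
  set X2 : ℝ := A1 * P1 ^ ρ with hX2
  have hX20 : 0 ≤ X2 := by positivity
  have ipi : ∀ r t, 0 ≤ r → r ≤ t → t < T → IntervalIntegrable π volume r t := by
    intro r t hr hrt ht
    apply ContinuousOn.intervalIntegrable
    rw [uIcc_of_le hrt]
    exact cπ.mono fun s hs => ⟨hr.trans hs.1, hs.2.trans_lt ht⟩
  refine ⟨max b1 0 + max b2 0 + P1 + X2 + I0 + 2 * X2 / a, fun t ht => ?_⟩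
  have p2 : 0 ≤ 2 * X2 / a := by positivity
  have p3 := le_max_left b1 0
  have p4 := le_max_right b1 0
  have p5 := le_max_left b2 0
  have p6 := le_max_right b2 0
  rcases le_total t t0 with h | h
  · have h1 : y t ≤ b1 := hb1 (mem_image_of_mem _ ⟨ht.1, h⟩)
    have h2 : η t ≤ b2 := hb2 (mem_image_of_mem _ ⟨ht.1, h⟩)
    have h3 : ∫ r in (0 : ℝ)..t, π r ≤ I0 := by
      rw [hI0, ← intervalIntegral.integral_add_adjacent_intervals (ipi 0 t le_rfl ht.1 ht.2)
        (ipi t t0 ht.1 h ht0.2)]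
      have : 0 ≤ ∫ s in t..t0, π s := intervalIntegral.integral_nonneg h fun s _ => π0 s
      linarith
    refine ⟨?_, ?_, ?_⟩ <;> linarith
  · obtain ⟨h1, h2, h3⟩ := key t ⟨h, ht.2⟩
    have h5 : ∫ r in (0 : ℝ)..t, π r = I0 + ∫ r in t0..t, π r := by
      rw [hI0, intervalIntegral.integral_add_adjacent_intervals (ipi 0 t0 le_rfl ht0.1.le ht0.2)
        (ipi t0 t ht0.1.le h ht.2)]
    refine ⟨?_, ?_, ?_⟩ <;> linarith

end Pool.Agent.H4LA
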