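import Pool.Agent.H459R3.NS.Ibp

/-!
Bounds of the weighted integrals of the gradient when the vertical component is dominated by
averages over vertical lines.
-/

set_option autoImplicit false
set_option linter.unusedVariables false

open MeasureTheory Set Function
open scoped ENNReal ContDiff

namespace Pool.Agent.H4LA

open H459R3.NS

/-- `|v|²`. -/
noncomputable def vsq (v : Fin 3 → V → ℝ) (x : V) : ℝ := ∑ i, v i x ^ 2

variable {v : Fin 3 → V → ℝ}

theorem vsq_nonneg (v : Fin 3 → V → ℝ) (x : V) : 0 ≤ vsq v x :=
  Finset.sum_nonneg fun _ _ => sq_nonneg _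

theorem vsq_cont (hv : ∀ i, SP (v i)) : Continuous (vsq v) := by
  unfold vsq
  exact continuous_finsetSum _ fun i _ => (hv i).cont.pow 2

end Pool.Agent.H4LA
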