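import Pool.Agent.H459R3.NS.Ibp

/-!
The cubic forms of a divergence-free field in terms of its vertical component, and their bounds.
-/

set_option autoImplicit false
set_option linter.unusedVariables false

open MeasureTheory Set Function
open scoped ENNReal ContDiff

namespace Pool.Agent.H4LA

open H459R3.NS

/-- The horizontal indices. -/
def HH : Finset (Fin 3) := {0, 1}

theorem sum_HH {E : Type} [AddCommMonoid E] (f : Fin 3 → E) : ∑ k ∈ HH, f k = f 0 + f 1 := by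
  unfold HH
  rw [Finset.sum_pair (by decide)]

/-- Linear relations between integrals. -/
theorem lin_int {n : ℕ} (c : Fin n → ℝ) (f : Fin n → V → ℝ) (hf : ∀ i, Continuous (f i))
    (h : ∀ x, ∑ i, c i * f i x = 0) : ∑ i, c i * ∫ x in cube, f i x = 0 := by
  have e : ∑ i, c i * ∫ x in cube, f i x = ∫ x in cube, ∑ i, c i * f i x := by
    have i0 : ∀ i ∈ (Finset.univ : Finset (Fin n)), Integrable (fun x => c i * f i x)
        (volume.restrict cube) := fun i _ => integrableOn_cube (continuous_const.mul (hf i))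
    rw [integral_finsetSum _ i0]
    exact Finset.sum_congr rfl fun i _ => (integral_const_mul _ _).symm
  rw [e]
  simp_rw [h]
  simp

/-- The integral of a product of three functions. -/
noncomputable def T3 (f g h : V → ℝ) : ℝ := ∫ x in cube, f x * (g x * h x)

theorem T3_ibp {f g h : V → ℝ} (hf : SP f) (hg : SP g) (hh : SP h) (m : Fin 3) :
    T3 (pd m f) g h = -T3 f (pd m g) h - T3 f g (pd m h) := by
  unfold T3
  rw [ibp hf (hg.mul hh) m]
  have e : ∀ x, f x * pd m (fun y => g y * h y) x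
      = f x * (pd m g x * h x) + f x * (g x * pd m h x) := by
    intro x
    rw [pd_mul hg hh]
    ring
  simp_rw [e]
  rw [integral_add (hf.mul ((hg.pd m).mul hh)).int (hf.mul (hg.mul (hh.pd m))).int]
  ring

theorem T3_comm (f g h : V → ℝ) : T3 f g h = T3 f h g := by
  unfold T3
  congr 1
  funext x
  ring

theorem T3_rot (f g h : V → ℝ) : T3 f g h = T3 g f h := by
  unfold T3
  congr 1
  funext x
  ring

theorem abs_T3_le {f g h : V → ℝ} {W P : ℝ} (hf : SP f) (hg : SP g) (hh : SP h)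
    (hW : ∫ x in cube, (f x * g x) ^ 2 ≤ W) (hP : ∫ x in cube, h x ^ 2 ≤ P) :
    |T3 f g h| ≤ √W * √P := by
  have h1 := integral_mul_sq_le (μ := volume.restrict cube) (a := fun x => f x * g x) (b := h)
    (integrableOn_cube ((hf.cont.mul hg.cont).pow 2)) (integrableOn_cube (hh.cont.pow 2))
    (integrableOn_cube ((hf.cont.mul hg.cont).mul hh.cont))
  have e : T3 f g h = ∫ x in cube, f x * g x * h x := by
    unfold T3
    congr 1
    funext x
    ring
  have hW0 : 0 ≤ W := (integral_nonneg fun x => sq_nonneg _).trans hW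
  rw [e, ← Real.sqrt_mul hW0]
  apply Real.abs_le_sqrt
  refine h1.trans ?_
  exact mul_le_mul hW hP (integral_nonneg fun x => sq_nonneg _) hW0

section field

/-- The integral of the squares of the horizontal derivatives. -/
noncomputable def hsq (v : Fin 3 → V → ℝ) : ℝ := ∑ i, ∑ k ∈ HH, ∫ x in cube, pd k (v i) x ^ 2

/-- The integral of the squares of the gradients of the horizontal derivatives. -/
noncomputable def psq (v : Fin 3 → V → ℝ) : ℝ :=
  ∑ i, ∑ k ∈ HH, ∑ m, ∫ x in cube, pd m (pd k (v i)) x ^ 2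

/-- The integral of the squares of the first derivatives. -/
noncomputable def ysq (v : Fin 3 → V → ℝ) : ℝ := ∑ i, ∑ k, ∫ x in cube, pd k (v i) x ^ 2

/-- The integral of the squares. -/
noncomputable def esq (v : Fin 3 → V → ℝ) : ℝ := ∑ i, ∫ x in cube, v i x ^ 2

/-- The cubic form in the equation of `hsq`. -/
noncomputable def cubh (v : Fin 3 → V → ℝ) : ℝ :=
  ∑ k ∈ HH, ∑ i, ∑ j, T3 (pd k (v i)) (pd i (v j)) (pd k (v j))

variable {v : Fin 3 → V → ℝ}

theorem isq_nonneg (f : V → ℝ) : 0 ≤ ∫ x in cube, f x ^ 2 := integral_nonneg fun _ => sq_nonneg _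

theorem hsq_nonneg (v : Fin 3 → V → ℝ) : 0 ≤ hsq v :=
  Finset.sum_nonneg fun _ _ => Finset.sum_nonneg fun _ _ => isq_nonneg _

theorem psq_nonneg (v : Fin 3 → V → ℝ) : 0 ≤ psq v :=
  Finset.sum_nonneg fun _ _ => Finset.sum_nonneg fun _ _ => Finset.sum_nonneg fun _ _ =>
    isq_nonneg _

theorem ysq_nonneg (v : Fin 3 → V → ℝ) : 0 ≤ ysq v :=
  Finset.sum_nonneg fun _ _ => Finset.sum_nonneg fun _ _ => isq_nonneg _

theorem esq_nonneg (v : Fin 3 → V → ℝ) : 0 ≤ esq v :=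
  Finset.sum_nonneg fun _ _ => isq_nonneg _

theorem le_hsq (v : Fin 3 → V → ℝ) (i : Fin 3) {k : Fin 3} (hk : k ∈ HH) :
    ∫ x in cube, pd k (v i) x ^ 2 ≤ hsq v :=
  (Finset.single_le_sum (f := fun k => ∫ x in cube, pd k (v i) x ^ 2)
    (fun k _ => isq_nonneg _) hk).trans
    (Finset.single_le_sum (f := fun i => ∑ k ∈ HH, ∫ x in cube, pd k (v i) x ^ 2)
      (fun i _ => Finset.sum_nonneg fun k _ => isq_nonneg _) (Finset.mem_univ i))

theorem le_ysq (v : Fin 3 → V → ℝ) (i k : Fin 3) :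
    ∫ x in cube, pd k (v i) x ^ 2 ≤ ysq v :=
  (Finset.single_le_sum (f := fun k => ∫ x in cube, pd k (v i) x ^ 2)
    (fun k _ => isq_nonneg _) (Finset.mem_univ k)).trans
    (Finset.single_le_sum (f := fun i => ∑ k, ∫ x in cube, pd k (v i) x ^ 2)
      (fun i _ => Finset.sum_nonneg fun k _ => isq_nonneg _) (Finset.mem_univ i))

theorem le_esq (v : Fin 3 → V → ℝ) (i : Fin 3) : ∫ x in cube, v i x ^ 2 ≤ esq v :=
  Finset.single_le_sum (f := fun i => ∫ x in cube, v i x ^ 2)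
    (fun i _ => isq_nonneg _) (Finset.mem_univ i)

theorem le_psq (v : Fin 3 → V → ℝ) (i m : Fin 3) {k : Fin 3} (hk : k ∈ HH) :
    ∫ x in cube, pd m (pd k (v i)) x ^ 2 ≤ psq v :=
  (Finset.single_le_sum (f := fun m => ∫ x in cube, pd m (pd k (v i)) x ^ 2)
    (fun m _ => isq_nonneg _) (Finset.mem_univ m)).trans
    ((Finset.single_le_sum (f := fun k => ∑ m, ∫ x in cube, pd m (pd k (v i)) x ^ 2)
      (fun k _ => Finset.sum_nonneg fun m _ => isq_nonneg _) hk).trans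
      (Finset.single_le_sum (f := fun i => ∑ k ∈ HH, ∑ m, ∫ x in cube, pd m (pd k (v i)) x ^ 2)
        (fun i _ => Finset.sum_nonneg fun k _ => Finset.sum_nonneg fun m _ => isq_nonneg _)
        (Finset.mem_univ i)))

theorem hsq_le_ysq (v : Fin 3 → V → ℝ) : hsq v ≤ ysq v :=
  Finset.sum_le_sum fun _ _ => Finset.sum_le_sum_of_subset_of_nonneg (Finset.subset_univ _)
    fun _ _ _ => isq_nonneg _

theorem mem0 : (0 : Fin 3) ∈ HH := by decide

theorem mem1 : (1 : Fin 3) ∈ HH := by decide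

variable (hv : ∀ i, SP (v i)) (hdiv : ∀ x, ∑ i, pd i (v i) x = 0)

include hv hdiv in
/-- The part of the cubic form with horizontal indices. -/
theorem cubh_a : ∑ k ∈ HH, ∑ i ∈ HH, ∑ j ∈ HH, T3 (pd k (v i)) (pd i (v j)) (pd k (v j))
    = -(T3 (pd 2 (v 2)) (pd 0 (v 0)) (pd 0 (v 0)) + T3 (pd 2 (v 2)) (pd 1 (v 0)) (pd 1 (v 0))
      + T3 (pd 2 (v 2)) (pd 0 (v 1)) (pd 0 (v 1)) + T3 (pd 2 (v 2)) (pd 1 (v 1)) (pd 1 (v 1))
      - T3 (pd 2 (v 2)) (pd 0 (v 0)) (pd 1 (v 1)) + T3 (pd 2 (v 2)) (pd 1 (v 0)) (pd 0 (v 1))) := by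
  have c : ∀ i j, Continuous (pd j (v i)) := fun i j => ((hv i).pd j).cont
  have h := lin_int (n := 14) ![1, 1, 1, 1, 1, 1, 1, 1, 1, 1, 1, 1, -1, 1]
    ![fun x => pd 0 (v 0) x * (pd 0 (v 0) x * pd 0 (v 0) x),
      fun x => pd 0 (v 0) x * (pd 0 (v 1) x * pd 0 (v 1) x),
      fun x => pd 0 (v 1) x * (pd 1 (v 0) x * pd 0 (v 0) x),
      fun x => pd 0 (v 1) x * (pd 1 (v 1) x * pd 0 (v 1) x),
      fun x => pd 1 (v 0) x * (pd 0 (v 0) x * pd 1 (v 0) x),
      fun x => pd 1 (v 0) x * (pd 0 (v 1) x * pd 1 (v 1) x),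
      fun x => pd 1 (v 1) x * (pd 1 (v 0) x * pd 1 (v 0) x),
      fun x => pd 1 (v 1) x * (pd 1 (v 1) x * pd 1 (v 1) x),
      fun x => pd 2 (v 2) x * (pd 0 (v 0) x * pd 0 (v 0) x),
      fun x => pd 2 (v 2) x * (pd 1 (v 0) x * pd 1 (v 0) x),
      fun x => pd 2 (v 2) x * (pd 0 (v 1) x * pd 0 (v 1) x),
      fun x => pd 2 (v 2) x * (pd 1 (v 1) x * pd 1 (v 1) x),
      fun x => pd 2 (v 2) x * (pd 0 (v 0) x * pd 1 (v 1) x),
      fun x => pd 2 (v 2) x * (pd 1 (v 0) x * pd 0 (v 1) x)]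
    (by
      intro i
      fin_cases i <;> exact (c _ _).mul ((c _ _).mul (c _ _)))
    (by
      intro x
      have hd := hdiv x
      rw [Fin.sum_univ_three] at hd
      simp only [Fin.sum_univ_succ, Matrix.cons_val_zero, Matrix.cons_val_succ]
      simp
      linear_combination (pd 0 (v 0) x ^ 2 + pd 1 (v 0) x ^ 2 + pd 0 (v 1) x ^ 2
        + pd 1 (v 1) x ^ 2 - pd 0 (v 0) x * pd 1 (v 1) x + pd 1 (v 0) x * pd 0 (v 1) x) * hd)
  simp only [Fin.sum_univ_succ, Matrix.cons_val_zero, Matrix.cons_val_succ] at h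
  simp at h
  simp only [sum_HH]
  unfold T3
  linarith

include hv hdiv in
/-- The part of the cubic form with `j = 2`. -/
theorem cubh_c {k : Fin 3} : ∑ i, T3 (pd k (v i)) (pd i (v 2)) (pd k (v 2))
    = -∑ i, T3 (v 2) (pd k (v i)) (pd i (pd k (v 2))) := by
  have e1 : ∀ i, T3 (pd k (v i)) (pd i (v 2)) (pd k (v 2))
      = -T3 (v 2) (pd i (pd k (v i))) (pd k (v 2)) - T3 (v 2) (pd k (v i)) (pd i (pd k (v 2))) := by
    intro i
    rw [T3_rot, T3_ibp (hv 2) ((hv i).pd k) ((hv 2).pd k)]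
  have e2 : ∑ i, T3 (v 2) (pd i (pd k (v i))) (pd k (v 2)) = 0 := by
    have e3 : (fun y => ∑ i, pd i (v i) y) = fun _ => 0 := funext hdiv
    have e4 : ∀ x, ∑ i, pd i (pd k (v i)) x = 0 := by
      intro x
      have : ∀ i, pd i (pd k (v i)) x = pd k (pd i (v i)) x := fun i => by rw [pd_comm (hv i) i k]
      simp_rw [this]
      rw [← pd_sum (fun i _ => (hv i).pd i) k x, e3]
      unfold pd
      simp
    unfold T3
    rw [← integral_finsetSum _ fun i _ => ((hv 2).mul ((((hv i).pd k).pd i).mul ((hv 2).pd k))).int]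
    have e5 : ∀ x, ∑ i, v 2 x * (pd i (pd k (v i)) x * pd k (v 2) x) = 0 := by
      intro x
      rw [← Finset.mul_sum, ← Finset.sum_mul, e4]
      ring
    simp_rw [e5]
    simp
  simp_rw [e1]
  rw [Finset.sum_sub_distrib, Finset.sum_neg_distrib, e2]
  ring

include hv hdiv in
theorem abs_cubh_le {W : ℝ} (hW : ∀ i j, ∫ x in cube, (v 2 x * pd j (v i) x) ^ 2 ≤ W) :
    |cubh v| ≤ 26 * (√W * √(psq v)) := by
  set B := √W * √(psq v) with hB
  -- the basic bound
  have b : ∀ (j i m l : Fin 3) {k : Fin 3}, k ∈ HH →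
      |T3 (v 2) (pd j (v i)) (pd m (pd k (v l)))| ≤ B := fun j i m l k hk =>
    abs_T3_le (hv 2) ((hv i).pd j) (((hv l).pd k).pd m) (hW i j) (le_psq v l m hk)
  have b2 : ∀ (j i m l : Fin 3) {k : Fin 3}, k ∈ HH →
      |T3 (v 2) (pd m (pd k (v l))) (pd j (v i))| ≤ B := fun j i m l k hk => by
    rw [T3_comm]
    exact b j i m l hk
  -- a vertical derivative of `v 2` against two horizontal derivatives
  have hp : ∀ (m i j : Fin 3) {k l : Fin 3}, k ∈ HH → l ∈ HH →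
      |T3 (pd m (v 2)) (pd k (v i)) (pd l (v j))| ≤ 2 * B := by
    intro m i j k l hk hl
    rw [T3_ibp (hv 2) ((hv i).pd k) ((hv j).pd l)]
    have h1 := b2 l j m i hk
    have h2 := b k i m j hl
    rw [abs_le] at *
    constructor <;> linarith [h1.1, h1.2, h2.1, h2.2]
  have hq : ∀ (j : Fin 3) {k : Fin 3}, k ∈ HH →
      |T3 (pd k (v 2)) (pd 2 (v j)) (pd k (v j))| ≤ 2 * B := by
    intro j k hk
    rw [T3_ibp (hv 2) ((hv j).pd 2) ((hv j).pd k)]
    have h1 : |T3 (v 2) (pd k (pd 2 (v j))) (pd k (v j))| ≤ B := by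
      rw [pd_comm (hv j) k 2]
      exact b2 k j 2 j hk
    have h2 := b 2 j k j hk
    rw [abs_le] at *
    constructor <;> linarith [h1.1, h1.2, h2.1, h2.2]
  have hc : ∀ {k : Fin 3}, k ∈ HH → |∑ i, T3 (pd k (v i)) (pd i (v 2)) (pd k (v 2))| ≤ 3 * B := by
    intro k hk
    rw [cubh_c hv hdiv, Fin.sum_univ_three]
    have h0 := b k 0 0 2 hk
    have h1 := b k 1 1 2 hk
    have h2 := b k 2 2 2 hk
    rw [abs_le] at *
    constructor <;> linarith [h0.1, h0.2, h1.1, h1.2, h2.1, h2.2]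
  have ha := cubh_a hv hdiv
  have e : cubh v = (∑ k ∈ HH, ∑ i ∈ HH, ∑ j ∈ HH, T3 (pd k (v i)) (pd i (v j)) (pd k (v j)))
      + (T3 (pd 0 (v 2)) (pd 2 (v 0)) (pd 0 (v 0)) + T3 (pd 0 (v 2)) (pd 2 (v 1)) (pd 0 (v 1))
        + T3 (pd 1 (v 2)) (pd 2 (v 0)) (pd 1 (v 0)) + T3 (pd 1 (v 2)) (pd 2 (v 1)) (pd 1 (v 1)))
      + ((∑ i, T3 (pd 0 (v i)) (pd i (v 2)) (pd 0 (v 2)))
        + ∑ i, T3 (pd 1 (v i)) (pd i (v 2)) (pd 1 (v 2))) := by
    unfold cubh
    simp only [sum_HH, Fin.sum_univ_three]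
    ring
  rw [e, ha]
  have a1 := hp 2 0 0 mem0 mem0
  have a2 := hp 2 0 0 mem1 mem1
  have a3 := hp 2 1 1 mem0 mem0
  have a4 := hp 2 1 1 mem1 mem1
  have a5 := hp 2 0 1 mem0 mem1
  have a6 := hp 2 0 1 mem1 mem0
  have q1 := hq 0 mem0
  have q2 := hq 1 mem0
  have q3 := hq 0 mem1
  have q4 := hq 1 mem1
  have c0 := hc mem0
  have c1 := hc mem1
  rw [abs_le] at *
  constructor <;> linarith [a1.1, a1.2, a2.1, a2.2, a3.1, a3.2, a4.1, a4.2, a5.1, a5.2, a6.1, a6.2,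
    q1.1, q1.2, q2.1, q2.2, q3.1, q3.2, q4.1, q4.2, c0.1, c0.2, c1.1, c1.2]

end field

end Pool.Agent.H4LA
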