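import Pool.Agent.H4LA.Avg

/-!
Averages over horizontal slices.
-/

set_option autoImplicit false
set_option linter.unusedVariables false

open MeasureTheory Set Function Filter Topology
open scoped ENNReal ContDiff

namespace Pool.Agent.H4LA

open H459R3.NS

/-- The average over the horizontal slice through `x`. -/
noncomputable def Hz (f : V → ℝ) : V → ℝ := Av 0 (Av 1 f)

/-- Dependence on the last coordinate only. -/
def I01 (f : V → ℝ) : Prop := Ind 0 f ∧ Ind 1 f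

theorem CP.hz {f : V → ℝ} (hf : CP f) : CP (Hz f) := (hf.av 1).av 0

theorem hz_sp {f : V → ℝ} (hf : SP f) : SP (Hz f) := av_sp (av_sp hf 1) 0

theorem i01_hz (f : V → ℝ) : I01 (Hz f) := ⟨ind_Av 0 _, (ind_Av 1 f).av (by decide)⟩

theorem pd2_hz {f : V → ℝ} (hf : SP f) : pd 2 (Hz f) = Hz (pd 2 f) := by
  unfold Hz
  rw [pd_Av (av_sp hf 1) (by decide), pd_Av hf (by decide)]

theorem Hz_nonneg {f : V → ℝ} (h : ∀ x, 0 ≤ f x) (x : V) : 0 ≤ Hz f x :=
  Av_nonneg (Av_nonneg h 1) 0 x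

theorem Hz_mono {f g : V → ℝ} (hf : CP f) (hg : CP g) (h : ∀ x, f x ≤ g x) (x : V) :
    Hz f x ≤ Hz g x :=
  Av_mono (hf.av 1).cont (hg.av 1).cont (Av_mono hf.cont hg.cont h 1) 0 x

theorem Hz_add {f g : V → ℝ} (hf : CP f) (hg : CP g) (x : V) :
    Hz (fun y => f y + g y) x = Hz f x + Hz g x := by
  unfold Hz
  have : Av 1 (fun y => f y + g y) = fun y => Av 1 f y + Av 1 g y :=
    funext fun y => Av_add hf.cont hg.cont 1 y
  rw [this, Av_add (hf.av 1).cont (hg.av 1).cont]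

theorem Hz_cmul (c : ℝ) (f : V → ℝ) (x : V) : Hz (fun y => c * f y) x = c * Hz f x := by
  unfold Hz
  have : Av 1 (fun y => c * f y) = fun y => c * Av 1 f y := funext fun y => Av_cmul 1 c f y
  rw [this, Av_cmul]

theorem Hz_sum {ι : Type} {s : Finset ι} {f : ι → V → ℝ} (hf : ∀ i ∈ s, CP (f i)) (x : V) :
    Hz (fun y => ∑ i ∈ s, f i y) x = ∑ i ∈ s, Hz (f i) x := by
  unfold Hz
  have : Av 1 (fun y => ∑ i ∈ s, f i y) = fun y => ∑ i ∈ s, Av 1 (f i) y :=
    funext fun y => Av_sum (fun i hi => (hf i hi).cont) 1 y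
  rw [this, Av_sum fun i hi => ((hf i hi).av 1).cont]

theorem Hz_of_ind {f : V → ℝ} (hf : I01 f) (x : V) : Hz f x = f x := by
  unfold Hz
  have : Av 1 f = f := funext fun y => Av_of_ind hf.2 y
  rw [this, Av_of_ind hf.1]

theorem Hz_mul {g : V → ℝ} (hg : I01 g) (f : V → ℝ) (x : V) :
    Hz (fun y => g y * f y) x = g x * Hz f x := by
  unfold Hz
  have : Av 1 (fun y => g y * f y) = fun y => g y * Av 1 f y := funext fun y => Av_mul hg.2 f y
  rw [this, Av_mul hg.1]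

theorem int_Hz {f : V → ℝ} (hf : CP f) : ∫ x in cube, Hz f x = ∫ x in cube, f x := by
  unfold Hz
  rw [int_Av (hf.av 1), int_Av hf]

theorem int_mul_Hz {f g : V → ℝ} (hf : CP f) (hg : CP g) (hi : I01 g) :
    ∫ x in cube, g x * Hz f x = ∫ x in cube, g x * f x := by
  rw [← int_Hz (hg.mul hf)]
  congr 1
  funext x
  exact (Hz_mul hi f x).symm

theorem abs_Hz_le {f : V → ℝ} (hf : CP f) (x : V) : |Hz f x| ≤ Hz (fun y => |f y|) x := by
  unfold Hz
  exact (abs_Av_le 0 x).trans (Av_mono (hf.av 1).cont.abs (hf.abs.av 1).cont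
    (fun y => abs_Av_le 1 y) 0 x)

theorem Hz_cs {f g : V → ℝ} (hf : CP f) (hg : CP g) (x : V) :
    |Hz (fun y => f y * g y) x| ≤ √(Hz (fun y => f y ^ 2) x) * √(Hz (fun y => g y ^ 2) x) := by
  have h0 : 0 ≤ Hz (fun y => f y ^ 2) x := Hz_nonneg (fun y => sq_nonneg _) x
  rw [← Real.sqrt_mul h0]
  apply Real.abs_le_sqrt
  set a : V → ℝ := fun y => √(Av 1 (fun z => f z ^ 2) y) with ha
  set b : V → ℝ := fun y => √(Av 1 (fun z => g z ^ 2) y) with hb
  have ca : CP a := ((hf.pow 2).av 1).sqrt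
  have cb : CP b := ((hg.pow 2).av 1).sqrt
  have h1 : ∀ y, |Av 1 (fun z => f z * g z) y| ≤ a y * b y := by
    intro y
    rw [ha, hb]
    simp only
    rw [← Real.sqrt_mul (Av_nonneg (fun z => sq_nonneg _) 1 y)]
    exact Real.abs_le_sqrt (Av_cs hf.cont hg.cont 1 y)
  have h2 : |Hz (fun y => f y * g y) x| ≤ Av 0 (fun y => a y * b y) x := by
    unfold Hz
    exact (abs_Av_le 0 x).trans (Av_mono ((hf.mul hg).av 1).cont.abs (ca.mul cb).cont h1 0 x)
  have h3 := Av_cs ca.cont cb.cont 0 x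
  have e1 : ∀ y, a y ^ 2 = Av 1 (fun z => f z ^ 2) y := fun y =>
    Real.sq_sqrt (Av_nonneg (fun z => sq_nonneg _) 1 y)
  have e2 : ∀ y, b y ^ 2 = Av 1 (fun z => g z ^ 2) y := fun y =>
    Real.sq_sqrt (Av_nonneg (fun z => sq_nonneg _) 1 y)
  simp only [e1, e2] at h3
  calc Hz (fun y => f y * g y) x ^ 2 = |Hz (fun y => f y * g y) x| ^ 2 := (sq_abs _).symm
    _ ≤ (Av 0 (fun y => a y * b y) x) ^ 2 := pow_le_pow_left₀ (abs_nonneg _) h2 2
    _ ≤ _ := h3

/-- The Cauchy-Schwarz inequality for sums. -/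
theorem Hz_cs_abs {f g : V → ℝ} (hf : CP f) (hg : CP g) (x : V) :
    Hz (fun y => |f y| * |g y|) x ≤ √(Hz (fun y => f y ^ 2) x) * √(Hz (fun y => g y ^ 2) x) := by
  have h := Hz_cs hf.abs hg.abs x
  simp only [sq_abs] at h
  exact (le_abs_self _).trans h

/-- The one-dimensional bound at every point. -/
theorem sq_le_Av {f : V → ℝ} (hf : SP f) (j : Fin 3) (x : V) : f x ^ 2 ≤ Av j (rho j f) x := by
  have hr : CP (rho j f) := by
    unfold rho
    exact ((cp_of hf).pow 2).add (((cp_of hf).mul (cp_of (hf.pd j))).abs.cmul 2)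
  set m : K3 := fun i => -⌊x i⌋ with hm
  set x' : V := x + fun i => (m i : ℝ) with hx'
  have h2 : x' ∈ cube := by
    constructor
    · intro i
      have := Int.floor_le (x i)
      simp only [hx', hm, Pi.zero_apply, Pi.add_apply]
      push_cast
      linarith
    · intro i
      have := Int.lt_floor_add_one (x i)
      simp only [hx', hm, Pi.one_apply, Pi.add_apply]
      push_cast
      linarith
  have h1 : f x' = f x := hf.per.int m x
  have h3 : Av j (rho j f) x' = Av j (rho j f) x := (hr.av j).per.int m x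
  have h4 := sq_le_line hf j h2
  rw [← Av_eq, h1, h3] at h4
  exact h4

theorem rho_cp {f : V → ℝ} (hf : SP f) (j : Fin 3) : CP (rho j f) := by
  unfold rho
  exact ((cp_of hf).pow 2).add (((cp_of hf).mul (cp_of (hf.pd j))).abs.cmul 2)

theorem Hz_rho_le {f : V → ℝ} (hf : SP f) {k : Fin 3} {x : V} {A B : ℝ}
    (hA : Hz (fun y => f y ^ 2) x ≤ A) (hB : Hz (fun y => pd k f y ^ 2) x ≤ B) :
    Hz (rho k f) x ≤ A + 2 * (√A * √B) := by
  have c1 := cp_of hf
  have c2 := cp_of (hf.pd k)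
  unfold rho
  rw [Hz_add (c1.pow 2) ((c1.mul c2).abs.cmul 2), Hz_cmul]
  have h1 := Hz_cs_abs c1 c2 x
  have h2 : Hz (fun y => |f y * pd k f y|) x = Hz (fun y => |f y| * |pd k f y|) x := by
    congr 1
    funext y
    rw [abs_mul]
  rw [h2]
  have h3 : √(Hz (fun y => f y ^ 2) x) * √(Hz (fun y => pd k f y ^ 2) x) ≤ √A * √B :=
    mul_le_mul (Real.sqrt_le_sqrt hA) (Real.sqrt_le_sqrt hB) (Real.sqrt_nonneg _)
      (Real.sqrt_nonneg _)
  linarith

/-- The inequality of Ladyzhenskaya on horizontal slices. -/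
theorem lady {f : V → ℝ} (hf : SP f) {x : V} {A B : ℝ} (hA : Hz (fun y => f y ^ 2) x ≤ A)
    (hB0 : Hz (fun y => pd 0 f y ^ 2) x ≤ B) (hB1 : Hz (fun y => pd 1 f y ^ 2) x ≤ B) :
    Hz (fun y => f y ^ 4) x ≤ (A + 2 * (√A * √B)) ^ 2 := by
  set A0 : V → ℝ := Av 0 (rho 0 f) with hA0
  set A1 : V → ℝ := Av 1 (rho 1 f) with hA1
  have c0 : CP A0 := (rho_cp hf 0).av 0
  have c1 : CP A1 := (rho_cp hf 1).av 1
  have n0 : ∀ y, 0 ≤ A0 y := Av_nonneg (rho_nonneg 0 f) 0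
  have n1 : ∀ y, 0 ≤ A1 y := Av_nonneg (rho_nonneg 1 f) 1
  have h1 : Hz (fun y => f y ^ 4) x ≤ Hz (fun y => A1 y * A0 y) x := by
    apply Hz_mono ((cp_of hf).pow 4) (c1.mul c0)
    intro y
    have e : f y ^ 4 = f y ^ 2 * f y ^ 2 := by ring
    rw [e]
    exact mul_le_mul (sq_le_Av hf 1 y) (sq_le_Av hf 0 y) (sq_nonneg _) (n1 y)
  have h2 : Hz (fun y => A1 y * A0 y) x = Hz (rho 1 f) x * Hz (rho 0 f) x := by
    unfold Hz
    have e1 : Av 1 (fun y => A1 y * A0 y) = fun y => A1 y * Av 1 A0 y :=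
      funext fun y => Av_mul (ind_Av 1 _) A0 y
    have i2 : Ind 0 (Av 1 A0) := (ind_Av 0 _).av (by decide)
    have e2 : Av 0 (fun y => A1 y * Av 1 A0 y) x = Av 1 A0 x * Av 0 A1 x := by
      have : (fun y => A1 y * Av 1 A0 y) = fun y => Av 1 A0 y * A1 y := by
        funext y
        ring
      rw [this, Av_mul i2]
    rw [e1, e2, hA0, Av_comm (rho_cp hf 0) (by decide : (1 : Fin 3) ≠ 0)]
    ring
  rw [h2] at h1
  refine h1.trans ?_
  rw [sq]
  have r0 := Hz_rho_le hf hA hB0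
  have r1 := Hz_rho_le hf hA hB1
  exact mul_le_mul r1 r0 (Hz_nonneg (rho_nonneg 0 f) x)
    ((Hz_nonneg (rho_nonneg 1 f) x).trans r1)

/-- Products of three functions on slices. -/
theorem Hz_three {a f h : V → ℝ} (ha : CP a) (hf : CP f) (hh : CP h) {x : V} {D : ℝ} (hD : 0 ≤ D)
    (hf4 : Hz (fun y => f y ^ 4) x ≤ D ^ 2) (hh4 : Hz (fun y => h y ^ 4) x ≤ D ^ 2) :
    Hz (fun y => |a y| * (|f y| * |h y|)) x ≤ √(Hz (fun y => a y ^ 2) x) * D := by
  have h1 := Hz_cs_abs ha (hf.mul hh) x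
  have e1 : Hz (fun y => |a y| * (|f y| * |h y|)) x = Hz (fun y => |a y| * |f y * h y|) x := by
    congr 1
    funext y
    rw [abs_mul (f y)]
  rw [e1]
  refine h1.trans ?_
  have h2 := Hz_cs (hf.pow 2) (hh.pow 2) x
  have e2 : ∀ g : V → ℝ, Hz (fun y => (g y ^ 2) ^ 2) x = Hz (fun y => g y ^ 4) x := by
    intro g
    congr 1
    funext y
    ring
  rw [e2, e2] at h2
  have h3 : √(Hz (fun y => f y ^ 4) x) * √(Hz (fun y => h y ^ 4) x) ≤ D * D := by
    have s1 : √(Hz (fun y => f y ^ 4) x) ≤ D := Real.sqrt_le_iff.2 ⟨hD, hf4⟩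
    have s2 : √(Hz (fun y => h y ^ 4) x) ≤ D := Real.sqrt_le_iff.2 ⟨hD, hh4⟩
    exact mul_le_mul s1 s2 (Real.sqrt_nonneg _) hD
  have h4 : Hz (fun y => (f y * h y) ^ 2) x ≤ D * D := by
    have e3 : Hz (fun y => (f y * h y) ^ 2) x = Hz (fun y => f y ^ 2 * h y ^ 2) x := by
      congr 1
      funext y
      ring
    rw [e3]
    exact (le_abs_self _).trans (h2.trans h3)
  have h5 : √(Hz (fun y => (f y * h y) ^ 2) x) ≤ D :=
    Real.sqrt_le_iff.2 ⟨hD, h4.trans (le_of_eq (by ring))⟩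
  exact mul_le_mul_of_nonneg_left h5 (Real.sqrt_nonneg _)

end Pool.Agent.H4LA
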