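import Pool.Agent.H459R3.NS.High
import Pool.Agent.H4LA.Dom
import Pool.Agent.H4LA.Hor
import Pool.Agent.H4LA.Sli

/-!
The cubic form in terms of a bound for the integrals of the square of the field over horizontal
slices.
-/

set_option autoImplicit false
set_option linter.unusedVariables false

open MeasureTheory Set Function Filter Topology
open scoped ENNReal ContDiff

namespace Pool.Agent.H4LA

open H459R3.NS

theorem Hz_pd0 {f : V → ℝ} (hf : SP f) (x : V) : Hz (pd 0 f) x = 0 := by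
  unfold Hz
  rw [← pd_Av hf (by decide : (0 : Fin 3) ≠ 1)]
  exact Av_pd_self (av_sp hf 1) 0 x

theorem Hz_pd1 {f : V → ℝ} (hf : SP f) (x : V) : Hz (pd 1 f) x = 0 := by
  unfold Hz
  have : Av 1 (pd 1 f) = fun _ => 0 := funext fun y => Av_pd_self hf 1 y
  rw [this, Av_of_ind (f := fun _ => 0) (fun _ _ => rfl)]

theorem Hz_pd_hor {f : V → ℝ} (hf : SP f) {k : Fin 3} (hk : k ∈ HH) (x : V) :
    Hz (pd k f) x = 0 := by
  unfold HH at hk
  simp only [Finset.mem_insert, Finset.mem_singleton] at hk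
  rcases hk with h | h
  · rw [h]; exact Hz_pd0 hf x
  · rw [h]; exact Hz_pd1 hf x

theorem Hz_hor_le {f : V → ℝ} (hf : SP f) {k : Fin 3} (hk : k ∈ HH) {x : V} {E P : ℝ}
    (hE : Hz (fun y => f y ^ 2) x ≤ E) (hP : Hz (fun y => pd k (pd k f) y ^ 2) x ≤ P) :
    Hz (fun y => pd k f y ^ 2) x ≤ √E * √P := by
  have c0 := cp_of hf
  have c1 := cp_of (hf.pd k)
  have c2 := cp_of ((hf.pd k).pd k)
  have h1 : Hz (pd k (fun y => f y * pd k f y)) x = 0 := Hz_pd_hor (hf.mul (hf.pd k)) hk x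
  have h2 : pd k (fun y => f y * pd k f y) = fun y => f y * pd k (pd k f) y + pd k f y ^ 2 := by
    funext y
    rw [pd_mul hf (hf.pd k)]
    ring
  rw [h2, Hz_add (c0.mul c2) (c1.pow 2)] at h1
  have h3 := Hz_cs c0 c2 x
  have h4 := (abs_le.1 h3).1
  have h5 : √(Hz (fun y => f y ^ 2) x) * √(Hz (fun y => pd k (pd k f) y ^ 2) x) ≤ √E * √P :=
    mul_le_mul (Real.sqrt_le_sqrt hE) (Real.sqrt_le_sqrt hP) (Real.sqrt_nonneg _)
      (Real.sqrt_nonneg _)
  linarith

/-- The integral of the square of a function of the last coordinate. -/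
theorem int_vert_le {f : V → ℝ} (hf : SP f) {E : ℝ} (hE0 : 0 ≤ E)
    (hE : ∀ x, Hz (fun y => f y ^ 2) x ≤ E) :
    ∫ x in cube, Hz (fun y => pd 2 f y ^ 2) x ^ 2 ≤ 9 * E * ∫ x in cube, pd 2 (pd 2 f) x ^ 2 := by
  have hf2 := hf.pd 2
  have hf22 := hf2.pd 2
  have hsq : SP (fun y => pd 2 f y ^ 2) := by
    have : (fun y => pd 2 f y ^ 2) = fun y => pd 2 f y * pd 2 f y := by
      funext y
      ring
    rw [this]
    exact hf2.mul hf2
  set c : V → ℝ := Hz (fun y => pd 2 f y ^ 2) with hc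
  have sc : SP c := hz_sp hsq
  have ic : I01 c := i01_hz _
  have c0 : ∀ x, 0 ≤ c x := Hz_nonneg fun y => sq_nonneg _
  set P : V → ℝ := Hz (fun y => pd 2 (pd 2 f) y ^ 2) with hP
  have cP : CP P := ((cp_of hf22).pow 2).hz
  have iP : I01 P := i01_hz _
  have P0 : ∀ x, 0 ≤ P x := Hz_nonneg fun y => sq_nonneg _
  have cc : CP c := cp_of sc
  -- the derivative of c
  have hdc : ∀ x, |pd 2 c x| ≤ 2 * (√(c x) * √(P x)) := by
    intro x
    rw [hc, pd2_hz hsq]
    have e : pd 2 (fun y => pd 2 f y ^ 2) = fun y => 2 * (pd 2 f y * pd 2 (pd 2 f) y) := by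
      funext y
      have : (fun y => pd 2 f y ^ 2) = fun y => pd 2 f y * pd 2 f y := by
        funext y
        ring
      rw [this, pd_mul hf2 hf2]
      ring
    rw [e, Hz_cmul, abs_mul, abs_two]
    exact mul_le_mul_of_nonneg_left (Hz_cs (cp_of hf2) (cp_of hf22) x) (by norm_num)
  -- the integral
  have h1 : ∫ x in cube, c x ^ 2 = ∫ x in cube, pd 2 f x * (c x * pd 2 f x) := by
    have e1 : ∀ x, c x ^ 2 = c x * Hz (fun y => pd 2 f y ^ 2) x := fun x => by
      rw [← hc]; ring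
    simp_rw [e1]
    rw [int_mul_Hz (cp_of hsq) cc ic]
    congr 1
    funext x
    ring
  have h2 : ∫ x in cube, c x ^ 2
      = -∫ x in cube, (f x * (c x * pd 2 (pd 2 f) x) + f x * (pd 2 c x * pd 2 f x)) := by
    rw [h1, ibp hf (sc.mul hf2) 2]
    congr 1
    congr 1
    funext x
    rw [pd_mul sc hf2]
    ring
  have cdc : CP (pd 2 c) := cp_of (sc.pd 2)
  have idc : I01 (pd 2 c) := by
    rw [hc, pd2_hz hsq]
    exact i01_hz _
  have i1 : IntegrableOn (fun x => f x * (c x * pd 2 (pd 2 f) x)) cube :=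
    (hf.mul (sc.mul hf22)).int
  have i2 : IntegrableOn (fun x => f x * (pd 2 c x * pd 2 f x)) cube :=
    (hf.mul ((sc.pd 2).mul hf2)).int
  have h3 : |∫ x in cube, f x * (c x * pd 2 (pd 2 f) x)| ≤ √E * ∫ x in cube, c x * √(P x) := by
    have k1 : |∫ x in cube, f x * (c x * pd 2 (pd 2 f) x)|
        ≤ ∫ x in cube, c x * (|f x| * |pd 2 (pd 2 f) x|) := by
      refine (abs_integral_le_integral_abs).trans (le_of_eq ?_)
      congr 1
      funext x
      rw [abs_mul, abs_mul, abs_of_nonneg (c0 x)]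
      ring
    refine k1.trans ?_
    rw [← int_mul_Hz ((cp_of hf).abs.mul (cp_of hf22).abs) cc ic, ← integral_const_mul]
    refine integral_mono (cc.mul ((cp_of hf).abs.mul (cp_of hf22).abs).hz).int
      ((cc.mul cP.sqrt).cmul _).int fun x => ?_
    have k2 := Hz_cs_abs (cp_of hf) (cp_of hf22) x
    have k3 : √(Hz (fun y => f y ^ 2) x) * √(P x) ≤ √E * √(P x) :=
      mul_le_mul_of_nonneg_right (Real.sqrt_le_sqrt (hE x)) (Real.sqrt_nonneg _)
    have k4 := mul_le_mul_of_nonneg_left (k2.trans k3) (c0 x)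
    calc c x * Hz (fun y => |f y| * |pd 2 (pd 2 f) y|) x ≤ c x * (√E * √(P x)) := k4
      _ = √E * (c x * √(P x)) := by ring
  have h4 : |∫ x in cube, f x * (pd 2 c x * pd 2 f x)| ≤ 2 * √E * ∫ x in cube, c x * √(P x) := by
    have k1 : |∫ x in cube, f x * (pd 2 c x * pd 2 f x)|
        ≤ ∫ x in cube, |pd 2 c x| * (|f x| * |pd 2 f x|) := by
      refine (abs_integral_le_integral_abs).trans (le_of_eq ?_)
      congr 1
      funext x
      rw [abs_mul, abs_mul]
      ring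
    refine k1.trans ?_
    have iabs : I01 (fun x => |pd 2 c x|) :=
      ⟨fun x s => by simp only [idc.1 x s], fun x s => by simp only [idc.2 x s]⟩
    rw [← int_mul_Hz ((cp_of hf).abs.mul (cp_of hf2).abs) cdc.abs iabs, ← integral_const_mul]
    refine integral_mono (cdc.abs.mul ((cp_of hf).abs.mul (cp_of hf2).abs).hz).int
      ((cc.mul cP.sqrt).cmul _).int fun x => ?_
    have k2 := Hz_cs_abs (cp_of hf) (cp_of hf2) x
    have k3 : √(Hz (fun y => f y ^ 2) x) * √(c x) ≤ √E * √(c x) :=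
      mul_le_mul_of_nonneg_right (Real.sqrt_le_sqrt (hE x)) (Real.sqrt_nonneg _)
    have k4 := mul_le_mul (hdc x) (k2.trans k3)
      (Hz_nonneg (fun y => mul_nonneg (abs_nonneg _) (abs_nonneg _)) x) (by positivity)
    calc |pd 2 c x| * Hz (fun y => |f y| * |pd 2 f y|) x
        ≤ 2 * (√(c x) * √(P x)) * (√E * √(c x)) := k4
      _ = 2 * √E * ((√(c x) * √(c x)) * √(P x)) := by ring
      _ = 2 * √E * (c x * √(P x)) := by rw [Real.mul_self_sqrt (c0 x)]
  set Z : ℝ := ∫ x in cube, c x ^ 2 with hZ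
  have hZ0 : 0 ≤ Z := integral_nonneg fun x => sq_nonneg _
  set R : ℝ := ∫ x in cube, pd 2 (pd 2 f) x ^ 2 with hR
  have hR0 : 0 ≤ R := integral_nonneg fun x => sq_nonneg _
  have h5 : ∫ x in cube, c x * √(P x) ≤ √Z * √R := by
    have k1 := integral_mul_sq_le (μ := volume.restrict cube) (a := c) (b := fun x => √(P x))
      (cc.pow 2).int (by
        have : (fun x => √(P x) ^ 2) = P := funext fun x => Real.sq_sqrt (P0 x)
        rw [this]
        exact cP.int) (cc.mul cP.sqrt).int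
    have e1 : ∫ x in cube, √(P x) ^ 2 = R := by
      have : ∀ x, √(P x) ^ 2 = P x := fun x => Real.sq_sqrt (P0 x)
      simp_rw [this]
      rw [hP, int_Hz ((cp_of hf22).pow 2)]
    rw [e1] at k1
    rw [← Real.sqrt_mul hZ0]
    exact Real.le_sqrt_of_sq_le k1
  have h6 : Z ≤ 3 * √E * (√Z * √R) := by
    rw [integral_add i1 i2] at h2
    have k1 := (abs_le.1 h3).1
    have k2 := (abs_le.1 h4).1
    have k3 : 3 * √E * (∫ x in cube, c x * √(P x)) ≤ 3 * √E * (√Z * √R) :=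
      mul_le_mul_of_nonneg_left h5 (by positivity)
    linarith
  -- conclusion
  have sZ : √Z * √Z = Z := Real.mul_self_sqrt hZ0
  rcases eq_or_lt_of_le (Real.sqrt_nonneg Z) with h | h
  · rw [← h] at sZ
    have : Z = 0 := by linarith
    rw [this]
    positivity
  · have h7 : √Z ≤ 3 * √E * √R := by
      have : √Z * √Z ≤ √Z * (3 * √E * √R) := by
        rw [sZ]
        linarith
      exact le_of_mul_le_mul_left this h
    calc Z = √Z * √Z := sZ.symm
      _ ≤ (3 * √E * √R) * (3 * √E * √R) :=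
          mul_le_mul h7 h7 (Real.sqrt_nonneg _) (by positivity)
      _ = 9 * (√E * √E) * (√R * √R) := by ring
      _ = 9 * E * R := by rw [Real.mul_self_sqrt hE0, Real.mul_self_sqrt hR0]

section field

variable {v : Fin 3 → V → ℝ}

/-- squares of the horizontal derivatives -/
noncomputable def gh (v : Fin 3 → V → ℝ) (x : V) : ℝ := ∑ i, ∑ k ∈ HH, pd k (v i) x ^ 2

/-- squares of the derivatives -/
noncomputable def ga (v : Fin 3 → V → ℝ) (x : V) : ℝ := ∑ i, ∑ k, pd k (v i) x ^ 2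

/-- squares of the gradients of the horizontal derivatives -/
noncomputable def gp (v : Fin 3 → V → ℝ) (x : V) : ℝ :=
  ∑ i, ∑ k ∈ HH, ∑ m, pd m (pd k (v i)) x ^ 2

theorem SP.sqr {f : V → ℝ} (hf : SP f) : SP (fun y => f y ^ 2) := by
  have : (fun y => f y ^ 2) = fun y => f y * f y := by
    funext y
    ring
  rw [this]
  exact hf.mul hf

variable (hv : ∀ i, SP (v i)) (hdiv : ∀ x, ∑ i, pd i (v i) x = 0)

include hv in
theorem gh_sp : SP (gh v) := SP.sum fun i _ => SP.sum fun k _ => SP.sqr ((hv i).pd k)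

include hv in
theorem ga_sp : SP (ga v) := SP.sum fun i _ => SP.sum fun k _ => SP.sqr ((hv i).pd k)

include hv in
theorem gp_sp : SP (gp v) :=
  SP.sum fun i _ => SP.sum fun k _ => SP.sum fun m _ => SP.sqr (((hv i).pd k).pd m)

include hv in
theorem vsq_sp : SP (vsq v) := SP.sum fun i _ => SP.sqr (hv i)

theorem gh_nonneg (x : V) : 0 ≤ gh v x :=
  Finset.sum_nonneg fun _ _ => Finset.sum_nonneg fun _ _ => sq_nonneg _

theorem ga_nonneg (x : V) : 0 ≤ ga v x :=
  Finset.sum_nonneg fun _ _ => Finset.sum_nonneg fun _ _ => sq_nonneg _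

theorem gp_nonneg (x : V) : 0 ≤ gp v x :=
  Finset.sum_nonneg fun _ _ => Finset.sum_nonneg fun _ _ => Finset.sum_nonneg fun _ _ =>
    sq_nonneg _

include hv in
theorem int_gh : ∫ x in cube, gh v x = hsq v := by
  unfold gh hsq
  rw [integral_finsetSum _ fun i _ => (SP.sum fun k _ => SP.sqr ((hv i).pd k)).int]
  refine Finset.sum_congr rfl fun i _ => ?_
  rw [integral_finsetSum _ fun k _ => (SP.sqr ((hv i).pd k)).int]

include hv in
theorem int_ga : ∫ x in cube, ga v x = ysq v := by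
  unfold ga ysq
  rw [integral_finsetSum _ fun i _ => (SP.sum fun k _ => SP.sqr ((hv i).pd k)).int]
  refine Finset.sum_congr rfl fun i _ => ?_
  rw [integral_finsetSum _ fun k _ => (SP.sqr ((hv i).pd k)).int]

include hv in
theorem int_gp : ∫ x in cube, gp v x = psq v := by
  unfold gp psq
  rw [integral_finsetSum _ fun i _ =>
    (SP.sum fun k _ => SP.sum fun m _ => SP.sqr (((hv i).pd k).pd m)).int]
  refine Finset.sum_congr rfl fun i _ => ?_
  rw [integral_finsetSum _ fun k _ => (SP.sum fun m _ => SP.sqr (((hv i).pd k).pd m)).int]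
  refine Finset.sum_congr rfl fun k _ => ?_
  rw [integral_finsetSum _ fun m _ => (SP.sqr (((hv i).pd k).pd m)).int]

include hv in
theorem Hz_le_vsq (i : Fin 3) (x : V) : Hz (fun y => v i y ^ 2) x ≤ Hz (vsq v) x := by
  apply Hz_mono ((cp_of (hv i)).pow 2) (cp_of (vsq_sp hv))
  intro y
  exact Finset.single_le_sum (f := fun i => v i y ^ 2) (fun i _ => sq_nonneg _)
    (Finset.mem_univ i)

include hv in
theorem Hz_le_ga (i k : Fin 3) (x : V) : Hz (fun y => pd k (v i) y ^ 2) x ≤ Hz (ga v) x := by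
  apply Hz_mono ((cp_of ((hv i).pd k)).pow 2) (cp_of (ga_sp hv))
  intro y
  exact (Finset.single_le_sum (f := fun k => pd k (v i) y ^ 2) (fun k _ => sq_nonneg _)
    (Finset.mem_univ k)).trans (Finset.single_le_sum (f := fun i => ∑ k, pd k (v i) y ^ 2)
    (fun i _ => Finset.sum_nonneg fun k _ => sq_nonneg _) (Finset.mem_univ i))

include hv in
theorem Hz_le_gh (i : Fin 3) {k : Fin 3} (hk : k ∈ HH) (x : V) :
    Hz (fun y => pd k (v i) y ^ 2) x ≤ Hz (gh v) x := by
  apply Hz_mono ((cp_of ((hv i).pd k)).pow 2) (cp_of (gh_sp hv))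
  intro y
  exact (Finset.single_le_sum (f := fun k => pd k (v i) y ^ 2) (fun k _ => sq_nonneg _)
    hk).trans (Finset.single_le_sum (f := fun i => ∑ k ∈ HH, pd k (v i) y ^ 2)
    (fun i _ => Finset.sum_nonneg fun k _ => sq_nonneg _) (Finset.mem_univ i))

include hv in
theorem Hz_le_gp (i m : Fin 3) {k : Fin 3} (hk : k ∈ HH) (x : V) :
    Hz (fun y => pd m (pd k (v i)) y ^ 2) x ≤ Hz (gp v) x := by
  apply Hz_mono ((cp_of (((hv i).pd k).pd m)).pow 2) (cp_of (gp_sp hv))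
  intro y
  exact (Finset.single_le_sum (f := fun m => pd m (pd k (v i)) y ^ 2) (fun m _ => sq_nonneg _)
    (Finset.mem_univ m)).trans ((Finset.single_le_sum
      (f := fun k => ∑ m, pd m (pd k (v i)) y ^ 2)
      (fun k _ => Finset.sum_nonneg fun m _ => sq_nonneg _) hk).trans
      (Finset.single_le_sum (f := fun i => ∑ k ∈ HH, ∑ m, pd m (pd k (v i)) y ^ 2)
      (fun i _ => Finset.sum_nonneg fun k _ => Finset.sum_nonneg fun m _ => sq_nonneg _)
      (Finset.mem_univ i)))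

include hv in
theorem gh_le_slice {E : ℝ} {x : V} (hE : Hz (vsq v) x ≤ E) :
    Hz (gh v) x ≤ 6 * (√E * √(Hz (gp v) x)) := by
  have h1 : ∀ i, ∀ k ∈ HH, Hz (fun y => pd k (v i) y ^ 2) x ≤ √E * √(Hz (gp v) x) :=
    fun i k hk => Hz_hor_le (hv i) hk ((Hz_le_vsq hv i x).trans hE) (Hz_le_gp hv i k hk x)
  have e : Hz (gh v) x = ∑ i, ∑ k ∈ HH, Hz (fun y => pd k (v i) y ^ 2) x := by
    unfold gh
    rw [Hz_sum fun i _ => cp_of (SP.sum fun k _ => SP.sqr ((hv i).pd k))]
    refine Finset.sum_congr rfl fun i _ => ?_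
    rw [Hz_sum fun k _ => cp_of (SP.sqr ((hv i).pd k))]
  rw [e]
  simp only [sum_HH, Fin.sum_univ_three]
  have a00 := h1 0 0 mem0
  have a01 := h1 0 1 mem1
  have a10 := h1 1 0 mem0
  have a11 := h1 1 1 mem1
  have a20 := h1 2 0 mem0
  have a21 := h1 2 1 mem1
  linarith

include hv in
theorem int_gh_sq {E : ℝ} (hE0 : 0 ≤ E) (hE : ∀ x, Hz (vsq v) x ≤ E) :
    ∫ x in cube, Hz (gh v) x ^ 2 ≤ 36 * E * psq v := by
  have cg : CP (Hz (gh v)) := (cp_of (gh_sp hv)).hz
  have cp : CP (Hz (gp v)) := (cp_of (gp_sp hv)).hz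
  have h1 : ∫ x in cube, Hz (gh v) x ^ 2 ≤ ∫ x in cube, 36 * E * Hz (gp v) x := by
    refine integral_mono (cg.pow 2).int (cp.cmul _).int fun x => ?_
    have h2 := gh_le_slice hv (hE x)
    have h3 : 0 ≤ Hz (gh v) x := Hz_nonneg gh_nonneg x
    have h4 : 0 ≤ Hz (gp v) x := Hz_nonneg gp_nonneg x
    calc Hz (gh v) x ^ 2 ≤ (6 * (√E * √(Hz (gp v) x))) ^ 2 := pow_le_pow_left₀ h3 h2 2
      _ = 36 * √E ^ 2 * √(Hz (gp v) x) ^ 2 := by ring
      _ = 36 * E * Hz (gp v) x := by rw [Real.sq_sqrt hE0, Real.sq_sqrt h4]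
  rw [integral_const_mul, int_Hz (cp_of (gp_sp hv)), int_gp hv] at h1
  exact h1

/-- The sum of the integrals of the squares of the Laplacians. -/
noncomputable def qsq (v : Fin 3 → V → ℝ) : ℝ := ∑ i, ∫ x in cube, lap (v i) x ^ 2

theorem qsq_nonneg (v : Fin 3 → V → ℝ) : 0 ≤ qsq v := Finset.sum_nonneg fun _ _ => isq_nonneg _

theorem int_pd_pd_le {f : V → ℝ} (hf : SP f) (i j : Fin 3) :
    ∫ x in cube, pd i (pd j f) x ^ 2 ≤ ∫ x in cube, lap f x ^ 2 := by
  have h := nrm_pd_pd_le hf i j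
  rw [← nrm_sq, ← nrm_sq]
  exact pow_le_pow_left₀ (nrm_nonneg _) h 2

include hv in
theorem psq_le_qsq : psq v ≤ 6 * qsq v := by
  unfold psq qsq
  rw [Finset.mul_sum]
  refine Finset.sum_le_sum fun i _ => ?_
  simp only [sum_HH, Fin.sum_univ_three]
  have a := int_pd_pd_le (hv i)
  linarith [a 0 0, a 1 0, a 2 0, a 0 1, a 1 1, a 2 1]

include hv in
theorem int_ga_sq {E : ℝ} (hE0 : 0 ≤ E) (hE : ∀ x, Hz (vsq v) x ≤ E) :
    ∫ x in cube, Hz (ga v) x ^ 2 ≤ 486 * E * qsq v := by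
  have cg : CP (Hz (gh v)) := (cp_of (gh_sp hv)).hz
  have ca : CP (Hz (ga v)) := (cp_of (ga_sp hv)).hz
  set c : Fin 3 → V → ℝ := fun i => Hz (fun y => pd 2 (v i) y ^ 2) with hc
  have cc : ∀ i, CP (c i) := fun i => (cp_of (SP.sqr ((hv i).pd 2))).hz
  have e : ∀ x, Hz (ga v) x = Hz (gh v) x + ∑ i, c i x := by
    intro x
    have e1 : ga v = fun y => gh v y + ∑ i, pd 2 (v i) y ^ 2 := by
      funext y
      unfold ga gh
      simp only [sum_HH, Fin.sum_univ_three]
      ring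
    rw [e1, Hz_add (cp_of (gh_sp hv)) (cp_of (SP.sum fun i _ => SP.sqr ((hv i).pd 2))),
      Hz_sum fun i _ => cp_of (SP.sqr ((hv i).pd 2))]
  have h1 : ∫ x in cube, Hz (ga v) x ^ 2
      ≤ ∫ x in cube, (2 * Hz (gh v) x ^ 2 + 6 * ∑ i, c i x ^ 2) := by
    refine integral_mono (ca.pow 2).int (((cg.pow 2).cmul 2).add
      ((CP.sum fun i _ => (cc i).pow 2).cmul 6)).int fun x => ?_
    simp only
    rw [e x]
    simp only [Fin.sum_univ_three]
    nlinarith [sq_nonneg (Hz (gh v) x - (c 0 x + c 1 x + c 2 x)), sq_nonneg (c 0 x - c 1 x),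
      sq_nonneg (c 0 x - c 2 x), sq_nonneg (c 1 x - c 2 x)]
  have h2 : ∫ x in cube, (2 * Hz (gh v) x ^ 2 + 6 * ∑ i, c i x ^ 2)
      = 2 * (∫ x in cube, Hz (gh v) x ^ 2) + 6 * ∑ i, ∫ x in cube, c i x ^ 2 := by
    rw [integral_add ((cg.pow 2).cmul 2).int ((CP.sum fun i _ => (cc i).pow 2).cmul 6).int,
      integral_const_mul, integral_const_mul, integral_finsetSum _ fun i _ => ((cc i).pow 2).int]
  rw [h2] at h1
  have h3 := int_gh_sq hv hE0 hE
  have h4 : ∀ i, ∫ x in cube, c i x ^ 2 ≤ 9 * E * ∫ x in cube, lap (v i) x ^ 2 := by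
    intro i
    refine (int_vert_le (hv i) hE0 fun x => (Hz_le_vsq hv i x).trans (hE x)).trans ?_
    exact mul_le_mul_of_nonneg_left (int_pd_pd_le (hv i) 2 2) (by positivity)
  have h5 : ∑ i, ∫ x in cube, c i x ^ 2 ≤ 9 * E * qsq v := by
    unfold qsq
    rw [Finset.mul_sum]
    exact Finset.sum_le_sum fun i _ => h4 i
  have h6 := mul_le_mul_of_nonneg_left (psq_le_qsq hv) (by positivity : 0 ≤ 36 * E)
  linarith

include hdiv in
/-- The bound for the full cubic form. -/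
theorem cub_le_of (hv : ∀ i, SP (v i)) {B : ℝ} (b : ∀ (i a c d f : Fin 3) {k : Fin 3}, k ∈ HH →
      |T3 (pd k (v i)) (pd a (v c)) (pd d (v f))| ≤ B) : |cub v| ≤ 30 * B := by
  have hB0 : 0 ≤ B := (abs_nonneg _).trans (b 0 0 0 0 0 mem0)
  have hg1 : ∀ (i j : Fin 3) {m : Fin 3}, m ∈ HH →
      |T3 (pd m (v i)) (pd i (v j)) (pd m (v j))| ≤ B := fun i j m hm => b i i j m j hm
  have hg2 : ∀ (j : Fin 3) {i : Fin 3}, i ∈ HH →
      |T3 (pd 2 (v i)) (pd i (v j)) (pd 2 (v j))| ≤ B := fun j i hi => by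
    rw [T3_rot]
    exact b j 2 i 2 j hi
  have hg3 : ∀ j : Fin 3, |T3 (pd 2 (v 2)) (pd 2 (v j)) (pd 2 (v j))| ≤ 2 * B := by
    intro j
    have h0 := b 0 2 j 2 j mem0
    have h1 := b 1 2 j 2 j mem1
    have c : ∀ i j, Continuous (pd j (v i)) := fun i j => ((hv i).pd j).cont
    have h := lin_int (n := 3) ![1, 1, 1]
      ![fun x => pd 0 (v 0) x * (pd 2 (v j) x * pd 2 (v j) x),
        fun x => pd 1 (v 1) x * (pd 2 (v j) x * pd 2 (v j) x),
        fun x => pd 2 (v 2) x * (pd 2 (v j) x * pd 2 (v j) x)]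
      (by
        intro i
        fin_cases i <;> exact (c _ _).mul ((c _ _).mul (c _ _)))
      (by
        intro x
        have hd := hdiv x
        rw [Fin.sum_univ_three] at hd
        simp only [Fin.sum_univ_succ, Matrix.cons_val_zero, Matrix.cons_val_succ]
        simp
        linear_combination (pd 2 (v j) x * pd 2 (v j) x) * hd)
    simp only [Fin.sum_univ_succ, Matrix.cons_val_zero, Matrix.cons_val_succ] at h
    simp at h
    unfold T3 at h0 h1 ⊢
    rw [abs_le] at *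
    constructor <;> linarith [h0.1, h0.2, h1.1, h1.2]
  have e : cub v = ∑ i, ∑ j, ∑ m, T3 (pd m (v i)) (pd i (v j)) (pd m (v j)) := rfl
  have e3 : ∀ (F : Fin 3 → Fin 3 → Fin 3 → ℝ), (∀ i j, |F i j 0| ≤ B) → (∀ i j, |F i j 1| ≤ B) →
      (∀ j, |F 0 j 2| ≤ B) → (∀ j, |F 1 j 2| ≤ B) → (∀ j, |F 2 j 2| ≤ 2 * B) →
      |∑ i, ∑ j, ∑ m, F i j m| ≤ 30 * B := by
    intro F h0 h1 h2 h3 h4
    have k1 : |∑ i, ∑ j, ∑ m, F i j m| ≤ ∑ i, ∑ j, ∑ m, |F i j m| := by
      refine (Finset.abs_sum_le_sum_abs _ _).trans (Finset.sum_le_sum fun i _ => ?_)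
      refine (Finset.abs_sum_le_sum_abs _ _).trans (Finset.sum_le_sum fun j _ => ?_)
      exact Finset.abs_sum_le_sum_abs _ _
    refine k1.trans ?_
    simp only [Fin.sum_univ_three]
    linarith [h0 0 0, h0 0 1, h0 0 2, h0 1 0, h0 1 1, h0 1 2, h0 2 0, h0 2 1, h0 2 2,
      h1 0 0, h1 0 1, h1 0 2, h1 1 0, h1 1 1, h1 1 2, h1 2 0, h1 2 1, h1 2 2,
      h2 0, h2 1, h2 2, h3 0, h3 1, h3 2, h4 0, h4 1, h4 2]
  rw [e]
  exact e3 (fun i j m => T3 (pd m (v i)) (pd i (v j)) (pd m (v j))) (fun i j => hg1 i j mem0)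
    (fun i j => hg1 i j mem1) (fun j => hg2 j mem0) (fun j => hg2 j mem1) hg3

include hv hdiv in
theorem abs_cub_le2 {E : ℝ} (hE0 : 0 ≤ E) (hE : ∀ x, Hz (vsq v) x ≤ E) :
    |cub v| ≤ 30 * (√(hsq v) * √(486 * E * qsq v)
      + 2 * (√(√(36 * E * psq v) * √(486 * E * qsq v)) * √(psq v))) := by
  set ah : V → ℝ := Hz (gh v) with hah
  set dd : V → ℝ := Hz (ga v) with hdd
  set ww : V → ℝ := Hz (gp v) with hww
  have ca : CP ah := (cp_of (gh_sp hv)).hz
  have cd : CP dd := (cp_of (ga_sp hv)).hz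
  have cw : CP ww := (cp_of (gp_sp hv)).hz
  have a0 : ∀ x, 0 ≤ ah x := Hz_nonneg gh_nonneg
  have d0 : ∀ x, 0 ≤ dd x := Hz_nonneg ga_nonneg
  have w0 : ∀ x, 0 ≤ ww x := Hz_nonneg gp_nonneg
  have hπ0 : 0 ≤ psq v := psq_nonneg v
  have hη0 : 0 ≤ hsq v := hsq_nonneg v
  have hQ0 : 0 ≤ qsq v := qsq_nonneg v
  have cB : CP (fun x => √(ah x) * dd x) := ca.sqrt.mul cd
  have cB2 : CP (fun x => √(ah x) * √(dd x) * √(ww x)) := (ca.sqrt.mul cd.sqrt).mul cw.sqrt
  have hT : ∀ (i a c d f : Fin 3) {k : Fin 3}, k ∈ HH →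
      |T3 (pd k (v i)) (pd a (v c)) (pd d (v f))|
        ≤ (∫ x in cube, √(ah x) * dd x) + 2 * ∫ x in cube, √(ah x) * √(dd x) * √(ww x) := by
    intro i a c d f k hk
    have s1 := (hv i).pd k
    have s2 := (hv c).pd a
    have s3 := (hv f).pd d
    have cabs : CP (fun x => |pd k (v i) x| * (|pd a (v c) x| * |pd d (v f) x|)) :=
      (cp_of s1).abs.mul ((cp_of s2).abs.mul (cp_of s3).abs)
    have h1 : |T3 (pd k (v i)) (pd a (v c)) (pd d (v f))|
        ≤ ∫ x in cube, |pd k (v i) x| * (|pd a (v c) x| * |pd d (v f) x|) := by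
      unfold T3
      refine (abs_integral_le_integral_abs).trans (le_of_eq ?_)
      congr 1
      funext x
      rw [abs_mul, abs_mul]
    rw [← int_Hz cabs] at h1
    refine h1.trans ?_
    rw [← integral_const_mul, ← integral_add cB.int (cB2.cmul 2).int]
    refine integral_mono cabs.hz.int (cB.add (cB2.cmul 2)).int fun x => ?_
    set D : ℝ := dd x + 2 * (√(dd x) * √(ww x)) with hD
    have hD0 : 0 ≤ D := by
      have := d0 x
      positivity
    have l : ∀ (c' a' : Fin 3), Hz (fun y => pd a' (v c') y ^ 4) x ≤ D ^ 2 := by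
      intro c' a'
      apply lady ((hv c').pd a') (Hz_le_ga hv c' a' x)
      · rw [pd_comm (hv c') 0 a']
        exact Hz_le_gp hv c' a' mem0 x
      · rw [pd_comm (hv c') 1 a']
        exact Hz_le_gp hv c' a' mem1 x
    have h2 := Hz_three (cp_of s1) (cp_of s2) (cp_of s3) hD0 (l c a) (l f d)
    have h3 : √(Hz (fun y => pd k (v i) y ^ 2) x) ≤ √(ah x) :=
      Real.sqrt_le_sqrt (Hz_le_gh hv i hk x)
    calc Hz (fun x => |pd k (v i) x| * (|pd a (v c) x| * |pd d (v f) x|)) x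
        ≤ √(Hz (fun y => pd k (v i) y ^ 2) x) * D := h2
      _ ≤ √(ah x) * D := mul_le_mul_of_nonneg_right h3 hD0
      _ = √(ah x) * dd x + 2 * (√(ah x) * √(dd x) * √(ww x)) := by
          rw [hD]
          ring
  refine (cub_le_of hdiv hv hT).trans ?_
  have hZ1 := int_gh_sq hv hE0 hE
  have hZ2 := int_ga_sq hv hE0 hE
  have ha1 : ∫ x in cube, ah x = hsq v := by rw [hah, int_Hz (cp_of (gh_sp hv)), int_gh hv]
  have hw1 : ∫ x in cube, ww x = psq v := by rw [hww, int_Hz (cp_of (gp_sp hv)), int_gp hv]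
  have b1 : ∫ x in cube, √(ah x) * dd x ≤ √(hsq v) * √(486 * E * qsq v) := by
    have k1 := integral_mul_sq_le (μ := volume.restrict cube) (a := fun x => √(ah x)) (b := dd)
      (by
        have : (fun x => √(ah x) ^ 2) = ah := funext fun x => Real.sq_sqrt (a0 x)
        rw [this]
        exact ca.int) (cd.pow 2).int cB.int
    have e1 : ∫ x in cube, √(ah x) ^ 2 = hsq v := by
      rw [← ha1]
      congr 1
      funext x
      exact Real.sq_sqrt (a0 x)
    rw [e1] at k1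
    rw [← Real.sqrt_mul hη0]
    apply Real.le_sqrt_of_sq_le
    exact k1.trans (mul_le_mul_of_nonneg_left hZ2 hη0)
  have b2 : ∫ x in cube, √(ah x) * √(dd x) * √(ww x)
      ≤ √(√(36 * E * psq v) * √(486 * E * qsq v)) * √(psq v) := by
    have k1 := integral_mul_sq_le (μ := volume.restrict cube)
      (a := fun x => √(ah x) * √(dd x)) (b := fun x => √(ww x))
      ((ca.sqrt.mul cd.sqrt).pow 2).int (cw.sqrt.pow 2).int cB2.int
    have e1 : ∫ x in cube, √(ww x) ^ 2 = psq v := by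
      rw [← hw1]
      congr 1
      funext x
      exact Real.sq_sqrt (w0 x)
    have e2 : ∫ x in cube, (√(ah x) * √(dd x)) ^ 2 = ∫ x in cube, ah x * dd x := by
      congr 1
      funext x
      rw [mul_pow, Real.sq_sqrt (a0 x), Real.sq_sqrt (d0 x)]
    have k2 := integral_mul_sq_le (μ := volume.restrict cube) (a := ah) (b := dd)
      (ca.pow 2).int (cd.pow 2).int (ca.mul cd).int
    have k3 : ∫ x in cube, ah x * dd x ≤ √(36 * E * psq v) * √(486 * E * qsq v) := by
      rw [← Real.sqrt_mul (by positivity)]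
      apply Real.le_sqrt_of_sq_le
      exact k2.trans (mul_le_mul hZ1 hZ2 (integral_nonneg fun x => sq_nonneg _) (by positivity))
    rw [e1, e2] at k1
    rw [← Real.sqrt_mul (by positivity)]
    apply Real.le_sqrt_of_sq_le
    exact k1.trans (mul_le_mul_of_nonneg_right k3 hπ0)
  linarith

end field

/-- Absorption. -/
theorem absorb {η π Q e ν : ℝ} (hη : 0 ≤ η) (hπ : 0 ≤ π) (hQ : 0 ≤ Q) (he : 0 ≤ e) (hν : 0 < ν) :
    60 * (√η * √(486 * e * Q) + 2 * (√(√(36 * e * π) * √(486 * e * Q)) * √π))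
      ≤ ν * Q + (ν + 874800 / ν) * ((1 + e) * (η + π)) := by
  set E := √e with hE
  set P := √π with hP
  set S := √Q with hS
  set N := √η with hN
  have E0 : 0 ≤ E := Real.sqrt_nonneg _
  have P0 : 0 ≤ P := Real.sqrt_nonneg _
  have S0 : 0 ≤ S := Real.sqrt_nonneg _
  have N0 : 0 ≤ N := Real.sqrt_nonneg _
  have eE : E ^ 2 = e := Real.sq_sqrt he
  have eP : P ^ 2 = π := Real.sq_sqrt hπ
  have eS : S ^ 2 = Q := Real.sq_sqrt hQ
  have eN : N ^ 2 = η := Real.sq_sqrt hη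
  have h486 : √(486 : ℝ) ≤ 23 := Real.sqrt_le_iff.2 ⟨by norm_num, by norm_num⟩
  have h36 : √(36 : ℝ) = 6 := by
    rw [show (36 : ℝ) = 6 ^ 2 by norm_num, Real.sqrt_sq (by norm_num)]
  have e1 : √(486 * e * Q) = √486 * E * S := by
    rw [Real.sqrt_mul (by positivity), Real.sqrt_mul (by norm_num)]
  have e2 : √(36 * e * π) = 6 * E * P := by
    rw [Real.sqrt_mul (by positivity), Real.sqrt_mul (by norm_num), h36]
  have s486 : √(486 : ℝ) ^ 2 = 486 := Real.sq_sqrt (by norm_num)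
  -- first term
  have h1 : 60 * (N * √(486 * e * Q)) ≤ ν / 2 * Q + 874800 / ν * (e * η) := by
    rw [e1]
    have k1 : 0 ≤ (ν * S - 60 * √486 * E * N) ^ 2 := sq_nonneg _
    have k2 : (ν * S - 60 * √486 * E * N) ^ 2
        = ν ^ 2 * Q - 120 * ν * (N * (√486 * E * S)) + 1749600 * (e * η) := by
      calc (ν * S - 60 * √486 * E * N) ^ 2 = ν ^ 2 * S ^ 2 - 120 * ν * (N * (√486 * E * S))
            + 3600 * (√486) ^ 2 * E ^ 2 * N ^ 2 := by ring
        _ = _ := by
            rw [eS, s486, eE, eN]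
            ring
    rw [k2] at k1
    have k3 : 2 * ν * (60 * (N * (√486 * E * S)))
        ≤ 2 * ν * (ν / 2 * Q + 874800 / ν * (e * η)) := by
      have : 2 * ν * (ν / 2 * Q + 874800 / ν * (e * η)) = ν ^ 2 * Q + 1749600 * (e * η) := by
        field_simp
        ring
      rw [this]
      linarith
    exact le_of_mul_le_mul_left k3 (by positivity)
  -- second term
  have h2 : 120 * (√(√(36 * e * π) * √(486 * e * Q)) * P)
      ≤ ν / 2 * Q + ν / 2 * π + 496800 / ν * (e * π) := by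
    have k1 : √(36 * e * π) * √(486 * e * Q) ≤ 138 * E ^ 2 * P * S := by
      rw [e1, e2]
      have : 6 * E * P * (√486 * E * S) = √486 * (6 * E ^ 2 * P * S) := by ring
      rw [this]
      have : √486 * (6 * E ^ 2 * P * S) ≤ 23 * (6 * E ^ 2 * P * S) :=
        mul_le_mul_of_nonneg_right h486 (by positivity)
      linarith
    have k2 : 120 * (√(√(36 * e * π) * √(486 * e * Q)) * P)
        ≤ √((14400 * 138 * (E ^ 2 * P ^ 2) / (2 * ν)) * (2 * ν * (P * S))) := by
      apply Real.le_sqrt_of_sq_le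
      have k3 : (120 * (√(√(36 * e * π) * √(486 * e * Q)) * P)) ^ 2
          = 14400 * P ^ 2 * (√(36 * e * π) * √(486 * e * Q)) := by
        rw [mul_pow, mul_pow, Real.sq_sqrt (by positivity)]
        ring
      rw [k3]
      have k4 : (14400 * 138 * (E ^ 2 * P ^ 2) / (2 * ν)) * (2 * ν * (P * S))
          = 14400 * P ^ 2 * (138 * E ^ 2 * P * S) := by
        field_simp
      rw [k4]
      exact mul_le_mul_of_nonneg_left k1 (by positivity)
    have k5 : ∀ a b : ℝ, 0 ≤ a → 0 ≤ b → √(a * b) ≤ (a + b) / 2 := by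
      intro a b ha hb
      apply Real.sqrt_le_iff.2
      exact ⟨by positivity, by nlinarith [sq_nonneg (a - b)]⟩
    have k6 := k5 (14400 * 138 * (E ^ 2 * P ^ 2) / (2 * ν)) (2 * ν * (P * S)) (by positivity)
      (by positivity)
    have k7 : P * S ≤ (π + Q) / 2 := by
      rw [← eP, ← eS]
      nlinarith [sq_nonneg (P - S)]
    have k8 := mul_le_mul_of_nonneg_left k7 hν.le
    have k9 : (14400 * 138 * (E ^ 2 * P ^ 2) / (2 * ν) + 2 * ν * (P * S)) / 2
        = 496800 / ν * (e * π) + ν * (P * S) := by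
      rw [eE, eP]
      field_simp
      ring
    rw [k9] at k6
    linarith
  have h3 : 0 ≤ 874800 / ν := by positivity
  have h4 : 496800 / ν ≤ 874800 / ν := by gcongr; norm_num
  have h5 : 496800 / ν * (e * π) ≤ 874800 / ν * (e * π) :=
    mul_le_mul_of_nonneg_right h4 (by positivity)
  have h6 : (ν + 874800 / ν) * ((1 + e) * (η + π)) = ν * π + 874800 / ν * (e * η)
      + 874800 / ν * (e * π) + (ν * η + ν * e * η + ν * e * π + 874800 / ν * (η + π)) := by ring
  have h7 : 0 ≤ ν * η + ν * e * η + ν * e * π + 874800 / ν * (η + π) := by positivity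
  rw [h6]
  have h8 : 0 ≤ ν * π := by positivity
  linarith

end Pool.Agent.H4LA
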