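import Pool.Agent.H459R3.NS.Sol
import Pool.Agent.H4LA.Hor

/-!
The time derivative of the integral of the squares of the horizontal derivatives.
-/

set_option autoImplicit false
set_option linter.unusedVariables false

open MeasureTheory Set Function Filter Topology
open scoped ENNReal ContDiff

namespace Pool.Agent.H4LA

open H459R3.NS

section field

variable {v : Fin 3 → V → ℝ} (hv : ∀ i, SP (v i)) (hdiv : ∀ x, ∑ i, pd i (v i) x = 0)

include hv hdiv in
theorem div_pd (k : Fin 3) (x : V) : ∑ i, pd i (pd k (v i)) x = 0 := by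
  have e3 : (fun y => ∑ i, pd i (v i) y) = fun _ => 0 := funext hdiv
  have : ∀ i, pd i (pd k (v i)) x = pd k (pd i (v i)) x := fun i => by rw [pd_comm (hv i) i k]
  simp_rw [this]
  rw [← pd_sum (fun i _ => (hv i).pd i) k x, e3]
  unfold pd
  simp

include hv in
theorem visc_k (k : Fin 3) (i : Fin 3) : ∫ x in cube, pd k (pd k (v i)) x * lap (v i) x
    = ∑ m, ∫ x in cube, pd m (pd k (v i)) x ^ 2 := by
  have e1 : ∫ x in cube, pd k (pd k (v i)) x * lap (v i) x
      = ∫ x in cube, lap (v i) x * pd k (pd k (v i)) x := by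
    congr 1
    funext x
    ring
  rw [e1, int_lap_mul (hv i) (((hv i).pd k).pd k), ← Finset.sum_neg_distrib]
  refine Finset.sum_congr rfl fun m _ => ?_
  have e2 : pd m (pd k (pd k (v i))) = pd k (pd k (pd m (v i))) := by
    rw [pd_comm ((hv i).pd k) m k, pd_comm (hv i) m k]
  have e3 : ∫ x in cube, pd m (v i) x * pd m (pd k (pd k (v i))) x
      = ∫ x in cube, pd k (pd k (pd m (v i))) x * pd m (v i) x := by
    rw [e2]
    congr 1
    funext x
    ring
  rw [e3, ibp (((hv i).pd m).pd k) ((hv i).pd m) k, neg_neg]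
  congr 1
  funext x
  rw [pd_comm (hv i) m k]
  ring

include hv hdiv in
theorem conv_k (k : Fin 3) : ∑ i, ∫ x in cube, pd k (pd k (v i)) x * conv v i x
    = -∑ i, ∑ j, T3 (pd k (v i)) (pd i (v j)) (pd k (v j)) := by
  have h1 : ∀ i, ∫ x in cube, pd k (pd k (v i)) x * conv v i x
      = -∑ j, (T3 (pd k (v j)) (pd j (v i)) (pd k (v i))
        + ∫ x in cube, v j x * (pd k (v i) x * pd j (pd k (v i)) x)) := by
    intro i
    rw [ibp ((hv i).pd k) (sp_conv hv i) k]
    congr 1
    have e : ∀ x, pd k (v i) x * pd k (conv v i) x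
        = ∑ j, (pd k (v j) x * (pd j (v i) x * pd k (v i) x)
          + v j x * (pd k (v i) x * pd j (pd k (v i)) x)) := by
      intro x
      unfold conv
      rw [pd_sum (fun j _ => (hv j).mul ((hv i).pd j)) k x, Finset.mul_sum]
      refine Finset.sum_congr rfl fun j _ => ?_
      rw [pd_mul (hv j) ((hv i).pd j), pd_comm (hv i) k j]
      ring
    simp_rw [e]
    rw [integral_finsetSum _ fun j _ => (SP.add
      (((hv j).pd k).mul (((hv i).pd j).mul ((hv i).pd k)))
      ((hv j).mul (((hv i).pd k).mul (((hv i).pd k).pd j)))).int]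
    refine Finset.sum_congr rfl fun j _ => ?_
    exact integral_add (((hv j).pd k).mul (((hv i).pd j).mul ((hv i).pd k))).int
      ((hv j).mul (((hv i).pd k).mul (((hv i).pd k).pd j))).int
  simp_rw [h1]
  rw [Finset.sum_neg_distrib]
  congr 1
  simp_rw [Finset.sum_add_distrib]
  have h2 : ∀ i, ∑ j, ∫ x in cube, v j x * (pd k (v i) x * pd j (pd k (v i)) x) = 0 :=
    fun i => transport_zero hv hdiv ((hv i).pd k)
  simp_rw [h2]
  simp only [Finset.sum_const_zero, add_zero]
  exact Finset.sum_comm

end field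

variable {ν T : ℝ} {u : ℝ → V → V} {p : ℝ → V → ℝ}

theorem hsq_hasDerivAt (h : IsSol ν T u p) {t : ℝ} (ht : t ∈ Ioo 0 T) :
    HasDerivAt (fun s => hsq (fun i y => u s y i))
      (-(2 * ν * psq (fun i y => u t y i)) - 2 * cubh (fun i y => u t y i)) t := by
  have hI : t ∈ Ico 0 T := ⟨ht.1.le, ht.2⟩
  set v : Fin 3 → V → ℝ := fun i y => u t y i with hv
  have hsp : ∀ i, SP (v i) := fun i => h.sp hI i
  have hdiv : ∀ x, ∑ i, pd i (v i) x = 0 := h.divfree t hI
  have h1 : ∀ i j, HasDerivAt (fun s => ∫ x in cube, pd j (fun y => u s y i) x ^ 2)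
      (2 * ∫ x in cube, pd j (v i) x * pd j (dt (fun s y => u s y i) t) x) t := by
    intro i j
    have hG : ContDiffOn ℝ ∞ (fun z : ℝ × V => pd j (fun y => u z.1 y i) z.2)
        (Ico 0 T ×ˢ univ) := contDiffOn_pd (f := fun s y => u s y i) (h.smooth_c i) j
    have hG1 : ContDiffOn ℝ 1 (fun z : ℝ × V => pd j (fun y => u z.1 y i) z.2)
        (Ioo 0 T ×ˢ univ) :=
      mono_Ioo (f := fun s x => pd j (fun y => u s y i) x) hG (by norm_cast)
    have hF : ContDiffOn ℝ 1 (fun z : ℝ × V => pd j (fun y => u z.1 y i) z.2 ^ 2)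
        (Ioo 0 T ×ˢ univ) := hG1.pow 2
    have key := hasDerivAt_int (F := fun s x => pd j (fun y => u s y i) x ^ 2) hF ht
    refine key.congr_deriv ?_
    rw [← integral_const_mul]
    congr 1
    funext x
    have h2 : HasDerivAt (fun s => pd j (fun y => u s y i) x)
        (pd j (dt (fun s y => u s y i) t) x) t := by
      have h3 := hasDerivAt_slice (F := fun s x => pd j (fun y => u s y i) x) hG1 ht x
      have h4 := dt_pd (f := fun s y => u s y i) (h.smooth_c i) ht j x
      rw [H459R3.NS.dt_eq (f := fun s => pd j (fun y => u s y i)) hG ht x] at h4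
      rwa [h4] at h3
    have h3 : HasDerivAt (fun s => pd j (fun y => u s y i) x ^ 2) _ t := h2.pow 2
    rw [h3.deriv]
    simp only [hv]
    push_cast
    ring
  have h2 : HasDerivAt (fun s => hsq (fun i y => u s y i))
      (∑ i, ∑ k ∈ HH, 2 * ∫ x in cube, pd k (v i) x * pd k (dt (fun s y => u s y i) t) x) t :=
    HasDerivAt.fun_sum fun i _ => HasDerivAt.fun_sum fun j _ => h1 i j
  refine h2.congr_deriv ?_
  have e0 : ∀ i k, ∫ x in cube, pd k (v i) x * pd k (dt (fun s y => u s y i) t) x
      = -(ν * ∑ m, ∫ x in cube, pd m (pd k (v i)) x ^ 2)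
        + (∫ x in cube, pd k (pd k (v i)) x * conv v i x)
        + ∫ x in cube, pd k (pd k (v i)) x * pd i (p t) x := by
    intro i k
    have e1 := ibp ((hsp i).pd k) (h.sp_dt ht i) k
    have e2 : ∫ x in cube, pd k (pd k (v i)) x * dt (fun s y => u s y i) t x
        = ν * (∫ x in cube, pd k (pd k (v i)) x * lap (v i) x)
          - (∫ x in cube, pd k (pd k (v i)) x * conv v i x)
          - ∫ x in cube, pd k (pd k (v i)) x * pd i (p t) x := by
      have e : ∀ x, pd k (pd k (v i)) x * dt (fun s y => u s y i) t x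
          = ν * (pd k (pd k (v i)) x * lap (v i) x) - pd k (pd k (v i)) x * conv v i x
            - pd k (pd k (v i)) x * pd i (p t) x := by
        intro x
        rw [h.dt_eq ht]
        ring
      simp_rw [e]
      have i1 : IntegrableOn (fun x => ν * (pd k (pd k (v i)) x * lap (v i) x)) cube :=
        ((((hsp i).pd k).pd k).mul (hsp i).lap).int.const_mul ν
      have i2 : IntegrableOn (fun x => pd k (pd k (v i)) x * conv v i x) cube :=
        ((((hsp i).pd k).pd k).mul (sp_conv hsp i)).int
      have i3 : IntegrableOn (fun x => pd k (pd k (v i)) x * pd i (p t) x) cube :=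
        ((((hsp i).pd k).pd k).mul ((h.sp_p hI).pd i)).int
      have i12 : IntegrableOn (fun x => ν * (pd k (pd k (v i)) x * lap (v i) x)
          - pd k (pd k (v i)) x * conv v i x) cube := i1.sub i2
      rw [integral_sub i12 i3, integral_sub i1 i2, integral_const_mul]
    rw [visc_k hsp] at e2
    linarith
  have e3 : ∀ k, ∑ i, ∫ x in cube, pd k (pd k (v i)) x * pd i (p t) x = 0 := by
    intro k
    refine int_press (v := fun i => pd k (pd k (v i))) (fun i => ((hsp i).pd k).pd k) ?_
      (h.sp_p hI)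
    exact div_pd (v := fun i => pd k (v i)) (fun i => (hsp i).pd k) (div_pd hsp hdiv k) k
  have e4 : ∀ k, ∑ i, ∫ x in cube, pd k (v i) x * pd k (dt (fun s y => u s y i) t) x
      = -(ν * ∑ i, ∑ m, ∫ x in cube, pd m (pd k (v i)) x ^ 2)
        - ∑ i, ∑ j, T3 (pd k (v i)) (pd i (v j)) (pd k (v j)) := by
    intro k
    simp_rw [e0]
    rw [Finset.sum_add_distrib, Finset.sum_add_distrib, e3, conv_k hsp hdiv,
      Finset.sum_neg_distrib, ← Finset.mul_sum]
    ring
  rw [Finset.sum_comm]
  simp_rw [← Finset.mul_sum, e4]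
  unfold psq cubh
  rw [Finset.sum_comm (s := (Finset.univ : Finset (Fin 3))) (t := HH), Finset.sum_sub_distrib,
    Finset.sum_neg_distrib, ← Finset.mul_sum]
  ring

theorem hsq_continuousOn (h : IsSol ν T u p) :
    ContinuousOn (fun s => hsq (fun i y => u s y i)) (Ico 0 T) := by
  unfold hsq
  refine continuousOn_finsetSum _ fun i _ => continuousOn_finsetSum _ fun j _ => ?_
  exact continuousOn_int (F := fun s x => pd j (fun y => u s y i) x ^ 2)
    ((contDiffOn_pd (f := fun s y => u s y i) (h.smooth_c i) j).continuousOn.pow 2)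

theorem psq_continuousOn (h : IsSol ν T u p) :
    ContinuousOn (fun s => psq (fun i y => u s y i)) (Ico 0 T) := by
  unfold psq
  refine continuousOn_finsetSum _ fun i _ => continuousOn_finsetSum _ fun j _ =>
    continuousOn_finsetSum _ fun m _ => ?_
  exact continuousOn_int (F := fun s x => pd m (pd j (fun y => u s y i)) x ^ 2)
    ((contDiffOn_pd (f := fun s => pd j (fun y => u s y i))
      (contDiffOn_pd (f := fun s y => u s y i) (h.smooth_c i) j) m).continuousOn.pow 2)

end Pool.Agent.H4LA
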