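import Pool.Agent.H4LA.Cub2

/-!
Powers of slice integrals and their maxima.
-/

set_option autoImplicit false
set_option linter.unusedVariables false

open MeasureTheory Set Function Filter Topology
open scoped ENNReal ContDiff

namespace Pool.Agent.H4LA

open H459R3.NS

theorem SP.powr {f : V → ℝ} (hf : SP f) (n : ℕ) : SP (fun y => f y ^ n) where
  smooth := hf.smooth.pow n
  per := fun i x => by simp only [hf.per i x]

theorem pd_pow {f : V → ℝ} (hf : SP f) (n : ℕ) (j : Fin 3) (x : V) :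
    pd j (fun y => f y ^ n) x = n * f x ^ (n - 1) * pd j f x := by
  unfold pd
  have h : HasFDerivAt (fun y => f y ^ n) _ x := (hf.diff x).hasFDerivAt.pow n
  rw [h.fderiv]
  simp

theorem I01.powr {f : V → ℝ} (hf : I01 f) (n : ℕ) : I01 (fun y => f y ^ n) :=
  ⟨fun x s => by simp only [hf.1 x s], fun x s => by simp only [hf.2 x s]⟩

theorem I01.mul {f g : V → ℝ} (hf : I01 f) (hg : I01 g) : I01 (fun y => f y * g y) :=
  ⟨fun x s => by simp only [hf.1 x s, hg.1 x s], fun x s => by simp only [hf.2 x s, hg.2 x s]⟩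

theorem I01.add {f g : V → ℝ} (hf : I01 f) (hg : I01 g) : I01 (fun y => f y + g y) :=
  ⟨fun x s => by simp only [hf.1 x s, hg.1 x s], fun x s => by simp only [hf.2 x s, hg.2 x s]⟩

theorem I01.cmul {f : V → ℝ} (hf : I01 f) (c : ℝ) : I01 (fun y => c * f y) :=
  ⟨fun x s => by simp only [hf.1 x s], fun x s => by simp only [hf.2 x s]⟩

theorem I01.abs {f : V → ℝ} (hf : I01 f) : I01 (fun y => |f y|) :=
  ⟨fun x s => by simp only [hf.1 x s], fun x s => by simp only [hf.2 x s]⟩

theorem I01.pd2 {f : V → ℝ} (hf : SP f) (hi : I01 f) : I01 (pd 2 f) := by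
  have e : f = Hz f := funext fun x => (Hz_of_ind hi x).symm
  rw [e, pd2_hz hf]
  exact i01_hz _

/-- The average over all coordinates. -/
theorem tri {g : V → ℝ} (hg : CP g) (x : V) : Av 1 (Av 0 (Av 2 g)) x = ∫ x in cube, g x := by
  obtain ⟨C, hC0, hC⟩ := hg.bdd
  set f : V → ℝ := fun x => g x + C with hf
  have cf : CP f := hg.add (CP.const C)
  have f0 : ∀ x, 0 ≤ f x := fun x => by
    have := (abs_le.1 (hC x)).1
    simp only [hf]
    linarith
  have h1 : Av 1 (Av 0 (Av 2 f)) x = ∫ x in cube, f x := by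
    have e1 := ofReal_integral_eq_lintegral_ofReal (μ := volume.restrict cube)
      cf.int (Filter.Eventually.of_forall f0)
    rw [J_eq cf.cont.measurable.ennreal_ofReal x] at e1
    have e2 : ENNReal.ofReal (Av 1 (Av 0 (Av 2 f)) x)
        = I 1 (I 0 (I 2 fun y => ENNReal.ofReal (f y))) x := by
      rw [ofReal_Av ((cf.av 2).av 0).cont (Av_nonneg (Av_nonneg f0 2) 0) 1 x]
      congr 1
      funext y
      rw [ofReal_Av (cf.av 2).cont (Av_nonneg f0 2) 0 y]
      congr 1
      funext z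
      exact ofReal_Av cf.cont f0 2 z
    rw [← e2] at e1
    exact ((ENNReal.ofReal_eq_ofReal_iff (integral_nonneg f0)
      (Av_nonneg (Av_nonneg (Av_nonneg f0 2) 0) 1 x)).1 e1).symm
  have e : ∀ (k : Fin 3) {h : V → ℝ}, Continuous h → Av k (fun y => h y + C)
      = fun y => Av k h y + C := by
    intro k h hh
    funext y
    rw [Av_add hh continuous_const, Av_of_ind (f := fun _ => C) (fun _ _ => rfl)]
  rw [hf, e 2 hg.cont, e 0 (hg.av 2).cont, e 1 ((hg.av 2).av 0).cont] at h1
  have hfin := cube_finite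
  rw [integral_add hg.int (integrable_const C)] at h1
  have h2 : ∫ x in cube, C = C := by
    rw [setIntegral_const, Measure.real, volume_cube]
    simp
  rw [h2] at h1
  simp only at h1
  linarith

theorem Av2_of_i01 {g : V → ℝ} (hg : CP g) (hi : I01 g) (x : V) :
    Av 2 g x = ∫ x in cube, g x := by
  rw [← tri hg x]
  have i0 : Ind 0 (Av 2 g) := hi.1.av (by decide)
  have i1 : Ind 1 (Av 2 g) := hi.2.av (by decide)
  have e0 : Av 0 (Av 2 g) = Av 2 g := funext fun y => Av_of_ind i0 y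
  rw [e0, Av_of_ind i1]

variable {v : Fin 3 → V → ℝ}

/-- The derivative of slice integrals. -/
theorem abs_pd2_slice (hv : ∀ i, SP (v i)) (x : V) :
    |pd 2 (Hz (vsq v)) x| ≤ 2 * (√(Hz (vsq v) x) * √(Hz (ga v) x)) := by
  rw [pd2_hz (vsq_sp hv)]
  have cv : CP (vsq v) := cp_of (vsq_sp hv)
  have cg : CP (ga v) := cp_of (ga_sp hv)
  have h1 : ∀ y, |pd 2 (vsq v) y| ≤ 2 * (√(vsq v y) * √(ga v y)) := by
    intro y
    have e : pd 2 (vsq v) y = 2 * ∑ i, v i y * pd 2 (v i) y := by
      unfold vsq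
      rw [pd_sum (fun i _ => SP.sqr (hv i)) 2 y, Finset.mul_sum]
      refine Finset.sum_congr rfl fun i _ => ?_
      rw [pd_pow (hv i)]
      simp
      ring
    rw [e, abs_mul, abs_two]
    refine mul_le_mul_of_nonneg_left ?_ (by norm_num)
    rw [← Real.sqrt_mul (vsq_nonneg v y)]
    apply Real.abs_le_sqrt
    refine (Finset.sum_mul_sq_le_sq_mul_sq _ _ _).trans ?_
    refine mul_le_mul_of_nonneg_left ?_ (vsq_nonneg v y)
    unfold ga
    refine Finset.sum_le_sum fun i _ => ?_
    exact Finset.single_le_sum (f := fun k => pd k (v i) y ^ 2) (fun k _ => sq_nonneg _)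
      (Finset.mem_univ 2)
  have cpd : CP (pd 2 (vsq v)) := cp_of ((vsq_sp hv).pd 2)
  have h2 : |Hz (pd 2 (vsq v)) x| ≤ Hz (fun y => 2 * (√(vsq v y) * √(ga v y))) x :=
    (abs_Hz_le cpd x).trans (Hz_mono cpd.abs ((cv.sqrt.mul cg.sqrt).cmul 2) h1 x)
  rw [Hz_cmul] at h2
  refine h2.trans (mul_le_mul_of_nonneg_left ?_ (by norm_num))
  have h3 := Hz_cs cv.sqrt cg.sqrt x
  have e1 : (fun y => √(vsq v y) ^ 2) = vsq v := funext fun y => Real.sq_sqrt (vsq_nonneg v y)
  have e2 : (fun y => √(ga v y) ^ 2) = ga v := funext fun y => Real.sq_sqrt (ga_nonneg y)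
  rw [e1, e2] at h3
  exact (le_abs_self _).trans h3

/-- The maximum of the slice integrals in terms of an integral of a power. -/
theorem sup_slice (hv : ∀ i, SP (v i)) {m : ℕ} (hm : 1 ≤ m) {M : ℝ}
    (hM : ∫ x in cube, Hz (vsq v) x ^ (4 * m - 1) ≤ M) (x : V) :
    Hz (vsq v) x ^ (2 * m) ≤ 1 + M + 4 * m * (√M * √(ysq v)) := by
  set e : V → ℝ := Hz (vsq v) with he
  have se : SP e := hz_sp (vsq_sp hv)
  have ie : I01 e := i01_hz _
  have e0 : ∀ x, 0 ≤ e x := Hz_nonneg (vsq_nonneg v)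
  set d : V → ℝ := Hz (ga v) with hd
  have cd : CP d := (cp_of (ga_sp hv)).hz
  have d0 : ∀ x, 0 ≤ d x := Hz_nonneg ga_nonneg
  have ce : CP e := cp_of se
  set f : V → ℝ := fun y => e y ^ m with hf
  have sf : SP f := SP.powr se m
  have hif : I01 f := ie.powr m
  have h1 : f x ^ 2 ≤ Av 2 (rho 2 f) x := sq_le_Av sf 2 x
  have irho : I01 (rho 2 f) := by
    unfold rho
    exact (hif.powr 2).add (((hif.mul (I01.pd2 sf hif)).abs).cmul 2)
  rw [Av2_of_i01 (rho_cp sf 2) irho x] at h1
  have h2 : ∫ x in cube, rho 2 f x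
      ≤ ∫ x in cube, (1 + e x ^ (4 * m - 1) + 4 * m * ((e x ^ (2 * m - 1) * √(e x)) * √(d x))) := by
    refine integral_mono (rho_cp sf 2).int (((CP.const 1).add (ce.pow _)).add
      ((((ce.pow _).mul ce.sqrt).mul cd.sqrt).cmul _)).int fun y => ?_
    have k1 : f y ^ 2 ≤ 1 + e y ^ (4 * m - 1) := by
      have : f y ^ 2 = e y ^ (2 * m) := by
        simp only [hf]
        rw [← pow_mul, mul_comm]
      rw [this]
      rcases le_total (e y) 1 with h | h
      · have := pow_le_one₀ (e0 y) h (n := 2 * m)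
        have := pow_nonneg (e0 y) (4 * m - 1)
        linarith
      · have := pow_le_pow_right₀ h (by omega : 2 * m ≤ 4 * m - 1)
        linarith
    have k2 : |f y * pd 2 f y| ≤ 2 * m * ((e y ^ (2 * m - 1) * √(e y)) * √(d y)) := by
      have : f y * pd 2 f y = m * e y ^ (2 * m - 1) * pd 2 e y := by
        simp only [hf]
        rw [pd_pow se]
        have : e y ^ (2 * m - 1) = e y ^ m * e y ^ (m - 1) := by
          rw [← pow_add]
          congr 1
          omega
        rw [this]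
        ring
      rw [this, abs_mul, abs_of_nonneg (mul_nonneg (Nat.cast_nonneg m) (pow_nonneg (e0 y) _))]
      calc m * e y ^ (2 * m - 1) * |pd 2 e y|
          ≤ m * e y ^ (2 * m - 1) * (2 * (√(e y) * √(d y))) :=
            mul_le_mul_of_nonneg_left (abs_pd2_slice hv y)
              (mul_nonneg (Nat.cast_nonneg m) (pow_nonneg (e0 y) _))
        _ = _ := by ring
    unfold rho
    linarith
  have i1 : IntegrableOn (fun x => 1 + e x ^ (4 * m - 1)) cube :=
    ((CP.const 1).add (ce.pow _)).int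
  have i2 : IntegrableOn (fun x => 4 * m * ((e x ^ (2 * m - 1) * √(e x)) * √(d x))) cube :=
    ((((ce.pow _).mul ce.sqrt).mul cd.sqrt).cmul _).int
  have hfin := cube_finite
  have i3 : IntegrableOn (fun _ : V => (1 : ℝ)) cube := integrable_const 1
  have c1 : ∫ x in cube, (1 : ℝ) = 1 := by
    rw [setIntegral_const, Measure.real, volume_cube]
    simp
  rw [integral_add i1 i2, integral_add i3 (ce.pow _).int, integral_const_mul, c1] at h2
  have h3 : ∫ x in cube, (e x ^ (2 * m - 1) * √(e x)) * √(d x) ≤ √M * √(ysq v) := by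
    have k1 := integral_mul_sq_le (μ := volume.restrict cube)
      (a := fun x => e x ^ (2 * m - 1) * √(e x)) (b := fun x => √(d x))
      (((ce.pow _).mul ce.sqrt).pow 2).int (cd.sqrt.pow 2).int
      (((ce.pow _).mul ce.sqrt).mul cd.sqrt).int
    have e1 : ∫ x in cube, √(d x) ^ 2 = ysq v := by
      have : ∀ x, √(d x) ^ 2 = d x := fun x => Real.sq_sqrt (d0 x)
      simp_rw [this]
      rw [hd, int_Hz (cp_of (ga_sp hv)), int_ga hv]
    have e2 : ∫ x in cube, (e x ^ (2 * m - 1) * √(e x)) ^ 2 = ∫ x in cube, e x ^ (4 * m - 1) := by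
      congr 1
      funext x
      rw [mul_pow, Real.sq_sqrt (e0 x), ← pow_mul, ← pow_succ]
      congr 1
      omega
    rw [e1, e2] at k1
    have hM0 : 0 ≤ M := (integral_nonneg fun x => pow_nonneg (e0 x) _).trans hM
    rw [← Real.sqrt_mul hM0]
    apply Real.le_sqrt_of_sq_le
    exact k1.trans (mul_le_mul_of_nonneg_right hM (ysq_nonneg v))
  have h4 : e x ^ (2 * m) = f x ^ 2 := by
    simp only [hf]
    rw [← pow_mul, mul_comm]
  rw [h4]
  have h5 := mul_le_mul_of_nonneg_left h3 (by positivity : (0 : ℝ) ≤ 4 * m)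
  linarith

end Pool.Agent.H4LA
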