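import Pool.Agent.H459R3.NS.Mult
import Pool.Agent.H4LA.Sup

/-!
The balance of the slice energies of a field from which the average of its vertical component over
vertical lines has been subtracted.
-/

set_option autoImplicit false
set_option linter.unusedVariables false

open MeasureTheory Set Function Filter Topology
open scoped ENNReal ContDiff

namespace Pool.Agent.H4LA

open H459R3.NS

theorem pd_subf {f g : V → ℝ} (hf : SP f) (hg : SP g) (j : Fin 3) (x : V) :
    pd j (fun y => f y - g y) x = pd j f x - pd j g x := by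
  unfold pd
  rw [fderiv_fun_sub (hf.diff x) (hg.diff x)]
  rfl

theorem pd_cmulf {f : V → ℝ} (hf : SP f) (c : ℝ) (j : Fin 3) (x : V) :
    pd j (fun y => c * f y) x = c * pd j f x := by
  unfold pd
  rw [fderiv_const_mul (hf.diff x)]
  rfl

theorem _root_.H459R3.NS.SP.cmulf {f : V → ℝ} (hf : SP f) (c : ℝ) : SP (fun y => c * f y) where
  smooth := contDiff_const.mul hf.smooth
  per := fun i x => by simp only [hf.per i x]

theorem _root_.H459R3.NS.SP.constf (c : ℝ) : SP (fun _ : V => c) where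
  smooth := contDiff_const
  per := fun i x => rfl

theorem lap_subf {f g : V → ℝ} (hf : SP f) (hg : SP g) (x : V) :
    lap (fun y => f y - g y) x = lap f x - lap g x := by
  unfold lap
  rw [← Finset.sum_sub_distrib]
  refine Finset.sum_congr rfl fun j _ => ?_
  have : pd j (fun y => f y - g y) = fun y => pd j f y - pd j g y := funext (pd_subf hf hg j)
  rw [this, pd_subf (hf.pd j) (hg.pd j)]

theorem int_sum_pd {G : Fin 3 → V → ℝ} (hG : ∀ j, SP (G j)) :
    ∫ x in cube, ∑ j, pd j (G j) x = 0 := by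
  rw [integral_finsetSum _ fun j _ => ((hG j).pd j).int]
  exact Finset.sum_eq_zero fun j _ => int_pd_zero (hG j) j

/-- The balance with a weight which depends on the last coordinate only. -/
theorem slice_ident {v w : Fin 3 → V → ℝ} {p Ψ : V → ℝ} {R : Fin 3 → V → ℝ} {ν : ℝ}
    (hv : ∀ i, SP (v i)) (hw : ∀ i, SP (w i)) (hdv : ∀ x, ∑ i, pd i (v i) x = 0)
    (hdw : ∀ x, ∑ i, pd i (w i) x = 0) (hp : SP p) (hΨ : SP Ψ) (hi : I01 Ψ)
    (hR : ∀ i, SP (R i)) {w' : Fin 3 → V → ℝ}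
    (he : ∀ i x, w' i x = ν * lap (w i) x - (∑ j, v j x * pd j (w i) x) - pd i p x + R i x) :
    ∫ x in cube, Ψ x * ∑ i, w i x * w' i x
      = -(ν * ∫ x in cube, Ψ x * ga w x) - ν / 2 * (∫ x in cube, pd 2 Ψ x * pd 2 (vsq w) x)
        + 1 / 2 * (∫ x in cube, pd 2 Ψ x * (v 2 x * vsq w x))
        + (∫ x in cube, pd 2 Ψ x * (w 2 x * p x)) + ∫ x in cube, Ψ x * ∑ i, w i x * R i x := by
  have sW : SP (vsq w) := vsq_sp hw
  have sga : SP (ga w) := ga_sp hw
  have p0 : ∀ x, pd 0 Ψ x = 0 := pd_of_ind hΨ hi.1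
  have p1 : ∀ x, pd 1 Ψ x = 0 := pd_of_ind hΨ hi.2
  have dW : ∀ j x, pd j (vsq w) x = 2 * ∑ i, w i x * pd j (w i) x := by
    intro j x
    unfold vsq
    rw [pd_sum (fun i _ => SP.sqr (hw i)) j x, Finset.mul_sum]
    refine Finset.sum_congr rfl fun i _ => ?_
    rw [pd_pow (hw i)]
    simp
    ring
  have ddW : ∀ j x, pd j (pd j (vsq w)) x
      = 2 * ∑ i, (pd j (w i) x ^ 2 + w i x * pd j (pd j (w i)) x) := by
    intro j x
    have e : pd j (vsq w) = fun x => 2 * ∑ i, w i x * pd j (w i) x := funext (dW j)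
    rw [e, pd_cmulf (SP.sum fun i _ => (hw i).mul ((hw i).pd j)),
      pd_sum (fun i _ => (hw i).mul ((hw i).pd j)) j x]
    congr 1
    refine Finset.sum_congr rfl fun i _ => ?_
    rw [pd_mul (hw i) ((hw i).pd j)]
    ring
  set G : Fin 3 → V → ℝ := fun j y => (ν / 2 * (Ψ y * pd j (vsq w) y)
    - 1 / 2 * (Ψ y * (v j y * vsq w y))) - Ψ y * (w j y * p y) with hG
  have sG : ∀ j, SP (G j) := fun j =>
    (((hΨ.mul (sW.pd j)).cmulf _).sub ((hΨ.mul ((hv j).mul sW)).cmulf _)).sub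
      (hΨ.mul ((hw j).mul hp))
  have dG : ∀ j x, pd j (G j) x = ν / 2 * (Ψ x * pd j (pd j (vsq w)) x
      + pd j (vsq w) x * pd j Ψ x)
      - 1 / 2 * (Ψ x * (v j x * pd j (vsq w) x + vsq w x * pd j (v j) x)
        + v j x * vsq w x * pd j Ψ x)
      - (Ψ x * (w j x * pd j p x + p x * pd j (w j) x) + w j x * p x * pd j Ψ x) := by
    intro j x
    have a1 : SP (fun y => ν / 2 * (Ψ y * pd j (vsq w) y)) := (hΨ.mul (sW.pd j)).cmulf _
    have a2 : SP (fun y => 1 / 2 * (Ψ y * (v j y * vsq w y))) :=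
      (hΨ.mul ((hv j).mul sW)).cmulf _
    have a3 : SP (fun y => Ψ y * (w j y * p y)) := hΨ.mul ((hw j).mul hp)
    rw [hG]
    simp only
    rw [pd_subf (a1.sub a2) a3, pd_subf a1 a2, pd_cmulf (hΨ.mul (sW.pd j)),
      pd_cmulf (hΨ.mul ((hv j).mul sW)), pd_mul hΨ (sW.pd j), pd_mul hΨ ((hv j).mul sW),
      pd_mul (hv j) sW, pd_mul hΨ ((hw j).mul hp), pd_mul (hw j) hp]
    ring
  have key : ∀ x, Ψ x * ∑ i, w i x * w' i x
      = (∑ j, pd j (G j) x) + (-ν * (Ψ x * ga w x) + -(ν / 2) * (pd 2 Ψ x * pd 2 (vsq w) x)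
        + 1 / 2 * (pd 2 Ψ x * (v 2 x * vsq w x)) + pd 2 Ψ x * (w 2 x * p x)
        + Ψ x * ∑ i, w i x * R i x) := by
    intro x
    have d1 := hdv x
    have d2 := hdw x
    simp_rw [dG, ddW, dW]
    unfold ga
    simp only [he]
    unfold lap
    simp only [Fin.sum_univ_three] at d1 d2 ⊢
    rw [p0 x, p1 x]
    linear_combination (1 / 2 * Ψ x * vsq w x) * d1 + (Ψ x * p x) * d2
  simp_rw [key]
  have i0 : IntegrableOn (fun x => ∑ j, pd j (G j) x) cube := (SP.sum fun j _ => (sG j).pd j).int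
  have i1 : IntegrableOn (fun x => -ν * (Ψ x * ga w x)) cube := ((hΨ.mul sga).cmulf _).int
  have i2 : IntegrableOn (fun x => -(ν / 2) * (pd 2 Ψ x * pd 2 (vsq w) x)) cube :=
    (((hΨ.pd 2).mul (sW.pd 2)).cmulf _).int
  have i3 : IntegrableOn (fun x => 1 / 2 * (pd 2 Ψ x * (v 2 x * vsq w x))) cube :=
    (((hΨ.pd 2).mul ((hv 2).mul sW)).cmulf _).int
  have i4 : IntegrableOn (fun x => pd 2 Ψ x * (w 2 x * p x)) cube :=
    ((hΨ.pd 2).mul ((hw 2).mul hp)).int
  have i5 : IntegrableOn (fun x => Ψ x * ∑ i, w i x * R i x) cube :=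
    (hΨ.mul (SP.sum fun i _ => (hw i).mul (hR i))).int
  have i12 : IntegrableOn (fun x => -ν * (Ψ x * ga w x)
      + -(ν / 2) * (pd 2 Ψ x * pd 2 (vsq w) x)) cube := i1.add i2
  have i123 : IntegrableOn (fun x => -ν * (Ψ x * ga w x)
      + -(ν / 2) * (pd 2 Ψ x * pd 2 (vsq w) x) + 1 / 2 * (pd 2 Ψ x * (v 2 x * vsq w x))) cube :=
    i12.add i3
  have i1234 : IntegrableOn (fun x => -ν * (Ψ x * ga w x)
      + -(ν / 2) * (pd 2 Ψ x * pd 2 (vsq w) x) + 1 / 2 * (pd 2 Ψ x * (v 2 x * vsq w x))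
      + pd 2 Ψ x * (w 2 x * p x)) cube := i123.add i4
  have i12345 : IntegrableOn (fun x => -ν * (Ψ x * ga w x)
      + -(ν / 2) * (pd 2 Ψ x * pd 2 (vsq w) x) + 1 / 2 * (pd 2 Ψ x * (v 2 x * vsq w x))
      + pd 2 Ψ x * (w 2 x * p x) + Ψ x * ∑ i, w i x * R i x) cube := i1234.add i5
  rw [integral_add i0 i12345, integral_add i1234 i5, integral_add i123 i4, integral_add i12 i3,
    integral_add i1 i2, int_sum_pd sG, integral_const_mul, integral_const_mul,
    integral_const_mul]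
  ring

/-! ### the field without the vertical averages of the vertical component -/

/-- The average of the vertical component over vertical lines. -/
noncomputable def mm (v : Fin 3 → V → ℝ) : V → ℝ := Av 2 (v 2)

/-- The rest of the vertical component. -/
noncomputable def bb (v : Fin 3 → V → ℝ) (x : V) : ℝ := v 2 x - mm v x

/-- The field with the vertical component replaced by the rest. -/
noncomputable def ww (v : Fin 3 → V → ℝ) : Fin 3 → V → ℝ := ![v 0, v 1, bb v]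

/-- The remaining sources. -/
noncomputable def rr (v : Fin 3 → V → ℝ) : Fin 3 → V → ℝ :=
  ![fun _ => 0, fun _ => 0, fun x => Av 2 (conv v 2) x - ∑ j, v j x * pd j (mm v) x]

/-- Subtraction of the vertical averages from the last component. -/
noncomputable def sb (F : Fin 3 → V → ℝ) : Fin 3 → V → ℝ :=
  ![F 0, F 1, fun x => F 2 x - Av 2 (F 2) x]

section field

variable {v : Fin 3 → V → ℝ} (hv : ∀ i, SP (v i)) (hdiv : ∀ x, ∑ i, pd i (v i) x = 0)

include hv in
theorem mm_sp : SP (mm v) := av_sp (hv 2) 2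

include hv in
theorem bb_sp : SP (bb v) := (hv 2).sub (mm_sp hv)

include hv in
theorem ww_sp (i : Fin 3) : SP (ww v i) := by
  fin_cases i
  · exact hv 0
  · exact hv 1
  · exact bb_sp hv

include hv in
theorem rr_sp (i : Fin 3) : SP (rr v i) := by
  fin_cases i
  · exact SP.constf 0
  · exact SP.constf 0
  · exact (av_sp (sp_conv hv 2) 2).sub (SP.sum fun j _ => (hv j).mul ((mm_sp hv).pd j))

include hv in
theorem pd2_mm (x : V) : pd 2 (mm v) x = 0 := pd_Av_self (hv 2) 2 x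

include hv hdiv in
theorem ww_div (x : V) : ∑ i, pd i (ww v i) x = 0 := by
  have h := hdiv x
  have h1 : pd 2 (bb v) x = pd 2 (v 2) x - pd 2 (mm v) x := pd_subf (hv 2) (mm_sp hv) 2 x
  rw [pd2_mm hv] at h1
  simp only [Fin.sum_univ_three] at h ⊢
  show pd 0 (v 0) x + pd 1 (v 1) x + pd 2 (bb v) x = 0
  rw [h1]
  linarith

theorem Av_lap {f : V → ℝ} (hf : SP f) (x : V) : Av 2 (lap f) x = lap (Av 2 f) x := by
  unfold lap
  rw [Av_sum fun j _ => ((hf.pd j).pd j).cont]
  refine Finset.sum_congr rfl fun j _ => ?_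
  by_cases h : j = 2
  · subst h
    rw [Av_pd_self (hf.pd 2)]
    have : pd 2 (Av 2 f) = fun _ => 0 := funext fun y => pd_Av_self hf 2 y
    rw [this]
    unfold pd
    simp
  · rw [pd_Av hf h, pd_Av (hf.pd j) h]

include hv in
theorem sb_eq {p : V → ℝ} (hp : SP p) {ν : ℝ} {F : Fin 3 → V → ℝ}
    (hF : ∀ i x, F i x = ν * lap (v i) x - conv v i x - pd i p x) (i : Fin 3) (x : V) :
    sb F i x = ν * lap (ww v i) x - (∑ j, v j x * pd j (ww v i) x) - pd i p x + rr v i x := by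
  fin_cases i
  · show F 0 x = ν * lap (v 0) x - conv v 0 x - pd 0 p x + 0
    rw [hF]
    ring
  · show F 1 x = ν * lap (v 1) x - conv v 1 x - pd 1 p x + 0
    rw [hF]
    ring
  · show F 2 x - Av 2 (F 2) x = ν * lap (bb v) x - (∑ j, v j x * pd j (bb v) x) - pd 2 p x
      + (Av 2 (conv v 2) x - ∑ j, v j x * pd j (mm v) x)
    have sF : F 2 = fun x => (ν * lap (v 2) x - conv v 2 x) - pd 2 p x := funext (hF 2)
    have s1 : SP (fun x => ν * lap (v 2) x) := (hv 2).lap.cmulf ν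
    have s2 : SP (conv v 2) := sp_conv hv 2
    have e1 : Av 2 (F 2) x = ν * lap (mm v) x - Av 2 (conv v 2) x := by
      rw [sF, Av_sub (f := fun x => ν * lap (v 2) x - conv v 2 x) (s1.sub s2).cont (hp.pd 2).cont,
        Av_sub s1.cont s2.cont, Av_cmul, Av_pd_self hp, Av_lap (hv 2)]
      unfold mm
      ring
    have e2 : lap (bb v) x = lap (v 2) x - lap (mm v) x := lap_subf (hv 2) (mm_sp hv) x
    have e3 : ∀ j, pd j (bb v) x = pd j (v 2) x - pd j (mm v) x := fun j =>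
      pd_subf (hv 2) (mm_sp hv) j x
    have e4 : conv v 2 x = ∑ j, v j x * pd j (v 2) x := rfl
    rw [e1, e2, hF, e4]
    simp only [e3, Fin.sum_univ_three]
    ring

theorem Hz_ind2 {f : V → ℝ} (hf : CP f) (hi : Ind 2 f) (x : V) :
    Hz f x = ∫ x in cube, f x := by
  rw [← tri hf x]
  have e : Av 2 f = f := funext fun y => Av_of_ind hi y
  rw [e]
  unfold Hz
  rw [Av_comm hf (by decide : (0 : Fin 3) ≠ 1)]

theorem av_sq_le {f : V → ℝ} (hf : CP f) (j : Fin 3) :
    ∫ x in cube, Av j f x ^ 2 ≤ ∫ x in cube, f x ^ 2 := by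
  rw [← int_Av (hf.pow 2) j]
  refine integral_mono ((hf.av j).pow 2).int ((hf.pow 2).av j).int fun x => ?_
  have h := Av_cs hf.cont (continuous_const (y := (1 : ℝ))) j x
  have e : Av j (fun _ => (1 : ℝ) ^ 2) x = 1 := by
    rw [Av_of_ind (f := fun _ => (1 : ℝ) ^ 2) (fun _ _ => rfl)]
    norm_num
  rw [e, mul_one] at h
  simpa only [mul_one] using h

theorem ind2_mm (v : Fin 3 → V → ℝ) : Ind 2 (mm v) := ind_Av 2 _

include hv in
theorem Hz_mm_sq_le (x : V) : Hz (fun y => mm v y ^ 2) x ≤ esq v := by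
  rw [Hz_ind2 ((cp_of (mm_sp hv)).pow 2) (fun x s => by simp only [ind2_mm v x s])]
  exact (av_sq_le (cp_of (hv 2)) 2).trans (le_esq v 2)

include hv in
theorem Hz_pd_mm_le {k : Fin 3} (hk : k ∈ HH) (x : V) :
    Hz (fun y => pd k (mm v) y ^ 2) x ≤ hsq v := by
  have hk2 : k ≠ 2 := by
    unfold HH at hk
    simp only [Finset.mem_insert, Finset.mem_singleton] at hk
    rcases hk with h | h <;> rw [h] <;> decide
  have e : pd k (mm v) = Av 2 (pd k (v 2)) := pd_Av (hv 2) hk2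
  rw [e, Hz_ind2 (((cp_of ((hv 2).pd k)).av 2).pow 2) (fun x s => by simp only [ind_Av 2 _ x s])]
  exact (av_sq_le (cp_of ((hv 2).pd k)) 2).trans (le_hsq v 2 hk)

end field

end Pool.Agent.H4LA
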