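import Pool.Agent.H4LA.En

/-!
The inequality for the powers of the slice energies.
-/

set_option autoImplicit false
set_option linter.unusedVariables false

open MeasureTheory Set Function Filter Topology
open scoped ENNReal ContDiff

namespace Pool.Agent.H4LA

open H459R3.NS

theorem yng {ν : ℝ} (hν : 0 < ν) (c s t : ℝ) : c * (s * t) ≤ ν * t ^ 2 + c ^ 2 / (4 * ν) * s ^ 2 := by
  have h : 0 ≤ (2 * ν * t - c * s) ^ 2 / (4 * ν) := by positivity
  have e : (2 * ν * t - c * s) ^ 2 / (4 * ν) = ν * t ^ 2 - c * (s * t) + c ^ 2 / (4 * ν) * s ^ 2 := by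
    field_simp
    ring
  rw [e] at h
  linarith

section field

variable {v : Fin 3 → V → ℝ} (hv : ∀ i, SP (v i)) (hdiv : ∀ x, ∑ i, pd i (v i) x = 0)

theorem pow_one_le {e : ℝ} (he : 0 ≤ e) {q : ℕ} (hq : 1 ≤ q) : e ^ (q - 1) ≤ 1 + e ^ q := by
  rcases le_total e 1 with h | h
  · have := pow_le_one₀ he h (n := q - 1)
    have := pow_nonneg he q
    linarith
  · have := pow_le_pow_right₀ h (by omega : q - 1 ≤ q)
    linarith

include hv in
/-- The product of the vertical average and the square of the field on slices. -/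
theorem Hz_mm_vsq (x : V) {e d μ : ℝ} (he : Hz (vsq (ww v)) x ≤ e) (hd : Hz (ga (ww v)) x ≤ d)
    (hμ : esq v + 2 * (√(esq v) * √(hsq v)) ≤ μ) :
    Hz (fun y => |mm v y| * vsq (ww v) y) x ^ 2 ≤ 3 * (μ * (e + 2 * (√e * √d))) * e := by
  have hw := ww_sp hv
  have sm := mm_sp hv
  have sW : SP (vsq (ww v)) := vsq_sp hw
  have cW := cp_of sW
  have cm := cp_of sm
  have he0 : 0 ≤ e := (Hz_nonneg (vsq_nonneg (ww v)) x).trans he
  have hd0 : 0 ≤ d := (Hz_nonneg ga_nonneg x).trans hd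
  have hμ0 : 0 ≤ μ := by
    have := esq_nonneg v
    have : 0 ≤ esq v + 2 * (√(esq v) * √(hsq v)) := by positivity
    linarith
  have h1 : Hz (fun y => |mm v y| * vsq (ww v) y) x
      ≤ √(Hz (fun y => mm v y ^ 2 * vsq (ww v) y) x) * √(Hz (vsq (ww v)) x) := by
    have k := Hz_cs (cm.abs.mul cW.sqrt) cW.sqrt x
    have e1 : (fun y => |mm v y| * √(vsq (ww v) y) * √(vsq (ww v) y))
        = fun y => |mm v y| * vsq (ww v) y := by
      funext y
      rw [mul_assoc, Real.mul_self_sqrt (vsq_nonneg _ y)]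
    have e2 : (fun y => (|mm v y| * √(vsq (ww v) y)) ^ 2)
        = fun y => mm v y ^ 2 * vsq (ww v) y := by
      funext y
      rw [mul_pow, sq_abs, Real.sq_sqrt (vsq_nonneg _ y)]
    have e3 : (fun y => √(vsq (ww v) y) ^ 2) = vsq (ww v) :=
      funext fun y => Real.sq_sqrt (vsq_nonneg _ y)
    rw [e1, e2, e3] at k
    exact (le_abs_self _).trans k
  have hm4 : Hz (fun y => mm v y ^ 4) x ≤ μ ^ 2 := by
    refine (lady sm (Hz_mm_sq_le hv x) (Hz_pd_mm_le hv mem0 x) (Hz_pd_mm_le hv mem1 x)).trans ?_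
    have := esq_nonneg v
    exact pow_le_pow_left₀ (by positivity) hμ 2
  have hw4 : ∀ i, Hz (fun y => ww v i y ^ 4) x ≤ (e + 2 * (√e * √d)) ^ 2 := fun i =>
    lady (hw i) ((Hz_le_vsq hw i x).trans he) ((Hz_le_ga hw i 0 x).trans hd)
      ((Hz_le_ga hw i 1 x).trans hd)
  have h2 : Hz (fun y => mm v y ^ 2 * vsq (ww v) y) x ≤ 3 * (μ * (e + 2 * (√e * √d))) := by
    have e1 : (fun y => mm v y ^ 2 * vsq (ww v) y) = fun y => ∑ i, mm v y ^ 2 * ww v i y ^ 2 := by
      funext y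
      unfold vsq
      rw [Finset.mul_sum]
    rw [e1, Hz_sum fun i _ => (cm.pow 2).mul ((cp_of (hw i)).pow 2)]
    have h3 : ∀ i, Hz (fun y => mm v y ^ 2 * ww v i y ^ 2) x ≤ μ * (e + 2 * (√e * √d)) := by
      intro i
      have k := Hz_cs (cm.pow 2) ((cp_of (hw i)).pow 2) x
      have e2 : ∀ g : V → ℝ, Hz (fun y => (g y ^ 2) ^ 2) x = Hz (fun y => g y ^ 4) x := by
        intro g
        congr 1
        funext y
        ring
      rw [e2, e2] at k
      refine (le_abs_self _).trans (k.trans ?_)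
      exact mul_le_mul (Real.sqrt_le_iff.2 ⟨hμ0, hm4⟩)
        (Real.sqrt_le_iff.2 ⟨by positivity, hw4 i⟩) (Real.sqrt_nonneg _) hμ0
    simp only [Fin.sum_univ_three]
    linarith [h3 0, h3 1, h3 2]
  have h3 : 0 ≤ Hz (fun y => |mm v y| * vsq (ww v) y) x :=
    Hz_nonneg (fun y => mul_nonneg (abs_nonneg _) (vsq_nonneg _ y)) x
  have h4 : 0 ≤ Hz (fun y => mm v y ^ 2 * vsq (ww v) y) x :=
    Hz_nonneg (fun y => mul_nonneg (sq_nonneg _) (vsq_nonneg _ y)) x
  have h5 := pow_le_pow_left₀ h3 h1 2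
  rw [mul_pow, Real.sq_sqrt h4, Real.sq_sqrt (Hz_nonneg (vsq_nonneg _) x)] at h5
  refine h5.trans ?_
  exact mul_le_mul h2 he (Hz_nonneg (vsq_nonneg _) x) (h4.trans h2)

end field

end Pool.Agent.H4LA
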