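import Pool.Agent.H4LA.En

/-!
The inequality for the integral of a power of the slice energy, with the pressure eliminated.
-/

set_option autoImplicit false
set_option linter.unusedVariables false

open MeasureTheory Set Function Filter Topology
open scoped ENNReal ContDiff

namespace Pool.Agent.H4LA

open H459R3.NS

theorem two_sqrt_le {a b : ℝ} (ha : 0 ≤ a) (hb : 0 ≤ b) : 2 * (√a * √b) ≤ a + b := by
  have h := sq_nonneg (√a - √b)
  have e1 := Real.sq_sqrt ha
  have e2 := Real.sq_sqrt hb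
  nlinarith

section field

variable {v : Fin 3 → V → ℝ} (hv : ∀ i, SP (v i)) (hdiv : ∀ x, ∑ i, pd i (v i) x = 0)

include hv in
/-- The slice integrals in terms of the gradient. -/
theorem Hz_vsq_le (x : V) : Hz (vsq v) x ≤ 4 * esq v + 3 * ysq v := by
  have h1 : ∀ i, Hz (fun y => v i y ^ 2) x ≤ (∫ x in cube, v i x ^ 2) + (esq v + ysq v) := by
    intro i
    have cr : CP (rho 2 (v i)) := rho_cp (hv i) 2
    have k1 : Hz (fun y => v i y ^ 2) x ≤ Hz (Av 2 (rho 2 (v i))) x :=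
      Hz_mono ((cp_of (hv i)).pow 2) (cr.av 2) (fun y => sq_le_Av (hv i) 2 y) x
    rw [Hz_ind2 (cr.av 2) (ind_Av 2 _), int_Av cr] at k1
    have k2 : ∫ x in cube, rho 2 (v i) x ≤ _ := NN_le (hv i) 2
    have k3 := le_esq v i
    have k4 := le_ysq v i 2
    have k5 := two_sqrt_le (a := ∫ x in cube, v i x ^ 2) (b := ∫ x in cube, pd 2 (v i) x ^ 2)
      (integral_nonneg fun x => sq_nonneg _) (integral_nonneg fun x => sq_nonneg _)
    linarith
  have e : Hz (vsq v) x = ∑ i, Hz (fun y => v i y ^ 2) x := by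
    unfold vsq
    rw [Hz_sum fun i _ => cp_of (SP.sqr (hv i))]
  have e2 : esq v = ∑ i, ∫ x in cube, v i x ^ 2 := rfl
  rw [e]
  rw [Fin.sum_univ_three] at e2 ⊢
  linarith [h1 0, h1 1, h1 2]

include hv in
theorem Hz_ww_le (x : V) : Hz (vsq (ww v)) x ≤ 2 * Hz (vsq v) x + 2 * esq v := by
  have hw := ww_sp hv
  have h1 : Hz (vsq (ww v)) x ≤ Hz (fun y => 2 * vsq v y + 2 * mm v y ^ 2) x := by
    apply Hz_mono (cp_of (vsq_sp hw)) (((cp_of (vsq_sp hv)).cmul 2).add
      (((cp_of (mm_sp hv)).pow 2).cmul 2))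
    intro y
    unfold vsq
    simp only [Fin.sum_univ_three]
    show v 0 y ^ 2 + v 1 y ^ 2 + (v 2 y - mm v y) ^ 2 ≤ _
    nlinarith [sq_nonneg (v 0 y), sq_nonneg (v 1 y), sq_nonneg (v 2 y + mm v y)]
  rw [Hz_add ((cp_of (vsq_sp hv)).cmul 2) (((cp_of (mm_sp hv)).pow 2).cmul 2), Hz_cmul,
    Hz_cmul] at h1
  linarith [Hz_mm_sq_le hv x]

include hv in
theorem Hz_vsq_le_ww (x : V) : Hz (vsq v) x ≤ 2 * Hz (vsq (ww v)) x + 2 * esq v := by
  have hw := ww_sp hv
  have h1 : Hz (vsq v) x ≤ Hz (fun y => 2 * vsq (ww v) y + 2 * mm v y ^ 2) x := by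
    apply Hz_mono (cp_of (vsq_sp hv)) (((cp_of (vsq_sp hw)).cmul 2).add
      (((cp_of (mm_sp hv)).pow 2).cmul 2))
    intro y
    unfold vsq
    simp only [Fin.sum_univ_three]
    show _ ≤ 2 * (v 0 y ^ 2 + v 1 y ^ 2 + (v 2 y - mm v y) ^ 2) + 2 * mm v y ^ 2
    nlinarith [sq_nonneg (v 0 y), sq_nonneg (v 1 y), sq_nonneg (v 2 y - 2 * mm v y)]
  rw [Hz_add ((cp_of (vsq_sp hw)).cmul 2) (((cp_of (mm_sp hv)).pow 2).cmul 2), Hz_cmul,
    Hz_cmul] at h1
  linarith [Hz_mm_sq_le hv x]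

include hv in
/-- Powers of the slice integrals. -/
theorem int_vsq_pow_le {E : ℝ} (hE : esq v ≤ E) (q : ℕ) :
    ∫ x in cube, Hz (vsq v) x ^ q ≤ 4 ^ q * ((∫ x in cube, Hz (vsq (ww v)) x ^ q) + E ^ q) := by
  have hw := ww_sp hv
  have cu : CP (Hz (vsq v)) := (cp_of (vsq_sp hv)).hz
  have ce : CP (Hz (vsq (ww v))) := (cp_of (vsq_sp hw)).hz
  have hE0 : 0 ≤ E := (esq_nonneg v).trans hE
  have h1 : ∫ x in cube, Hz (vsq v) x ^ q
      ≤ ∫ x in cube, (4 ^ q * Hz (vsq (ww v)) x ^ q + 4 ^ q * E ^ q) := by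
    refine integral_mono (cu.pow q).int (((ce.pow q).cmul _).add (CP.const _)).int fun x => ?_
    have k0 : 0 ≤ Hz (vsq v) x := Hz_nonneg (vsq_nonneg v) x
    have k1 : 0 ≤ Hz (vsq (ww v)) x := Hz_nonneg (vsq_nonneg _) x
    have k2 : Hz (vsq v) x ≤ 2 * (Hz (vsq (ww v)) x + E) := by
      linarith [Hz_vsq_le_ww hv x]
    have k3 := pow_le_pow_left₀ k0 k2 q
    rw [mul_pow] at k3
    have k4 : (Hz (vsq (ww v)) x + E) ^ q ≤ 2 ^ q * (Hz (vsq (ww v)) x ^ q + E ^ q) := by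
      rcases le_total (Hz (vsq (ww v)) x) E with h | h
      · have l1 : Hz (vsq (ww v)) x + E ≤ 2 * E := by linarith
        have l2 := pow_le_pow_left₀ (by positivity) l1 q
        rw [mul_pow] at l2
        have : 0 ≤ 2 ^ q * Hz (vsq (ww v)) x ^ q := by positivity
        linarith
      · have l1 : Hz (vsq (ww v)) x + E ≤ 2 * Hz (vsq (ww v)) x := by linarith
        have l2 := pow_le_pow_left₀ (by positivity) l1 q
        rw [mul_pow] at l2
        have : 0 ≤ 2 ^ q * E ^ q := by positivity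
        linarith
    have k5 := mul_le_mul_of_nonneg_left k4 (by positivity : (0 : ℝ) ≤ 2 ^ q)
    have e4 : (4 : ℝ) ^ q = 2 ^ q * 2 ^ q := by
      rw [← mul_pow]
      norm_num
    rw [e4]
    linarith
  have hfin := cube_finite
  have c1 : ∫ x in cube, (4 ^ q * E ^ q : ℝ) = 4 ^ q * E ^ q := by
    rw [setIntegral_const, Measure.real, volume_cube]
    simp
  rw [integral_add ((ce.pow q).cmul _).int (integrable_const _), integral_const_mul, c1] at h1
  linarith

end field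

end Pool.Agent.H4LA
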