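import Pool.Agent.H459R3.NS.Defs

/-!
The growth of the horizontal derivatives, with a bound of the rest of the vertical component by a
function of the horizontal coordinates.
-/

set_option autoImplicit false
set_option linter.unusedVariables false

open MeasureTheory Set Function Filter Topology
open scoped ENNReal ContDiff

namespace Pool.Agent.H4LA

open H459R3.NS

variable {v : Fin 3 → V → ℝ}

/-- Splitting of products of powers. -/
theorem pow_split {a b c s : ℝ} (ha : 0 ≤ a) (hb : 1 ≤ b) (hc : 0 < c) (hs : c < s) :
    a ^ c * b ^ (1 - c / s) ≤ a ^ s + b := by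
  have hb0 : 0 < b := by linarith
  have hs0 : 0 < s := by linarith
  have hθ : 0 ≤ 1 - c / s := by
    rw [sub_nonneg, div_le_one hs0]
    exact hs.le
  have n1 : 0 ≤ a ^ s := Real.rpow_nonneg ha _
  rcases le_total (a ^ c) (b ^ (c / s)) with h | h
  · have h1 := mul_le_mul_of_nonneg_right h (Real.rpow_nonneg hb0.le (1 - c / s))
    have h2 : b ^ (c / s) * b ^ (1 - c / s) = b := by
      rw [← Real.rpow_add hb0]
      simp
    rw [h2] at h1
    linarith
  · have h1 : b ≤ a ^ s := by
      have h2 := Real.rpow_le_rpow (Real.rpow_nonneg hb0.le _) h (by positivity : 0 ≤ s / c)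
      have h3 : (b ^ (c / s)) ^ (s / c) = b := by
        rw [← Real.rpow_mul hb0.le]
        have : c / s * (s / c) = 1 := by field_simp
        rw [this, Real.rpow_one]
      have h4 : (a ^ c) ^ (s / c) = a ^ s := by
        rw [← Real.rpow_mul ha]
        congr 1
        field_simp
      rwa [h3, h4] at h2
    have h5 : b ^ (1 - c / s) ≤ (a ^ s) ^ (1 - c / s) := Real.rpow_le_rpow hb0.le h1 hθ
    have h6 := mul_le_mul_of_nonneg_left h5 (Real.rpow_nonneg ha c)
    have h7 : a ^ c * (a ^ s) ^ (1 - c / s) ≤ a ^ s := by
      rcases eq_or_lt_of_le ha with h0 | h0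
      · rw [← h0]
        have : (0 : ℝ) ^ s = 0 := Real.zero_rpow hs0.ne'
        rw [this, Real.zero_rpow hc.ne']
        simp
      · rw [← Real.rpow_mul ha, ← Real.rpow_add h0]
        apply le_of_eq
        congr 1
        field_simp
        ring
    linarith

end Pool.Agent.H4LA
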