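import Pool.Agent.H4LA.Kx

/-!
The inequality for the integral of a power of the slice energy, with the pressure eliminated, for
majorants which depend on all the coordinates.
-/

set_option autoImplicit false
set_option linter.unusedVariables false

open MeasureTheory Set Function Filter Topology
open scoped ENNReal ContDiff

namespace Pool.Agent.H4LA

open H459R3.NS

theorem sup_i01 {f : V → ℝ} (sf : SP f) (hif : I01 f) (x : V) :
    f x ^ 2 ≤ (∫ x in cube, f x ^ 2)
      + 2 * (√(∫ x in cube, f x ^ 2) * √(∫ x in cube, pd 2 f x ^ 2)) := by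
  have h1 : f x ^ 2 ≤ Av 2 (rho 2 f) x := sq_le_Av sf 2 x
  have irho : I01 (rho 2 f) := by
    unfold rho
    exact (hif.powr 2).add (((hif.mul (I01.pd2 sf hif)).abs).cmul 2)
  rw [Av2_of_i01 (rho_cp sf 2) irho x] at h1
  exact h1.trans (NN_le sf 2)

theorem sup_hz {f : V → ℝ} (sf : SP f) (x : V) :
    Hz (fun y => f y ^ 2) x ≤ (∫ x in cube, f x ^ 2)
      + 2 * (√(∫ x in cube, f x ^ 2) * √(∫ x in cube, pd 2 f x ^ 2)) := by
  have cr : CP (rho 2 f) := rho_cp sf 2
  have k1 : Hz (fun y => f y ^ 2) x ≤ Hz (Av 2 (rho 2 f)) x :=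
    Hz_mono ((cp_of sf).pow 2) (cr.av 2) (fun y => sq_le_Av sf 2 y) x
  rw [Hz_ind2 (cr.av 2) (ind_Av 2 _), int_Av cr] at k1
  exact k1.trans (NN_le sf 2)

/-- Twice the exponent of the frequency minus one. -/
noncomputable def qq (a r : ℝ) : ℝ := 2 * pp a r - 1

theorem Ex.qq_one {a r : ℝ} (h : Ex a r) : 1 ≤ qq a r := by
  have := h.pp_one
  unfold qq
  linarith

/-- The exponent of the norm. -/
noncomputable def s0 (a r : ℝ) : ℝ := 2 * a / qq a r

/-- The exponent of the logarithm. -/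
noncomputable def bt (a r : ℝ) : ℝ := 1 + 2 / qq a r + 2 * a / (r * qq a r)

theorem Ex.s0_two {a r : ℝ} (h : Ex a r) : 2 ≤ s0 a r := by
  have h1 := h.qq_one
  have ha := h.ha
  have hr := h.hr
  have hr0 : 0 < r := by linarith
  have h2 : qq a r ≤ a := by
    unfold qq pp
    have e : 2 * (a * (r - 2) / (2 * r)) = a - 2 * a / r := by
      field_simp
    rw [e]
    have : 0 ≤ 2 * a / r := by positivity
    linarith
  unfold s0
  rw [le_div_iff₀ (by linarith)]
  linarith

theorem Ex.s0_eq {a r : ℝ} (h : Ex a r) : s0 a r = 2 / (1 - 1 / a - 2 / r) := by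
  have h1 := h.qq_one
  have ha := h.ha
  have hr := h.hr
  have hr0 : 0 < r := by linarith
  have ha0 : 0 < a := by linarith
  have e : qq a r = a * (1 - 1 / a - 2 / r) := by
    unfold qq pp
    field_simp
    ring
  have h2 : 0 < 1 - 1 / a - 2 / r := by
    have : 0 < a * (1 - 1 / a - 2 / r) := by linarith
    exact (pos_iff_pos_of_mul_pos this).1 ha0
  unfold s0
  rw [e]
  field_simp

/-- The level. -/
noncomputable def lam (a r δ l M : ℝ) : ℝ := (l * (δ⁻¹ ^ (a / r) * M ^ a)) ^ (2 / qq a r)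

theorem lam_one {a r δ l M : ℝ} (h : Ex a r) (hδ : 0 < δ) (hδ1 : δ ≤ 1) (hl : 1 ≤ l)
    (hM : 1 ≤ M) : 1 ≤ lam a r δ l M := by
  have h1 := h.qq_one
  have ha := h.ha
  have hr := h.hr
  unfold lam
  refine Real.one_le_rpow ?_ (by positivity)
  have k1 : 1 ≤ δ⁻¹ ^ (a / r) := Real.one_le_rpow ((one_le_inv₀ hδ).2 hδ1) (by positivity)
  have k2 : 1 ≤ M ^ a := Real.one_le_rpow hM (by linarith)
  have k3 : 1 ≤ δ⁻¹ ^ (a / r) * M ^ a := one_le_mul_of_one_le_of_one_le k1 k2
  exact one_le_mul_of_one_le_of_one_le hl k3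

/-- The relation of the two weights. -/
theorem lam_sq {a r δ l M : ℝ} (h : Ex a r) (hδ : 0 < δ) (hδ1 : δ ≤ 1) (hl : 1 ≤ l)
    (hM : 1 ≤ M) :
    l * (lam a r δ l M ^ (1 - pp a r) * (δ⁻¹ ^ (a / r) * M ^ a)) = √(lam a r δ l M) := by
  have h1 := h.qq_one
  have hL := lam_one h hδ hδ1 hl hM
  set L : ℝ := lam a r δ l M with hLd
  have hL0 : 0 < L := by linarith
  have ha := h.ha
  have hr := h.hr
  have hM0 : 0 < M := by linarith
  have hl0 : 0 < l := by linarith
  set K : ℝ := δ⁻¹ ^ (a / r) * M ^ a with hK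
  have hK0 : 0 < K := by positivity
  have e1 : l * K = L ^ (qq a r / 2) := by
    rw [hLd]
    unfold lam
    rw [← hK, ← Real.rpow_mul (by positivity)]
    have : 2 / qq a r * (qq a r / 2) = 1 := by field_simp
    rw [this, Real.rpow_one]
  have e2 : l * (L ^ (1 - pp a r) * K) = L ^ (1 - pp a r) * L ^ (qq a r / 2) := by
    rw [← e1]
    ring
  rw [e2, ← Real.rpow_add hL0, Real.sqrt_eq_rpow]
  congr 1
  unfold qq
  ring

theorem lam_eq {a r c l M : ℝ} (h : Ex a r) (hc : 0 < c) (hl : 1 ≤ l) (hM : 1 ≤ M) :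
    l * lam a r (c / l) l M
      = (c⁻¹ ^ (a / r)) ^ (2 / qq a r) * (M ^ s0 a r * l ^ bt a r) := by
  have h1 := h.qq_one
  have ha := h.ha
  have hr := h.hr
  have hM0 : 0 < M := by linarith
  have hl0 : 0 < l := by linarith
  have hq0 : 0 < qq a r := by linarith
  unfold lam s0 bt
  have e1 : (c / l)⁻¹ = c⁻¹ * l := by
    field_simp
  rw [e1, Real.mul_rpow (by positivity) hl0.le]
  have e2 : l * (c⁻¹ ^ (a / r) * l ^ (a / r) * M ^ a)
      = c⁻¹ ^ (a / r) * (l ^ (1 + a / r) * M ^ a) := by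
    rw [Real.rpow_add hl0, Real.rpow_one]
    ring
  rw [e2, Real.mul_rpow (by positivity) (by positivity),
    Real.mul_rpow (by positivity) (by positivity), ← Real.rpow_mul hl0.le,
    ← Real.rpow_mul hM0.le]
  have e3 : a * (2 / qq a r) = 2 * a / qq a r := by ring
  have e4 : l * l ^ ((1 + a / r) * (2 / qq a r)) = l ^ (1 + 2 / qq a r + 2 * a / (r * qq a r)) := by
    have : l * l ^ ((1 + a / r) * (2 / qq a r)) = l ^ (1 : ℝ) * l ^ ((1 + a / r) * (2 / qq a r)) := by
      rw [Real.rpow_one]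
    rw [this, ← Real.rpow_add hl0]
    congr 1
    field_simp
    ring
  rw [e3, ← e4]
  ring

end Pool.Agent.H4LA
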