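import Pool.Agent.H4LA.En2
import Pool.Agent.H4LA.KeyK

/-!
The growth of the horizontal derivatives, for majorants which depend on all the coordinates.
-/

set_option autoImplicit false
set_option linter.unusedVariables false

open MeasureTheory Set Function Filter Topology
open scoped ENNReal ContDiff

namespace Pool.Agent.H4LA

open H459R3.NS

theorem int_pd2_le {v : Fin 3 → V → ℝ} (hv : ∀ i, SP (v i)) (i j : Fin 3) :
    ∫ x in cube, pd 2 (pd j (v i)) x ^ 2 ≤ qsq v := by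
  refine (int_pd_pd_le (hv i) 2 j).trans ?_
  unfold qsq
  exact Finset.single_le_sum (f := fun i => ∫ x in cube, lap (v i) x ^ 2)
    (fun i _ => isq_nonneg _) (Finset.mem_univ i)

theorem v2f_K {a r : ℝ} (h : Ex a r) : ∃ C, 1 ≤ C ∧ ∀ M : ℝ, 1 ≤ M →
    ∀ δ : ℝ, 0 < δ → δ ≤ 1 → ∀ v : Fin 3 → V → ℝ, (∀ i, SP (v i)) →
    (∫ x in cube, NR r (fun x => |bb v x|) x ^ (a / r)) ≤ M ^ a → ∀ L : ℝ, 0 < L →
    ∀ i j, ∫ x in cube, (v 2 x * pd j (v i) x) ^ 2
      ≤ 2 * (esq v + 2 * (√(esq v) * √(hsq v)))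
          * (ysq v + 2 * (√(ysq v) * √(2 * psq v)))
        + 2 * C * (δ * (ysq v + 2 * psq v) + (L * ysq v
          + (L ^ (1 - pp a r) * (δ⁻¹ ^ (a / r) * M ^ a))
            * (ysq v + 2 * (√(ysq v) * √(qsq v))))) := by
  have hr := h.hr
  have ha := h.ha
  have hr0 : 0 < r := by linarith
  obtain ⟨C, hC1, hC⟩ := mlt hr
  refine ⟨C, hC1, ?_⟩
  intro M hM1 δ hδ hδ1 v hv hM L hL i j
  set G : V → ℝ := fun x => |bb v x| with hG
  have cG : CP G := (cp_of (bb_sp hv)).abs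
  have G0 : ∀ x, 0 ≤ G x := fun x => abs_nonneg _
  set f : V → ℝ := pd j (v i) with hf'
  have hf : SP f := (hv i).pd j
  have cf := cp_of hf
  have sm := mm_sp hv
  have cm := cp_of sm
  set k : V → ℝ := kk r δ G with hk
  have ck : CP k := kk_cp hr cG
  have k1 : ∀ x, 1 ≤ k x := kk_one hr hδ hδ1 G0
  have k0 : ∀ x, 0 ≤ k x := fun x => by linarith [k1 x]
  have hkint := kk_int h hδ cG G0 hM
  set μ : ℝ := esq v + 2 * (√(esq v) * √(hsq v)) with hμ
  have hE0 := esq_nonneg v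
  have hy0 := ysq_nonneg v
  have hπ0 := psq_nonneg v
  have hμ0 : 0 ≤ μ := by positivity
  set A : V → ℝ := Hz (fun y => f y ^ 2) with hA
  have cA : CP A := (cf.pow 2).hz
  have A0 : ∀ x, 0 ≤ A x := Hz_nonneg fun y => sq_nonneg _
  set B : V → ℝ := fun x => Hz (fun y => pd 0 f y ^ 2) x + Hz (fun y => pd 1 f y ^ 2) x with hB
  have c0 : CP (fun y => pd 0 f y ^ 2) := (cp_of (hf.pd 0)).pow 2
  have c1 : CP (fun y => pd 1 f y ^ 2) := (cp_of (hf.pd 1)).pow 2
  have cB : CP B := c0.hz.add c1.hz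
  have b0 : ∀ x, 0 ≤ Hz (fun y => pd 0 f y ^ 2) x := Hz_nonneg fun y => sq_nonneg _
  have b1 : ∀ x, 0 ≤ Hz (fun y => pd 1 f y ^ 2) x := Hz_nonneg fun y => sq_nonneg _
  have B0 : ∀ x, 0 ≤ B x := fun x => add_nonneg (b0 x) (b1 x)
  have iA0 : ∫ x in cube, f x ^ 2 ≤ ysq v := le_ysq v i j
  have iA : ∫ x in cube, A x ≤ ysq v := by
    rw [hA, int_Hz (cf.pow 2)]
    exact iA0
  have iB : ∫ x in cube, B x ≤ 2 * psq v := by
    rw [hB, integral_add c0.hz.int c1.hz.int, int_Hz c0, int_Hz c1]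
    have h0 := le_psq v i j mem0
    have h1 := le_psq v i j mem1
    rw [pd_comm (hv i) j 0] at h0
    rw [pd_comm (hv i) j 1] at h1
    linarith
  have sA : ∀ x, A x ≤ ysq v + 2 * (√(ysq v) * √(qsq v)) := by
    intro x
    have h1 := sup_hz hf x
    have h2 : √(∫ x in cube, f x ^ 2) * √(∫ x in cube, pd 2 f x ^ 2) ≤ √(ysq v) * √(qsq v) :=
      mul_le_mul (Real.sqrt_le_sqrt iA0) (Real.sqrt_le_sqrt (int_pd2_le hv i j))
        (Real.sqrt_nonneg _) (Real.sqrt_nonneg _)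
    simp only [hA]
    linarith
  -- the average
  have h1 : ∫ x in cube, mm v x ^ 2 * f x ^ 2
      ≤ μ * (ysq v + 2 * (√(ysq v) * √(2 * psq v))) := by
    have cmf : CP (fun y => mm v y ^ 2 * f y ^ 2) := (cm.pow 2).mul (cf.pow 2)
    rw [← int_Hz cmf]
    have cS : CP (fun x => √(A x) * √(B x)) := cA.sqrt.mul cB.sqrt
    have k1 : ∫ x in cube, Hz (fun y => mm v y ^ 2 * f y ^ 2) x
        ≤ ∫ x in cube, μ * (A x + 2 * (√(A x) * √(B x))) := by
      refine integral_mono cmf.hz.int ((cA.add (cS.cmul 2)).cmul μ).int fun x => ?_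
      have l1 := lady hf (x := x) (A := A x) (B := B x) le_rfl
        (by simp only [hB]; linarith [b1 x]) (by simp only [hB]; linarith [b0 x])
      have l2 := lady sm (x := x) (Hz_mm_sq_le hv x) (Hz_pd_mm_le hv mem0 x) (Hz_pd_mm_le hv mem1 x)
      rw [← hμ] at l2
      have l3 := Hz_cs (cm.pow 2) (cf.pow 2) x
      have e2 : ∀ g : V → ℝ, Hz (fun y => (g y ^ 2) ^ 2) x = Hz (fun y => g y ^ 4) x := by
        intro g
        congr 1
        funext y
        ring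
      rw [e2, e2] at l3
      refine (le_abs_self _).trans (l3.trans ?_)
      have n1 : 0 ≤ A x + 2 * (√(A x) * √(B x)) := by
        have := A0 x
        positivity
      exact mul_le_mul (Real.sqrt_le_iff.2 ⟨hμ0, l2⟩) (Real.sqrt_le_iff.2 ⟨n1, l1⟩)
        (Real.sqrt_nonneg _) hμ0
    have k2 : ∫ x in cube, √(A x) * √(B x) ≤ √(ysq v) * √(2 * psq v) := by
      have l1 := integral_mul_sq_le (μ := volume.restrict cube) (a := fun x => √(A x))
        (b := fun x => √(B x)) (cA.sqrt.pow 2).int (cB.sqrt.pow 2).int cS.int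
      have e1 : ∀ x, √(A x) ^ 2 = A x := fun x => Real.sq_sqrt (A0 x)
      have e2 : ∀ x, √(B x) ^ 2 = B x := fun x => Real.sq_sqrt (B0 x)
      simp_rw [e1, e2] at l1
      rw [← Real.sqrt_mul hy0]
      apply Real.le_sqrt_of_sq_le
      refine l1.trans ?_
      exact mul_le_mul iA iB (integral_nonneg B0) hy0
    rw [integral_const_mul, integral_add cA.int (cS.cmul 2).int, integral_const_mul] at k1
    refine k1.trans (mul_le_mul_of_nonneg_left ?_ hμ0)
    linarith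
  -- the rest
  set KA : ℝ := L * ysq v + (L ^ (1 - pp a r) * (δ⁻¹ ^ (a / r) * M ^ a))
            * (ysq v + 2 * (√(ysq v) * √(qsq v))) with hKA
  have h2 : ∫ x in cube, G x ^ 2 * f x ^ 2 ≤ C * (δ * (ysq v + 2 * psq v) + KA) := by
    have cGf : CP (fun y => G y ^ 2 * f y ^ 2) := (cG.pow 2).mul (cf.pow 2)
    rw [← int_Hz cGf]
    have ckA : CP fun x => k x * A x := ck.mul cA
    have k1 : ∫ x in cube, Hz (fun y => G y ^ 2 * f y ^ 2) x
        ≤ ∫ x in cube, C * (δ * (A x + B x) + k x * A x) := by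
      refine integral_mono cGf.hz.int ((((cA.add cB).cmul δ).add ckA).cmul C).int
        fun x => ?_
      have ef : Hz (fun y => G y ^ 2 * f y ^ 2) x = Hz (fun y => fz G x y ^ 2 * f y ^ 2) x :=
        Hz_congr fun z hz => by rw [fz_eq hz]
      have := hC (fz G x) (fz_cp cG x) (fz_ind G x) (fz_nonneg G0 x) (Nx r G x) (Nx_one hr0 G0 x)
        (int_fz hr0 cG G0 x) δ hδ hδ1 f hf x (A x) (B x) le_rfl
        (by simp only [hB]; linarith [b1 x]) (by simp only [hB]; linarith [b0 x])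
      rw [Nx_pow hr0 G0] at this
      rw [ef]
      exact this
    have k2 : ∫ x in cube, k x * A x ≤ KA :=
      interp ck k0 cA A0 h.pp_one hL sA hkint iA
    rw [integral_const_mul, integral_add ((cA.add cB).cmul δ).int ckA.int,
      integral_const_mul, integral_add cA.int cB.int] at k1
    refine k1.trans (mul_le_mul_of_nonneg_left ?_ (by linarith))
    have l1 := mul_le_mul_of_nonneg_left (add_le_add iA iB) hδ.le
    linarith
  have h3 : ∫ x in cube, (v 2 x * f x) ^ 2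
      ≤ ∫ x in cube, (2 * (mm v x ^ 2 * f x ^ 2) + 2 * (G x ^ 2 * f x ^ 2)) := by
    have c2 := cp_of (hv 2)
    refine integral_mono ((c2.mul cf).pow 2).int ((((cm.pow 2).mul (cf.pow 2)).cmul 2).add
      (((cG.pow 2).mul (cf.pow 2)).cmul 2)).int fun x => ?_
    have l1 : v 2 x ^ 2 ≤ 2 * mm v x ^ 2 + 2 * G x ^ 2 := by
      have e : v 2 x = mm v x + bb v x := by
        unfold bb
        ring
      have l2 : bb v x ^ 2 = G x ^ 2 := by
        simp only [hG]
        rw [sq_abs]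
      rw [e, ← l2]
      linarith only [sq_nonneg (mm v x - bb v x)]
    have := mul_le_mul_of_nonneg_right l1 (sq_nonneg (f x))
    simp only
    rw [mul_pow]
    linarith
  rw [integral_add (((cm.pow 2).mul (cf.pow 2)).cmul 2).int (((cG.pow 2).mul (cf.pow 2)).cmul 2).int,
    integral_const_mul, integral_const_mul] at h3
  linarith

/-- The pointwise bound for the growth of `hsq`. -/
theorem rate3 {E E0 η π y cu W C δ L Λ Q ε τ ν : ℝ} (hν : 0 < ν) (hE : 0 ≤ E) (hE0 : E ≤ E0)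
    (hη : 0 ≤ η) (hπ : 0 ≤ π) (hy : 0 ≤ y) (hW0 : 0 ≤ W) (hC : 0 ≤ C) (hδ : 0 ≤ δ) (hδ1 : δ ≤ 1)
    (hL : 1 ≤ L) (hΛ0 : 0 ≤ Λ) (hτ : 0 < τ) (hτ1 : τ ≤ 1) (hε : 0 < ε) (hQ : 0 ≤ Q)
    (hΛ : Λ ^ 2 ≤ τ * L) (hCδ : C * δ ≤ ν ^ 2 / 43264)
    (hcu : |cu| ≤ 26 * (√W * √π))
    (hW : W ≤ 2 * (E + 2 * (√E * √η)) * (y + 2 * (√y * √(2 * π)))
      + 2 * C * (δ * (y + 2 * π) + (L * y + Λ * (y + 2 * (√y * √Q))))) :
    -(2 * ν * π) - 2 * cu ≤ -(ν * π) + (5408 / ν * (1 + (2 * E0 ^ 2 + 8 * E0))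
      + 2 * 10816 ^ 2 / ν ^ 3 * (2 * E0 ^ 2 + 8 * E0) + 16224 / ν * C
      + (10816 * C / ν) ^ 2 / (4 * ε)) * ((1 + η + L) * y) + ε * τ * Q := by
  set μ : ℝ := E + 2 * (√E * √η) with hμ
  have hE00 : 0 ≤ E0 := hE.trans hE0
  have hμ0 : 0 ≤ μ := by positivity
  have sπ : √π ^ 2 = π := Real.sq_sqrt hπ
  have sW : √W ^ 2 = W := Real.sq_sqrt hW0
  have sy : √y ^ 2 = y := Real.sq_sqrt hy
  have sQ : √Q ^ 2 = Q := Real.sq_sqrt hQ
  have s2 : √(2 * π) ^ 2 = 2 * π := Real.sq_sqrt (by positivity)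
  have h1 : -2 * cu ≤ 52 * (√W * √π) := by
    have := (abs_le.1 hcu).1
    linarith
  have h2 : 52 * (√W * √π) ≤ ν / 4 * π + 2704 / ν * W := by
    have h := yng (ν := ν / 4) (by positivity) 52 (√W) (√π)
    rw [sπ, sW] at h
    refine h.trans (le_of_eq ?_)
    field_simp
    ring
  have h3 := mul_le_mul_of_nonneg_left hW (by positivity : 0 ≤ 2704 / ν)
  -- the mixed term
  have h4 : 10816 * μ / ν * (√y * √(2 * π)) ≤ ν / 4 * π + 2 * 10816 ^ 2 / ν ^ 3 * μ ^ 2 * y := by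
    have h := yng (ν := ν / 8) (by positivity) (10816 * μ / ν) (√y) (√(2 * π))
    rw [s2, sy] at h
    refine h.trans (le_of_eq ?_)
    field_simp
    ring
  -- the term with the second derivatives
  have hLL : τ * L ≤ L := mul_le_of_le_one_left (by linarith) hτ1
  have h4' : 10816 * C / ν * Λ * (√y * √Q) ≤ ε * τ * Q + (10816 * C / ν) ^ 2 / (4 * ε) * (L * y) := by
    have h := yng (ν := ε * τ) (by positivity) (10816 * C / ν * Λ) (√y) (√Q)
    rw [sQ, sy] at h
    refine h.trans (add_le_add le_rfl ?_)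
    have e1 : (10816 * C / ν * Λ) ^ 2 / (4 * (ε * τ)) * y
        = (10816 * C / ν) ^ 2 / (4 * ε) * ((Λ ^ 2 / τ) * y) := by
      field_simp
    rw [e1]
    refine mul_le_mul_of_nonneg_left (mul_le_mul_of_nonneg_right ?_ hy) (by positivity)
    rw [div_le_iff₀ hτ]
    linarith
  have hΛL : Λ ≤ L := by
    have h5 : Λ ^ 2 ≤ L ^ 2 := by
      have : L ≤ L ^ 2 := by
        rw [sq]
        exact le_mul_of_one_le_left (by linarith) hL
      linarith
    exact (abs_le_of_sq_le_sq' h5 (by linarith)).2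
  have hμ2 : μ ^ 2 ≤ (2 * E0 ^ 2 + 8 * E0) * (1 + η) := by
    have k1 : μ ^ 2 ≤ 2 * E ^ 2 + 2 * (2 * (√E * √η)) ^ 2 := by
      rw [hμ]
      linarith only [sq_nonneg (E - 2 * (√E * √η))]
    have k2 : (2 * (√E * √η)) ^ 2 = 4 * (E * η) := by
      rw [mul_pow, mul_pow, Real.sq_sqrt hE, Real.sq_sqrt hη]
      norm_num
    have k3 : E ^ 2 ≤ E0 ^ 2 := pow_le_pow_left₀ hE hE0 2
    have k4 : E * η ≤ E0 * η := mul_le_mul_of_nonneg_right hE0 hη
    have k5 : 0 ≤ E0 ^ 2 * η := by positivity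
    rw [k2] at k1
    linarith
  have hμ1 : μ ≤ 1 + μ ^ 2 := by linarith only [sq_nonneg (μ - 1), sq_nonneg μ]
  set a : ℝ := 2 * E0 ^ 2 + 8 * E0 with ha
  have ha0 : 0 ≤ a := by positivity
  have e1 : 2704 / ν * (2 * μ * (y + 2 * (√y * √(2 * π)))
        + 2 * C * (δ * (y + 2 * π) + (L * y + Λ * (y + 2 * (√y * √Q)))))
      = 5408 / ν * (μ * y) + 10816 * μ / ν * (√y * √(2 * π)) + 5408 / ν * (C * (δ + L + Λ) * y)
        + 10816 / ν * (C * δ) * π + 10816 * C / ν * Λ * (√y * √Q) := by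
    field_simp
    ring
  rw [e1] at h3
  have h5 : 10816 / ν * (C * δ) * π ≤ ν / 4 * π := by
    refine mul_le_mul_of_nonneg_right ?_ hπ
    have := mul_le_mul_of_nonneg_left hCδ (by positivity : 0 ≤ 10816 / ν)
    refine this.trans (le_of_eq ?_)
    field_simp
    norm_num
  have h6 : 5408 / ν * (C * (δ + L + Λ) * y) ≤ 16224 / ν * C * ((1 + η + L) * y) := by
    have l1 : C * (δ + L + Λ) * y ≤ C * (3 * (1 + η + L)) * y := by
      refine mul_le_mul_of_nonneg_right (mul_le_mul_of_nonneg_left ?_ hC) hy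
      linarith
    have := mul_le_mul_of_nonneg_left l1 (by positivity : 0 ≤ 5408 / ν)
    refine this.trans (le_of_eq ?_)
    ring
  have h7 : μ * y ≤ (1 + a) * ((1 + η + L) * y) := by
    have l1 : μ ≤ (1 + a) * (1 + η + L) := by
      have l2 : a * (1 + η) ≤ a * (1 + η + L) := mul_le_mul_of_nonneg_left (by linarith) ha0
      linarith
    have := mul_le_mul_of_nonneg_right l1 hy
    linarith
  have h8 : μ ^ 2 * y ≤ a * ((1 + η + L) * y) := by
    have l1 : μ ^ 2 ≤ a * (1 + η + L) := by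
      have l2 : a * (1 + η) ≤ a * (1 + η + L) := mul_le_mul_of_nonneg_left (by linarith) ha0
      linarith
    have := mul_le_mul_of_nonneg_right l1 hy
    linarith
  have h9 := mul_le_mul_of_nonneg_left h7 (by positivity : 0 ≤ 5408 / ν)
  have h10 := mul_le_mul_of_nonneg_left h8 (by positivity : 0 ≤ 2 * 10816 ^ 2 / ν ^ 3)
  have h11 : 0 ≤ ν * π := by positivity
  have h12 : (10816 * C / ν) ^ 2 / (4 * ε) * (L * y)
      ≤ (10816 * C / ν) ^ 2 / (4 * ε) * ((1 + η + L) * y) := by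
    refine mul_le_mul_of_nonneg_left (mul_le_mul_of_nonneg_right ?_ hy) (by positivity)
    linarith
  linarith

end Pool.Agent.H4LA
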