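import Pool.Agent.H4LA.En3

/-!
The inequality for the integral of a power of the slice energy, with the pressure eliminated.
-/

set_option autoImplicit false
set_option linter.unusedVariables false

open MeasureTheory Set Function Filter Topology
open scoped ENNReal ContDiff

namespace Pool.Agent.H4LA

open H459R3.NS

theorem mu_le {E η y : ℝ} (hE0 : 0 ≤ E) (hη0 : 0 ≤ η) (hηy : η ≤ y) :
    E + 2 * (√E * √η) ≤ (2 * E + 1) * (1 + y) := by
  have h1 := two_sqrt_le hE0 hη0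
  have h2 : 0 ≤ E * y := mul_nonneg hE0 (hη0.trans hηy)
  linarith

theorem mu_sq_le {E η y : ℝ} (hE0 : 0 ≤ E) (hη0 : 0 ≤ η) (hηy : η ≤ y) :
    (E + 2 * (√E * √η)) ^ 2 ≤ (2 * E ^ 2 + 8 * E) * (1 + y) := by
  have k1 : (E + 2 * (√E * √η)) ^ 2 ≤ 2 * E ^ 2 + 2 * (2 * (√E * √η)) ^ 2 := by
    nlinarith [sq_nonneg (E - 2 * (√E * √η))]
  have k2 : (2 * (√E * √η)) ^ 2 = 4 * (E * η) := by
    rw [mul_pow, mul_pow, Real.sq_sqrt hE0, Real.sq_sqrt hη0]
    norm_num
  have k3 : E * η ≤ E * y := mul_le_mul_of_nonneg_left hηy hE0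
  have k4 : 0 ≤ E ^ 2 * y := mul_nonneg (sq_nonneg E) (hη0.trans hηy)
  rw [k2] at k1
  linarith

end Pool.Agent.H4LA
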