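import Pool.Agent.H4LA.Far

/-!
The pressure multiplied by a function of the horizontal coordinates.
-/

set_option autoImplicit false
set_option linter.unusedVariables false

open MeasureTheory Set Function Filter Topology
open scoped ENNReal ContDiff

namespace Pool.Agent.H4LA

open H459R3.NS

theorem int_par_sq {Q : V × ℝ → ℝ} (hQ : Continuous Q) {w : ℝ → ℝ} (hw : Continuous w)
    (w0 : ∀ r, 0 ≤ w r) {g : V → ℝ} (hg : Continuous g) (g0 : ∀ x, 0 ≤ g x) {α β Z : ℝ}
    (hZ : ∀ r ∈ Icc α β, ∫ x in cube, g x * Q (x, r) ^ 2 ≤ Z) :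
    ∫ x in cube, g x * (∫ r in Icc α β, w r * Q (x, r)) ^ 2
      ≤ (∫ r in Icc α β, w r) ^ 2 * Z := by
  set W : ℝ := ∫ r in Icc α β, w r with hW
  have hW0 : 0 ≤ W := integral_nonneg w0
  have cB' : ∀ x, Continuous fun r : ℝ => Q (x, r) := fun x =>
    hQ.comp (by fun_prop : Continuous fun r : ℝ => (x, r))
  have hF : Continuous fun z : V × ℝ => w z.2 * (g z.1 * Q z ^ 2) :=
    (hw.comp continuous_snd).mul ((hg.comp continuous_fst).mul (hQ.pow 2))
  have hF0 : Continuous fun z : V × ℝ => w z.2 * Q z := (hw.comp continuous_snd).mul hQ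
  have hK : IsCompact (cube : Set V) := isCompact_Icc
  have cI : Continuous fun x => ∫ r in Icc α β, w r * Q (x, r) :=
    continuous_parametric_integral_of_continuous hF0 isCompact_Icc
  have h1 : ∫ x in cube, g x * (∫ r in Icc α β, w r * Q (x, r)) ^ 2
      ≤ ∫ x in cube, W * ∫ r in Icc α β, w r * (g x * Q (x, r) ^ 2) := by
    refine integral_mono (integrableOn_cube (hg.mul (cI.pow 2))) (integrableOn_cube ?_) fun x => ?_
    · refine continuous_const.mul ?_
      exact continuous_parametric_integral_of_continuous hF isCompact_Icc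
    · have h2 := wcs hw (cB' x) w0 α β
      have h3 := mul_le_mul_of_nonneg_left h2 (g0 x)
      refine h3.trans (le_of_eq ?_)
      have e : ∫ r in Icc α β, w r * (g x * Q (x, r) ^ 2)
          = g x * ∫ r in Icc α β, w r * Q (x, r) ^ 2 := by
        rw [← integral_const_mul]
        congr 1
        funext r
        ring
      rw [e]
      ring
  refine h1.trans ?_
  rw [integral_const_mul,
    swap (μ := (volume : Measure V)) (ν := (volume : Measure ℝ)) hK isCompact_Icc hF, sq, mul_assoc]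
  refine mul_le_mul_of_nonneg_left ?_ hW0
  have h4 : ∫ r in Icc α β, ∫ x in cube, w r * (g x * Q (x, r) ^ 2) ≤ ∫ r in Icc α β, w r * Z := by
    refine setIntegral_mono_on ?_ (hw.mul continuous_const).continuousOn.integrableOn_Icc
      measurableSet_Icc fun r hr => ?_
    · have hc2 : Continuous fun r : ℝ => ∫ x in cube, w r * (g x * Q (x, r) ^ 2) := by
        have hF2 : Continuous fun z : ℝ × V => w z.1 * (g z.2 * Q (z.2, z.1) ^ 2) :=
          hF.comp (by fun_prop : Continuous fun z : ℝ × V => (z.2, z.1))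
        exact continuous_parametric_integral_of_continuous hF2 hK
      exact hc2.continuousOn.integrableOn_Icc
    · rw [integral_const_mul]
      exact mul_le_mul_of_nonneg_left (hZ r hr) (w0 r)
  refine h4.trans (le_of_eq ?_)
  rw [integral_mul_const]

/-- Integrals with a singular bound. -/
theorem int_sing {Q : V × ℝ → ℝ} (hQ : Continuous Q) {θ K ε : ℝ} (hθ0 : 0 < θ) (hθ1 : θ < 1)
    (hε : 0 < ε) (hK : ∀ r ∈ Ioc 0 ε, ∫ x in cube, Q (x, r) ^ 2 ≤ K * r ^ (-(2 * θ))) :
    ∫ x in cube, (∫ r in Icc 0 ε, Q (x, r)) ^ 2 ≤ (ε ^ (1 - θ) / (1 - θ)) ^ 2 * K := by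
  have hc : IsCompact (cube : Set V) := isCompact_Icc
  set J : ℝ := ε ^ (1 - θ) / (1 - θ) with hJ
  have h1θ : 0 < 1 - θ := by linarith
  have hJ0 : 0 ≤ J := by positivity
  have hint : IntegrableOn (fun r : ℝ => r ^ (-θ)) (Ioc 0 ε) := by
    have := intervalIntegral.intervalIntegrable_rpow' (a := 0) (b := ε) (r := -θ) (by linarith)
    rwa [intervalIntegrable_iff_integrableOn_Ioc_of_le hε.le] at this
  have hJe : ∫ r in Ioc 0 ε, r ^ (-θ) = J := by
    rw [← intervalIntegral.integral_of_le hε.le, integral_rpow (Or.inl (by linarith))]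
    have e : -θ + 1 = 1 - θ := by ring
    rw [e, Real.zero_rpow h1θ.ne', sub_zero]
  have cr : Continuous fun r : ℝ => r ^ θ := Real.continuous_rpow_const hθ0.le
  have hF : Continuous fun z : V × ℝ => z.2 ^ θ * Q z ^ 2 := (cr.comp continuous_snd).mul (hQ.pow 2)
  have cB' : ∀ x, Continuous fun r : ℝ => Q (x, r) := fun x =>
    hQ.comp (by fun_prop : Continuous fun r : ℝ => (x, r))
  have cI : Continuous fun x => ∫ r in Icc 0 ε, Q (x, r) := by
    have hQu : Continuous fun z : V × ℝ => Q (z.1, z.2) := hQ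
    exact continuous_parametric_integral_of_continuous hQu isCompact_Icc
  have h1 : ∫ x in cube, (∫ r in Icc 0 ε, Q (x, r)) ^ 2
      ≤ ∫ x in cube, J * ∫ r in Icc 0 ε, r ^ θ * Q (x, r) ^ 2 := by
    refine integral_mono (integrableOn_cube (cI.pow 2)) (integrableOn_cube ?_) fun x => ?_
    · refine continuous_const.mul ?_
      exact continuous_parametric_integral_of_continuous hF isCompact_Icc
    · simp only
      have i1 : Integrable (fun r : ℝ => (r ^ (-(θ / 2))) ^ 2) (volume.restrict (Ioc 0 ε)) := by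
        refine hint.congr_fun (fun r hr => ?_) measurableSet_Ioc
        simp only
        rw [← Real.rpow_natCast, ← Real.rpow_mul hr.1.le]
        congr 1
        push_cast
        ring
      have c3 : Continuous fun r : ℝ => r ^ (θ / 2) * Q (x, r) :=
        (Real.continuous_rpow_const (by positivity)).mul (cB' x)
      have i2 : Integrable (fun r : ℝ => (r ^ (θ / 2) * Q (x, r)) ^ 2)
          (volume.restrict (Ioc 0 ε)) :=
        ((c3.pow 2).continuousOn.integrableOn_Icc (μ := volume) (a := 0) (b := ε)).mono_set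
          Ioc_subset_Icc_self
      have e3 : ∀ r ∈ Ioc 0 ε, Q (x, r) = r ^ (-(θ / 2)) * (r ^ (θ / 2) * Q (x, r)) := by
        intro r hr
        rw [← mul_assoc, ← Real.rpow_add hr.1]
        simp
      have i4 : IntegrableOn (fun r : ℝ => Q (x, r)) (Ioc 0 ε) :=
        ((cB' x).continuousOn.integrableOn_Icc (μ := volume) (a := 0) (b := ε)).mono_set
          Ioc_subset_Icc_self
      have i3 : Integrable (fun r : ℝ => r ^ (-(θ / 2)) * (r ^ (θ / 2) * Q (x, r)))
          (volume.restrict (Ioc 0 ε)) := i4.congr_fun e3 measurableSet_Ioc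
      have k := integral_mul_sq_le (μ := volume.restrict (Ioc 0 ε))
        (a := fun r : ℝ => r ^ (-(θ / 2))) (b := fun r : ℝ => r ^ (θ / 2) * Q (x, r)) i1 i2 i3
      have e4 : ∫ r in Icc 0 ε, Q (x, r)
          = ∫ r in Ioc 0 ε, r ^ (-(θ / 2)) * (r ^ (θ / 2) * Q (x, r)) := by
        rw [integral_Icc_eq_integral_Ioc]
        exact setIntegral_congr_fun measurableSet_Ioc e3
      have e5 : ∫ r in Ioc 0 ε, (r ^ (-(θ / 2))) ^ 2 = J := by
        rw [← hJe]
        refine setIntegral_congr_fun measurableSet_Ioc fun r hr => ?_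
        show (r ^ (-(θ / 2))) ^ 2 = r ^ (-θ)
        rw [← Real.rpow_natCast, ← Real.rpow_mul hr.1.le]
        congr 1
        push_cast
        ring
      have e6 : ∫ r in Ioc 0 ε, (r ^ (θ / 2) * Q (x, r)) ^ 2
          = ∫ r in Icc 0 ε, r ^ θ * Q (x, r) ^ 2 := by
        rw [integral_Icc_eq_integral_Ioc]
        refine setIntegral_congr_fun measurableSet_Ioc fun r hr => ?_
        show (r ^ (θ / 2) * Q (x, r)) ^ 2 = r ^ θ * Q (x, r) ^ 2
        rw [mul_pow, ← Real.rpow_natCast (r ^ (θ / 2)), ← Real.rpow_mul hr.1.le]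
        congr 2
        push_cast
        ring
      rw [← e4, e5, e6] at k
      exact k
  refine h1.trans ?_
  rw [integral_const_mul, swap (μ := (volume : Measure V)) (ν := (volume : Measure ℝ)) hc
    isCompact_Icc hF, sq, mul_assoc]
  refine mul_le_mul_of_nonneg_left ?_ hJ0
  rw [integral_Icc_eq_integral_Ioc, ← hJe, ← integral_mul_const]
  refine setIntegral_mono_on ?_ (hint.mul_const K) measurableSet_Ioc fun r hr => ?_
  · have hc2 : Continuous fun r : ℝ => ∫ x in cube, r ^ θ * Q (x, r) ^ 2 := by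
      have hF2 : Continuous fun z : ℝ × V => z.1 ^ θ * Q (z.2, z.1) ^ 2 :=
        hF.comp (by fun_prop : Continuous fun z : ℝ × V => (z.2, z.1))
      exact continuous_parametric_integral_of_continuous hF2 hc
    exact (hc2.continuousOn.integrableOn_Icc (μ := volume) (a := 0) (b := ε)).mono_set
      Ioc_subset_Icc_self
  · simp only
    rw [integral_const_mul]
    have k1 := mul_le_mul_of_nonneg_left (hK r hr) (Real.rpow_nonneg hr.1.le θ)
    refine k1.trans (le_of_eq ?_)
    have e : r ^ θ * r ^ (-(2 * θ)) = r ^ (-θ) := by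
      rw [← Real.rpow_add hr.1]
      congr 1
      ring
    calc r ^ θ * (K * r ^ (-(2 * θ))) = (r ^ θ * r ^ (-(2 * θ))) * K := by ring
      _ = _ := by rw [e]

/-- The bound on slices. -/
theorem press_slice_G : ∃ C, 0 ≤ C ∧ ∀ (G : V → ℝ), CP G → (∀ x, 0 ≤ G x) →
    ∀ (v : Fin 3 → V → ℝ) (p : V → ℝ), (∀ i, SP (v i)) →
    (∀ x, ∑ i, pd i (v i) x = 0) → SP p → (∀ x, -lap p x = ∑ i, pd i (conv v i) x) →
    (∫ x in cube, p x = 0) → ∀ ε ∈ Ioc (0 : ℝ) 1, ∀ x,
    Hz (fun y => G y * |p y|) x ≤ C * (esq v * Hz G x + (∫ r in Icc 0 ε, QG G (hh v) r x)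
      + ∫ r in Icc ε 1, (max r ε)⁻¹ * QG G (vsq v) r x) := by
  obtain ⟨C, hC0, hC⟩ := press_pt
  refine ⟨C, hC0, ?_⟩
  intro G cG G0 v p hv hdiv hp hl h0 ε hε x
  have hmax : ∀ r : ℝ, 0 < max r ε := fun r => lt_of_lt_of_le hε.1 (le_max_right _ _)
  have cinv : Continuous fun r : ℝ => (max r ε)⁻¹ :=
    (continuous_id.max continuous_const).inv₀ fun r => (hmax r).ne'
  have c1 : CP (IR (fun _ => 1) (hh v) 0 ε) := IR_cp continuous_const (hh_cp hv) 0 ε
  have c2 : CP (IR (fun r => (max r ε)⁻¹) (vsq v) ε 1) := IR_cp cinv (cp_of (vsq_sp hv)) ε 1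
  have h1 : Hz (fun y => G y * |p y|) x ≤ Hz (fun y => C * ((esq v * G y
      + G y * IR (fun _ => 1) (hh v) 0 ε y) + G y * IR (fun r => (max r ε)⁻¹) (vsq v) ε 1 y)) x := by
    apply Hz_mono (cG.mul (cp_of hp).abs)
      ((((cG.cmul _).add (cG.mul c1)).add (cG.mul c2)).cmul C)
    intro y
    have h2 := mul_le_mul_of_nonneg_left (hC v p hv hdiv hp hl h0 ε hε y) (G0 y)
    refine h2.trans (le_of_eq ?_)
    unfold IR
    simp only [one_mul]
    ring
  rw [Hz_cmul, Hz_add ((cG.cmul _).add (cG.mul c1)) (cG.mul c2), Hz_add (cG.cmul _) (cG.mul c1),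
    Hz_cmul] at h1
  have e1 : Hz (fun y => G y * IR (fun _ => 1) (hh v) 0 ε y) x
      = ∫ r in Icc 0 ε, QG G (hh v) r x := by
    have hF : Continuous fun q : V × ℝ => G q.1 * BA (hh v) q.2 q.1 :=
      (cG.cont.comp continuous_fst).mul (BA_cont (hh_cp hv).cont)
    have k := Hz_int_r hF 0 ε x
    simp only at k
    unfold QG
    rw [← k]
    congr 1
    funext y
    unfold IR
    simp only [one_mul]
    rw [integral_const_mul]
  have e2 : Hz (fun y => G y * IR (fun r => (max r ε)⁻¹) (vsq v) ε 1 y) x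
      = ∫ r in Icc ε 1, (max r ε)⁻¹ * QG G (vsq v) r x := by
    have hF : Continuous fun q : V × ℝ => (max q.2 ε)⁻¹ * (G q.1 * BA (vsq v) q.2 q.1) :=
      (cinv.comp continuous_snd).mul
        ((cG.cont.comp continuous_fst).mul (BA_cont (vsq_cont hv)))
    have k := Hz_int_r hF ε 1 x
    simp only at k
    unfold QG
    have e3 : ∀ r : ℝ, (max r ε)⁻¹ * Hz (fun z => G z * BA (vsq v) r z) x
        = Hz (fun z => (max r ε)⁻¹ * (G z * BA (vsq v) r z)) x := fun r => (Hz_cmul _ _ x).symm
    simp_rw [e3]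
    rw [← k]
    congr 1
    funext y
    unfold IR
    rw [← integral_const_mul]
    congr 1
    funext r
    ring
  rw [e1, e2] at h1
  exact h1

theorem Hz_G_le {r : ℝ} (hr : 2 < r) {G : V → ℝ} (cG : CP G) (iG : Ind 2 G)
    (G0 : ∀ x, 0 ≤ G x) {N : ℝ} (hN : 1 ≤ N) (hGN : (∫ x in cube, G x ^ r) ≤ N ^ r) (x : V) :
    Hz G x ≤ 2 * N := by
  have hN0 : 0 < N := by linarith
  have hr0 : 0 < r := by linarith
  rw [Hz_ind2 cG iG]
  have cGr : CP (fun z => G z ^ r) :=
    ⟨cG.cont.rpow_const fun z => Or.inr hr0.le, fun i z => by simp only [cG.per i z]⟩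
  have h1 : ∫ x in cube, G x ≤ ∫ x in cube, (N + N ^ (1 - r) * G x ^ r) := by
    refine integral_mono cG.int ((CP.const N).add (cGr.cmul _)).int fun z => ?_
    have Gr0 : 0 ≤ G z ^ r := Real.rpow_nonneg (G0 z) _
    rcases le_or_gt (G z) N with h | h
    · have : 0 ≤ N ^ (1 - r) * G z ^ r := by positivity
      simp only
      linarith
    · have hG : 0 < G z := hN0.trans h
      have k2 : G z = G z ^ (1 - r) * G z ^ r := by
        rw [← Real.rpow_add hG]
        simp
      have k3 : G z ^ (1 - r) ≤ N ^ (1 - r) := Real.rpow_le_rpow_of_nonpos hN0 h.le (by linarith)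
      have k4 := mul_le_mul_of_nonneg_right k3 Gr0
      simp only
      linarith
  have hfin := cube_finite
  have c1 : ∫ x in cube, N = N := by
    rw [setIntegral_const, Measure.real, volume_cube]
    simp
  rw [integral_add (integrable_const N) (cGr.cmul _).int, integral_const_mul, c1] at h1
  have h2 : N ^ (1 - r) * (∫ x in cube, G x ^ r) ≤ N ^ (1 - r) * N ^ r :=
    mul_le_mul_of_nonneg_left hGN (by positivity)
  have h3 : N ^ (1 - r) * N ^ r = N := by
    rw [← Real.rpow_add hN0]
    simp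
  linarith

end Pool.Agent.H4LA
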