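import Pool.Agent.H459R3.NS.Defs

/-!
The pressure multiplied by a function of the horizontal coordinates: the weighted integral.
-/

set_option autoImplicit false
set_option linter.unusedVariables false

open MeasureTheory Set Function Filter Topology
open scoped ENNReal ContDiff

namespace Pool.Agent.H4LA

open H459R3.NS

theorem sq_le_k {r N δ : ℝ} (hr : 2 < r) (hN : 1 ≤ N) (hδ : 0 < δ) (hδ1 : δ ≤ 1) :
    N ^ 2 ≤ (N ^ r / δ) ^ (2 / (r - 2)) := by
  have hr2 : 0 < r - 2 := by linarith
  have hN0 : 0 < N := by linarith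
  have h1 : N ^ r ≤ N ^ r / δ := by
    rw [le_div_iff₀ hδ]
    have : 0 ≤ N ^ r := by positivity
    nlinarith
  have h2 : (N ^ r) ^ (2 / (r - 2)) ≤ (N ^ r / δ) ^ (2 / (r - 2)) :=
    Real.rpow_le_rpow (by positivity) h1 (by positivity)
  refine le_trans ?_ h2
  rw [← Real.rpow_mul hN0.le, ← Real.rpow_natCast]
  apply Real.rpow_le_rpow_of_exponent_le hN
  rw [mul_div_assoc', le_div_iff₀ hr2]
  push_cast
  nlinarith

end Pool.Agent.H4LA
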