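import Pool.Agent.H4LA.FarK
import Pool.Agent.H4LA.Nea
import Pool.Agent.H4LA.Prs

/-!
The pressure multiplied by a function: the weighted integral.
-/

set_option autoImplicit false
set_option linter.unusedVariables false

open MeasureTheory Set Function Filter Topology
open scoped ENNReal ContDiff

namespace Pool.Agent.H4LA

open H459R3.NS

theorem near_K {a r : ℝ} (ha : 2 < a) (hr : 2 < r) {G : V → ℝ} (cG : CP G) (G0 : ∀ x, 0 ≤ G x) {M : ℝ}
    (hM1 : 1 ≤ M) (hM : ∫ x in cube, NR r G x ^ (a / r) ≤ M ^ a)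
    {v : Fin 3 → V → ℝ} (hv : ∀ i, SP (v i)) {Us : ℝ} (hU : ∀ x, Hz (vsq v) x ≤ Us) {ρ : ℝ}
    (hρ : ρ ∈ Ioc (0 : ℝ) 1) :
    ∫ x in cube, QG G (hh v) ρ x ^ 2
      ≤ 1536 * M ^ 2 * (Us * ysq v) * ρ ^ (-(2 * (2 / r + 1 / a))) := by
  have ha0 : 0 < a := by linarith
  have hr0 : 0 < r := by linarith
  have hρ0 := hρ.1
  have ch : CP (hh v) := hh_cp hv
  have cH : CP (Hz (hh v)) := ch.hz
  have H0 : ∀ x, 0 ≤ Hz (hh v) x := Hz_nonneg hh_nonneg
  have cD : CP (Hz (ga v)) := (cp_of (ga_sp hv)).hz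
  have D0 : ∀ x, 0 ≤ Hz (ga v) x := Hz_nonneg (ga_nonneg (v := v))
  have hUs0 : 0 ≤ Us := (Hz_nonneg (vsq_nonneg v) 0).trans (hU 0)
  set Φ : V → V → ℝ := fun x => Hz (fun z => fz G x z * AH ρ (hh v) z) with hΦ
  have cΦ : ∀ x, CP (Φ x) := fun x => ((fz_cp cG x).mul (AH_cp ch ρ)).hz
  have Φ0 : ∀ x z, 0 ≤ Φ x z := fun x => Hz_nonneg fun z =>
    mul_nonneg (fz_nonneg G0 x z) (AH_nonneg hh_nonneg ρ z)
  have hQ : ∀ x, QG G (hh v) ρ x = BB 2 ρ (Φ x) x := fun x => QG_fz cG ch hh_nonneg ρ x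
  set κ : V → ℝ := fun x => 8 * Nx r G x * ρ ^ (-(2 / r)) with hκ
  have N1 : ∀ x, 1 ≤ Nx r G x := Nx_one hr0 G0
  have hκ0 : ∀ x, 0 ≤ κ x := fun x => by
    have := N1 x
    positivity
  have hΦ2 : ∀ x z, Φ x z ≤ κ x * Hz (hh v) z := fun x z =>
    smooth_le (by linarith) (fz_cp cG x) (fz_ind G x) (fz_nonneg G0 x) (by linarith [N1 x])
      (int_fz hr0 cG G0 x) ch hh_nonneg hρ z
  have cN : CP fun x => NR r G x ^ (2 / r) := cprp (NR_cp hr0.le cG) (by positivity)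
  have pt : ∀ x, QG G (hh v) ρ x ^ 2
      ≤ (384 * Us * ρ ^ (-(4 / r))) * (NR r G x ^ (2 / r) * BB 2 ρ (Hz (ga v)) x) := by
    intro x
    have k1 : QG G (hh v) ρ x ≤ κ x * BB 2 ρ (Hz (hh v)) x := by
      rw [hQ, ← BB_cmul]
      exact BB_mono (cΦ x).cont (cH.cmul _).cont (hΦ2 x) 2 ρ x
    have k2 := pow_le_pow_left₀ (QG_nonneg G0 hh_nonneg ρ x) k1 2
    have k3 := BB_sq cH.cont 2 ρ x
    have k4 : BB 2 ρ (fun y => Hz (hh v) y ^ 2) x ≤ BB 2 ρ (fun y => (3 * Us) * Hz (ga v) y) x := by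
      refine BB_mono (cH.pow 2).cont (cD.cmul _).cont (fun y => ?_) 2 ρ x
      have l2 := near_slice hv y
      have l3 := mul_le_mul_of_nonneg_right (hU y) (D0 y)
      linarith
    rw [BB_cmul] at k4
    have k5 : κ x ^ 2 = 64 * (NR r G x ^ (2 / r) * ρ ^ (-(4 / r))) := by
      have e1 : (ρ ^ (-(2 / r))) ^ 2 = ρ ^ (-(4 / r)) := by
        rw [← Real.rpow_natCast, ← Real.rpow_mul hρ0.le]
        congr 1
        push_cast
        ring
      rw [hκ]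
      simp only
      rw [mul_pow, mul_pow, e1, Nx_sq hr0 G0]
      ring
    have k6 : κ x ^ 2 * BB 2 ρ (Hz (hh v)) x ^ 2
        ≤ κ x ^ 2 * (2 * (3 * Us * BB 2 ρ (Hz (ga v)) x)) := by
      refine mul_le_mul_of_nonneg_left ?_ (sq_nonneg _)
      linarith
    rw [mul_pow] at k2
    refine (k2.trans k6).trans (le_of_eq ?_)
    rw [k5]
    ring
  have cQ : CP (QG G (hh v) ρ) := QG_cp cG ch ρ
  have h1 : ∫ x in cube, QG G (hh v) ρ x ^ 2
      ≤ ∫ x in cube, (384 * Us * ρ ^ (-(4 / r))) * (NR r G x ^ (2 / r) * BB 2 ρ (Hz (ga v)) x) :=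
    integral_mono (cQ.pow 2).int ((cN.mul (BB_cp cD 2 ρ)).cmul _).int pt
  rw [integral_const_mul] at h1
  have h2 := interp_near ha hr cG G0 hM1 hM cD (i01_hz _) D0 hρ
  rw [int_Hz (cp_of (ga_sp hv)), int_ga hv] at h2
  have h3 := mul_le_mul_of_nonneg_left h2 (by positivity : 0 ≤ 384 * Us * ρ ^ (-(4 / r)))
  refine (h1.trans h3).trans (le_of_eq ?_)
  have e1 : ρ ^ (-(4 / r)) * ρ ^ (-(2 / a)) = ρ ^ (-(2 * (2 / r + 1 / a))) := by
    rw [← Real.rpow_add hρ0]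
    congr 1
    ring
  rw [← e1]
  ring

theorem Hz_le_Nx {r : ℝ} (hr : 2 < r) {G : V → ℝ} (cG : CP G) (G0 : ∀ x, 0 ≤ G x) (x : V) :
    Hz G x ≤ 2 * Nx r G x := by
  have h := Hz_G_le hr (fz_cp cG x) (fz_ind G x) (fz_nonneg G0 x) (Nx_one (by linarith) G0 x)
    (int_fz (by linarith) cG G0 x) x
  have e : Hz (fz G x) x = Hz G x := Hz_congr fun z hz => fz_eq hz
  rwa [e] at h

theorem Nx_le_kk {r δ : ℝ} (hr : 2 < r) (hδ : 0 < δ) (hδ1 : δ ≤ 1) {G : V → ℝ}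
    (G0 : ∀ x, 0 ≤ G x) (x : V) : Nx r G x ^ 2 ≤ kk r δ G x := by
  have h := sq_le_k hr (Nx_one (by linarith : 0 < r) G0 x) hδ hδ1
  rwa [Nx_pow (by linarith) G0] at h

/-- The weighted integral of the pressure, from the bounds for the parts. -/
theorem press_gen {a r : ℝ} (ha : 2 < a) (hr : 2 < r) (hs : 2 / r + 1 / a < 1) {m : ℕ}
    (hm : 2 ≤ m) {E : ℝ} (hE0 : 0 ≤ E) : ∃ C, 0 ≤ C ∧
    ∀ G : V → ℝ, CP G → (∀ x, 0 ≤ G x) → ∀ M : ℝ, 1 ≤ M →
    (∫ x in cube, NR r G x ^ (a / r)) ≤ M ^ a →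
    ∀ (v : Fin 3 → V → ℝ) (p : V → ℝ), (∀ i, SP (v i)) →
    (∀ x, ∑ i, pd i (v i) x = 0) → SP p → (∀ x, -lap p x = ∑ i, pd i (conv v i) x) →
    (∫ x in cube, p x = 0) → esq v ≤ E → ∀ W : ℝ, M ^ 2 ≤ W →
    (∀ ρ ∈ Ioc (0 : ℝ) 1,
      ∫ x in cube, Hz (vsq (ww v)) x ^ (2 * m - 2) * QG G (vsq v) ρ x ^ 2 ≤ W) →
    (∫ x in cube, NR r G x ^ (2 / r) * Hz (vsq (ww v)) x ^ (2 * m - 2) ≤ W) →
    ∫ x in cube, Hz (vsq (ww v)) x ^ (2 * m - 2) * Hz (fun y => G y * |p y|) x ^ 2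
      ≤ C * ((1 + Real.log (1 + ysq v) ^ 2) * W) := by
  obtain ⟨C, hC0, hC⟩ := press_slice_G
  have ha0 : 0 < a := by linarith
  have hr0 : 0 < r := by linarith
  set θ : ℝ := 2 / r + 1 / a with hθ
  have hθ0 : 0 < θ := by positivity
  have hθ1 : θ < 1 := hs
  have h1θ : 0 < 1 - θ := by linarith
  obtain ⟨A0, hA0⟩ := exists_nat_ge (2 * (m : ℝ) / (1 - θ))
  rw [div_le_iff₀ h1θ] at hA0
  set κ : ℝ := 10 * E + 6 with hκ
  have hκ0 : 0 ≤ κ := by positivity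
  set c2 : ℝ := 1536 * κ ^ (2 * m - 1) / (1 - θ) ^ 2 with hc2
  have hc20 : 0 ≤ c2 := by positivity
  refine ⟨3 * C ^ 2 * (4 * E ^ 2 + c2 + A0 ^ 2), by positivity, ?_⟩
  intro G cG G0 M hM1 hM v p hv hdiv hp hl h0 hE W hMW hW1' hW2'
  have hw := ww_sp hv
  set e : V → ℝ := Hz (vsq (ww v)) with he
  have ce : CP e := (cp_of (vsq_sp hw)).hz
  have e0 : ∀ x, 0 ≤ e x := Hz_nonneg (vsq_nonneg _)
  set y : ℝ := ysq v with hy
  have hy0 : 0 ≤ y := ysq_nonneg v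
  set Y : ℝ := ∫ x in cube, e x ^ (2 * m) with hY
  have hY0 : 0 ≤ Y := integral_nonneg fun x => pow_nonneg (e0 x) _
  set L : ℝ := 1 + y with hL
  have hL1 : 1 ≤ L := by linarith
  have hL0 : 0 < L := by linarith
  have hW0 : 0 ≤ W := le_trans (sq_nonneg M) hMW
  set k : V → ℝ := fun x => NR r G x ^ (2 / r) with hk
  have ck : CP k := cprp (NR_cp hr0.le cG) (by positivity)
  have k0 : ∀ x, 0 ≤ k x := fun x => Real.rpow_nonneg (by linarith [NR_one (r := r) G0 x]) _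
  -- sup bounds
  have hU : ∀ x, Hz (vsq v) x ≤ κ * L := by
    intro x
    have k1 := Hz_vsq_le hv x
    have k : 0 ≤ E * y := by positivity
    rw [hκ, hL]
    linarith only [k1, k, hE, hE0, hy0]
  have hS : ∀ x, e x ≤ κ * L := by
    intro x
    have k1 := Hz_vsq_le hv x
    have k2 := Hz_ww_le hv x
    have k : 0 ≤ E * y := by positivity
    rw [hκ, hL]
    linarith only [k1, k2, k, hE, hE0, hy0]
  -- the radius
  set ε : ℝ := (L ^ A0)⁻¹ with hε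
  have hLM : 1 ≤ L ^ A0 := one_le_pow₀ hL1
  have hε1 : ε ∈ Ioc (0 : ℝ) 1 := ⟨by positivity, inv_le_one_of_one_le₀ hLM⟩
  have hεp : ε ^ (1 - θ) ≤ (L ^ (2 * m))⁻¹ := by
    have e1 : ε = L ^ (-(A0 : ℝ)) := by
      rw [hε, Real.rpow_neg hL0.le, Real.rpow_natCast]
    have e2 : (L ^ (2 * m))⁻¹ = L ^ (-((2 * m : ℕ) : ℝ)) := by
      rw [Real.rpow_neg hL0.le, Real.rpow_natCast]
    rw [e1, e2, ← Real.rpow_mul hL0.le]
    apply Real.rpow_le_rpow_of_exponent_le hL1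
    push_cast
    linarith
  have hmax : ∀ r : ℝ, 0 < max r ε := fun r => lt_of_lt_of_le hε1.1 (le_max_right _ _)
  have cinv : Continuous fun r : ℝ => (max r ε)⁻¹ :=
    (continuous_id.max continuous_const).inv₀ fun r => (hmax r).ne'
  -- the parts
  have cQh : Continuous fun q : V × ℝ => QG G (hh v) q.2 q.1 := QG_cont2 cG (hh_cp hv)
  have cQv : Continuous fun q : V × ℝ => QG G (vsq v) q.2 q.1 :=
    QG_cont2 cG (cp_of (vsq_sp hv))
  set A : V → ℝ := fun x => ∫ r in Icc 0 ε, QG G (hh v) r x with hA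
  set B : V → ℝ := fun x => ∫ r in Icc ε 1, (max r ε)⁻¹ * QG G (vsq v) r x with hB
  have cA : Continuous A := continuous_parametric_integral_of_continuous cQh isCompact_Icc
  have cB : Continuous B := by
    have : Continuous fun q : V × ℝ => (max q.2 ε)⁻¹ * QG G (vsq v) q.2 q.1 :=
      (cinv.comp continuous_snd).mul cQv
    exact continuous_parametric_integral_of_continuous this isCompact_Icc
  have A0' : ∀ x, 0 ≤ A x := fun x => integral_nonneg fun r => QG_nonneg G0 hh_nonneg r x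
  have B0 : ∀ x, 0 ≤ B x := fun x => integral_nonneg fun r =>
    mul_nonneg (inv_nonneg.2 (hmax r).le) (QG_nonneg G0 (vsq_nonneg v) r x)
  have cP : CP (fun y => G y * |p y|) := cG.mul (cp_of hp).abs
  have ck1 : CP fun x => k x * e x ^ (2 * m - 2) := ck.mul (ce.pow _)
  have h1 : ∫ x in cube, e x ^ (2 * m - 2) * Hz (fun y => G y * |p y|) x ^ 2
      ≤ ∫ x in cube, ((3 * C ^ 2 * (4 * E ^ 2)) * (k x * e x ^ (2 * m - 2))
        + (3 * C ^ 2) * (e x ^ (2 * m - 2) * A x ^ 2)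
        + (3 * C ^ 2) * (e x ^ (2 * m - 2) * B x ^ 2)) := by
    refine integral_mono ((ce.pow _).mul (cP.hz.pow 2)).int (integrableOn_cube ?_) fun x => ?_
    · exact ((continuous_const.mul ck1.cont).add
        (continuous_const.mul ((ce.cont.pow _).mul (cA.pow 2)))).add
        (continuous_const.mul ((ce.cont.pow _).mul (cB.pow 2)))
    · have h2 := hC G cG G0 v p hv hdiv hp hl h0 ε hε1 x
      have hG := Hz_le_Nx hr cG G0 x
      set N : ℝ := Nx r G x with hN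
      have hN1 : 1 ≤ N := Nx_one hr0 G0 x
      have l1 : esq v * Hz G x ≤ 2 * E * N := by
        have := mul_le_mul hE hG (Hz_nonneg G0 x) hE0
        linarith
      have h2' : Hz (fun y => G y * |p y|) x ≤ C * (2 * E * N + A x + B x) := by
        refine h2.trans (mul_le_mul_of_nonneg_left ?_ hC0)
        linarith
      have h3 := pow_le_pow_left₀ (Hz_nonneg (fun y => mul_nonneg (G0 y) (abs_nonneg (p y))) x) h2' 2
      have h4 : (C * (2 * E * N + A x + B x)) ^ 2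
          ≤ 3 * C ^ 2 * (4 * E ^ 2 * N ^ 2) + 3 * C ^ 2 * A x ^ 2 + 3 * C ^ 2 * B x ^ 2 := by
        have : (2 * E * N + A x + B x) ^ 2 ≤ 3 * (4 * E ^ 2 * N ^ 2 + A x ^ 2 + B x ^ 2) := by
          linarith only [sq_nonneg (2 * E * N - A x), sq_nonneg (2 * E * N - B x),
            sq_nonneg (A x - B x)]
        have := mul_le_mul_of_nonneg_left this (sq_nonneg C)
        linarith only [this]
      have h5 := mul_le_mul_of_nonneg_left (h3.trans h4) (pow_nonneg (e0 x) (2 * m - 2))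
      have h6 : e x ^ (2 * m - 2) * N ^ 2 ≤ k x * e x ^ (2 * m - 2) := by
        have q1 : N ^ 2 = k x := Nx_sq hr0 G0 x
        rw [q1, mul_comm]
      have h7 := mul_le_mul_of_nonneg_left h6 (by positivity : 0 ≤ 3 * C ^ 2 * (4 * E ^ 2))
      simp only
      linarith
  have i1 : IntegrableOn (fun x => (3 * C ^ 2 * (4 * E ^ 2)) * (k x * e x ^ (2 * m - 2))) cube :=
    (ck1.cmul _).int
  have i2 : IntegrableOn (fun x => (3 * C ^ 2) * (e x ^ (2 * m - 2) * A x ^ 2)) cube :=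
    integrableOn_cube (continuous_const.mul ((ce.cont.pow _).mul (cA.pow 2)))
  have i3 : IntegrableOn (fun x => (3 * C ^ 2) * (e x ^ (2 * m - 2) * B x ^ 2)) cube :=
    integrableOn_cube (continuous_const.mul ((ce.cont.pow _).mul (cB.pow 2)))
  have i12 : IntegrableOn (fun x => (3 * C ^ 2 * (4 * E ^ 2)) * (k x * e x ^ (2 * m - 2))
      + (3 * C ^ 2) * (e x ^ (2 * m - 2) * A x ^ 2)) cube := i1.add i2
  rw [integral_add i12 i3, integral_add i1 i2, integral_const_mul, integral_const_mul,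
    integral_const_mul] at h1
  have t2 : ∫ x in cube, e x ^ (2 * m - 2) * A x ^ 2 ≤ c2 * M ^ 2 := by
    have k1 : ∫ x in cube, e x ^ (2 * m - 2) * A x ^ 2
        ≤ ∫ x in cube, (κ * L) ^ (2 * m - 2) * A x ^ 2 := by
      refine integral_mono (integrableOn_cube ((ce.cont.pow _).mul (cA.pow 2)))
        (integrableOn_cube (continuous_const.mul (cA.pow 2))) fun x => ?_
      exact mul_le_mul_of_nonneg_right (pow_le_pow_left₀ (e0 x) (hS x) _) (sq_nonneg _)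
    rw [integral_const_mul] at k1
    have k2 := int_sing (Q := fun q => QG G (hh v) q.2 q.1) cQh (θ := θ)
      (K := 1536 * M ^ 2 * (κ * L * y)) hθ0 hθ1 hε1.1 (by
        intro ρ hρ
        exact near_K ha hr cG G0 hM1 hM hv hU ⟨hρ.1, hρ.2.trans hε1.2⟩)
    have k3 : (ε ^ (1 - θ) / (1 - θ)) ^ 2 ≤ (L ^ (2 * m))⁻¹ / (1 - θ) ^ 2 := by
      rw [div_pow]
      refine div_le_div_of_nonneg_right ?_ (by positivity)
      have l1 : 0 ≤ ε ^ (1 - θ) := Real.rpow_nonneg hε1.1.le _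
      have l2 : (L ^ (2 * m))⁻¹ ≤ 1 := inv_le_one_of_one_le₀ (one_le_pow₀ hL1)
      have l3 : 0 ≤ (L ^ (2 * m))⁻¹ := by positivity
      have l4 := mul_le_mul hεp (hεp.trans l2) l1 l3
      rw [sq]
      linarith only [l4]
    have k4 : (κ * L) ^ (2 * m - 2) * (κ * L * y) ≤ κ ^ (2 * m - 1) * L ^ (2 * m) := by
      have l2 : (κ * L) ^ (2 * m - 2) * (κ * L * y) ≤ (κ * L) ^ (2 * m - 2) * (κ * L * L) := by
        refine mul_le_mul_of_nonneg_left ?_ (by positivity)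
        refine mul_le_mul_of_nonneg_left ?_ (by positivity)
        linarith
      have l3 : (κ * L) ^ (2 * m - 2) * (κ * L * L) = κ ^ (2 * m - 1) * L ^ (2 * m) := by
        have e1 : κ ^ (2 * m - 1) = κ ^ (2 * m - 2) * κ := by
          rw [← pow_succ]
          congr 1
          omega
        have e2 : L ^ (2 * m) = L ^ (2 * m - 2) * L * L := by
          rw [← pow_succ, ← pow_succ]
          congr 1
          omega
        rw [mul_pow, e1, e2]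
        ring
      linarith
    have k5 : ∫ x in cube, A x ^ 2 ≤ (L ^ (2 * m))⁻¹ / (1 - θ) ^ 2
        * (1536 * M ^ 2 * (κ * L * y)) :=
      k2.trans (mul_le_mul_of_nonneg_right k3 (by positivity))
    have k6 := mul_le_mul_of_nonneg_left k5 (by positivity : 0 ≤ (κ * L) ^ (2 * m - 2))
    have k7 := mul_le_mul_of_nonneg_left k4
      (by positivity : 0 ≤ (L ^ (2 * m))⁻¹ / (1 - θ) ^ 2 * (1536 * M ^ 2))
    have k8 : (L ^ (2 * m))⁻¹ / (1 - θ) ^ 2 * (1536 * M ^ 2) * (κ ^ (2 * m - 1) * L ^ (2 * m))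
        = c2 * M ^ 2 := by
      rw [hc2]
      field_simp
    linarith
  have t3 : ∫ x in cube, e x ^ (2 * m - 2) * B x ^ 2 ≤ (A0 ^ 2 * Real.log L ^ 2) * W := by
    have k1 := int_par_sq (Q := fun q => QG G (vsq v) q.2 q.1) cQv cinv
      (fun r => (inv_nonneg.2 (hmax r).le)) (g := fun x => e x ^ (2 * m - 2)) (ce.cont.pow _)
      (fun x => pow_nonneg (e0 x) _) (α := ε) (β := 1) (Z := W) (by
        intro ρ hρ
        exact hW1' ρ ⟨hε1.1.trans_le hρ.1, hρ.2⟩)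
    rw [int_inv hε1] at k1
    have k3 : Real.log (1 / ε) = A0 * Real.log L := by
      rw [hε, one_div, inv_inv, Real.log_pow]
    rw [k3, mul_pow] at k1
    exact k1
  set lg : ℝ := Real.log L ^ 2 with hlg
  have hlg0 : 0 ≤ lg := sq_nonneg _
  have hW1 : W ≤ (1 + lg) * W := by
    have : 0 ≤ lg * W := mul_nonneg hlg0 hW0
    linarith
  have f1 : 3 * C ^ 2 * (4 * E ^ 2) * (∫ x in cube, k x * e x ^ (2 * m - 2))
      ≤ 3 * C ^ 2 * (4 * E ^ 2) * ((1 + lg) * W) :=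
    mul_le_mul_of_nonneg_left (hW2'.trans hW1) (by positivity)
  have f2 : 3 * C ^ 2 * (∫ x in cube, e x ^ (2 * m - 2) * A x ^ 2)
      ≤ 3 * C ^ 2 * c2 * ((1 + lg) * W) := by
    have l1 := mul_le_mul_of_nonneg_left t2 (by positivity : 0 ≤ 3 * C ^ 2)
    have l2 := mul_le_mul_of_nonneg_left (hMW.trans hW1)
      (by positivity : 0 ≤ 3 * C ^ 2 * c2)
    linarith
  have f3 : 3 * C ^ 2 * (∫ x in cube, e x ^ (2 * m - 2) * B x ^ 2)
      ≤ 3 * C ^ 2 * (A0 ^ 2) * ((1 + lg) * W) := by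
    have l1 := mul_le_mul_of_nonneg_left t3 (by positivity : 0 ≤ 3 * C ^ 2)
    have l2 : lg * W ≤ (1 + lg) * W := by linarith
    have l3 := mul_le_mul_of_nonneg_left l2 (by positivity : 0 ≤ 3 * C ^ 2 * A0 ^ 2)
    linarith
  have e1 : 3 * C ^ 2 * (4 * E ^ 2 + c2 + A0 ^ 2) * ((1 + lg) * W)
      = 3 * C ^ 2 * (4 * E ^ 2) * ((1 + lg) * W) + 3 * C ^ 2 * c2 * ((1 + lg) * W)
        + 3 * C ^ 2 * (A0 ^ 2) * ((1 + lg) * W) := by ring
  rw [e1]
  linarith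

theorem press_K {a r : ℝ} (h : Ex a r) {m : ℕ} (hm : 2 ≤ m) {E : ℝ} (hE0 : 0 ≤ E) : ∃ C, 0 ≤ C ∧
    ∀ G : V → ℝ, CP G → (∀ x, 0 ≤ G x) → ∀ M : ℝ, 1 ≤ M →
    (∫ x in cube, NR r G x ^ (a / r)) ≤ M ^ a → ∀ δ : ℝ, 0 < δ → δ ≤ 1 →
    ∀ (v : Fin 3 → V → ℝ) (p : V → ℝ), (∀ i, SP (v i)) →
    (∀ x, ∑ i, pd i (v i) x = 0) → SP p → (∀ x, -lap p x = ∑ i, pd i (conv v i) x) →
    (∫ x in cube, p x = 0) → esq v ≤ E → ∀ Z : ℝ,
    (∀ ρ ∈ Ioc (0 : ℝ) 1, ∫ x in cube, kk r δ G x * (Hz (vsq (ww v)) x ^ (2 * m)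
      + BB 2 ρ (fun z => Hz (vsq v) z ^ (2 * m)) x) ≤ Z) →
    (∫ x in cube, kk r δ G x * (1 + Hz (vsq (ww v)) x ^ (2 * m)) ≤ Z) →
    ∫ x in cube, Hz (vsq (ww v)) x ^ (2 * m - 2) * Hz (fun y => G y * |p y|) x ^ 2
      ≤ C * ((1 + Real.log (1 + ysq v) ^ 2) * (M ^ 2 + Z
        + δ * ((∫ x in cube, Hz (vsq (ww v)) x ^ (2 * m - 1) * Hz (ga (ww v)) x)
          + (∫ x in cube, Hz (vsq (ww v)) x ^ (2 * m - 2) * pd 2 (Hz (vsq (ww v))) x ^ 2)
          + ysq v * (1 + ∫ x in cube, Hz (vsq (ww v)) x ^ (2 * m))))) := by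
  have hr := h.hr
  have ha := h.ha
  have ha0 : 0 < a := by linarith
  have hr0 : 0 < r := by linarith
  have hθ1 : 2 / r + 1 / a < 1 := by
    have h1 := h.har
    have h2 : 0 < 1 / a := by positivity
    have h3 : 2 / a = 1 / a + 1 / a := by ring
    linarith
  obtain ⟨C, hC0, hC⟩ := press_gen ha hr hθ1 hm hE0
  obtain ⟨C2, hC20, hC2⟩ := far_K hr hm hE0
  refine ⟨C * (1 + C2), by positivity, ?_⟩
  intro G cG G0 M hM1 hM δ hδ hδ1 v p hv hdiv hp hl h0 hE Z hZ1 hZ2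
  have e0 : ∀ x, 0 ≤ Hz (vsq (ww v)) x := Hz_nonneg (vsq_nonneg _)
  have ce : CP (Hz (vsq (ww v))) := (cp_of (vsq_sp (ww_sp hv))).hz
  have hy0 : 0 ≤ ysq v := ysq_nonneg v
  have hY0 : 0 ≤ ∫ x in cube, Hz (vsq (ww v)) x ^ (2 * m) :=
    integral_nonneg fun x => pow_nonneg (e0 x) _
  have ck : CP (kk r δ G) := kk_cp hr cG
  have k1 : ∀ x, 1 ≤ kk r δ G x := kk_one hr hδ hδ1 G0
  have k0 : ∀ x, 0 ≤ kk r δ G x := fun x => by linarith [k1 x]
  have hZ0 : 0 ≤ Z := le_trans (integral_nonneg fun x =>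
    mul_nonneg (k0 x) (by have := pow_nonneg (e0 x) (2 * m); linarith)) hZ2
  set X : ℝ := (∫ x in cube, Hz (vsq (ww v)) x ^ (2 * m - 1) * Hz (ga (ww v)) x)
      + (∫ x in cube, Hz (vsq (ww v)) x ^ (2 * m - 2) * pd 2 (Hz (vsq (ww v))) x ^ 2)
      + ysq v * (1 + ∫ x in cube, Hz (vsq (ww v)) x ^ (2 * m)) with hX
  have hX0 : 0 ≤ X := by
    have a1 : 0 ≤ ∫ x in cube, Hz (vsq (ww v)) x ^ (2 * m - 1) * Hz (ga (ww v)) x :=
      integral_nonneg fun x => mul_nonneg (pow_nonneg (e0 x) _) (Hz_nonneg ga_nonneg x)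
    have a2 : 0 ≤ ∫ x in cube, Hz (vsq (ww v)) x ^ (2 * m - 2) * pd 2 (Hz (vsq (ww v))) x ^ 2 :=
      integral_nonneg fun x => mul_nonneg (pow_nonneg (e0 x) _) (sq_nonneg _)
    positivity
  have hδX : 0 ≤ δ * X := by positivity
  have hM2 : 0 ≤ M ^ 2 := sq_nonneg M
  have hC2W : 0 ≤ C2 * (M ^ 2 + Z + δ * X) := by positivity
  have h1 := hC G cG G0 M hM1 hM v p hv hdiv hp hl h0 hE ((1 + C2) * (M ^ 2 + Z + δ * X))
    (by linarith)
    (by
      intro ρ hρ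
      refine (hC2 G cG G0 δ hδ hδ1 v hv hE ρ hρ).trans ?_
      have q1 := mul_le_mul_of_nonneg_left (add_le_add (hZ1 ρ hρ) (le_refl (δ * X))) hC20
      have q2 : 0 ≤ C2 * M ^ 2 := by positivity
      linarith)
    (by
      have cN : CP fun x => NR r G x ^ (2 / r) := cprp (NR_cp hr0.le cG) (by positivity)
      have q1 : ∫ x in cube, NR r G x ^ (2 / r) * Hz (vsq (ww v)) x ^ (2 * m - 2)
          ≤ ∫ x in cube, kk r δ G x * (1 + Hz (vsq (ww v)) x ^ (2 * m)) := by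
        refine integral_mono (cN.mul (ce.pow _)).int
          (ck.mul ((CP.const 1).add (ce.pow _))).int fun x => ?_
        have l1 : NR r G x ^ (2 / r) ≤ kk r δ G x := by
          rw [← Nx_sq hr0 G0]
          exact Nx_le_kk hr hδ hδ1 G0 x
        have l2 : Hz (vsq (ww v)) x ^ (2 * m - 2) ≤ 1 + Hz (vsq (ww v)) x ^ (2 * m) := by
          rcases le_total (Hz (vsq (ww v)) x) 1 with h | h
          · have := pow_le_one₀ (e0 x) h (n := 2 * m - 2)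
            have := pow_nonneg (e0 x) (2 * m)
            linarith
          · have := pow_le_pow_right₀ h (by omega : 2 * m - 2 ≤ 2 * m)
            linarith
        exact mul_le_mul l1 l2 (pow_nonneg (e0 x) _) (k0 x)
      linarith)
  refine h1.trans (le_of_eq ?_)
  ring

end Pool.Agent.H4LA
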