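import Pool.Agent.H4LA.FarL2
import Pool.Agent.H4LA.PrsK

/-!
The bounds for the terms with the rest of the vertical component.
-/

set_option autoImplicit false
set_option linter.unusedVariables false

open MeasureTheory Set Function Filter Topology
open scoped ENNReal ContDiff

namespace Pool.Agent.H4LA

open H459R3.NS

/-- The integral of the weight with the norm on slices. -/
theorem int_Ng {a r : ℝ} (h : Ey a r) {m : ℕ} (hm : 2 ≤ m) {E : ℝ} (hE1 : 1 ≤ E) :
    ∃ C, 0 ≤ C ∧ ∀ G : V → ℝ, CP G → (∀ x, 0 ≤ G x) → ∀ M : ℝ, 1 ≤ M →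
    (∫ x in cube, NR r G x ^ (a / r)) ≤ M ^ a →
    ∀ v : Fin 3 → V → ℝ, (∀ i, SP (v i)) → esq v ≤ E →
    ∫ x in cube, NR r G x ^ (2 / r) * (Hz (vsq (ww v)) x + E) ^ (2 * m)
      ≤ C * (M ^ 2 * ((1 + Yv m v) ^ (1 - 1 / a) * Xv m v ^ (1 / a))) := by
  obtain ⟨c, hc1, hcw⟩ := wts hm hE1
  have hE0 : 0 ≤ E := by linarith
  have ha := h.ha
  have ha0 := h.a_pos
  have hr0 := h.r_pos
  have hc0 : 0 < c := by linarith
  set s2 : ℝ := 2 ^ (2 * m) * (1 + E ^ (2 * m)) with hs2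
  have hs21 : 1 ≤ s2 := by
    have h1 : (1 : ℝ) ≤ 2 ^ (2 * m) := one_le_pow₀ (by norm_num)
    have h2 : (1 : ℝ) ≤ 1 + E ^ (2 * m) := by
      have : 0 ≤ E ^ (2 * m) := by positivity
      linarith
    exact one_le_mul_of_one_le_of_one_le h1 h2
  refine ⟨c * s2, by positivity, ?_⟩
  intro G cG G0 M hM1 hM v hv hE
  obtain ⟨w1, w2, w3, w4, w5⟩ := hcw v hv hE
  have hw := ww_sp hv
  have ce : CP (Hz (vsq (ww v))) := (cp_of (vsq_sp hw)).hz
  have e0 : ∀ x, 0 ≤ Hz (vsq (ww v)) x := Hz_nonneg (vsq_nonneg _)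
  have hM0 : 0 ≤ M := by linarith
  have hY0 := Yv_nonneg m v
  have hBX := B1_le_Xv m v
  set B : ℝ := 1 + Yv m v with hB
  set X : ℝ := Xv m v with hX
  have hB1 : 1 ≤ B := by linarith
  have hB0 : 0 < B := by linarith
  have hX0 : 0 < X := by linarith
  set g : V → ℝ := fun x => (Hz (vsq (ww v)) x + E) ^ (2 * m) with hg
  have cg : CP g := (ce.add (CP.const E)).pow _
  have g0 : ∀ x, 0 ≤ g x := fun x => pow_nonneg (by linarith [e0 x]) _
  have N1 := fun x => NR_one (r := r) G0 x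
  have cNa : CP fun x => NR r G x ^ (a / r) := cprp (NR_cp hr0.le cG) (by positivity)
  have ck : CP fun x => NR r G x ^ (2 / r) := cprp (NR_cp hr0.le cG) (by positivity)
  have Ig : ∫ x in cube, g x ≤ s2 * B := by
    have k1 := int_pow_E hv (q := 2 * m) hE0
    refine k1.trans ?_
    have l1 : 0 ≤ E ^ (2 * m) * Yv m v := by positivity
    have l0 : ∫ x in cube, Hz (vsq (ww v)) x ^ (2 * m) = Yv m v := rfl
    have l2 : (∫ x in cube, Hz (vsq (ww v)) x ^ (2 * m)) + E ^ (2 * m)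
        ≤ (1 + E ^ (2 * m)) * B := by
      rw [l0, hB]
      linarith
    have l3 := mul_le_mul_of_nonneg_left l2 (by positivity : (0 : ℝ) ≤ 2 ^ (2 * m))
    rw [hs2]
    linarith
  have l2 : ∫ x in cube, NR r G x ^ (2 / r) * g x
      ≤ ∫ x in cube, (c * √(B * X)) ^ (2 / a) * ((NR r G x ^ (a / r)) ^ (2 / a) * g x ^ gm a) := by
    refine integral_mono (ck.mul cg).int (integrableOn_cube ?_) fun x => ?_
    · exact continuous_const.mul ((cNa.cont.rpow_const fun x => Or.inr (by positivity)).mul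
        (cg.cont.rpow_const fun x => Or.inr h.gm_pos.le))
    · have q1 : g x = g x ^ (2 / a) * g x ^ gm a := by
        rw [← Real.rpow_add_of_nonneg (g0 x) (by positivity) h.gm_pos.le]
        have : 2 / a + gm a = 1 := by
          unfold gm
          ring
        rw [this, Real.rpow_one]
      have q2 : g x ^ (2 / a) ≤ (c * √(B * X)) ^ (2 / a) :=
        Real.rpow_le_rpow (g0 x) (w3 x) (by positivity)
      have q3 : g x ≤ (c * √(B * X)) ^ (2 / a) * g x ^ gm a := by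
        have := mul_le_mul_of_nonneg_right q2 (Real.rpow_nonneg (g0 x) (gm a))
        rwa [← q1] at this
      have q4 := mul_le_mul_of_nonneg_left q3
        (Real.rpow_nonneg (by linarith [N1 x] : 0 ≤ NR r G x) (2 / r))
      have q5 : (NR r G x ^ (a / r)) ^ (2 / a) = NR r G x ^ (2 / r) := by
        rw [← Real.rpow_mul (by linarith [N1 x])]
        congr 1
        field_simp
      simp only
      rw [q5]
      linarith
  rw [integral_const_mul] at l2
  have l3 := holN ha (k := fun x => NR r G x ^ (a / r)) cNa.cont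
    (fun x => Real.rpow_nonneg (by linarith [N1 x]) _) cg.cont g0 hM0 hM Ig
  have l4 := mul_le_mul_of_nonneg_left l3 (by positivity : 0 ≤ (c * √(B * X)) ^ (2 / a))
  refine (l2.trans l4).trans ?_
  have e1 : (c * √(B * X)) ^ (2 / a) = c ^ (2 / a) * (B * X) ^ (1 / a) := by
    rw [Real.mul_rpow hc0.le (Real.sqrt_nonneg _), Real.sqrt_eq_rpow,
      ← Real.rpow_mul (by positivity)]
    congr 2
    ring
  have e2 : (s2 * B) ^ gm a = s2 ^ gm a * B ^ gm a := Real.mul_rpow (by linarith) hB0.le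
  have e4 : (B * X) ^ (1 / a) * B ^ gm a = B ^ (1 - 1 / a) * X ^ (1 / a) := by
    rw [Real.mul_rpow hB0.le hX0.le]
    have : B ^ (1 - 1 / a) = B ^ (1 / a) * B ^ gm a := by
      rw [← Real.rpow_add hB0]
      congr 1
      unfold gm
      ring
    rw [this]
    ring
  have e5 : c ^ (2 / a) ≤ c := by
    have : 2 / a ≤ 1 := by
      rw [div_le_one ha0]
      linarith
    have := Real.rpow_le_rpow_of_exponent_le hc1 this
    rwa [Real.rpow_one] at this
  have e6 : s2 ^ gm a ≤ s2 := by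
    have := Real.rpow_le_rpow_of_exponent_le hs21 h.gm_lt.le
    rwa [Real.rpow_one] at this
  have e7 : (c * √(B * X)) ^ (2 / a) * (M ^ 2 * (s2 * B) ^ gm a)
      = c ^ (2 / a) * s2 ^ gm a * (M ^ 2 * (B ^ (1 - 1 / a) * X ^ (1 / a))) := by
    rw [e1, e2, ← e4]
    ring
  rw [e7]
  refine mul_le_mul_of_nonneg_right ?_ (by positivity)
  exact mul_le_mul e5 e6 (by positivity) hc0.le

/-- The bound of the fourth power by the gradient. -/
theorem Hz_vsq_sq_le {v : Fin 3 → V → ℝ} (hv : ∀ i, SP (v i)) (x : V) :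
    Hz (fun y => vsq v y ^ 2) x ≤ 45 * (Hz (vsq v) x * (Hz (vsq v) x + Hz (ga v) x)) := by
  set U : ℝ := Hz (vsq v) x with hU
  set D : ℝ := Hz (ga v) x with hD
  have U0 : 0 ≤ U := Hz_nonneg (vsq_nonneg v) x
  have D0 : 0 ≤ D := Hz_nonneg (ga_nonneg (v := v)) x
  have key : ∀ i, Hz (fun y => v i y ^ 4) x ≤ 5 * (U * (U + D)) := by
    intro i
    have k1 := gn (hv i) (x := x) (A := U) (B := D) (Hz_le_vsq hv i x) (Hz_le_ga hv i 0 x)
      (Hz_le_ga hv i 1 x) 1
    have e1 : (fun y => v i y ^ (2 * (1 + 1))) = fun y => v i y ^ 4 := rfl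
    rw [e1] at k1
    refine k1.trans ?_
    have q1 : √U ^ 2 = U := Real.sq_sqrt U0
    have q2 : √D ^ 2 = D := Real.sq_sqrt D0
    push_cast
    have q4 : (√U + (1 + 1) * √D) ^ (2 * 1)
        = 5 * (√U ^ 2 + √D ^ 2) - (2 * √U - √D) ^ 2 := by ring
    rw [q4, q1, q2]
    have q3 := mul_nonneg U0 (sq_nonneg (2 * √U - √D))
    linarith
  have c4 : ∀ i, CP (fun y => v i y ^ 4) := fun i => (cp_of (hv i)).pow 4
  have h3 : Hz (fun y => vsq v y ^ 2) x
      ≤ 3 * (Hz (fun y => v 0 y ^ 4) x + (Hz (fun y => v 1 y ^ 4) x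
        + Hz (fun y => v 2 y ^ 4) x)) := by
    rw [← Hz_add (c4 1) (c4 2), ← Hz_add (c4 0) ((c4 1).add (c4 2)), ← Hz_cmul]
    refine Hz_mono ((cp_of (vsq_sp hv)).pow 2) (((c4 0).add ((c4 1).add (c4 2))).cmul 3)
      (fun y => ?_) x
    unfold vsq
    rw [Fin.sum_univ_three]
    linarith only [sq_nonneg (v 0 y ^ 2 - v 1 y ^ 2), sq_nonneg (v 0 y ^ 2 - v 2 y ^ 2),
      sq_nonneg (v 1 y ^ 2 - v 2 y ^ 2)]
  have k0 := key 0
  have k1 := key 1
  have k2 := key 2
  linarith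

/-- The source term on a slice. -/
theorem src_pt {a r : ℝ} (h : Ey a r) {E : ℝ} (hE1 : 1 ≤ E) : ∃ C, 0 ≤ C ∧
    ∀ G : V → ℝ, CP G → (∀ x, 0 ≤ G x) → ∀ v : Fin 3 → V → ℝ, (∀ i, SP (v i)) → esq v ≤ E →
    ∀ x, ∫ z in cube, fz G x z ^ 2 * vsq v z
      ≤ C * (NR r G x ^ (2 / r) * (1 + ysq v) ^ (2 / r)) := by
  obtain ⟨C, hC1, hC⟩ := mult2v h
  have hr := h.hr
  have hr0 := h.r_pos
  have hal := h.al_pos
  have hbe := h.be_pos
  have hgm := h.gm_pos
  have h2r : 2 / r < 1 := by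
    rw [div_lt_one hr0]
    exact hr
  refine ⟨C * 45 * E, by positivity, ?_⟩
  intro G cG G0 v hv hE x
  have cU : CP (Hz (vsq v)) := (cp_of (vsq_sp hv)).hz
  have U0 : ∀ x, 0 ≤ Hz (vsq v) x := Hz_nonneg (vsq_nonneg _)
  have cD : CP (Hz (ga v)) := (cp_of (ga_sp hv)).hz
  have D0 : ∀ x, 0 ≤ Hz (ga v) x := Hz_nonneg ga_nonneg
  have cGv : CP (fun z => fz G x z ^ 2 * vsq v z) := ((fz_cp cG x).pow 2).mul (cp_of (vsq_sp hv))
  have hy0 := ysq_nonneg v
  have hes := esq_nonneg v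
  rw [← int_Hz cGv]
  set N2 : ℝ := NR r G x ^ (2 / r) with hN2
  have hN20 : 0 ≤ N2 := Real.rpow_nonneg (by linarith [NR_one (r := r) G0 x]) _
  have e1 : 1 - 2 / r = al a r + be a r := by
    have := exp_sum1 a r
    linarith
  have e2 : be a r + gm a = 2 / r := by
    unfold be gm
    ring
  have cAB : Continuous fun z => Hz (vsq v) z + Hz (ga v) z := cU.cont.add cD.cont
  have cpr : Continuous fun z => Hz (vsq v) z ^ (1 - 2 / r)
      * (Hz (vsq v) z + Hz (ga v) z) ^ (2 / r) :=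
    (cU.cont.rpow_const fun x => Or.inr (by linarith)).mul
      (cAB.rpow_const fun x => Or.inr (by positivity))
  have h1 : ∫ z in cube, Hz (fun z => fz G x z ^ 2 * vsq v z) z
      ≤ ∫ z in cube, (C * 45 * N2) * (Hz (vsq v) z ^ (1 - 2 / r)
        * (Hz (vsq v) z + Hz (ga v) z) ^ (2 / r)) := by
    refine integral_mono cGv.hz.int (integrableOn_cube (continuous_const.mul cpr)) fun z => ?_
    have k1 := hC (fz G x) (fz_cp cG x) (fz_ind G x) (fz_nonneg G0 x) (Nx r G x)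
      (by linarith [Nx_one hr0 G0 x]) (int_fz hr0 cG G0 x) v hv z _ _ _ le_rfl le_rfl
      (Hz_vsq_sq_le hv z)
    rw [Nx_sq hr0 G0, ← hN2] at k1
    refine k1.trans ?_
    set A : ℝ := Hz (vsq v) z with hA
    set D : ℝ := Hz (ga v) z with hD
    have A0 : 0 ≤ A := U0 z
    have AD0 : 0 ≤ A + D := add_nonneg (U0 z) (D0 z)
    have k2 : (45 * (A * (A + D))) ^ be a r ≤ 45 * (A ^ be a r * (A + D) ^ be a r) := by
      rw [Real.mul_rpow (by norm_num) (by positivity), Real.mul_rpow A0 AD0]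
      refine mul_le_mul_of_nonneg_right ?_ (by positivity)
      have hb1 : be a r ≤ 1 := by
        have := exp_sum1 a r
        have : 0 < 2 / r := by positivity
        linarith
      have := Real.rpow_le_rpow_of_exponent_le (by norm_num : (1 : ℝ) ≤ 45) hb1
      rwa [Real.rpow_one] at this
    have k3 : A ^ al a r * (45 * (A * (A + D))) ^ be a r * (A + D) ^ gm a
        ≤ 45 * (A ^ (1 - 2 / r) * (A + D) ^ (2 / r)) := by
      have l1 := mul_le_mul_of_nonneg_left k2 (Real.rpow_nonneg A0 (al a r))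
      have l2 := mul_le_mul_of_nonneg_right l1 (Real.rpow_nonneg AD0 (gm a))
      refine l2.trans (le_of_eq ?_)
      rw [e1, ← e2, Real.rpow_add_of_nonneg A0 hal.le hbe.le,
        Real.rpow_add_of_nonneg AD0 hbe.le hgm.le]
      ring
    have k4 := mul_le_mul_of_nonneg_left k3 (by positivity : 0 ≤ C * N2)
    linarith
  rw [integral_const_mul] at h1
  have h2 := hold4 cU.cont cAB (continuous_const (y := (1 : ℝ))) (continuous_const (y := (1 : ℝ)))
    U0 (fun z => add_nonneg (U0 z) (D0 z)) (fun _ => zero_le_one) (fun _ => zero_le_one)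
    (p1 := 1 - 2 / r) (p2 := 2 / r) (p3 := 0) (p4 := 0) (by linarith) (by positivity) le_rfl
    le_rfl (by ring)
  simp only [Real.rpow_zero, mul_one] at h2
  have eE : ∫ x in cube, Hz (vsq v) x = esq v := by
    rw [int_Hz (cp_of (vsq_sp hv))]
    unfold vsq esq
    rw [integral_finsetSum _ fun i _ => (SP.sqr (hv i)).int]
  rw [integral_add cU.int cD.int, eE, int_Hz (cp_of (ga_sp hv)), int_ga hv] at h2
  have h3 : esq v ^ (1 - 2 / r) * (esq v + ysq v) ^ (2 / r) ≤ E * (1 + ysq v) ^ (2 / r) := by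
    have k1 : esq v ^ (1 - 2 / r) ≤ E ^ (1 - 2 / r) :=
      Real.rpow_le_rpow hes hE (by linarith)
    have k2 : (esq v + ysq v) ^ (2 / r) ≤ (E * (1 + ysq v)) ^ (2 / r) := by
      refine Real.rpow_le_rpow (by positivity) ?_ (by positivity)
      have : ysq v ≤ E * ysq v := le_mul_of_one_le_left hy0 hE1
      linarith
    have k3 := mul_le_mul k1 k2 (by positivity) (by positivity)
    refine k3.trans (le_of_eq ?_)
    rw [Real.mul_rpow (by linarith) (by linarith), ← mul_assoc,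
      ← Real.rpow_add (by linarith : 0 < E)]
    have : 1 - 2 / r + 2 / r = 1 := by ring
    rw [this, Real.rpow_one]
  have h4 := mul_le_mul_of_nonneg_left (h2.trans h3) (by positivity : 0 ≤ C * 45 * N2)
  refine (h1.trans h4).trans (le_of_eq ?_)
  ring

/-- The integral of the source term. -/
theorem src_L {a r : ℝ} (h : Ey a r) {m : ℕ} (hm : 2 ≤ m) {E : ℝ} (hE1 : 1 ≤ E) :
    ∃ C, 0 ≤ C ∧ ∀ G : V → ℝ, CP G → (∀ x, 0 ≤ G x) → ∀ M : ℝ, 1 ≤ M →
    (∫ x in cube, NR r G x ^ (a / r)) ≤ M ^ a →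
    ∀ v : Fin 3 → V → ℝ, (∀ i, SP (v i)) → esq v ≤ E → ∀ S : V → ℝ, CP S →
    (∀ x, S x ≤ ∫ z in cube, fz G x z ^ 2 * vsq v z) →
    ∫ x in cube, Hz (vsq (ww v)) x ^ (2 * m - 1) * S x
      ≤ C * (M ^ 2 * Zz a r (1 + Yv m v) (Xv m v)) := by
  obtain ⟨C1, hC10, hC1⟩ := int_Ng h hm hE1
  obtain ⟨C2, hC20, hC2⟩ := src_pt h hE1
  have hE0 : 0 ≤ E := by linarith
  have ha0 := h.a_pos
  have hr0 := h.r_pos
  refine ⟨C2 * C1, by positivity, ?_⟩
  intro G cG G0 M hM1 hM v hv hE S cS hS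
  have hw := ww_sp hv
  have ce : CP (Hz (vsq (ww v))) := (cp_of (vsq_sp hw)).hz
  have e0 : ∀ x, 0 ≤ Hz (vsq (ww v)) x := Hz_nonneg (vsq_nonneg _)
  have hy0 := ysq_nonneg v
  have hY0 := Yv_nonneg m v
  set B : ℝ := 1 + Yv m v with hB
  set X : ℝ := Xv m v with hX
  have hB1 : 1 ≤ B := by linarith
  have hB0 : 0 < B := by linarith
  have hX0 : 0 < X := by linarith [B1_le_Xv m v]
  have ck : CP fun x => NR r G x ^ (2 / r) := cprp (NR_cp hr0.le cG) (by positivity)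
  have k0 : ∀ x, 0 ≤ NR r G x ^ (2 / r) := fun x =>
    Real.rpow_nonneg (by linarith [NR_one (r := r) G0 x]) _
  set L : ℝ := (1 + ysq v) ^ (2 / r) with hL
  have hL0 : 0 ≤ L := by positivity
  have h1 : ∫ x in cube, Hz (vsq (ww v)) x ^ (2 * m - 1) * S x
      ≤ ∫ x in cube, (C2 * L) * (NR r G x ^ (2 / r) * (Hz (vsq (ww v)) x + E) ^ (2 * m)) := by
    refine integral_mono ((ce.pow _).mul cS).int
      ((ck.mul ((ce.add (CP.const E)).pow _)).cmul _).int fun x => ?_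
    have l1 := (hS x).trans (hC2 G cG G0 v hv hE x)
    have l2 : Hz (vsq (ww v)) x ^ (2 * m - 1) ≤ (Hz (vsq (ww v)) x + E) ^ (2 * m) := by
      have q1 : Hz (vsq (ww v)) x ^ (2 * m - 1) ≤ (Hz (vsq (ww v)) x + E) ^ (2 * m - 1) :=
        pow_le_pow_left₀ (e0 x) (by linarith) _
      have q2 : (Hz (vsq (ww v)) x + E) ^ (2 * m - 1) ≤ (Hz (vsq (ww v)) x + E) ^ (2 * m) :=
        pow_le_pow_right₀ (by linarith [e0 x]) (by omega)
      exact q1.trans q2
    have l3 := mul_le_mul_of_nonneg_left l1 (pow_nonneg (e0 x) (2 * m - 1))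
    have l4 := mul_le_mul_of_nonneg_right l2
      (by have := k0 x; positivity : 0 ≤ C2 * (NR r G x ^ (2 / r) * L))
    simp only
    rw [← hL] at l3
    linarith
  rw [integral_const_mul] at h1
  have h2 := mul_le_mul_of_nonneg_left (hC1 G cG G0 M hM1 hM v hv hE)
    (by positivity : 0 ≤ C2 * L)
  have h3 : L * (B ^ (1 - 1 / a) * X ^ (1 / a)) ≤ Zz a r B X := by
    have k1 : (1 + ysq v) * B ≤ X := by
      have := X1v_nonneg m v
      have := X2v_nonneg m v
      rw [hX]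
      unfold Xv
      linarith
    have k2 : ((1 + ysq v) * B) ^ (2 / r) ≤ X ^ (2 / r) :=
      Real.rpow_le_rpow (by positivity) k1 (by positivity)
    rw [Real.mul_rpow (by linarith) hB0.le, ← hL] at k2
    have k3 : B ^ (1 - 1 / a) = B ^ (2 / r) * B ^ (1 - th a r) := by
      rw [← Real.rpow_add hB0]
      congr 1
      unfold th
      ring
    have k4 : X ^ th a r = X ^ (2 / r) * X ^ (1 / a) := by
      rw [← Real.rpow_add hX0]
      congr 1
      unfold th
      ring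
    have k5 := mul_le_mul_of_nonneg_right k2
      (by positivity : 0 ≤ B ^ (1 - th a r) * X ^ (1 / a))
    unfold Zz
    rw [k3, k4]
    linarith
  have h4 := mul_le_mul_of_nonneg_left h3 (by positivity : 0 ≤ C2 * C1 * M ^ 2)
  refine (h1.trans h2).trans ?_
  linarith

/-- The term with the vector field. -/
theorem t0_L {a r : ℝ} (h : Ey a r) {m : ℕ} (hm : 2 ≤ m) {E : ℝ} (hE1 : 1 ≤ E) :
    ∃ C, 0 ≤ C ∧ ∀ G : V → ℝ, CP G → (∀ x, 0 ≤ G x) → ∀ M : ℝ, 1 ≤ M →
    (∫ x in cube, NR r G x ^ (a / r)) ≤ M ^ a →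
    ∀ v : Fin 3 → V → ℝ, (∀ i, SP (v i)) → esq v ≤ E →
    ∫ x in cube, Hz (vsq (ww v)) x ^ (2 * m - 1) * Hz (fun y => G y ^ 2 * vsq (ww v) y) x
      ≤ C * (M ^ 2 * Zz a r (1 + Yv m v) (Xv m v)) := by
  obtain ⟨C, hC1, hC⟩ := mult2v h
  obtain ⟨c, hc1, hcw⟩ := wts hm hE1
  have hE0 : 0 ≤ E := by linarith
  have ha := h.ha
  have ha0 := h.a_pos
  have hr0 := h.r_pos
  have hgm0 := h.gm_pos
  have hc0 : 0 < c := by linarith
  refine ⟨C * c * c, by positivity, ?_⟩
  intro G cG G0 M hM1 hM v hv hE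
  obtain ⟨w1, w2, w3, w4, w5⟩ := hcw v hv hE
  have hw := ww_sp hv
  set e : V → ℝ := Hz (vsq (ww v)) with he
  have ce : CP e := (cp_of (vsq_sp hw)).hz
  have e0 : ∀ x, 0 ≤ e x := Hz_nonneg (vsq_nonneg _)
  set d : V → ℝ := Hz (ga (ww v)) with hd
  have cd : CP d := (cp_of (ga_sp hw)).hz
  have d0 : ∀ x, 0 ≤ d x := Hz_nonneg ga_nonneg
  set J : V → ℝ := Hz (fun y => vsq (ww v) y ^ 2) with hJ
  have J0 : ∀ x, 0 ≤ J x := Hz_nonneg fun y => sq_nonneg _
  have hM0 : 0 ≤ M := by linarith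
  have hY0 := Yv_nonneg m v
  have hBX := B1_le_Xv m v
  set B : ℝ := 1 + Yv m v with hB
  set X : ℝ := Xv m v with hX
  have hB0 : 0 < B := by linarith
  have hX0 : 0 < X := by linarith
  set Z1 : ℝ := (B * X) ^ (al a r / 2) * X ^ (2 * be a r) with hZ1
  have hZ10 : 0 ≤ Z1 := by positivity
  have ψ0 : ∀ x, 0 ≤ ps m E v x := ps_nonneg hE0 v
  have cψ : CP (ps m E v) := ps_cp hv
  set W : V → ℝ := fun z => ps m E v z * (e z + d z) with hW
  have cWW : CP W := cψ.mul (ce.add cd)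
  have W0 : ∀ z, 0 ≤ W z := fun z => mul_nonneg (ψ0 z) (add_nonneg (e0 z) (d0 z))
  have N1 := fun x => NR_one (r := r) G0 x
  have cNa : CP fun x => NR r G x ^ (a / r) := cprp (NR_cp hr0.le cG) (by positivity)
  have cGw : CP (fun y => G y ^ 2 * vsq (ww v) y) := (cG.pow 2).mul (cp_of (vsq_sp hw))
  have hψe : ∀ z, ps m E v z * e z ≤ c * √(B * X) := by
    intro z
    have k2 : ps m E v z * (e z + E) = (e z + E) ^ (2 * m) := by
      have : ps m E v z = (e z + E) ^ (2 * m - 1) := rfl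
      rw [this, ← pow_succ]
      congr 1
      omega
    have k3 := w3 z
    have k4 := mul_nonneg (ψ0 z) hE0
    linarith
  have h1 : ∫ x in cube, e x ^ (2 * m - 1) * Hz (fun y => G y ^ 2 * vsq (ww v) y) x
      ≤ ∫ x in cube, (C * c * Z1) * ((NR r G x ^ (a / r)) ^ (2 / a) * W x ^ gm a) := by
    refine integral_mono ((ce.pow _).mul cGw.hz).int (integrableOn_cube ?_) fun x => ?_
    · exact continuous_const.mul ((cNa.cont.rpow_const fun x => Or.inr (by positivity)).mul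
        (cWW.cont.rpow_const fun x => Or.inr hgm0.le))
    · have ef : Hz (fun y => G y ^ 2 * vsq (ww v) y) x
          = Hz (fun y => fz G x y ^ 2 * vsq (ww v) y) x :=
        Hz_congr fun z hz => by rw [fz_eq hz]
      have k1 := hC (fz G x) (fz_cp cG x) (fz_ind G x) (fz_nonneg G0 x) (Nx r G x)
        (by linarith [Nx_one hr0 G0 x]) (int_fz hr0 cG G0 x) (ww v) hw x _ _ _ le_rfl le_rfl
        le_rfl
      rw [← ef, Nx_sq hr0 G0] at k1
      have k0 : 0 ≤ Hz (fun y => G y ^ 2 * vsq (ww v) y) x :=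
        Hz_nonneg (fun y => mul_nonneg (sq_nonneg _) (vsq_nonneg _ y)) x
      have k2 : e x ^ (2 * m - 1) ≤ ps m E v x := pow_le_pow_left₀ (e0 x) (by linarith) _
      have k3 := mul_le_mul_of_nonneg_right k2 k0
      have k4 := mul_le_mul_of_nonneg_left k1 (ψ0 x)
      have k5 := wm1 h (ψ := ps m E v x) (A := e x) (B := d x) (J := J x) (c := c) (S := B * X)
        (X := X) (ψ0 x) (e0 x) (d0 x) (J0 x) hc1 (by positivity) hX0.le (hψe x) (w5 x)
      rw [← hZ1] at k5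
      have k6 := mul_le_mul_of_nonneg_left k5
        (by have := N1 x; positivity : 0 ≤ C * NR r G x ^ (2 / r))
      have q5 : (NR r G x ^ (a / r)) ^ (2 / a) = NR r G x ^ (2 / r) := by
        rw [← Real.rpow_mul (by linarith [N1 x])]
        congr 1
        field_simp
      simp only
      rw [q5]
      refine (k3.trans k4).trans ?_
      refine le_trans (le_of_eq ?_) (k6.trans (le_of_eq ?_))
      · simp only [he, hd, hJ]
        ring
      · simp only [hW]
        ring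
  rw [integral_const_mul] at h1
  have h2 := holN ha (k := fun x => NR r G x ^ (a / r)) cNa.cont
    (fun x => Real.rpow_nonneg (by linarith [N1 x]) _) cWW.cont W0 hM0 hM w2
  have h3 := mul_le_mul_of_nonneg_left h2 (by positivity : 0 ≤ C * c * Z1)
  have e1 : (c * X) ^ gm a = c ^ gm a * X ^ gm a := Real.mul_rpow hc0.le hX0.le
  have e2 : c ^ gm a ≤ c := by
    have := Real.rpow_le_rpow_of_exponent_le hc1 h.gm_lt.le
    rwa [Real.rpow_one] at this
  have e3 : C * c * Z1 * (M ^ 2 * (c * X) ^ gm a)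
      = C * c * c ^ gm a * (M ^ 2 * Zz a r B X) := by
    rw [← zz1 h hB0 hX0, e1, hZ1]
    ring
  refine (h1.trans h3).trans ?_
  rw [e3]
  refine mul_le_mul_of_nonneg_right ?_ (mul_nonneg (sq_nonneg _) (Zz_nonneg hB0.le hX0.le))
  exact mul_le_mul_of_nonneg_left e2 (by positivity)

/-- The weighted integral of the pressure. -/
theorem press_L {a r : ℝ} (h : Ey a r) {m : ℕ} (hm : 2 ≤ m) {E : ℝ} (hE1 : 1 ≤ E) :
    ∃ C, 0 ≤ C ∧ ∀ G : V → ℝ, CP G → (∀ x, 0 ≤ G x) → ∀ M : ℝ, 1 ≤ M →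
    (∫ x in cube, NR r G x ^ (a / r)) ≤ M ^ a →
    ∀ (v : Fin 3 → V → ℝ) (p : V → ℝ), (∀ i, SP (v i)) →
    (∀ x, ∑ i, pd i (v i) x = 0) → SP p → (∀ x, -lap p x = ∑ i, pd i (conv v i) x) →
    (∫ x in cube, p x = 0) → esq v ≤ E →
    ∫ x in cube, Hz (vsq (ww v)) x ^ (2 * m - 2) * Hz (fun y => G y * |p y|) x ^ 2
      ≤ C * ((1 + Real.log (1 + ysq v) ^ 2)
        * (M ^ 2 * Zz a r (1 + Yv m v) (Xv m v))) := by
  have hE0 : 0 ≤ E := by linarith
  have hs : 2 / r + 1 / a < 1 := by linarith [h.hs]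
  obtain ⟨C, hC0, hC⟩ := press_gen h.ha h.hr hs hm hE0
  obtain ⟨C1, hC10, hC1⟩ := int_Ng h hm hE1
  obtain ⟨C2, hC20, hC2⟩ := far_L h hm hE1
  have ha0 := h.a_pos
  have hr0 := h.r_pos
  refine ⟨C * (1 + C1 + C2), by positivity, ?_⟩
  intro G cG G0 M hM1 hM v p hv hdiv hp hl h0 hE
  have hw := ww_sp hv
  have ce : CP (Hz (vsq (ww v))) := (cp_of (vsq_sp hw)).hz
  have e0 : ∀ x, 0 ≤ Hz (vsq (ww v)) x := Hz_nonneg (vsq_nonneg _)
  have hY0 := Yv_nonneg m v
  have hBX := B1_le_Xv m v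
  set B : ℝ := 1 + Yv m v with hB
  set X : ℝ := Xv m v with hX
  have hB1 : 1 ≤ B := by linarith
  set Z : ℝ := Zz a r B X with hZ
  have hZ1 : 1 ≤ Z := one_le_Zz h hB1 hBX
  have hM2 : 0 ≤ M ^ 2 := sq_nonneg M
  have q0 : M ^ 2 ≤ M ^ 2 * Z := le_mul_of_one_le_right hM2 hZ1
  have q1 : 0 ≤ C1 * (M ^ 2 * Z) := by positivity
  have q2 : 0 ≤ C2 * (M ^ 2 * Z) := by positivity
  have h1 := hC G cG G0 M hM1 hM v p hv hdiv hp hl h0 hE ((1 + C1 + C2) * (M ^ 2 * Z))
    (by linarith)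
    (by
      intro ρ hρ
      have := hC2 G cG G0 M hM1 hM v hv hE ρ hρ
      linarith)
    (by
      have cN : CP fun x => NR r G x ^ (2 / r) := cprp (NR_cp hr0.le cG) (by positivity)
      have k0 : ∀ x, 0 ≤ NR r G x ^ (2 / r) := fun x =>
        Real.rpow_nonneg (by linarith [NR_one (r := r) G0 x]) _
      have l1 : ∫ x in cube, NR r G x ^ (2 / r) * Hz (vsq (ww v)) x ^ (2 * m - 2)
          ≤ ∫ x in cube, NR r G x ^ (2 / r) * (Hz (vsq (ww v)) x + E) ^ (2 * m) := by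
        refine integral_mono (cN.mul (ce.pow _)).int
          (cN.mul ((ce.add (CP.const E)).pow _)).int fun x => ?_
        refine mul_le_mul_of_nonneg_left ?_ (k0 x)
        have q1 : Hz (vsq (ww v)) x ^ (2 * m - 2) ≤ (Hz (vsq (ww v)) x + E) ^ (2 * m - 2) :=
          pow_le_pow_left₀ (e0 x) (by linarith) _
        have q2 : (Hz (vsq (ww v)) x + E) ^ (2 * m - 2) ≤ (Hz (vsq (ww v)) x + E) ^ (2 * m) :=
          pow_le_pow_right₀ (by linarith [e0 x]) (by omega)
        exact q1.trans q2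
      have l2 := hC1 G cG G0 M hM1 hM v hv hE
      have hp1 : 1 / a ≤ th a r := by
        have : 0 < 2 / r := by positivity
        unfold th
        linarith
      have l3 := zz2 h hB1 hBX hp1
      have l4 := mul_le_mul_of_nonneg_left l3 (by positivity : 0 ≤ C1 * M ^ 2)
      linarith)
  refine h1.trans (le_of_eq ?_)
  ring

end Pool.Agent.H4LA
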