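import Pool.Agent.H4LA.IngL
import Pool.Agent.H4LA.Key2
import Pool.Agent.H4LA.PrsL

/-!
The inequality for the integral of a power of the slice energy: the conclusion in the second case.
-/

set_option autoImplicit false
set_option linter.unusedVariables false

open MeasureTheory Set Function Filter Topology
open scoped ENNReal ContDiff

namespace Pool.Agent.H4LA

open H459R3.NS

/-- The exponent of the norm. -/
noncomputable def sL (a r : ℝ) : ℝ := 2 / (1 - th a r)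

/-- The exponent of the logarithm. -/
noncomputable def bL (a r : ℝ) : ℝ := 1 / (1 - th a r)

theorem Ey.bL_one {a r : ℝ} (h : Ey a r) : 1 ≤ bL a r := by
  have h1 := h.th_pos
  have h2 := h.th_lt
  unfold bL
  rw [le_div_iff₀ (by linarith)]
  linarith

theorem Ey.sL_two {a r : ℝ} (h : Ey a r) : 2 ≤ sL a r := by
  have h1 := h.bL_one
  have e : sL a r = 2 * bL a r := by
    unfold sL bL
    ring
  rw [e]
  linarith

/-- The sum. -/
theorem arith_L {ν n E es CP' CT CS l V κ R X X1 X2 y hs Y B μ P T S W K : ℝ} (hν : 0 < ν)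
    (hn : 1 ≤ n) (hE0 : 0 ≤ E) (hCT : 0 ≤ CT) (hCS : 0 ≤ CS) (hV0 : 0 ≤ V) (hl : 1 ≤ l)
    (hκ : 0 ≤ κ) (hR : 0 ≤ R) (hX1 : 0 ≤ X1) (hX2 : 0 ≤ X2) (hy : 0 ≤ y) (hhy : hs ≤ y)
    (hY : 0 ≤ Y) (hB : B = 1 + Y) (hX : X = X1 + X2 + (1 + y) * B)
    (hK : K = 3 * (n / ν) * CP' + (3 / 4 * (n / ν) + 1 / 2) * CT + 1 / 2 * CS)
    (hP : P ≤ CP' * (l * V)) (hT : T ≤ CT * V) (hS : S ≤ CS * V)
    (hV : K * (l * V) ≤ ν / 8 * X + κ * (R * B))
    (hμK : μ ≤ (2 * E + 1) * (1 + y)) (hμ2 : μ ^ 2 ≤ (2 * E ^ 2 + 8 * E) * (1 + y))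
    (hW : W ≤ -(3 / 4 * ν * X1) - ν / 4 * (n * X2)
      + (n / ν * (9 / 4 * μ) + 21 * n ^ 2 / ν ^ 3 * μ ^ 2) * Y
      + 3 * (n / ν) * P + (hs + 1 / 2 * y) * (1 + Y) + (3 / 4 * (n / ν) + 1 / 2) * T
      + 1 / 2 * S) :
    W ≤ (n / ν * (9 / 4 * (2 * E + 1)) + 21 * n ^ 2 / ν ^ 3 * (2 * E ^ 2 + 8 * E) + 2 + ν / 8
      + κ) * ((1 + y + R) * (1 + Y)) := by
  have hn0 : 0 ≤ n := by linarith
  have hnν : 0 ≤ n / ν := by positivity
  have hlV : V ≤ l * V := le_mul_of_one_le_left hV0 hl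
  have hlV0 : 0 ≤ l * V := by positivity
  have f1 : 3 * (n / ν) * P ≤ 3 * (n / ν) * (CP' * (l * V)) :=
    mul_le_mul_of_nonneg_left hP (by positivity)
  have f2 : (3 / 4 * (n / ν) + 1 / 2) * T ≤ (3 / 4 * (n / ν) + 1 / 2) * (CT * (l * V)) := by
    refine mul_le_mul_of_nonneg_left (hT.trans ?_) (by positivity)
    exact mul_le_mul_of_nonneg_left hlV hCT
  have f3 : 1 / 2 * S ≤ 1 / 2 * (CS * (l * V)) := by
    refine mul_le_mul_of_nonneg_left (hS.trans ?_) (by norm_num)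
    exact mul_le_mul_of_nonneg_left hlV hCS
  have f4 : 3 * (n / ν) * (CP' * (l * V)) + (3 / 4 * (n / ν) + 1 / 2) * (CT * (l * V))
      + 1 / 2 * (CS * (l * V)) = K * (l * V) := by
    rw [hK]
    ring
  -- the lower order terms
  have g1 : n / ν * (9 / 4 * μ) ≤ n / ν * (9 / 4 * ((2 * E + 1) * (1 + y))) := by
    refine mul_le_mul_of_nonneg_left ?_ hnν
    linarith
  have g2 : 21 * n ^ 2 / ν ^ 3 * μ ^ 2
      ≤ 21 * n ^ 2 / ν ^ 3 * ((2 * E ^ 2 + 8 * E) * (1 + y)) :=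
    mul_le_mul_of_nonneg_left hμ2 (by positivity)
  have g3 := mul_le_mul_of_nonneg_right (add_le_add g1 g2) hY
  set c : ℝ := n / ν * (9 / 4 * (2 * E + 1)) + 21 * n ^ 2 / ν ^ 3 * (2 * E ^ 2 + 8 * E) with hc
  have hc0 : 0 ≤ c := by positivity
  have g4 : (n / ν * (9 / 4 * ((2 * E + 1) * (1 + y)))
      + 21 * n ^ 2 / ν ^ 3 * ((2 * E ^ 2 + 8 * E) * (1 + y))) * Y = c * ((1 + y) * Y) := by
    rw [hc]
    ring
  have g5 : c * ((1 + y) * Y) ≤ c * ((1 + y + R) * (1 + Y)) := by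
    refine mul_le_mul_of_nonneg_left ?_ hc0
    exact mul_le_mul (by linarith) (by linarith) hY (by positivity)
  have g6 : (hs + 1 / 2 * y) * (1 + Y) ≤ 2 * ((1 + y + R) * (1 + Y)) := by
    have : hs + 1 / 2 * y ≤ 2 * (1 + y + R) := by linarith
    have := mul_le_mul_of_nonneg_right this (by linarith : 0 ≤ 1 + Y)
    linarith
  have g7 : ν / 8 * ((1 + y) * B) ≤ ν / 8 * ((1 + y + R) * (1 + Y)) := by
    rw [hB]
    refine mul_le_mul_of_nonneg_left ?_ (by positivity)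
    exact mul_le_mul_of_nonneg_right (by linarith) (by linarith)
  have g8 : κ * (R * B) ≤ κ * ((1 + y + R) * (1 + Y)) := by
    rw [hB]
    refine mul_le_mul_of_nonneg_left ?_ hκ
    exact mul_le_mul_of_nonneg_right (by linarith) (by linarith)
  have g9 : ν / 8 * X = ν / 8 * X1 + ν / 8 * X2 + ν / 8 * ((1 + y) * B) := by
    rw [hX]
    ring
  have g10 : 0 ≤ ν * X1 := by positivity
  have g11 : ν / 8 * X2 ≤ ν / 4 * (n * X2) := by
    have : X2 ≤ n * X2 := le_mul_of_one_le_left hX2 hn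
    have := mul_le_mul_of_nonneg_left this (by positivity : 0 ≤ ν / 4)
    have : 0 ≤ ν * X2 := by positivity
    linarith
  linarith

theorem key_L {ν : ℝ} (hν : 0 < ν) {a r : ℝ} (h : Ey a r) {m : ℕ} (hm : 2 ≤ m) {E : ℝ}
    (hE0 : 0 ≤ E) : ∃ C, 0 ≤ C ∧ ∀ M : ℝ, 1 ≤ M →
    ∀ (v : Fin 3 → V → ℝ) (p : V → ℝ) (F : Fin 3 → V → ℝ), (∀ i, SP (v i)) →
    (∀ x, ∑ i, pd i (v i) x = 0) → SP p → (∀ x, -lap p x = ∑ i, pd i (conv v i) x) →
    esq v ≤ E → (∀ i x, F i x = ν * lap (v i) x - conv v i x - pd i p x) →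
    (∫ x in cube, NR r (fun x => |bb v x|) x ^ (a / r)) ≤ M ^ a →
    2 * ((2 * m : ℕ) : ℝ) * ∫ x in cube, Hz (vsq (ww v)) x ^ (2 * m - 1)
        * ∑ i, ww v i x * sb F i x
      ≤ C * ((1 + ysq v + M ^ sL a r * (1 + Real.log (1 + ysq v) ^ 2) ^ bL a r)
        * (1 + ∫ x in cube, Hz (vsq (ww v)) x ^ (2 * m))) := by
  set E' : ℝ := E + 1 with hE'
  have hE1 : 1 ≤ E' := by linarith
  obtain ⟨CP', hCP0, hCP⟩ := press_L h hm hE1
  obtain ⟨CT, hCT0, hCT⟩ := t0_L h hm hE1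
  obtain ⟨CS, hCS0, hCS⟩ := src_L h hm hE1
  have hth0 := h.th_pos
  have hth1 := h.th_lt
  have h1θ : 0 < 1 - th a r := by linarith
  set n : ℝ := 2 * (m : ℝ) - 1 with hn
  have hm0 : (2 : ℝ) ≤ m := by exact_mod_cast hm
  have hn1 : 1 ≤ n := by linarith
  have hn0 : 0 ≤ n := by linarith
  set K : ℝ := 3 * (n / ν) * CP' + (3 / 4 * (n / ν) + 1 / 2) * CT + 1 / 2 * CS with hK
  have hK0 : 0 ≤ K := by positivity
  set κ : ℝ := (ν / 8) ^ (-(th a r / (1 - th a r))) * K ^ bL a r with hκ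
  have hκ0 : 0 ≤ κ := by positivity
  set D : ℝ := n / ν * (9 / 4 * (2 * E + 1)) + 21 * n ^ 2 / ν ^ 3 * (2 * E ^ 2 + 8 * E) + 2
    + ν / 8 + κ with hD
  have hD0 : 0 ≤ D := by positivity
  refine ⟨2 * ((2 * m : ℕ) : ℝ) * D, by positivity, ?_⟩
  intro M hM1 v p F hv hdiv hp hl hE hF hM
  -- subtraction of the mean
  set c : ℝ := ∫ x in cube, p x with hc
  set p' : V → ℝ := fun x => p x - c with hp'
  have sp' : SP p' := hp.sub (SP.constf c)
  have dp' : ∀ i, pd i p' = pd i p := by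
    intro i
    funext x
    rw [hp', pd_subf hp (SP.constf c)]
    have : pd i (fun _ : V => c) x = 0 := by
      unfold pd
      simp
    rw [this, sub_zero]
  have lp' : ∀ x, -lap p' x = ∑ i, pd i (conv v i) x := by
    intro x
    rw [← hl x]
    unfold lap
    simp_rw [dp']
  have hfin := cube_finite
  have zp' : ∫ x in cube, p' x = 0 := by
    rw [hp', integral_sub hp.int (integrable_const c)]
    have : ∫ x in cube, c = c := by
      rw [setIntegral_const, Measure.real, volume_cube]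
      simp
    rw [this]
    linarith
  have hF' : ∀ i x, F i x = ν * lap (v i) x - conv v i x - pd i p' x := by
    intro i x
    rw [hF, dp']
  have hw := ww_sp hv
  set G : V → ℝ := fun x => |bb v x| with hG
  have cG : CP G := (cp_of (bb_sp hv)).abs
  have G0 : ∀ x, 0 ≤ G x := fun x => abs_nonneg _
  set y : ℝ := ysq v with hy
  have hy0 : 0 ≤ y := ysq_nonneg v
  have hη0 : 0 ≤ hsq v := hsq_nonneg v
  have hηy : hsq v ≤ y := hsq_le_ysq v
  have hEs := esq_nonneg v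
  have hEE : esq v ≤ E' := by linarith
  set Y : ℝ := Yv m v with hY
  have hY0 : 0 ≤ Y := Yv_nonneg m v
  have hBX : 1 + Y ≤ Xv m v := B1_le_Xv m v
  set X : ℝ := Xv m v with hX
  have hX0 : 0 < X := by linarith
  set l : ℝ := 1 + Real.log (1 + y) ^ 2 with hl'
  have hl1 : 1 ≤ l := by
    have := sq_nonneg (Real.log (1 + y))
    linarith
  have hl0 : 0 < l := by linarith
  set V0 : ℝ := M ^ 2 * Zz a r (1 + Y) X with hV0
  have hZ0 : 0 ≤ Zz a r (1 + Y) X := Zz_nonneg (by linarith) hX0.le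
  have hV00 : 0 ≤ V0 := mul_nonneg (sq_nonneg M) hZ0
  set μ : ℝ := E + 2 * (√E * √(hsq v)) with hμ
  have hμ1 : esq v + 2 * (√(esq v) * √(hsq v)) ≤ μ := by
    have := mul_le_mul_of_nonneg_right (Real.sqrt_le_sqrt hE) (Real.sqrt_nonneg (hsq v))
    rw [hμ]
    linarith
  have h2 := slice_L hv hdiv hν sp' hF' cG G0 (fun x => le_rfl) hm hμ1
  have hPb := hCP G cG G0 M hM1 hM v p' hv hdiv sp' lp' zp' hEE
  have hTb := hCT G cG G0 M hM1 hM v hv hEE
  have cS : CP (Hz (fun y => G y ^ 2 * Av 2 (vsq v) y)) :=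
    ((cG.pow 2).mul ((cp_of (vsq_sp hv)).av 2)).hz
  have hSb := hCS G cG G0 M hM1 hM v hv hEE _ cS
    (fun x => le_of_eq (S_eq cG (cp_of (vsq_sp hv)) x))
  have hμK : μ ≤ (2 * E + 1) * (1 + y) := mu_le hE0 hη0 hηy
  have hμ2 : μ ^ 2 ≤ (2 * E ^ 2 + 8 * E) * (1 + y) := mu_sq_le hE0 hη0 hηy
  set R : ℝ := M ^ sL a r * l ^ bL a r with hR
  have hM0 : 0 < M := by linarith
  have hR0 : 0 ≤ R := by positivity
  have hVb : K * (l * V0) ≤ ν / 8 * X + κ * (R * (1 + Y)) := by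
    have k1 := yngp (A := (K * l * M ^ 2) ^ bL a r * (1 + Y)) (B := X) (δ := ν / 8)
      (p := th a r) (by positivity) hX0.le (by positivity) hth0 hth1
    have e1 : ((K * l * M ^ 2) ^ bL a r * (1 + Y)) ^ (1 - th a r) * X ^ th a r
        = K * (l * V0) := by
      rw [Real.mul_rpow (by positivity) (by positivity), ← Real.rpow_mul (by positivity)]
      have : bL a r * (1 - th a r) = 1 := by
        unfold bL
        field_simp
      rw [this, Real.rpow_one, hV0]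
      unfold Zz
      ring
    have e2 : (K * l * M ^ 2) ^ bL a r = K ^ bL a r * R := by
      rw [Real.mul_rpow (by positivity) (by positivity), Real.mul_rpow hK0 hl0.le,
        ← Real.rpow_natCast M 2, ← Real.rpow_mul hM0.le, hR]
      have : ((2 : ℕ) : ℝ) * bL a r = sL a r := by
        unfold bL sL
        push_cast
        ring
      rw [this]
      ring
    rw [e1, e2] at k1
    refine k1.trans (le_of_eq ?_)
    rw [hκ]
    ring
  have h5 := arith_L (P := ∫ x in cube, Hz (vsq (ww v)) x ^ (2 * m - 2)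
      * Hz (fun y => G y * |p' y|) x ^ 2) (T := ∫ x in cube, Hz (vsq (ww v)) x ^ (2 * m - 1)
      * Hz (fun y => G y ^ 2 * vsq (ww v) y) x) (S := ∫ x in cube,
      Hz (vsq (ww v)) x ^ (2 * m - 1) * Hz (fun y => G y ^ 2 * Av 2 (vsq v) y) x)
    (B := 1 + Y) (X := X) (l := l) (V := V0) (κ := κ) (R := R) (K := K) (es := esq v) hν hn1 hE0
    hCT0 hCS0 hV00 hl1 hκ0 hR0 (X1v_nonneg m v) (X2v_nonneg m v) hy0 hηy hY0 rfl rfl hK hPb hTb
    hSb hVb hμK hμ2 h2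
  have h6 := mul_le_mul_of_nonneg_left h5 (by positivity : (0 : ℝ) ≤ 2 * ((2 * m : ℕ) : ℝ))
  refine h6.trans (le_of_eq ?_)
  rw [hD]
  show _ = 2 * ((2 * m : ℕ) : ℝ) * _ * ((1 + y + R) * (1 + Y))
  ring

end Pool.Agent.H4LA
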