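import Pool.Agent.H4LA.EtaK
import Pool.Agent.H4LA.KeyL

/-!
The growth of the horizontal derivatives in the second case.
-/

set_option autoImplicit false
set_option linter.unusedVariables false

open MeasureTheory Set Function Filter Topology
open scoped ENNReal ContDiff

namespace Pool.Agent.H4LA

open H459R3.NS

/-- The inequality of Young for three factors. -/
theorem y3 {a r K y q p e1 e2 : ℝ} (h : Ey a r) (hK : 0 ≤ K) (hy : 0 ≤ y) (hq : 0 ≤ q)
    (hp : 0 ≤ p) (h1 : 0 < e1) (h2 : 0 < e2) :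
    K * (y ^ (1 - th a r) * q ^ (1 / a) * p ^ (2 / r))
      ≤ (K * (e1 ^ (-(1 / a)) * e2 ^ (-(2 / r)))) ^ bL a r * y + e1 * q + e2 * p := by
  have ha0 := h.a_pos
  have hr0 := h.r_pos
  have hth0 := h.th_pos
  have hth1 := h.th_lt
  have h1θ : 0 < 1 - th a r := by linarith
  have hw : (1 - th a r) + 1 / a + 2 / r = 1 := by
    unfold th
    ring
  set L : ℝ := K * (e1 ^ (-(1 / a)) * e2 ^ (-(2 / r))) with hL
  have hL0 : 0 ≤ L := by positivity
  have k1 := Real.geom_mean_le_arith_mean3_weighted (w₁ := 1 - th a r) (w₂ := 1 / a)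
    (w₃ := 2 / r) (p₁ := L ^ bL a r * y) (p₂ := e1 * q) (p₃ := e2 * p) h1θ.le (by positivity)
    (by positivity) (by positivity) (by positivity) (by positivity) hw
  have e : (L ^ bL a r * y) ^ (1 - th a r) * (e1 * q) ^ (1 / a) * (e2 * p) ^ (2 / r)
      = K * (y ^ (1 - th a r) * q ^ (1 / a) * p ^ (2 / r)) := by
    rw [Real.mul_rpow (by positivity) hy, Real.mul_rpow h1.le hq, Real.mul_rpow h2.le hp,
      ← Real.rpow_mul hL0]
    have : bL a r * (1 - th a r) = 1 := by
      unfold bL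
      field_simp
    rw [this, Real.rpow_one, hL, Real.rpow_neg h1.le, Real.rpow_neg h2.le]
    have n1 : e1 ^ (1 / a) ≠ 0 := (Real.rpow_pos_of_pos h1 _).ne'
    have n2 : e2 ^ (2 / r) ≠ 0 := (Real.rpow_pos_of_pos h2 _).ne'
    field_simp
  rw [e] at k1
  refine k1.trans ?_
  have w1 : (1 - th a r) * (L ^ bL a r * y) ≤ 1 * (L ^ bL a r * y) :=
    mul_le_mul_of_nonneg_right (by linarith) (by positivity)
  have a1 : 0 < 1 / a := by positivity
  have a2 : 0 < 2 / r := by positivity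
  have w2 : 1 / a * (e1 * q) ≤ 1 * (e1 * q) :=
    mul_le_mul_of_nonneg_right (by linarith) (by positivity)
  have w3 : 2 / r * (e2 * p) ≤ 1 * (e2 * p) :=
    mul_le_mul_of_nonneg_right (by linarith) (by positivity)
  linarith

theorem rpow_le_self' {c p : ℝ} (hc : 1 ≤ c) (hp : p ≤ 1) : c ^ p ≤ c := by
  have := Real.rpow_le_rpow_of_exponent_le hc hp
  rwa [Real.rpow_one] at this

/-- The exponents. -/
theorem ex1 {a r y Q p : ℝ} (h : Ey a r) (hy : 0 ≤ y) (hQ : 0 ≤ Q) (hp : 0 ≤ p) :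
    (3 * (√y * √(y + Q))) ^ al a r * (490 * ((y + Q) * (2 * (y + p)))) ^ be a r
        * (2 * (y + p)) ^ gm a
      ≤ 2940 * (y ^ (1 - th a r) * (y + Q) ^ (1 / a) * (y + p) ^ (2 / r)) := by
  have hal := h.al_pos
  have hbe := h.be_pos
  have hgm := h.gm_pos
  have hr0 := h.r_pos
  have hyQ : 0 ≤ y + Q := by linarith
  have hyp : 0 ≤ y + p := by linarith
  have hs := exp_sum1 a r
  have h2r : 0 < 2 / r := by positivity
  have e1 : (3 * (√y * √(y + Q))) ^ al a r
      = 3 ^ al a r * (y ^ (1 - th a r) * (y + Q) ^ (al a r / 2)) := by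
    rw [Real.mul_rpow (by norm_num) (by positivity), Real.mul_rpow (Real.sqrt_nonneg _)
      (Real.sqrt_nonneg _), Real.sqrt_eq_rpow, Real.sqrt_eq_rpow, ← Real.rpow_mul hy,
      ← Real.rpow_mul hyQ]
    have q1 : 1 / 2 * al a r = 1 - th a r := by
      unfold al th
      ring
    have q2 : 1 / 2 * al a r = al a r / 2 := by ring
    rw [← q2, ← q1]
  have e2 : (490 * ((y + Q) * (2 * (y + p)))) ^ be a r
      = 490 ^ be a r * ((y + Q) ^ be a r * (2 * (y + p)) ^ be a r) := by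
    rw [Real.mul_rpow (by norm_num) (by positivity), Real.mul_rpow hyQ (by positivity)]
  have e3 : (y + Q) ^ (al a r / 2) * (y + Q) ^ be a r = (y + Q) ^ (1 / a) := by
    rw [← Real.rpow_add_of_nonneg hyQ (by positivity) hbe.le]
    congr 1
    unfold al be
    ring
  have e4 : (2 * (y + p)) ^ be a r * (2 * (y + p)) ^ gm a = (2 * (y + p)) ^ (2 / r) := by
    rw [← Real.rpow_add_of_nonneg (by positivity) hbe.le hgm.le]
    congr 1
    unfold be gm
    ring
  have e5 : (2 * (y + p)) ^ (2 / r) = 2 ^ (2 / r) * (y + p) ^ (2 / r) :=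
    Real.mul_rpow (by norm_num) hyp
  have c1 : (3 : ℝ) ^ al a r ≤ 3 := rpow_le_self' (by norm_num) (by linarith)
  have c2 : (490 : ℝ) ^ be a r ≤ 490 := rpow_le_self' (by norm_num) (by linarith)
  have c3 : (2 : ℝ) ^ (2 / r) ≤ 2 := rpow_le_self' (by norm_num) (by linarith)
  have c4 : (3 : ℝ) ^ al a r * 490 ^ be a r * 2 ^ (2 / r) ≤ 2940 := by
    have k1 := mul_le_mul c1 c2 (by positivity) (by norm_num)
    have k2 := mul_le_mul k1 c3 (by positivity) (by norm_num)
    linarith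
  have e6 : (3 * (√y * √(y + Q))) ^ al a r * (490 * ((y + Q) * (2 * (y + p)))) ^ be a r
        * (2 * (y + p)) ^ gm a
      = (3 ^ al a r * 490 ^ be a r * 2 ^ (2 / r))
        * (y ^ (1 - th a r) * (y + Q) ^ (1 / a) * (y + p) ^ (2 / r)) := by
    rw [e1, e2]
    calc 3 ^ al a r * (y ^ (1 - th a r) * (y + Q) ^ (al a r / 2))
          * (490 ^ be a r * ((y + Q) ^ be a r * (2 * (y + p)) ^ be a r)) * (2 * (y + p)) ^ gm a
        = 3 ^ al a r * 490 ^ be a r * (y ^ (1 - th a r)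
          * ((y + Q) ^ (al a r / 2) * (y + Q) ^ be a r)
          * ((2 * (y + p)) ^ be a r * (2 * (y + p)) ^ gm a)) := by ring
      _ = _ := by
          rw [e3, e4, e5]
          ring
  rw [e6]
  exact mul_le_mul_of_nonneg_right c4 (by positivity)

theorem v2f_L {a r : ℝ} (h : Ey a r) : ∃ C, 0 ≤ C ∧ ∀ M : ℝ, 1 ≤ M →
    ∀ v : Fin 3 → V → ℝ, (∀ i, SP (v i)) →
    (∫ x in cube, NR r (fun x => |bb v x|) x ^ (a / r)) ≤ M ^ a →
    ∀ i j, ∫ x in cube, (v 2 x * pd j (v i) x) ^ 2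
      ≤ 2 * (esq v + 2 * (√(esq v) * √(hsq v)))
          * (ysq v + 2 * (√(ysq v) * √(2 * psq v)))
        + C * (M ^ 2 * (ysq v ^ (1 - th a r) * (ysq v + qsq v) ^ (1 / a)
          * (ysq v + psq v) ^ (2 / r))) := by
  have hr := h.hr
  have ha := h.ha
  have hr0 := h.r_pos
  have ha0 := h.a_pos
  obtain ⟨C, hC1, hC⟩ := mult2 h
  refine ⟨2 * (C * 2940), by positivity, ?_⟩
  intro M hM1 v hv hM i j
  set G : V → ℝ := fun x => |bb v x| with hG
  have cG : CP G := (cp_of (bb_sp hv)).abs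
  have G0 : ∀ x, 0 ≤ G x := fun x => abs_nonneg _
  set f : V → ℝ := pd j (v i) with hf'
  have hf : SP f := (hv i).pd j
  have cf := cp_of hf
  have sm := mm_sp hv
  have cm := cp_of sm
  set μ : ℝ := esq v + 2 * (√(esq v) * √(hsq v)) with hμ
  have hE0 := esq_nonneg v
  have hy0 := ysq_nonneg v
  have hπ0 := psq_nonneg v
  have hQ0 := qsq_nonneg v
  have hμ0 : 0 ≤ μ := by positivity
  have hM0 : 0 ≤ M := by linarith
  set A : V → ℝ := Hz (fun y => f y ^ 2) with hA
  have cA : CP A := (cf.pow 2).hz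
  have A0 : ∀ x, 0 ≤ A x := Hz_nonneg fun y => sq_nonneg _
  set B : V → ℝ := fun x => Hz (fun y => pd 0 f y ^ 2) x + Hz (fun y => pd 1 f y ^ 2) x with hB
  have c0 : CP (fun y => pd 0 f y ^ 2) := (cp_of (hf.pd 0)).pow 2
  have c1 : CP (fun y => pd 1 f y ^ 2) := (cp_of (hf.pd 1)).pow 2
  have cB : CP B := c0.hz.add c1.hz
  have b0 : ∀ x, 0 ≤ Hz (fun y => pd 0 f y ^ 2) x := Hz_nonneg fun y => sq_nonneg _
  have b1 : ∀ x, 0 ≤ Hz (fun y => pd 1 f y ^ 2) x := Hz_nonneg fun y => sq_nonneg _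
  have B0 : ∀ x, 0 ≤ B x := fun x => add_nonneg (b0 x) (b1 x)
  have iA0 : ∫ x in cube, f x ^ 2 ≤ ysq v := le_ysq v i j
  have iA : ∫ x in cube, A x ≤ ysq v := by
    rw [hA, int_Hz (cf.pow 2)]
    exact iA0
  have iB : ∫ x in cube, B x ≤ 2 * psq v := by
    rw [hB, integral_add c0.hz.int c1.hz.int, int_Hz c0, int_Hz c1]
    have h0 := le_psq v i j mem0
    have h1 := le_psq v i j mem1
    rw [pd_comm (hv i) j 0] at h0
    rw [pd_comm (hv i) j 1] at h1
    linarith
  have sA : ∀ x, A x ≤ 3 * (√(ysq v) * √(ysq v + qsq v)) := by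
    intro x
    have h1 := sup_hz hf x
    have h2 : √(∫ x in cube, f x ^ 2) * √(∫ x in cube, pd 2 f x ^ 2)
        ≤ √(ysq v) * √(ysq v + qsq v) := by
      have q1 : ∫ x in cube, pd 2 f x ^ 2 ≤ ysq v + qsq v := by
        have := int_pd2_le hv i j
        linarith
      exact mul_le_mul (Real.sqrt_le_sqrt iA0) (Real.sqrt_le_sqrt q1)
        (Real.sqrt_nonneg _) (Real.sqrt_nonneg _)
    have h3 : ysq v ≤ √(ysq v) * √(ysq v + qsq v) := by
      have q1 : √(ysq v) ≤ √(ysq v + qsq v) := Real.sqrt_le_sqrt (by linarith)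
      have q2 := mul_le_mul_of_nonneg_left q1 (Real.sqrt_nonneg (ysq v))
      rwa [Real.mul_self_sqrt hy0] at q2
    simp only [hA]
    linarith
  -- the fourth powers
  have sJ : ∀ x, Hz (fun y => f y ^ 4) x
      ≤ 490 * ((ysq v + qsq v) * (2 * (ysq v + psq v))) := by
    intro x
    have hR : √(ysq v + qsq v) ^ 2 = ysq v + qsq v := Real.sq_sqrt (by linarith)
    have s1 : SP (fun _ : V => (1 : ℝ)) := SP.constf 1
    have hd1 : ∀ x, pd 2 (fun _ : V => (1 : ℝ)) x = 0 := by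
      intro x
      unfold pd
      simp
    have k := jsup (f := f) (ψ := fun _ => 1) (Θ := fun _ => 0) (R := √(ysq v + qsq v))
      (P := 2 * (ysq v + psq v)) hf s1 ⟨fun _ _ => rfl, fun _ _ => rfl⟩ (fun _ => zero_le_one)
      (CP.const 0) (fun _ => le_rfl) (fun x => by rw [hd1]; simp) (Real.sqrt_nonneg _)
      (by
        rw [hR]
        simp only [one_mul]
        have := iA
        simp only [hA] at this
        linarith)
      (by
        rw [hR]
        simp
        linarith)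
      (by
        rw [hR]
        simp only [one_mul]
        rw [int_Hz ((cp_of (hf.pd 2)).pow 2)]
        have := int_pd2_le hv i j
        linarith)
      (by
        simp only [one_mul]
        have e : ∫ x in cube, (Hz (fun y => f y ^ 2) x + (Hz (fun y => pd 0 f y ^ 2) x
            + Hz (fun y => pd 1 f y ^ 2) x)) = (∫ x in cube, A x) + ∫ x in cube, B x :=
          integral_add cA.int cB.int
        rw [e]
        linarith) x
    rw [hR] at k
    simpa using k
  -- the average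
  have h1 : ∫ x in cube, mm v x ^ 2 * f x ^ 2
      ≤ μ * (ysq v + 2 * (√(ysq v) * √(2 * psq v))) := by
    have cmf : CP (fun y => mm v y ^ 2 * f y ^ 2) := (cm.pow 2).mul (cf.pow 2)
    rw [← int_Hz cmf]
    have cS : CP (fun x => √(A x) * √(B x)) := cA.sqrt.mul cB.sqrt
    have k1 : ∫ x in cube, Hz (fun y => mm v y ^ 2 * f y ^ 2) x
        ≤ ∫ x in cube, μ * (A x + 2 * (√(A x) * √(B x))) := by
      refine integral_mono cmf.hz.int ((cA.add (cS.cmul 2)).cmul μ).int fun x => ?_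
      have l1 := lady hf (x := x) (A := A x) (B := B x) le_rfl
        (by simp only [hB]; linarith [b1 x]) (by simp only [hB]; linarith [b0 x])
      have l2 := lady sm (x := x) (Hz_mm_sq_le hv x) (Hz_pd_mm_le hv mem0 x) (Hz_pd_mm_le hv mem1 x)
      rw [← hμ] at l2
      have l3 := Hz_cs (cm.pow 2) (cf.pow 2) x
      have e2 : ∀ g : V → ℝ, Hz (fun y => (g y ^ 2) ^ 2) x = Hz (fun y => g y ^ 4) x := by
        intro g
        congr 1
        funext y
        ring
      rw [e2, e2] at l3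
      refine (le_abs_self _).trans (l3.trans ?_)
      have n1 : 0 ≤ A x + 2 * (√(A x) * √(B x)) := by
        have := A0 x
        positivity
      exact mul_le_mul (Real.sqrt_le_iff.2 ⟨hμ0, l2⟩) (Real.sqrt_le_iff.2 ⟨n1, l1⟩)
        (Real.sqrt_nonneg _) hμ0
    have k2 : ∫ x in cube, √(A x) * √(B x) ≤ √(ysq v) * √(2 * psq v) :=
      (cs_cube cA.cont cB.cont A0 B0).trans (mul_le_mul (Real.sqrt_le_sqrt iA)
        (Real.sqrt_le_sqrt iB) (Real.sqrt_nonneg _) (Real.sqrt_nonneg _))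
    rw [integral_const_mul, integral_add cA.int (cS.cmul 2).int, integral_const_mul] at k1
    refine k1.trans (mul_le_mul_of_nonneg_left ?_ hμ0)
    linarith
  -- the rest
  set K1 : ℝ := (3 * (√(ysq v) * √(ysq v + qsq v))) ^ al a r with hK1
  set K2 : ℝ := (490 * ((ysq v + qsq v) * (2 * (ysq v + psq v)))) ^ be a r with hK2
  have hK10 : 0 ≤ K1 := by positivity
  have hK20 : 0 ≤ K2 := by positivity
  have NN1 := fun x => NR_one (r := r) G0 x
  have h2 : ∫ x in cube, G x ^ 2 * f x ^ 2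
      ≤ C * 2940 * (M ^ 2 * (ysq v ^ (1 - th a r) * (ysq v + qsq v) ^ (1 / a)
          * (ysq v + psq v) ^ (2 / r))) := by
    have cGf : CP (fun y => G y ^ 2 * f y ^ 2) := (cG.pow 2).mul (cf.pow 2)
    rw [← int_Hz cGf]
    have cNa : CP fun x => NR r G x ^ (a / r) := cprp (NR_cp hr0.le cG) (by positivity)
    have cAB : CP fun x => A x + B x := cA.add cB
    have k1 : ∫ x in cube, Hz (fun y => G y ^ 2 * f y ^ 2) x
        ≤ ∫ x in cube, (C * (K1 * K2)) * ((NR r G x ^ (a / r)) ^ (2 / a)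
          * (A x + B x) ^ gm a) := by
      refine integral_mono cGf.hz.int (integrableOn_cube ?_) fun x => ?_
      · exact continuous_const.mul ((cNa.cont.rpow_const fun x => Or.inr (by positivity)).mul
          (cAB.cont.rpow_const fun x => Or.inr h.gm_pos.le))
      · have ef : Hz (fun y => G y ^ 2 * f y ^ 2) x = Hz (fun y => fz G x y ^ 2 * f y ^ 2) x :=
          Hz_congr fun z hz => by rw [fz_eq hz]
        have q := hC (fz G x) (fz_cp cG x) (fz_ind G x) (fz_nonneg G0 x) (Nx r G x)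
          (by linarith [Nx_one hr0 G0 x]) (int_fz hr0 cG G0 x) f hf x (A x) (B x) _ le_rfl
          (by simp only [hB]; linarith [b1 x]) (by simp only [hB]; linarith [b0 x]) le_rfl
        rw [← ef, Nx_sq hr0 G0] at q
        refine q.trans ?_
        have q5 : (NR r G x ^ (a / r)) ^ (2 / a) = NR r G x ^ (2 / r) := by
          rw [← Real.rpow_mul (by linarith [NN1 x])]
          congr 1
          field_simp
        have l1 : A x ^ al a r ≤ K1 := Real.rpow_le_rpow (A0 x) (sA x) h.al_pos.le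
        have l2 : Hz (fun y => f y ^ 4) x ^ be a r ≤ K2 :=
          Real.rpow_le_rpow (Hz_nonneg (fun y => (by decide : Even 4).pow_nonneg _) x) (sJ x)
            h.be_pos.le
        have l3 := mul_le_mul l1 l2 (Real.rpow_nonneg
          (Hz_nonneg (fun y => (by decide : Even 4).pow_nonneg _) x) _) hK10
        have l4 := mul_le_mul_of_nonneg_left l3 (by
          have := NN1 x
          have := A0 x
          have := B0 x
          positivity : 0 ≤ C * NR r G x ^ (2 / r) * (A x + B x) ^ gm a)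
        rw [q5]
        linarith
    rw [integral_const_mul] at k1
    have k2 : ∫ x in cube, (A x + B x) ≤ 2 * (ysq v + psq v) := by
      rw [integral_add cA.int cB.int]
      linarith
    have k3 := holN ha (k := fun x => NR r G x ^ (a / r)) cNa.cont
      (fun x => Real.rpow_nonneg (by linarith [NN1 x]) _) cAB.cont
      (fun x => add_nonneg (A0 x) (B0 x)) hM0 hM k2
    have k4 := mul_le_mul_of_nonneg_left k3 (by positivity : 0 ≤ C * (K1 * K2))
    have k5 := ex1 h hy0 hQ0 hπ0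
    rw [← hK1, ← hK2] at k5
    have k6 := mul_le_mul_of_nonneg_left k5 (by positivity : 0 ≤ C * M ^ 2)
    linarith
  have h3 : ∫ x in cube, (v 2 x * f x) ^ 2
      ≤ ∫ x in cube, (2 * (mm v x ^ 2 * f x ^ 2) + 2 * (G x ^ 2 * f x ^ 2)) := by
    have c2 := cp_of (hv 2)
    refine integral_mono ((c2.mul cf).pow 2).int ((((cm.pow 2).mul (cf.pow 2)).cmul 2).add
      (((cG.pow 2).mul (cf.pow 2)).cmul 2)).int fun x => ?_
    have l1 : v 2 x ^ 2 ≤ 2 * mm v x ^ 2 + 2 * G x ^ 2 := by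
      have e : v 2 x = mm v x + bb v x := by
        unfold bb
        ring
      have l2 : bb v x ^ 2 = G x ^ 2 := by
        simp only [hG]
        rw [sq_abs]
      rw [e, ← l2]
      linarith only [sq_nonneg (mm v x - bb v x)]
    have := mul_le_mul_of_nonneg_right l1 (sq_nonneg (f x))
    simp only
    rw [mul_pow]
    linarith
  rw [integral_add (((cm.pow 2).mul (cf.pow 2)).cmul 2).int (((cG.pow 2).mul (cf.pow 2)).cmul 2).int,
    integral_const_mul, integral_const_mul] at h3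
  linarith

/-- The pointwise bound for the growth of `hsq`. -/
theorem rate4 {a r E E0 η π y cu W C N Q ε τ ν : ℝ} (hx : Ey a r) (hν : 0 < ν) (hE : 0 ≤ E)
    (hE0 : E ≤ E0) (hη : 0 ≤ η) (hπ : 0 ≤ π) (hy : 0 ≤ y) (hW0 : 0 ≤ W) (hC : 0 ≤ C)
    (hN : 0 < N) (hτ : 0 < τ) (hτ1 : τ ≤ 1) (hε : 0 < ε) (hQ : 0 ≤ Q)
    (hcu : |cu| ≤ 26 * (√W * √π))
    (hW : W ≤ 2 * (E + 2 * (√E * √η)) * (y + 2 * (√y * √(2 * π)))
      + C * (N ^ 2 * (y ^ (1 - th a r) * (y + Q) ^ (1 / a) * (y + π) ^ (2 / r)))) :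
    -(2 * ν * π) - 2 * cu ≤ -(ν * π) + (5408 / ν * (1 + (2 * E0 ^ 2 + 8 * E0))
      + 2 * 10816 ^ 2 / ν ^ 3 * (2 * E0 ^ 2 + 8 * E0) + ν / 4 + ε) * ((1 + η) * y)
      + (2704 / ν * C * (ε ^ (-(1 / a)) * (ν / 4) ^ (-(2 / r)))) ^ bL a r
        * (τ ^ (-(bL a r / a)) * (N ^ sL a r * y)) + ε * τ * Q := by
  set μ : ℝ := E + 2 * (√E * √η) with hμ
  have hE00 : 0 ≤ E0 := hE.trans hE0
  have hμ0 : 0 ≤ μ := by positivity
  have sπ : √π ^ 2 = π := Real.sq_sqrt hπ
  have sW : √W ^ 2 = W := Real.sq_sqrt hW0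
  have sy : √y ^ 2 = y := Real.sq_sqrt hy
  have s2 : √(2 * π) ^ 2 = 2 * π := Real.sq_sqrt (by positivity)
  have h1 : -2 * cu ≤ 52 * (√W * √π) := by
    have := (abs_le.1 hcu).1
    linarith
  have h2 : 52 * (√W * √π) ≤ ν / 4 * π + 2704 / ν * W := by
    have h := yng (ν := ν / 4) (by positivity) 52 (√W) (√π)
    rw [sπ, sW] at h
    refine h.trans (le_of_eq ?_)
    field_simp
    ring
  have h3 := mul_le_mul_of_nonneg_left hW (by positivity : 0 ≤ 2704 / ν)
  -- the mixed term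
  have h4 : 10816 * μ / ν * (√y * √(2 * π)) ≤ ν / 4 * π + 2 * 10816 ^ 2 / ν ^ 3 * μ ^ 2 * y := by
    have h := yng (ν := ν / 8) (by positivity) (10816 * μ / ν) (√y) (√(2 * π))
    rw [s2, sy] at h
    refine h.trans (le_of_eq ?_)
    field_simp
    ring
  -- the term with the second derivatives
  set Q0 : ℝ := 2704 / ν * C * (ε ^ (-(1 / a)) * (ν / 4) ^ (-(2 / r))) with hQ0
  have hQ00 : 0 ≤ Q0 := by positivity
  set κL : ℝ := Q0 ^ bL a r with hκL
  have h5 : 2704 / ν * (C * (N ^ 2 * (y ^ (1 - th a r) * (y + Q) ^ (1 / a)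
      * (y + π) ^ (2 / r)))) ≤ κL * (τ ^ (-(bL a r / a)) * (N ^ sL a r * y))
        + ε * τ * (y + Q) + ν / 4 * (y + π) := by
    have k1 := y3 hx (K := 2704 / ν * C * N ^ 2) (y := y) (q := y + Q) (p := y + π)
      (e1 := ε * τ) (e2 := ν / 4) (by positivity) hy (by linarith) (by linarith)
      (by positivity) (by positivity)
    have e1 : (2704 / ν * C * N ^ 2 * ((ε * τ) ^ (-(1 / a)) * (ν / 4) ^ (-(2 / r)))) ^ bL a r
        = κL * (τ ^ (-(bL a r / a)) * N ^ sL a r) := by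
      have q1 : 2704 / ν * C * N ^ 2 * ((ε * τ) ^ (-(1 / a)) * (ν / 4) ^ (-(2 / r)))
          = Q0 * (τ ^ (-(1 / a)) * N ^ 2) := by
        rw [Real.mul_rpow hε.le hτ.le, hQ0]
        ring
      rw [q1, Real.mul_rpow hQ00 (by positivity),
        Real.mul_rpow (x := τ ^ (-(1 / a))) (y := N ^ 2) (by positivity)
        (by positivity), ← Real.rpow_mul hτ.le, ← Real.rpow_natCast N 2,
        ← Real.rpow_mul hN.le, ← hκL]
      have q2 : -(1 / a) * bL a r = -(bL a r / a) := by ring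
      have q3 : ((2 : ℕ) : ℝ) * bL a r = sL a r := by
        unfold bL sL
        push_cast
        ring
      rw [q2, q3]
    rw [e1] at k1
    refine le_trans (le_of_eq ?_) (k1.trans (le_of_eq ?_))
    · ring
    · ring
  have hμ2 : μ ^ 2 ≤ (2 * E0 ^ 2 + 8 * E0) * (1 + η) := by
    have k1 : μ ^ 2 ≤ 2 * E ^ 2 + 2 * (2 * (√E * √η)) ^ 2 := by
      rw [hμ]
      linarith only [sq_nonneg (E - 2 * (√E * √η))]
    have k2 : (2 * (√E * √η)) ^ 2 = 4 * (E * η) := by
      rw [mul_pow, mul_pow, Real.sq_sqrt hE, Real.sq_sqrt hη]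
      norm_num
    have k3 : E ^ 2 ≤ E0 ^ 2 := pow_le_pow_left₀ hE hE0 2
    have k4 : E * η ≤ E0 * η := mul_le_mul_of_nonneg_right hE0 hη
    have k5 : 0 ≤ E0 ^ 2 * η := by positivity
    rw [k2] at k1
    linarith
  have hμ1 : μ ≤ 1 + μ ^ 2 := by linarith only [sq_nonneg (μ - 1), sq_nonneg μ]
  set b : ℝ := 2 * E0 ^ 2 + 8 * E0 with hb
  have hb0 : 0 ≤ b := by positivity
  have e1 : 2704 / ν * (2 * μ * (y + 2 * (√y * √(2 * π)))
        + C * (N ^ 2 * (y ^ (1 - th a r) * (y + Q) ^ (1 / a) * (y + π) ^ (2 / r))))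
      = 5408 / ν * (μ * y) + 10816 * μ / ν * (√y * √(2 * π))
        + 2704 / ν * (C * (N ^ 2 * (y ^ (1 - th a r) * (y + Q) ^ (1 / a)
          * (y + π) ^ (2 / r)))) := by
    field_simp
    ring
  rw [e1] at h3
  have h7 : μ * y ≤ (1 + b) * ((1 + η) * y) := by
    have l1 : μ ≤ (1 + b) * (1 + η) := by linarith
    have := mul_le_mul_of_nonneg_right l1 hy
    linarith
  have h8 : μ ^ 2 * y ≤ b * ((1 + η) * y) := by
    have := mul_le_mul_of_nonneg_right hμ2 hy
    linarith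
  have h9 := mul_le_mul_of_nonneg_left h7 (by positivity : 0 ≤ 5408 / ν)
  have h10 := mul_le_mul_of_nonneg_left h8 (by positivity : 0 ≤ 2 * 10816 ^ 2 / ν ^ 3)
  have h11 : 0 ≤ ν * π := by positivity
  have h12 : 0 ≤ η * y := by positivity
  have h13 : ε * τ * y ≤ ε * ((1 + η) * y) := by
    have l1 : τ * y ≤ y := mul_le_of_le_one_left hy hτ1
    have l2 := mul_le_mul_of_nonneg_left l1 hε.le
    have l3 : 0 ≤ ε * (η * y) := by positivity
    linarith
  have h14 : ν / 4 * y ≤ ν / 4 * ((1 + η) * y) := by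
    have l3 : 0 ≤ ν / 4 * (η * y) := by positivity
    linarith
  linarith

end Pool.Agent.H4LA
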