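import Pool.Agent.H4LA.En

/-!
The evolution of the integrals of powers of the slice energies.
-/

set_option autoImplicit false
set_option linter.unusedVariables false

open MeasureTheory Set Function Filter Topology
open scoped ENNReal ContDiff

namespace Pool.Agent.H4LA

open H459R3.NS

variable {ν T : ℝ} {u : ℝ → V → V} {p : ℝ → V → ℝ}

/-- The equation for the pressure. -/
theorem press_eq (h : IsSol ν T u p) {t : ℝ} (ht : t ∈ Ioo 0 T) (x : V) :
    -lap (p t) x = ∑ i, pd i (conv (fun i y => u t y i) i) x := by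
  have hI : t ∈ Ico 0 T := ⟨ht.1.le, ht.2⟩
  have hsp : ∀ i, SP (fun y => u t y i) := fun i => h.sp hI i
  have hdiv := h.divfree t hI
  have e1 : ∀ i, pd i (dt (fun s y => u s y i) t) x = dt (fun s => pd i (fun y => u s y i)) t x :=
    fun i => (dt_pd (f := fun s y => u s y i) (h.smooth_c i) ht i x).symm
  have e2 : ∑ i, pd i (dt (fun s y => u s y i) t) x = 0 := by
    simp_rw [e1]
    unfold dt
    have hd : ∀ i ∈ (Finset.univ : Finset (Fin 3)), DifferentiableAt ℝ
        (fun s => pd i (fun y => u s y i) x) t := by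
      intro i _
      have h2 := contDiffOn_pd (f := fun s y => u s y i) (h.smooth_c i) i
      exact (hasDerivAt_slice (F := fun s => pd i (fun y => u s y i))
        (mono_Ioo (f := fun s => pd i (fun y => u s y i)) h2 (by norm_cast)) ht x).differentiableAt
    rw [← deriv_fun_sum hd]
    have h3 : (fun s => ∑ i, pd i (fun y => u s y i) x) =ᶠ[nhds t] fun _ => 0 := by
      filter_upwards [Ioo_mem_nhds ht.1 ht.2] with s hs
      exact h.divfree s ⟨hs.1.le, hs.2⟩ x
    rw [h3.deriv_eq]
    simp
  have e3 : ∀ i, pd i (dt (fun s y => u s y i) t) x = ν * pd i (lap (fun y => u t y i)) x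
      - pd i (conv (fun i y => u t y i) i) x - pd i (pd i (p t)) x := by
    intro i
    have h1 : dt (fun s y => u s y i) t = fun x => ν * lap (fun y => u t y i) x
      - conv (fun i y => u t y i) i x - pd i (p t) x := by
      funext y
      rw [h.dt_eq ht i y]
    rw [h1]
    have s1 : SP (fun x => ν * lap (fun y => u t y i) x) := (hsp i).lap.cmulf ν
    have s2 : SP (conv (fun i y => u t y i) i) := sp_conv hsp i
    have s3 := (h.sp_p hI).pd i
    rw [pd_subf (s1.sub s2) s3, pd_subf s1 s2, pd_cmulf (hsp i).lap]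
  have e4 := div_lap (v := fun i y => u t y i) hsp hdiv x
  have e5 : ∑ i, pd i (dt (fun s y => u s y i) t) x = ν * ∑ i, pd i (lap (fun y => u t y i)) x
      - ∑ i, pd i (conv (fun i y => u t y i) i) x - ∑ i, pd i (pd i (p t)) x := by
    rw [Finset.sum_congr rfl fun i _ => e3 i, Finset.sum_sub_distrib, Finset.sum_sub_distrib,
      Finset.mul_sum]
  rw [e2, e4] at e5
  have e6 : lap (p t) x = ∑ i, pd i (pd i (p t)) x := rfl
  linarith

theorem js_u (h : IsSol ν T u p) (i : Fin 3) : JS T (fun t y => u t y i) := by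
  unfold JS
  exact mono_Ioo (f := fun s y => u s y i) (h.smooth_c i) le_rfl

theorem js_mm (h : IsSol ν T u p) : JS T (fun t => mm (fun i y => u t y i)) :=
  (js_av_aux (js_u h 2) 2).1

theorem js_bb (h : IsSol ν T u p) : JS T (fun t => bb (fun i y => u t y i)) :=
  (js_u h 2).sub (js_mm h)

theorem js_ww (h : IsSol ν T u p) (i : Fin 3) : JS T (fun t => ww (fun i y => u t y i) i) := by
  fin_cases i
  · exact js_u h 0
  · exact js_u h 1
  · exact js_bb h

theorem js_W (h : IsSol ν T u p) : JS T (fun t => vsq (ww (fun i y => u t y i))) :=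
  JS.sum fun i _ => (js_ww h i).pow 2

/-- The slice energy. -/
noncomputable def se (u : ℝ → V → V) (t : ℝ) : V → ℝ := Hz (vsq (ww (fun i y => u t y i)))

theorem js_se (h : IsSol ν T u p) : JS T (se u) := by
  have h1 := (js_av_aux (js_W h) 1).1
  exact (js_av_aux h1 0).1

theorem dt_ww (h : IsSol ν T u p) {t : ℝ} (ht : t ∈ Ioo 0 T) (i : Fin 3) (x : V) :
    dt (fun t => ww (fun i y => u t y i) i) t x
      = sb (fun i => dt (fun s y => u s y i) t) i x := by
  fin_cases i
  · rfl
  · rfl
  · show dt (fun t => bb (fun i y => u t y i)) t x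
      = dt (fun s y => u s y 2) t x - Av 2 (dt (fun s y => u s y 2) t) x
    have h1 := (js_u h 2).hasDerivAt ht x
    have h2 := (js_mm h).hasDerivAt ht x
    have h3 := h1.sub h2
    have h4 : dt (fun t => mm (fun i y => u t y i)) t x = Av 2 (dt (fun s y => u s y 2) t) x :=
      (js_av_aux (js_u h 2) 2).2 t ht x
    rw [← h4]
    exact h3.deriv

theorem dt_W (h : IsSol ν T u p) {t : ℝ} (ht : t ∈ Ioo 0 T) (x : V) :
    dt (fun t => vsq (ww (fun i y => u t y i))) t x
      = 2 * ∑ i, ww (fun i y => u t y i) i x * sb (fun i => dt (fun s y => u s y i) t) i x := by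
  have h1 : HasDerivAt (fun s => ∑ i, ww (fun i y => u s y i) i x ^ 2)
      (∑ i, (2 : ℕ) * ww (fun i y => u t y i) i x ^ (2 - 1)
        * dt (fun t => ww (fun i y => u t y i) i) t x) t :=
    HasDerivAt.fun_sum fun i _ => ((js_ww h i).hasDerivAt ht x).pow 2
  have h2 : dt (fun t => vsq (ww (fun i y => u t y i))) t x = _ := h1.deriv
  rw [h2, Finset.mul_sum]
  refine Finset.sum_congr rfl fun i _ => ?_
  rw [dt_ww h ht]
  push_cast
  ring

theorem sb_sp {F : Fin 3 → V → ℝ} (hF : ∀ i, SP (F i)) (i : Fin 3) : SP (sb F i) := by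
  fin_cases i
  · exact hF 0
  · exact hF 1
  · exact (hF 2).sub (av_sp (hF 2) 2)

theorem dt_se (h : IsSol ν T u p) {t : ℝ} (ht : t ∈ Ioo 0 T) (x : V) :
    dt (se u) t x = Hz (fun x => 2 * ∑ i, ww (fun i y => u t y i) i x
      * sb (fun i => dt (fun s y => u s y i) t) i x) x := by
  have h1 := (js_av_aux (js_W h) 1)
  have h2 := (js_av_aux h1.1 0).2 t ht x
  have e1 : dt (fun t => Av 1 (vsq (ww (fun i y => u t y i)))) t
      = Av 1 (dt (fun t => vsq (ww (fun i y => u t y i))) t) := funext fun y => h1.2 t ht y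
  rw [e1] at h2
  have e2 : dt (fun t => vsq (ww (fun i y => u t y i))) t
      = fun x => 2 * ∑ i, ww (fun i y => u t y i) i x
        * sb (fun i => dt (fun s y => u s y i) t) i x := funext fun y => dt_W h ht y
  rw [e2] at h2
  exact h2

/-- The time derivative of the integral of a power of the slice energy. -/
theorem Y_hasDerivAt (h : IsSol ν T u p) {t : ℝ} (ht : t ∈ Ioo 0 T) (q : ℕ) :
    HasDerivAt (fun s => ∫ x in cube, se u s x ^ q)
      (2 * q * ∫ x in cube, Hz (vsq (ww (fun i y => u t y i))) x ^ (q - 1)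
        * ∑ i, ww (fun i y => u t y i) i x * sb (fun i => dt (fun s y => u s y i) t) i x) t := by
  have hI : t ∈ Ico 0 T := ⟨ht.1.le, ht.2⟩
  set v : Fin 3 → V → ℝ := fun i y => u t y i with hv
  have hsp : ∀ i, SP (v i) := fun i => h.sp hI i
  have hF : ∀ i, SP (dt (fun s y => u s y i) t) := fun i => h.sp_dt ht i
  have hw := ww_sp hsp
  have hsb := sb_sp hF
  have sS : SP (fun x => ∑ i, ww v i x * sb (fun i => dt (fun s y => u s y i) t) i x) :=
    SP.sum fun i _ => (hw i).mul (hsb i)
  have key := hasDerivAt_int (F := fun s x => se u s x ^ q) ((js_se h).pow q |>.of_le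
    (by norm_cast)) ht
  refine key.congr_deriv ?_
  have e1 : ∀ x, deriv (fun s => se u s x ^ q) t
      = (2 * q) * (Hz (vsq (ww v)) x ^ (q - 1)
        * Hz (fun x => ∑ i, ww v i x * sb (fun i => dt (fun s y => u s y i) t) i x) x) := by
    intro x
    have h1 : HasDerivAt (fun s => se u s x ^ q) _ t := ((js_se h).hasDerivAt ht x).pow q
    rw [h1.deriv, dt_se h ht, Hz_cmul]
    unfold se
    ring
  simp_rw [e1]
  rw [integral_const_mul]
  congr 1
  have cw : CP (Hz (vsq (ww v))) := (cp_of (vsq_sp hw)).hz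
  exact int_mul_Hz (cp_of sS) (cw.pow _) ((i01_hz _).powr _)

end Pool.Agent.H4LA
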