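import Pool.Agent.H4LA.Smo

/-!
The pressure multiplied by a function of the horizontal coordinates: the part of the kernel at
positive distance.
-/

set_option autoImplicit false
set_option linter.unusedVariables false

open MeasureTheory Set Function Filter Topology
open scoped ENNReal ContDiff

namespace Pool.Agent.H4LA

open H459R3.NS

/-- The slice integrals of the product with the averages over cubes. -/
noncomputable def QG (G φ : V → ℝ) (ρ : ℝ) (x : V) : ℝ := Hz (fun z => G z * BA φ ρ z) x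

theorem QG_cont2 {G φ : V → ℝ} (cG : CP G) (hφ : CP φ) :
    Continuous fun q : V × ℝ => QG G φ q.2 q.1 :=
  Hz_cont2 (F := fun q => G q.1 * BA φ q.2 q.1)
    ((cG.cont.comp continuous_fst).mul (BA_cont hφ.cont))

theorem QG_cp {G φ : V → ℝ} (cG : CP G) (hφ : CP φ) (ρ : ℝ) : CP (QG G φ ρ) :=
  (cG.mul (BA_cp hφ ρ)).hz

theorem QG_nonneg {G φ : V → ℝ} (G0 : ∀ x, 0 ≤ G x) (h0 : ∀ x, 0 ≤ φ x) (ρ : ℝ) (x : V) :
    0 ≤ QG G φ ρ x :=
  Hz_nonneg (fun z => mul_nonneg (G0 z) (BA_nonneg h0 ρ z)) x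

section field

variable {v : Fin 3 → V → ℝ} (hv : ∀ i, SP (v i))

include hv in
theorem Hz_ga_le (x : V) : Hz (ga v) x ≤ 2 * Hz (ga (ww v)) x + 4 * ysq v := by
  have hw := ww_sp hv
  have sm := mm_sp hv
  have h1 : Hz (ga v) x ≤ Hz (fun y => 2 * ga (ww v) y
      + (2 * pd 0 (mm v) y ^ 2 + 2 * pd 1 (mm v) y ^ 2)) x := by
    apply Hz_mono (cp_of (ga_sp hv)) (((cp_of (ga_sp hw)).cmul 2).add
      ((((cp_of (sm.pd 0)).pow 2).cmul 2).add (((cp_of (sm.pd 1)).pow 2).cmul 2)))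
    intro y
    have e3 : ∀ j, pd j (v 2) y = pd j (bb v) y + pd j (mm v) y := by
      intro j
      have := pd_subf (hv 2) (mm_sp hv) j y
      have e : pd j (bb v) y = pd j (v 2) y - pd j (mm v) y := this
      rw [e]
      ring
    have e4 := pd2_mm hv y
    unfold ga
    simp only [Fin.sum_univ_three, e3, e4]
    show pd 0 (v 0) y ^ 2 + pd 1 (v 0) y ^ 2 + pd 2 (v 0) y ^ 2
      + (pd 0 (v 1) y ^ 2 + pd 1 (v 1) y ^ 2 + pd 2 (v 1) y ^ 2)
      + ((pd 0 (bb v) y + pd 0 (mm v) y) ^ 2 + (pd 1 (bb v) y + pd 1 (mm v) y) ^ 2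
        + (pd 2 (bb v) y + 0) ^ 2) ≤ 2 * (pd 0 (v 0) y ^ 2 + pd 1 (v 0) y ^ 2 + pd 2 (v 0) y ^ 2
      + (pd 0 (v 1) y ^ 2 + pd 1 (v 1) y ^ 2 + pd 2 (v 1) y ^ 2)
      + (pd 0 (bb v) y ^ 2 + pd 1 (bb v) y ^ 2 + pd 2 (bb v) y ^ 2)) + _
    nlinarith [sq_nonneg (pd 0 (bb v) y - pd 0 (mm v) y), sq_nonneg (pd 1 (bb v) y - pd 1 (mm v) y),
      sq_nonneg (pd 0 (v 0) y), sq_nonneg (pd 1 (v 0) y), sq_nonneg (pd 2 (v 0) y),
      sq_nonneg (pd 0 (v 1) y), sq_nonneg (pd 1 (v 1) y), sq_nonneg (pd 2 (v 1) y),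
      sq_nonneg (pd 2 (bb v) y)]
  rw [Hz_add ((cp_of (ga_sp hw)).cmul 2)
    ((((cp_of (sm.pd 0)).pow 2).cmul 2).add (((cp_of (sm.pd 1)).pow 2).cmul 2)),
    Hz_add (((cp_of (sm.pd 0)).pow 2).cmul 2) (((cp_of (sm.pd 1)).pow 2).cmul 2), Hz_cmul, Hz_cmul,
    Hz_cmul] at h1
  have h2 := Hz_pd_mm_le hv mem0 x
  have h3 := Hz_pd_mm_le hv mem1 x
  have h4 := hsq_le_ysq v
  linarith

theorem add_pow_le' {a b : ℝ} (ha : 0 ≤ a) (hb : 0 ≤ b) (n : ℕ) :
    (a + b) ^ n ≤ 2 ^ n * (a ^ n + b ^ n) := by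
  rcases le_total a b with h | h
  · have l1 : a + b ≤ 2 * b := by linarith
    have l2 := pow_le_pow_left₀ (by positivity) l1 n
    rw [mul_pow] at l2
    have : 0 ≤ 2 ^ n * a ^ n := by positivity
    linarith
  · have l1 : a + b ≤ 2 * a := by linarith
    have l2 := pow_le_pow_left₀ (by positivity) l1 n
    rw [mul_pow] at l2
    have : 0 ≤ 2 ^ n * b ^ n := by positivity
    linarith

end field

end Pool.Agent.H4LA
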