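import Pool.Agent.H4LA.Pre

/-!
The pressure: bounds for integrals over slices and for weighted integrals of their squares.
-/

set_option autoImplicit false
set_option linter.unusedVariables false

open MeasureTheory Set Function Filter Topology
open scoped ENNReal ContDiff

namespace Pool.Agent.H4LA

open H459R3.NS

theorem Av_int_r {F : V × ℝ → ℝ} (hF : Continuous F) (j : Fin 3) (a b : ℝ) (x : V) :
    Av j (fun z => ∫ r in Icc a b, F (z, r)) x = ∫ r in Icc a b, Av j (fun z => F (z, r)) x := by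
  unfold Av
  have hc : Continuous fun q : ℝ × ℝ => F (update x j q.1, q.2) :=
    hF.comp (((cont_update x j).comp continuous_fst).prodMk continuous_snd)
  exact swap (μ := (volume : Measure ℝ)) (ν := (volume : Measure ℝ)) isCompact_Icc isCompact_Icc hc

theorem BA_cp {φ : V → ℝ} (hφ : CP φ) (r : ℝ) : CP (BA φ r) where
  cont := (BA_cont hφ.cont).comp (by fun_prop : Continuous fun x : V => (x, r))
  per := fun i x => by
    unfold BA
    congr 1
    funext y
    have : x + Pi.single i 1 + r • y = x + r • y + Pi.single i 1 := by abel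
    rw [this, hφ.per]

/-- The integral over `r` as a function of the point. -/
noncomputable def IR (w : ℝ → ℝ) (φ : V → ℝ) (a b : ℝ) (x : V) : ℝ :=
  ∫ r in Icc a b, w r * BA φ r x

theorem IR_cont_aux {w : ℝ → ℝ} {φ : V → ℝ} (hw : Continuous w) (hφ : Continuous φ) :
    Continuous fun z : V × ℝ => w z.2 * BA φ z.2 z.1 :=
  (hw.comp continuous_snd).mul (BA_cont hφ)

theorem IR_cp {w : ℝ → ℝ} {φ : V → ℝ} (hw : Continuous w) (hφ : CP φ) (a b : ℝ) :
    CP (IR w φ a b) where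
  cont := by
    unfold IR
    exact continuous_parametric_integral_of_continuous (IR_cont_aux hw hφ.cont) isCompact_Icc
  per := fun i x => by
    unfold IR
    congr 1
    funext r
    rw [(BA_cp hφ r).per]

/-- The Cauchy-Schwarz inequality with a weight. -/
theorem wcs {w b : ℝ → ℝ} (hw : Continuous w) (hb : Continuous b) (w0 : ∀ r, 0 ≤ w r) (α β : ℝ) :
    (∫ r in Icc α β, w r * b r) ^ 2
      ≤ (∫ r in Icc α β, w r) * ∫ r in Icc α β, w r * b r ^ 2 := by
  have h := integral_mul_sq_le (μ := volume.restrict (Icc α β)) (a := fun r => √(w r))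
    (b := fun r => √(w r) * b r)
    ((hw.sqrt.pow 2).continuousOn.integrableOn_Icc)
    (((hw.sqrt.mul hb).pow 2).continuousOn.integrableOn_Icc)
    ((hw.sqrt.mul (hw.sqrt.mul hb)).continuousOn.integrableOn_Icc)
  have e1 : ∀ r, √(w r) * (√(w r) * b r) = w r * b r := by
    intro r
    rw [← mul_assoc, Real.mul_self_sqrt (w0 r)]
  have e2 : ∀ r, √(w r) ^ 2 = w r := fun r => Real.sq_sqrt (w0 r)
  have e3 : ∀ r, (√(w r) * b r) ^ 2 = w r * b r ^ 2 := by
    intro r
    rw [mul_pow, Real.sq_sqrt (w0 r)]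
  simp only [e1, e2, e3] at h
  exact h

theorem pow_mix {a b : ℝ} (ha : 0 ≤ a) (hb : 0 ≤ b) {q : ℕ} (hq : 2 ≤ q) :
    a ^ (q - 2) * b ^ 2 ≤ a ^ q + b ^ q := by
  rcases le_total a b with h | h
  · have h1 : a ^ (q - 2) * b ^ 2 ≤ b ^ (q - 2) * b ^ 2 :=
      mul_le_mul_of_nonneg_right (pow_le_pow_left₀ ha h _) (sq_nonneg _)
    rw [← pow_add] at h1
    have e : q - 2 + 2 = q := by omega
    rw [e] at h1
    have := pow_nonneg ha q
    linarith
  · have h1 : a ^ (q - 2) * b ^ 2 ≤ a ^ (q - 2) * a ^ 2 :=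
      mul_le_mul_of_nonneg_left (pow_le_pow_left₀ hb h _) (pow_nonneg ha _)
    rw [← pow_add] at h1
    have e : q - 2 + 2 = q := by omega
    rw [e] at h1
    have := pow_nonneg hb q
    linarith

theorem int_inv {ε : ℝ} (hε : ε ∈ Ioc (0 : ℝ) 1) :
    ∫ r in Icc ε 1, (max r ε)⁻¹ = Real.log (1 / ε) := by
  have e1 : ∫ r in Icc ε 1, (max r ε)⁻¹ = ∫ r in Icc ε 1, r⁻¹ := by
    refine setIntegral_congr_fun measurableSet_Icc fun r hr => ?_
    show (max r ε)⁻¹ = r⁻¹
    rw [max_eq_left hr.1]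
  rw [e1, integral_Icc_eq_integral_Ioc, ← intervalIntegral.integral_of_le hε.2,
    integral_inv_of_pos hε.1 one_pos]

theorem near_slice {v : Fin 3 → V → ℝ} (hv : ∀ i, SP (v i)) (x : V) :
    Hz (hh v) x ^ 2 ≤ 3 * (Hz (vsq v) x * Hz (ga v) x) := by
  have cv : CP (vsq v) := cp_of (vsq_sp hv)
  have cg : CP (ga v) := cp_of (ga_sp hv)
  have h1 : ∀ y, hh v y ≤ √3 * (√(vsq v y) * √(ga v y)) := by
    intro y
    have h2 : ∀ i, |conv v i y| ≤ √(vsq v y) * √(∑ j, pd j (v i) y ^ 2) := by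
      intro i
      rw [← Real.sqrt_mul (vsq_nonneg v y)]
      apply Real.abs_le_sqrt
      unfold conv vsq
      exact Finset.sum_mul_sq_le_sq_mul_sq _ _ _
    have h3 : hh v y ≤ √(vsq v y) * ∑ i, √(∑ j, pd j (v i) y ^ 2) := by
      unfold hh
      rw [Finset.mul_sum]
      exact Finset.sum_le_sum fun i _ => h2 i
    have h4 : ∑ i, √(∑ j, pd j (v i) y ^ 2) ≤ √3 * √(ga v y) := by
      rw [← Real.sqrt_mul (by norm_num)]
      apply Real.le_sqrt_of_sq_le
      have h5 := sq_sum_le_card_mul_sum_sq (s := (Finset.univ : Finset (Fin 3)))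
        (f := fun i => √(∑ j, pd j (v i) y ^ 2))
      have e : ∑ i, √(∑ j, pd j (v i) y ^ 2) ^ 2 = ga v y := by
        unfold ga
        refine Finset.sum_congr rfl fun i _ => ?_
        exact Real.sq_sqrt (Finset.sum_nonneg fun j _ => sq_nonneg _)
      rw [e] at h5
      simpa using h5
    calc hh v y ≤ √(vsq v y) * (√3 * √(ga v y)) :=
          h3.trans (mul_le_mul_of_nonneg_left h4 (Real.sqrt_nonneg _))
      _ = √3 * (√(vsq v y) * √(ga v y)) := by ring
  have h2 : Hz (hh v) x ≤ √3 * Hz (fun y => √(vsq v y) * √(ga v y)) x := by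
    rw [← Hz_cmul]
    exact Hz_mono (hh_cp hv) ((cv.sqrt.mul cg.sqrt).cmul _) h1 x
  have h3 := Hz_cs cv.sqrt cg.sqrt x
  have e1 : (fun y => √(vsq v y) ^ 2) = vsq v := funext fun y => Real.sq_sqrt (vsq_nonneg v y)
  have e2 : (fun y => √(ga v y) ^ 2) = ga v := funext fun y => Real.sq_sqrt (ga_nonneg y)
  rw [e1, e2] at h3
  have h4 : Hz (hh v) x ≤ √3 * (√(Hz (vsq v) x) * √(Hz (ga v) x)) :=
    h2.trans (mul_le_mul_of_nonneg_left ((le_abs_self _).trans h3) (Real.sqrt_nonneg _))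
  have h5 := pow_le_pow_left₀ (Hz_nonneg (hh_nonneg (v := v)) x) h4 2
  have e3 : (√3 * (√(Hz (vsq v) x) * √(Hz (ga v) x))) ^ 2
      = 3 * (Hz (vsq v) x * Hz (ga v) x) := by
    rw [mul_pow, mul_pow, Real.sq_sqrt (by norm_num), Real.sq_sqrt (Hz_nonneg (vsq_nonneg v) x),
      Real.sq_sqrt (Hz_nonneg ga_nonneg x)]
  rwa [e3] at h5

end Pool.Agent.H4LA
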