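import Pool.Agent.H4LA.En
import Pool.Agent.H4LA.Psl

/-!
Averages over segments, and the smoothing effect of averages over squares in the horizontal
directions.
-/

set_option autoImplicit false
set_option linter.unusedVariables false

open MeasureTheory Set Function Filter Topology
open scoped ENNReal ContDiff

namespace Pool.Agent.H4LA

open H459R3.NS

/-- Lebesgue measure on `[-1, 1]`. -/
noncomputable def m2 : Measure ℝ := volume.restrict (Icc (-1 : ℝ) 1)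

instance : IsFiniteMeasure m2 := ⟨by simp [m2]⟩

theorem restrict_Qb : (volume : Measure V).restrict Qb = Measure.pi fun _ => m2 := by
  have h : (Qb : Set V) = Set.pi univ fun _ => Icc (-1 : ℝ) 1 := by
    ext x
    simp only [Qb, mem_Icc, Set.mem_pi, mem_univ, true_implies, Pi.le_def, Pi.neg_apply,
      Pi.one_apply]
    exact ⟨fun h i => ⟨h.1 i, h.2 i⟩, fun h => ⟨fun i => (h i).1, fun i => (h i).2⟩⟩
  rw [h, volume_pi, Measure.restrict_pi_pi]
  rfl

theorem Q_eq {f : V → ℝ≥0∞} (hf : Measurable f) :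
    ∫⁻ y in Qb, f y
      = ∫⁻ s, ∫⁻ r, ∫⁻ q, f (update (update (update 0 2 s) 0 r) 1 q) ∂m2 ∂m2 ∂m2 := by
  have hu : (Finset.univ : Finset (Fin 3)) = insert 2 (insert 0 {1}) := by decide
  have h1 : lmarginal (fun _ : Fin 3 => m2) Finset.univ f 0 = ∫⁻ y in Qb, f y := by
    rw [lmarginal_univ, restrict_Qb]
  rw [← h1, hu, lmarginal_insert f hf (by decide)]
  refine lintegral_congr fun s => ?_
  rw [lmarginal_insert f hf (by decide)]
  refine lintegral_congr fun r => ?_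
  rw [lmarginal_singleton]

theorem cont_single (j : Fin 3) : Continuous fun s : ℝ => (Pi.single j s : V) := by
  have : (fun s : ℝ => (Pi.single j s : V)) = fun s => update (0 : V) j s := rfl
  rw [this]
  exact cont_update 0 j

/-- The integral over a segment in the direction `j`. -/
noncomputable def BB (j : Fin 3) (ρ : ℝ) (ψ : V → ℝ) (z : V) : ℝ :=
  ∫ s in Icc (-1 : ℝ) 1, ψ (z + Pi.single j (ρ * s))

theorem BB_line_cont {ψ : V → ℝ} (hψ : Continuous ψ) (j : Fin 3) (ρ : ℝ) (z : V) :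
    Continuous fun s : ℝ => ψ (z + Pi.single j (ρ * s)) :=
  hψ.comp (continuous_const.add ((cont_single j).comp (continuous_const.mul continuous_id)))

theorem BB_intOn {ψ : V → ℝ} (hψ : Continuous ψ) (j : Fin 3) (ρ : ℝ) (z : V) :
    IntegrableOn (fun s : ℝ => ψ (z + Pi.single j (ρ * s))) (Icc (-1) 1) :=
  (BB_line_cont hψ j ρ z).continuousOn.integrableOn_Icc

theorem BB_cont2 {ψ : V × ℝ → ℝ} (hψ : Continuous ψ) (j : Fin 3) :
    Continuous fun q : V × ℝ => BB j q.2 (fun z => ψ (z, q.2)) q.1 := by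
  unfold BB
  apply continuous_parametric_integral_of_continuous _ isCompact_Icc
  refine hψ.comp (Continuous.prodMk ?_ (by fun_prop))
  exact (by fun_prop : Continuous fun q : (V × ℝ) × ℝ => q.1.1).add
    ((cont_single j).comp (by fun_prop))

theorem BB_cont {ψ : V → ℝ} (hψ : Continuous ψ) (j : Fin 3) (ρ : ℝ) : Continuous (BB j ρ ψ) :=
  (BB_cont2 (ψ := fun q => ψ q.1) (hψ.comp continuous_fst) j).comp
    (by fun_prop : Continuous fun x : V => (x, ρ))

theorem BB_cp {ψ : V → ℝ} (hψ : CP ψ) (j : Fin 3) (ρ : ℝ) : CP (BB j ρ ψ) where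
  cont := BB_cont hψ.cont j ρ
  per := fun i x => by
    unfold BB
    congr 1
    funext s
    have : x + Pi.single i 1 + Pi.single j (ρ * s) = x + Pi.single j (ρ * s) + Pi.single i 1 := by
      abel
    rw [this, hψ.per]

theorem BB_nonneg {ψ : V → ℝ} (h : ∀ x, 0 ≤ ψ x) (j : Fin 3) (ρ : ℝ) (z : V) : 0 ≤ BB j ρ ψ z :=
  integral_nonneg fun _ => h _

theorem BB_mono {φ ψ : V → ℝ} (hφ : Continuous φ) (hψ : Continuous ψ) (h : ∀ x, φ x ≤ ψ x)
    (j : Fin 3) (ρ : ℝ) (z : V) : BB j ρ φ z ≤ BB j ρ ψ z :=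
  integral_mono (BB_intOn hφ j ρ z) (BB_intOn hψ j ρ z) fun _ => h _

theorem BB_cmul (c : ℝ) (φ : V → ℝ) (j : Fin 3) (ρ : ℝ) (z : V) :
    BB j ρ (fun y => c * φ y) z = c * BB j ρ φ z := by
  unfold BB
  rw [integral_const_mul]

theorem BB_add {φ ψ : V → ℝ} (hφ : Continuous φ) (hψ : Continuous ψ) (j : Fin 3) (ρ : ℝ) (z : V) :
    BB j ρ (fun y => φ y + ψ y) z = BB j ρ φ z + BB j ρ ψ z :=
  integral_add (BB_intOn hφ j ρ z) (BB_intOn hψ j ρ z)

theorem BB_const (c : ℝ) (j : Fin 3) (ρ : ℝ) (z : V) : BB j ρ (fun _ => c) z = 2 * c := by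
  unfold BB
  rw [setIntegral_const, Measure.real, Real.volume_Icc]
  norm_num

theorem ind_add {j : Fin 3} {ψ : V → ℝ} (h : Ind j ψ) (z : V) (s : ℝ) :
    ψ (z + Pi.single j s) = ψ z := by
  have : z + Pi.single j s = update z j (z j + s) := by
    funext k
    by_cases hk : k = j
    · subst hk; simp
    · simp [hk]
  rw [this, h]

theorem BB_of_ind {j : Fin 3} {ψ : V → ℝ} (h : Ind j ψ) (ρ : ℝ) (z : V) :
    BB j ρ ψ z = 2 * ψ z := by
  unfold BB
  simp_rw [ind_add h]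
  rw [setIntegral_const, Measure.real, Real.volume_Icc]
  norm_num

theorem BB_sq {φ : V → ℝ} (hφ : Continuous φ) (j : Fin 3) (ρ : ℝ) (z : V) :
    BB j ρ φ z ^ 2 ≤ 2 * BB j ρ (fun y => φ y ^ 2) z := by
  set b : ℝ → ℝ := fun s => φ (z + Pi.single j (ρ * s)) with hb
  have i1 : Integrable b (volume.restrict (Icc (-1 : ℝ) 1)) := BB_intOn hφ j ρ z
  have i2 : Integrable (fun s => b s ^ 2) (volume.restrict (Icc (-1 : ℝ) 1)) :=
    BB_intOn (ψ := fun y => φ y ^ 2) (hφ.pow 2) j ρ z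
  have h := integral_mul_sq_le (μ := volume.restrict (Icc (-1 : ℝ) 1)) (a := fun _ : ℝ => (1 : ℝ))
    (b := b) (by simp) i2 (by simpa only [one_mul] using i1)
  simp only [one_mul, one_pow] at h
  have e : ∫ y in Icc (-1 : ℝ) 1, (1 : ℝ) = 2 := by
    have := BB_const 1 j ρ z
    unfold BB at this
    rw [this]
    norm_num
  rw [e] at h
  exact h

theorem BB_le {ψ : V → ℝ} (hψ : CP ψ) (h0 : ∀ x, 0 ≤ ψ x) (j : Fin 3) {ρ : ℝ}
    (hρ : ρ ∈ Ioc (0 : ℝ) 1) (z : V) : BB j ρ ψ z ≤ 2 * ρ⁻¹ * Av j ψ z := by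
  set φ : ℝ → ℝ := fun s => ψ (update z j s) with hφ
  have cφ : Continuous φ := hψ.cont.comp (cont_update z j)
  have φ0 : ∀ s, 0 ≤ φ s := fun s => h0 _
  have pφ : Function.Periodic φ 1 := by
    intro s
    have : update z j (s + 1) = update z j s + Pi.single j 1 := by
      funext k
      by_cases hk : k = j
      · subst hk; simp
      · simp [hk]
    simp only [hφ, this]
    exact hψ.per j _
  have e1 : BB j ρ ψ z = ∫ s in (-1 : ℝ)..1, φ (z j + ρ * s) := by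
    unfold BB
    rw [intervalIntegral.integral_of_le (by norm_num), ← integral_Icc_eq_integral_Ioc]
    congr 1
    funext s
    simp only [hφ]
    congr 1
    funext k
    by_cases hk : k = j
    · subst hk; simp
    · simp [hk]
  rw [e1, intervalIntegral.integral_comp_add_mul φ hρ.1.ne' (z j), smul_eq_mul]
  have e2 : ∫ s in (z j + ρ * -1)..(z j + ρ * 1), φ s ≤ ∫ s in (z j - 1)..(z j + 1), φ s := by
    rw [intervalIntegral.integral_of_le (by linarith [hρ.1]),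
      intervalIntegral.integral_of_le (by linarith)]
    refine setIntegral_mono_set (cφ.intervalIntegrable _ _).1 ?_ ?_
    · exact Filter.Eventually.of_forall φ0
    · exact Filter.Eventually.of_forall (Ioc_subset_Ioc (by linarith [hρ.2]) (by linarith [hρ.2]))
  have e3 : ∫ s in (z j - 1)..(z j + 1), φ s = 2 * Av j ψ z := by
    rw [← intervalIntegral.integral_add_adjacent_intervals
      (cφ.intervalIntegrable (z j - 1) (z j)) (cφ.intervalIntegrable (z j) (z j + 1))]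
    have k1 := pφ.intervalIntegral_add_eq (z j - 1) 0
    have k2 := pφ.intervalIntegral_add_eq (z j) 0
    rw [sub_add_cancel] at k1
    rw [k1, k2, Av_eq]
    simp only [zero_add, hφ]
    ring
  have h4 : 0 ≤ ρ⁻¹ := inv_nonneg.2 hρ.1.le
  rw [e3] at e2
  have := mul_le_mul_of_nonneg_left e2 h4
  linarith

/-- Commutation with integrals over parameters. -/
theorem Hz_int_r {F : V × ℝ → ℝ} (hF : Continuous F) (a b : ℝ) (x : V) :
    Hz (fun z => ∫ r in Icc a b, F (z, r)) x = ∫ r in Icc a b, Hz (fun z => F (z, r)) x := by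
  unfold Hz
  have e1 : Av 1 (fun z => ∫ r in Icc a b, F (z, r))
      = fun z => ∫ r in Icc a b, Av 1 (fun z => F (z, r)) z := funext fun y => Av_int_r hF 1 a b y
  rw [e1]
  have hF1 : Continuous fun q : V × ℝ => Av 1 (fun z => F (z, q.2)) q.1 := by
    unfold Av
    apply continuous_parametric_integral_of_continuous _ isCompact_Icc
    refine hF.comp (Continuous.prodMk ?_ (by fun_prop))
    exact Continuous.update (by fun_prop) 1 continuous_snd
  exact Av_int_r hF1 0 a b x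

theorem Hz_cont2 {F : V × ℝ → ℝ} (hF : Continuous F) :
    Continuous fun q : V × ℝ => Hz (fun z => F (z, q.2)) q.1 := by
  have h1 : ∀ (j : Fin 3) {F : V × ℝ → ℝ}, Continuous F →
      Continuous fun q : V × ℝ => Av j (fun z => F (z, q.2)) q.1 := by
    intro j F hF
    unfold Av
    apply continuous_parametric_integral_of_continuous _ isCompact_Icc
    refine hF.comp (Continuous.prodMk ?_ (by fun_prop))
    exact Continuous.update (by fun_prop) j continuous_snd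
  unfold Hz
  exact h1 0 (h1 1 hF)

/-- The product with a segment average. -/
theorem Hz_mul_BB {G ψ : V → ℝ} (hG : CP G) (hψ : CP ψ) (j : Fin 3) (ρ : ℝ) (x : V) :
    Hz (fun z => G z * BB j ρ ψ z) x
      = ∫ s in Icc (-1 : ℝ) 1, Hz (fun z => G z * ψ (z + Pi.single j (ρ * s))) x := by
  have hF : Continuous fun q : V × ℝ => G q.1 * ψ (q.1 + Pi.single j (ρ * q.2)) := by
    refine (hG.cont.comp continuous_fst).mul (hψ.cont.comp ?_)
    exact continuous_fst.add ((cont_single j).comp (by fun_prop))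
  have h := Hz_int_r hF (-1) 1 x
  simp only at h
  rw [← h]
  congr 1
  funext z
  unfold BB
  rw [integral_const_mul]

theorem Hz_BB {ψ : V → ℝ} (hψ : CP ψ) (j : Fin 3) (ρ : ℝ) (x : V) :
    Hz (BB j ρ ψ) x = BB j ρ (Hz ψ) x := by
  have h := Hz_mul_BB (CP.const 1) hψ j ρ x
  simp only [one_mul] at h
  have e : ∀ s : ℝ, Hz (fun z => ψ (z + Pi.single j (ρ * s))) x = Hz ψ (x + Pi.single j (ρ * s)) :=
    fun s => Hz_shift hψ _ x
  simp_rw [e] at h
  exact h

theorem int_BB {φ : V → ℝ} (hφ : CP φ) (j : Fin 3) (ρ : ℝ) :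
    ∫ x in cube, BB j ρ φ x = 2 * ∫ x in cube, φ x := by
  unfold BB
  have hK : IsCompact (cube : Set V) := isCompact_Icc
  have hc : Continuous fun q : V × ℝ => φ (q.1 + Pi.single j (ρ * q.2)) :=
    hφ.cont.comp (continuous_fst.add ((cont_single j).comp (by fun_prop)))
  rw [swap (μ := (volume : Measure V)) (ν := (volume : Measure ℝ)) hK isCompact_Icc hc]
  have e : ∀ s : ℝ, ∫ x in cube, φ (x + Pi.single j (ρ * s)) = ∫ x in cube, φ x := fun s =>
    int_shift hφ _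
  simp only [e]
  rw [setIntegral_const, Measure.real, Real.volume_Icc]
  norm_num

/-- The average over a cube as an iterated average. -/
theorem BA_eq {φ : V → ℝ} (hφ : Continuous φ) (h0 : ∀ x, 0 ≤ φ x) (ρ : ℝ) (x : V) :
    BA φ ρ x = BB 2 ρ (BB 0 ρ (BB 1 ρ φ)) x := by
  have n1 : ∀ z, 0 ≤ BB 1 ρ φ z := BB_nonneg h0 1 ρ
  have n0 : ∀ z, 0 ≤ BB 0 ρ (BB 1 ρ φ) z := BB_nonneg n1 0 ρ
  have c1 : Continuous (BB 1 ρ φ) := BB_cont hφ 1 ρ
  have c0 : Continuous (BB 0 ρ (BB 1 ρ φ)) := BB_cont c1 0 ρ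
  have of : ∀ (j : Fin 3) {ψ : V → ℝ}, Continuous ψ → (∀ x, 0 ≤ ψ x) → ∀ z,
      ENNReal.ofReal (BB j ρ ψ z) = ∫⁻ s, ENNReal.ofReal (ψ (z + Pi.single j (ρ * s))) ∂m2 := by
    intro j ψ hψ hn z
    unfold BB m2
    rw [ofReal_integral_eq_lintegral_ofReal (BB_intOn hψ j ρ z)
      (Filter.Eventually.of_forall fun s => hn _)]
  have e1 : ENNReal.ofReal (BA φ ρ x)
      = ∫⁻ y in Qb, ENNReal.ofReal (φ (x + ρ • y)) := by
    unfold BA
    rw [ofReal_integral_eq_lintegral_ofReal (BA_intOn hφ ρ x)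
      (Filter.Eventually.of_forall fun s => h0 _)]
  have m : Measurable fun y : V => ENNReal.ofReal (φ (x + ρ • y)) :=
    (hφ.comp (continuous_const.add (continuous_id.const_smul ρ))).measurable.ennreal_ofReal
  rw [Q_eq m] at e1
  have e2 : ENNReal.ofReal (BB 2 ρ (BB 0 ρ (BB 1 ρ φ)) x)
      = ∫⁻ s, ∫⁻ r, ∫⁻ q, ENNReal.ofReal (φ (x + ρ • update (update (update (0 : V) 2 s) 0 r) 1 q))
          ∂m2 ∂m2 ∂m2 := by
    rw [of 2 c0 n0]
    refine lintegral_congr fun s => ?_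
    rw [of 0 c1 n1]
    refine lintegral_congr fun r => ?_
    rw [of 1 hφ h0]
    refine lintegral_congr fun q => ?_
    congr 2
    funext k
    fin_cases k <;> simp
  rw [← e2] at e1
  exact (ENNReal.ofReal_eq_ofReal_iff (BA_nonneg h0 ρ x)
    (BB_nonneg n0 2 ρ x)).1 e1

/-- The average over a horizontal square. -/
noncomputable def AH (ρ : ℝ) (φ : V → ℝ) : V → ℝ := BB 0 ρ (BB 1 ρ φ)

theorem AH_cp {φ : V → ℝ} (hφ : CP φ) (ρ : ℝ) : CP (AH ρ φ) := BB_cp (BB_cp hφ 1 ρ) 0 ρ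

theorem AH_nonneg {φ : V → ℝ} (h0 : ∀ x, 0 ≤ φ x) (ρ : ℝ) (z : V) : 0 ≤ AH ρ φ z :=
  BB_nonneg (BB_nonneg h0 1 ρ) 0 ρ z

theorem AH_le {φ : V → ℝ} (hφ : CP φ) (h0 : ∀ x, 0 ≤ φ x) {ρ : ℝ} (hρ : ρ ∈ Ioc (0 : ℝ) 1)
    (z : V) : AH ρ φ z ≤ 4 * (ρ⁻¹ * ρ⁻¹) * Hz φ z := by
  have h1 : AH ρ φ z ≤ BB 0 ρ (fun y => 2 * ρ⁻¹ * Av 1 φ y) z :=
    BB_mono (BB_cont hφ.cont 1 ρ) ((hφ.av 1).cmul _).cont (fun y => BB_le hφ h0 1 hρ y) 0 ρ z
  rw [BB_cmul] at h1
  have h2 := BB_le (hφ.av 1) (Av_nonneg h0 1) 0 hρ z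
  have h3 : 0 ≤ 2 * ρ⁻¹ := by
    have := hρ.1
    positivity
  have h4 := mul_le_mul_of_nonneg_left h2 h3
  have e : Av 0 (Av 1 φ) z = Hz φ z := rfl
  rw [e] at h4
  linarith

theorem Hz_AH {φ : V → ℝ} (hφ : CP φ) (ρ : ℝ) (x : V) : Hz (AH ρ φ) x = 4 * Hz φ x := by
  unfold AH
  rw [Hz_BB (BB_cp hφ 1 ρ)]
  have e1 : Hz (BB 1 ρ φ) = fun y => 2 * Hz φ y := by
    funext y
    rw [Hz_BB hφ, BB_of_ind (i01_hz φ).2]
  rw [e1, BB_cmul, BB_of_ind (i01_hz φ).1]
  ring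

/-- The smoothing bound. -/
theorem smooth_le {r : ℝ} (hr : 1 ≤ r) {G : V → ℝ} (cG : CP G) (iG : Ind 2 G)
    (G0 : ∀ x, 0 ≤ G x) {N : ℝ} (hN : 0 < N) (hGN : (∫ x in cube, G x ^ r) ≤ N ^ r)
    {φ : V → ℝ} (hφ : CP φ) (h0 : ∀ x, 0 ≤ φ x) {ρ : ℝ} (hρ : ρ ∈ Ioc (0 : ℝ) 1) (x : V) :
    Hz (fun z => G z * AH ρ φ z) x ≤ 8 * N * ρ ^ (-(2 / r)) * Hz φ x := by
  have hρ0 := hρ.1
  have hr0 : 0 < r := by linarith
  set lam : ℝ := N * ρ ^ (-(2 / r)) with hlam
  have hl : 0 < lam := by positivity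
  have cA := AH_cp hφ ρ
  have A0 : ∀ z, 0 ≤ AH ρ φ z := AH_nonneg h0 ρ
  have cGr : CP (fun z => G z ^ r) :=
    ⟨cG.cont.rpow_const fun z => Or.inr hr0.le, fun i z => by simp only [cG.per i z]⟩
  have Gr0 : ∀ z, 0 ≤ G z ^ r := fun z => Real.rpow_nonneg (G0 z) _
  have hu : 0 ≤ Hz φ x := Hz_nonneg h0 x
  set c : ℝ := lam ^ (1 - r) with hc
  have hc0 : 0 ≤ c := by positivity
  set K : ℝ := 4 * (ρ⁻¹ * ρ⁻¹) * Hz φ x with hK
  have hK0 : 0 ≤ K := by positivity
  -- the pointwise bound on the slice is used through a function of the slice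
  have h1 : Hz (fun z => G z * AH ρ φ z) x
      ≤ Hz (fun z => lam * AH ρ φ z + c * (G z ^ r * (4 * (ρ⁻¹ * ρ⁻¹) * Hz φ z))) x := by
    apply Hz_mono (cG.mul cA) ((cA.cmul lam).add ((cGr.mul (hφ.hz.cmul _)).cmul c))
    intro z
    have k1 : G z ≤ lam + c * G z ^ r := by
      rcases le_or_gt (G z) lam with h | h
      · have : 0 ≤ c * G z ^ r := mul_nonneg hc0 (Gr0 z)
        linarith
      · have hG : 0 < G z := hl.trans h
        have k2 : G z = G z ^ (1 - r) * G z ^ r := by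
          rw [← Real.rpow_add hG]
          simp
        have k3 : G z ^ (1 - r) ≤ c := Real.rpow_le_rpow_of_nonpos hl h.le (by linarith)
        have k4 := mul_le_mul_of_nonneg_right k3 (Gr0 z)
        linarith
    have k2 := mul_le_mul_of_nonneg_right k1 (A0 z)
    have k3 := mul_le_mul_of_nonneg_left (AH_le hφ h0 hρ z) (mul_nonneg hc0 (Gr0 z))
    linarith
  have e1 : Hz (fun z => lam * AH ρ φ z + c * (G z ^ r * (4 * (ρ⁻¹ * ρ⁻¹) * Hz φ z))) x
      = lam * (4 * Hz φ x) + c * (K * ∫ z in cube, G z ^ r) := by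
    rw [Hz_add (cA.cmul lam) ((cGr.mul (hφ.hz.cmul _)).cmul c), Hz_cmul, Hz_cmul, Hz_AH hφ]
    have e2 : (fun z => G z ^ r * (4 * (ρ⁻¹ * ρ⁻¹) * Hz φ z))
        = fun z => (4 * (ρ⁻¹ * ρ⁻¹) * Hz φ z) * G z ^ r := by
      funext z
      ring
    rw [e2, Hz_mul ((i01_hz φ).cmul _), Hz_ind2 cGr (fun z s => by simp only [iG z s])]
  rw [e1] at h1
  have h2 : c * (K * ∫ z in cube, G z ^ r) ≤ c * (K * N ^ r) :=
    mul_le_mul_of_nonneg_left (mul_le_mul_of_nonneg_left hGN hK0) hc0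
  have h3 : c * (K * N ^ r) = lam * (4 * Hz φ x) := by
    have e2 : c * N ^ r * (ρ⁻¹ * ρ⁻¹) = lam := by
      have e3 : lam ^ r = N ^ r * (ρ⁻¹ * ρ⁻¹) := by
        rw [hlam, Real.mul_rpow hN.le (by positivity), ← Real.rpow_mul hρ0.le]
        have : -(2 / r) * r = -2 := by field_simp
        rw [this, Real.rpow_neg hρ0.le, Real.rpow_two]
        field_simp
      rw [mul_assoc, ← e3, hc, ← Real.rpow_add hl]
      simp
    calc c * (K * N ^ r) = (c * N ^ r * (ρ⁻¹ * ρ⁻¹)) * (4 * Hz φ x) := by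
          rw [hK]
          ring
      _ = _ := by rw [e2]
  have e5 : 8 * N * ρ ^ (-(2 / r)) * Hz φ x = lam * (4 * Hz φ x) + lam * (4 * Hz φ x) := by
    rw [hlam]
    ring
  linarith

/-- The slice integrals of the product with the average over cubes. -/
theorem Hz_mul_BA {G φ : V → ℝ} (cG : CP G) (iG : Ind 2 G) (hφ : CP φ) (h0 : ∀ x, 0 ≤ φ x)
    (ρ : ℝ) (x : V) :
    Hz (fun z => G z * BA φ ρ z) x = BB 2 ρ (Hz fun z => G z * AH ρ φ z) x := by
  have e1 : (fun z => G z * BA φ ρ z) = fun z => G z * BB 2 ρ (AH ρ φ) z := by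
    funext z
    rw [BA_eq hφ.cont h0]
    rfl
  have cA := AH_cp hφ ρ
  rw [e1, Hz_mul_BB cG cA]
  unfold BB
  congr 1
  funext s
  rw [← Hz_shift (cG.mul cA)]
  congr 1
  funext z
  rw [ind_add iG]

end Pool.Agent.H4LA
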