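import Pool.Agent.H4LA.Mlt
import Pool.Agent.H4LA.Smo

/-!
Majorants which depend on all the coordinates: the norms on slices.
-/

set_option autoImplicit false
set_option linter.unusedVariables false

open MeasureTheory Set Function Filter Topology
open scoped ENNReal ContDiff

namespace Pool.Agent.H4LA

open H459R3.NS

/-- The values on the slice through `x`, extended to the space. -/
noncomputable def fz (G : V → ℝ) (x : V) : V → ℝ := fun z => G (update z 2 (x 2))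

theorem fz_cp {G : V → ℝ} (cG : CP G) (x : V) : CP (fz G x) := cG.frz (x 2)

theorem fz_ind (G : V → ℝ) (x : V) : Ind 2 (fz G x) := by
  intro z s
  unfold fz
  rw [update_idem]

theorem fz_nonneg {G : V → ℝ} (G0 : ∀ x, 0 ≤ G x) (x z : V) : 0 ≤ fz G x z := G0 _

theorem fz_eq {G : V → ℝ} {z x : V} (h : z 2 = x 2) : fz G x z = G z := by
  unfold fz
  rw [← h, update_eq_self]

theorem Hz_congr {f g : V → ℝ} {x : V} (h : ∀ z : V, z 2 = x 2 → f z = g z) :
    Hz f x = Hz g x := by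
  unfold Hz Av
  congr 1
  funext s
  congr 1
  funext t
  apply h
  rw [update_of_ne (by decide), update_of_ne (by decide)]

theorem cprp {h : V → ℝ} (hh : CP h) {r : ℝ} (hr : 0 ≤ r) : CP fun y => h y ^ r :=
  ⟨hh.cont.rpow_const fun x => Or.inr hr, fun i x => by simp only [hh.per i x]⟩

/-- One plus the slice integral of the power `r`. -/
noncomputable def NR (r : ℝ) (G : V → ℝ) (x : V) : ℝ := 1 + Hz (fun y => G y ^ r) x

theorem NR_cp {r : ℝ} (hr : 0 ≤ r) {G : V → ℝ} (cG : CP G) : CP (NR r G) :=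
  (CP.const 1).add (cprp cG hr).hz

theorem NR_one {r : ℝ} {G : V → ℝ} (G0 : ∀ x, 0 ≤ G x) (x : V) : 1 ≤ NR r G x := by
  have := Hz_nonneg (fun y => Real.rpow_nonneg (G0 y) r) x
  unfold NR
  linarith

/-- The frequency on a slice. -/
noncomputable def kk (r δ : ℝ) (G : V → ℝ) (x : V) : ℝ := (NR r G x / δ) ^ (2 / (r - 2))

theorem kk_cp {r δ : ℝ} (hr : 2 < r) {G : V → ℝ} (cG : CP G) : CP (kk r δ G) := by
  have h1 : CP fun x => NR r G x / δ := by
    have := (NR_cp (by linarith : 0 ≤ r) cG).cmul δ⁻¹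
    have e : (fun x => δ⁻¹ * NR r G x) = fun x => NR r G x / δ := by
      funext x
      rw [div_eq_inv_mul]
    rwa [e] at this
  have hr2 : 0 < r - 2 := by linarith
  exact cprp h1 (by positivity)

theorem kk_one {r δ : ℝ} (hr : 2 < r) (hδ : 0 < δ) (hδ1 : δ ≤ 1) {G : V → ℝ}
    (G0 : ∀ x, 0 ≤ G x) (x : V) : 1 ≤ kk r δ G x := by
  have hr2 : 0 < r - 2 := by linarith
  refine Real.one_le_rpow ?_ (by positivity)
  rw [le_div_iff₀ hδ]
  linarith [NR_one (r := r) G0 x]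

/-- The slice norm. -/
noncomputable def Nx (r : ℝ) (G : V → ℝ) (x : V) : ℝ := NR r G x ^ (1 / r)

theorem Nx_one {r : ℝ} (hr : 0 < r) {G : V → ℝ} (G0 : ∀ x, 0 ≤ G x) (x : V) : 1 ≤ Nx r G x :=
  Real.one_le_rpow (NR_one G0 x) (by positivity)

theorem Nx_pow {r : ℝ} (hr : 0 < r) {G : V → ℝ} (G0 : ∀ x, 0 ≤ G x) (x : V) :
    Nx r G x ^ r = NR r G x := by
  unfold Nx
  rw [← Real.rpow_mul (by linarith [NR_one (r := r) G0 x]), one_div_mul_cancel hr.ne',
    Real.rpow_one]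

theorem Nx_sq {r : ℝ} (hr : 0 < r) {G : V → ℝ} (G0 : ∀ x, 0 ≤ G x) (x : V) :
    Nx r G x ^ 2 = NR r G x ^ (2 / r) := by
  unfold Nx
  rw [← Real.rpow_natCast, ← Real.rpow_mul (by linarith [NR_one (r := r) G0 x])]
  congr 1
  push_cast
  ring

theorem int_fz {r : ℝ} (hr : 0 < r) {G : V → ℝ} (cG : CP G) (G0 : ∀ x, 0 ≤ G x) (x : V) :
    ∫ z in cube, fz G x z ^ r ≤ Nx r G x ^ r := by
  rw [Nx_pow hr G0]
  have h := Hz_cube (cprp cG hr.le) x
  have e : ∫ z in cube, fz G x z ^ r = Hz (fun y => G y ^ r) x := by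
    rw [h]
    rfl
  rw [e]
  unfold NR
  linarith

/-- The interpolation of a weight. -/
theorem interp {k A : V → ℝ} (ck : CP k) (k0 : ∀ x, 0 ≤ k x) (cA : CP A) (A0 : ∀ x, 0 ≤ A x)
    {p lam S I Kp : ℝ} (hp : 1 ≤ p) (hl : 0 < lam) (hS : ∀ x, A x ≤ S)
    (hK : ∫ x in cube, k x ^ p ≤ Kp) (hI : ∫ x in cube, A x ≤ I) :
    ∫ x in cube, k x * A x ≤ lam * I + lam ^ (1 - p) * Kp * S := by
  have hS0 : 0 ≤ S := (A0 0).trans (hS 0)
  have ckp : CP fun x => k x ^ p := cprp ck (by linarith)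
  have h1 : ∫ x in cube, k x * A x
      ≤ ∫ x in cube, (lam * A x + (lam ^ (1 - p) * S) * k x ^ p) := by
    refine integral_mono (ck.mul cA).int ((cA.cmul _).add (ckp.cmul _)).int fun x => ?_
    have kp0 : 0 ≤ k x ^ p := Real.rpow_nonneg (k0 x) p
    have l0 : 0 ≤ lam ^ (1 - p) := by positivity
    have k1 : k x ≤ lam + lam ^ (1 - p) * k x ^ p := by
      rcases le_or_gt (k x) lam with h | h
      · have : 0 ≤ lam ^ (1 - p) * k x ^ p := by positivity
        linarith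
      · have hk : 0 < k x := hl.trans h
        have k2 : k x = k x ^ (1 - p) * k x ^ p := by
          rw [← Real.rpow_add hk]
          simp
        have k3 : k x ^ (1 - p) ≤ lam ^ (1 - p) :=
          Real.rpow_le_rpow_of_nonpos hl h.le (by linarith)
        have k4 := mul_le_mul_of_nonneg_right k3 kp0
        linarith
    have k2 := mul_le_mul_of_nonneg_right k1 (A0 x)
    have k3 := mul_le_mul_of_nonneg_left (hS x) (mul_nonneg l0 kp0)
    simp only
    linarith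
  rw [integral_add (cA.cmul _).int (ckp.cmul _).int, integral_const_mul, integral_const_mul] at h1
  have l0 : 0 ≤ lam ^ (1 - p) * S := by positivity
  have h2 := mul_le_mul_of_nonneg_left hI hl.le
  have h3 := mul_le_mul_of_nonneg_left hK l0
  linarith

/-- The exponents. -/
structure Ex (a r : ℝ) : Prop where
  ha : 2 < a
  hr : 2 < r
  har : 2 / a + 2 / r ≤ 1

/-- The exponent of the frequency. -/
noncomputable def pp (a r : ℝ) : ℝ := a * (r - 2) / (2 * r)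

theorem Ex.pp_one {a r : ℝ} (h : Ex a r) : 1 ≤ pp a r := by
  have h1 := h.ha
  have h2 := h.hr
  have h3 := h.har
  have ha0 : 0 < a := by linarith
  have hr0 : 0 < r := by linarith
  rw [div_add_div _ _ ha0.ne' hr0.ne', div_le_one (by positivity)] at h3
  unfold pp
  rw [le_div_iff₀ (by positivity)]
  nlinarith

theorem kk_int {a r δ : ℝ} (h : Ex a r) (hδ : 0 < δ) {G : V → ℝ} (cG : CP G)
    (G0 : ∀ x, 0 ≤ G x) {M : ℝ} (hM : ∫ x in cube, NR r G x ^ (a / r) ≤ M ^ a) :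
    ∫ x in cube, kk r δ G x ^ pp a r ≤ δ⁻¹ ^ (a / r) * M ^ a := by
  have h2 := h.hr
  have ha0 : 0 < a := by linarith [h.ha]
  have hr0 : 0 < r := by linarith
  have hr2 : 0 < r - 2 := by linarith
  have e : ∀ x, kk r δ G x ^ pp a r = δ⁻¹ ^ (a / r) * NR r G x ^ (a / r) := by
    intro x
    have hN : 0 < NR r G x := by linarith [NR_one (r := r) G0 x]
    unfold kk pp
    rw [← Real.rpow_mul (by positivity)]
    have e1 : 2 / (r - 2) * (a * (r - 2) / (2 * r)) = a / r := by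
      field_simp
    rw [e1, div_eq_inv_mul, Real.mul_rpow (by positivity) hN.le]
  simp_rw [e]
  rw [integral_const_mul]
  exact mul_le_mul_of_nonneg_left hM (by positivity)

theorem Av2_i01 {ψ : V → ℝ} (cψ : CP ψ) (iψ : I01 ψ) (x : V) : Av 2 ψ x = ∫ x in cube, ψ x := by
  rw [← tri cψ x]
  have h0 : Ind 0 (Av 2 ψ) := iψ.1.av (by decide)
  have h1 : Ind 1 (Av 2 ψ) := iψ.2.av (by decide)
  have e0 : Av 0 (Av 2 ψ) = Av 2 ψ := funext fun y => Av_of_ind h0 y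
  rw [e0, Av_of_ind h1]

/-- The interpolation near the slice. -/
theorem interp_near {a r : ℝ} (ha : 2 < a) (hr : 2 < r) {G : V → ℝ} (cG : CP G)
    (G0 : ∀ x, 0 ≤ G x) {M : ℝ} (hM1 : 1 ≤ M) (hM : ∫ x in cube, NR r G x ^ (a / r) ≤ M ^ a)
    {ψ : V → ℝ} (cψ : CP ψ) (iψ : I01 ψ) (ψ0 : ∀ x, 0 ≤ ψ x) {ρ : ℝ} (hρ : ρ ∈ Ioc (0 : ℝ) 1) :
    ∫ x in cube, NR r G x ^ (2 / r) * BB 2 ρ ψ x
      ≤ 4 * (M ^ 2 * ρ ^ (-(2 / a)) * ∫ x in cube, ψ x) := by
  have ha0 : 0 < a := by linarith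
  have hr0 : 0 < r := by linarith
  have hρ0 := hρ.1
  have hM0 : 0 < M := by linarith
  have hI0 : 0 ≤ ∫ x in cube, ψ x := integral_nonneg ψ0
  have N1 := fun x => NR_one (r := r) G0 x
  have ck : CP fun x => NR r G x ^ (2 / r) := cprp (NR_cp hr0.le cG) (by positivity)
  have k1 : ∫ x in cube, (NR r G x ^ (2 / r)) ^ (a / 2) ≤ M ^ a := by
    have e : ∀ x, (NR r G x ^ (2 / r)) ^ (a / 2) = NR r G x ^ (a / r) := by
      intro x
      rw [← Real.rpow_mul (by linarith [N1 x])]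
      congr 1
      field_simp
    simp_rw [e]
    exact hM
  have h1 := interp (k := fun x => NR r G x ^ (2 / r)) (A := BB 2 ρ ψ) ck
    (fun x => Real.rpow_nonneg (by linarith [N1 x]) _) (BB_cp cψ 2 ρ) (BB_nonneg ψ0 2 ρ)
    (p := a / 2) (lam := M ^ 2 * ρ ^ (-(2 / a))) (S := 2 * ρ⁻¹ * ∫ x in cube, ψ x)
    (I := 2 * ∫ x in cube, ψ x) (Kp := M ^ a) (by linarith) (by positivity)
    (fun x => by
      have := BB_le cψ ψ0 2 hρ x
      rwa [Av2_i01 cψ iψ] at this) k1 (le_of_eq (int_BB cψ 2 ρ))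
  refine h1.trans (le_of_eq ?_)
  have e1 : (M ^ 2 * ρ ^ (-(2 / a))) ^ (1 - a / 2) * M ^ a * ρ⁻¹ = M ^ 2 * ρ ^ (-(2 / a)) := by
    rw [Real.mul_rpow (by positivity) (by positivity), ← Real.rpow_natCast M 2,
      ← Real.rpow_mul hM0.le, ← Real.rpow_mul hρ0.le]
    have e2 : M ^ (((2 : ℕ) : ℝ) * (1 - a / 2)) * M ^ a = M ^ (((2 : ℕ) : ℝ)) := by
      rw [← Real.rpow_add hM0]
      congr 1
      push_cast
      ring
    have e3 : ρ ^ (-(2 / a) * (1 - a / 2)) * ρ⁻¹ = ρ ^ (-(2 / a)) := by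
      rw [← Real.rpow_neg_one ρ, ← Real.rpow_add hρ0]
      congr 1
      field_simp
      ring
    calc M ^ (((2 : ℕ) : ℝ) * (1 - a / 2)) * ρ ^ (-(2 / a) * (1 - a / 2)) * M ^ a * ρ⁻¹
        = (M ^ (((2 : ℕ) : ℝ) * (1 - a / 2)) * M ^ a)
          * (ρ ^ (-(2 / a) * (1 - a / 2)) * ρ⁻¹) := by ring
      _ = _ := by rw [e2, e3]
  have e4 : (M ^ 2 * ρ ^ (-(2 / a))) ^ (1 - a / 2) * M ^ a * (2 * ρ⁻¹ * ∫ x in cube, ψ x)
      = 2 * ((M ^ 2 * ρ ^ (-(2 / a))) ^ (1 - a / 2) * M ^ a * ρ⁻¹) * ∫ x in cube, ψ x := by ring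
  rw [e4, e1]
  ring

end Pool.Agent.H4LA
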