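import Pool.Agent.H4LA.Mlt
import Pool.Agent.H4LA.Smo

/-!
The pressure multiplied by a function of the horizontal coordinates: the parts of the kernel at
positive distance.
-/

set_option autoImplicit false
set_option linter.unusedVariables false

open MeasureTheory Set Function Filter Topology
open scoped ENNReal ContDiff

namespace Pool.Agent.H4LA

open H459R3.NS

theorem SP.shift {f : V → ℝ} (hf : SP f) (h : V) : SP (fun y => f (y + h)) where
  smooth := hf.smooth.comp (contDiff_id.add contDiff_const)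
  per := ((cp_of hf).shift h).per

theorem pd_shift {f : V → ℝ} (h : V) (j : Fin 3) (x : V) :
    pd j (fun y => f (y + h)) x = pd j f (x + h) := by
  unfold pd
  rw [fderiv_comp_add_right]

/-- The multiplication for vector fields. -/
theorem mult_vec {r : ℝ} (hr : 2 < r) : ∃ C : ℝ, 1 ≤ C ∧ ∀ G : V → ℝ, CP G → Ind 2 G →
    (∀ x, 0 ≤ G x) → ∀ N : ℝ, 1 ≤ N → (∫ x in cube, G x ^ r) ≤ N ^ r →
    ∀ δ : ℝ, 0 < δ → δ ≤ 1 → ∀ v : Fin 3 → V → ℝ, (∀ i, SP (v i)) → ∀ x A B,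
    Hz (vsq v) x ≤ A → Hz (ga v) x ≤ B →
    Hz (fun y => G y ^ 2 * vsq v y) x
      ≤ C * (δ * (A + B) + (N ^ r / δ) ^ (2 / (r - 2)) * A) := by
  obtain ⟨C, hC1, hC⟩ := mlt hr
  refine ⟨3 * C, by linarith, ?_⟩
  intro G cG iG G0 N hN hGN δ hδ hδ1 v hv x A B hA hB
  have e : (fun y => G y ^ 2 * vsq v y) = fun y => ∑ i, G y ^ 2 * v i y ^ 2 := by
    funext y
    unfold vsq
    rw [Finset.mul_sum]
  rw [e, Hz_sum fun i _ => (cG.pow 2).mul ((cp_of (hv i)).pow 2)]
  have h : ∀ i, Hz (fun y => G y ^ 2 * v i y ^ 2) x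
      ≤ C * (δ * (A + B) + (N ^ r / δ) ^ (2 / (r - 2)) * A) := by
    intro i
    exact hC G cG iG G0 N hN hGN δ hδ hδ1 (v i) (hv i) x A B ((Hz_le_vsq hv i x).trans hA)
      ((Hz_le_ga hv i 0 x).trans hB) ((Hz_le_ga hv i 1 x).trans hB)
  rw [Fin.sum_univ_three]
  linarith [h 0, h 1, h 2]

theorem i01_shift {f : V → ℝ} (h : I01 f) (a b : ℝ) (x : V) :
    f (x + (Pi.single 1 b + Pi.single 0 a)) = f x := by
  rw [← add_assoc, ind_add h.1, ind_add h.2]

theorem Icc_int_le {F : ℝ → ℝ} {c : ℝ} (F0 : ∀ s, 0 ≤ F s) (Fc : ∀ s, F s ≤ c) :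
    ∫ s in Icc (-1 : ℝ) 1, F s ≤ 2 * c := by
  have h1 : ∫ s in Icc (-1 : ℝ) 1, F s ≤ ∫ s in Icc (-1 : ℝ) 1, c := by
    refine integral_mono_of_nonneg (Filter.Eventually.of_forall F0) ?_
      (Filter.Eventually.of_forall Fc)
    exact integrableOn_const (by simp)
  rw [setIntegral_const, Measure.real, Real.volume_Icc] at h1
  norm_num at h1
  exact h1

/-- One shift. -/
theorem Phi_one {G : V → ℝ} (cG : CP G) (G0 : ∀ x, 0 ≤ G x) {C δ k : ℝ}
    (hm : ∀ v : Fin 3 → V → ℝ, (∀ i, SP (v i)) → ∀ x A B,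
      Hz (vsq v) x ≤ A → Hz (ga v) x ≤ B →
      Hz (fun y => G y ^ 2 * vsq v y) x ≤ C * (δ * (A + B) + k * A))
    {v : Fin 3 → V → ℝ} (hv : ∀ i, SP (v i)) (x : V) (a b : ℝ) :
    Hz (fun z => G z * vsq v (z + (Pi.single 1 b + Pi.single 0 a))) x
      ≤ √(C * (δ * (Hz (vsq v) x + Hz (ga v) x) + k * Hz (vsq v) x) * Hz (vsq v) x) := by
  have cW : CP (vsq v) := cp_of (vsq_sp hv)
  set h : V := Pi.single 1 b + Pi.single 0 a with hh
  set v' : Fin 3 → V → ℝ := fun i y => v i (y + h) with hv'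
  have sv' : ∀ i, SP (v' i) := fun i => SP.shift (hv i) h
  have e1 : ∀ y, vsq v' y = vsq v (y + h) := fun y => rfl
  have e1' : vsq v' = fun y => vsq v (y + h) := funext e1
  have e2 : ga v' = fun y => ga v (y + h) := by
    funext y
    unfold ga
    simp only [hv', pd_shift]
  have hA : Hz (vsq v') x ≤ Hz (vsq v) x := by
    rw [e1', Hz_shift cW, hh, i01_shift (i01_hz _)]
  have hB : Hz (ga v') x ≤ Hz (ga v) x := by
    rw [e2, Hz_shift (cp_of (ga_sp hv)), hh, i01_shift (i01_hz _)]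
  have h1 := hm v' sv' x _ _ hA hB
  have cW' : CP (vsq v') := cp_of (vsq_sp sv')
  have n' : ∀ y, 0 ≤ vsq v' y := vsq_nonneg v'
  have h2 := Hz_cs_abs (cG.mul cW'.sqrt) cW'.sqrt x
  have e3 : (fun y => |G y * √(vsq v' y)| * |√(vsq v' y)|) = fun y => G y * vsq v (y + h) := by
    funext y
    rw [abs_mul, abs_of_nonneg (G0 y), abs_of_nonneg (Real.sqrt_nonneg _), mul_assoc,
      Real.mul_self_sqrt (n' y), e1]
  have e4 : (fun y => (G y * √(vsq v' y)) ^ 2) = fun y => G y ^ 2 * vsq v' y := by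
    funext y
    rw [mul_pow, Real.sq_sqrt (n' y)]
  have e5 : (fun y => √(vsq v' y) ^ 2) = vsq v' := by
    funext y
    rw [Real.sq_sqrt (n' y)]
  have n3 : 0 ≤ Hz (fun y => G y ^ 2 * vsq v' y) x :=
    Hz_nonneg (fun y => mul_nonneg (sq_nonneg _) (n' y)) x
  rw [e3, e4, e5, ← Real.sqrt_mul n3] at h2
  refine h2.trans (Real.sqrt_le_sqrt ?_)
  exact mul_le_mul h1 hA (Hz_nonneg n' x) (n3.trans h1)

theorem Phi_two {G φ : V → ℝ} (cG : CP G) (G0 : ∀ x, 0 ≤ G x) (hφ : CP φ) (h0 : ∀ x, 0 ≤ φ x)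
    {x : V} {K : ℝ}
    (key : ∀ a b : ℝ, Hz (fun z => G z * φ (z + (Pi.single 1 b + Pi.single 0 a))) x ≤ K) (ρ : ℝ) :
    Hz (fun z => G z * AH ρ φ z) x ≤ 4 * K := by
  have cB := BB_cp hφ 1 ρ
  unfold AH
  rw [Hz_mul_BB cG cB]
  have h2 : ∀ s : ℝ, Hz (fun z => G z * BB 1 ρ φ (z + Pi.single 0 (ρ * s))) x ≤ 2 * K := by
    intro s
    have e : (fun z => G z * BB 1 ρ φ (z + Pi.single 0 (ρ * s)))
        = fun z => G z * BB 1 ρ (fun y => φ (y + Pi.single 0 (ρ * s))) z := by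
      funext z
      unfold BB
      congr 2
      funext r
      congr 1
      abel
    rw [e, Hz_mul_BB cG (hφ.shift _)]
    apply Icc_int_le
    · intro r
      exact Hz_nonneg (fun z => mul_nonneg (G0 z) (h0 _)) x
    · intro r
      have := key (ρ * s) (ρ * r)
      simpa only [add_assoc] using this
  have h3 := Icc_int_le (F := fun s : ℝ => Hz (fun z => G z * BB 1 ρ φ (z + Pi.single 0 (ρ * s))) x)
    (c := 2 * K) (fun s => Hz_nonneg (fun z => mul_nonneg (G0 z) (BB_nonneg h0 _ _ _)) x) h2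
  linarith

/-- The bound for the averages over horizontal squares. -/
theorem Phi_mult {G : V → ℝ} (cG : CP G) (G0 : ∀ x, 0 ≤ G x) {C δ k : ℝ}
    (hm : ∀ v : Fin 3 → V → ℝ, (∀ i, SP (v i)) → ∀ x A B,
      Hz (vsq v) x ≤ A → Hz (ga v) x ≤ B →
      Hz (fun y => G y ^ 2 * vsq v y) x ≤ C * (δ * (A + B) + k * A))
    {v : Fin 3 → V → ℝ} (hv : ∀ i, SP (v i)) (ρ : ℝ) (x : V) :
    Hz (fun z => G z * AH ρ (vsq v) z) x
      ≤ 4 * √(C * (δ * (Hz (vsq v) x + Hz (ga v) x) + k * Hz (vsq v) x) * Hz (vsq v) x) :=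
  Phi_two cG G0 (cp_of (vsq_sp hv)) (vsq_nonneg v) (Phi_one cG G0 hm hv x) ρ

/-- The comparison of the values at two points. -/
theorem pair {m : ℕ} (hm : 2 ≤ m) {ex ez U D κ Φ K δ k u : ℝ} (hex : 0 ≤ ex) (hez : 0 ≤ ez)
    (hU0 : 0 ≤ U) (hD0 : 0 ≤ D) (hκ : 0 ≤ κ) (hΦ0 : 0 ≤ Φ) (hK : 0 ≤ K) (hδ : 0 ≤ δ) (hk : 0 ≤ k)
    (hu : 0 ≤ u) (hΦ1 : Φ ^ 2 ≤ K * (U * (δ * D + (δ + k) * U))) (hΦ2 : Φ ≤ κ * U)
    (hU : U ≤ 2 * (ez + u)) :
    ex ^ (2 * m - 2) * Φ ^ 2 ≤ K * (δ + k) * (ex ^ (2 * m) + U ^ (2 * m))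
      + K * 2 ^ (2 * m - 1) * δ * ((ez + u) ^ (2 * m - 1) * D)
      + 2 * κ ^ 2 * (ex ^ m - ez ^ m) ^ 2 := by
  have n1 : 0 ≤ K * (δ + k) * (ex ^ (2 * m) + U ^ (2 * m)) := by positivity
  have n2 : 0 ≤ K * 2 ^ (2 * m - 1) * δ * ((ez + u) ^ (2 * m - 1) * D) := by positivity
  have n3 : 0 ≤ 2 * κ ^ 2 * (ex ^ m - ez ^ m) ^ 2 := by positivity
  have hp : 0 ≤ ex ^ (2 * m - 2) := pow_nonneg hex _
  rcases le_or_gt ex (2 * (ez + u)) with h | h
  · have h1 := mul_le_mul_of_nonneg_left hΦ1 hp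
    have h2 : ex ^ (2 * m - 2) * U ^ 2 ≤ ex ^ (2 * m) + U ^ (2 * m) :=
      pow_mix hex hU0 (by omega)
    have h3 : ex ^ (2 * m - 2) * U ≤ 2 ^ (2 * m - 1) * (ez + u) ^ (2 * m - 1) := by
      have k1 : ex ^ (2 * m - 2) ≤ (2 * (ez + u)) ^ (2 * m - 2) := pow_le_pow_left₀ hex h _
      have k2 : ex ^ (2 * m - 2) * U ≤ (2 * (ez + u)) ^ (2 * m - 2) * (2 * (ez + u)) :=
        mul_le_mul k1 hU hU0 (by positivity)
      rw [← pow_succ] at k2
      have e : 2 * m - 2 + 1 = 2 * m - 1 := by omega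
      rw [e, mul_pow] at k2
      exact k2
    have h4 := mul_le_mul_of_nonneg_left h2 (by positivity : 0 ≤ K * (δ + k))
    have h5 := mul_le_mul_of_nonneg_left h3 (by positivity : 0 ≤ K * (δ * D))
    have e : ex ^ (2 * m - 2) * (K * (U * (δ * D + (δ + k) * U)))
        = K * (δ * D) * (ex ^ (2 * m - 2) * U) + K * (δ + k) * (ex ^ (2 * m - 2) * U ^ 2) := by
      ring
    rw [e] at h1
    linarith
  · have hU' : U ≤ ex := by linarith
    have hez' : ez ≤ ex / 2 := by linarith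
    have h1 : ez ^ m ≤ ex ^ m / 4 := by
      have k1 := pow_le_pow_left₀ hez hez' m
      rw [div_pow] at k1
      have k2 : (4 : ℝ) ≤ 2 ^ m := by
        calc (4 : ℝ) = 2 ^ 2 := by norm_num
          _ ≤ 2 ^ m := pow_le_pow_right₀ (by norm_num) hm
      have k3 : ex ^ m / 2 ^ m ≤ ex ^ m / 4 :=
        div_le_div_of_nonneg_left (pow_nonneg hex m) (by norm_num) k2
      exact k1.trans k3
    have h2 : ex ^ (2 * m) ≤ 2 * (ex ^ m - ez ^ m) ^ 2 := by
      have e : ex ^ (2 * m) = (ex ^ m) ^ 2 := by rw [← pow_mul, mul_comm]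
      rw [e]
      have k0 : 0 ≤ ex ^ m := pow_nonneg hex m
      have k1 : 3 / 4 * ex ^ m ≤ ex ^ m - ez ^ m := by linarith
      have k2 := pow_le_pow_left₀ (by positivity) k1 2
      nlinarith [sq_nonneg (ex ^ m)]
    have h3 : ex ^ (2 * m - 2) * Φ ^ 2 ≤ κ ^ 2 * ex ^ (2 * m) := by
      have k1 : Φ ^ 2 ≤ (κ * ex) ^ 2 :=
        pow_le_pow_left₀ hΦ0 (hΦ2.trans (mul_le_mul_of_nonneg_left hU' hκ)) 2
      have k2 := mul_le_mul_of_nonneg_left k1 hp
      have e : ex ^ (2 * m) = ex ^ (2 * m - 2) * ex ^ 2 := by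
        rw [← pow_add]
        congr 1
        omega
      rw [e]
      rw [mul_pow] at k2
      linarith
    have h4 := mul_le_mul_of_nonneg_left h2 (sq_nonneg κ)
    linarith

/-- Differences of the values at points of a vertical line. -/
theorem shift_sq {f : V → ℝ} (hf : SP f) (h : ℝ) :
    ∫ x in cube, (f x - f (x + Pi.single 2 h)) ^ 2 ≤ h ^ 2 * ∫ x in cube, pd 2 f x ^ 2 := by
  have c2 : Continuous (pd 2 f) := (hf.pd 2).cont
  have hl : ∀ x : V, Continuous fun s : ℝ => x + (Pi.single 2 (s * h) : V) := fun x =>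
    continuous_const.add ((cont_single 2).comp (by fun_prop))
  have h1 : ∀ x, (f x - f (x + Pi.single 2 h)) ^ 2
      ≤ ∫ s in Icc (0 : ℝ) 1, h ^ 2 * pd 2 f (x + Pi.single 2 (s * h)) ^ 2 := by
    intro x
    set φ : ℝ → ℝ := fun s => f (x + Pi.single 2 (s * h)) with hφ
    have k1 : ∫ s in (0 : ℝ)..1, h * pd 2 f (x + Pi.single 2 (s * h)) = φ 1 - φ 0 := by
      apply intervalIntegral.integral_eq_sub_of_hasDerivAt (f := φ)
      · intro s _
        have a1 : HasDerivAt (fun s : ℝ => x + s • (Pi.single 2 h : V)) (Pi.single 2 h) s := by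
          have := ((hasDerivAt_id s).smul_const (Pi.single 2 h : V)).const_add x
          simpa using this
        have a2 : ∀ s : ℝ, x + s • (Pi.single 2 h : V) = x + Pi.single 2 (s * h) := by
          intro s
          congr 1
          rw [← Pi.single_smul]
          rfl
        have a3 : HasFDerivAt f (fderiv ℝ f (x + Pi.single 2 (s * h))) (x + s • (Pi.single 2 h : V)) := by
          rw [a2]
          exact (hf.diff _).hasFDerivAt
        have a4 := a3.comp_hasDerivAt s a1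
        have a5 : (f ∘ fun s : ℝ => x + s • (Pi.single 2 h : V))
            = φ := by
          funext r
          simp only [comp_apply, a2, hφ]
        rw [a5] at a4
        refine a4.congr_deriv ?_
        have a6 : (Pi.single 2 h : V) = h • Pi.single 2 (1 : ℝ) := by
          rw [← Pi.single_smul]
          simp
        rw [a6, map_smul]
        rfl
      · exact (continuous_const.mul (c2.comp (hl x))).intervalIntegrable _ _
    rw [intervalIntegral.integral_of_le zero_le_one, ← integral_Icc_eq_integral_Ioc] at k1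
    have e0 : x + (Pi.single 2 (0 * h) : V) = x := by
      rw [zero_mul, Pi.single_zero, add_zero]
    simp only [hφ] at k1
    rw [e0, one_mul] at k1
    set b : ℝ → ℝ := fun s => h * pd 2 f (x + Pi.single 2 (s * h)) with hb
    have cb : Continuous b := continuous_const.mul (c2.comp (hl x))
    have i2 : Integrable (fun s => b s ^ 2) (volume.restrict (Icc (0 : ℝ) 1)) :=
      (cb.pow 2).continuousOn.integrableOn_Icc
    have i1 : Integrable (fun s => 1 * b s) (volume.restrict (Icc (0 : ℝ) 1)) :=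
      (continuous_const.mul cb).continuousOn.integrableOn_Icc
    have k2 := integral_mul_sq_le (μ := volume.restrict (Icc (0 : ℝ) 1))
      (a := fun _ : ℝ => (1 : ℝ)) (b := b) (by simp) i2 i1
    simp only [one_mul, one_pow] at k2
    have e1 : ∫ s in Icc (0 : ℝ) 1, (1 : ℝ) = 1 := by simp
    rw [e1, one_mul, k1] at k2
    have e2 : (f x - f (x + Pi.single 2 h)) ^ 2 = (f (x + Pi.single 2 h) - f x) ^ 2 := by ring
    rw [e2]
    refine k2.trans (le_of_eq ?_)
    congr 1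
    funext s
    simp only [hb]
    ring
  have hK : IsCompact (cube : Set V) := isCompact_Icc
  have hF : Continuous fun q : V × ℝ => h ^ 2 * pd 2 f (q.1 + Pi.single 2 (q.2 * h)) ^ 2 :=
    continuous_const.mul ((c2.comp (continuous_fst.add
      ((cont_single 2).comp (by fun_prop)))).pow 2)
  have c1 : CP fun x => (f x - f (x + Pi.single 2 h)) ^ 2 :=
    ((cp_of hf).sub ((cp_of hf).shift _)).pow 2
  have h2 : ∫ x in cube, (f x - f (x + Pi.single 2 h)) ^ 2
      ≤ ∫ x in cube, ∫ s in Icc (0 : ℝ) 1, h ^ 2 * pd 2 f (x + Pi.single 2 (s * h)) ^ 2 := by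
    refine integral_mono c1.int ?_ h1
    apply integrableOn_cube
    exact continuous_parametric_integral_of_continuous hF isCompact_Icc
  refine h2.trans ?_
  rw [swap (μ := (volume : Measure V)) (ν := (volume : Measure ℝ)) hK isCompact_Icc hF]
  have e : ∀ s : ℝ, ∫ x in cube, h ^ 2 * pd 2 f (x + Pi.single 2 (s * h)) ^ 2
      = h ^ 2 * ∫ x in cube, pd 2 f x ^ 2 := by
    intro s
    rw [integral_const_mul, int_shift ((cp_of (hf.pd 2)).pow 2)]
  simp only [e]
  simp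

end Pool.Agent.H4LA
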