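import Pool.Agent.H4LA.En2
import Pool.Agent.H4LA.En3
import Pool.Agent.H4LA.Far
import Pool.Agent.H4LA.Kx
import Pool.Agent.H4LA.Prg

/-!
The part of the kernel at positive distance, with a majorant which depends on all the coordinates.
-/

set_option autoImplicit false
set_option linter.unusedVariables false

open MeasureTheory Set Function Filter Topology
open scoped ENNReal ContDiff

namespace Pool.Agent.H4LA

open H459R3.NS

theorem DD_cont {f : V → ℝ} (hf : Continuous f) (ρ : ℝ) :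
    Continuous fun x => ∫ s in Icc (-1 : ℝ) 1, (f x - f (x + Pi.single 2 (ρ * s))) ^ 2 := by
  have hF : Continuous fun q : V × ℝ => (f q.1 - f (q.1 + Pi.single 2 (ρ * q.2))) ^ 2 :=
    ((hf.comp continuous_fst).sub (hf.comp (continuous_fst.add
      ((cont_single 2).comp (by fun_prop))))).pow 2
  exact continuous_parametric_integral_of_continuous hF isCompact_Icc

theorem int_DD {f : V → ℝ} (sf : SP f) (ρ : ℝ) :
    ∫ x in cube, ∫ s in Icc (-1 : ℝ) 1, (f x - f (x + Pi.single 2 (ρ * s))) ^ 2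
      ≤ 2 * (ρ ^ 2 * ∫ x in cube, pd 2 f x ^ 2) := by
  have cf := cp_of sf
  have hF : Continuous fun q : V × ℝ => (f q.1 - f (q.1 + Pi.single 2 (ρ * q.2))) ^ 2 :=
    ((cf.cont.comp continuous_fst).sub (cf.cont.comp (continuous_fst.add
      ((cont_single 2).comp (by fun_prop))))).pow 2
  have hK' : IsCompact (cube : Set V) := isCompact_Icc
  rw [swap (μ := (volume : Measure V)) (ν := (volume : Measure ℝ)) hK' isCompact_Icc hF]
  have hc : Continuous fun s : ℝ => ∫ x in cube, (f x - f (x + Pi.single 2 (ρ * s))) ^ 2 := by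
    have hF2 : Continuous fun q : ℝ × V => (f q.2 - f (q.2 + Pi.single 2 (ρ * q.1))) ^ 2 :=
      hF.comp (by fun_prop : Continuous fun q : ℝ × V => (q.2, q.1))
    exact continuous_parametric_integral_of_continuous hF2 hK'
  set F2 : ℝ := ∫ x in cube, pd 2 f x ^ 2 with hF2
  have hF20 : 0 ≤ F2 := integral_nonneg fun x => sq_nonneg _
  have h1 : ∫ s in Icc (-1 : ℝ) 1, ∫ x in cube, (f x - f (x + Pi.single 2 (ρ * s))) ^ 2
      ≤ ∫ s in Icc (-1 : ℝ) 1, ρ ^ 2 * F2 := by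
    refine setIntegral_mono_on hc.continuousOn.integrableOn_Icc
      continuous_const.continuousOn.integrableOn_Icc measurableSet_Icc fun s hs => ?_
    refine (shift_sq sf (ρ * s)).trans ?_
    refine mul_le_mul_of_nonneg_right ?_ hF20
    rw [mul_pow]
    have : s ^ 2 ≤ 1 := by
      rw [sq_le_one_iff_abs_le_one, abs_le]
      exact hs
    nlinarith [sq_nonneg ρ]
  refine h1.trans (le_of_eq ?_)
  rw [setIntegral_const, Measure.real, Real.volume_Icc]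
  norm_num

/-- The comparison without a small factor. -/
theorem pair_big {m : ℕ} (hm : 1 ≤ m) {ex U κ Φ : ℝ} (hex : 0 ≤ ex) (hU0 : 0 ≤ U)
    (hΦ0 : 0 ≤ Φ) (hΦ2 : Φ ≤ κ * U) :
    ex ^ (2 * m - 2) * Φ ^ 2 ≤ κ ^ 2 * (ex ^ (2 * m) + U ^ (2 * m)) := by
  have l1 := pow_le_pow_left₀ hΦ0 hΦ2 2
  have l2 := mul_le_mul_of_nonneg_left l1 (pow_nonneg hex (2 * m - 2))
  have l3 := pow_mix hex hU0 (q := 2 * m) (by omega)
  have l4 := mul_le_mul_of_nonneg_left l3 (sq_nonneg κ)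
  rw [mul_pow] at l2
  linarith

/-- The frequency from below. -/
theorem kappa_le {r N δ ρ : ℝ} (hr : 2 < r) (hN0 : 0 < N) (hδ : 0 < δ) (hρ0 : 0 < ρ)
    (hs : δ < N ^ 2 * ρ ^ (2 - 4 / r)) :
    (8 * N * ρ ^ (-(2 / r))) ^ 2 ≤ 64 * (N ^ r / δ) ^ (2 / (r - 2)) := by
  have hr2 : 0 < r - 2 := by linarith
  have hr0 : 0 < r := by linarith
  set k : ℝ := (N ^ r / δ) ^ (2 / (r - 2)) with hk
  have hθ : 0 < 2 - 4 / r := by
    rw [sub_pos, div_lt_iff₀ hr0]
    linarith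
  have hq : 0 < δ / N ^ 2 := by positivity
  have l1 : δ / N ^ 2 ≤ ρ ^ (2 - 4 / r) := by
    rw [div_le_iff₀ (by positivity)]
    linarith
  have l2 : (ρ ^ (2 - 4 / r)) ^ (-(2 / (r - 2))) ≤ (δ / N ^ 2) ^ (-(2 / (r - 2))) := by
    apply Real.rpow_le_rpow_of_nonpos hq l1
    have : 0 < 2 / (r - 2) := by positivity
    linarith
  have e1 : (ρ ^ (2 - 4 / r)) ^ (-(2 / (r - 2))) = (ρ ^ (-(2 / r))) ^ 2 := by
    rw [← Real.rpow_mul hρ0.le, ← Real.rpow_natCast, ← Real.rpow_mul hρ0.le]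
    congr 1
    push_cast
    field_simp
    ring
  have e2 : N ^ 2 * (δ / N ^ 2) ^ (-(2 / (r - 2))) = k := by
    rw [Real.rpow_neg hq.le, ← Real.inv_rpow hq.le, inv_div, hk,
      Real.div_rpow (by positivity) hδ.le, Real.div_rpow (by positivity) hδ.le]
    have e3 : N ^ 2 * ((N ^ 2) ^ (2 / (r - 2))) = (N ^ r) ^ (2 / (r - 2)) := by
      rw [← Real.rpow_natCast, ← Real.rpow_mul hN0.le, ← Real.rpow_mul hN0.le,
        ← Real.rpow_add hN0]
      congr 1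
      push_cast
      field_simp
      ring
    rw [← e3]
    ring
  have e3 : (8 * N * ρ ^ (-(2 / r))) ^ 2 = 64 * (N ^ 2 * (ρ ^ (-(2 / r))) ^ 2) := by ring
  rw [e3, ← e1, ← e2]
  have := mul_le_mul_of_nonneg_left l2 (sq_nonneg N)
  linarith

theorem kappa_small {r N δ ρ : ℝ} (hρ0 : 0 < ρ) (hs : N ^ 2 * ρ ^ (2 - 4 / r) ≤ δ) :
    (8 * N * ρ ^ (-(2 / r))) ^ 2 ≤ 64 * δ * (ρ⁻¹) ^ 2 := by
  have e1 : (ρ ^ (-(2 / r))) ^ 2 = ρ ^ (2 - 4 / r) * (ρ⁻¹) ^ 2 := by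
    rw [← Real.rpow_natCast, ← Real.rpow_mul hρ0.le, ← Real.rpow_neg_one ρ,
      ← Real.rpow_natCast (ρ ^ (-1 : ℝ)), ← Real.rpow_mul hρ0.le, ← Real.rpow_add hρ0]
    congr 1
    push_cast
    ring
  have e2 : (8 * N * ρ ^ (-(2 / r))) ^ 2 = 64 * (N ^ 2 * ρ ^ (2 - 4 / r)) * (ρ⁻¹) ^ 2 := by
    rw [mul_pow, e1]
    ring
  rw [e2]
  refine mul_le_mul_of_nonneg_right ?_ (by positivity)
  linarith

section field

variable {v : Fin 3 → V → ℝ} (hv : ∀ i, SP (v i))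

include hv in
theorem int_W {E : ℝ} (hE0 : 0 ≤ E) {m : ℕ} (hm : 2 ≤ m) :
    ∫ x in cube, (Hz (vsq (ww v)) x + E) ^ (2 * m - 1) * Hz (ga v) x
      ≤ 2 ^ (2 * m - 1) * (6 + E ^ (2 * m - 1))
        * ((∫ x in cube, Hz (vsq (ww v)) x ^ (2 * m - 1) * Hz (ga (ww v)) x)
          + ysq v * (1 + ∫ x in cube, Hz (vsq (ww v)) x ^ (2 * m))) := by
  have hw := ww_sp hv
  set n : ℕ := 2 * m - 1 with hn
  set e : V → ℝ := Hz (vsq (ww v)) with he
  have ce : CP e := (cp_of (vsq_sp hw)).hz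
  have e0 : ∀ x, 0 ≤ e x := Hz_nonneg (vsq_nonneg _)
  set D : V → ℝ := Hz (ga v) with hD
  have cD : CP D := (cp_of (ga_sp hv)).hz
  have D0 : ∀ x, 0 ≤ D x := Hz_nonneg ga_nonneg
  set d : V → ℝ := Hz (ga (ww v)) with hd
  have cd : CP d := (cp_of (ga_sp hw)).hz
  have d0 : ∀ x, 0 ≤ d x := Hz_nonneg ga_nonneg
  set Y : ℝ := ∫ x in cube, e x ^ (2 * m) with hY
  have hY0 : 0 ≤ Y := integral_nonneg fun x => pow_nonneg (e0 x) _
  set X1 : ℝ := ∫ x in cube, e x ^ n * d x with hX1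
  have hX10 : 0 ≤ X1 := integral_nonneg fun x => mul_nonneg (pow_nonneg (e0 x) _) (d0 x)
  set y : ℝ := ysq v with hy
  have hy0 : 0 ≤ y := ysq_nonneg v
  have h1 : ∫ x in cube, (e x + E) ^ n * D x
      ≤ ∫ x in cube, (2 ^ n * (2 * (e x ^ n * d x) + 4 * y * e x ^ n) + 2 ^ n * (E ^ n * D x)) := by
    refine integral_mono (((ce.add (CP.const E)).pow n).mul cD).int
      ((((((ce.pow n).mul cd).cmul 2).add ((ce.pow n).cmul (4 * y))).cmul (2 ^ n)).add
        ((cD.cmul (E ^ n)).cmul (2 ^ n))).int fun x => ?_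
    have l1 := add_pow_le' (e0 x) hE0 n
    have l2 := mul_le_mul_of_nonneg_right l1 (D0 x)
    have l3 := Hz_ga_le hv x
    have l4 := mul_le_mul_of_nonneg_left l3 (by
      have := e0 x
      positivity : 0 ≤ 2 ^ n * e x ^ n)
    simp only [hd, hD] at l2 l4 ⊢
    linarith
  have i1 : IntegrableOn (fun x => 2 ^ n * (2 * (e x ^ n * d x) + 4 * y * e x ^ n)) cube :=
    (((((ce.pow n).mul cd).cmul 2).add ((ce.pow n).cmul (4 * y))).cmul (2 ^ n)).int
  have i2 : IntegrableOn (fun x => 2 ^ n * (E ^ n * D x)) cube :=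
    ((cD.cmul (E ^ n)).cmul (2 ^ n)).int
  rw [integral_add i1 i2, integral_const_mul, integral_const_mul, integral_const_mul,
    integral_add (((ce.pow n).mul cd).cmul 2).int ((ce.pow n).cmul (4 * y)).int,
    integral_const_mul, integral_const_mul, int_Hz (cp_of (ga_sp hv)), int_ga hv] at h1
  have h2 : ∫ x in cube, e x ^ n ≤ 1 + Y := by
    have hfin := cube_finite
    have c1 : ∫ x in cube, (1 : ℝ) = 1 := by
      rw [setIntegral_const, Measure.real, volume_cube]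
      simp
    have h3 : ∫ x in cube, e x ^ n ≤ ∫ x in cube, (1 + e x ^ (2 * m)) :=
      integral_mono (ce.pow _).int ((CP.const 1).add (ce.pow _)).int fun x =>
        pow_one_le (e0 x) (by omega)
    rw [integral_add (integrable_const 1) (ce.pow _).int, c1] at h3
    exact h3
  have a1 : 0 ≤ (2 : ℝ) ^ n := by positivity
  have a2 : 0 ≤ E ^ n := by positivity
  have h4 : 4 * y * ∫ x in cube, e x ^ n ≤ 4 * y * (1 + Y) :=
    mul_le_mul_of_nonneg_left h2 (by positivity)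
  have h5 : 2 * X1 + 4 * y * (∫ x in cube, e x ^ n) + E ^ n * y
      ≤ (6 + E ^ n) * (X1 + y * (1 + Y)) := by
    have b1 : 0 ≤ y * Y := by positivity
    have b2 : 0 ≤ E ^ n * X1 := by positivity
    have b3 : 0 ≤ E ^ n * (y * Y) := by positivity
    nlinarith
  have h6 := mul_le_mul_of_nonneg_left h5 a1
  simp only [hX1] at h6 ⊢
  linarith

include hv in
theorem int_pd_pow {m : ℕ} (hm : 2 ≤ m) :
    ∫ x in cube, pd 2 (fun y => Hz (vsq (ww v)) y ^ m) x ^ 2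
      = m ^ 2 * ∫ x in cube, Hz (vsq (ww v)) x ^ (2 * m - 2) * pd 2 (Hz (vsq (ww v))) x ^ 2 := by
  have se : SP (Hz (vsq (ww v))) := hz_sp (vsq_sp (ww_sp hv))
  rw [← integral_const_mul]
  congr 1
  funext x
  rw [pd_pow se, mul_pow, mul_pow]
  have e1 : (Hz (vsq (ww v)) x ^ (m - 1)) ^ 2 = Hz (vsq (ww v)) x ^ (2 * m - 2) := by
    rw [← pow_mul]
    congr 1
    omega
  rw [e1]
  ring

theorem QG_fz {G φ : V → ℝ} (cG : CP G) (hφ : CP φ) (h0 : ∀ x, 0 ≤ φ x) (ρ : ℝ) (x : V) :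
    QG G φ ρ x = BB 2 ρ (Hz fun z => fz G x z * AH ρ φ z) x := by
  rw [← Hz_mul_BA (fz_cp cG x) (fz_ind G x) hφ h0]
  unfold QG
  apply Hz_congr
  intro z hz
  rw [fz_eq hz]

/-- The far part. -/
theorem far_K {r : ℝ} (hr : 2 < r) {m : ℕ} (hm : 2 ≤ m) {E : ℝ} (hE0 : 0 ≤ E) : ∃ C, 0 ≤ C ∧
    ∀ G : V → ℝ, CP G → (∀ x, 0 ≤ G x) → ∀ δ : ℝ, 0 < δ → δ ≤ 1 →
    ∀ v : Fin 3 → V → ℝ, (∀ i, SP (v i)) → esq v ≤ E → ∀ ρ ∈ Ioc (0 : ℝ) 1,
    ∫ x in cube, Hz (vsq (ww v)) x ^ (2 * m - 2) * QG G (vsq v) ρ x ^ 2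
      ≤ C * ((∫ x in cube, kk r δ G x * (Hz (vsq (ww v)) x ^ (2 * m)
          + BB 2 ρ (fun z => Hz (vsq v) z ^ (2 * m)) x))
        + δ * ((∫ x in cube, Hz (vsq (ww v)) x ^ (2 * m - 1) * Hz (ga (ww v)) x)
          + (∫ x in cube, Hz (vsq (ww v)) x ^ (2 * m - 2) * pd 2 (Hz (vsq (ww v))) x ^ 2)
          + ysq v * (1 + ∫ x in cube, Hz (vsq (ww v)) x ^ (2 * m)))) := by
  obtain ⟨C, hC1, hC⟩ := mult_vec hr
  have hr2 : 0 < r - 2 := by linarith
  have hr0 : 0 < r := by linarith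
  set n : ℕ := 2 * m - 1 with hn
  set K : ℝ := 16 * C with hK
  have hK0 : 0 ≤ K := by positivity
  refine ⟨(8 * K + 256) + 4 * (K * 2 ^ n) * (2 ^ n * (6 + E ^ n)) + 512 * m ^ 2,
    by positivity, ?_⟩
  intro G cG G0 δ hδ hδ1 v hv hE ρ hρ
  have hw := ww_sp hv
  set e : V → ℝ := Hz (vsq (ww v)) with he
  have se : SP e := hz_sp (vsq_sp hw)
  have ce : CP e := cp_of se
  have e0 : ∀ x, 0 ≤ e x := Hz_nonneg (vsq_nonneg _)
  set U : V → ℝ := Hz (vsq v) with hU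
  have cU : CP U := (cp_of (vsq_sp hv)).hz
  have U0 : ∀ x, 0 ≤ U x := Hz_nonneg (vsq_nonneg _)
  set D : V → ℝ := Hz (ga v) with hD
  have cD : CP D := (cp_of (ga_sp hv)).hz
  have D0 : ∀ x, 0 ≤ D x := Hz_nonneg ga_nonneg
  have hρ0 := hρ.1
  set k : V → ℝ := kk r δ G with hk
  have ck : CP k := kk_cp hr cG
  have k1 : ∀ x, 1 ≤ k x := kk_one hr hδ hδ1 G0
  have k0 : ∀ x, 0 ≤ k x := fun x => by linarith [k1 x]
  have cW : CP (vsq v) := cp_of (vsq_sp hv)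
  set Φ : V → V → ℝ := fun x => Hz (fun z => fz G x z * AH ρ (vsq v) z) with hΦ
  have cΦ : ∀ x, CP (Φ x) := fun x => ((fz_cp cG x).mul (AH_cp cW ρ)).hz
  have Φ0 : ∀ x z, 0 ≤ Φ x z := fun x => Hz_nonneg fun z =>
    mul_nonneg (fz_nonneg G0 x z) (AH_nonneg (vsq_nonneg v) ρ z)
  have hQ : ∀ x, QG G (vsq v) ρ x = BB 2 ρ (Φ x) x := fun x => QG_fz cG cW (vsq_nonneg v) ρ x
  have cQ : CP (QG G (vsq v) ρ) := QG_cp cG cW ρ
  set κ : V → ℝ := fun x => 8 * Nx r G x * ρ ^ (-(2 / r)) with hκ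
  have N1 : ∀ x, 1 ≤ Nx r G x := Nx_one hr0 G0
  have hκ0 : ∀ x, 0 ≤ κ x := fun x => by
    have := N1 x
    positivity
  have hΦ2 : ∀ x z, Φ x z ≤ κ x * U z := fun x z =>
    smooth_le (by linarith) (fz_cp cG x) (fz_ind G x) (fz_nonneg G0 x) (by linarith [N1 x])
      (int_fz hr0 cG G0 x) cW (vsq_nonneg v) hρ z
  have hkx : ∀ x, (Nx r G x ^ r / δ) ^ (2 / (r - 2)) = k x := by
    intro x
    rw [Nx_pow hr0 G0]
    rfl
  have hΦ1 : ∀ x z, Φ x z ^ 2 ≤ K * (U z * (δ * D z + (δ + k x) * U z)) := by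
    intro x z
    have h1 := Phi_mult (fz_cp cG x) (fz_nonneg G0 x)
      (hC (fz G x) (fz_cp cG x) (fz_ind G x) (fz_nonneg G0 x) (Nx r G x) (N1 x)
        (int_fz hr0 cG G0 x) δ hδ hδ1) hv ρ z
    rw [hkx] at h1
    have h2 := pow_le_pow_left₀ (Φ0 x z) h1 2
    have h3 : 0 ≤ C * (δ * (U z + D z) + k x * U z) * U z := by
      have := U0 z
      have := D0 z
      have := k0 x
      positivity
    rw [mul_pow, Real.sq_sqrt h3] at h2
    refine h2.trans (le_of_eq ?_)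
    rw [hK]
    ring
  have hUe : ∀ z, U z ≤ 2 * (e z + E) := by
    intro z
    have := Hz_vsq_le_ww hv z
    linarith
  set f : V → ℝ := fun y => e y ^ m with hf
  have sf : SP f := SP.powr se m
  have cf := cp_of sf
  set W : V → ℝ := fun z => (e z + E) ^ n * D z with hW
  have cWW : CP W := ((ce.add (CP.const E)).pow _).mul cD
  have W0 : ∀ z, 0 ≤ W z := fun z => mul_nonneg (pow_nonneg (by linarith [e0 z]) _) (D0 z)
  set c2 : ℝ := K * 2 ^ n * δ with hc2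
  have hc20 : 0 ≤ c2 := by positivity
  set c3 : ℝ := 128 * δ * (ρ⁻¹) ^ 2 with hc3
  have hc30 : 0 ≤ c3 := by positivity
  set c1 : ℝ := 2 * K + 64 with hc1
  have hc10 : 0 ≤ c1 := by positivity
  -- the pointwise bound
  have pt : ∀ x z, e x ^ (2 * m - 2) * Φ x z ^ 2 ≤ c1 * k x * (e x ^ (2 * m) + U z ^ (2 * m))
      + c2 * W z + c3 * (f x - f z) ^ 2 := by
    intro x z
    have n1 : 0 ≤ e x ^ (2 * m) + U z ^ (2 * m) :=
      add_nonneg (pow_nonneg (e0 x) _) (pow_nonneg (U0 z) _)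
    rcases le_or_gt (Nx r G x ^ 2 * ρ ^ (2 - 4 / r)) δ with hs | hs
    · have h1 := pair hm (e0 x) (e0 z) (U0 z) (D0 z) (hκ0 x) (Φ0 x z) hK0 hδ.le (k0 x) hE0
        (hΦ1 x z) (hΦ2 x z) (hUe z)
      have h2 : (κ x) ^ 2 ≤ 64 * δ * (ρ⁻¹) ^ 2 := kappa_small hρ0 hs
      have h3 : K * (δ + k x) ≤ c1 * k x := by
        have l1 : K * δ ≤ K * k x := mul_le_mul_of_nonneg_left (hδ1.trans (k1 x)) hK0
        have l2 := k0 x
        rw [hc1]
        linarith
      have h4 := mul_le_mul_of_nonneg_right h3 n1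
      have h5 : 2 * (κ x) ^ 2 * (e x ^ m - e z ^ m) ^ 2 ≤ c3 * (f x - f z) ^ 2 := by
        refine mul_le_mul_of_nonneg_right ?_ (sq_nonneg _)
        rw [hc3]
        linarith
      have h6 : K * 2 ^ (2 * m - 1) * δ * ((e z + E) ^ (2 * m - 1) * D z) = c2 * W z := rfl
      linarith
    · have h1 := pair_big (m := m) (by omega) (e0 x) (U0 z) (Φ0 x z) (hΦ2 x z)
      have h2 : (κ x) ^ 2 ≤ 64 * k x := by
        have := kappa_le hr (by linarith [N1 x]) hδ hρ0 hs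
        rwa [hkx] at this
      have h3 : (κ x) ^ 2 ≤ c1 * k x := by
        have : 0 ≤ 2 * K * k x := by
          have := k0 x
          positivity
        rw [hc1]
        linarith
      have h4 := mul_le_mul_of_nonneg_right h3 n1
      have h5 : 0 ≤ c2 * W z := mul_nonneg hc20 (W0 z)
      have h6 : 0 ≤ c3 * (f x - f z) ^ 2 := mul_nonneg hc30 (sq_nonneg _)
      linarith
  have cUm : CP fun z => U z ^ (2 * m) := cU.pow _
  set BU : V → ℝ := BB 2 ρ (fun z => U z ^ (2 * m)) with hBU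
  have cBU : CP BU := BB_cp cUm 2 ρ
  have BU0 : ∀ x, 0 ≤ BU x := BB_nonneg (fun z => pow_nonneg (U0 z) _) 2 ρ
  set DD : V → ℝ := fun x => ∫ s in Icc (-1 : ℝ) 1, (f x - f (x + Pi.single 2 (ρ * s))) ^ 2 with hDD
  have cDD : Continuous DD := DD_cont cf.cont ρ
  have iDD : ∫ x in cube, DD x ≤ 2 * (ρ ^ 2 * ∫ x in cube, pd 2 f x ^ 2) := int_DD sf ρ
  have ckU : CP fun x => k x * (e x ^ (2 * m) + BU x) := ck.mul ((ce.pow _).add cBU)
  have h1 : ∫ x in cube, e x ^ (2 * m - 2) * QG G (vsq v) ρ x ^ 2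
      ≤ ∫ x in cube, ((4 * c1 * (k x * (e x ^ (2 * m) + BU x)) + 2 * c2 * BB 2 ρ W x)
        + 2 * c3 * DD x) := by
    refine integral_mono ((ce.pow _).mul (cQ.pow 2)).int (integrableOn_cube ?_) fun x => ?_
    · exact ((continuous_const.mul ckU.cont).add (continuous_const.mul (BB_cont cWW.cont 2 ρ))).add
        (continuous_const.mul cDD)
    · have q1 := BB_sq (cΦ x).cont 2 ρ x
      have q2 := mul_le_mul_of_nonneg_left q1 (pow_nonneg (e0 x) (2 * m - 2))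
      have q3 : e x ^ (2 * m - 2) * BB 2 ρ (fun y => Φ x y ^ 2) x
          = BB 2 ρ (fun z => e x ^ (2 * m - 2) * Φ x z ^ 2) x := (BB_cmul _ _ 2 ρ x).symm
      have cdif : Continuous fun z => (f x - f z) ^ 2 := (continuous_const.sub cf.cont).pow 2
      have b1 : Continuous fun z => c1 * k x * (e x ^ (2 * m) + U z ^ (2 * m)) :=
        continuous_const.mul (continuous_const.add cUm.cont)
      have b2 : Continuous fun z => c2 * W z := continuous_const.mul cWW.cont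
      have b3 : Continuous fun z => c3 * (f x - f z) ^ 2 := continuous_const.mul cdif
      have b12 : Continuous fun z => c1 * k x * (e x ^ (2 * m) + U z ^ (2 * m)) + c2 * W z :=
        b1.add b2
      have q4 : BB 2 ρ (fun z => e x ^ (2 * m - 2) * Φ x z ^ 2) x
          ≤ BB 2 ρ (fun z => (c1 * k x * (e x ^ (2 * m) + U z ^ (2 * m)) + c2 * W z)
            + c3 * (f x - f z) ^ 2) x :=
        BB_mono (φ := fun z => e x ^ (2 * m - 2) * Φ x z ^ 2)
          (ψ := fun z => (c1 * k x * (e x ^ (2 * m) + U z ^ (2 * m)) + c2 * W z)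
            + c3 * (f x - f z) ^ 2) (continuous_const.mul ((cΦ x).cont.pow 2))
          (b12.add b3) (fun z => pt x z) 2 ρ x
      have q5 : BB 2 ρ (fun z => (c1 * k x * (e x ^ (2 * m) + U z ^ (2 * m)) + c2 * W z)
            + c3 * (f x - f z) ^ 2) x
          = c1 * k x * (2 * e x ^ (2 * m) + BU x) + c2 * BB 2 ρ W x + c3 * DD x := by
        have r1 := BB_add b12 b3 2 ρ x
        have r2 := BB_add b1 b2 2 ρ x
        have r3 := BB_cmul (c1 * k x) (fun z => e x ^ (2 * m) + U z ^ (2 * m)) 2 ρ x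
        have r4 := BB_add (φ := fun _ => e x ^ (2 * m)) (ψ := fun z => U z ^ (2 * m))
          continuous_const cUm.cont 2 ρ x
        have r5 := BB_const (e x ^ (2 * m)) 2 ρ x
        have r6 := BB_cmul c2 W 2 ρ x
        have r7 := BB_cmul c3 (fun z => (f x - f z) ^ 2) 2 ρ x
        have r8 : BB 2 ρ (fun z => (f x - f z) ^ 2) x = DD x := rfl
        rw [r1, r2, r3, r4, r5, r6, r7, r8]
      rw [q5] at q4
      rw [← q3] at q4
      have q6 : 0 ≤ c1 * k x * BU x := by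
        have := k0 x
        have := BU0 x
        positivity
      simp only
      rw [hQ]
      nlinarith
  have i1 : IntegrableOn (fun x => 4 * c1 * (k x * (e x ^ (2 * m) + BU x))) cube :=
    (ckU.cmul _).int
  have i2 : IntegrableOn (fun x => 2 * c2 * BB 2 ρ W x) cube := ((BB_cp cWW 2 ρ).cmul _).int
  have i3 : IntegrableOn (fun x => 2 * c3 * DD x) cube :=
    integrableOn_cube (continuous_const.mul cDD)
  have i12 : IntegrableOn (fun x => 4 * c1 * (k x * (e x ^ (2 * m) + BU x))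
      + 2 * c2 * BB 2 ρ W x) cube := i1.add i2
  rw [integral_add i12 i3, integral_add i1 i2, integral_const_mul, integral_const_mul,
    integral_const_mul, int_BB cWW] at h1
  refine h1.trans ?_
  set KI : ℝ := ∫ x in cube, k x * (e x ^ (2 * m) + BU x) with hKI
  have hKI0 : 0 ≤ KI := integral_nonneg fun x =>
    mul_nonneg (k0 x) (add_nonneg (pow_nonneg (e0 x) _) (BU0 x))
  set Y : ℝ := ∫ x in cube, e x ^ (2 * m) with hY
  have hY0 : 0 ≤ Y := integral_nonneg fun x => pow_nonneg (e0 x) _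
  set X1 : ℝ := ∫ x in cube, e x ^ n * Hz (ga (ww v)) x with hX1
  have hX10 : 0 ≤ X1 := integral_nonneg fun x =>
    mul_nonneg (pow_nonneg (e0 x) _) (Hz_nonneg ga_nonneg x)
  set X2 : ℝ := ∫ x in cube, e x ^ (2 * m - 2) * pd 2 e x ^ 2 with hX2
  have hX20 : 0 ≤ X2 := integral_nonneg fun x => mul_nonneg (pow_nonneg (e0 x) _) (sq_nonneg _)
  set y : ℝ := ysq v with hy
  have hy0 : 0 ≤ y := ysq_nonneg v
  have hWI : ∫ x in cube, W x ≤ 2 ^ n * (6 + E ^ n) * (X1 + y * (1 + Y)) := int_W hv hE0 hm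
  have hF : ∫ x in cube, pd 2 f x ^ 2 = m ^ 2 * X2 := int_pd_pow hv hm
  have t2 : 2 * c2 * (2 * ∫ x in cube, W x)
      ≤ 4 * (K * 2 ^ n) * (2 ^ n * (6 + E ^ n)) * (δ * (X1 + X2 + y * (1 + Y))) := by
    have l1 := mul_le_mul_of_nonneg_left hWI (by positivity : 0 ≤ 4 * c2)
    have l2 : 0 ≤ 4 * (K * 2 ^ n) * (2 ^ n * (6 + E ^ n)) * (δ * X2) := by positivity
    rw [hc2] at l1 ⊢
    linarith
  have t3 : 2 * c3 * (∫ x in cube, DD x) ≤ 512 * m ^ 2 * (δ * (X1 + X2 + y * (1 + Y))) := by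
    rw [hF] at iDD
    have l1 := mul_le_mul_of_nonneg_left iDD (by positivity : 0 ≤ 2 * c3)
    have e1 : 2 * c3 * (2 * (ρ ^ 2 * (m ^ 2 * X2))) = 512 * m ^ 2 * (δ * X2) := by
      rw [hc3]
      field_simp
      ring
    rw [e1] at l1
    have l2 : 0 ≤ 512 * (m : ℝ) ^ 2 * (δ * (X1 + y * (1 + Y))) := by positivity
    linarith
  have n1 : 0 ≤ δ * (X1 + X2 + y * (1 + Y)) := by positivity
  have n2 : 0 ≤ (8 * K + 256) * (δ * (X1 + X2 + y * (1 + Y))) := by positivity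
  have n3 : 0 ≤ (4 * (K * 2 ^ n) * (2 ^ n * (6 + E ^ n)) + 512 * (m : ℝ) ^ 2) * KI := by
    positivity
  have e1 : ((8 * K + 256) + 4 * (K * 2 ^ n) * (2 ^ n * (6 + E ^ n)) + 512 * (m : ℝ) ^ 2)
        * (KI + δ * (X1 + X2 + y * (1 + Y)))
      = (8 * K + 256) * KI + (8 * K + 256) * (δ * (X1 + X2 + y * (1 + Y)))
        + (4 * (K * 2 ^ n) * (2 ^ n * (6 + E ^ n)) + 512 * (m : ℝ) ^ 2) * KI
        + 4 * (K * 2 ^ n) * (2 ^ n * (6 + E ^ n)) * (δ * (X1 + X2 + y * (1 + Y)))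
        + 512 * (m : ℝ) ^ 2 * (δ * (X1 + X2 + y * (1 + Y))) := by ring
  have e2 : 4 * c1 * KI = (8 * K + 256) * KI := by
    rw [hc1]
    ring
  rw [e1, e2]
  linarith

end field

end Pool.Agent.H4LA
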