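import Pool.Agent.H4LA.WtL

/-!
The part of the kernel at positive distance: the case of the integrability below the line.
-/

set_option autoImplicit false
set_option linter.unusedVariables false

open MeasureTheory Set Function Filter Topology
open scoped ENNReal ContDiff

namespace Pool.Agent.H4LA

open H459R3.NS

/-- The sum of the exponents. -/
noncomputable def th (a r : ℝ) : ℝ := 1 / a + 2 / r

/-- The bound for the terms. -/
noncomputable def Zz (a r B X : ℝ) : ℝ := B ^ (1 - th a r) * X ^ th a r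

theorem Ey.th_pos {a r : ℝ} (h : Ey a r) : 0 < th a r := by
  have h1 := h.a_pos
  have h2 := h.r_pos
  unfold th
  positivity

theorem Ey.th_lt {a r : ℝ} (h : Ey a r) : th a r < 1 := h.hs

theorem Zz_nonneg {a r B X : ℝ} (hB : 0 ≤ B) (hX : 0 ≤ X) : 0 ≤ Zz a r B X := by
  unfold Zz
  positivity

theorem zz1 {a r B X : ℝ} (h : Ey a r) (hB : 0 < B) (hX : 0 < X) :
    (B * X) ^ (al a r / 2) * X ^ (2 * be a r) * X ^ gm a = Zz a r B X := by
  unfold Zz
  rw [Real.mul_rpow hB.le hX.le, mul_assoc, mul_assoc, ← Real.rpow_add hX, ← Real.rpow_add hX]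
  have e1 : al a r / 2 = 1 - th a r := by
    unfold al th
    ring
  have e2 : al a r / 2 + (2 * be a r + gm a) = th a r := by
    unfold al be gm th
    ring
  rw [e2, e1]

/-- The bounds with the smaller exponent. -/
theorem zz2 {a r B X : ℝ} (h : Ey a r) (hB : 1 ≤ B) (hX : B ≤ X) {p : ℝ} (hp : p ≤ th a r) :
    B ^ (1 - p) * X ^ p ≤ Zz a r B X := by
  have hB0 : 0 < B := by linarith
  have hX0 : 0 < X := by linarith
  have e1 : Zz a r B X = B ^ (1 - p) * X ^ p * (X ^ (th a r - p) * B ^ (-(th a r - p))) := by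
    unfold Zz
    have e2 : B ^ (1 - th a r) = B ^ (1 - p) * B ^ (-(th a r - p)) := by
      rw [← Real.rpow_add hB0]
      congr 1
      ring
    have e3 : X ^ th a r = X ^ p * X ^ (th a r - p) := by
      rw [← Real.rpow_add hX0]
      congr 1
      ring
    rw [e2, e3]
    ring
  rw [e1]
  refine le_mul_of_one_le_right (by positivity) ?_
  have h2 : B ^ (th a r - p) ≤ X ^ (th a r - p) :=
    Real.rpow_le_rpow hB0.le hX (by linarith)
  have h3 : 0 < B ^ (th a r - p) := Real.rpow_pos_of_pos hB0 _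
  rw [Real.rpow_neg hB0.le, ← div_eq_mul_inv, le_div_iff₀ h3, one_mul]
  exact h2

theorem one_le_Zz {a r B X : ℝ} (h : Ey a r) (hB : 1 ≤ B) (hX : B ≤ X) : 1 ≤ Zz a r B X := by
  unfold Zz
  exact one_le_mul_of_one_le_of_one_le (Real.one_le_rpow hB (by linarith [h.th_lt]))
    (Real.one_le_rpow (by linarith) h.th_pos.le)

/-- The averages over horizontal squares. -/
theorem Phi_L {G : V → ℝ} (cG : CP G) (G0 : ∀ x, 0 ≤ G x) {Fn : ℝ → ℝ → ℝ → ℝ}
    (hm : ∀ v : Fin 3 → V → ℝ, (∀ i, SP (v i)) → ∀ x A B J, Hz (vsq v) x ≤ A →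
      Hz (ga v) x ≤ B → Hz (fun y => vsq v y ^ 2) x ≤ J →
      Hz (fun y => G y ^ 2 * vsq v y) x ≤ Fn A B J)
    {v : Fin 3 → V → ℝ} (hv : ∀ i, SP (v i)) (ρ : ℝ) (x : V) :
    Hz (fun z => G z * AH ρ (vsq v) z) x
      ≤ 4 * √(Fn (Hz (vsq v) x) (Hz (ga v) x) (Hz (fun y => vsq v y ^ 2) x)
        * Hz (vsq v) x) := by
  refine Phi_two cG G0 (cp_of (vsq_sp hv)) (vsq_nonneg v) (fun a b => ?_) ρ
  have cW : CP (vsq v) := cp_of (vsq_sp hv)
  set h : V := Pi.single 1 b + Pi.single 0 a with hh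
  set v' : Fin 3 → V → ℝ := fun i y => v i (y + h) with hv'
  have sv' : ∀ i, SP (v' i) := fun i => SP.shift (hv i) h
  have e1 : ∀ y, vsq v' y = vsq v (y + h) := fun y => rfl
  have e1' : vsq v' = fun y => vsq v (y + h) := funext e1
  have e2 : ga v' = fun y => ga v (y + h) := by
    funext y
    unfold ga
    simp only [hv', pd_shift]
  have hA : Hz (vsq v') x ≤ Hz (vsq v) x := by
    rw [e1', Hz_shift cW, hh, i01_shift (i01_hz _)]
  have hB : Hz (ga v') x ≤ Hz (ga v) x := by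
    rw [e2, Hz_shift (cp_of (ga_sp hv)), hh, i01_shift (i01_hz _)]
  have hJ : Hz (fun y => vsq v' y ^ 2) x ≤ Hz (fun y => vsq v y ^ 2) x := by
    have : (fun y => vsq v' y ^ 2) = fun y => (fun z => vsq v z ^ 2) (y + h) := rfl
    rw [this, Hz_shift (cW.pow 2), hh, i01_shift (i01_hz _)]
  have h1 := hm v' sv' x _ _ _ hA hB hJ
  have cW' : CP (vsq v') := cp_of (vsq_sp sv')
  have n' : ∀ y, 0 ≤ vsq v' y := vsq_nonneg v'
  have h2 := Hz_cs_abs (cG.mul cW'.sqrt) cW'.sqrt x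
  have e3 : (fun y => |G y * √(vsq v' y)| * |√(vsq v' y)|) = fun y => G y * vsq v (y + h) := by
    funext y
    rw [abs_mul, abs_of_nonneg (G0 y), abs_of_nonneg (Real.sqrt_nonneg _), mul_assoc,
      Real.mul_self_sqrt (n' y), e1]
  have e4 : (fun y => (G y * √(vsq v' y)) ^ 2) = fun y => G y ^ 2 * vsq v' y := by
    funext y
    rw [mul_pow, Real.sq_sqrt (n' y)]
  have e5 : (fun y => √(vsq v' y) ^ 2) = vsq v' := by
    funext y
    rw [Real.sq_sqrt (n' y)]
  have n3 : 0 ≤ Hz (fun y => G y ^ 2 * vsq v' y) x :=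
    Hz_nonneg (fun y => mul_nonneg (sq_nonneg _) (n' y)) x
  rw [e3, e4, e5, ← Real.sqrt_mul n3] at h2
  refine h2.trans (Real.sqrt_le_sqrt ?_)
  exact mul_le_mul h1 hA (Hz_nonneg n' x) (n3.trans h1)

/-- The comparison of the values at two points. -/
theorem pairL {m : ℕ} (hm : 2 ≤ m) {ex ez U κ Φ E H : ℝ} (hex : 0 ≤ ex) (hez : 0 ≤ ez)
    (hU0 : 0 ≤ U) (hκ : 0 ≤ κ) (hΦ0 : 0 ≤ Φ) (hE : 0 ≤ E) (hH : 0 ≤ H)
    (hΦ1 : Φ ^ 2 ≤ U * H) (hΦ2 : Φ ≤ κ * U) (hU : U ≤ 2 * (ez + E)) :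
    ex ^ (2 * m - 2) * Φ ^ 2 ≤ 2 ^ (2 * m - 1) * ((ez + E) ^ (2 * m - 1) * H)
      + 2 * κ ^ 2 * (ex ^ m - ez ^ m) ^ 2 := by
  have n2 : 0 ≤ 2 ^ (2 * m - 1) * ((ez + E) ^ (2 * m - 1) * H) := by positivity
  have n3 : 0 ≤ 2 * κ ^ 2 * (ex ^ m - ez ^ m) ^ 2 := by positivity
  have hp : 0 ≤ ex ^ (2 * m - 2) := pow_nonneg hex _
  rcases le_or_gt ex (2 * (ez + E)) with h | h
  · have h1 := mul_le_mul_of_nonneg_left hΦ1 hp
    have h3 : ex ^ (2 * m - 2) * U ≤ 2 ^ (2 * m - 1) * (ez + E) ^ (2 * m - 1) := by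
      have k1 : ex ^ (2 * m - 2) ≤ (2 * (ez + E)) ^ (2 * m - 2) := pow_le_pow_left₀ hex h _
      have k2 : ex ^ (2 * m - 2) * U ≤ (2 * (ez + E)) ^ (2 * m - 2) * (2 * (ez + E)) :=
        mul_le_mul k1 hU hU0 (by positivity)
      rw [← pow_succ] at k2
      have e : 2 * m - 2 + 1 = 2 * m - 1 := by omega
      rw [e, mul_pow] at k2
      exact k2
    have h5 := mul_le_mul_of_nonneg_right h3 hH
    linarith
  · have hU' : U ≤ ex := by linarith
    have hez' : ez ≤ ex / 2 := by linarith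
    have h1 : ez ^ m ≤ ex ^ m / 4 := by
      have k1 := pow_le_pow_left₀ hez hez' m
      rw [div_pow] at k1
      have k2 : (4 : ℝ) ≤ 2 ^ m := by
        calc (4 : ℝ) = 2 ^ 2 := by norm_num
          _ ≤ 2 ^ m := pow_le_pow_right₀ (by norm_num) hm
      have k3 : ex ^ m / 2 ^ m ≤ ex ^ m / 4 :=
        div_le_div_of_nonneg_left (pow_nonneg hex m) (by norm_num) k2
      exact k1.trans k3
    have h2 : ex ^ (2 * m) ≤ 2 * (ex ^ m - ez ^ m) ^ 2 := by
      have e : ex ^ (2 * m) = (ex ^ m) ^ 2 := by rw [← pow_mul, mul_comm]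
      rw [e]
      have k0 : 0 ≤ ex ^ m := pow_nonneg hex m
      have k1 : 3 / 4 * ex ^ m ≤ ex ^ m - ez ^ m := by linarith
      have k2 := pow_le_pow_left₀ (by positivity) k1 2
      linarith only [k2, sq_nonneg (ex ^ m)]
    have h3 : ex ^ (2 * m - 2) * Φ ^ 2 ≤ κ ^ 2 * ex ^ (2 * m) := by
      have k1 : Φ ^ 2 ≤ (κ * ex) ^ 2 :=
        pow_le_pow_left₀ hΦ0 (hΦ2.trans (mul_le_mul_of_nonneg_left hU' hκ)) 2
      have k2 := mul_le_mul_of_nonneg_left k1 hp
      have e : ex ^ (2 * m) = ex ^ (2 * m - 2) * ex ^ 2 := by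
        rw [← pow_add]
        congr 1
        omega
      rw [e]
      rw [mul_pow] at k2
      linarith
    have h4 := mul_le_mul_of_nonneg_left h2 (sq_nonneg κ)
    linarith

theorem add_single_eq (x : V) (t : ℝ) : x + Pi.single 2 t = update x 2 (x 2 + t) := by
  funext k
  by_cases hk : k = 2
  · subst hk
    simp
  · simp [hk]

/-- The differences on a vertical line. -/
theorem DD_pt {f : V → ℝ} (hf : SP f) {ρ : ℝ} (hρ : 0 ≤ ρ) (x : V) {s : ℝ}
    (hs : s ∈ Icc (-1 : ℝ) 1) :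
    (f x - f (x + Pi.single 2 (ρ * s))) ^ 2 ≤ 2 * (ρ ^ 2 * BB 2 ρ (fun y => pd 2 f y ^ 2) x) := by
  set φ : ℝ → ℝ := fun σ => f (x + Pi.single 2 (ρ * σ)) with hφ
  set b : ℝ → ℝ := fun σ => pd 2 f (x + Pi.single 2 (ρ * σ)) with hb
  have cb : Continuous b := (hf.pd 2).cont.comp
    (continuous_const.add ((cont_single 2).comp (by fun_prop)))
  have hder : ∀ σ, HasDerivAt φ (ρ * b σ) σ := by
    intro σ
    have h1 := hasDerivAt_line hf x 2 (x 2 + ρ * σ)
    have h2 : HasDerivAt (fun σ : ℝ => x 2 + ρ * σ) ρ σ := by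
      have := ((hasDerivAt_id σ).const_mul ρ).const_add (x 2)
      simpa using this
    have h3 := h1.comp σ h2
    have e1 : ((fun s => f (update x 2 s)) ∘ fun σ : ℝ => x 2 + ρ * σ) = φ := by
      funext τ
      simp only [hφ, comp_apply, add_single_eq]
    rw [e1] at h3
    refine h3.congr_deriv ?_
    simp only [hb, add_single_eq]
    ring
  have k1 : ∫ σ in (0 : ℝ)..s, ρ * b σ = φ s - φ 0 :=
    intervalIntegral.integral_eq_sub_of_hasDerivAt (fun σ _ => hder σ)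
      ((continuous_const.mul cb).intervalIntegrable _ _)
  have e0 : φ 0 = f x := by
    simp only [hφ, mul_zero, Pi.single_zero, add_zero]
  have k2 : |(∫ σ in (0 : ℝ)..s, ρ * b σ)| ≤ ρ * BB 2 ρ (fun y => |pd 2 f y|) x := by
    have l1 : |(∫ σ in (0 : ℝ)..s, ρ * b σ)| ≤ |(∫ σ in (0 : ℝ)..s, |ρ * b σ|)| := by
      simpa only [Real.norm_eq_abs] using
        (intervalIntegral.norm_integral_le_abs_integral_norm (a := 0) (b := s)
          (f := fun σ => ρ * b σ) (μ := volume))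
    have l2 : |(∫ σ in (0 : ℝ)..s, |ρ * b σ|)| ≤ |(∫ σ in (-1 : ℝ)..1, |ρ * b σ|)| := by
      apply intervalIntegral.abs_integral_mono_interval
      · rw [uIoc_of_le (by norm_num : (-1 : ℝ) ≤ 1)]
        intro τ hτ
        rcases hτ with ⟨ha, hb⟩
        constructor
        · exact (le_min (by norm_num) hs.1).trans_lt ha
        · exact hb.trans (max_le (by norm_num) hs.2)
      · exact Filter.Eventually.of_forall fun r => abs_nonneg _
      · exact (continuous_const.mul cb).abs.intervalIntegrable _ _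
    have l3 : |(∫ σ in (-1 : ℝ)..1, |ρ * b σ|)| = ρ * BB 2 ρ (fun y => |pd 2 f y|) x := by
      rw [abs_of_nonneg (intervalIntegral.integral_nonneg (by norm_num) fun r _ => abs_nonneg _),
        intervalIntegral.integral_of_le (by norm_num), ← integral_Icc_eq_integral_Ioc]
      unfold BB
      rw [← integral_const_mul]
      congr 1
      funext σ
      rw [abs_mul, abs_of_nonneg hρ]
    exact l1.trans (l2.trans l3.le)
  have k3 : (f x - f (x + Pi.single 2 (ρ * s))) ^ 2 = |(∫ σ in (0 : ℝ)..s, ρ * b σ)| ^ 2 := by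
    rw [k1, e0, sq_abs]
    ring
  have k4 := pow_le_pow_left₀ (abs_nonneg _) k2 2
  have k5 := BB_sq (hf.pd 2).cont.abs 2 ρ x
  have e5 : (fun y => |pd 2 f y| ^ 2) = fun y => pd 2 f y ^ 2 := by
    funext y
    rw [sq_abs]
  rw [e5] at k5
  rw [k3]
  refine k4.trans ?_
  rw [mul_pow]
  have k6 := mul_le_mul_of_nonneg_left k5 (sq_nonneg ρ)
  linarith

/-- The inequality of Hoelder for the norms on slices. -/
theorem holN {a : ℝ} (ha : 2 < a) {k h : V → ℝ} (ck : Continuous k) (k0 : ∀ x, 0 ≤ k x)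
    (ch : Continuous h) (h0 : ∀ x, 0 ≤ h x) {M I : ℝ} (hM : 0 ≤ M)
    (hk : ∫ x in cube, k x ≤ M ^ a) (hI : ∫ x in cube, h x ≤ I) :
    ∫ x in cube, k x ^ (2 / a) * h x ^ gm a ≤ M ^ 2 * I ^ gm a := by
  have ha0 : 0 < a := by linarith
  have hg : 0 ≤ gm a := by
    unfold gm
    have : 2 / a < 1 := by rwa [div_lt_one ha0]
    linarith
  have h1 := hold4 ck ch (continuous_const (y := (1 : ℝ))) (continuous_const (y := (1 : ℝ)))
    k0 h0 (fun _ => zero_le_one) (fun _ => zero_le_one) (p1 := 2 / a) (p2 := gm a) (p3 := 0)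
    (p4 := 0) (by positivity) hg le_rfl le_rfl (by unfold gm; ring)
  simp only [Real.rpow_zero, mul_one] at h1
  refine h1.trans ?_
  have i1 : 0 ≤ ∫ x in cube, k x := integral_nonneg k0
  have i2 : 0 ≤ ∫ x in cube, h x := integral_nonneg h0
  have k1 : (∫ x in cube, k x) ^ (2 / a) ≤ M ^ 2 := by
    refine (Real.rpow_le_rpow i1 hk (by positivity)).trans (le_of_eq ?_)
    rw [← Real.rpow_mul hM, mul_div_cancel₀ _ ha0.ne']
    exact Real.rpow_ofNat _ 2
  exact mul_le_mul k1 (Real.rpow_le_rpow i2 hI hg) (Real.rpow_nonneg i2 _) (sq_nonneg M)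

/-- The product of two bounds. -/
theorem mix2 {T P Q lam : ℝ} (hT : 0 ≤ T) (hP : T ≤ P) (hQ : T ≤ Q) (h0 : 0 ≤ lam)
    (h1 : lam ≤ 1) : T ≤ P ^ lam * Q ^ (1 - lam) := by
  have e : T = T ^ lam * T ^ (1 - lam) := by
    rw [← Real.rpow_add_of_nonneg hT h0 (by linarith)]
    have : lam + (1 - lam) = 1 := by ring
    rw [this, Real.rpow_one]
  conv_lhs => rw [e]
  exact mul_le_mul (Real.rpow_le_rpow hT hP h0) (Real.rpow_le_rpow hT hQ (by linarith))
    (Real.rpow_nonneg hT _) (Real.rpow_nonneg (hT.trans hP) _)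

end Pool.Agent.H4LA
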