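import Pool.Agent.H4LA.FarL

/-!
The part of the kernel at positive distance: the integral.
-/

set_option autoImplicit false
set_option linter.unusedVariables false

open MeasureTheory Set Function Filter Topology
open scoped ENNReal ContDiff

namespace Pool.Agent.H4LA

open H459R3.NS

/-- The arithmetic of the two bounds. -/
theorem mix3 {a r : ℝ} (h : Ey a r) {T M B X ρ m c : ℝ} (hT : 0 ≤ T) (hM : 0 ≤ M) (hB : 1 ≤ B)
    (hBX : B ≤ X) (hρ : 0 < ρ) (hm : 1 ≤ m) (hc : 1 ≤ c)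
    (h1 : T ≤ 16 * m ^ 2 * (M ^ 2 * (ρ ^ (2 - 2 / a) * X)))
    (h2 : T ≤ M ^ 2 * ((4 * c * √(B * X)) ^ (2 / a) * (4 * B) ^ gm a)) :
    ρ ^ (-(4 / r)) * T ≤ 64 * m ^ 2 * c * (M ^ 2 * Zz a r B X) := by
  have ha := h.ha
  have ha0 := h.a_pos
  have hr0 := h.r_pos
  have hB0 : 0 < B := by linarith
  have hX0 : 0 < X := by linarith
  have hc0 : 0 < c := by linarith
  have hm0 : 0 < m := by linarith
  have hga := h.gm_pos
  have h1a : 0 < 1 - 1 / a := by
    have : 1 / a < 1 := by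
      rw [div_lt_one ha0]
      linarith
    linarith
  set lam : ℝ := 2 / r / (1 - 1 / a) with hlam
  have hl0 : 0 ≤ lam := by positivity
  have hl1 : lam ≤ 1 := by
    rw [hlam, div_le_one h1a]
    have := h.hs
    linarith
  have h1l : 0 ≤ 1 - lam := by linarith
  have F1 : lam * (1 - 1 / a) = 2 / r := div_mul_cancel₀ _ h1a.ne'
  have q0 : 0 ≤ M ^ 2 := sq_nonneg M
  have h2' : T ≤ 4 * c * (M ^ 2 * (B ^ (1 - 1 / a) * X ^ (1 / a))) := by
    refine h2.trans ?_
    have e1 : (4 * c * √(B * X)) ^ (2 / a) = 4 ^ (2 / a) * c ^ (2 / a) * (B * X) ^ (1 / a) := by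
      rw [Real.mul_rpow (by positivity) (Real.sqrt_nonneg _), Real.mul_rpow (by norm_num) hc0.le,
        Real.sqrt_eq_rpow, ← Real.rpow_mul (by positivity)]
      congr 2
      ring
    have e2 : (4 * B) ^ gm a = 4 ^ gm a * B ^ gm a := Real.mul_rpow (by norm_num) hB0.le
    have e3 : (4 : ℝ) ^ (2 / a) * 4 ^ gm a = 4 := by
      rw [← Real.rpow_add (by norm_num)]
      have : 2 / a + gm a = 1 := by
        unfold gm
        ring
      rw [this, Real.rpow_one]
    have e4 : (B * X) ^ (1 / a) * B ^ gm a = B ^ (1 - 1 / a) * X ^ (1 / a) := by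
      rw [Real.mul_rpow hB0.le hX0.le]
      have : B ^ (1 - 1 / a) = B ^ (1 / a) * B ^ gm a := by
        rw [← Real.rpow_add hB0]
        congr 1
        unfold gm
        ring
      rw [this]
      ring
    have e5 : c ^ (2 / a) ≤ c := by
      have : 2 / a ≤ 1 := by
        rw [div_le_one ha0]
        linarith
      have := Real.rpow_le_rpow_of_exponent_le hc this
      rwa [Real.rpow_one] at this
    have e6 : (4 * c * √(B * X)) ^ (2 / a) * (4 * B) ^ gm a
        = c ^ (2 / a) * (4 * (B ^ (1 - 1 / a) * X ^ (1 / a))) := by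
      rw [e1, e2, ← e4]
      calc 4 ^ (2 / a) * c ^ (2 / a) * (B * X) ^ (1 / a) * (4 ^ gm a * B ^ gm a)
          = ((4 : ℝ) ^ (2 / a) * 4 ^ gm a) * (c ^ (2 / a) * ((B * X) ^ (1 / a) * B ^ gm a)) := by
            ring
        _ = _ := by
            rw [e3]
            ring
    rw [e6]
    have e7 := mul_le_mul_of_nonneg_right e5
      (by positivity : 0 ≤ M ^ 2 * (4 * (B ^ (1 - 1 / a) * X ^ (1 / a))))
    linarith
  have h3 := mix2 hT h1 h2' hl0 hl1
  have k1 : (16 * m ^ 2 * (M ^ 2 * (ρ ^ (2 - 2 / a) * X))) ^ lam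
      = (16 * m ^ 2) ^ lam * ((M ^ 2) ^ lam * (ρ ^ (4 / r) * X ^ lam)) := by
    rw [Real.mul_rpow (by positivity) (by positivity), Real.mul_rpow q0 (by positivity),
      Real.mul_rpow (by positivity) hX0.le, ← Real.rpow_mul hρ.le]
    have : (2 - 2 / a) * lam = 4 / r := by
      calc (2 - 2 / a) * lam = 2 * (lam * (1 - 1 / a)) := by ring
        _ = 4 / r := by
            rw [F1]
            ring
    rw [this]
  have k2 : (4 * c * (M ^ 2 * (B ^ (1 - 1 / a) * X ^ (1 / a)))) ^ (1 - lam)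
      = (4 * c) ^ (1 - lam) * ((M ^ 2) ^ (1 - lam)
        * (B ^ (1 - th a r) * X ^ (1 / a * (1 - lam)))) := by
    rw [Real.mul_rpow (by positivity) (by positivity), Real.mul_rpow q0 (by positivity),
      Real.mul_rpow (x := B ^ (1 - 1 / a)) (y := X ^ (1 / a)) (by positivity) (by positivity),
      ← Real.rpow_mul hB0.le, ← Real.rpow_mul hX0.le]
    have : (1 - 1 / a) * (1 - lam) = 1 - th a r := by
      calc (1 - 1 / a) * (1 - lam) = 1 - 1 / a - lam * (1 - 1 / a) := by ring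
        _ = 1 - th a r := by
            rw [F1]
            unfold th
            ring
    rw [this]
  have k3 : (16 * m ^ 2) ^ lam * (4 * c) ^ (1 - lam) ≤ 64 * m ^ 2 * c := by
    have l1 : (16 * m ^ 2) ^ lam ≤ 16 * m ^ 2 := by
      have p1 : (1 : ℝ) ≤ 16 * m ^ 2 := by
        have := one_le_pow₀ hm (n := 2)
        linarith
      have := Real.rpow_le_rpow_of_exponent_le p1 hl1
      rwa [Real.rpow_one] at this
    have l2 : (4 * c) ^ (1 - lam) ≤ 4 * c := by
      have := Real.rpow_le_rpow_of_exponent_le (by linarith : 1 ≤ 4 * c)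
        (by linarith : 1 - lam ≤ 1)
      rwa [Real.rpow_one] at this
    have := mul_le_mul l1 l2 (by positivity) (by positivity)
    linarith
  have k4 : (M ^ 2) ^ lam * (M ^ 2) ^ (1 - lam) = M ^ 2 := by
    rw [← Real.rpow_add_of_nonneg q0 hl0 h1l]
    have : lam + (1 - lam) = 1 := by ring
    rw [this, Real.rpow_one]
  have k5 : X ^ lam * X ^ (1 / a * (1 - lam)) = X ^ th a r := by
    rw [← Real.rpow_add hX0]
    congr 1
    calc lam + 1 / a * (1 - lam) = 1 / a + lam * (1 - 1 / a) := by ring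
      _ = th a r := by
          rw [F1]
          rfl
  have k6 : ρ ^ (-(4 / r)) * ρ ^ (4 / r) = 1 := by
    rw [← Real.rpow_add hρ]
    simp
  rw [k1, k2] at h3
  have h4 := mul_le_mul_of_nonneg_left h3 (Real.rpow_nonneg hρ.le (-(4 / r)))
  refine h4.trans ?_
  have e8 : ρ ^ (-(4 / r)) * ((16 * m ^ 2) ^ lam * ((M ^ 2) ^ lam * (ρ ^ (4 / r) * X ^ lam))
      * ((4 * c) ^ (1 - lam) * ((M ^ 2) ^ (1 - lam)
        * (B ^ (1 - th a r) * X ^ (1 / a * (1 - lam))))))
      = ((16 * m ^ 2) ^ lam * (4 * c) ^ (1 - lam))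
        * (((M ^ 2) ^ lam * (M ^ 2) ^ (1 - lam)) * ((ρ ^ (-(4 / r)) * ρ ^ (4 / r))
          * (B ^ (1 - th a r) * (X ^ lam * X ^ (1 / a * (1 - lam)))))) := by ring
  rw [e8, k4, k5, k6, one_mul]
  exact mul_le_mul_of_nonneg_right k3 (mul_nonneg q0 (Zz_nonneg hB0.le hX0.le))

/-- The integral of the differences, weighted by the norm on slices. -/
theorem int_NDD {a r : ℝ} (h : Ey a r) {G : V → ℝ} (cG : CP G) (G0 : ∀ x, 0 ≤ G x) {M : ℝ}
    (hM1 : 1 ≤ M) (hM : ∫ x in cube, NR r G x ^ (a / r) ≤ M ^ a) {v : Fin 3 → V → ℝ}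
    (hv : ∀ i, SP (v i)) {m : ℕ} (hm : 2 ≤ m) {c E : ℝ} (hc : 1 ≤ c) (hE : 0 ≤ E)
    (hsup : ∀ x, (Hz (vsq (ww v)) x + E) ^ (2 * m) ≤ c * √((1 + Yv m v) * Xv m v)) {ρ : ℝ}
    (hρ : ρ ∈ Ioc (0 : ℝ) 1) :
    ρ ^ (-(4 / r)) * ∫ x in cube, NR r G x ^ (2 / r) * ∫ s in Icc (-1 : ℝ) 1,
        (Hz (vsq (ww v)) x ^ m - Hz (vsq (ww v)) (x + Pi.single 2 (ρ * s)) ^ m) ^ 2
      ≤ 64 * m ^ 2 * c * (M ^ 2 * Zz a r (1 + Yv m v) (Xv m v)) := by
  have ha := h.ha
  have hr := h.hr
  have ha0 := h.a_pos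
  have hr0 := h.r_pos
  have hw := ww_sp hv
  set e : V → ℝ := Hz (vsq (ww v)) with he
  have se : SP e := hz_sp (vsq_sp hw)
  have ie : I01 e := i01_hz _
  have ce : CP e := cp_of se
  have e0 : ∀ x, 0 ≤ e x := Hz_nonneg (vsq_nonneg _)
  set f : V → ℝ := fun y => e y ^ m with hf
  have sf : SP f := SP.powr se m
  have cf := cp_of sf
  have hif : I01 f := ie.powr m
  have hY0 := Yv_nonneg m v
  have hBX := B1_le_Xv m v
  set DD : V → ℝ := fun x => ∫ s in Icc (-1 : ℝ) 1, (f x - f (x + Pi.single 2 (ρ * s))) ^ 2 with hDD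
  have cDD : Continuous DD := DD_cont cf.cont ρ
  have DD0 : ∀ x, 0 ≤ DD x := fun x => integral_nonneg fun s => sq_nonneg _
  have N1 := fun x => NR_one (r := r) G0 x
  set k : V → ℝ := fun x => NR r G x ^ (2 / r) with hk
  have ck : CP k := cprp (NR_cp hr0.le cG) (by positivity)
  have k0 : ∀ x, 0 ≤ k x := fun x => Real.rpow_nonneg (by linarith [N1 x]) _
  have hM0 : 0 ≤ M := by linarith
  have ie2 : ∀ y, f y ^ 2 = e y ^ (2 * m) := by
    intro y
    simp only [hf]
    rw [← pow_mul, mul_comm]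
  have cdf : ∀ x : V, Continuous fun s : ℝ => (f x - f (x + Pi.single 2 (ρ * s))) ^ 2 := fun x =>
    (continuous_const.sub (cf.cont.comp (continuous_const.add
      ((cont_single 2).comp (by fun_prop))))).pow 2
  -- the small scale
  have h1 : ∫ x in cube, k x * DD x ≤ 16 * m ^ 2 * (M ^ 2 * (ρ ^ (2 - 2 / a) * Xv m v)) := by
    set g : V → ℝ := fun y => pd 2 f y ^ 2 with hg
    have cg : CP g := (cp_of (sf.pd 2)).pow 2
    have ig : I01 g := (I01.pd2 sf hif).powr 2
    have g0 : ∀ x, 0 ≤ g x := fun x => sq_nonneg _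
    have l1 : ∀ x, DD x ≤ 4 * (ρ ^ 2 * BB 2 ρ g x) := by
      intro x
      have q1 : DD x ≤ ∫ s in Icc (-1 : ℝ) 1, 2 * (ρ ^ 2 * BB 2 ρ g x) :=
        setIntegral_mono_on (cdf x).continuousOn.integrableOn_Icc
          continuous_const.continuousOn.integrableOn_Icc measurableSet_Icc fun s hs =>
          DD_pt sf hρ.1.le x hs
      rw [setIntegral_const, Measure.real, Real.volume_Icc] at q1
      norm_num at q1
      linarith
    have l2 : ∫ x in cube, k x * DD x ≤ ∫ x in cube, (4 * ρ ^ 2) * (k x * BB 2 ρ g x) := by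
      refine integral_mono (integrableOn_cube (ck.cont.mul cDD))
        ((ck.mul (BB_cp cg 2 ρ)).cmul _).int fun x => ?_
      have := mul_le_mul_of_nonneg_left (l1 x) (k0 x)
      simp only
      linarith
    rw [integral_const_mul] at l2
    have l3 := interp_near ha hr cG G0 hM1 hM cg ig g0 hρ
    have l4 := mul_le_mul_of_nonneg_left l3 (by positivity : 0 ≤ 4 * ρ ^ 2)
    have l5 : ∫ x in cube, g x = m ^ 2 * X2v m v := int_pd_pow hv hm
    rw [l5] at l4
    have l6 : ρ ^ (2 - 2 / a) = ρ ^ 2 * ρ ^ (-(2 / a)) := by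
      rw [← Real.rpow_natCast ρ 2, ← Real.rpow_add hρ.1]
      congr 1
    have l7 : X2v m v ≤ Xv m v := by
      have := X1v_nonneg m v
      have := ysq_nonneg v
      have : 0 ≤ (1 + ysq v) * (1 + Yv m v) := by positivity
      unfold Xv
      linarith
    have l8 := mul_le_mul_of_nonneg_left l7
      (by have := hρ.1; positivity : 0 ≤ 16 * (m : ℝ) ^ 2 * (M ^ 2 * (ρ ^ 2 * ρ ^ (-(2 / a)))))
    rw [l6]
    refine (l2.trans l4).trans ?_
    refine le_trans (le_of_eq ?_) (l8.trans (le_of_eq ?_))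
    · ring
    · ring
  -- the large scale
  have h2 : ∫ x in cube, k x * DD x
      ≤ M ^ 2 * ((4 * c * √((1 + Yv m v) * Xv m v)) ^ (2 / a) * (4 * (1 + Yv m v)) ^ gm a) := by
    set S : ℝ := c * √((1 + Yv m v) * Xv m v) with hS
    have hS0 : 0 ≤ S := by positivity
    have cf2 : CP fun y => f y ^ 2 := cf.pow 2
    set g : V → ℝ := fun x => 2 * f x ^ 2 + BB 2 ρ (fun y => f y ^ 2) x with hg
    have cg : CP g := (cf2.cmul 2).add (BB_cp cf2 2 ρ)
    have g0 : ∀ x, 0 ≤ g x := fun x => add_nonneg (by positivity)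
      (BB_nonneg (fun y => sq_nonneg _) 2 ρ x)
    have supf : ∀ x, f x ^ 2 ≤ S := by
      intro x
      rw [ie2]
      exact (pow_le_pow_left₀ (e0 x) (by linarith) _).trans (hsup x)
    have l1 : ∀ x, DD x ≤ g x := by
      intro x
      have c1 : Continuous fun z => f x ^ 2 + f z ^ 2 := continuous_const.add (cf.cont.pow 2)
      have q1 : DD x ≤ BB 2 ρ (fun z => f x ^ 2 + f z ^ 2) x := by
        refine integral_mono (cdf x).continuousOn.integrableOn_Icc (BB_intOn c1 2 ρ x)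
          fun s => ?_
        have p1 : 0 ≤ f x := pow_nonneg (e0 x) m
        have p2 : 0 ≤ f (x + Pi.single 2 (ρ * s)) := pow_nonneg (e0 _) m
        have p3 : 0 ≤ f x * f (x + Pi.single 2 (ρ * s)) := mul_nonneg p1 p2
        simp only
        linarith only [p3, sub_sq (f x) (f (x + Pi.single 2 (ρ * s)))]
      rw [BB_add (φ := fun _ => f x ^ 2) (ψ := fun z => f z ^ 2) continuous_const cf2.cont 2 ρ x,
        BB_const] at q1
      exact q1
    have supg : ∀ x, g x ≤ 4 * S := by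
      intro x
      have q1 : BB 2 ρ (fun y => f y ^ 2) x ≤ BB 2 ρ (fun _ => S) x :=
        BB_mono cf2.cont continuous_const (fun z => supf z) 2 ρ x
      rw [BB_const] at q1
      have := supf x
      simp only [hg]
      linarith
    have Ig : ∫ x in cube, g x ≤ 4 * (1 + Yv m v) := by
      simp only [hg]
      rw [integral_add (cf2.cmul 2).int (BB_cp cf2 2 ρ).int, integral_const_mul, int_BB cf2]
      have : ∫ x in cube, f x ^ 2 = Yv m v := by
        simp only [ie2]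
        rfl
      rw [this]
      linarith
    have l2 : ∫ x in cube, k x * DD x
        ≤ ∫ x in cube, (4 * S) ^ (2 / a) * ((NR r G x ^ (a / r)) ^ (2 / a) * g x ^ gm a) := by
      have cNa : CP fun x => NR r G x ^ (a / r) := cprp (NR_cp hr0.le cG) (by positivity)
      refine integral_mono (integrableOn_cube (ck.cont.mul cDD)) (integrableOn_cube ?_)
        fun x => ?_
      · exact continuous_const.mul ((cNa.cont.rpow_const fun x => Or.inr (by positivity)).mul
          (cg.cont.rpow_const fun x => Or.inr h.gm_pos.le))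
      · have q1 : g x = g x ^ (2 / a) * g x ^ gm a := by
          rw [← Real.rpow_add_of_nonneg (g0 x) (by positivity) h.gm_pos.le]
          have : 2 / a + gm a = 1 := by
            unfold gm
            ring
          rw [this, Real.rpow_one]
        have q2 : g x ^ (2 / a) ≤ (4 * S) ^ (2 / a) :=
          Real.rpow_le_rpow (g0 x) (supg x) (by positivity)
        have q3 : g x ≤ (4 * S) ^ (2 / a) * g x ^ gm a := by
          have := mul_le_mul_of_nonneg_right q2 (Real.rpow_nonneg (g0 x) (gm a))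
          rwa [← q1] at this
        have q4 := mul_le_mul_of_nonneg_left ((l1 x).trans q3) (k0 x)
        have q5 : (NR r G x ^ (a / r)) ^ (2 / a) = k x := by
          simp only [hk]
          rw [← Real.rpow_mul (by linarith [N1 x])]
          congr 1
          field_simp
        simp only
        rw [q5]
        linarith
    rw [integral_const_mul] at l2
    have cNa : CP fun x => NR r G x ^ (a / r) := cprp (NR_cp hr0.le cG) (by positivity)
    have l3 := holN ha (k := fun x => NR r G x ^ (a / r)) cNa.cont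
      (fun x => Real.rpow_nonneg (by linarith [N1 x]) _) cg.cont g0 hM0 hM Ig
    have l4 := mul_le_mul_of_nonneg_left l3 (by positivity : 0 ≤ (4 * S) ^ (2 / a))
    have e9 : 4 * c * √((1 + Yv m v) * Xv m v) = 4 * S := by
      rw [hS]
      ring
    rw [e9]
    refine (l2.trans l4).trans (le_of_eq ?_)
    ring
  have hm1 : (1 : ℝ) ≤ m := by
    have : (2 : ℝ) ≤ m := by exact_mod_cast hm
    linarith
  exact mix3 h (integral_nonneg fun x => mul_nonneg (k0 x) (DD0 x)) hM0 (by linarith) hBX hρ.1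
    hm1 hc h1 h2

/-- The far part. -/
theorem far_L {a r : ℝ} (h : Ey a r) {m : ℕ} (hm : 2 ≤ m) {E : ℝ} (hE1 : 1 ≤ E) :
    ∃ C, 0 ≤ C ∧ ∀ G : V → ℝ, CP G → (∀ x, 0 ≤ G x) → ∀ M : ℝ, 1 ≤ M →
    (∫ x in cube, NR r G x ^ (a / r)) ≤ M ^ a →
    ∀ v : Fin 3 → V → ℝ, (∀ i, SP (v i)) → esq v ≤ E → ∀ ρ ∈ Ioc (0 : ℝ) 1,
    ∫ x in cube, Hz (vsq (ww v)) x ^ (2 * m - 2) * QG G (vsq v) ρ x ^ 2
      ≤ C * (M ^ 2 * Zz a r (1 + Yv m v) (Xv m v)) := by
  obtain ⟨C, hC1, hC⟩ := mult2v h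
  obtain ⟨c, hc1, hcw⟩ := wts hm hE1
  have hE0 : 0 ≤ E := by linarith
  have ha := h.ha
  have hr := h.hr
  have ha0 := h.a_pos
  have hr0 := h.r_pos
  have hgm0 := h.gm_pos
  have hc0 : 0 < c := by linarith
  set n : ℕ := 2 * m - 1 with hn
  set c' : ℝ := 2 * c with hc'
  have hc'1 : 1 ≤ c' := by linarith
  have hc'0 : 0 < c' := by linarith
  set K1 : ℝ := 2 ^ n * (16 * C * c') with hK1
  have hK10 : 0 ≤ K1 := by positivity
  refine ⟨8 * K1 * c + 256 * (64 * m ^ 2 * c), by positivity, ?_⟩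
  intro G cG G0 M hM1 hM v hv hE ρ hρ
  obtain ⟨w1, w2, w3, w4, w5⟩ := hcw v hv hE
  have hw := ww_sp hv
  set e : V → ℝ := Hz (vsq (ww v)) with he
  have se : SP e := hz_sp (vsq_sp hw)
  have ce : CP e := cp_of se
  have e0 : ∀ x, 0 ≤ e x := Hz_nonneg (vsq_nonneg _)
  set U : V → ℝ := Hz (vsq v) with hU
  have cU : CP U := (cp_of (vsq_sp hv)).hz
  have U0 : ∀ x, 0 ≤ U x := Hz_nonneg (vsq_nonneg _)
  set D : V → ℝ := Hz (ga v) with hD
  have cD : CP D := (cp_of (ga_sp hv)).hz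
  have D0 : ∀ x, 0 ≤ D x := Hz_nonneg ga_nonneg
  set J : V → ℝ := Hz (fun y => vsq v y ^ 2) with hJ
  have J0 : ∀ x, 0 ≤ J x := Hz_nonneg fun y => sq_nonneg _
  have hρ0 := hρ.1
  have hM0 : 0 < M := by linarith
  have hY0 := Yv_nonneg m v
  have hBX := B1_le_Xv m v
  set B : ℝ := 1 + Yv m v with hB
  set X : ℝ := Xv m v with hX
  have hB1 : 1 ≤ B := by linarith
  have hX1 : 1 ≤ X := hB1.trans hBX
  have hB0 : 0 < B := by linarith
  have hX0 : 0 < X := by linarith
  set Z1 : ℝ := (B * X) ^ (al a r / 2) * X ^ (2 * be a r) with hZ1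
  have hZ10 : 0 ≤ Z1 := by positivity
  have cW : CP (vsq v) := cp_of (vsq_sp hv)
  set Φ : V → V → ℝ := fun x => Hz (fun z => fz G x z * AH ρ (vsq v) z) with hΦ
  have cΦ : ∀ x, CP (Φ x) := fun x => ((fz_cp cG x).mul (AH_cp cW ρ)).hz
  have Φ0 : ∀ x z, 0 ≤ Φ x z := fun x => Hz_nonneg fun z =>
    mul_nonneg (fz_nonneg G0 x z) (AH_nonneg (vsq_nonneg v) ρ z)
  have hQ : ∀ x, QG G (vsq v) ρ x = BB 2 ρ (Φ x) x := fun x => QG_fz cG cW (vsq_nonneg v) ρ x
  have cQ : CP (QG G (vsq v) ρ) := QG_cp cG cW ρ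
  set κ : V → ℝ := fun x => 8 * Nx r G x * ρ ^ (-(2 / r)) with hκ
  have N1 : ∀ x, 1 ≤ Nx r G x := Nx_one hr0 G0
  have hκ0 : ∀ x, 0 ≤ κ x := fun x => by
    have := N1 x
    positivity
  have hΦ2 : ∀ x z, Φ x z ≤ κ x * U z := fun x z =>
    smooth_le (by linarith) (fz_cp cG x) (fz_ind G x) (fz_nonneg G0 x) (by linarith [N1 x])
      (int_fz hr0 cG G0 x) cW (vsq_nonneg v) hρ z
  set H : V → V → ℝ := fun x z => 16 * (C * (Nx r G x ^ 2
    * (U z ^ al a r * J z ^ be a r * (U z + D z) ^ gm a))) with hH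
  have H0 : ∀ x z, 0 ≤ H x z := fun x z => by
    have := U0 z
    have := J0 z
    have := D0 z
    have := N1 x
    positivity
  have hΦ1 : ∀ x z, Φ x z ^ 2 ≤ U z * H x z := by
    intro x z
    have h1 := Phi_L (fz_cp cG x) (fz_nonneg G0 x)
      (Fn := fun A B J => C * (Nx r G x ^ 2 * (A ^ al a r * J ^ be a r * (A + B) ^ gm a)))
      (hC (fz G x) (fz_cp cG x) (fz_ind G x) (fz_nonneg G0 x) (Nx r G x) (by linarith [N1 x])
        (int_fz hr0 cG G0 x)) hv ρ z
    have h2 := pow_le_pow_left₀ (Φ0 x z) h1 2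
    have h3 : 0 ≤ C * (Nx r G x ^ 2 * (U z ^ al a r * J z ^ be a r * (U z + D z) ^ gm a))
        * U z := by
      have := U0 z
      have := J0 z
      have := D0 z
      have := N1 x
      positivity
    rw [mul_pow, Real.sq_sqrt h3] at h2
    refine h2.trans (le_of_eq ?_)
    simp only [hH]
    ring
  have hUe : ∀ z, U z ≤ 2 * (e z + E) := by
    intro z
    have := Hz_vsq_le_ww hv z
    simp only [hU, he]
    linarith
  have ψ0 : ∀ x, 0 ≤ ps m E v x := ps_nonneg hE0 v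
  have cψ : CP (ps m E v) := ps_cp hv
  set f : V → ℝ := fun y => e y ^ m with hf
  have sf : SP f := SP.powr se m
  have cf := cp_of sf
  set W : V → ℝ := fun z => ps m E v z * (U z + D z) with hW
  have cWW : CP W := cψ.mul (cU.add cD)
  have W0 : ∀ z, 0 ≤ W z := fun z => mul_nonneg (ψ0 z) (add_nonneg (U0 z) (D0 z))
  -- the weighted bound
  have hψU : ∀ z, ps m E v z * U z ≤ c' * √(B * X) := by
    intro z
    have k1 := mul_le_mul_of_nonneg_left (hUe z) (ψ0 z)
    have k2 : ps m E v z * (2 * (e z + E)) = 2 * (e z + E) ^ (2 * m) := by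
      have : ps m E v z = (e z + E) ^ (2 * m - 1) := rfl
      have e1 : (e z + E) ^ (2 * m) = (e z + E) ^ (2 * m - 1) * (e z + E) := by
        rw [← pow_succ]
        congr 1
        omega
      rw [this, e1]
      ring
    have k3 := w3 z
    rw [hc']
    linarith
  have hψJ : ∀ z, ps m E v z ^ 2 * J z ≤ c' * X ^ 2 := by
    intro z
    have k1 : 0 ≤ c * X ^ 2 := by positivity
    have := w4 z
    rw [hc']
    linarith
  set A0 : ℝ := M ^ a with hA0
  have hA00 : 0 < A0 := by positivity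
  set B0 : ℝ := c * X with hB0'
  have hB00 : 0 < B0 := by positivity
  have NN1 := fun x => NR_one (r := r) G0 x
  set R : V → ℝ := fun x => NR r G x ^ (a / r) with hR
  have cR : CP R := cprp (NR_cp hr0.le cG) (by positivity)
  have R0 : ∀ x, 0 ≤ R x := fun x => Real.rpow_nonneg (by linarith [NN1 x]) _
  have hRN : ∀ x, R x ^ (1 - gm a) = Nx r G x ^ 2 := by
    intro x
    simp only [hR]
    rw [Nx_sq hr0 G0, ← Real.rpow_mul (by linarith [NN1 x])]
    congr 1
    unfold gm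
    field_simp
    ring
  have hAM : A0 ^ (1 - gm a) = M ^ 2 := by
    rw [hA0, ← Real.rpow_mul hM0.le]
    have : a * (1 - gm a) = 2 := by
      unfold gm
      field_simp
      ring
    rw [this]
    exact Real.rpow_ofNat _ 2
  set q0 : ℝ := M ^ 2 * B0 ^ gm a with hq0
  have hq00 : 0 ≤ q0 := by positivity
  have pt : ∀ x z, e x ^ (2 * m - 2) * Φ x z ^ 2 ≤ K1 * Z1 * q0 * (R x / A0 + W z / B0)
      + 2 * κ x ^ 2 * (f x - f z) ^ 2 := by
    intro x z
    have h1 := pairL hm (e0 x) (e0 z) (U0 z) (hκ0 x) (Φ0 x z) hE0 (H0 x z) (hΦ1 x z) (hΦ2 x z)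
      (hUe z)
    have h2 := wm1 h (ψ := ps m E v z) (A := U z) (B := D z) (J := J z) (c := c') (S := B * X)
      (X := X) (ψ0 z) (U0 z) (D0 z) (J0 z) hc'1 (by positivity) hX0.le (hψU z) (hψJ z)
    have h3 : (e z + E) ^ (2 * m - 1) * H x z
        = 16 * C * Nx r G x ^ 2
          * (ps m E v z * (U z ^ al a r * J z ^ be a r * (U z + D z) ^ gm a)) := by
      simp only [hH]
      show (e z + E) ^ (2 * m - 1) * _ = 16 * C * Nx r G x ^ 2 * ((e z + E) ^ (2 * m - 1) * _)
      ring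
    have h4 := mul_le_mul_of_nonneg_left h2 (by positivity : 0 ≤ 16 * C * Nx r G x ^ 2)
    rw [← h3, ← hZ1] at h4
    have h5 := ny (R0 x) (W0 z) hA00 hB00 hgm0.le h.gm_lt.le
    rw [hRN, hAM, ← hq0] at h5
    have h6 := mul_le_mul_of_nonneg_left h5 (by positivity : 0 ≤ 16 * C * c' * Z1)
    have h7 : (e z + E) ^ (2 * m - 1) * H x z
        ≤ 16 * C * c' * Z1 * (q0 * (R x / A0 + W z / B0)) := by
      refine h4.trans (le_trans (le_of_eq ?_) h6)
      simp only [hW]
      ring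
    have h8 := mul_le_mul_of_nonneg_left h7 (by positivity : (0 : ℝ) ≤ 2 ^ (2 * m - 1))
    have h9 : 2 ^ (2 * m - 1) * (16 * C * c' * Z1 * (q0 * (R x / A0 + W z / B0)))
        = K1 * Z1 * q0 * (R x / A0 + W z / B0) := by
      rw [hK1]
      ring
    rw [h9] at h8
    simp only [hf]
    linarith
  -- the integral
  set DD : V → ℝ := fun x => ∫ s in Icc (-1 : ℝ) 1, (f x - f (x + Pi.single 2 (ρ * s))) ^ 2 with hDD
  have cDD : Continuous DD := DD_cont cf.cont ρ
  set k : V → ℝ := fun x => NR r G x ^ (2 / r) with hk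
  have ck : CP k := cprp (NR_cp hr0.le cG) (by positivity)
  set b1 : ℝ := K1 * Z1 * q0 with hb1
  have hb10 : 0 ≤ b1 := by positivity
  have cs1 : Continuous fun x => 4 * (b1 / A0) * R x := continuous_const.mul cR.cont
  have cs2 : Continuous fun x => 2 * (b1 / B0) * BB 2 ρ W x :=
    continuous_const.mul (BB_cont cWW.cont 2 ρ)
  have cs3 : Continuous fun x => 256 * ρ ^ (-(4 / r)) * (k x * DD x) :=
    continuous_const.mul (ck.cont.mul cDD)
  have h1 : ∫ x in cube, e x ^ (2 * m - 2) * QG G (vsq v) ρ x ^ 2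
      ≤ ∫ x in cube, (4 * (b1 / A0) * R x + (2 * (b1 / B0) * BB 2 ρ W x
        + 256 * ρ ^ (-(4 / r)) * (k x * DD x))) := by
    refine integral_mono ((ce.pow _).mul (cQ.pow 2)).int
      (integrableOn_cube (cs1.add (cs2.add cs3))) fun x => ?_
    have q1 := BB_sq (cΦ x).cont 2 ρ x
    have q2 := mul_le_mul_of_nonneg_left q1 (pow_nonneg (e0 x) (2 * m - 2))
    have q3 : e x ^ (2 * m - 2) * BB 2 ρ (fun y => Φ x y ^ 2) x
        = BB 2 ρ (fun z => e x ^ (2 * m - 2) * Φ x z ^ 2) x := (BB_cmul _ _ 2 ρ x).symm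
    have cdif : Continuous fun z => (f x - f z) ^ 2 := (continuous_const.sub cf.cont).pow 2
    have d1 : Continuous fun z => b1 * (R x / A0 + W z / B0) :=
      continuous_const.mul (continuous_const.add (cWW.cont.div_const _))
    have d2 : Continuous fun z => 2 * κ x ^ 2 * (f x - f z) ^ 2 := continuous_const.mul cdif
    have q4 : BB 2 ρ (fun z => e x ^ (2 * m - 2) * Φ x z ^ 2) x
        ≤ BB 2 ρ (fun z => b1 * (R x / A0 + W z / B0) + 2 * κ x ^ 2 * (f x - f z) ^ 2) x :=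
      BB_mono (φ := fun z => e x ^ (2 * m - 2) * Φ x z ^ 2)
        (ψ := fun z => b1 * (R x / A0 + W z / B0) + 2 * κ x ^ 2 * (f x - f z) ^ 2)
        (continuous_const.mul ((cΦ x).cont.pow 2)) (d1.add d2) (fun z => pt x z) 2 ρ x
    have q5 : BB 2 ρ (fun z => b1 * (R x / A0 + W z / B0) + 2 * κ x ^ 2 * (f x - f z) ^ 2) x
        = b1 * (2 * (R x / A0) + BB 2 ρ W x / B0) + 2 * κ x ^ 2 * DD x := by
      have r1 := BB_add d1 d2 2 ρ x
      have r3 := BB_cmul b1 (fun z => R x / A0 + W z / B0) 2 ρ x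
      have r4 := BB_add (φ := fun _ => R x / A0) (ψ := fun z => W z / B0)
        continuous_const (cWW.cont.div_const _) 2 ρ x
      have r5 := BB_const (R x / A0) 2 ρ x
      have r6 : BB 2 ρ (fun z => W z / B0) x = BB 2 ρ W x / B0 := by
        have := BB_cmul B0⁻¹ W 2 ρ x
        have e1 : (fun z => W z / B0) = fun z => B0⁻¹ * W z := by
          funext z
          rw [div_eq_inv_mul]
        rw [e1, this, div_eq_inv_mul]
      have r7 := BB_cmul (2 * κ x ^ 2) (fun z => (f x - f z) ^ 2) 2 ρ x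
      have r8 : BB 2 ρ (fun z => (f x - f z) ^ 2) x = DD x := rfl
      rw [r1, r3, r4, r5, r6, r7, r8]
    rw [q5] at q4
    rw [← q3] at q4
    have q6 : κ x ^ 2 = 64 * (k x * ρ ^ (-(4 / r))) := by
      have e1 : (ρ ^ (-(2 / r))) ^ 2 = ρ ^ (-(4 / r)) := by
        rw [← Real.rpow_natCast, ← Real.rpow_mul hρ0.le]
        congr 1
        push_cast
        ring
      simp only [hκ, hk]
      rw [mul_pow, mul_pow, e1, Nx_sq hr0 G0]
      ring
    simp only
    rw [hQ]
    refine q2.trans ?_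
    have q7 : e x ^ (2 * m - 2) * (2 * BB 2 ρ (fun y => Φ x y ^ 2) x)
        = 2 * (e x ^ (2 * m - 2) * BB 2 ρ (fun y => Φ x y ^ 2) x) := by ring
    rw [q7]
    have q8 := mul_le_mul_of_nonneg_left q4 (by norm_num : (0 : ℝ) ≤ 2)
    refine q8.trans (le_of_eq ?_)
    rw [q6]
    ring
  have i1 : IntegrableOn (fun x => 4 * (b1 / A0) * R x) cube := integrableOn_cube cs1
  have i2 : IntegrableOn (fun x => 2 * (b1 / B0) * BB 2 ρ W x) cube := integrableOn_cube cs2
  have i3 : IntegrableOn (fun x => 256 * ρ ^ (-(4 / r)) * (k x * DD x)) cube :=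
    integrableOn_cube cs3
  have i23 : IntegrableOn (fun x => 2 * (b1 / B0) * BB 2 ρ W x
    + 256 * ρ ^ (-(4 / r)) * (k x * DD x)) cube := i2.add i3
  rw [integral_add i1 i23, integral_add i2 i3, integral_const_mul,
    integral_const_mul, integral_const_mul, int_BB cWW] at h1
  have t1 : 4 * (b1 / A0) * (∫ x in cube, R x) ≤ 4 * b1 := by
    have := mul_le_mul_of_nonneg_left hM (by positivity : 0 ≤ 4 * (b1 / A0))
    refine this.trans (le_of_eq ?_)
    field_simp
  have t2 : 2 * (b1 / B0) * (2 * ∫ x in cube, W x) ≤ 4 * b1 := by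
    have := mul_le_mul_of_nonneg_left w1 (by positivity : 0 ≤ 4 * (b1 / B0))
    refine le_trans (le_of_eq ?_) (this.trans (le_of_eq ?_))
    · ring
    · field_simp
  have t3 := int_NDD h cG G0 hM1 hM hv hm hc1 hE0 w3 hρ
  rw [← hB, ← hX] at t3
  have t3' := mul_le_mul_of_nonneg_left t3 (by norm_num : (0 : ℝ) ≤ 256)
  have t4 : b1 ≤ K1 * c * (M ^ 2 * Zz a r B X) := by
    have e1 : B0 ^ gm a = c ^ gm a * X ^ gm a := Real.mul_rpow hc0.le hX0.le
    have e2 : c ^ gm a ≤ c := by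
      have := Real.rpow_le_rpow_of_exponent_le hc1 h.gm_lt.le
      rwa [Real.rpow_one] at this
    have e3 : b1 = K1 * c ^ gm a * (M ^ 2 * Zz a r B X) := by
      rw [← zz1 h hB0 hX0, hb1, hq0, e1, hZ1]
      ring
    rw [e3]
    refine mul_le_mul_of_nonneg_right ?_ (mul_nonneg (sq_nonneg _) (Zz_nonneg hB0.le hX0.le))
    exact mul_le_mul_of_nonneg_left e2 hK10
  have e5 : 256 * (ρ ^ (-(4 / r)) * ∫ x in cube, k x * DD x)
      = 256 * ρ ^ (-(4 / r)) * ∫ x in cube, k x * DD x := by ring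
  have t3'' : 256 * ρ ^ (-(4 / r)) * (∫ x in cube, k x * DD x)
      ≤ 256 * (64 * m ^ 2 * c * (M ^ 2 * Zz a r B X)) := by
    rw [← e5]
    exact t3'
  have e6 : (8 * K1 * c + 256 * (64 * m ^ 2 * c)) * (M ^ 2 * Zz a r B X)
      = 8 * (K1 * c * (M ^ 2 * Zz a r B X)) + 256 * (64 * m ^ 2 * c * (M ^ 2 * Zz a r B X)) := by
    ring
  rw [e6]
  linarith

end Pool.Agent.H4LA
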