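import Pool.Agent.H459R3.NS.Four

/-!
Oscillations along lines: the final forms of the criteria.
-/

set_option autoImplicit false
set_option linter.unusedVariables false

open MeasureTheory Set Function Filter Topology
open scoped ENNReal ContDiff

namespace Pool.Agent.H4LA

open H459R3.NS

variable {ν T : ℝ} {u : ℝ → V → V} {p : ℝ → V → ℝ}

/-! ### oscillations and one-sided bounds of the derivative -/

theorem per_line {f : V → ℝ} (hf : SP f) (j : Fin 3) (x : V) (r : ℝ) (n : ℤ) :
    f (update x j (r + n)) = f (update x j r) := by
  have h := hf.per.int (Pi.single j n) (update x j r)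
  rw [← h]
  congr 1
  funext k
  by_cases hk : k = j
  · subst hk
    simp
  · simp [hk]

end Pool.Agent.H4LA
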