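import Pool.Agent.H4LA.Ing
import Pool.Agent.H4LA.Kx

/-!
The inequality for the powers of the slice energies, with the terms of the rest of the vertical
component.
-/

set_option autoImplicit false
set_option linter.unusedVariables false

open MeasureTheory Set Function Filter Topology
open scoped ENNReal ContDiff

namespace Pool.Agent.H4LA

open H459R3.NS

/-- The pointwise absorption. -/
theorem pt_L {ν μ e d D H P r a Tx : ℝ} (hν : 0 < ν) (hr : 0 ≤ r) (ha : 0 ≤ a)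
    (he : 0 ≤ e) (hd : 0 ≤ d)
    (hH : H ^ 2 ≤ 3 / 4 * (Tx * e) + 9 / 4 * (μ * (e + 2 * (√e * √d)) * e) + 3 * P ^ 2) :
    -(ν * (a * e * d)) - ν / 2 * (r * (a * D ^ 2)) + r * (a * (|D| * H))
      ≤ -(3 / 4 * ν * (a * e * d)) - ν / 4 * (r * (a * D ^ 2))
        + r / ν * (9 / 4 * μ) * (a * e ^ 2)
        + 21 * r ^ 2 / ν ^ 3 * μ ^ 2 * (a * e ^ 2) + 3 * (r / ν) * (a * P ^ 2)
        + 3 / 4 * (r / ν) * (a * e * Tx) := by
  set s := √e with hs
  set t := √d with ht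
  have es : s ^ 2 = e := Real.sq_sqrt he
  have et : t ^ 2 = d := Real.sq_sqrt hd
  have h1 : r * (|D| * H) ≤ ν / 4 * (r * D ^ 2) + r / ν * H ^ 2 := by
    have h := mul_le_mul_of_nonneg_left (yng (ν := ν / 4) (by positivity) 1 H |D|) hr
    rw [sq_abs] at h
    have e1 : r * (ν / 4 * D ^ 2 + 1 ^ 2 / (4 * (ν / 4)) * H ^ 2)
        = ν / 4 * (r * D ^ 2) + r / ν * H ^ 2 := by
      field_simp
    rw [e1] at h
    linarith
  have h2 := mul_le_mul_of_nonneg_left hH (by positivity : 0 ≤ r / ν)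
  have h3 := yng (ν := ν / 4) (by positivity) (9 * r * μ / (2 * ν)) s t
  rw [es, et] at h3
  have h4 := mul_le_mul_of_nonneg_left h3 he
  have e2 : r / ν * (3 / 4 * (Tx * e)
      + 9 / 4 * (μ * (e + 2 * (s * t)) * e) + 3 * P ^ 2)
      = 3 / 4 * (r / ν) * (e * Tx) + r / ν * (9 / 4 * μ) * e ^ 2
        + 3 * (r / ν) * P ^ 2 + e * (9 * r * μ / (2 * ν) * (s * t)) := by
    field_simp
    ring
  rw [e2] at h2
  have h5 : e * ((9 * r * μ / (2 * ν)) ^ 2 / (4 * (ν / 4)) * e)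
      ≤ 21 * r ^ 2 / ν ^ 3 * (μ ^ 2 * e ^ 2) := by
    have e3 : 21 * r ^ 2 / ν ^ 3 * (μ ^ 2 * e ^ 2)
        - e * ((9 * r * μ / (2 * ν)) ^ 2 / (4 * (ν / 4)) * e)
        = 3 / 4 * (r ^ 2 / ν ^ 3 * (μ ^ 2 * e ^ 2)) := by
      field_simp
      ring
    have : 0 ≤ 3 / 4 * (r ^ 2 / ν ^ 3 * (μ ^ 2 * e ^ 2)) := by positivity
    linarith
  have h6 : -(ν * (e * d)) - ν / 2 * (r * D ^ 2) + r * (|D| * H)
      ≤ -(3 / 4 * ν * (e * d)) - ν / 4 * (r * D ^ 2)
        + r / ν * (9 / 4 * μ) * e ^ 2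
        + 21 * r ^ 2 / ν ^ 3 * (μ ^ 2 * e ^ 2) + 3 * (r / ν) * P ^ 2
        + 3 / 4 * (r / ν) * (e * Tx) := by
    linarith
  have h7 := mul_le_mul_of_nonneg_left h6 ha
  linarith

theorem S_eq {G : V → ℝ} (cG : CP G) {φ : V → ℝ} (cφ : CP φ) (x : V) :
    Hz (fun y => G y ^ 2 * Av 2 φ y) x = ∫ z in cube, fz G x z ^ 2 * φ z := by
  have cf := fz_cp cG x
  have e1 : Hz (fun y => G y ^ 2 * Av 2 φ y) x = Hz (fun y => fz G x y ^ 2 * Av 2 φ y) x :=
    Hz_congr fun z hz => by rw [fz_eq hz]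
  have i2 : Ind 2 (fun y => fz G x y ^ 2) := fun z s => by
    simp only [fz_ind G x z s]
  rw [e1, Hz_ind2 ((cf.pow 2).mul (cφ.av 2)) (fun z s => by
    simp only [ind_Av 2 _ z s, fz_ind G x z s]) x]
  exact int_mul_Av cφ (cf.pow 2) i2

section field

variable {v : Fin 3 → V → ℝ} (hv : ∀ i, SP (v i)) (hdiv : ∀ x, ∑ i, pd i (v i) x = 0)

include hv in
/-- The sources with the factor `G`. -/
theorem src_gen {G : V → ℝ} (cG : CP G) (iG : Ind 2 G) (G0 : ∀ x, 0 ≤ G x) (x : V) :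
    Hz (fun y => G y * |rr v 2 y|) x
      ≤ 1 / 2 * Hz (fun y => G y ^ 2 * vsq (ww v) y) x
        + hsq v + (1 / 2 * (∫ z in cube, G z ^ 2 * vsq v z) + 1 / 2 * ysq v) := by
  have hw := ww_sp hv
  have sm := mm_sp hv
  have sc : SP (conv v 2) := sp_conv hv 2
  have cA : CP (Av 2 (conv v 2)) := (cp_of sc).av 2
  have cv : CP (vsq v) := cp_of (vsq_sp hv)
  have cg : CP (ga v) := cp_of (ga_sp hv)
  have cW : CP (vsq (ww v)) := cp_of (vsq_sp hw)
  have cGA : CP (fun y => G y * |Av 2 (conv v 2) y|) := cG.mul cA.abs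
  -- the average
  have h1 : Hz (fun y => G y * |Av 2 (conv v 2) y|) x
      ≤ 1 / 2 * (∫ z in cube, G z ^ 2 * vsq v z) + 1 / 2 * ysq v := by
    rw [Hz_ind2 cGA (fun x s => by simp only [ind_Av 2 _ x s, iG x s])]
    have k1 : ∫ x in cube, G x * |Av 2 (conv v 2) x| ≤ ∫ x in cube, G x * |conv v 2 x| := by
      rw [← int_mul_Av (cp_of sc).abs cG iG]
      refine integral_mono cGA.int (cG.mul ((cp_of sc).abs.av 2)).int fun y => ?_
      exact mul_le_mul_of_nonneg_left (abs_Av_le 2 y) (G0 y)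
    refine k1.trans ?_
    have cGv : CP (fun y => G y ^ 2 * vsq v y) := (cG.pow 2).mul cv
    have k2 : ∫ x in cube, G x * |conv v 2 x|
        ≤ ∫ x in cube, (1 / 2 * (G x ^ 2 * vsq v x) + 1 / 2 * ga v x) := by
      refine integral_mono (cG.mul (cp_of sc).abs).int ((cGv.cmul _).add (cg.cmul _)).int fun y => ?_
      have l1 : |conv v 2 y| ≤ √(vsq v y) * √(ga v y) := by
        rw [← Real.sqrt_mul (vsq_nonneg v y)]
        apply Real.abs_le_sqrt
        unfold conv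
        refine (Finset.sum_mul_sq_le_sq_mul_sq _ _ _).trans ?_
        refine mul_le_mul_of_nonneg_left ?_ (vsq_nonneg v y)
        exact Finset.single_le_sum (f := fun i => ∑ k, pd k (v i) y ^ 2)
          (fun i _ => Finset.sum_nonneg fun k _ => sq_nonneg _) (Finset.mem_univ 2)
      have l2 := mul_le_mul_of_nonneg_left l1 (G0 y)
      have s1 : √(vsq v y) ^ 2 = vsq v y := Real.sq_sqrt (vsq_nonneg v y)
      have s2 : √(ga v y) ^ 2 = ga v y := Real.sq_sqrt (ga_nonneg y)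
      have s3 := sq_nonneg (G y * √(vsq v y) - √(ga v y))
      have s4 : (G y * √(vsq v y) - √(ga v y)) ^ 2 = G y ^ 2 * √(vsq v y) ^ 2
          - 2 * (G y * (√(vsq v y) * √(ga v y))) + √(ga v y) ^ 2 := by ring
      rw [s4, s1, s2] at s3
      simp only
      linarith only [s3, l2]
    rw [integral_add (cGv.cmul _).int (cg.cmul _).int, integral_const_mul, integral_const_mul,
      int_ga hv] at k2
    exact k2
  -- the other terms
  have c0 : CP (fun y => 1 / 2 * (G y ^ 2 * vsq (ww v) y)) := ((cG.pow 2).mul cW).cmul _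
  have q0 : CP (fun y => 1 / 2 * pd 0 (mm v) y ^ 2) := ((cp_of (sm.pd 0)).pow 2).cmul _
  have q1 : CP (fun y => 1 / 2 * pd 1 (mm v) y ^ 2) := ((cp_of (sm.pd 1)).pow 2).cmul _
  have h3 : Hz (fun y => G y * |rr v 2 y|) x ≤ Hz (fun y => G y * |Av 2 (conv v 2) y|
      + (1 / 2 * (G y ^ 2 * vsq (ww v) y) + (1 / 2 * pd 0 (mm v) y ^ 2
        + 1 / 2 * pd 1 (mm v) y ^ 2))) x := by
    apply Hz_mono (cG.mul (cp_of (rr_sp hv 2)).abs) (cGA.add (c0.add (q0.add q1)))
    intro y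
    have l1 : |rr v 2 y| ≤ |Av 2 (conv v 2) y| + (|v 0 y| * |pd 0 (mm v) y|
        + |v 1 y| * |pd 1 (mm v) y|) := by
      show |Av 2 (conv v 2) y - ∑ j, v j y * pd j (mm v) y| ≤ _
      rw [Fin.sum_univ_three, pd2_mm hv, mul_zero, add_zero, ← abs_mul, ← abs_mul]
      refine (abs_sub _ _).trans ?_
      exact add_le_add le_rfl (abs_add_le _ _)
    have l2 := mul_le_mul_of_nonneg_left l1 (G0 y)
    have l3 : vsq (ww v) y = |v 0 y| ^ 2 + |v 1 y| ^ 2 + bb v y ^ 2 := by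
      unfold vsq
      rw [Fin.sum_univ_three, sq_abs, sq_abs]
      rfl
    have l4 : ∀ a b : ℝ, G y * (a * b) ≤ 1 / 2 * (G y ^ 2 * a ^ 2) + 1 / 2 * b ^ 2 := by
      intro a b
      have s4 : (G y * a - b) ^ 2 = G y ^ 2 * a ^ 2 - 2 * (G y * (a * b)) + b ^ 2 := by ring
      linarith only [sq_nonneg (G y * a - b), s4]
    have l5 := l4 |v 0 y| |pd 0 (mm v) y|
    have l6 := l4 |v 1 y| |pd 1 (mm v) y|
    rw [sq_abs (pd 0 (mm v) y)] at l5
    rw [sq_abs (pd 1 (mm v) y)] at l6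
    have l7 : 0 ≤ G y ^ 2 * bb v y ^ 2 := by positivity
    rw [l3]
    linarith only [l2, l5, l6, l7]
  rw [Hz_add cGA (c0.add (q0.add q1)), Hz_add c0 (q0.add q1), Hz_add q0 q1, Hz_cmul, Hz_cmul,
    Hz_cmul] at h3
  have h5 := Hz_pd_mm_le hv mem0 x
  have h6 := Hz_pd_mm_le hv mem1 x
  linarith

include hv hdiv in
/-- The inequality for the integral of a power of the slice energy. -/
theorem slice_L {ν : ℝ} (hν : 0 < ν) {p : V → ℝ} (hp : SP p) {F : Fin 3 → V → ℝ}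
    (hF : ∀ i x, F i x = ν * lap (v i) x - conv v i x - pd i p x) {G : V → ℝ}
    (cG : CP G) (G0 : ∀ x, 0 ≤ G x) (hg : ∀ x, |bb v x| ≤ G x)
    {m : ℕ} (hm : 2 ≤ m) {μ : ℝ}
    (hμ : esq v + 2 * (√(esq v) * √(hsq v)) ≤ μ) :
    ∫ x in cube, Hz (vsq (ww v)) x ^ (2 * m - 1) * ∑ i, ww v i x * sb F i x
      ≤ -(3 / 4 * ν * ∫ x in cube, Hz (vsq (ww v)) x ^ (2 * m - 1) * Hz (ga (ww v)) x)
        - ν / 4 * ((2 * m - 1)
          * ∫ x in cube, Hz (vsq (ww v)) x ^ (2 * m - 2) * pd 2 (Hz (vsq (ww v))) x ^ 2)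
        + ((2 * m - 1) / ν * (9 / 4 * μ) + 21 * (2 * m - 1) ^ 2 / ν ^ 3 * μ ^ 2)
          * (∫ x in cube, Hz (vsq (ww v)) x ^ (2 * m))
        + 3 * ((2 * m - 1) / ν) * (∫ x in cube, Hz (vsq (ww v)) x ^ (2 * m - 2)
            * Hz (fun y => G y * |p y|) x ^ 2)
        + (hsq v + 1 / 2 * ysq v) * (1 + ∫ x in cube, Hz (vsq (ww v)) x ^ (2 * m))
        + (3 / 4 * ((2 * m - 1) / ν) + 1 / 2) * (∫ x in cube, Hz (vsq (ww v)) x ^ (2 * m - 1)
            * Hz (fun y => G y ^ 2 * vsq (ww v) y) x)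
        + 1 / 2 * ∫ x in cube, Hz (vsq (ww v)) x ^ (2 * m - 1)
            * Hz (fun y => G y ^ 2 * Av 2 (vsq v) y) x := by
  have hw := ww_sp hv
  have sW : SP (vsq (ww v)) := vsq_sp hw
  have cW := cp_of sW
  have sga : SP (ga (ww v)) := ga_sp hw
  have cga := cp_of sga
  set e : V → ℝ := Hz (vsq (ww v)) with he
  have se : SP e := hz_sp sW
  have ce : CP e := cp_of se
  have ie : I01 e := i01_hz _
  have e0 : ∀ x, 0 ≤ e x := Hz_nonneg (vsq_nonneg _)
  set d : V → ℝ := Hz (ga (ww v)) with hd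
  have cd : CP d := cga.hz
  have d0 : ∀ x, 0 ≤ d x := Hz_nonneg ga_nonneg
  have sm := mm_sp hv
  have sb' := bb_sp hv
  set r : ℝ := 2 * (m : ℝ) - 1 with hr
  have hr0 : 0 ≤ r := by
    have : (2 : ℝ) ≤ m := by exact_mod_cast hm
    linarith
  have hrq : ((2 * m - 1 : ℕ) : ℝ) = r := by
    rw [Nat.cast_sub (by omega)]
    push_cast
    rfl
  set Ψ : V → ℝ := fun y => e y ^ (2 * m - 1) with hΨ
  have sΨ : SP Ψ := SP.powr se (2 * m - 1)
  have cΨ : CP Ψ := cp_of sΨ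
  have iΨ : I01 Ψ := ie.powr _
  have Ψ0 : ∀ x, 0 ≤ Ψ x := fun x => pow_nonneg (e0 x) _
  have hid := slice_ident hv hw hdiv (ww_div hv hdiv) hp sΨ iΨ (rr_sp hv) (w' := sb F)
    (fun i x => sb_eq hv hp hF i x)
  have dΨ : ∀ x, pd 2 Ψ x = r * (e x ^ (2 * m - 2) * pd 2 e x) := by
    intro x
    simp only [hΨ]
    rw [pd_pow se, hrq, Nat.sub_sub]
    ring
  have iaΨ : I01 (pd 2 Ψ) := I01.pd2 sΨ iΨ
  -- the first terms
  have t1 : ∫ x in cube, Ψ x * ga (ww v) x = ∫ x in cube, Ψ x * d x :=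
    (int_mul_Hz cga cΨ iΨ).symm
  have t2 : ∫ x in cube, pd 2 Ψ x * pd 2 (vsq (ww v)) x = ∫ x in cube, pd 2 Ψ x * pd 2 e x := by
    rw [he, pd2_hz sW]
    exact (int_mul_Hz (cp_of (sW.pd 2)) (cp_of (sΨ.pd 2)) iaΨ).symm
  have cV : CP (fun y => |v 2 y| * vsq (ww v) y) := (cp_of (hv 2)).abs.mul cW
  have cB : CP (fun y => G y * |p y|) := cG.mul (cp_of hp).abs
  have cM : CP (fun y => |mm v y| * vsq (ww v) y) := (cp_of sm).abs.mul cW
  have cGW : CP (fun y => G y * vsq (ww v) y) := cG.mul cW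
  have cG2 : CP (fun y => G y ^ 2 * vsq (ww v) y) := (cG.pow 2).mul cW
  set T : V → ℝ := Hz (fun y => G y ^ 2 * vsq (ww v) y) with hT
  have cT : CP T := cG2.hz
  set S : V → ℝ := Hz (fun y => G y ^ 2 * Av 2 (vsq v) y) with hS
  have cS : CP S := ((cG.pow 2).mul ((cp_of (vsq_sp hv)).av 2)).hz
  set H : V → ℝ := fun x => 1 / 2 * Hz (fun y => |v 2 y| * vsq (ww v) y) x
    + Hz (fun y => G y * |p y|) x with hH
  have cH : CP H := (cV.hz.cmul _).add cB.hz
  have t3 : 1 / 2 * (∫ x in cube, pd 2 Ψ x * (v 2 x * vsq (ww v) x))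
      + (∫ x in cube, pd 2 Ψ x * (ww v 2 x * p x)) ≤ ∫ x in cube, |pd 2 Ψ x| * H x := by
    have k0 : ∫ x in cube, |pd 2 Ψ x| * H x
        = 1 / 2 * (∫ x in cube, |pd 2 Ψ x| * (|v 2 x| * vsq (ww v) x))
          + ∫ x in cube, |pd 2 Ψ x| * (G x * |p x|) := by
      rw [← int_mul_Hz cV (cp_of (sΨ.pd 2)).abs iaΨ.abs,
        ← int_mul_Hz cB (cp_of (sΨ.pd 2)).abs iaΨ.abs, ← integral_const_mul,
        ← integral_add ((((cp_of (sΨ.pd 2)).abs.mul cV.hz).cmul _).int)
          ((cp_of (sΨ.pd 2)).abs.mul cB.hz).int]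
      congr 1
      funext x
      simp only [hH]
      ring
    rw [k0]
    have k1 : ∫ x in cube, pd 2 Ψ x * (v 2 x * vsq (ww v) x)
        ≤ ∫ x in cube, |pd 2 Ψ x| * (|v 2 x| * vsq (ww v) x) := by
      refine integral_mono ((sΨ.pd 2).mul ((hv 2).mul sW)).int
        ((cp_of (sΨ.pd 2)).abs.mul cV).int fun x => ?_
      refine (le_abs_self _).trans (le_of_eq ?_)
      rw [abs_mul, abs_mul, abs_of_nonneg (vsq_nonneg (ww v) x)]
    have k2 : ∫ x in cube, pd 2 Ψ x * (ww v 2 x * p x)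
        ≤ ∫ x in cube, |pd 2 Ψ x| * (G x * |p x|) := by
      refine integral_mono ((sΨ.pd 2).mul ((hw 2).mul hp)).int
        ((cp_of (sΨ.pd 2)).abs.mul cB).int fun x => ?_
      refine (le_abs_self _).trans ?_
      rw [abs_mul, abs_mul]
      refine mul_le_mul_of_nonneg_left ?_ (abs_nonneg _)
      exact mul_le_mul_of_nonneg_right (hg x) (abs_nonneg _)
    linarith
  have hfin := cube_finite
  have c1' : ∫ x in cube, (1 : ℝ) = 1 := by
    rw [setIntegral_const, Measure.real, volume_cube]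
    simp
  set S0 : ℝ := hsq v + 1 / 2 * ysq v with hS0
  have hS00 : 0 ≤ S0 := by
    have := ysq_nonneg v
    have := hsq_nonneg v
    positivity
  have t5 : ∫ x in cube, Ψ x * ∑ i, ww v i x * rr v i x
      ≤ 1 / 2 * (∫ x in cube, Ψ x * T x) + S0 * (1 + ∫ x in cube, e x ^ (2 * m))
        + 1 / 2 * ∫ x in cube, Ψ x * S x := by
    have k0' : ∀ x, ∑ i, ww v i x * rr v i x = bb v x * rr v 2 x := by
      intro x
      rw [Fin.sum_univ_three]
      show v 0 x * 0 + v 1 x * 0 + bb v x * rr v 2 x = _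
      ring
    simp_rw [k0']
    have cR : CP (fun y => G y * |rr v 2 y|) := cG.mul (cp_of (rr_sp hv 2)).abs
    have k1 : ∫ x in cube, Ψ x * (bb v x * rr v 2 x) ≤ ∫ x in cube, Ψ x * (G x * |rr v 2 x|) := by
      refine integral_mono (sΨ.mul (sb'.mul (rr_sp hv 2))).int (cΨ.mul cR).int fun x => ?_
      refine mul_le_mul_of_nonneg_left ?_ (Ψ0 x)
      refine (le_abs_self _).trans ?_
      rw [abs_mul]
      exact mul_le_mul_of_nonneg_right (hg x) (abs_nonneg _)
    refine k1.trans ?_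
    rw [← int_mul_Hz cR cΨ iΨ]
    have ceq : CP (fun x => e x ^ (2 * m)) := ce.pow _
    have cΨT : CP (fun x => Ψ x * T x) := cΨ.mul cT
    have cΨS : CP (fun x => Ψ x * S x) := cΨ.mul cS
    have k3 : ∫ x in cube, Ψ x * Hz (fun y => G y * |rr v 2 y|) x
        ≤ ∫ x in cube, ((1 / 2 * (Ψ x * T x) + S0 * (1 + e x ^ (2 * m)))
          + 1 / 2 * (Ψ x * S x)) := by
      refine integral_mono (cΨ.mul cR.hz).int
        (((cΨT.cmul _).add (((CP.const 1).add ceq).cmul S0)).add (cΨS.cmul _)).int fun x => ?_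
      have ef : Hz (fun y => G y * |rr v 2 y|) x = Hz (fun y => fz G x y * |rr v 2 y|) x :=
        Hz_congr fun z hz => by rw [fz_eq hz]
      have ef2 : T x = Hz (fun y => fz G x y ^ 2 * vsq (ww v) y) x :=
        Hz_congr fun z hz => by rw [fz_eq hz]
      have ef3 : S x = ∫ z in cube, fz G x z ^ 2 * vsq v z := S_eq cG (cp_of (vsq_sp hv)) x
      have l1 := src_gen hv (fz_cp cG x) (fz_ind G x) (fz_nonneg G0 x) x
      rw [← ef, ← ef2, ← ef3] at l1
      have l2 := mul_le_mul_of_nonneg_left l1 (Ψ0 x)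
      have l3 : Ψ x ≤ 1 + e x ^ (2 * m) := pow_one_le (e0 x) (by omega)
      have l4 := mul_le_mul_of_nonneg_left l3 hS00
      rw [hS0] at l4 ⊢
      simp only
      linarith
    have j1 : IntegrableOn (fun x => 1 / 2 * (Ψ x * T x)) cube := (cΨT.cmul _).int
    have j2 : IntegrableOn (fun x => S0 * (1 + e x ^ (2 * m))) cube :=
      (((CP.const 1).add ceq).cmul S0).int
    have j12 : IntegrableOn (fun x => 1 / 2 * (Ψ x * T x) + S0 * (1 + e x ^ (2 * m))) cube :=
      j1.add j2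
    rw [integral_add j12 (cΨS.cmul _).int, integral_add j1 j2, integral_const_mul,
      integral_const_mul, integral_const_mul, integral_add (integrable_const 1) ceq.int,
      c1'] at k3
    exact k3
  -- the pointwise bound
  have cP2 : CP (fun x => e x ^ (2 * m - 2) * Hz (fun y => G y * |p y|) x ^ 2) :=
    (ce.pow _).mul (cB.hz.pow 2)
  have ceq : CP (fun x => e x ^ (2 * m)) := ce.pow _
  have cX2 : CP (fun x => e x ^ (2 * m - 2) * pd 2 e x ^ 2) :=
    (ce.pow _).mul ((cp_of (se.pd 2)).pow 2)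
  have c1 : CP (fun x => Ψ x * d x) := cΨ.mul cd
  have c2 : CP (fun x => pd 2 Ψ x * pd 2 e x) := (cp_of (sΨ.pd 2)).mul (cp_of (se.pd 2))
  have c3 : CP (fun x => |pd 2 Ψ x| * H x) := (cp_of (sΨ.pd 2)).abs.mul cH
  have cΨT : CP (fun x => Ψ x * T x) := cΨ.mul cT
  set A1 : ℝ := -(3 / 4 * ν) with hA1
  set A2 : ℝ := -(ν / 4 * r) with hA2
  set A3 : ℝ := r / ν * (9 / 4 * μ) + 21 * r ^ 2 / ν ^ 3 * μ ^ 2 with hA3
  set A4 : ℝ := 3 * (r / ν) with hA4
  set A5 : ℝ := 3 / 4 * (r / ν) with hA5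
  have main : -(ν * ∫ x in cube, Ψ x * d x) - ν / 2 * (∫ x in cube, pd 2 Ψ x * pd 2 e x)
      + (∫ x in cube, |pd 2 Ψ x| * H x)
      ≤ A1 * (∫ x in cube, Ψ x * d x) + A2 * (∫ x in cube, e x ^ (2 * m - 2) * pd 2 e x ^ 2)
        + A3 * (∫ x in cube, e x ^ (2 * m))
        + A4 * (∫ x in cube, e x ^ (2 * m - 2) * Hz (fun y => G y * |p y|) x ^ 2)
        + A5 * ∫ x in cube, Ψ x * T x := by
    have k1 : ∫ x in cube, ((-ν * (Ψ x * d x) + -(ν / 2) * (pd 2 Ψ x * pd 2 e x))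
        + |pd 2 Ψ x| * H x) ≤ ∫ x in cube, ((((A1 * (Ψ x * d x)
          + A2 * (e x ^ (2 * m - 2) * pd 2 e x ^ 2)) + A3 * e x ^ (2 * m))
          + A4 * (e x ^ (2 * m - 2) * Hz (fun y => G y * |p y|) x ^ 2))
          + A5 * (Ψ x * T x)) := by
      refine integral_mono (((c1.cmul _).add (c2.cmul _)).add c3).int
        (((((c1.cmul _).add (cX2.cmul _)).add (ceq.cmul _)).add (cP2.cmul _)).add
          (cΨT.cmul _)).int fun x => ?_
      have ha : 0 ≤ e x ^ (2 * m - 2) := pow_nonneg (e0 x) _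
      set P : ℝ := Hz (fun y => G y * |p y|) x with hP
      have hH2 : H x ^ 2 ≤ 3 / 4 * (T x * e x)
          + 9 / 4 * (μ * (e x + 2 * (√(e x) * √(d x))) * e x) + 3 * P ^ 2 := by
        have l1 : Hz (fun y => |v 2 y| * vsq (ww v) y) x
            ≤ Hz (fun y => G y * vsq (ww v) y) x + Hz (fun y => |mm v y| * vsq (ww v) y) x := by
          rw [← Hz_add cGW cM]
          apply Hz_mono cV (cGW.add cM)
          intro y
          have l3 : |v 2 y| ≤ G y + |mm v y| := by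
            have : v 2 y = bb v y + mm v y := by
              unfold bb
              ring
            rw [this]
            exact (abs_add_le _ _).trans (add_le_add (hg y) le_rfl)
          have := mul_le_mul_of_nonneg_right l3 (vsq_nonneg (ww v) y)
          linarith
        have l3 := Hz_mm_vsq hv x (e := e x) (d := d x) le_rfl le_rfl hμ
        -- the term with G
        have l4 : Hz (fun y => G y * vsq (ww v) y) x ^ 2 ≤ T x * e x := by
          have j1 := Hz_cs_abs (cG.mul cW.sqrt) cW.sqrt x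
          have j2 : (fun y => |G y * √(vsq (ww v) y)| * |√(vsq (ww v) y)|)
              = fun y => G y * vsq (ww v) y := by
            funext y
            rw [abs_mul, abs_of_nonneg (G0 y), abs_of_nonneg (Real.sqrt_nonneg _), mul_assoc,
              Real.mul_self_sqrt (vsq_nonneg _ y)]
          have j3 : (fun y => (G y * √(vsq (ww v) y)) ^ 2) = fun y => G y ^ 2 * vsq (ww v) y := by
            funext y
            rw [mul_pow, Real.sq_sqrt (vsq_nonneg _ y)]
          have j4 : (fun y => √(vsq (ww v) y) ^ 2) = vsq (ww v) := by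
            funext y
            rw [Real.sq_sqrt (vsq_nonneg _ y)]
          rw [j2, j3, j4] at j1
          have n1 : 0 ≤ Hz (fun y => G y * vsq (ww v) y) x :=
            Hz_nonneg (fun y => mul_nonneg (G0 y) (vsq_nonneg _ y)) x
          have n3 : 0 ≤ Hz (fun y => G y ^ 2 * vsq (ww v) y) x :=
            Hz_nonneg (fun y => mul_nonneg (sq_nonneg _) (vsq_nonneg _ y)) x
          have j5 := pow_le_pow_left₀ n1 j1 2
          rw [mul_pow, Real.sq_sqrt n3, Real.sq_sqrt (Hz_nonneg (vsq_nonneg (ww v)) x)] at j5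
          exact j5
        set A : ℝ := Hz (fun y => |mm v y| * vsq (ww v) y) x with hA
        set B : ℝ := Hz (fun y => G y * vsq (ww v) y) x with hB
        have nH : 0 ≤ H x := by
          simp only [hH]
          have a1 : 0 ≤ Hz (fun y => |v 2 y| * vsq (ww v) y) x :=
            Hz_nonneg (fun y => mul_nonneg (abs_nonneg _) (vsq_nonneg _ y)) x
          have a2 : 0 ≤ Hz (fun y => G y * |p y|) x :=
            Hz_nonneg (fun y => mul_nonneg (G0 y) (abs_nonneg _)) x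
          positivity
        have l5 : H x ≤ 1 / 2 * B + 1 / 2 * A + P := by
          simp only [hH]
          linarith
        have l6 := pow_le_pow_left₀ nH l5 2
        have l7 : (1 / 2 * B + 1 / 2 * A + P) ^ 2
            ≤ 3 * ((1 / 2 * B) ^ 2 + (1 / 2 * A) ^ 2 + P ^ 2) := by
          linarith only [sq_nonneg (1 / 2 * B - 1 / 2 * A), sq_nonneg (1 / 2 * B - P),
            sq_nonneg (1 / 2 * A - P)]
        have l8 : 3 * ((1 / 2 * B) ^ 2 + (1 / 2 * A) ^ 2 + P ^ 2)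
            = 3 / 4 * B ^ 2 + 3 / 4 * A ^ 2 + 3 * P ^ 2 := by ring
        linarith
      have key := pt_L (μ := μ) (P := P) (Tx := T x) hν hr0 ha (e0 x) (d0 x)
        (D := pd 2 e x) (H := H x) hH2
      have x1 : Ψ x = e x ^ (2 * m - 2) * e x := by
        simp only [hΨ]
        rw [← pow_succ]
        congr 1
        omega
      have x2 : e x ^ (2 * m) = e x ^ (2 * m - 2) * e x ^ 2 := by
        rw [← pow_add]
        congr 1
        omega
      have x3 : |pd 2 Ψ x| = r * (e x ^ (2 * m - 2) * |pd 2 e x|) := by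
        rw [dΨ, abs_mul, abs_mul, abs_of_nonneg hr0, abs_of_nonneg ha]
      have y1 : -ν * (Ψ x * d x) + -(ν / 2) * (pd 2 Ψ x * pd 2 e x) + |pd 2 Ψ x| * H x
          = -(ν * (e x ^ (2 * m - 2) * e x * d x))
            - ν / 2 * (r * (e x ^ (2 * m - 2) * pd 2 e x ^ 2))
            + r * (e x ^ (2 * m - 2) * (|pd 2 e x| * H x)) := by
        rw [x3, x1, dΨ]
        ring
      simp only
      rw [y1, x2]
      refine key.trans (le_of_eq ?_)
      rw [x1, hA1, hA2, hA3, hA4, hA5]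
      ring
    have i12 : IntegrableOn (fun x => -ν * (Ψ x * d x) + -(ν / 2) * (pd 2 Ψ x * pd 2 e x)) cube :=
      ((c1.cmul _).add (c2.cmul _)).int
    have j12 : IntegrableOn (fun x => A1 * (Ψ x * d x)
        + A2 * (e x ^ (2 * m - 2) * pd 2 e x ^ 2)) cube := ((c1.cmul _).add (cX2.cmul _)).int
    have j123 : IntegrableOn (fun x => A1 * (Ψ x * d x)
        + A2 * (e x ^ (2 * m - 2) * pd 2 e x ^ 2) + A3 * e x ^ (2 * m)) cube :=
      (((c1.cmul _).add (cX2.cmul _)).add (ceq.cmul _)).int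
    have j1234 : IntegrableOn (fun x => (A1 * (Ψ x * d x)
        + A2 * (e x ^ (2 * m - 2) * pd 2 e x ^ 2) + A3 * e x ^ (2 * m))
        + A4 * (e x ^ (2 * m - 2) * Hz (fun y => G y * |p y|) x ^ 2)) cube :=
      j123.add (cP2.cmul _).int
    rw [integral_add i12 c3.int, integral_add (c1.cmul _).int (c2.cmul _).int,
      integral_add j1234 (cΨT.cmul _).int,
      integral_add j123 (cP2.cmul _).int, integral_add j12 (ceq.cmul _).int,
      integral_add (c1.cmul _).int (cX2.cmul _).int, integral_const_mul, integral_const_mul,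
      integral_const_mul, integral_const_mul, integral_const_mul, integral_const_mul,
      integral_const_mul] at k1
    linarith
  rw [hid, t1, t2]
  have z : ∀ X1 X2 Y P T S I : ℝ, -(3 / 4 * ν * X1) - ν / 4 * (r * X2)
        + (r / ν * (9 / 4 * μ) + 21 * r ^ 2 / ν ^ 3 * μ ^ 2) * Y
        + 3 * (r / ν) * P + S + (3 / 4 * (r / ν) + 1 / 2) * T + 1 / 2 * I
      = (A1 * X1 + A2 * X2 + A3 * Y + A4 * P + A5 * T) + (1 / 2 * T + S + 1 / 2 * I) := by
    intro X1 X2 Y P T S I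
    rw [hA1, hA2, hA3, hA4, hA5]
    ring
  rw [z]
  linarith

end field

end Pool.Agent.H4LA
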