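import Pool.Agent.H4LA.Main2

/-!
The criterion: oscillation of the vertical component along vertical lines, in anisotropic spaces.
-/

set_option autoImplicit false
set_option linter.unusedVariables false

open MeasureTheory Set Function Filter Topology
open scoped ENNReal ContDiff

namespace Pool.Agent.H4LA

open H459R3.NS

variable {ν T : ℝ} {u : ℝ → V → V} {p : ℝ → V → ℝ}

theorem log_pow_le {L θ β : ℝ} (hL : 1 ≤ L) (hθ : 0 < θ) (hβ : 0 < β) :
    (1 + Real.log L ^ 2) ^ β ≤ (1 + 4 / (θ / β) ^ 2) ^ β * L ^ θ := by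
  have hL0 : 0 < L := by linarith
  have h1 := log_sq_le hL (by positivity : 0 < θ / β)
  have h2 := Real.rpow_le_rpow (by positivity) h1 hβ.le
  rw [Real.mul_rpow (by positivity) (by positivity), ← Real.rpow_mul hL0.le,
    div_mul_cancel₀ _ hβ.ne'] at h2
  exact h2

end Pool.Agent.H4LA
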