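import Pool.Agent.H4LA.Clo3
import Pool.Agent.H4LA.Der
import Pool.Agent.H4LA.En3
import Pool.Agent.H4LA.Eta
import Pool.Agent.H4LA.Ev
import Pool.Agent.H4LA.IngL
import Pool.Agent.H4LA.Main3

/-!
The criterion from the inequalities for the powers of the slice energies and for the growth of the
horizontal derivatives.
-/

set_option autoImplicit false
set_option linter.unusedVariables false

open MeasureTheory Set Function Filter Topology
open scoped ENNReal ContDiff

namespace Pool.Agent.H4LA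

open H459R3.NS

variable {ν T : ℝ} {u : ℝ → V → V} {p : ℝ → V → ℝ}

/-- The hypothesis at a fixed time. -/
def Mix (a r N : ℝ) (v : Fin 3 → V → ℝ) : Prop :=
  ∫ x in cube, NR r (Gb v) x ^ (a / r) ≤ N ^ a

/-- The inequality for the powers of the slice energies. -/
def Key (ν a r c β : ℝ) : Prop := ∀ m : ℕ, 2 ≤ m → ∀ E : ℝ, 0 ≤ E → ∃ C, 0 ≤ C ∧ ∀ M : ℝ, 1 ≤ M →
    ∀ (v : Fin 3 → V → ℝ) (p : V → ℝ) (F : Fin 3 → V → ℝ), (∀ i, SP (v i)) →
    (∀ x, ∑ i, pd i (v i) x = 0) → SP p → (∀ x, -lap p x = ∑ i, pd i (conv v i) x) →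
    esq v ≤ E → (∀ i x, F i x = ν * lap (v i) x - conv v i x - pd i p x) → Mix a r M v →
    2 * ((2 * m : ℕ) : ℝ) * ∫ x in cube, Hz (vsq (ww v)) x ^ (2 * m - 1)
        * ∑ i, ww v i x * sb F i x
      ≤ C * ((1 + ysq v + M ^ c * (1 + Real.log (1 + ysq v) ^ 2) ^ β)
        * (1 + ∫ x in cube, Hz (vsq (ww v)) x ^ (2 * m)))

/-- Bounds for the integrals of powers of the slice energies. -/
theorem Y_boundG (h : IsSol ν T u p) (hν : 0 < ν) (hT : 0 < T) {a r s c β : ℝ}
    (hc0 : 0 < c) (hβ0 : 0 < β) (hkey : Key ν a r c β) (hs : c < s) {N : ℝ → ℝ} (N1 : ∀ t ∈ Ioo 0 T, 1 ≤ N t)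
    (hN : IntegrableOn (fun t => N t ^ s) (Ioo 0 T))
    (hb : ∀ t ∈ Ioo 0 T, Mix a r (N t) (fun i y => u t y i)) {m : ℕ} (hm : 2 ≤ m) :
    ∃ M, 0 ≤ M ∧ ∀ t ∈ Ioo 0 T, ∫ x in cube, se u t x ^ (2 * m) ≤ M := by
  set y : ℝ → ℝ := fun t => ysq (fun i y => u t y i) with hy
  have y0 : ∀ t, 0 ≤ y t := fun t => ysq_nonneg _
  have cy : ContinuousOn y (Ico 0 T) := h.enstrophy_continuousOn
  set E0 : ℝ := energy (u 0) with hE0
  have hE00 : 0 ≤ E0 := energy_nonneg _
  have hyD : ∀ t ∈ Ico 0 T, ∫ s in (0 : ℝ)..t, y s ≤ E0 / (2 * ν) := fun t ht =>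
    h.int_enstrophy hν ht
  have hyI := integrableOn_of_bdd cy y0 hyD hT
  have hEle : ∀ t ∈ Ico 0 T, esq (fun i y => u t y i) ≤ E0 := fun t ht => h.energy_le hν ht
  obtain ⟨C, hC0, hC⟩ := hkey m hm E0 hE00
  set Y : ℝ → ℝ := fun t => ∫ x in cube, se u t x ^ (2 * m) with hY
  have hsp : ∀ t ∈ Ico 0 T, ∀ i, SP (fun y => u t y i) := fun t ht => h.sp ht
  have e0 : ∀ t x, 0 ≤ se u t x := fun t x => Hz_nonneg (vsq_nonneg _) x
  have Y0 : ∀ t, 0 ≤ Y t := fun t => integral_nonneg fun x => pow_nonneg (e0 t x) _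
  have hs0 : 0 < s := hc0.trans hs
  set θ : ℝ := 1 - c / s with hθ
  have hθ0 : 0 < θ := by
    rw [hθ, sub_pos, div_lt_one hs0]
    exact hs
  -- the rate
  set k1 : ℝ → ℝ := fun t => 1 + y t + N t ^ c * (1 + Real.log (1 + y t) ^ 2) ^ β with hk1
  set w : ℝ → ℝ := fun t => N t ^ s + (1 + y t) with hw
  have hyI' : IntegrableOn y (Ioo 0 T) := by
    rwa [← integrableOn_Ioc_iff_integrableOn_Ioo]
  have wI : IntegrableOn w (Ioo 0 T) := hN.add ((integrableOn_const (by simp)).add hyI')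
  have N0 : ∀ t ∈ Ioo 0 T, 0 ≤ N t := fun t ht => by linarith [N1 t ht]
  have w0 : ∀ t ∈ Ioo 0 T, 0 ≤ w t := fun t ht =>
    add_nonneg (Real.rpow_nonneg (N0 t ht) _) (by linarith [y0 t])
  set c2 : ℝ := (1 + 4 / (θ / β) ^ 2) ^ β with hc2
  have hc20 : 0 ≤ c2 := by positivity
  set c1 : ℝ := 1 + c2 with hc1
  have hc10 : 0 ≤ c1 := by positivity
  have hk1w : ∀ t ∈ Ioo 0 T, k1 t ≤ c1 * w t := by
    intro t ht
    have l1 : 1 ≤ 1 + y t := by linarith [y0 t]
    have l2 := log_pow_le l1 hθ0 hβ0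
    have l3 := pow_split (N0 t ht) l1 hc0 hs
    rw [← hθ] at l3
    have l6 : 0 ≤ N t ^ s := Real.rpow_nonneg (N0 t ht) _
    have l7 : 0 ≤ N t ^ c := Real.rpow_nonneg (N0 t ht) _
    have l4 := mul_le_mul_of_nonneg_left l2 l7
    have l5 := mul_le_mul_of_nonneg_left l3 hc20
    simp only [hk1, hw, hc1]
    rw [← hc2] at l4
    linarith
  have hrate : ∀ t ∈ Ioo 0 T, ∃ D, HasDerivAt Y D t ∧ D ≤ C * (k1 t * (1 + Y t)) := by
    intro t ht
    have hI : t ∈ Ico 0 T := ⟨ht.1.le, ht.2⟩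
    refine ⟨_, Y_hasDerivAt h ht (2 * m), ?_⟩
    exact hC (N t) (N1 t ht) (fun i y => u t y i) (p t)
      (fun i => dt (fun s y => u s y i) t) (hsp t hI)
      (h.divfree t hI) (h.sp_p hI) (press_eq h ht) (hEle t hI) (fun i x => h.dt_eq ht i x)
      (hb t ht)
  -- the logarithm
  set t1 : ℝ := T / 2 with ht1
  have ht1' : t1 ∈ Ioo 0 T := ⟨by positivity, by rw [ht1]; linarith⟩
  set W : ℝ := ∫ r in Ioo 0 T, w r with hW
  have late : ∀ t ∈ Ico t1 T, Y t ≤ (1 + Y t1) * Real.exp (C * (c1 * W)) := by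
    intro t ht
    have hsub : Icc t1 t ⊆ Ioo 0 T := fun r hr => ⟨ht1'.1.trans_le hr.1, hr.2.trans_lt ht.2⟩
    choose! D hD1 hD2 using hrate
    have hl : ∀ r ∈ Ioo 0 T, HasDerivAt (fun r => Real.log (1 + Y r)) (D r / (1 + Y r)) r := by
      intro r hr
      have h1 : HasDerivAt (fun r => 1 + Y r) (D r) r := (hD1 r hr).const_add 1
      exact h1.log (by linarith [Y0 r])
    have h1 := intervalIntegral.sub_le_integral_of_hasDeriv_right_of_le
      (φ := fun r => C * (c1 * w r)) (g := fun r => Real.log (1 + Y r)) ht.1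
      (fun r hr => (hl r (hsub hr)).continuousAt.continuousWithinAt)
      (fun r hr => (hl r (hsub ⟨hr.1.le, hr.2.le⟩)).hasDerivWithinAt)
      (((wI.mono_set hsub).const_mul c1).const_mul C)
      (by
        intro r hr
        have hr' := hsub ⟨hr.1.le, hr.2.le⟩
        rw [div_le_iff₀ (by linarith [Y0 r])]
        refine (hD2 r hr').trans ?_
        have l1 := hk1w r hr'
        have l2 : 0 ≤ 1 + Y r := by linarith [Y0 r]
        have l3 := mul_le_mul_of_nonneg_left (mul_le_mul_of_nonneg_right l1 l2) hC0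
        linarith)
    have h2 : ∫ r in t1..t, C * (c1 * w r) ≤ C * (c1 * W) := by
      rw [intervalIntegral.integral_const_mul, intervalIntegral.integral_const_mul,
        intervalIntegral.integral_of_le ht.1]
      refine mul_le_mul_of_nonneg_left (mul_le_mul_of_nonneg_left ?_ hc10) hC0
      refine setIntegral_mono_set wI ?_ ?_
      · exact (ae_restrict_iff' measurableSet_Ioo).2 (Filter.Eventually.of_forall w0)
      · exact Filter.Eventually.of_forall
          (fun r hr => ⟨ht1'.1.trans hr.1, hr.2.trans_lt ht.2⟩)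
    have h3 : Real.log (1 + Y t) ≤ Real.log (1 + Y t1) + C * (c1 * W) := by linarith
    have p1 : 0 < 1 + Y t := by linarith [Y0 t]
    have p2 : 0 < 1 + Y t1 := by linarith [Y0 t1]
    have h4 := Real.exp_le_exp.2 h3
    rw [Real.exp_add, Real.exp_log p1, Real.exp_log p2] at h4
    linarith
  -- the first half of the interval
  have hc0 : Icc 0 t1 ⊆ Ico 0 T := fun s hs => ⟨hs.1, hs.2.trans_lt ht1'.2⟩
  obtain ⟨b1, hb1⟩ := (isCompact_Icc.image_of_continuousOn (cy.mono hc0)).bddAbove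
  have early : ∀ t ∈ Ioo 0 t1, Y t ≤ (10 * E0 + 6 * |b1|) ^ (2 * m) := by
    intro t ht
    have hI : t ∈ Ico 0 T := ⟨ht.1.le, ht.2.trans ht1'.2⟩
    have hyb : y t ≤ b1 := hb1 (mem_image_of_mem _ ⟨ht.1.le, ht.2.le⟩)
    have hyb' : y t ≤ |b1| := hyb.trans (le_abs_self _)
    have hv := hsp t hI
    have hbd : ∀ x, se u t x ≤ 10 * E0 + 6 * |b1| := by
      intro x
      have l1 := Hz_ww_le hv x
      have l2 := Hz_vsq_le hv x
      have l3 := hEle t hI
      have l4 : ysq (fun i y => u t y i) ≤ |b1| := hyb'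
      unfold se
      linarith
    have hfin := cube_finite
    have ce : CP (se u t) := (cp_of (vsq_sp (ww_sp hv))).hz
    have h1 : Y t ≤ ∫ x in cube, (10 * E0 + 6 * |b1|) ^ (2 * m) :=
      integral_mono (ce.pow _).int (integrable_const _) fun x =>
        pow_le_pow_left₀ (e0 t x) (hbd x) _
    have c1 : ∫ x in cube, ((10 * E0 + 6 * |b1|) ^ (2 * m) : ℝ)
        = (10 * E0 + 6 * |b1|) ^ (2 * m) := by
      rw [setIntegral_const, Measure.real, volume_cube]
      simp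
    rwa [c1] at h1
  have n1 : 0 ≤ (1 + Y t1) * Real.exp (C * (c1 * W)) := by
    have := Y0 t1
    positivity
  have n2 : 0 ≤ (10 * E0 + 6 * |b1|) ^ (2 * m) := by positivity
  refine ⟨(1 + Y t1) * Real.exp (C * (c1 * W)) + (10 * E0 + 6 * |b1|) ^ (2 * m),
    by positivity, ?_⟩
  intro t ht
  rcases lt_or_ge t t1 with h1 | h1
  · have := early t ⟨ht.1, h1⟩
    have e : Y t = ∫ x in cube, se u t x ^ (2 * m) := rfl
    linarith
  · have := late t ⟨h1, ht.2⟩
    have e : Y t = ∫ x in cube, se u t x ^ (2 * m) := rfl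
    linarith

/-- Bounds for the slice integrals. -/
theorem slice_boundG (h : IsSol ν T u p) (hν : 0 < ν) (hT : 0 < T) {a r s c β : ℝ}
    (hc0 : 0 < c) (hβ0 : 0 < β) (hkey : Key ν a r c β) (hs : c < s) {N : ℝ → ℝ} (N1 : ∀ t ∈ Ioo 0 T, 1 ≤ N t)
    (hN : IntegrableOn (fun t => N t ^ s) (Ioo 0 T))
    (hb : ∀ t ∈ Ioo 0 T, Mix a r (N t) (fun i y => u t y i)) {θ : ℝ} (hθ : 0 < θ) :
    ∃ C, 1 ≤ C ∧ ∀ t ∈ Ioo 0 T, ∀ x, Hz (vsq (fun i y => u t y i)) x
      ≤ C * (1 + ysq (fun i y => u t y i)) ^ θ := by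
  obtain ⟨n, hn⟩ := exists_nat_gt (1 / (4 * θ))
  set m : ℕ := n + 1 with hm
  have hm1 : 1 ≤ m := by omega
  have hmθ : 1 / (4 * (m : ℝ)) ≤ θ := by
    have h1 : 1 / (4 * θ) < m := by
      rw [hm]
      push_cast
      linarith
    rw [div_lt_iff₀ (by positivity)] at h1
    have hm0 : (0 : ℝ) < m := by exact_mod_cast hm1
    rw [div_le_iff₀ (by positivity)]
    linarith
  obtain ⟨M0, hM00, hM0⟩ := Y_boundG h hν hT hc0 hβ0 hkey hs N1 hN hb (m := 2 * m) (by omega)
  set E0 : ℝ := energy (u 0) with hE0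
  have hE00 : 0 ≤ E0 := energy_nonneg _
  set M : ℝ := 1 + 4 ^ (2 * (2 * m)) * (M0 + E0 ^ (2 * (2 * m))) with hM
  have hM1 : 0 ≤ M := by positivity
  set c : ℝ := 1 + M + 4 * m * √M with hc
  have hc1 : 1 ≤ c := by
    have : 0 ≤ 4 * (m : ℝ) * √M := by positivity
    linarith
  refine ⟨c, hc1, ?_⟩
  intro t ht x
  have hI : t ∈ Ico 0 T := ⟨ht.1.le, ht.2⟩
  set v : Fin 3 → V → ℝ := fun i y => u t y i with hv
  have hsp : ∀ i, SP (v i) := fun i => h.sp hI i
  have hy0 := ysq_nonneg v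
  have cU : CP (Hz (vsq v)) := (cp_of (vsq_sp hsp)).hz
  have U0 : ∀ x, 0 ≤ Hz (vsq v) x := Hz_nonneg (vsq_nonneg v)
  have hfin := cube_finite
  have c1 : ∫ x in cube, (1 : ℝ) = 1 := by
    rw [setIntegral_const, Measure.real, volume_cube]
    simp
  have h0 : ∫ x in cube, Hz (vsq v) x ^ (4 * m - 1)
      ≤ 1 + ∫ x in cube, Hz (vsq v) x ^ (2 * (2 * m)) := by
    have h3 : ∫ x in cube, Hz (vsq v) x ^ (4 * m - 1)
        ≤ ∫ x in cube, (1 + Hz (vsq v) x ^ (2 * (2 * m))) := by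
      refine integral_mono (cU.pow _).int ((CP.const 1).add (cU.pow _)).int fun x => ?_
      have := pow_one_le (U0 x) (q := 2 * (2 * m)) (by omega)
      have e : 2 * (2 * m) - 1 = 4 * m - 1 := by omega
      rw [e] at this
      exact this
    rw [integral_add (integrable_const 1) (cU.pow _).int, c1] at h3
    exact h3
  have h1 : ∫ x in cube, Hz (vsq v) x ^ (4 * m - 1) ≤ M := by
    refine h0.trans ?_
    have h2 := int_vsq_pow_le hsp (h.energy_le hν hI) (2 * (2 * m))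
    have h3 : 4 ^ (2 * (2 * m)) * ((∫ x in cube, Hz (vsq (ww v)) x ^ (2 * (2 * m)))
        + E0 ^ (2 * (2 * m))) ≤ 4 ^ (2 * (2 * m)) * (M0 + E0 ^ (2 * (2 * m))) := by
      refine mul_le_mul_of_nonneg_left ?_ (by positivity)
      have := hM0 t ht
      unfold se at this
      linarith
    have e : E0 = energy (u 0) := rfl
    rw [hM]
    have h4 := h2.trans h3
    linarith
  have h2 := sup_slice hsp hm1 h1 x
  have h3 : 1 + M + 4 * m * (√M * √(ysq v)) ≤ c * √(1 + ysq v) := by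
    have l1 : 1 ≤ √(1 + ysq v) := Real.one_le_sqrt.2 (by linarith)
    have l2 : √(ysq v) ≤ √(1 + ysq v) := Real.sqrt_le_sqrt (by linarith)
    have l3 := mul_le_mul_of_nonneg_left l2 (by positivity : 0 ≤ 4 * (m : ℝ) * √M)
    have l4 := mul_le_mul_of_nonneg_left l1 (by positivity : 0 ≤ 1 + M)
    rw [hc]
    linarith
  exact root_le hm1 (Hz_nonneg (vsq_nonneg v) x) hc1 hy0 hmθ (h2.trans h3)

/-- The closed system. -/
theorem near_gen (h : IsSol ν T u p) (hν : 0 < ν) (hT : 0 < T) {θ ρ : ℝ} (hθ0 : 0 < θ)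
    (hρ0 : 0 ≤ ρ) (hθρ : θ + ρ < 1) {w : ℝ → ℝ} (w0 : ∀ t ∈ Ioo 0 T, 0 ≤ w t)
    (wI : IntegrableOn w (Ioo 0 T))
    (hslice : ∃ C, 1 ≤ C ∧ ∀ t ∈ Ioo 0 T, ∀ x, Hz (vsq (fun i y => u t y i)) x
      ≤ C * (1 + ysq (fun i y => u t y i)) ^ θ)
    (hgrow : ∀ ε, 0 < ε → ∃ κ, 0 ≤ κ ∧ ∀ P, 1 ≤ P → ∀ t ∈ Ioo 0 T,
      1 + ysq (fun i y => u t y i) ≤ P →
      -(2 * ν * psq (fun i y => u t y i)) - 2 * cubh (fun i y => u t y i)
        ≤ -(ν * psq (fun i y => u t y i)) + κ * ((1 + hsq (fun i y => u t y i))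
          * ysq (fun i y => u t y i) + P ^ ρ * w t) + ε * P ^ (-θ) * palin (u t)) :
    ∃ M, ∀ t ∈ Ico 0 T, ∀ x i, |u t x i| ≤ M := by
  set y : ℝ → ℝ := fun t => ysq (fun i y => u t y i) with hy
  set η : ℝ → ℝ := fun t => hsq (fun i y => u t y i) with hη
  set π : ℝ → ℝ := fun t => psq (fun i y => u t y i) with hπ
  set Q : ℝ → ℝ := fun t => palin (u t) with hQ
  have y0 : ∀ t, 0 ≤ y t := fun t => ysq_nonneg _
  have η0 : ∀ t, 0 ≤ η t := fun t => hsq_nonneg _
  have π0 : ∀ t, 0 ≤ π t := fun t => psq_nonneg _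
  have Q0 : ∀ t, 0 ≤ Q t := fun t => palin_nonneg _
  have cy : ContinuousOn y (Ico 0 T) := h.enstrophy_continuousOn
  have cη : ContinuousOn η (Ico 0 T) := hsq_continuousOn h
  have cπ : ContinuousOn π (Ico 0 T) := psq_continuousOn h
  have cQ : ContinuousOn Q (Ico 0 T) := h.palin_continuousOn
  set E0 : ℝ := energy (u 0) with hE0
  set D : ℝ := E0 / (2 * ν) with hD
  have hyD : ∀ t ∈ Ico 0 T, ∫ s in (0 : ℝ)..t, y s ≤ D := fun t ht => h.int_enstrophy hν ht
  have hyI := integrableOn_of_bdd cy y0 hyD hT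
  have hyI' : IntegrableOn y (Ioo 0 T) := by
    rwa [← integrableOn_Ioc_iff_integrableOn_Ioo]
  obtain ⟨c, hc1, hc⟩ := hslice
  have hspt : ∀ t ∈ Ioo 0 T, ∀ i, SP (fun y => u t y i) := fun t ht => h.sp ⟨ht.1.le, ht.2⟩
  have hdivt : ∀ t ∈ Ioo 0 T, ∀ x, ∑ i, pd i (fun y => u t y i) x = 0 := fun t ht =>
    h.divfree t ⟨ht.1.le, ht.2⟩
  -- the growth of the gradient
  set c5 : ℝ := (ν + 874800 / ν) * (1 + c) with hc5
  have hc50 : 0 ≤ c5 := by positivity
  have hcub : ∀ t ∈ Ioo 0 T, -2 * cub (fun i y => u t y i)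
      ≤ ν * palin (u t) + c5 * ((1 + y t) ^ θ * (η t + π t)) := by
    intro t ht
    set L : ℝ := (1 + y t) ^ θ with hL
    have hL1 : 1 ≤ L := Real.one_le_rpow (by linarith [y0 t]) hθ0.le
    have h1 := abs_cub_le2 (hspt t ht) (hdivt t ht) (E := c * L) (by positivity) (hc t ht)
    have h2 := absorb (e := c * L) (ν := ν) (η0 t) (π0 t) (qsq_nonneg (fun i y => u t y i))
      (by positivity) hν
    have h3 := (abs_le.1 h1).1
    have h4 : qsq (fun i y => u t y i) = palin (u t) := rfl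
    have h5 : (ν + 874800 / ν) * ((1 + c * L) * (η t + π t)) ≤ c5 * (L * (η t + π t)) := by
      have l1 : 1 + c * L ≤ (1 + c) * L := by linarith
      have l2 := mul_le_mul_of_nonneg_right l1 (add_nonneg (η0 t) (π0 t))
      have l3 := mul_le_mul_of_nonneg_left l2 (by positivity : 0 ≤ ν + 874800 / ν)
      rw [hc5]
      linarith
    rw [← h4]
    simp only [hη, hπ] at h2 h5 ⊢
    linarith
  set ε : ℝ := ν ^ 2 / (2 * (c5 + 1)) with hε
  have hε0 : 0 < ε := by positivity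
  have hεc : 2 * (ε * c5) ≤ ν ^ 2 := by
    have e1 : 2 * (ε * c5) = ν ^ 2 * (c5 / (c5 + 1)) := by
      rw [hε]
      field_simp
    rw [e1]
    refine mul_le_of_le_one_right (by positivity) ?_
    rw [div_le_one (by positivity)]
    linarith
  obtain ⟨κ, hκn, hrate⟩ := hgrow ε hε0
  obtain ⟨M, hM⟩ := closure3 (a := ν) (κ := κ) (C := c5) (D := D) (θ := θ) (ρ := ρ) (e := ε)
    (w := w) hT hν hκn hc50 hε0.le hεc hθ0.le hρ0 hθρ cy cη cπ cQ y0 η0 π0 Q0
    (fun t ht => hsq_le_ysq _) w0 wI hyD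
    (by
      intro P hP s t hs hst ht hyP
      have hsub : Icc s t ⊆ Ico 0 T := fun r hr => ⟨hs.le.trans hr.1, hr.2.trans_lt ht⟩
      have hsub' : Icc s t ⊆ Ioo 0 T := fun r hr => ⟨hs.trans_le hr.1, hr.2.trans_lt ht⟩
      refine intervalIntegral.sub_le_integral_of_hasDeriv_right_of_le hst (cη.mono hsub)
        (fun r hr => (hsq_hasDerivAt h (hsub' ⟨hr.1.le, hr.2.le⟩)).hasDerivWithinAt) ?_
        (fun r hr => hrate P hP r (hsub' ⟨hr.1.le, hr.2.le⟩) (hyP r ⟨hr.1.le, hr.2.le⟩))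
      have c1 := cπ.mono hsub
      have c2 := cη.mono hsub
      have c3 := cy.mono hsub
      have c4 := cQ.mono hsub
      have i1 : IntegrableOn (fun r => -(ν * π r)) (Icc s t) := by
        apply ContinuousOn.integrableOn_Icc
        fun_prop
      have i2 : IntegrableOn (fun r => (1 + η r) * y r) (Icc s t) := by
        apply ContinuousOn.integrableOn_Icc
        fun_prop
      have i3 : IntegrableOn (fun r => P ^ ρ * w r) (Icc s t) :=
        (wI.mono_set hsub').const_mul _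
      have i4 : IntegrableOn (fun r => ε * P ^ (-θ) * Q r) (Icc s t) := by
        apply ContinuousOn.integrableOn_Icc
        exact continuousOn_const.mul c4
      exact (i1.add ((i2.add i3).const_mul κ)).add i4)
    (by
      intro s t hs hst ht
      have hsub : Icc s t ⊆ Ico 0 T := fun r hr => ⟨hs.le.trans hr.1, hr.2.trans_lt ht⟩
      have hsub' : Icc s t ⊆ Ioo 0 T := fun r hr => ⟨hs.trans_le hr.1, hr.2.trans_lt ht⟩
      refine intervalIntegral.sub_le_integral_of_hasDeriv_right_of_le hst (cy.mono hsub)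
        (fun r hr => (h.enstrophy_hasDerivAt (hsub' ⟨hr.1.le, hr.2.le⟩)).hasDerivWithinAt) ?_ ?_
      · have c1 := cπ.mono hsub
        have c2 := cη.mono hsub
        have c4 := cQ.mono hsub
        have c3 : ContinuousOn (fun r => (1 + y r) ^ θ) (Icc s t) :=
          (continuousOn_const.add (cy.mono hsub)).rpow_const fun x hx => Or.inr hθ0.le
        apply ContinuousOn.integrableOn_Icc
        exact (continuousOn_const.mul c4).neg.add (continuousOn_const.mul (c3.mul (c2.add c1)))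
      · intro r hr
        have hr' := hsub' ⟨hr.1.le, hr.2.le⟩
        have h1 := hcub r hr'
        simp only [hQ]
        linarith)
  -- the bound for the integral of the palinstrophy
  set K : ℝ := 1 + |M| with hK
  have hK1 : 1 ≤ K := by
    have := abs_nonneg M
    linarith
  have hMK : M ≤ K := by
    have := le_abs_self M
    linarith
  refine h.bounded_of_int_palin hν (K := (y 0 + c5 * ((1 + K) ^ θ * (K * T + K))) / ν)
    fun t ht => ?_
  have hsub : Icc 0 t ⊆ Ico 0 T := fun r hr => ⟨hr.1, hr.2.trans_lt ht.2⟩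
  have c1 := cπ.mono hsub
  have c2 := cη.mono hsub
  have c3 := cy.mono hsub
  have c4 : ContinuousOn (fun s => palin (u s)) (Icc 0 t) := h.palin_continuousOn.mono hsub
  have h1 := intervalIntegral.sub_le_integral_of_hasDeriv_right_of_le
    (φ := fun s => -(ν * palin (u s)) + c5 * ((1 + K) ^ θ * (K + π s))) ht.1 c3
    (fun s hs => (h.enstrophy_hasDerivAt ⟨hs.1, hs.2.trans ht.2⟩).hasDerivWithinAt)
    (by
      apply ContinuousOn.integrableOn_Icc
      fun_prop)
    (by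
      intro r hr
      have hr' : r ∈ Ioo 0 T := ⟨hr.1, hr.2.trans ht.2⟩
      have h1 := hcub r hr'
      obtain ⟨m1, m2, m3⟩ := hM r ⟨hr'.1.le, hr'.2⟩
      have l1 : (1 + y r) ^ θ ≤ (1 + K) ^ θ :=
        Real.rpow_le_rpow (by linarith [y0 r]) (by linarith) hθ0.le
      have l2 : (1 + y r) ^ θ * (η r + π r) ≤ (1 + K) ^ θ * (K + π r) :=
        mul_le_mul l1 (by linarith) (add_nonneg (η0 r) (π0 r)) (by positivity)
      have l3 := mul_le_mul_of_nonneg_left l2 hc50
      linarith)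
  have j1 : IntervalIntegrable (fun s => -(ν * palin (u s))) volume 0 t := by
    apply ContinuousOn.intervalIntegrable
    rw [uIcc_of_le ht.1]
    fun_prop
  have j2 : IntervalIntegrable π volume 0 t := by
    apply ContinuousOn.intervalIntegrable
    rwa [uIcc_of_le ht.1]
  have j3 : IntervalIntegrable (fun _ : ℝ => K) volume 0 t := intervalIntegrable_const
  have j4 : IntervalIntegrable (fun s => c5 * ((1 + K) ^ θ * (K + π s))) volume 0 t :=
    ((j3.add j2).const_mul _).const_mul _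
  rw [intervalIntegral.integral_add j1 j4, intervalIntegral.integral_neg,
    intervalIntegral.integral_const_mul, intervalIntegral.integral_const_mul,
    intervalIntegral.integral_const_mul,
    intervalIntegral.integral_add j3 j2, intervalIntegral.integral_const, smul_eq_mul] at h1
  have h2 : ∫ s in (0 : ℝ)..t, π s ≤ K := (hM t ht).2.2.trans hMK
  have h3 : (t - 0) * K + (∫ s in (0 : ℝ)..t, π s) ≤ K * T + K := by
    have := mul_le_mul_of_nonneg_right ht.2.le (by linarith : 0 ≤ K)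
    linarith
  have h4 := mul_le_mul_of_nonneg_left h3 (by positivity : 0 ≤ (1 + K) ^ θ)
  have h6 := mul_le_mul_of_nonneg_left h4 hc50
  have h5 := y0 t
  rw [le_div_iff₀ (by positivity)]
  linarith

end Pool.Agent.H4LA
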