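import Pool.Agent.H4LA.EtaL
import Pool.Agent.H4LA.Gen4

/-!
The criterion in mixed norms, the second case.
-/

set_option autoImplicit false
set_option linter.unusedVariables false

open MeasureTheory Set Function Filter Topology
open scoped ENNReal ContDiff

namespace Pool.Agent.H4LA

open H459R3.NS

variable {ν T : ℝ} {u : ℝ → V → V} {p : ℝ → V → ℝ}

/-- The criterion. -/
theorem near5 (h : IsSol ν T u p) (hν : 0 < ν) (hT : 0 < T) {a r s : ℝ} (hx : Ey a r)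
    (hs : sL a r < s) {N : ℝ → ℝ} (N1 : ∀ t ∈ Ioo 0 T, 1 ≤ N t)
    (hN : IntegrableOn (fun t => N t ^ s) (Ioo 0 T))
    (hb : ∀ t ∈ Ioo 0 T, Mix a r (N t) (fun i y => u t y i)) :
    ∃ M, ∀ t ∈ Ico 0 T, ∀ x i, |u t x i| ≤ M := by
  set y : ℝ → ℝ := fun t => ysq (fun i y => u t y i) with hy
  set η : ℝ → ℝ := fun t => hsq (fun i y => u t y i) with hη
  set π : ℝ → ℝ := fun t => psq (fun i y => u t y i) with hπ
  set Q : ℝ → ℝ := fun t => palin (u t) with hQ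
  have y0 : ∀ t, 0 ≤ y t := fun t => ysq_nonneg _
  have η0 : ∀ t, 0 ≤ η t := fun t => hsq_nonneg _
  have π0 : ∀ t, 0 ≤ π t := fun t => psq_nonneg _
  have Q0 : ∀ t, 0 ≤ Q t := fun t => palin_nonneg _
  have cy : ContinuousOn y (Ico 0 T) := h.enstrophy_continuousOn
  set E0 : ℝ := energy (u 0) with hE0
  set D : ℝ := E0 / (2 * ν) with hD
  have hyD : ∀ t ∈ Ico 0 T, ∫ s in (0 : ℝ)..t, y s ≤ D := fun t ht => h.int_enstrophy hν ht
  have hyI := integrableOn_of_bdd cy y0 hyD hT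
  have hyI' : IntegrableOn y (Ioo 0 T) := by
    rwa [← integrableOn_Ioc_iff_integrableOn_Ioo]
  have ha0 := hx.a_pos
  have hr0 := hx.r_pos
  set c' : ℝ := sL a r with hc'
  have hc'0 : 0 < c' := by linarith [hx.sL_two]
  have hs0 : 0 < s := hc'0.trans hs
  set β : ℝ := bL a r with hβ
  have hβ1 : 1 ≤ β := hx.bL_one
  have hβ0 : 0 < β := by linarith
  set σ : ℝ := c' / s with hσ
  have hσ0 : 0 < σ := by positivity
  have hσ1 : σ < 1 := (div_lt_one hs0).2 hs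
  have h1σ : 0 < 1 - σ := by linarith
  set θ : ℝ := (1 - σ) / (2 * (1 + β / a)) with hθ
  have hθ0 : 0 < θ := by positivity
  set ρ : ℝ := θ * (β / a) + σ with hρ
  have hρ0 : 0 ≤ ρ := by positivity
  have hθρ : θ + ρ < 1 := by
    have e : θ * (1 + β / a) = (1 - σ) / 2 := by
      rw [hθ]
      field_simp
    have e2 : θ + ρ = θ * (1 + β / a) + σ := by
      rw [hρ]
      ring
    rw [e2, e]
    linarith
  obtain ⟨Cv, hCv0, hCv⟩ := v2f_L hx
  have N0 : ∀ t ∈ Ioo 0 T, 0 < N t := fun t ht => by linarith [N1 t ht]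
  set w : ℝ → ℝ := fun t => N t ^ s + (1 + y t) with hw
  have wI : IntegrableOn w (Ioo 0 T) := hN.add ((integrableOn_const (by simp)).add hyI')
  have w0 : ∀ t ∈ Ioo 0 T, 0 ≤ w t := fun t ht =>
    add_nonneg (Real.rpow_nonneg (N0 t ht).le _) (by linarith [y0 t])
  have hE00 : 0 ≤ E0 := energy_nonneg _
  have hspt : ∀ t ∈ Ioo 0 T, ∀ i, SP (fun y => u t y i) := fun t ht => h.sp ⟨ht.1.le, ht.2⟩
  have hdivt : ∀ t ∈ Ioo 0 T, ∀ x, ∑ i, pd i (fun y => u t y i) x = 0 := fun t ht =>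
    h.divfree t ⟨ht.1.le, ht.2⟩
  refine near_gen h hν hT hθ0 hρ0 hθρ w0 wI
    (slice_boundG h hν hT hc'0 hβ0 (fun m hm E hE => key_L hν hx hm hE) hs N1 hN hb hθ0)
    fun ε hε0 => ?_
  set κ0 : ℝ := 5408 / ν * (1 + (2 * E0 ^ 2 + 8 * E0))
      + 2 * 10816 ^ 2 / ν ^ 3 * (2 * E0 ^ 2 + 8 * E0) + ν / 4 + ε with hκ0
  have hκ00 : 0 ≤ κ0 := by positivity
  set κL : ℝ := (2704 / ν * Cv * (ε ^ (-(1 / a)) * (ν / 4) ^ (-(2 / r)))) ^ bL a r with hκL
  have hκL0 : 0 ≤ κL := by positivity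
  refine ⟨κ0 + κL, by positivity, ?_⟩
  intro P hP t ht hyP
  have hP0 : 0 < P := by linarith
  have hN0 := N0 t ht
  set τ : ℝ := P ^ (-θ) with hτ
  have hτ0 : 0 < τ := by positivity
  have hτ1 : τ ≤ 1 := Real.rpow_le_one_of_one_le_of_nonpos hP (by linarith)
  have hW := fun i j => hCv (N t) (N1 t ht) (fun i y => u t y i) (hspt t ht) (hb t ht) i j
  have hcu := abs_cubh_le (hspt t ht) (hdivt t ht) hW
  have h4 : qsq (fun i y => u t y i) = Q t := rfl
  have h1 := rate4 hx hν (esq_nonneg _) (h.energy_le hν ⟨ht.1.le, ht.2⟩) (η0 t) (π0 t) (y0 t)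
    ((isq_nonneg _).trans (hW 0 0)) hCv0 hN0 hτ0 hτ1 hε0 (Q0 t) hcu le_rfl
  rw [← hE0, ← hκ0, ← hκL] at h1
  -- the product of the level and the enstrophy
  have hLy : τ ^ (-(bL a r / a)) * (N t ^ sL a r * y t) ≤ P ^ ρ * w t := by
    have e1 : τ ^ (-(bL a r / a)) = P ^ (θ * (β / a)) := by
      rw [hτ, ← Real.rpow_mul hP0.le]
      congr 1
      ring
    have l1 : 1 ≤ 1 + y t := by linarith [y0 t]
    have l3 := pow_split hN0.le l1 hc'0 hs
    rw [← hσ] at l3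
    have l0 : 0 < 1 + y t := by linarith
    have l4 : y t ≤ (1 + y t) ^ (1 - σ) * P ^ σ := by
      have l5 : (1 + y t) ^ (1 - σ) * (1 + y t) ^ σ = 1 + y t := by
        rw [← Real.rpow_add l0]
        simp
      have l6 : (1 + y t) ^ σ ≤ P ^ σ := Real.rpow_le_rpow l0.le hyP hσ0.le
      have l7 := mul_le_mul_of_nonneg_left l6 (Real.rpow_nonneg l0.le (1 - σ))
      linarith
    have l8 : N t ^ c' * y t ≤ w t * P ^ σ := by
      have l9 := mul_le_mul_of_nonneg_left l4 (Real.rpow_nonneg hN0.le c')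
      have l10 := mul_le_mul_of_nonneg_right l3 (Real.rpow_nonneg hP0.le σ)
      simp only [hw]
      linarith
    have l11 := mul_le_mul_of_nonneg_left l8 (by positivity : 0 ≤ P ^ (θ * (β / a)))
    have e2 : P ^ ρ = P ^ (θ * (β / a)) * P ^ σ := by
      rw [hρ, Real.rpow_add hP0]
    rw [e1, e2]
    linarith
  have h5 := mul_le_mul_of_nonneg_left hLy hκL0
  have q1 : 0 ≤ κL * ((1 + η t) * y t) :=
    mul_nonneg hκL0 (mul_nonneg (by linarith [η0 t]) (y0 t))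
  have q2 : 0 ≤ κ0 * (P ^ ρ * w t) :=
    mul_nonneg hκ00 (mul_nonneg (Real.rpow_nonneg hP0.le _) (w0 t ht))
  refine h1.trans ?_
  have e3 : (κ0 + κL) * ((1 + η t) * y t + P ^ ρ * w t)
      = κ0 * ((1 + η t) * y t) + κL * (P ^ ρ * w t)
        + (κL * ((1 + η t) * y t) + κ0 * (P ^ ρ * w t)) := by ring
  show _ ≤ -(ν * π t) + (κ0 + κL) * ((1 + η t) * y t + P ^ ρ * w t) + ε * τ * Q t
  rw [e3]
  linarith

end Pool.Agent.H4LA
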