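import Pool.Agent.H4LA.Avg
import Pool.Agent.H4LA.Fin

/-!
Oscillations along lines in `L^r`.
-/

set_option autoImplicit false
set_option linter.unusedVariables false

open MeasureTheory Set Function Filter Topology
open scoped ENNReal ContDiff

namespace Pool.Agent.H4LA

open H459R3.NS

variable {ν T : ℝ} {u : ℝ → V → V} {p : ℝ → V → ℝ}

/-- The positive part of the derivative controls the oscillation. -/
theorem osc_le_av {f : V → ℝ} (hf : SP f) {j : Fin 3} {h : V → ℝ} (hh : CP h)
    (h0 : ∀ x, 0 ≤ h x) (hg : ∀ x, pd j f x ≤ h x) (x : V) (r : ℝ) :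
    f (update x j r) - f x ≤ Av j h x := by
  set a : ℝ := x j with ha
  set n : ℤ := -⌊r - a⌋ with hn
  have hr1 : a ≤ r + n := by
    have := Int.floor_le (r - a)
    rw [hn]
    push_cast
    linarith
  have hr2 : r + n ≤ a + 1 := by
    have := Int.lt_floor_add_one (r - a)
    rw [hn]
    push_cast
    linarith
  rw [← per_line hf j x r n]
  have e0 : f x = f (update x j a) := by rw [ha, update_eq_self]
  rw [e0]
  have h1 : ∫ σ in a..(r + n), pd j f (update x j σ)
      = f (update x j (r + n)) - f (update x j a) := by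
    apply intervalIntegral.integral_eq_sub_of_hasDerivAt (f := fun r => f (update x j r))
    · intro r _
      exact hasDerivAt_line hf x j r
    · exact ((hf.pd j).cont.comp (cont_update x j)).intervalIntegrable _ _
  rw [← h1]
  have hc : Continuous fun σ : ℝ => h (update x j σ) := hh.cont.comp (cont_update x j)
  have h2 : ∫ σ in a..(r + n), pd j f (update x j σ) ≤ ∫ σ in a..(r + n), h (update x j σ) := by
    apply intervalIntegral.integral_mono_on hr1
      (((hf.pd j).cont.comp (cont_update x j)).intervalIntegrable _ _) (hc.intervalIntegrable _ _)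
    intro σ _
    exact hg _
  have h3 : ∫ σ in a..(r + n), h (update x j σ) ≤ ∫ σ in a..(a + 1), h (update x j σ) := by
    rw [← intervalIntegral.integral_add_adjacent_intervals (hc.intervalIntegrable a (r + n))
      (hc.intervalIntegrable (r + n) (a + 1))]
    have := intervalIntegral.integral_nonneg (μ := volume) hr2 (fun σ _ => h0 (update x j σ))
    linarith
  have hp : Function.Periodic (fun σ : ℝ => h (update x j σ)) 1 := by
    intro σ
    simp only
    have e : update x j (σ + 1) = update x j σ + Pi.single j 1 := by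
      funext k
      by_cases hk : k = j
      · subst hk
        simp
      · simp [hk]
    rw [e, hh.per]
  have h4 : ∫ σ in a..(a + 1), h (update x j σ) = Av j h x := by
    rw [hp.intervalIntegral_add_eq a 0, zero_add, Av_eq]
  linarith

/-- Jensen's inequality on lines. -/
theorem Av_rpow_le {h : V → ℝ} (hh : CP h) (h0 : ∀ x, 0 ≤ h x) {r : ℝ} (hr : 1 ≤ r) (j : Fin 3)
    (x : V) : Av j h x ^ r ≤ Av j (fun y => h y ^ r) x := by
  have : IsProbabilityMeasure (volume.restrict (Icc (0 : ℝ) 1)) := ⟨by simp⟩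
  have hc : Continuous fun y => h y ^ r := hh.cont.rpow_const fun x => Or.inr (by linarith)
  have h1 := (convexOn_rpow hr).map_integral_le (μ := volume.restrict (Icc (0 : ℝ) 1))
    (f := fun s => h (update x j s))
    (fun x hx => (Real.continuousAt_rpow_const _ _ (Or.inr (by linarith))).continuousWithinAt)
    isClosed_Ici (Filter.Eventually.of_forall fun s => h0 _) (intOn_line hh.cont j x)
    (intOn_line hc j x)
  exact h1

theorem cp_rpow {h : V → ℝ} (hh : CP h) {r : ℝ} (hr : 0 ≤ r) : CP fun y => h y ^ r :=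
  ⟨hh.cont.rpow_const fun x => Or.inr hr, fun i x => by simp only [hh.per i x]⟩

theorem int_Av_rpow_le {h : V → ℝ} (hh : CP h) (h0 : ∀ x, 0 ≤ h x) {r : ℝ} (hr : 1 ≤ r)
    (j : Fin 3) : ∫ x in cube, Av j h x ^ r ≤ ∫ x in cube, h x ^ r := by
  have hc := cp_rpow hh (by linarith : 0 ≤ r)
  rw [← int_Av hc j]
  apply setIntegral_mono (cp_rpow (hh.av j) (by linarith)).int (hc.av j).int
  intro x
  exact Av_rpow_le hh h0 hr j x

theorem prob_cube : IsProbabilityMeasure ((volume : Measure V).restrict cube) := by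
  rw [restrict_cube]
  have : IsProbabilityMeasure m1 := ⟨by simp [m1]⟩
  infer_instance

/-- Powers and `eLpNorm`. -/
theorem int_rpow_le {G : V → ℝ} (hG : CP G) (G0 : ∀ x, 0 ≤ G x) {r : ℝ≥0∞} {r0 c : ℝ}
    (hr0 : 0 < r0) (hr : ENNReal.ofReal r0 ≤ r)
    (h : eLpNorm G r ((volume : Measure V).restrict cube) ≤ ENNReal.ofReal c) :
    ∫ x in cube, G x ^ r0 ≤ |c| ^ r0 := by
  have := prob_cube
  have h1 : eLpNorm G (ENNReal.ofReal r0) ((volume : Measure V).restrict cube)
      ≤ ENNReal.ofReal |c| :=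
    (eLpNorm_le_eLpNorm_of_exponent_le hr hG.cont.aestronglyMeasurable).trans
      (h.trans (ENNReal.ofReal_le_ofReal (le_abs_self c)))
  have hp0 : ENNReal.ofReal r0 ≠ 0 := by
    rw [Ne, ENNReal.ofReal_eq_zero]
    linarith
  rw [eLpNorm_eq_lintegral_rpow_enorm_toReal hp0 ENNReal.ofReal_ne_top,
    ENNReal.toReal_ofReal hr0.le] at h1
  have h2 : ∫⁻ x in cube, ‖G x‖ₑ ^ r0 ≤ ENNReal.ofReal |c| ^ r0 := by
    have h3 := ENNReal.rpow_le_rpow h1 hr0.le
    rwa [← ENNReal.rpow_mul, one_div_mul_cancel hr0.ne', ENNReal.rpow_one] at h3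
  have h4 : ∫⁻ x in cube, ‖G x‖ₑ ^ r0 = ∫⁻ x in cube, ENNReal.ofReal (G x ^ r0) := by
    apply lintegral_congr
    intro x
    rw [Real.enorm_of_nonneg (G0 x), ENNReal.ofReal_rpow_of_nonneg (G0 x) hr0.le]
  rw [h4, ENNReal.ofReal_rpow_of_nonneg (abs_nonneg c) hr0.le,
    ← ofReal_integral_eq_lintegral_ofReal (cp_rpow hG hr0.le).int
      (Filter.Eventually.of_forall fun x => Real.rpow_nonneg (G0 x) _)] at h2
  rwa [ENNReal.ofReal_le_ofReal_iff (by positivity)] at h2

end Pool.Agent.H4LA
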