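import Pool.Agent.H459R3.NS.Sol

/-!
Exchange of two coordinates.
-/

set_option autoImplicit false
set_option linter.unusedVariables false

open MeasureTheory Set Function Filter Topology
open scoped ENNReal ContDiff

namespace Pool.Agent.H4LA

open H459R3.NS

variable {ν T : ℝ} {u : ℝ → V → V} {p : ℝ → V → ℝ}

/-- The exchange of the coordinates `j` and `2`. -/
def sw (j : Fin 3) : Equiv.Perm (Fin 3) := Equiv.swap j 2

theorem sw_sw (j i : Fin 3) : sw j (sw j i) = i := Equiv.swap_apply_self j 2 i

/-- The map of the space. -/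
noncomputable def pm (j : Fin 3) : V →L[ℝ] V :=
  ContinuousLinearMap.pi fun i => ContinuousLinearMap.proj (sw j i)

theorem pm_apply (j : Fin 3) (x : V) (i : Fin 3) : pm j x i = x (sw j i) := rfl

theorem pm_single (j i : Fin 3) (c : ℝ) : pm j (Pi.single i c) = Pi.single (sw j i) c := by
  funext k
  rw [pm_apply]
  by_cases h : k = sw j i
  · subst h
    rw [sw_sw, Pi.single_eq_same, Pi.single_eq_same]
  · have h2 : sw j k ≠ i := by
      intro h3
      apply h
      rw [← h3, sw_sw]
    rw [Pi.single_eq_of_ne h2, Pi.single_eq_of_ne h]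

theorem pm_pm (j : Fin 3) (x : V) : pm j (pm j x) = x := by
  funext i
  rw [pm_apply, pm_apply, sw_sw]

theorem pm_update (j : Fin 3) (x : V) (r : ℝ) :
    pm j (update x 2 r) = update (pm j x) j r := by
  funext i
  rw [pm_apply]
  by_cases h : i = j
  · subst h
    have : sw i i = 2 := Equiv.swap_apply_left i 2
    rw [this]
    simp
  · have h2 : sw j i ≠ 2 := by
      intro h3
      apply h
      have := congrArg (sw j) h3
      rw [sw_sw] at this
      rw [this]
      exact Equiv.swap_apply_right j 2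
    rw [update_of_ne h2, update_of_ne h, pm_apply]

theorem pd_pm {f : V → ℝ} (hf : ContDiff ℝ ∞ f) (j i : Fin 3) (x : V) :
    pd i (fun y => f (pm j y)) x = pd (sw j i) f (pm j x) := by
  unfold pd
  have h1 : HasFDerivAt (fun y => f (pm j y)) ((fderiv ℝ f (pm j x)).comp (pm j)) x :=
    ((hf.differentiable (by norm_cast)) _).hasFDerivAt.comp x (pm j).hasFDerivAt
  rw [h1.fderiv, ContinuousLinearMap.comp_apply, pm_single]

/-- The velocity in the exchanged coordinates. -/
noncomputable def swu (j : Fin 3) (u : ℝ → V → V) (t : ℝ) (x : V) : V := pm j (u t (pm j x))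

/-- The pressure in the exchanged coordinates. -/
noncomputable def swp (j : Fin 3) (p : ℝ → V → ℝ) (t : ℝ) (x : V) : ℝ := p t (pm j x)

theorem swu_apply (j : Fin 3) (t : ℝ) (x : V) (i : Fin 3) :
    swu j u t x i = u t (pm j x) (sw j i) := rfl

theorem IsSol.swap (h : IsSol ν T u p) (j : Fin 3) : IsSol ν T (swu j u) (swp j p) := by
  have hmap : MapsTo (fun z : ℝ × V => (z.1, pm j z.2)) (Ico 0 T ×ˢ (univ : Set V))
      (Ico 0 T ×ˢ (univ : Set V)) := fun z hz => ⟨hz.1, mem_univ _⟩
  have hsm : ContDiff ℝ ∞ (fun z : ℝ × V => (z.1, pm j z.2)) :=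
    contDiff_fst.prodMk ((pm j).contDiff.comp contDiff_snd)
  have hper : ∀ {F : Type} (f : V → F), Per f → Per fun x => f (pm j x) := by
    intro F f hf i x
    simp only
    rw [map_add, pm_single, hf]
  have hpd : ∀ t ∈ Ico 0 T, ∀ i k x, pd i (fun y => swu j u t y k) x
      = pd (sw j i) (fun y => u t y (sw j k)) (pm j x) := fun t ht i k x =>
    pd_pm (h.sp ht (sw j k)).smooth j i x
  refine ⟨?_, ?_, ?_, ?_, ?_, ?_⟩
  · have h1 : ContDiffOn ℝ ∞ (fun z : ℝ × V => u z.1 (pm j z.2)) (Ico 0 T ×ˢ univ) :=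
      h.smooth_u.comp hsm.contDiffOn hmap
    exact (pm j).contDiff.comp_contDiffOn h1
  · exact h.smooth_p.comp hsm.contDiffOn hmap
  · intro t ht i x
    have := hper (u t) (h.per_u t ht) i x
    simp only at this
    unfold swu
    rw [this]
  · intro t ht
    exact hper (p t) (h.per_p t ht)
  · intro t ht x
    simp_rw [hpd t ht]
    rw [Equiv.sum_comp (sw j) (fun i => pd i (fun y => u t y i) (pm j x))]
    exact h.divfree t ht _
  · intro t ht x i
    have hI : t ∈ Ico 0 T := ⟨ht.1.le, ht.2⟩
    have h1 := h.momentum t ht (pm j x) (sw j i)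
    have e1 : ∑ k, swu j u t x k * pd k (fun y => swu j u t y i) x
        = ∑ k, u t (pm j x) k * pd k (fun y => u t y (sw j i)) (pm j x) := by
      simp_rw [hpd t hI, swu_apply]
      exact Equiv.sum_comp (sw j)
        (fun k => u t (pm j x) k * pd k (fun y => u t y (sw j i)) (pm j x))
    have e2 : ∀ k, pd k (pd k (fun y => swu j u t y i)) x
        = pd (sw j k) (pd (sw j k) (fun y => u t y (sw j i))) (pm j x) := by
      intro k
      have e3 : pd k (fun y => swu j u t y i)
          = fun y => pd (sw j k) (fun y => u t y (sw j i)) (pm j y) :=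
        funext fun y => hpd t hI k i y
      rw [e3, pd_pm ((h.sp hI (sw j i)).pd (sw j k)).smooth]
    have e4 : ∑ k, pd k (pd k (fun y => swu j u t y i)) x
        = ∑ k, pd k (pd k (fun y => u t y (sw j i))) (pm j x) := by
      simp_rw [e2]
      exact Equiv.sum_comp (sw j) (fun k => pd k (pd k (fun y => u t y (sw j i))) (pm j x))
    have e5 : pd i (swp j p t) x = pd (sw j i) (p t) (pm j x) :=
      pd_pm (h.sp_p hI).smooth j i x
    rw [e1, e4, e5]
    exact h1

end Pool.Agent.H4LA
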