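import Pool.Agent.H4LA.Avg
import Pool.Agent.H4LA.Perm

/-!
Oscillations along lines in `L^r`: the criterion.
-/

set_option autoImplicit false
set_option linter.unusedVariables false

open MeasureTheory Set Function Filter Topology
open scoped ENNReal ContDiff

namespace Pool.Agent.H4LA

open H459R3.NS

variable {ν T : ℝ} {u : ℝ → V → V} {p : ℝ → V → ℝ}

theorem cp_pm {G : V → ℝ} (hG : CP G) (j : Fin 3) : CP fun y => G (pm j y) where
  cont := hG.cont.comp (pm j).continuous
  per := by
    intro i x
    simp only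
    rw [map_add, pm_single, hG.per]

theorem int_pm (f : V → ℝ) (j : Fin 3) : ∫ x in cube, f (pm j x) = ∫ x in cube, f x := by
  have h1 := volume_measurePreserving_piCongrLeft (fun _ : Fin 3 => ℝ) (sw j)
  have e1 : (MeasurableEquiv.piCongrLeft (fun _ : Fin 3 => ℝ) (sw j) : V → V) = pm j := by
    funext x i
    have h2 := Equiv.piCongrLeft_apply_apply (fun _ : Fin 3 => ℝ) (sw j) x (sw j i)
    rw [sw_sw] at h2
    rw [MeasurableEquiv.coe_piCongrLeft, h2, pm_apply]
  have h2 := h1.setIntegral_preimage_emb (MeasurableEquiv.measurableEmbedding _) f cube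
  have e2 : (MeasurableEquiv.piCongrLeft (fun _ : Fin 3 => ℝ) (sw j) : V → V) ⁻¹' cube = cube := by
    rw [e1]
    ext x
    simp only [mem_preimage, cube, mem_Icc, Pi.le_def, pm_apply, Pi.zero_apply, Pi.one_apply]
    constructor
    · rintro ⟨h3, h4⟩
      refine ⟨fun i => ?_, fun i => ?_⟩
      · have := h3 (sw j i)
        rwa [sw_sw] at this
      · have := h4 (sw j i)
        rwa [sw_sw] at this
    · rintro ⟨h3, h4⟩
      exact ⟨fun i => h3 _, fun i => h4 _⟩
  rw [e2] at h2
  rw [← h2, e1]

end Pool.Agent.H4LA
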