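import Pool.Agent.H4LA.Gen4
import Pool.Agent.H4LA.Osc
import Pool.Agent.H4LA.Osc2

/-!
Mixed norms and Minkowski's integral inequality.
-/

set_option autoImplicit false
set_option linter.unusedVariables false

open MeasureTheory Set Function Filter Topology
open scoped ENNReal ContDiff

namespace Pool.Agent.H4LA

open H459R3.NS

/-- Minkowski's integral inequality. -/
theorem mink {α β : Type} [MeasurableSpace α] [MeasurableSpace β] {μ : Measure α} {κ : Measure β}
    [SFinite μ] [SFinite κ] {F : α → β → ℝ≥0∞} (hF : Measurable (uncurry F)) {r : ℝ}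
    (hr : 1 < r) (hfin : ∫⁻ z, (∫⁻ σ, F σ z ∂μ) ^ r ∂κ ≠ ⊤) :
    (∫⁻ z, (∫⁻ σ, F σ z ∂μ) ^ r ∂κ) ^ (1 / r) ≤ ∫⁻ σ, (∫⁻ z, F σ z ^ r ∂κ) ^ (1 / r) ∂μ := by
  set M : β → ℝ≥0∞ := fun z => ∫⁻ σ, F σ z ∂μ with hM
  have mM : Measurable M := hF.lintegral_prod_left'
  set I := ∫⁻ z, M z ^ r ∂κ with hI
  have hr0 : 0 < r := by linarith
  rcases eq_or_ne I 0 with h0 | h0
  · rw [h0, ENNReal.zero_rpow_of_pos (by positivity)]
    exact zero_le
  have hc : r.HolderConjugate (Real.conjExponent r) := Real.HolderConjugate.conjExponent hr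
  set r' : ℝ := Real.conjExponent r with hr'
  have e1 : I = ∫⁻ σ, ∫⁻ z, F σ z * M z ^ (r - 1) ∂κ ∂μ := by
    have m1 : Measurable (uncurry fun (σ : α) (z : β) => F σ z * M z ^ (r - 1)) :=
      hF.mul ((mM.comp measurable_snd).pow_const _)
    rw [lintegral_lintegral_swap m1.aemeasurable]
    apply lintegral_congr
    intro z
    have m2 : Measurable fun σ => F σ z := hF.comp (measurable_id.prodMk measurable_const)
    rw [lintegral_mul_const _ m2]
    have : M z ^ r = M z ^ ((1 : ℝ) + (r - 1)) := by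
      congr 1
      ring
    rw [this, ENNReal.rpow_add_of_nonneg _ _ (by norm_num) (by linarith), ENNReal.rpow_one]
  have h2 : ∀ σ, ∫⁻ z, F σ z * M z ^ (r - 1) ∂κ
      ≤ (∫⁻ z, F σ z ^ r ∂κ) ^ (1 / r) * I ^ (1 / r') := by
    intro σ
    have h := ENNReal.lintegral_mul_le_Lp_mul_Lq κ hc (f := F σ) (g := fun z => M z ^ (r - 1))
      (hF.comp (measurable_const.prodMk measurable_id)).aemeasurable (mM.pow_const _).aemeasurable
    refine h.trans (le_of_eq ?_)
    congr 2
    apply lintegral_congr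
    intro z
    rw [← ENNReal.rpow_mul, hc.sub_one_mul_conj]
  have h3 : I ≤ (∫⁻ σ, (∫⁻ z, F σ z ^ r ∂κ) ^ (1 / r) ∂μ) * I ^ (1 / r') := by
    have m2 : Measurable fun σ => (∫⁻ z, F σ z ^ r ∂κ) ^ (1 / r) :=
      (Measurable.lintegral_prod_right' (f := fun q : α × β => F q.1 q.2 ^ r)
        (hF.pow_const r)).pow_const _
    rw [← lintegral_mul_const _ m2]
    calc I = _ := e1
      _ ≤ _ := lintegral_mono h2
  have e4 : I = I ^ (1 / r) * I ^ (1 / r') := by
    rw [← ENNReal.rpow_add_of_nonneg _ _ (by positivity)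
      (by have := hc.symm.pos; positivity)]
    have := hc.inv_add_inv_eq_one
    rw [one_div, one_div, this, ENNReal.rpow_one]
  have n0 : I ^ (1 / r') ≠ 0 := by
    rw [Ne, ENNReal.rpow_eq_zero_iff]
    rintro (⟨h, -⟩ | ⟨h, -⟩)
    · exact h0 h
    · exact hfin h
  have n1 : I ^ (1 / r') ≠ ⊤ := ENNReal.rpow_ne_top_of_nonneg
    (by have := hc.symm.pos; positivity) hfin
  rw [← ENNReal.mul_le_mul_iff_left n0 n1, ← e4]
  exact h3

/-- The `L^r` norm of `f` on the piece of the plane `x j = σ` in the unit cube. -/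
noncomputable def sliceNorm (j : Fin 3) (r : ℝ≥0∞) (f : V → ℝ) (σ : ℝ) : ℝ≥0∞ :=
  eLpNorm (fun x => f (update x j σ)) r ((volume : Measure V).restrict cube)

/-- The norm of `f` in `L^a` of the `j`-th coordinate with values in `L^r` of the others, on the
unit cube. -/
noncomputable def mixNorm (j : Fin 3) (a r : ℝ≥0∞) (f : V → ℝ) : ℝ≥0∞ :=
  eLpNorm (sliceNorm j r f) a ((volume : Measure ℝ).restrict (Icc 0 1))

theorem cont_upd2 (j : Fin 3) : Continuous fun q : ℝ × V => update q.2 j q.1 :=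
  continuous_snd.update j continuous_fst

theorem cont_upd1 (j : Fin 3) (σ : ℝ) : Continuous fun x : V => update x j σ :=
  continuous_id.update j continuous_const

theorem sliceNorm_eq (j : Fin 3) {r : ℝ} (hr : 0 < r) (f : V → ℝ) (σ : ℝ) :
    sliceNorm j (ENNReal.ofReal r) f σ = (∫⁻ x in cube, ‖f (update x j σ)‖ₑ ^ r) ^ (1 / r) := by
  have hp0 : ENNReal.ofReal r ≠ 0 := by
    rw [Ne, ENNReal.ofReal_eq_zero]
    linarith
  unfold sliceNorm
  rw [eLpNorm_eq_lintegral_rpow_enorm_toReal hp0 ENNReal.ofReal_ne_top,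
    ENNReal.toReal_ofReal hr.le]

theorem mixNorm_eq (j : Fin 3) {a : ℝ} (ha : 0 < a) (r : ℝ≥0∞) (f : V → ℝ) :
    mixNorm j (ENNReal.ofReal a) r f
      = (∫⁻ σ in Icc (0 : ℝ) 1, sliceNorm j r f σ ^ a) ^ (1 / a) := by
  have hp0 : ENNReal.ofReal a ≠ 0 := by
    rw [Ne, ENNReal.ofReal_eq_zero]
    linarith
  unfold mixNorm
  rw [eLpNorm_eq_lintegral_rpow_enorm_toReal hp0 ENNReal.ofReal_ne_top,
    ENNReal.toReal_ofReal ha.le]
  simp only [enorm_eq_self]

theorem meas_slice {f : V → ℝ} (hf : Measurable f) (j : Fin 3) {r : ℝ} (hr : 0 < r) :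
    Measurable (sliceNorm j (ENNReal.ofReal r) f) := by
  have e : sliceNorm j (ENNReal.ofReal r) f
      = fun σ => (∫⁻ x in cube, ‖f (update x j σ)‖ₑ ^ r) ^ (1 / r) :=
    funext fun σ => sliceNorm_eq j hr f σ
  rw [e]
  refine (Measurable.lintegral_prod_right' (f := fun q : ℝ × V => ‖f (update q.2 j q.1)‖ₑ ^ r)
    ?_).pow_const _
  exact ((hf.comp (cont_upd2 j).measurable).enorm).pow_const r

theorem prob_unit : IsProbabilityMeasure ((volume : Measure ℝ).restrict (Icc 0 1)) := ⟨by simp⟩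

/-- Smaller exponents. -/
theorem mixNorm_exp {f : V → ℝ} (hf : Measurable f) (j : Fin 3) {a r : ℝ≥0∞} {a0 r0 : ℝ}
    (hr0 : 0 < r0) (ha : ENNReal.ofReal a0 ≤ a) (hr : ENNReal.ofReal r0 ≤ r) :
    mixNorm j (ENNReal.ofReal a0) (ENNReal.ofReal r0) f ≤ mixNorm j a r f := by
  have := prob_cube
  have := prob_unit
  unfold mixNorm
  refine (eLpNorm_le_eLpNorm_of_exponent_le ha
    (meas_slice hf j hr0).aestronglyMeasurable).trans ?_
  refine eLpNorm_mono_enorm fun σ => ?_
  simp only [enorm_eq_self]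
  unfold sliceNorm
  exact eLpNorm_le_eLpNorm_of_exponent_le hr
    (hf.comp (cont_upd1 j σ).measurable).aestronglyMeasurable

/-- The averages over the lines are almost the best functions of the other variables. -/
theorem mix_av {f c : V → ℝ} (hf : CP f) (hc : Measurable c) {j : Fin 3} (hi : Ind j c)
    {a0 r0 : ℝ} (ha : 1 ≤ a0) (hr : 1 < r0) :
    mixNorm j (ENNReal.ofReal a0) (ENNReal.ofReal r0) (fun x => f x - Av j f x)
      ≤ 2 * mixNorm j (ENNReal.ofReal a0) (ENNReal.ofReal r0) (fun x => f x - c x) := by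
  have := prob_cube
  have := prob_unit
  have hr0 : 0 < r0 := by linarith
  have ha0 : 0 < a0 := by linarith
  have ha1 : (1 : ℝ≥0∞) ≤ ENNReal.ofReal a0 := by
    rw [← ENNReal.ofReal_one]
    exact ENNReal.ofReal_le_ofReal ha
  have hr1 : (1 : ℝ≥0∞) ≤ ENNReal.ofReal r0 := by
    rw [← ENNReal.ofReal_one]
    exact ENNReal.ofReal_le_ofReal hr.le
  set K := mixNorm j (ENNReal.ofReal a0) (ENNReal.ofReal r0) (fun x => f x - c x) with hK
  rcases eq_or_ne K ⊤ with hT | hT
  · rw [hT, ENNReal.mul_top (by norm_num)]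
    exact le_top
  set F : ℝ → V → ℝ≥0∞ := fun σ z => ‖f (update z j σ) - c z‖ₑ with hF
  have mF : Measurable (uncurry F) := by
    apply Measurable.enorm
    exact (hf.cont.measurable.comp (cont_upd2 j).measurable).sub (hc.comp measurable_snd)
  have mfc : Measurable fun x => f x - c x := hf.cont.measurable.sub hc
  have sF : ∀ σ, sliceNorm j (ENNReal.ofReal r0) (fun x => f x - c x) σ
      = (∫⁻ z in cube, F σ z ^ r0) ^ (1 / r0) := by
    intro σ
    rw [sliceNorm_eq j hr0]
    have hi' : ∀ x s, c (update x j s) = c x := hi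
    simp only [hF, hi']
  have mS := meas_slice mfc j hr0
  -- one finite slice
  have hfinS : ∫⁻ σ in Icc (0 : ℝ) 1,
      sliceNorm j (ENNReal.ofReal r0) (fun x => f x - c x) σ ^ a0 ≠ ⊤ := by
    intro h
    rw [hK, mixNorm_eq j ha0, h, ENNReal.top_rpow_of_pos (by positivity)] at hT
    exact hT rfl
  obtain ⟨σ0, hσ0⟩ : ∃ σ0, sliceNorm j (ENNReal.ofReal r0) (fun x => f x - c x) σ0 < ⊤ := by
    have h1 := ae_lt_top (mS.pow_const a0) hfinS
    obtain ⟨σ0, h2⟩ := h1.exists
    refine ⟨σ0, ?_⟩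
    by_contra h3
    rw [not_lt, top_le_iff] at h3
    rw [h3, ENNReal.top_rpow_of_pos ha0] at h2
    exact lt_irrefl _ h2
  obtain ⟨C, hC0, hC⟩ := hf.bdd
  -- the function M
  have hMle : ∀ z, ∫⁻ σ in Icc (0 : ℝ) 1, F σ z ≤ ENNReal.ofReal (2 * C) + F σ0 z := by
    intro z
    have h1 : ∀ σ, F σ z ≤ ENNReal.ofReal (2 * C) + F σ0 z := by
      intro σ
      have e : f (update z j σ) - c z
          = (f (update z j σ) - f (update z j σ0)) + (f (update z j σ0) - c z) := by ring
      simp only [hF]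
      rw [e]
      refine (enorm_add_le _ _).trans ?_
      gcongr
      rw [Real.enorm_eq_ofReal_abs]
      apply ENNReal.ofReal_le_ofReal
      have h2 := abs_le.1 (hC (update z j σ))
      have h3 := abs_le.1 (hC (update z j σ0))
      rw [abs_le]
      constructor <;> linarith
    calc ∫⁻ σ in Icc (0 : ℝ) 1, F σ z ≤ ∫⁻ σ in Icc (0 : ℝ) 1, (ENNReal.ofReal (2 * C) + F σ0 z) :=
          lintegral_mono h1
      _ = _ := by
          rw [lintegral_const]
          simp
  have hfin : ∫⁻ z in cube, (∫⁻ σ in Icc (0 : ℝ) 1, F σ z) ^ r0 ≠ ⊤ := by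
    have h1 : ∫⁻ z in cube, (∫⁻ σ in Icc (0 : ℝ) 1, F σ z) ^ r0
        ≤ ∫⁻ z in cube, ((fun _ : V => ENNReal.ofReal (2 * C)) + F σ0) z ^ r0 := by
      apply lintegral_mono
      intro z
      exact ENNReal.rpow_le_rpow (hMle z) hr0.le
    have mF0 : Measurable (F σ0) := mF.comp (measurable_const.prodMk measurable_id)
    have h2 := ENNReal.lintegral_Lp_add_le (μ := (volume : Measure V).restrict cube)
      (f := fun _ : V => ENNReal.ofReal (2 * C)) (g := F σ0) aemeasurable_const
      mF0.aemeasurable hr.le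
    rw [← sF σ0] at h2
    have h3 : (∫⁻ z in cube, ((fun _ : V => ENNReal.ofReal (2 * C)) z) ^ r0) ^ (1 / r0) < ⊤ := by
      rw [lintegral_const, measure_univ, mul_one]
      exact ENNReal.rpow_lt_top_of_nonneg (by positivity)
        (ENNReal.rpow_ne_top_of_nonneg hr0.le ENNReal.ofReal_ne_top)
    have h4 := h2.trans_lt (ENNReal.add_lt_top.2 ⟨h3, hσ0⟩)
    intro h5
    rw [h5, top_le_iff] at h1
    rw [h1, ENNReal.top_rpow_of_pos (by positivity)] at h4
    exact lt_irrefl _ h4
  have hmk := mink (μ := (volume : Measure ℝ).restrict (Icc 0 1))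
    (κ := (volume : Measure V).restrict cube) mF hr hfin
  -- the distance of the average to c
  set A : ℝ≥0∞ := eLpNorm (fun z => Av j f z - c z) (ENNReal.ofReal r0)
    ((volume : Measure V).restrict cube) with hA
  have hAK : A ≤ K := by
    have h1 : A ≤ (∫⁻ z in cube, (∫⁻ σ in Icc (0 : ℝ) 1, F σ z) ^ r0) ^ (1 / r0) := by
      have hp0 : ENNReal.ofReal r0 ≠ 0 := by
        rw [Ne, ENNReal.ofReal_eq_zero]
        linarith
      rw [hA, eLpNorm_eq_lintegral_rpow_enorm_toReal hp0 ENNReal.ofReal_ne_top,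
        ENNReal.toReal_ofReal hr0.le]
      refine ENNReal.rpow_le_rpow ?_ (by positivity)
      apply lintegral_mono
      intro z
      refine ENNReal.rpow_le_rpow ?_ hr0.le
      have e : Av j f z - c z = ∫ σ in Icc (0 : ℝ) 1, (f (update z j σ) - c z) := by
        rw [integral_sub (intOn_line hf.cont j z) (integrable_const _), integral_const]
        simp [Av]
      rw [e]
      exact enorm_integral_le_lintegral_enorm _
    refine h1.trans (hmk.trans ?_)
    have h2 : ∫⁻ σ in Icc (0 : ℝ) 1, (∫⁻ z in cube, F σ z ^ r0) ^ (1 / r0)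
        = mixNorm j (ENNReal.ofReal 1) (ENNReal.ofReal r0) (fun x => f x - c x) := by
      rw [mixNorm_eq j one_pos]
      simp only [ENNReal.rpow_one, div_one]
      exact lintegral_congr fun σ => (sF σ).symm
    rw [h2]
    exact mixNorm_exp mfc j hr0 (ENNReal.ofReal_le_ofReal ha) le_rfl
  have h1 : ∀ σ, sliceNorm j (ENNReal.ofReal r0) (fun x => f x - Av j f x) σ
      ≤ sliceNorm j (ENNReal.ofReal r0) (fun x => f x - c x) σ + A := by
    intro σ
    have e : (fun x : V => f (update x j σ) - Av j f (update x j σ))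
        = (fun x : V => f (update x j σ) - c (update x j σ)) - fun x => Av j f x - c x := by
      funext x
      simp only [Pi.sub_apply]
      rw [ind_Av j f x σ, hi x σ]
      ring
    show eLpNorm (fun x : V => f (update x j σ) - Av j f (update x j σ)) _ _ ≤ _
    rw [e]
    exact eLpNorm_sub_le (mfc.comp (cont_upd1 j σ).measurable).aestronglyMeasurable
      ((hf.av j).cont.measurable.sub hc).aestronglyMeasurable hr1
  have h2 : mixNorm j (ENNReal.ofReal a0) (ENNReal.ofReal r0) (fun x => f x - Av j f x)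
      ≤ eLpNorm (sliceNorm j (ENNReal.ofReal r0) (fun x => f x - c x) + fun _ => A)
        (ENNReal.ofReal a0) ((volume : Measure ℝ).restrict (Icc 0 1)) := by
    unfold mixNorm
    refine eLpNorm_mono_enorm fun σ => ?_
    simp only [enorm_eq_self]
    exact h1 σ
  have h3 := eLpNorm_add_le (μ := (volume : Measure ℝ).restrict (Icc 0 1))
    (f := sliceNorm j (ENNReal.ofReal r0) (fun x => f x - c x)) (g := fun _ => A)
    mS.aestronglyMeasurable aestronglyMeasurable_const ha1
  refine h2.trans (h3.trans ?_)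
  have h4 : eLpNorm (fun _ : ℝ => A) (ENNReal.ofReal a0)
      ((volume : Measure ℝ).restrict (Icc 0 1)) = A := by
    have hp0 : ENNReal.ofReal a0 ≠ 0 := by
      rw [Ne, ENNReal.ofReal_eq_zero]
      linarith
    rw [eLpNorm_eq_lintegral_rpow_enorm_toReal hp0 ENNReal.ofReal_ne_top,
      ENNReal.toReal_ofReal ha0.le, lintegral_const, measure_univ, mul_one,
      ← ENNReal.rpow_mul, mul_one_div_cancel ha0.ne', ENNReal.rpow_one, enorm_eq_self]
  rw [h4, two_mul]
  exact add_le_add le_rfl hAK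

/-- From the mixed norm to integrals. -/
theorem mix_int {B : V → ℝ} (hB : CP B) {j : Fin 3} {a r k : ℝ} (ha : 0 < a) (hr : 0 < r)
    (hk : 0 ≤ k)
    (h : mixNorm j (ENNReal.ofReal a) (ENNReal.ofReal r) B ≤ ENNReal.ofReal k) :
    ∫ σ in Icc (0 : ℝ) 1, (∫ z in cube, |B (update z j σ)| ^ r) ^ (a / r) ≤ k ^ a := by
  have cu : Continuous fun σ : ℝ => ∫ z in cube, |B (update z j σ)| ^ r := by
    have hc : IsCompact cube := isCompact_Icc
    have h1 : Continuous (uncurry fun (σ : ℝ) (z : V) => |B (update z j σ)| ^ r) := by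
      have : Continuous fun q : ℝ × V => |B (update q.2 j q.1)| ^ r :=
        ((hB.cont.comp (cont_upd2 j)).abs).rpow_const fun x => Or.inr hr.le
      exact this
    exact continuous_parametric_integral_of_continuous h1 hc
  have n0 : ∀ σ : ℝ, 0 ≤ ∫ z in cube, |B (update z j σ)| ^ r := fun σ =>
    integral_nonneg fun z => Real.rpow_nonneg (abs_nonneg _) _
  have hs : ∀ σ, sliceNorm j (ENNReal.ofReal r) B σ ^ a
      = ENNReal.ofReal ((∫ z in cube, |B (update z j σ)| ^ r) ^ (a / r)) := by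
    intro σ
    have cz : Continuous fun z : V => |B (update z j σ)| ^ r :=
      ((hB.cont.comp (cont_upd1 j σ)).abs).rpow_const fun x => Or.inr hr.le
    rw [sliceNorm_eq j hr, ← ENNReal.rpow_mul]
    have e1 : ∫⁻ x in cube, ‖B (update x j σ)‖ₑ ^ r
        = ENNReal.ofReal (∫ z in cube, |B (update z j σ)| ^ r) := by
      rw [ofReal_integral_eq_lintegral_ofReal (integrableOn_cube cz)
        (Filter.Eventually.of_forall fun x => Real.rpow_nonneg (abs_nonneg _) _)]
      apply lintegral_congr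
      intro x
      rw [Real.enorm_eq_ofReal_abs, ENNReal.ofReal_rpow_of_nonneg (abs_nonneg _) hr.le]
    rw [e1, ENNReal.ofReal_rpow_of_nonneg (n0 σ) (by positivity)]
    congr 2
    ring
  rw [mixNorm_eq j ha] at h
  have h2 : ∫⁻ σ in Icc (0 : ℝ) 1, sliceNorm j (ENNReal.ofReal r) B σ ^ a
      ≤ ENNReal.ofReal k ^ a := by
    have h3 := ENNReal.rpow_le_rpow h ha.le
    rwa [← ENNReal.rpow_mul, one_div_mul_cancel ha.ne', ENNReal.rpow_one] at h3
  simp only [hs] at h2
  have cc : Continuous fun σ : ℝ => (∫ z in cube, |B (update z j σ)| ^ r) ^ (a / r) :=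
    cu.rpow_const fun x => Or.inr (by positivity)
  rw [ENNReal.ofReal_rpow_of_nonneg hk ha.le,
    ← ofReal_integral_eq_lintegral_ofReal cc.continuousOn.integrableOn_Icc
      (Filter.Eventually.of_forall fun x => Real.rpow_nonneg (n0 x) _)] at h2
  rwa [ENNReal.ofReal_le_ofReal_iff (by positivity)] at h2

/-- The integral over the cube of a function of one coordinate. -/
theorem int_coord {φ : ℝ → ℝ} (hφ : Continuous φ) (j : Fin 3) :
    ∫ x : V in cube, φ (x j) = ∫ s in Icc (0 : ℝ) 1, φ s := by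
  have hm : MeasurePreserving (fun x : V => x j) (Measure.pi fun _ : Fin 3 => m1) m1 :=
    measurePreserving_eval _ j
  rw [restrict_cube, ← integral_map hm.measurable.aemeasurable hφ.aestronglyMeasurable,
    hm.map_eq]
  rfl

/-- The hypothesis at a fixed time from the mixed norm, for the field with the coordinates `j`
and `2` exchanged. -/
theorem mix_of {v : V → V} (hv : ∀ i, SP (fun y => v y i)) {j : Fin 3} {a r k : ℝ} (ha : 1 ≤ a)
    (hr : 0 < r) (hk : 0 ≤ k)
    (h : mixNorm j (ENNReal.ofReal a) (ENNReal.ofReal r)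
      (fun x => v x j - Av j (fun y => v y j) x) ≤ ENNReal.ofReal k) :
    Mix a r (2 ^ (1 / r) * (1 + k)) (fun i y => pm j (v (pm j y)) i) := by
  have ha0 : 0 < a := by linarith
  set B : V → ℝ := fun x => v x j - Av j (fun y => v y j) x with hB
  have cB : CP B := (cp_of (hv j)).sub ((cp_of (hv j)).av j)
  have h1 := mix_int cB ha0 hr hk h
  set S : ℝ → ℝ := fun σ => ∫ z in cube, |B (update z j σ)| ^ r with hS
  have cu : Continuous S := by
    have hc : IsCompact cube := isCompact_Icc
    have h1 : Continuous (uncurry fun (σ : ℝ) (z : V) => |B (update z j σ)| ^ r) := by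
      have : Continuous fun q : ℝ × V => |B (update q.2 j q.1)| ^ r :=
        ((cB.cont.comp (cont_upd2 j)).abs).rpow_const fun x => Or.inr hr.le
      exact this
    exact continuous_parametric_integral_of_continuous h1 hc
  have n0 : ∀ σ : ℝ, 0 ≤ S σ := fun σ =>
    integral_nonneg fun z => Real.rpow_nonneg (abs_nonneg _) _
  have eG : Gb (fun i y => pm j (v (pm j y)) i) = fun y => |B (pm j y)| := by
    funext y
    unfold Gb bb mm Av
    simp only [pm_apply, hB]
    have e2 : sw j 2 = j := Equiv.swap_apply_right j 2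
    rw [e2]
    congr 2
    unfold Av
    congr 1
    funext s
    rw [pm_update]
  have cG : CP fun y => |B (pm j y)| := (cp_pm cB j).abs
  have eN : ∀ x, NR r (Gb (fun i y => pm j (v (pm j y)) i)) x = 1 + S (x 2) := by
    intro x
    unfold NR
    rw [eG, Hz_cube (cprp cG hr.le)]
    congr 1
    rw [hS]
    simp only
    rw [← int_pm (fun z => |B (update z j (x 2))| ^ r) j]
    simp only [pm_update]
  unfold Mix
  simp only [eN]
  rw [int_coord (φ := fun s => (1 + S s) ^ (a / r))
    ((continuous_const.add cu).rpow_const fun x => Or.inr (by positivity)) 2]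
  have cc : Continuous fun σ : ℝ => S σ ^ (a / r) := cu.rpow_const fun x => Or.inr (by positivity)
  have h2 : ∫ s in Icc (0 : ℝ) 1, (1 + S s) ^ (a / r)
      ≤ ∫ s in Icc (0 : ℝ) 1, 2 ^ (a / r) * (1 + S s ^ (a / r)) := by
    apply setIntegral_mono
      (((continuous_const.add cu).rpow_const fun x => Or.inr (by positivity)).continuousOn.integrableOn_Icc)
      ((continuous_const.mul (continuous_const.add cc)).continuousOn.integrableOn_Icc)
    intro s
    have hp : 0 < a / r := by positivity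
    have hs := n0 s
    have p1 : 0 < (2 : ℝ) ^ (a / r) := by positivity
    rcases le_total (S s) 1 with h3 | h3
    · have h4 : (1 + S s) ^ (a / r) ≤ 2 ^ (a / r) :=
        Real.rpow_le_rpow (by linarith) (by linarith) hp.le
      have h5 : 0 ≤ (2 : ℝ) ^ (a / r) * S s ^ (a / r) := by positivity
      simp only [Pi.mul_apply, Pi.add_apply]
      linarith
    · have h4 : (1 + S s) ^ (a / r) ≤ (2 * S s) ^ (a / r) :=
        Real.rpow_le_rpow (by linarith) (by linarith) hp.le
      rw [Real.mul_rpow (by norm_num) hs] at h4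
      simp only [Pi.mul_apply, Pi.add_apply]
      linarith
  refine h2.trans ?_
  rw [integral_const_mul, integral_add (by simp) cc.continuousOn.integrableOn_Icc]
  have h3 : ∫ s in Icc (0 : ℝ) 1, (1 : ℝ) = 1 := by simp
  rw [h3]
  have h4 : (2 ^ (1 / r) * (1 + k)) ^ a = 2 ^ (a / r) * (1 + k) ^ a := by
    rw [Real.mul_rpow (by positivity) (by positivity), ← Real.rpow_mul (by norm_num)]
    congr 2
    ring
  rw [h4]
  refine mul_le_mul_of_nonneg_left ?_ (by positivity)
  have h5 : (1 : ℝ) ^ a + k ^ a ≤ (1 + k) ^ a := Real.add_rpow_le_rpow_add zero_le_one hk ha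
  rw [Real.one_rpow] at h5
  linarith

end Pool.Agent.H4LA
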