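import Pool.Agent.H4LA.Main4
import Pool.Agent.H4LA.Main5
import Pool.Agent.H4LA.Mink

/-!
The criterion in mixed norms: the conditions at almost every time.
-/

set_option autoImplicit false
set_option linter.unusedVariables false

open MeasureTheory Set Function Filter Topology
open scoped ENNReal ContDiff

namespace Pool.Agent.H4LA

open H459R3.NS

variable {ν T : ℝ} {u : ℝ → V → V} {p : ℝ → V → ℝ}

theorem pick_real {x y c : ℝ} (hx : 0 ≤ x) (hx2 : x < 1 / 2) (hy : 0 ≤ y) (hc : 0 < c)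
    (h1 : 2 * x + 2 * y ≤ 1) (h2 : c + x + 2 * y < 1) :
    ∃ x0 y0 : ℝ, 0 < x0 ∧ 0 < y0 ∧ (x ≠ 0 → x0 = x) ∧ (y ≠ 0 → y0 = y) ∧ x0 < 1 / 2 ∧
      y0 < 1 / 2 ∧ 2 * x0 + 2 * y0 ≤ 1 ∧ c + x0 + 2 * y0 < 1 := by
  rcases eq_or_ne x 0 with hx0 | hx0 <;> rcases eq_or_ne y 0 with hy0 | hy0
  · subst hx0 hy0
    refine ⟨(1 - c) / 4, (1 - c) / 4, by linarith, by linarith, by simp, by simp, ?_, ?_, ?_, ?_⟩
      <;> linarith
  · subst hx0
    have : 0 < y := lt_of_le_of_ne hy (Ne.symm hy0)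
    have e1 : min ((1 - 2 * y) / 4) ((1 - c - 2 * y) / 4) ≤ (1 - 2 * y) / 4 := min_le_left _ _
    have e2 : min ((1 - 2 * y) / 4) ((1 - c - 2 * y) / 4) ≤ (1 - c - 2 * y) / 4 := min_le_right _ _
    have e3 : 0 < min ((1 - 2 * y) / 4) ((1 - c - 2 * y) / 4) :=
      lt_min (by linarith) (by linarith)
    refine ⟨_, y, e3, this, by simp, fun _ => rfl, ?_, ?_, ?_, ?_⟩ <;> linarith
  · subst hy0
    have : 0 < x := lt_of_le_of_ne hx (Ne.symm hx0)
    have e1 : min ((1 - 2 * x) / 4) ((1 - c - x) / 4) ≤ (1 - 2 * x) / 4 := min_le_left _ _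
    have e2 : min ((1 - 2 * x) / 4) ((1 - c - x) / 4) ≤ (1 - c - x) / 4 := min_le_right _ _
    have e3 : 0 < min ((1 - 2 * x) / 4) ((1 - c - x) / 4) :=
      lt_min (by linarith) (by linarith)
    refine ⟨x, _, this, e3, fun _ => rfl, by simp, ?_, ?_, ?_, ?_⟩ <;> linarith
  · have t1 : 0 < x := lt_of_le_of_ne hx (Ne.symm hx0)
    have t2 : 0 < y := lt_of_le_of_ne hy (Ne.symm hy0)
    refine ⟨x, y, t1, t2, fun _ => rfl, fun _ => rfl, ?_, ?_, ?_, ?_⟩ <;> linarith

theorem div_ofReal {a : ℝ≥0∞} (ha : a ≠ 0) {c : ℝ} (hc : 0 ≤ c) :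
    ENNReal.ofReal c / a = ENNReal.ofReal (c * a⁻¹.toReal) := by
  rw [ENNReal.ofReal_mul hc, ENNReal.ofReal_toReal (ENNReal.inv_ne_top.2 ha)]
  rfl

theorem ofReal_inv_le {a : ℝ≥0∞} (ha : a ≠ 0) {x : ℝ} (h : a⁻¹.toReal ≠ 0 → x = a⁻¹.toReal) :
    ENNReal.ofReal (1 / x) ≤ a := by
  rcases eq_or_ne a ⊤ with h1 | h1
  · rw [h1]
    exact le_top
  · have h2 : a⁻¹.toReal ≠ 0 := by
      rw [ENNReal.toReal_inv]
      exact inv_ne_zero (ENNReal.toReal_ne_zero.2 ⟨ha, h1⟩)
    rw [h h2, ENNReal.toReal_inv, one_div, inv_inv, ENNReal.ofReal_toReal h1]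

/-- The choice of finite exponents. -/
theorem pick5 {s : ℝ} {a r : ℝ≥0∞} (ha : 2 < a)
    (h : 2 / ENNReal.ofReal s + 1 / a + 2 / r < 1) :
    ∃ a0 r0 : ℝ, ENNReal.ofReal a0 ≤ a ∧ ENNReal.ofReal r0 ≤ r ∧
      (Ex a0 r0 ∧ s0 a0 r0 < s ∨ Ey a0 r0 ∧ sL a0 r0 < s) := by
  have hs : 0 < s := by
    by_contra h1
    rw [not_lt] at h1
    rw [ENNReal.ofReal_eq_zero.2 h1, ENNReal.div_zero (by norm_num)] at h
    simp at h
  have e1 : 2 / ENNReal.ofReal s = ENNReal.ofReal (2 / s) := by
    rw [ENNReal.ofReal_div_of_pos hs]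
    norm_num
  have a0 : a ≠ 0 := by
    rintro rfl
    simp at ha
  have r0 : r ≠ 0 := by
    rintro rfl
    rw [ENNReal.div_zero (by norm_num)] at h
    simp at h
  set x : ℝ := a⁻¹.toReal with hx
  set y : ℝ := r⁻¹.toReal with hy
  have x0 : 0 ≤ x := ENNReal.toReal_nonneg
  have y0 : 0 ≤ y := ENNReal.toReal_nonneg
  have e2 : 2 / a = ENNReal.ofReal (2 * x) := by
    rw [hx, ← div_ofReal a0 (by norm_num)]
    norm_num
  have e3 : 2 / r = ENNReal.ofReal (2 * y) := by
    rw [hy, ← div_ofReal r0 (by norm_num)]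
    norm_num
  have e4 : 1 / a = ENNReal.ofReal x := by
    rw [← one_mul x, hx, ← div_ofReal a0 (by norm_num)]
    norm_num
  have e5 : x < 1 / 2 := by
    have h1 : a⁻¹ < 2⁻¹ := ENNReal.inv_lt_inv.2 ha
    have h2 := (ENNReal.toReal_lt_toReal (ENNReal.inv_ne_top.2 a0) (by simp)).2 h1
    rw [← hx] at h2
    refine h2.trans_le (le_of_eq ?_)
    simp
  rw [e1, e3, e4, ← ENNReal.ofReal_add (by positivity) x0,
    ← ENNReal.ofReal_add (by positivity) (by positivity), ENNReal.ofReal_lt_one] at h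
  have h2s : 0 < 2 / s := by positivity
  rcases le_or_gt (2 * x + 2 * y) 1 with har | har
  · obtain ⟨x1, y1, q1, q2, q3, q4, q5, q6, q7, q8⟩ := pick_real x0 e5 y0 h2s har h
    have hex : Ex (1 / x1) (1 / y1) := by
      refine ⟨?_, ?_, ?_⟩
      · rw [lt_div_iff₀ q1]
        linarith
      · rw [lt_div_iff₀ q2]
        linarith
      · rw [div_div_eq_mul_div, div_div_eq_mul_div]
        linarith
    refine ⟨1 / x1, 1 / y1, ofReal_inv_le a0 q3, ofReal_inv_le r0 q4, Or.inl ⟨hex, ?_⟩⟩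
    rw [hex.s0_eq, one_div_one_div, div_div_eq_mul_div, div_one, div_lt_iff₀ (by linarith)]
    have : 2 / s < 1 - x1 - 2 * y1 := by linarith
    rwa [div_lt_iff₀ hs, mul_comm] at this
  · have q1 : 0 < x := by linarith
    have q2 : 0 < y := by linarith
    have hey : Ey (1 / x) (1 / y) := by
      refine ⟨?_, ?_, ?_, ?_⟩
      · rw [lt_div_iff₀ q1]
        linarith
      · rw [lt_div_iff₀ q2]
        linarith
      · rw [div_div_eq_mul_div, div_div_eq_mul_div]
        linarith
      · rw [one_div_one_div, div_div_eq_mul_div]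
        linarith
    refine ⟨1 / x, 1 / y, ofReal_inv_le a0 fun _ => rfl, ofReal_inv_le r0 fun _ => rfl,
      Or.inr ⟨hey, ?_⟩⟩
    have hth := hey.th_lt
    have e7 : th (1 / x) (1 / y) = x + 2 * y := by
      unfold th
      rw [one_div_one_div, div_div_eq_mul_div]
      ring
    unfold sL
    rw [e7] at hth ⊢
    rw [div_lt_iff₀ (by linarith)]
    have : 2 / s < 1 - (x + 2 * y) := by linarith
    rwa [div_lt_iff₀ hs, mul_comm] at this

/-- The criterion at almost every time, for the last component. -/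
theorem near_ae {a r s : ℝ} (ha0 : 0 < a) (hs0 : 0 < s)
    (hcrit : 0 < T → ∀ N : ℝ → ℝ, (∀ t ∈ Ioo 0 T, 1 ≤ N t) →
      IntegrableOn (fun t => N t ^ s) (Ioo 0 T) →
      (∀ t ∈ Ioo 0 T, Mix a r (N t) (fun i y => u t y i)) →
      ∃ M, ∀ t ∈ Ico 0 T, ∀ x i, |u t x i| ≤ M) {g : ℝ → ℝ} (hg : IntegrableOn (fun t => |g t| ^ s) (Ioo 0 T)) {K : ℝ}
    (hK : 1 ≤ K)
    (ho : ∀ᵐ t ∂(volume.restrict (Ioo 0 T)),
      Mix a r (K * (1 + |g t|)) (fun i y => u t y i)) :
    ∃ M, ∀ t ∈ Ico 0 T, ∀ x i, |u t x i| ≤ M := by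
  rcases le_or_gt T 0 with hT | hT
  · exact ⟨0, fun t ht => absurd (ht.1.trans_lt ht.2) (by linarith)⟩
  classical
  set N : ℝ → ℝ := fun t => if Mix a r (K * (1 + |g t|)) (fun i y => u t y i)
    then K * (1 + |g t|)
    else 1 + (∫ x in cube, NR r (Gb (fun i y => u t y i)) x ^ (a / r)) ^ (1 / a) with hN
  have I0 : ∀ t, 0 ≤ ∫ x in cube, NR r (Gb (fun i y => u t y i)) x ^ (a / r) := fun t =>
    integral_nonneg fun x => Real.rpow_nonneg (by
      have := NR_one (r := r) (G := Gb (fun i y => u t y i)) (fun x => abs_nonneg _) x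
      linarith) _
  have N1 : ∀ t ∈ Ioo 0 T, 1 ≤ N t := by
    intro t ht
    simp only [hN]
    split_ifs
    · have := abs_nonneg (g t)
      nlinarith
    · have := Real.rpow_nonneg (I0 t) (1 / a)
      linarith
  refine hcrit hT N N1 ?_ ?_
  · -- integrability
    have h1 : IntegrableOn (fun t => (K * (1 + |g t|)) ^ s) (Ioo 0 T) := by
      have hm : AEMeasurable (fun t => |g t|) (volume.restrict (Ioo 0 T)) := by
        have h2 := hg.aestronglyMeasurable.aemeasurable.pow_const (1 / s)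
        refine h2.congr (Filter.Eventually.of_forall fun t => ?_)
        simp only
        rw [← Real.rpow_mul (abs_nonneg _), mul_one_div, div_self hs0.ne', Real.rpow_one]
      have hi : IntegrableOn (fun t => K ^ s * (2 ^ s * (1 + |g t| ^ s))) (Ioo 0 T) :=
        (((integrable_const (1 : ℝ)).add hg).const_mul _).const_mul _
      refine Integrable.mono' hi
        (((aemeasurable_const.add hm).const_mul K).pow_const s).aestronglyMeasurable
        (Filter.Eventually.of_forall fun t => ?_)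
      have hn := abs_nonneg (g t)
      have hK0 : 0 ≤ K := by linarith
      rw [Real.norm_eq_abs, abs_of_nonneg (Real.rpow_nonneg (by positivity) _),
        Real.mul_rpow hK0 (by positivity)]
      refine mul_le_mul_of_nonneg_left ?_ (by positivity)
      rcases le_total |g t| 1 with h3 | h3
      · have h4 : (1 + |g t|) ^ s ≤ 2 ^ s :=
          Real.rpow_le_rpow (by linarith) (by linarith) hs0.le
        have h5 : 0 ≤ (2 : ℝ) ^ s * |g t| ^ s := by positivity
        linarith
      · have h4 : (1 + |g t|) ^ s ≤ (2 * |g t|) ^ s :=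
          Real.rpow_le_rpow (by linarith) (by linarith) hs0.le
        rw [Real.mul_rpow (by norm_num) hn] at h4
        have h5 : 0 ≤ (2 : ℝ) ^ s := by positivity
        linarith
    refine Integrable.congr h1 ?_
    filter_upwards [ho] with t ht
    simp only [hN]
    rw [if_pos ht]
  · intro t ht
    simp only [hN]
    split_ifs with h1
    · exact h1
    · unfold Mix
      have h2 := I0 t
      have h3 : ((∫ x in cube, NR r (Gb (fun i y => u t y i)) x ^ (a / r)) ^ (1 / a)) ^ a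
          = ∫ x in cube, NR r (Gb (fun i y => u t y i)) x ^ (a / r) := by
        rw [← Real.rpow_mul h2, one_div_mul_cancel ha0.ne', Real.rpow_one]
      calc ∫ x in cube, NR r (Gb (fun i y => u t y i)) x ^ (a / r) = _ := h3.symm
        _ ≤ _ := Real.rpow_le_rpow (Real.rpow_nonneg h2 _) (by linarith) ha0.le

theorem back {j : Fin 3} (h : ∃ M, ∀ t ∈ Ico 0 T, ∀ x i, |swu j u t x i| ≤ M) :
    ∃ M, ∀ t ∈ Ico 0 T, ∀ x i, |u t x i| ≤ M := by
  obtain ⟨M, hM⟩ := h
  refine ⟨M, fun t ht x i => ?_⟩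
  have := hM t ht (pm j x) (sw j i)
  rwa [swu_apply, pm_pm, sw_sw] at this

theorem abs_sub_av_le {f : V → ℝ} (hf : CP f) {j : Fin 3} {W : V → ℝ} (hW : Ind j W)
    (ho : ∀ x r, f (update x j r) - f x ≤ W x) (x : V) : |f x - Av j f x| ≤ W x := by
  have c1 : IntegrableOn (fun s : ℝ => f (update x j s)) (Icc 0 1) := intOn_line hf.cont j x
  have c0 : Integrable (fun _ : ℝ => f x) (volume.restrict (Icc (0 : ℝ) 1)) :=
    integrable_const _
  have e : f x - Av j f x = ∫ s in Icc (0 : ℝ) 1, (f x - f (update x j s)) := by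
    unfold Av
    rw [integral_sub c0 c1]
    simp
  rw [e]
  have h1 : ∀ s, |f x - f (update x j s)| ≤ W x := by
    intro s
    rw [abs_le]
    constructor
    · have := ho x s
      linarith
    · have := ho (update x j s) (x j)
      rw [update_idem, update_eq_self, hW x s] at this
      exact this
  have h2 : |∫ s in Icc (0 : ℝ) 1, (f x - f (update x j s))| ≤ ∫ s in Icc (0 : ℝ) 1, W x := by
    refine (abs_integral_le_integral_abs).trans ?_
    refine integral_mono ?_ (integrable_const _) h1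
    exact (c0.sub c1).abs
  have h3 : ∫ s in Icc (0 : ℝ) 1, W x = W x := by simp
  rwa [h3] at h2

/-- One-sided bounds of the derivative control the oscillation on the lines. -/
theorem maj_of_pd {f : V → ℝ} (hf : SP f) (j : Fin 3) {r : ℝ≥0∞} {r0 c : ℝ} (h2 : 2 < r0)
    (hr : ENNReal.ofReal r0 ≤ r)
    (h : eLpNorm (fun x => max (pd j f x) 0) r ((volume : Measure V).restrict cube)
        ≤ ENNReal.ofReal c ∨
      eLpNorm (fun x => max (-pd j f x) 0) r ((volume : Measure V).restrict cube)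
        ≤ ENNReal.ofReal c) :
    ∃ G : V → ℝ, CP G ∧ Ind j G ∧ (∀ x, 0 ≤ G x) ∧
      (∀ x r, f (update x j r) - f x ≤ G x) ∧ ∫ x in cube, G x ^ r0 ≤ |c| ^ r0 := by
  have h0 : 0 < r0 := by linarith
  have h1 : 1 ≤ r0 := by linarith
  rcases h with h | h
  · have c1 : CP fun x => max (pd j f x) 0 :=
      ⟨(hf.pd j).cont.max continuous_const, fun i x => by simp only [(hf.pd j).per i x]⟩
    have n1 : ∀ x, 0 ≤ max (pd j f x) 0 := fun x => le_max_right _ _
    refine ⟨Av j fun x => max (pd j f x) 0, c1.av j, ind_Av j _, fun x => Av_nonneg n1 j x,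
      osc_le_av hf c1 n1 fun x => le_max_left _ _, ?_⟩
    exact (int_Av_rpow_le c1 n1 h1 j).trans (int_rpow_le c1 n1 h0 hr h)
  · have c1 : CP fun x => max (-pd j f x) 0 :=
      ⟨(hf.pd j).cont.neg.max continuous_const, fun i x => by simp only [(hf.pd j).per i x]⟩
    have n1 : ∀ x, 0 ≤ max (-pd j f x) 0 := fun x => le_max_right _ _
    refine ⟨Av j fun x => max (-pd j f x) 0, c1.av j, ind_Av j _, fun x => Av_nonneg n1 j x,
      ?_, (int_Av_rpow_le c1 n1 h1 j).trans (int_rpow_le c1 n1 h0 hr h)⟩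
    intro x r
    have e1 : (fun y => -f y) = fun y => (-1) * f y := by
      funext y
      ring
    have s1 : SP (fun y => -f y) := by
      rw [e1]
      exact hf.cmulf (-1)
    have h3 := osc_le_av s1 c1 n1 (j := j) (fun y => by
      rw [e1, pd_cmulf hf]
      refine le_trans (le_of_eq ?_) (le_max_left _ _)
      ring) (update x j r) (x j)
    rw [update_idem, update_eq_self, ind_Av j _ x r] at h3
    linarith

/-- The three conditions bound the mixed norm of the oscillation. -/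
theorem mixav_of {f : V → ℝ} (hf : SP f) {j : Fin 3} {a r : ℝ≥0∞} {a0 r0 k : ℝ}
    (h2a : 2 < a0) (h2r : 2 < r0) (ha : ENNReal.ofReal a0 ≤ a) (hr : ENNReal.ofReal r0 ≤ r)
    (h : (∃ c : V → ℝ, Measurable c ∧ (∀ x σ, c (update x j σ) = c x) ∧
        mixNorm j a r (fun x => f x - c x) ≤ ENNReal.ofReal k) ∨
      eLpNorm (fun x => max (pd j f x) 0) r ((volume : Measure V).restrict cube)
        ≤ ENNReal.ofReal k ∨
      eLpNorm (fun x => max (-pd j f x) 0) r ((volume : Measure V).restrict cube)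
        ≤ ENNReal.ofReal k) :
    mixNorm j (ENNReal.ofReal a0) (ENNReal.ofReal r0) (fun x => f x - Av j f x)
      ≤ ENNReal.ofReal (2 * |k|) := by
  have hkk : ENNReal.ofReal k ≤ ENNReal.ofReal |k| := ENNReal.ofReal_le_ofReal (le_abs_self k)
  have ha0 : 0 < a0 := by linarith
  have hr0 : 0 < r0 := by linarith
  rcases h with ⟨c, mc, hi, h⟩ | h
  · have h1 := mix_av (cp_of hf) mc hi (a0 := a0) (r0 := r0) (by linarith) (by linarith)
    have h3 := mixNorm_exp (f := fun x => f x - c x) (hf.cont.measurable.sub mc) j hr0 ha hr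
    refine h1.trans ?_
    rw [ENNReal.ofReal_mul (by norm_num)]
    have e2 : ENNReal.ofReal 2 = 2 := by norm_num
    rw [e2]
    gcongr
    exact h3.trans (h.trans hkk)
  · obtain ⟨G, cG, iG, G0, hG, hGc⟩ := maj_of_pd hf j h2r hr h
    have hb := abs_sub_av_le (cp_of hf) iG hG
    have := prob_unit
    have h1 : ∀ σ, sliceNorm j (ENNReal.ofReal r0) (fun x => f x - Av j f x) σ
        ≤ ENNReal.ofReal |k| := by
      intro σ
      rw [sliceNorm_eq j hr0]
      have h2 : ∫⁻ x in cube, ‖f (update x j σ) - Av j f (update x j σ)‖ₑ ^ r0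
          ≤ ENNReal.ofReal (|k| ^ r0) := by
        calc ∫⁻ x in cube, ‖f (update x j σ) - Av j f (update x j σ)‖ₑ ^ r0
            ≤ ∫⁻ x in cube, ENNReal.ofReal (G x ^ r0) := by
              apply lintegral_mono
              intro x
              simp only
              rw [Real.enorm_eq_ofReal_abs, ENNReal.ofReal_rpow_of_nonneg (abs_nonneg _) hr0.le]
              apply ENNReal.ofReal_le_ofReal
              apply Real.rpow_le_rpow (abs_nonneg _) _ hr0.le
              have := hb (update x j σ)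
              rwa [iG x σ] at this
          _ = ENNReal.ofReal (∫ x in cube, G x ^ r0) :=
              (ofReal_integral_eq_lintegral_ofReal (cp_rpow cG hr0.le).int
                (Filter.Eventually.of_forall fun x => Real.rpow_nonneg (G0 x) _)).symm
          _ ≤ _ := ENNReal.ofReal_le_ofReal hGc
      calc _ ≤ ENNReal.ofReal (|k| ^ r0) ^ (1 / r0) := ENNReal.rpow_le_rpow h2 (by positivity)
        _ = ENNReal.ofReal |k| := by
          rw [ENNReal.ofReal_rpow_of_nonneg (by positivity) (by positivity),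
            ← Real.rpow_mul (abs_nonneg k), mul_one_div_cancel hr0.ne', Real.rpow_one]
    rw [mixNorm_eq j ha0]
    calc _ ≤ (∫⁻ σ in Icc (0 : ℝ) 1, ENNReal.ofReal |k| ^ a0) ^ (1 / a0) := by
          refine ENNReal.rpow_le_rpow ?_ (by positivity)
          apply lintegral_mono
          intro σ
          exact ENNReal.rpow_le_rpow (h1 σ) ha0.le
      _ = ENNReal.ofReal |k| := by
          rw [lintegral_const, measure_univ, mul_one, ← ENNReal.rpow_mul,
            mul_one_div_cancel ha0.ne', ENNReal.rpow_one]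
      _ ≤ _ := ENNReal.ofReal_le_ofReal (by linarith [abs_nonneg k])

theorem Mix.mono {a r N N' : ℝ} {v : Fin 3 → V → ℝ} (h : Mix a r N v) (ha : 0 ≤ a) (hN : 0 ≤ N)
    (hNN : N ≤ N') : Mix a r N' v :=
  le_trans (show ∫ x in cube, NR r (Gb v) x ^ (a / r) ≤ N ^ a from h)
    (Real.rpow_le_rpow hN hNN ha)

end Pool.Agent.H4LA
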