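import Pool.Agent.H4LA.HldL
import Pool.Agent.H4LA.Kx
import Pool.Agent.H4LA.Prg

/-!
Multiplication by functions which are integrable to a power greater than two on the slices: the
bound by the integrals of the second and fourth powers and of the gradient.
-/

set_option autoImplicit false
set_option linter.unusedVariables false

open MeasureTheory Set Function Filter Topology
open scoped ENNReal ContDiff

namespace Pool.Agent.H4LA

open H459R3.NS

/-- One step in the inequality of Gagliardo and Nirenberg on slices. -/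
theorem gn_step {f : V → ℝ} (hf : SP f) {x : V} {A B : ℝ} (hA : Hz (fun y => f y ^ 2) x ≤ A)
    (hB0 : Hz (fun y => pd 0 f y ^ 2) x ≤ B) (hB1 : Hz (fun y => pd 1 f y ^ 2) x ≤ B) (n : ℕ) :
    Hz (fun y => f y ^ (2 * (n + 1 + 1))) x
      ≤ Hz (fun y => f y ^ (2 * (n + 1))) x * (√A + (n + 2) * √B) ^ 2 := by
  have hA0 : 0 ≤ A := (Hz_nonneg (fun y => sq_nonneg _) x).trans hA
  have hB : 0 ≤ B := (Hz_nonneg (fun y => sq_nonneg _) x).trans hB0
  set I : ℝ := Hz (fun y => f y ^ (2 * (n + 1))) x with hI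
  have hI0 : 0 ≤ I := Hz_nonneg (fun y => (even_two_mul _).pow_nonneg _) x
  set F : V → ℝ := fun y => f y ^ (n + 2) with hF
  have sF : SP F := SP.powr hf _
  have cF := cp_of sF
  set R : Fin 3 → V → ℝ := fun j y => |F y| + |pd j F y| with hR
  have cR : ∀ j, CP (R j) := fun j => cF.abs.add (cp_of (sF.pd j)).abs
  have R0 : ∀ j y, 0 ≤ R j y := fun j y => add_nonneg (abs_nonneg _) (abs_nonneg _)
  have h1 : Hz (fun y => f y ^ (2 * (n + 1 + 1))) x ≤ Hz (R 1) x * Hz (R 0) x := by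
    rw [← Hz_prod (cR 1) (cR 0) x]
    apply Hz_mono ((cp_of hf).pow _) (((cR 1).av 1).mul ((cR 0).av 0))
    intro y
    have e : f y ^ (2 * (n + 1 + 1)) = |F y| * |F y| := by
      rw [abs_mul_abs_self]
      simp only [hF]
      rw [← pow_add]
      congr 1
      ring
    rw [e]
    exact mul_le_mul (abs_le_Av sF 1 y) (abs_le_Av sF 0 y) (abs_nonneg _)
      (Av_nonneg (R0 1) 1 y)
  have hsq : Hz (fun y => (f y ^ (n + 1)) ^ 2) x = I := by
    rw [hI]
    congr 1
    funext y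
    rw [← pow_mul]
    congr 1
    ring
  have h2 : ∀ j, Hz (fun y => pd j f y ^ 2) x ≤ B →
      Hz (R j) x ≤ √I * (√A + (n + 2) * √B) := by
    intro j hj
    rw [Hz_add cF.abs (cp_of (sF.pd j)).abs]
    have k1 : Hz (fun y => |F y|) x ≤ √I * √A := by
      have k := Hz_cs_abs (cp_of (SP.powr hf (n + 1))) (cp_of hf) x
      rw [hsq] at k
      have e : (fun y => |f y ^ (n + 1)| * |f y|) = fun y => |F y| := by
        funext y
        simp only [hF]
        rw [← abs_mul, ← pow_succ]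
      rw [e] at k
      exact k.trans (mul_le_mul_of_nonneg_left (Real.sqrt_le_sqrt hA) (Real.sqrt_nonneg _))
    have k2 : Hz (fun y => |pd j F y|) x ≤ (n + 2) * (√I * √B) := by
      have e : (fun y => |pd j F y|)
          = fun y => (n + 2 : ℝ) * (|f y ^ (n + 1)| * |pd j f y|) := by
        funext y
        simp only [hF]
        rw [pd_pow hf, abs_mul, abs_mul]
        push_cast
        have : |(n : ℝ) + 2| = n + 2 := abs_of_nonneg (by positivity)
        rw [this, mul_assoc]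
      rw [e, Hz_cmul]
      have k := Hz_cs_abs (cp_of (SP.powr hf (n + 1))) (cp_of (hf.pd j)) x
      rw [hsq] at k
      refine mul_le_mul_of_nonneg_left (k.trans ?_) (by positivity)
      exact mul_le_mul_of_nonneg_left (Real.sqrt_le_sqrt hj) (Real.sqrt_nonneg _)
    linarith
  set Q : ℝ := √A + (n + 2) * √B with hQ
  have hQ0 : 0 ≤ Q := by positivity
  have h3 : Hz (R 1) x * Hz (R 0) x ≤ (√I * Q) * (√I * Q) :=
    mul_le_mul (h2 1 hB1) (h2 0 hB0) (Hz_nonneg (R0 0) x) (by positivity)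
  have h4 : (√I * Q) * (√I * Q) = I * Q ^ 2 := by
    calc (√I * Q) * (√I * Q) = (√I * √I) * Q ^ 2 := by ring
      _ = I * Q ^ 2 := by rw [Real.mul_self_sqrt hI0]
  rw [← h4]
  exact h1.trans h3

/-- The higher powers in terms of the fourth power. -/
theorem gn4 {f : V → ℝ} (hf : SP f) {x : V} {A B J : ℝ} (hA : Hz (fun y => f y ^ 2) x ≤ A)
    (hB0 : Hz (fun y => pd 0 f y ^ 2) x ≤ B) (hB1 : Hz (fun y => pd 1 f y ^ 2) x ≤ B)
    (hJ : Hz (fun y => f y ^ 4) x ≤ J) (n : ℕ) :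
    Hz (fun y => f y ^ (2 * (n + 2))) x ≤ J * (√A + (n + 2) * √B) ^ (2 * n) := by
  have hA0 : 0 ≤ A := (Hz_nonneg (fun y => sq_nonneg _) x).trans hA
  have hB : 0 ≤ B := (Hz_nonneg (fun y => sq_nonneg _) x).trans hB0
  have hJ0 : 0 ≤ J := (Hz_nonneg (fun y => (by decide : Even 4).pow_nonneg _) x).trans hJ
  induction n with
  | zero => simpa using hJ
  | succ n ih =>
    have h1 := gn_step hf hA hB0 hB1 (n + 1)
    have e1 : 2 * (n + 1 + 1 + 1) = 2 * (n + 1 + 2) := by ring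
    rw [e1] at h1
    push_cast at h1 ⊢
    have s1 := Real.sqrt_nonneg B
    have hq : 0 ≤ √A + (n + 2) * √B := by positivity
    have h2 : (√A + (n + 2) * √B) ^ (2 * n) ≤ (√A + (n + 1 + 2) * √B) ^ (2 * n) := by
      refine pow_le_pow_left₀ hq ?_ _
      linarith only [s1]
    have h3 : Hz (fun y => f y ^ (2 * (n + 2))) x ≤ J * (√A + (n + 1 + 2) * √B) ^ (2 * n) :=
      ih.trans (mul_le_mul_of_nonneg_left h2 hJ0)
    have e2 : (fun y => f y ^ (2 * (n + 1 + 1))) = fun y => f y ^ (2 * (n + 2)) := by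
      funext y
      congr 1
    rw [e2] at h1
    refine h1.trans ((mul_le_mul_of_nonneg_right h3 (sq_nonneg _)).trans (le_of_eq ?_))
    rw [mul_assoc, ← pow_add]
    congr 2

/-- The exponents. -/
structure Ey (a r : ℝ) : Prop where
  ha : 2 < a
  hr : 2 < r
  har : 1 < 2 / a + 2 / r
  hs : 1 / a + 2 / r < 1

/-- The first exponent. -/
noncomputable def al (a r : ℝ) : ℝ := 2 * (1 - (1 / a + 2 / r))

/-- The second exponent. -/
noncomputable def be (a r : ℝ) : ℝ := 2 / a + 2 / r - 1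

/-- The third exponent. -/
noncomputable def gm (a : ℝ) : ℝ := 1 - 2 / a

theorem Ey.al_pos {a r : ℝ} (h : Ey a r) : 0 < al a r := by
  have := h.hs
  unfold al
  linarith

theorem Ey.be_pos {a r : ℝ} (h : Ey a r) : 0 < be a r := by
  have := h.har
  unfold be
  linarith

theorem Ey.a_pos {a r : ℝ} (h : Ey a r) : 0 < a := by linarith [h.ha]

theorem Ey.r_pos {a r : ℝ} (h : Ey a r) : 0 < r := by linarith [h.hr]

theorem Ey.gm_pos {a r : ℝ} (h : Ey a r) : 0 < gm a := by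
  have h1 := h.ha
  have h2 := h.a_pos
  unfold gm
  have : 2 / a < 1 := by rwa [div_lt_one h2]
  linarith

theorem Ey.gm_lt {a r : ℝ} (h : Ey a r) : gm a < 1 := by
  have h2 := h.a_pos
  unfold gm
  have : 0 < 2 / a := by positivity
  linarith

theorem two_div (a : ℝ) : 2 / a = 2 * (1 / a) := by ring

theorem exp_sum1 (a r : ℝ) : 2 / r + al a r + be a r = 1 := by
  unfold al be
  ring

theorem exp_sum2 (a r : ℝ) : al a r + 2 * be a r + gm a = 1 := by
  unfold al be gm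
  ring

/-- The multiplication for functions. -/
theorem mult2 {a r : ℝ} (h : Ey a r) : ∃ C : ℝ, 1 ≤ C ∧ ∀ G : V → ℝ, CP G → Ind 2 G →
    (∀ x, 0 ≤ G x) → ∀ N : ℝ, 0 ≤ N → (∫ x in cube, G x ^ r) ≤ N ^ r →
    ∀ f, SP f → ∀ x A B J, Hz (fun y => f y ^ 2) x ≤ A →
    Hz (fun y => pd 0 f y ^ 2) x ≤ B → Hz (fun y => pd 1 f y ^ 2) x ≤ B →
    Hz (fun y => f y ^ 4) x ≤ J →
    Hz (fun y => G y ^ 2 * f y ^ 2) x
      ≤ C * (N ^ 2 * (A ^ al a r * J ^ be a r * (A + B) ^ gm a)) := by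
  have hr0 := h.r_pos
  have hal := h.al_pos
  have hbe := h.be_pos
  have hga := h.gm_pos
  obtain ⟨n0, hn0⟩ := exists_nat_gt (gm a / be a r)
  rw [div_lt_iff₀ hbe] at hn0
  have hn1 : (0 : ℝ) < n0 := by
    by_contra h1
    have : (n0 : ℝ) * be a r ≤ 0 := mul_nonpos_of_nonpos_of_nonneg (not_lt.1 h1) hbe.le
    linarith
  set y4 : ℝ := gm a / n0 with hy4
  have y40 : 0 ≤ y4 := by positivity
  have y41 : y4 ≤ be a r := by
    rw [hy4, div_le_iff₀ hn1]
    linarith
  have y42 : n0 * y4 = gm a := by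
    rw [hy4]
    field_simp
  set κ : ℝ := 2 * ((n0 : ℝ) + 2) ^ 2 with hκ
  have hκ1 : 1 ≤ κ := by
    rw [hκ]
    have : (1 : ℝ) ≤ ((n0 : ℝ) + 2) ^ 2 := one_le_pow₀ (by linarith)
    linarith
  refine ⟨κ ^ gm a, Real.one_le_rpow hκ1 hga.le, ?_⟩
  intro G cG iG G0 N hN hGN f sf x A B J hA hB0 hB1 hJ
  have hA0 : 0 ≤ A := (Hz_nonneg (fun y => sq_nonneg _) x).trans hA
  have hB : 0 ≤ B := (Hz_nonneg (fun y => sq_nonneg _) x).trans hB0
  have hJ0 : 0 ≤ J := (Hz_nonneg (fun y => (by decide : Even 4).pow_nonneg _) x).trans hJ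
  set F : V → ℝ := fun z => f (update z 2 (x 2)) with hF
  have cF : CP F := (cp_of sf).frz (x 2)
  have e0 : Hz (fun y => G y ^ 2 * f y ^ 2) x = ∫ z in cube, G z ^ 2 * F z ^ 2 := by
    rw [Hz_cube ((cG.pow 2).mul ((cp_of sf).pow 2))]
    congr 1
    funext z
    simp only [hF, iG z]
  have q2 : ∫ z in cube, F z ^ 2 ≤ A := by
    rw [Hz_cube ((cp_of sf).pow 2)] at hA
    exact hA
  have q3 : ∫ z in cube, F z ^ 4 ≤ J := by
    rw [Hz_cube ((cp_of sf).pow 4)] at hJ
    exact hJ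
  have q4 : ∫ z in cube, F z ^ (2 * (n0 + 2)) ≤ J * (κ * (A + B)) ^ n0 := by
    have k1 := gn4 sf hA hB0 hB1 hJ n0
    rw [Hz_cube ((cp_of sf).pow _)] at k1
    refine k1.trans (mul_le_mul_of_nonneg_left ?_ hJ0)
    rw [pow_mul]
    refine pow_le_pow_left₀ (sq_nonneg _) ?_ _
    have s1 : √A ^ 2 = A := Real.sq_sqrt hA0
    have s2 : √B ^ 2 = B := Real.sq_sqrt hB
    have k2 : (√A + ((n0 : ℝ) + 2) * √B) ^ 2 ≤ 2 * √A ^ 2 + 2 * (((n0 : ℝ) + 2) ^ 2 * √B ^ 2) := by
      linarith only [sq_nonneg (√A - ((n0 : ℝ) + 2) * √B)]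
    rw [s1, s2] at k2
    have k3 : A ≤ ((n0 : ℝ) + 2) ^ 2 * A :=
      le_mul_of_one_le_left hA0 (one_le_pow₀ (by linarith))
    rw [hκ]
    linarith only [k2, k3]
  have hh := hold4 (f1 := fun z => G z ^ r) (f2 := fun z => F z ^ 2) (f3 := fun z => F z ^ 4)
    (f4 := fun z => F z ^ (2 * (n0 + 2))) (cG.cont.rpow_const fun x => Or.inr hr0.le)
    (cF.cont.pow 2) (cF.cont.pow 4) (cF.cont.pow _) (fun z => Real.rpow_nonneg (G0 z) _)
    (fun z => sq_nonneg _) (fun z => (by decide : Even 4).pow_nonneg _)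
    (fun z => (even_two_mul _).pow_nonneg _) (p1 := 2 / r) (p2 := al a r) (p3 := be a r - y4)
    (p4 := y4) (by positivity) hal.le (by linarith) y40 (by
      have := exp_sum1 a r
      linarith)
  have e1 : ∀ z, (G z ^ r) ^ (2 / r) * (F z ^ 2) ^ al a r * (F z ^ 4) ^ (be a r - y4)
      * (F z ^ (2 * (n0 + 2))) ^ y4 = G z ^ 2 * F z ^ 2 := by
    intro z
    have g1 : (G z ^ r) ^ (2 / r) = G z ^ 2 := by
      rw [← Real.rpow_mul (G0 z), mul_div_cancel₀ _ hr0.ne']
      exact Real.rpow_ofNat _ 2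
    have t0 : 0 ≤ F z ^ 2 := sq_nonneg _
    have g2 : F z ^ 4 = (F z ^ 2) ^ (2 : ℝ) := by
      rw [Real.rpow_ofNat, ← pow_mul]
    have g3 : F z ^ (2 * (n0 + 2)) = (F z ^ 2) ^ ((n0 : ℝ) + 2) := by
      have : ((n0 : ℝ) + 2) = ((n0 + 2 : ℕ) : ℝ) := by push_cast; ring
      rw [this, Real.rpow_natCast, ← pow_mul]
    rw [g1, g2, g3, ← Real.rpow_mul t0, ← Real.rpow_mul t0, mul_assoc, mul_assoc,
      ← Real.rpow_add_of_nonneg t0 (by
        have : 0 ≤ be a r - y4 := by linarith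
        positivity) (by positivity),
      ← Real.rpow_add_of_nonneg t0 hal.le (by
        have : 0 ≤ be a r - y4 := by linarith
        positivity)]
    have e2 : al a r + (2 * (be a r - y4) + ((n0 : ℝ) + 2) * y4) = 1 := by
      have := exp_sum2 a r
      linarith
    rw [e2, Real.rpow_one]
  simp only [e1] at hh
  rw [e0]
  refine hh.trans ?_
  have n2 : 0 ≤ ∫ z in cube, F z ^ 2 := integral_nonneg fun z => sq_nonneg _
  have n3 : 0 ≤ ∫ z in cube, F z ^ 4 :=
    integral_nonneg fun z => (by decide : Even 4).pow_nonneg _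
  have n4 : 0 ≤ ∫ z in cube, F z ^ (2 * (n0 + 2)) :=
    integral_nonneg fun z => (even_two_mul _).pow_nonneg _
  have n1 : 0 ≤ ∫ z in cube, G z ^ r := integral_nonneg fun z => Real.rpow_nonneg (G0 z) _
  have w1 : (∫ z in cube, G z ^ r) ^ (2 / r) ≤ N ^ 2 := by
    have := Real.rpow_le_rpow n1 hGN (by positivity : 0 ≤ 2 / r)
    refine this.trans (le_of_eq ?_)
    rw [← Real.rpow_mul hN, mul_div_cancel₀ _ hr0.ne']
    exact Real.rpow_ofNat _ 2
  have w2 := Real.rpow_le_rpow n2 q2 hal.le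
  have w3 := Real.rpow_le_rpow n3 q3 (by linarith : 0 ≤ be a r - y4)
  have w4 := Real.rpow_le_rpow n4 q4 y40
  have hAB : 0 ≤ A + B := by linarith
  have e4 : (J * (κ * (A + B)) ^ n0) ^ y4 = J ^ y4 * (κ ^ gm a * (A + B) ^ gm a) := by
    rw [Real.mul_rpow hJ0 (by positivity), ← Real.rpow_natCast (κ * (A + B)),
      ← Real.rpow_mul (by positivity), y42, Real.mul_rpow (by positivity) hAB]
  rw [e4] at w4
  have w12 := mul_le_mul w1 w2 (Real.rpow_nonneg n2 _) (sq_nonneg N)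
  have w123 := mul_le_mul w12 w3 (Real.rpow_nonneg n3 _)
    (mul_nonneg (sq_nonneg N) (Real.rpow_nonneg hA0 _))
  have w := mul_le_mul w123 w4 (Real.rpow_nonneg n4 _)
    (mul_nonneg (mul_nonneg (sq_nonneg N) (Real.rpow_nonneg hA0 _)) (Real.rpow_nonneg hJ0 _))
  refine w.trans (le_of_eq ?_)
  have e5 : J ^ be a r = J ^ (be a r - y4) * J ^ y4 := by
    rw [← Real.rpow_add_of_nonneg hJ0 (by linarith) y40]
    congr 1
    ring
  rw [e5]
  ring

end Pool.Agent.H4LA
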