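import Pool.Agent.H4LA.En2

/-!
Inequalities of Hoelder and Young.
-/

set_option autoImplicit false
set_option linter.unusedVariables false

open MeasureTheory Set Function Filter Topology
open scoped ENNReal ContDiff

namespace Pool.Agent.H4LA

open H459R3.NS

/-- Hoelder's inequality for four functions. -/
theorem hold4 {f1 f2 f3 f4 : V → ℝ} (c1 : Continuous f1) (c2 : Continuous f2)
    (c3 : Continuous f3) (c4 : Continuous f4) (n1 : ∀ x, 0 ≤ f1 x) (n2 : ∀ x, 0 ≤ f2 x)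
    (n3 : ∀ x, 0 ≤ f3 x) (n4 : ∀ x, 0 ≤ f4 x) {p1 p2 p3 p4 : ℝ} (h1 : 0 ≤ p1) (h2 : 0 ≤ p2)
    (h3 : 0 ≤ p3) (h4 : 0 ≤ p4) (hs : p1 + p2 + p3 + p4 = 1) :
    ∫ x in cube, f1 x ^ p1 * f2 x ^ p2 * f3 x ^ p3 * f4 x ^ p4
      ≤ (∫ x in cube, f1 x) ^ p1 * (∫ x in cube, f2 x) ^ p2 * (∫ x in cube, f3 x) ^ p3
        * (∫ x in cube, f4 x) ^ p4 := by
  have key := ENNReal.lintegral_prod_norm_pow_le (μ := (volume : Measure V).restrict cube)
    (Finset.univ : Finset (Fin 4))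
    (f := ![fun x => ENNReal.ofReal (f1 x), fun x => ENNReal.ofReal (f2 x),
      fun x => ENNReal.ofReal (f3 x), fun x => ENNReal.ofReal (f4 x)])
    (p := ![p1, p2, p3, p4])
    (by
      intro i _
      fin_cases i
      · exact c1.measurable.ennreal_ofReal.aemeasurable
      · exact c2.measurable.ennreal_ofReal.aemeasurable
      · exact c3.measurable.ennreal_ofReal.aemeasurable
      · exact c4.measurable.ennreal_ofReal.aemeasurable)
    (by simp [Fin.sum_univ_four, hs])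
    (by
      intro i _
      fin_cases i
      · exact h1
      · exact h2
      · exact h3
      · exact h4)
  simp only [Fin.prod_univ_four, Matrix.cons_val_zero, Matrix.cons_val_one, Matrix.cons_val] at key
  have i1 := integrableOn_cube c1
  have i2 := integrableOn_cube c2
  have i3 := integrableOn_cube c3
  have i4 := integrableOn_cube c4
  have e : ∀ {f : V → ℝ}, Continuous f → (∀ x, 0 ≤ f x) →
      ∫⁻ x in cube, ENNReal.ofReal (f x) = ENNReal.ofReal (∫ x in cube, f x) := by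
    intro f hf h0
    exact (ofReal_integral_eq_lintegral_ofReal (integrableOn_cube hf)
      (Filter.Eventually.of_forall h0)).symm
  have cc : Continuous fun x => f1 x ^ p1 * f2 x ^ p2 * f3 x ^ p3 * f4 x ^ p4 :=
    (((c1.rpow_const fun x => Or.inr h1).mul (c2.rpow_const fun x => Or.inr h2)).mul
      (c3.rpow_const fun x => Or.inr h3)).mul (c4.rpow_const fun x => Or.inr h4)
  have nn : ∀ x, 0 ≤ f1 x ^ p1 * f2 x ^ p2 * f3 x ^ p3 * f4 x ^ p4 := fun x =>
    mul_nonneg (mul_nonneg (mul_nonneg (Real.rpow_nonneg (n1 x) _) (Real.rpow_nonneg (n2 x) _))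
      (Real.rpow_nonneg (n3 x) _)) (Real.rpow_nonneg (n4 x) _)
  rw [e c1 n1, e c2 n2, e c3 n3, e c4 n4] at key
  have I1 : 0 ≤ ∫ x in cube, f1 x := integral_nonneg n1
  have I2 : 0 ≤ ∫ x in cube, f2 x := integral_nonneg n2
  have I3 : 0 ≤ ∫ x in cube, f3 x := integral_nonneg n3
  have I4 : 0 ≤ ∫ x in cube, f4 x := integral_nonneg n4
  have e5 : ∫⁻ x in cube, ENNReal.ofReal (f1 x) ^ p1 * ENNReal.ofReal (f2 x) ^ p2
      * ENNReal.ofReal (f3 x) ^ p3 * ENNReal.ofReal (f4 x) ^ p4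
      = ENNReal.ofReal (∫ x in cube, f1 x ^ p1 * f2 x ^ p2 * f3 x ^ p3 * f4 x ^ p4) := by
    rw [← e cc nn]
    apply lintegral_congr
    intro x
    rw [ENNReal.ofReal_rpow_of_nonneg (n1 x) h1, ENNReal.ofReal_rpow_of_nonneg (n2 x) h2,
      ENNReal.ofReal_rpow_of_nonneg (n3 x) h3, ENNReal.ofReal_rpow_of_nonneg (n4 x) h4,
      ← ENNReal.ofReal_mul (Real.rpow_nonneg (n1 x) _),
      ← ENNReal.ofReal_mul (mul_nonneg (Real.rpow_nonneg (n1 x) _) (Real.rpow_nonneg (n2 x) _)),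
      ← ENNReal.ofReal_mul (mul_nonneg (mul_nonneg (Real.rpow_nonneg (n1 x) _)
        (Real.rpow_nonneg (n2 x) _)) (Real.rpow_nonneg (n3 x) _))]
  rw [e5, ENNReal.ofReal_rpow_of_nonneg I1 h1, ENNReal.ofReal_rpow_of_nonneg I2 h2,
    ENNReal.ofReal_rpow_of_nonneg I3 h3, ENNReal.ofReal_rpow_of_nonneg I4 h4,
    ← ENNReal.ofReal_mul (by positivity), ← ENNReal.ofReal_mul (by positivity),
    ← ENNReal.ofReal_mul (by positivity), ENNReal.ofReal_le_ofReal_iff (by positivity)] at key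
  exact key

/-- The inequality of Cauchy and Schwarz. -/
theorem cs_cube {f g : V → ℝ} (cf : Continuous f) (cg : Continuous g) (f0 : ∀ x, 0 ≤ f x)
    (g0 : ∀ x, 0 ≤ g x) : ∫ x in cube, √(f x) * √(g x) ≤ √(∫ x in cube, f x) * √(∫ x in cube, g x) := by
  have h := hold4 cf cg (continuous_const (y := (1 : ℝ))) (continuous_const (y := (1 : ℝ))) f0 g0
    (fun _ => zero_le_one) (fun _ => zero_le_one) (p1 := 1 / 2) (p2 := 1 / 2) (p3 := 0) (p4 := 0)
    (by norm_num) (by norm_num) le_rfl le_rfl (by norm_num)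
  simp only [Real.rpow_zero, mul_one] at h
  simpa only [Real.sqrt_eq_rpow] using h

/-- The normalised inequality of Young. -/
theorem ny {A B A0 B0 γ : ℝ} (hA : 0 ≤ A) (hB : 0 ≤ B) (hA0 : 0 < A0) (hB0 : 0 < B0)
    (h0 : 0 ≤ γ) (h1 : γ ≤ 1) :
    A ^ (1 - γ) * B ^ γ ≤ A0 ^ (1 - γ) * B0 ^ γ * (A / A0 + B / B0) := by
  have hw : (1 - γ) + γ = 1 := by ring
  have k1 := Real.geom_mean_le_arith_mean2_weighted (w₁ := 1 - γ) (w₂ := γ)
    (p₁ := A / A0) (p₂ := B / B0) (by linarith) h0 (by positivity) (by positivity) hw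
  have k2 : (1 - γ) * (A / A0) + γ * (B / B0) ≤ A / A0 + B / B0 := by
    have a1 : (1 - γ) * (A / A0) ≤ 1 * (A / A0) :=
      mul_le_mul_of_nonneg_right (by linarith) (by positivity)
    have a2 : γ * (B / B0) ≤ 1 * (B / B0) := mul_le_mul_of_nonneg_right h1 (by positivity)
    linarith
  have k3 := mul_le_mul_of_nonneg_left (k1.trans k2)
    (by positivity : 0 ≤ A0 ^ (1 - γ) * B0 ^ γ)
  refine le_trans (le_of_eq ?_) k3
  rw [Real.div_rpow hA hA0.le, Real.div_rpow hB hB0.le]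
  have e1 : A0 ^ (1 - γ) ≠ 0 := (Real.rpow_pos_of_pos hA0 _).ne'
  have e2 : B0 ^ γ ≠ 0 := (Real.rpow_pos_of_pos hB0 _).ne'
  field_simp

/-- Young's inequality with a small factor. -/
theorem yngp {A B δ p : ℝ} (hA : 0 ≤ A) (hB : 0 ≤ B) (hδ : 0 < δ) (h0 : 0 < p) (h1 : p < 1) :
    A ^ (1 - p) * B ^ p ≤ δ * B + δ ^ (-(p / (1 - p))) * A := by
  have h1p : 0 < 1 - p := by linarith
  have hw : (1 - p) + p = 1 := by ring
  have k1 := Real.geom_mean_le_arith_mean2_weighted (w₁ := 1 - p) (w₂ := p)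
    (p₁ := δ ^ (-(p / (1 - p))) * A) (p₂ := δ * B) (by linarith) h0.le (by positivity)
    (by positivity) hw
  have e1 : (δ ^ (-(p / (1 - p))) * A) ^ (1 - p) * (δ * B) ^ p = A ^ (1 - p) * B ^ p := by
    rw [Real.mul_rpow (by positivity) hA, Real.mul_rpow hδ.le hB, ← Real.rpow_mul hδ.le]
    have e2 : -(p / (1 - p)) * (1 - p) = -p := by field_simp
    rw [e2, Real.rpow_neg hδ.le]
    have e3 : δ ^ p ≠ 0 := (Real.rpow_pos_of_pos hδ _).ne'
    field_simp
  rw [e1] at k1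
  have a1 : (1 - p) * (δ ^ (-(p / (1 - p))) * A) ≤ 1 * (δ ^ (-(p / (1 - p))) * A) :=
    mul_le_mul_of_nonneg_right (by linarith) (by positivity)
  have a2 : p * (δ * B) ≤ 1 * (δ * B) := mul_le_mul_of_nonneg_right h1.le (by positivity)
  linarith

end Pool.Agent.H4LA
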