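import Pool.Agent.H4LA.En2

/-!
The inequality for the powers of the slice energies, with a bound of the rest of the vertical
component by a function of the horizontal coordinates.
-/

set_option autoImplicit false
set_option linter.unusedVariables false

open MeasureTheory Set Function Filter Topology
open scoped ENNReal ContDiff

namespace Pool.Agent.H4LA

open H459R3.NS

/-- The rest of the vertical component. -/
noncomputable def Gb (v : Fin 3 → V → ℝ) : V → ℝ := fun x => |bb v x|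

theorem Gb_cp {v : Fin 3 → V → ℝ} (hv : ∀ i, SP (v i)) : CP (Gb v) := (cp_of (bb_sp hv)).abs

theorem Gb_nonneg (v : Fin 3 → V → ℝ) (x : V) : 0 ≤ Gb v x := abs_nonneg _

/-- The pointwise absorption. -/
theorem pt_G {ν μ e d D H P r a K δ k : ℝ} (hν : 0 < ν) (hr : 0 ≤ r) (ha : 0 ≤ a)
    (he : 0 ≤ e) (hd : 0 ≤ d)
    (hH : H ^ 2 ≤ 3 / 4 * (K * (δ * (e + d) + k * e) * e)
      + 9 / 4 * (μ * (e + 2 * (√e * √d)) * e) + 3 * P ^ 2) :
    -(ν * (a * e * d)) - ν / 2 * (r * (a * D ^ 2)) + r * (a * (|D| * H))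
      ≤ (3 / 4 * (r / ν * (K * δ)) - 3 / 4 * ν) * (a * e * d) - ν / 4 * (r * (a * D ^ 2))
        + r / ν * (3 / 4 * (K * (δ + k)) + 9 / 4 * μ) * (a * e ^ 2)
        + 21 * r ^ 2 / ν ^ 3 * μ ^ 2 * (a * e ^ 2) + 3 * (r / ν) * (a * P ^ 2) := by
  set s := √e with hs
  set t := √d with ht
  have es : s ^ 2 = e := Real.sq_sqrt he
  have et : t ^ 2 = d := Real.sq_sqrt hd
  have h1 : r * (|D| * H) ≤ ν / 4 * (r * D ^ 2) + r / ν * H ^ 2 := by
    have h := mul_le_mul_of_nonneg_left (yng (ν := ν / 4) (by positivity) 1 H |D|) hr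
    rw [sq_abs] at h
    have e1 : r * (ν / 4 * D ^ 2 + 1 ^ 2 / (4 * (ν / 4)) * H ^ 2)
        = ν / 4 * (r * D ^ 2) + r / ν * H ^ 2 := by
      field_simp
    rw [e1] at h
    linarith
  have h2 := mul_le_mul_of_nonneg_left hH (by positivity : 0 ≤ r / ν)
  have h3 := yng (ν := ν / 4) (by positivity) (9 * r * μ / (2 * ν)) s t
  rw [es, et] at h3
  have h4 := mul_le_mul_of_nonneg_left h3 he
  have e2 : r / ν * (3 / 4 * (K * (δ * (e + d) + k * e) * e)
      + 9 / 4 * (μ * (e + 2 * (s * t)) * e) + 3 * P ^ 2)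
      = 3 / 4 * (r / ν * (K * δ)) * (e * d)
        + r / ν * (3 / 4 * (K * (δ + k)) + 9 / 4 * μ) * e ^ 2
        + 3 * (r / ν) * P ^ 2 + e * (9 * r * μ / (2 * ν) * (s * t)) := by
    field_simp
    ring
  rw [e2] at h2
  have h5 : e * ((9 * r * μ / (2 * ν)) ^ 2 / (4 * (ν / 4)) * e)
      ≤ 21 * r ^ 2 / ν ^ 3 * (μ ^ 2 * e ^ 2) := by
    have e3 : 21 * r ^ 2 / ν ^ 3 * (μ ^ 2 * e ^ 2)
        - e * ((9 * r * μ / (2 * ν)) ^ 2 / (4 * (ν / 4)) * e)
        = 3 / 4 * (r ^ 2 / ν ^ 3 * (μ ^ 2 * e ^ 2)) := by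
      field_simp
      ring
    have : 0 ≤ 3 / 4 * (r ^ 2 / ν ^ 3 * (μ ^ 2 * e ^ 2)) := by positivity
    linarith
  have h6 : -(ν * (e * d)) - ν / 2 * (r * D ^ 2) + r * (|D| * H)
      ≤ (3 / 4 * (r / ν * (K * δ)) - 3 / 4 * ν) * (e * d) - ν / 4 * (r * D ^ 2)
        + r / ν * (3 / 4 * (K * (δ + k)) + 9 / 4 * μ) * e ^ 2
        + 21 * r ^ 2 / ν ^ 3 * (μ ^ 2 * e ^ 2) + 3 * (r / ν) * P ^ 2 := by
    linarith
  have h7 := mul_le_mul_of_nonneg_left h6 ha
  linarith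

section field

variable {v : Fin 3 → V → ℝ} (hv : ∀ i, SP (v i)) (hdiv : ∀ x, ∑ i, pd i (v i) x = 0)

include hv in
/-- The sources with the factor `G`. -/
theorem src_G {G : V → ℝ} (cG : CP G) (iG : Ind 2 G) (G0 : ∀ x, 0 ≤ G x) {K δ k : ℝ}
    (hm1 : ∀ x, Hz (fun y => G y ^ 2 * vsq (ww v) y) x
      ≤ K * (δ * (Hz (vsq (ww v)) x + Hz (ga (ww v)) x) + k * Hz (vsq (ww v)) x))
    (hm2 : ∀ x, Hz (fun y => G y ^ 2 * vsq v y) x
      ≤ K * (δ * (Hz (vsq v) x + Hz (ga v) x) + k * Hz (vsq v) x)) (x : V) :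
    Hz (fun y => G y * |rr v 2 y|) x
      ≤ 1 / 2 * (K * (δ * (Hz (vsq (ww v)) x + Hz (ga (ww v)) x) + k * Hz (vsq (ww v)) x))
        + hsq v + (1 / 2 * (K * (δ * (esq v + ysq v) + k * esq v)) + 1 / 2 * ysq v) := by
  have hw := ww_sp hv
  have sm := mm_sp hv
  have sc : SP (conv v 2) := sp_conv hv 2
  have cA : CP (Av 2 (conv v 2)) := (cp_of sc).av 2
  have cv : CP (vsq v) := cp_of (vsq_sp hv)
  have cg : CP (ga v) := cp_of (ga_sp hv)
  have cW : CP (vsq (ww v)) := cp_of (vsq_sp hw)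
  have cGA : CP (fun y => G y * |Av 2 (conv v 2) y|) := cG.mul cA.abs
  -- the average
  have h1 : Hz (fun y => G y * |Av 2 (conv v 2) y|) x
      ≤ 1 / 2 * (K * (δ * (esq v + ysq v) + k * esq v)) + 1 / 2 * ysq v := by
    rw [Hz_ind2 cGA (fun x s => by simp only [ind_Av 2 _ x s, iG x s])]
    have k1 : ∫ x in cube, G x * |Av 2 (conv v 2) x| ≤ ∫ x in cube, G x * |conv v 2 x| := by
      rw [← int_mul_Av (cp_of sc).abs cG iG]
      refine integral_mono cGA.int (cG.mul ((cp_of sc).abs.av 2)).int fun y => ?_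
      exact mul_le_mul_of_nonneg_left (abs_Av_le 2 y) (G0 y)
    refine k1.trans ?_
    have cGv : CP (fun y => G y ^ 2 * vsq v y) := (cG.pow 2).mul cv
    have k2 : ∫ x in cube, G x * |conv v 2 x|
        ≤ ∫ x in cube, (1 / 2 * (G x ^ 2 * vsq v x) + 1 / 2 * ga v x) := by
      refine integral_mono (cG.mul (cp_of sc).abs).int ((cGv.cmul _).add (cg.cmul _)).int fun y => ?_
      have l1 : |conv v 2 y| ≤ √(vsq v y) * √(ga v y) := by
        rw [← Real.sqrt_mul (vsq_nonneg v y)]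
        apply Real.abs_le_sqrt
        unfold conv
        refine (Finset.sum_mul_sq_le_sq_mul_sq _ _ _).trans ?_
        refine mul_le_mul_of_nonneg_left ?_ (vsq_nonneg v y)
        exact Finset.single_le_sum (f := fun i => ∑ k, pd k (v i) y ^ 2)
          (fun i _ => Finset.sum_nonneg fun k _ => sq_nonneg _) (Finset.mem_univ 2)
      have l2 := mul_le_mul_of_nonneg_left l1 (G0 y)
      have s1 : √(vsq v y) ^ 2 = vsq v y := Real.sq_sqrt (vsq_nonneg v y)
      have s2 : √(ga v y) ^ 2 = ga v y := Real.sq_sqrt (ga_nonneg y)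
      simp only
      nlinarith [sq_nonneg (G y * √(vsq v y) - √(ga v y))]
    have k3 : ∫ x in cube, G x ^ 2 * vsq v x ≤ K * (δ * (esq v + ysq v) + k * esq v) := by
      rw [← int_Hz cGv]
      have l1 : ∫ x in cube, Hz (fun y => G y ^ 2 * vsq v y) x
          ≤ ∫ x in cube, K * (δ * (Hz (vsq v) x + Hz (ga v) x) + k * Hz (vsq v) x) :=
        integral_mono cGv.hz.int ((((cv.hz.add cg.hz).cmul δ).add (cv.hz.cmul k)).cmul K).int hm2
      have eE : ∫ x in cube, Hz (vsq v) x = esq v := by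
        rw [int_Hz cv]
        unfold vsq esq
        rw [integral_finsetSum _ fun i _ => (SP.sqr (hv i)).int]
      rw [integral_const_mul, integral_add ((cv.hz.add cg.hz).cmul δ).int (cv.hz.cmul k).int,
        integral_const_mul, integral_const_mul, integral_add cv.hz.int cg.hz.int, eE,
        int_Hz cg, int_ga hv] at l1
      exact l1
    rw [integral_add (cGv.cmul _).int (cg.cmul _).int, integral_const_mul, integral_const_mul,
      int_ga hv] at k2
    linarith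
  -- the other terms
  have c0 : CP (fun y => 1 / 2 * (G y ^ 2 * vsq (ww v) y)) := ((cG.pow 2).mul cW).cmul _
  have q0 : CP (fun y => 1 / 2 * pd 0 (mm v) y ^ 2) := ((cp_of (sm.pd 0)).pow 2).cmul _
  have q1 : CP (fun y => 1 / 2 * pd 1 (mm v) y ^ 2) := ((cp_of (sm.pd 1)).pow 2).cmul _
  have h3 : Hz (fun y => G y * |rr v 2 y|) x ≤ Hz (fun y => G y * |Av 2 (conv v 2) y|
      + (1 / 2 * (G y ^ 2 * vsq (ww v) y) + (1 / 2 * pd 0 (mm v) y ^ 2
        + 1 / 2 * pd 1 (mm v) y ^ 2))) x := by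
    apply Hz_mono (cG.mul (cp_of (rr_sp hv 2)).abs) (cGA.add (c0.add (q0.add q1)))
    intro y
    have l1 : |rr v 2 y| ≤ |Av 2 (conv v 2) y| + (|v 0 y| * |pd 0 (mm v) y|
        + |v 1 y| * |pd 1 (mm v) y|) := by
      show |Av 2 (conv v 2) y - ∑ j, v j y * pd j (mm v) y| ≤ _
      rw [Fin.sum_univ_three, pd2_mm hv, mul_zero, add_zero, ← abs_mul, ← abs_mul]
      refine (abs_sub _ _).trans ?_
      exact add_le_add le_rfl (abs_add_le _ _)
    have l2 := mul_le_mul_of_nonneg_left l1 (G0 y)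
    have l3 : vsq (ww v) y = |v 0 y| ^ 2 + |v 1 y| ^ 2 + bb v y ^ 2 := by
      unfold vsq
      rw [Fin.sum_univ_three, sq_abs, sq_abs]
      rfl
    have l4 : ∀ a b : ℝ, G y * (a * b) ≤ 1 / 2 * (G y ^ 2 * a ^ 2) + 1 / 2 * b ^ 2 := by
      intro a b
      nlinarith [sq_nonneg (G y * a - b)]
    have l5 := l4 |v 0 y| |pd 0 (mm v) y|
    have l6 := l4 |v 1 y| |pd 1 (mm v) y|
    rw [sq_abs (pd 0 (mm v) y)] at l5
    rw [sq_abs (pd 1 (mm v) y)] at l6
    have l7 : 0 ≤ G y ^ 2 * bb v y ^ 2 := by positivity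
    rw [l3]
    nlinarith
  rw [Hz_add cGA (c0.add (q0.add q1)), Hz_add c0 (q0.add q1), Hz_add q0 q1, Hz_cmul, Hz_cmul,
    Hz_cmul] at h3
  have h4 := hm1 x
  have h5 := Hz_pd_mm_le hv mem0 x
  have h6 := Hz_pd_mm_le hv mem1 x
  linarith

end field

end Pool.Agent.H4LA
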