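import Pool.Agent.H4LA.Ing
import Pool.Agent.H4LA.Kx

/-!
The inequality for the powers of the slice energies, with a majorant of the rest of the vertical
component which depends on all the coordinates.
-/

set_option autoImplicit false
set_option linter.unusedVariables false

open MeasureTheory Set Function Filter Topology
open scoped ENNReal ContDiff

namespace Pool.Agent.H4LA

open H459R3.NS

section field

variable {v : Fin 3 → V → ℝ} (hv : ∀ i, SP (v i)) (hdiv : ∀ x, ∑ i, pd i (v i) x = 0)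

include hv hdiv in
/-- The inequality for the integral of a power of the slice energy. -/
theorem slice_K {ν : ℝ} (hν : 0 < ν) {p : V → ℝ} (hp : SP p) {F : Fin 3 → V → ℝ}
    (hF : ∀ i x, F i x = ν * lap (v i) x - conv v i x - pd i p x) {G : V → ℝ}
    (cG : CP G) (G0 : ∀ x, 0 ≤ G x) (hg : ∀ x, |bb v x| ≤ G x)
    {m : ℕ} (hm : 2 ≤ m) {μ : ℝ}
    (hμ : esq v + 2 * (√(esq v) * √(hsq v)) ≤ μ) {K δ : ℝ} {k : V → ℝ} (ck : CP k)
    (hK : 0 ≤ K) (hδ : 0 ≤ δ) (k0 : ∀ x, 0 ≤ k x)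
    (hm1 : ∀ x z, Hz (fun y => fz G x y ^ 2 * vsq (ww v) y) z
      ≤ K * (δ * (Hz (vsq (ww v)) z + Hz (ga (ww v)) z) + k x * Hz (vsq (ww v)) z))
    (hm2 : ∀ x z, Hz (fun y => fz G x y ^ 2 * vsq v y) z
      ≤ K * (δ * (Hz (vsq v) z + Hz (ga v) z) + k x * Hz (vsq v) z)) :
    ∫ x in cube, Hz (vsq (ww v)) x ^ (2 * m - 1) * ∑ i, ww v i x * sb F i x
      ≤ (3 / 4 * ((2 * m - 1) / ν * (K * δ)) + 1 / 2 * (K * δ) - 3 / 4 * ν)
          * (∫ x in cube, Hz (vsq (ww v)) x ^ (2 * m - 1) * Hz (ga (ww v)) x)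
        - ν / 4 * ((2 * m - 1)
          * ∫ x in cube, Hz (vsq (ww v)) x ^ (2 * m - 2) * pd 2 (Hz (vsq (ww v))) x ^ 2)
        + ((2 * m - 1) / ν * (3 / 4 * (K * δ) + 9 / 4 * μ)
            + 21 * (2 * m - 1) ^ 2 / ν ^ 3 * μ ^ 2 + 1 / 2 * (K * δ))
          * (∫ x in cube, Hz (vsq (ww v)) x ^ (2 * m))
        + 3 * ((2 * m - 1) / ν) * (∫ x in cube, Hz (vsq (ww v)) x ^ (2 * m - 2)
            * Hz (fun y => G y * |p y|) x ^ 2)
        + (hsq v + (1 / 2 * (K * (δ * (esq v + ysq v))) + 1 / 2 * ysq v))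
          * (1 + ∫ x in cube, Hz (vsq (ww v)) x ^ (2 * m))
        + ((2 * m - 1) / ν * (3 / 4 * K) + 1 / 2 * K + 1 / 2 * (K * esq v))
          * ∫ x in cube, k x * (1 + Hz (vsq (ww v)) x ^ (2 * m)) := by
  have hw := ww_sp hv
  have sW : SP (vsq (ww v)) := vsq_sp hw
  have cW := cp_of sW
  have sga : SP (ga (ww v)) := ga_sp hw
  have cga := cp_of sga
  set e : V → ℝ := Hz (vsq (ww v)) with he
  have se : SP e := hz_sp sW
  have ce : CP e := cp_of se
  have ie : I01 e := i01_hz _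
  have e0 : ∀ x, 0 ≤ e x := Hz_nonneg (vsq_nonneg _)
  set d : V → ℝ := Hz (ga (ww v)) with hd
  have cd : CP d := cga.hz
  have d0 : ∀ x, 0 ≤ d x := Hz_nonneg ga_nonneg
  have sm := mm_sp hv
  have sb' := bb_sp hv
  have hμ0 : 0 ≤ μ := by
    have := esq_nonneg v
    have : 0 ≤ esq v + 2 * (√(esq v) * √(hsq v)) := by positivity
    linarith
  set r : ℝ := 2 * (m : ℝ) - 1 with hr
  have hr0 : 0 ≤ r := by
    have : (2 : ℝ) ≤ m := by exact_mod_cast hm
    linarith
  have hrq : ((2 * m - 1 : ℕ) : ℝ) = r := by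
    rw [Nat.cast_sub (by omega)]
    push_cast
    rfl
  set Ψ : V → ℝ := fun y => e y ^ (2 * m - 1) with hΨ
  have sΨ : SP Ψ := SP.powr se (2 * m - 1)
  have cΨ : CP Ψ := cp_of sΨ
  have iΨ : I01 Ψ := ie.powr _
  have Ψ0 : ∀ x, 0 ≤ Ψ x := fun x => pow_nonneg (e0 x) _
  have hid := slice_ident hv hw hdiv (ww_div hv hdiv) hp sΨ iΨ (rr_sp hv) (w' := sb F)
    (fun i x => sb_eq hv hp hF i x)
  have dΨ : ∀ x, pd 2 Ψ x = r * (e x ^ (2 * m - 2) * pd 2 e x) := by
    intro x
    simp only [hΨ]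
    rw [pd_pow se, hrq, Nat.sub_sub]
    ring
  have iaΨ : I01 (pd 2 Ψ) := I01.pd2 sΨ iΨ
  -- the first terms
  have t1 : ∫ x in cube, Ψ x * ga (ww v) x = ∫ x in cube, Ψ x * d x :=
    (int_mul_Hz cga cΨ iΨ).symm
  have t2 : ∫ x in cube, pd 2 Ψ x * pd 2 (vsq (ww v)) x = ∫ x in cube, pd 2 Ψ x * pd 2 e x := by
    rw [he, pd2_hz sW]
    exact (int_mul_Hz (cp_of (sW.pd 2)) (cp_of (sΨ.pd 2)) iaΨ).symm
  have cV : CP (fun y => |v 2 y| * vsq (ww v) y) := (cp_of (hv 2)).abs.mul cW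
  have cB : CP (fun y => G y * |p y|) := cG.mul (cp_of hp).abs
  have cM : CP (fun y => |mm v y| * vsq (ww v) y) := (cp_of sm).abs.mul cW
  have cGW : CP (fun y => G y * vsq (ww v) y) := cG.mul cW
  set H : V → ℝ := fun x => 1 / 2 * Hz (fun y => |v 2 y| * vsq (ww v) y) x
    + Hz (fun y => G y * |p y|) x with hH
  have cH : CP H := (cV.hz.cmul _).add cB.hz
  have t3 : 1 / 2 * (∫ x in cube, pd 2 Ψ x * (v 2 x * vsq (ww v) x))
      + (∫ x in cube, pd 2 Ψ x * (ww v 2 x * p x)) ≤ ∫ x in cube, |pd 2 Ψ x| * H x := by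
    have k0 : ∫ x in cube, |pd 2 Ψ x| * H x
        = 1 / 2 * (∫ x in cube, |pd 2 Ψ x| * (|v 2 x| * vsq (ww v) x))
          + ∫ x in cube, |pd 2 Ψ x| * (G x * |p x|) := by
      rw [← int_mul_Hz cV (cp_of (sΨ.pd 2)).abs iaΨ.abs,
        ← int_mul_Hz cB (cp_of (sΨ.pd 2)).abs iaΨ.abs, ← integral_const_mul,
        ← integral_add ((((cp_of (sΨ.pd 2)).abs.mul cV.hz).cmul _).int)
          ((cp_of (sΨ.pd 2)).abs.mul cB.hz).int]
      congr 1
      funext x
      simp only [hH]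
      ring
    rw [k0]
    have k1 : ∫ x in cube, pd 2 Ψ x * (v 2 x * vsq (ww v) x)
        ≤ ∫ x in cube, |pd 2 Ψ x| * (|v 2 x| * vsq (ww v) x) := by
      refine integral_mono ((sΨ.pd 2).mul ((hv 2).mul sW)).int
        ((cp_of (sΨ.pd 2)).abs.mul cV).int fun x => ?_
      refine (le_abs_self _).trans (le_of_eq ?_)
      rw [abs_mul, abs_mul, abs_of_nonneg (vsq_nonneg (ww v) x)]
    have k2 : ∫ x in cube, pd 2 Ψ x * (ww v 2 x * p x)
        ≤ ∫ x in cube, |pd 2 Ψ x| * (G x * |p x|) := by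
      refine integral_mono ((sΨ.pd 2).mul ((hw 2).mul hp)).int
        ((cp_of (sΨ.pd 2)).abs.mul cB).int fun x => ?_
      refine (le_abs_self _).trans ?_
      rw [abs_mul, abs_mul]
      refine mul_le_mul_of_nonneg_left ?_ (abs_nonneg _)
      exact mul_le_mul_of_nonneg_right (hg x) (abs_nonneg _)
    linarith
  have hfin := cube_finite
  have c1' : ∫ x in cube, (1 : ℝ) = 1 := by
    rw [setIntegral_const, Measure.real, volume_cube]
    simp
  set S0 : ℝ := hsq v + (1 / 2 * (K * (δ * (esq v + ysq v))) + 1 / 2 * ysq v) with hS0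
  have hE0' := esq_nonneg v
  have hS00 : 0 ≤ S0 := by
    have := ysq_nonneg v
    have := hsq_nonneg v
    positivity
  have cKI : CP (fun x => k x * (1 + e x ^ (2 * m))) := ck.mul ((CP.const 1).add (ce.pow _))
  have KI0 : ∀ x, 0 ≤ k x * (1 + e x ^ (2 * m)) := fun x =>
    mul_nonneg (k0 x) (by have := pow_nonneg (e0 x) (2 * m); linarith)
  have t5 : ∫ x in cube, Ψ x * ∑ i, ww v i x * rr v i x
      ≤ 1 / 2 * (K * δ) * (∫ x in cube, Ψ x * d x)
        + 1 / 2 * (K * δ) * (∫ x in cube, e x ^ (2 * m))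
        + S0 * (1 + ∫ x in cube, e x ^ (2 * m))
        + (1 / 2 * K + 1 / 2 * (K * esq v)) * ∫ x in cube, k x * (1 + e x ^ (2 * m)) := by
    have k0' : ∀ x, ∑ i, ww v i x * rr v i x = bb v x * rr v 2 x := by
      intro x
      rw [Fin.sum_univ_three]
      show v 0 x * 0 + v 1 x * 0 + bb v x * rr v 2 x = _
      ring
    simp_rw [k0']
    have cR : CP (fun y => G y * |rr v 2 y|) := cG.mul (cp_of (rr_sp hv 2)).abs
    have k1 : ∫ x in cube, Ψ x * (bb v x * rr v 2 x) ≤ ∫ x in cube, Ψ x * (G x * |rr v 2 x|) := by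
      refine integral_mono (sΨ.mul (sb'.mul (rr_sp hv 2))).int (cΨ.mul cR).int fun x => ?_
      refine mul_le_mul_of_nonneg_left ?_ (Ψ0 x)
      refine (le_abs_self _).trans ?_
      rw [abs_mul]
      exact mul_le_mul_of_nonneg_right (hg x) (abs_nonneg _)
    refine k1.trans ?_
    rw [← int_mul_Hz cR cΨ iΨ]
    have cΨd : CP (fun x => Ψ x * d x) := cΨ.mul cd
    have ceq : CP (fun x => e x ^ (2 * m)) := ce.pow _
    have k3 : ∫ x in cube, Ψ x * Hz (fun y => G y * |rr v 2 y|) x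
        ≤ ∫ x in cube, (((1 / 2 * (K * δ) * (Ψ x * d x) + 1 / 2 * (K * δ) * e x ^ (2 * m))
          + S0 * (1 + e x ^ (2 * m)))
          + (1 / 2 * K + 1 / 2 * (K * esq v)) * (k x * (1 + e x ^ (2 * m)))) := by
      refine integral_mono (cΨ.mul cR.hz).int
        ((((cΨd.cmul _).add (ceq.cmul _)).add (((CP.const 1).add ceq).cmul S0)).add
          (cKI.cmul _)).int fun x => ?_
      have ef : Hz (fun y => G y * |rr v 2 y|) x = Hz (fun y => fz G x y * |rr v 2 y|) x :=
        Hz_congr fun z hz => by rw [fz_eq hz]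
      have l1 := src_G hv (fz_cp cG x) (fz_ind G x) (fz_nonneg G0 x) (hm1 x) (hm2 x) x
      rw [← ef] at l1
      have l2 := mul_le_mul_of_nonneg_left l1 (Ψ0 x)
      have l3 : Ψ x ≤ 1 + e x ^ (2 * m) := pow_one_le (e0 x) (by omega)
      have l4 := mul_le_mul_of_nonneg_left l3 hS00
      have l5 : Ψ x * e x = e x ^ (2 * m) := by
        simp only [hΨ]
        rw [← pow_succ]
        congr 1
        omega
      have l6 := mul_le_mul_of_nonneg_left l3
        (mul_nonneg (by positivity : 0 ≤ 1 / 2 * (K * esq v)) (k0 x))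
      have l7 : 0 ≤ 1 / 2 * K * k x := mul_nonneg (by positivity) (k0 x)
      refine l2.trans ?_
      have l8 : Ψ x * (1 / 2 * (K * (δ * (Hz (vsq (ww v)) x + Hz (ga (ww v)) x)
            + k x * Hz (vsq (ww v)) x)) + hsq v
            + (1 / 2 * (K * (δ * (esq v + ysq v) + k x * esq v)) + 1 / 2 * ysq v))
          = 1 / 2 * (K * δ) * (Ψ x * e x) + 1 / 2 * (K * δ) * (Ψ x * d x)
            + 1 / 2 * K * k x * (Ψ x * e x) + S0 * Ψ x + 1 / 2 * (K * esq v) * k x * Ψ x := by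
        rw [hS0, he, hd]
        ring
      rw [l8, l5]
      linarith
    have j1 : IntegrableOn (fun x => 1 / 2 * (K * δ) * (Ψ x * d x)) cube := (cΨd.cmul _).int
    have j2 : IntegrableOn (fun x => 1 / 2 * (K * δ) * e x ^ (2 * m)) cube :=
      (ceq.cmul _).int
    have j12 : IntegrableOn (fun x => 1 / 2 * (K * δ) * (Ψ x * d x)
        + 1 / 2 * (K * δ) * e x ^ (2 * m)) cube := j1.add j2
    have j123 : IntegrableOn (fun x => (1 / 2 * (K * δ) * (Ψ x * d x)
        + 1 / 2 * (K * δ) * e x ^ (2 * m)) + S0 * (1 + e x ^ (2 * m))) cube :=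
      j12.add (((CP.const 1).add ceq).cmul S0).int
    rw [integral_add j123 (cKI.cmul _).int,
      integral_add j12 (((CP.const 1).add ceq).cmul S0).int, integral_add j1 j2,
      integral_const_mul, integral_const_mul, integral_const_mul, integral_const_mul,
      integral_add (integrable_const 1) ceq.int, c1'] at k3
    exact k3
  -- the pointwise bound
  have cP2 : CP (fun x => e x ^ (2 * m - 2) * Hz (fun y => G y * |p y|) x ^ 2) :=
    (ce.pow _).mul (cB.hz.pow 2)
  have ceq : CP (fun x => e x ^ (2 * m)) := ce.pow _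
  have cX2 : CP (fun x => e x ^ (2 * m - 2) * pd 2 e x ^ 2) :=
    (ce.pow _).mul ((cp_of (se.pd 2)).pow 2)
  have c1 : CP (fun x => Ψ x * d x) := cΨ.mul cd
  have c2 : CP (fun x => pd 2 Ψ x * pd 2 e x) := (cp_of (sΨ.pd 2)).mul (cp_of (se.pd 2))
  have c3 : CP (fun x => |pd 2 Ψ x| * H x) := (cp_of (sΨ.pd 2)).abs.mul cH
  set A1 : ℝ := 3 / 4 * (r / ν * (K * δ)) - 3 / 4 * ν with hA1
  set A2 : ℝ := -(ν / 4 * r) with hA2
  set A3 : ℝ := r / ν * (3 / 4 * (K * δ) + 9 / 4 * μ) + 21 * r ^ 2 / ν ^ 3 * μ ^ 2 with hA3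
  set A5 : ℝ := r / ν * (3 / 4 * K) with hA5
  set A4 : ℝ := 3 * (r / ν) with hA4
  have main : -(ν * ∫ x in cube, Ψ x * d x) - ν / 2 * (∫ x in cube, pd 2 Ψ x * pd 2 e x)
      + (∫ x in cube, |pd 2 Ψ x| * H x)
      ≤ A1 * (∫ x in cube, Ψ x * d x) + A2 * (∫ x in cube, e x ^ (2 * m - 2) * pd 2 e x ^ 2)
        + A3 * (∫ x in cube, e x ^ (2 * m))
        + A4 * (∫ x in cube, e x ^ (2 * m - 2) * Hz (fun y => G y * |p y|) x ^ 2)
        + A5 * ∫ x in cube, k x * (1 + e x ^ (2 * m)) := by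
    have k1 : ∫ x in cube, ((-ν * (Ψ x * d x) + -(ν / 2) * (pd 2 Ψ x * pd 2 e x))
        + |pd 2 Ψ x| * H x) ≤ ∫ x in cube, ((((A1 * (Ψ x * d x)
          + A2 * (e x ^ (2 * m - 2) * pd 2 e x ^ 2)) + A3 * e x ^ (2 * m))
          + A4 * (e x ^ (2 * m - 2) * Hz (fun y => G y * |p y|) x ^ 2))
          + A5 * (k x * (1 + e x ^ (2 * m)))) := by
      refine integral_mono (((c1.cmul _).add (c2.cmul _)).add c3).int
        (((((c1.cmul _).add (cX2.cmul _)).add (ceq.cmul _)).add (cP2.cmul _)).add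
          (cKI.cmul _)).int fun x => ?_
      have ha : 0 ≤ e x ^ (2 * m - 2) := pow_nonneg (e0 x) _
      set P : ℝ := Hz (fun y => G y * |p y|) x with hP
      have hH2 : H x ^ 2 ≤ 3 / 4 * (K * (δ * (e x + d x) + k x * e x) * e x)
          + 9 / 4 * (μ * (e x + 2 * (√(e x) * √(d x))) * e x) + 3 * P ^ 2 := by
        have l1 : Hz (fun y => |v 2 y| * vsq (ww v) y) x
            ≤ Hz (fun y => G y * vsq (ww v) y) x + Hz (fun y => |mm v y| * vsq (ww v) y) x := by
          rw [← Hz_add cGW cM]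
          apply Hz_mono cV (cGW.add cM)
          intro y
          have l3 : |v 2 y| ≤ G y + |mm v y| := by
            have : v 2 y = bb v y + mm v y := by
              unfold bb
              ring
            rw [this]
            exact (abs_add_le _ _).trans (add_le_add (hg y) le_rfl)
          have := mul_le_mul_of_nonneg_right l3 (vsq_nonneg (ww v) y)
          linarith
        have l3 := Hz_mm_vsq hv x (e := e x) (d := d x) le_rfl le_rfl hμ
        -- the term with G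
        have l4 : Hz (fun y => G y * vsq (ww v) y) x ^ 2
            ≤ K * (δ * (e x + d x) + k x * e x) * e x := by
          have j1 := Hz_cs_abs (cG.mul cW.sqrt) cW.sqrt x
          have j2 : (fun y => |G y * √(vsq (ww v) y)| * |√(vsq (ww v) y)|)
              = fun y => G y * vsq (ww v) y := by
            funext y
            rw [abs_mul, abs_of_nonneg (G0 y), abs_of_nonneg (Real.sqrt_nonneg _), mul_assoc,
              Real.mul_self_sqrt (vsq_nonneg _ y)]
          have j3 : (fun y => (G y * √(vsq (ww v) y)) ^ 2) = fun y => G y ^ 2 * vsq (ww v) y := by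
            funext y
            rw [mul_pow, Real.sq_sqrt (vsq_nonneg _ y)]
          have j4 : (fun y => √(vsq (ww v) y) ^ 2) = vsq (ww v) := by
            funext y
            rw [Real.sq_sqrt (vsq_nonneg _ y)]
          rw [j2, j3, j4] at j1
          have n1 : 0 ≤ Hz (fun y => G y * vsq (ww v) y) x :=
            Hz_nonneg (fun y => mul_nonneg (G0 y) (vsq_nonneg _ y)) x
          have n3 : 0 ≤ Hz (fun y => G y ^ 2 * vsq (ww v) y) x :=
            Hz_nonneg (fun y => mul_nonneg (sq_nonneg _) (vsq_nonneg _ y)) x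
          have j5 := pow_le_pow_left₀ n1 j1 2
          rw [mul_pow, Real.sq_sqrt n3, Real.sq_sqrt (Hz_nonneg (vsq_nonneg (ww v)) x)] at j5
          have ef : Hz (fun y => G y ^ 2 * vsq (ww v) y) x
              = Hz (fun y => fz G x y ^ 2 * vsq (ww v) y) x := Hz_congr fun z hz => by rw [fz_eq hz]
          have j6 := hm1 x x
          rw [← ef] at j6
          exact j5.trans (mul_le_mul_of_nonneg_right j6 (e0 x))
        set A : ℝ := Hz (fun y => |mm v y| * vsq (ww v) y) x with hA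
        set B : ℝ := Hz (fun y => G y * vsq (ww v) y) x with hB
        have nH : 0 ≤ H x := by
          simp only [hH]
          have a1 : 0 ≤ Hz (fun y => |v 2 y| * vsq (ww v) y) x :=
            Hz_nonneg (fun y => mul_nonneg (abs_nonneg _) (vsq_nonneg _ y)) x
          have a2 : 0 ≤ Hz (fun y => G y * |p y|) x :=
            Hz_nonneg (fun y => mul_nonneg (G0 y) (abs_nonneg _)) x
          positivity
        have l5 : H x ≤ 1 / 2 * B + 1 / 2 * A + P := by
          simp only [hH]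
          linarith
        have l6 := pow_le_pow_left₀ nH l5 2
        have l7 : (1 / 2 * B + 1 / 2 * A + P) ^ 2
            ≤ 3 * ((1 / 2 * B) ^ 2 + (1 / 2 * A) ^ 2 + P ^ 2) := by
          linarith only [sq_nonneg (1 / 2 * B - 1 / 2 * A), sq_nonneg (1 / 2 * B - P),
            sq_nonneg (1 / 2 * A - P)]
        have l8 : 3 * ((1 / 2 * B) ^ 2 + (1 / 2 * A) ^ 2 + P ^ 2)
            = 3 / 4 * B ^ 2 + 3 / 4 * A ^ 2 + 3 * P ^ 2 := by ring
        linarith
      have key := pt_G (μ := μ) (K := K) (δ := δ) (k := k x) (P := P) hν hr0 ha (e0 x) (d0 x)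
        (D := pd 2 e x) (H := H x) hH2
      have x1 : Ψ x = e x ^ (2 * m - 2) * e x := by
        simp only [hΨ]
        rw [← pow_succ]
        congr 1
        omega
      have x2 : e x ^ (2 * m) = e x ^ (2 * m - 2) * e x ^ 2 := by
        rw [← pow_add]
        congr 1
        omega
      have x3 : |pd 2 Ψ x| = r * (e x ^ (2 * m - 2) * |pd 2 e x|) := by
        rw [dΨ, abs_mul, abs_mul, abs_of_nonneg hr0, abs_of_nonneg ha]
      have y1 : -ν * (Ψ x * d x) + -(ν / 2) * (pd 2 Ψ x * pd 2 e x) + |pd 2 Ψ x| * H x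
          = -(ν * (e x ^ (2 * m - 2) * e x * d x))
            - ν / 2 * (r * (e x ^ (2 * m - 2) * pd 2 e x ^ 2))
            + r * (e x ^ (2 * m - 2) * (|pd 2 e x| * H x)) := by
        rw [x3, x1, dΨ]
        ring
      have x4 : 0 ≤ A5 * k x := mul_nonneg (by positivity) (k0 x)
      simp only
      rw [y1, x2]
      refine key.trans ?_
      have x5 : (3 / 4 * (r / ν * (K * δ)) - 3 / 4 * ν) * (e x ^ (2 * m - 2) * e x * d x)
            - ν / 4 * (r * (e x ^ (2 * m - 2) * pd 2 e x ^ 2))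
            + r / ν * (3 / 4 * (K * (δ + k x)) + 9 / 4 * μ) * (e x ^ (2 * m - 2) * e x ^ 2)
            + 21 * r ^ 2 / ν ^ 3 * μ ^ 2 * (e x ^ (2 * m - 2) * e x ^ 2)
            + 3 * (r / ν) * (e x ^ (2 * m - 2) * P ^ 2)
          = A1 * (Ψ x * d x) + A2 * (e x ^ (2 * m - 2) * pd 2 e x ^ 2)
            + A3 * (e x ^ (2 * m - 2) * e x ^ 2) + A4 * (e x ^ (2 * m - 2) * P ^ 2)
            + A5 * k x * (e x ^ (2 * m - 2) * e x ^ 2) := by
        rw [x1, hA1, hA2, hA3, hA4, hA5]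
        ring
      rw [x5]
      linarith
    have i12 : IntegrableOn (fun x => -ν * (Ψ x * d x) + -(ν / 2) * (pd 2 Ψ x * pd 2 e x)) cube :=
      ((c1.cmul _).add (c2.cmul _)).int
    have j12 : IntegrableOn (fun x => A1 * (Ψ x * d x)
        + A2 * (e x ^ (2 * m - 2) * pd 2 e x ^ 2)) cube := ((c1.cmul _).add (cX2.cmul _)).int
    have j123 : IntegrableOn (fun x => A1 * (Ψ x * d x)
        + A2 * (e x ^ (2 * m - 2) * pd 2 e x ^ 2) + A3 * e x ^ (2 * m)) cube :=
      (((c1.cmul _).add (cX2.cmul _)).add (ceq.cmul _)).int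
    have j1234 : IntegrableOn (fun x => (A1 * (Ψ x * d x)
        + A2 * (e x ^ (2 * m - 2) * pd 2 e x ^ 2) + A3 * e x ^ (2 * m))
        + A4 * (e x ^ (2 * m - 2) * Hz (fun y => G y * |p y|) x ^ 2)) cube :=
      j123.add (cP2.cmul _).int
    rw [integral_add i12 c3.int, integral_add (c1.cmul _).int (c2.cmul _).int,
      integral_add j1234 (cKI.cmul _).int,
      integral_add j123 (cP2.cmul _).int, integral_add j12 (ceq.cmul _).int,
      integral_add (c1.cmul _).int (cX2.cmul _).int, integral_const_mul, integral_const_mul,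
      integral_const_mul, integral_const_mul, integral_const_mul, integral_const_mul,
      integral_const_mul] at k1
    linarith
  rw [hid, t1, t2]
  have z : ∀ X1 X2 Y P S I : ℝ, (3 / 4 * (r / ν * (K * δ)) + 1 / 2 * (K * δ) - 3 / 4 * ν) * X1
        - ν / 4 * (r * X2)
        + (r / ν * (3 / 4 * (K * δ) + 9 / 4 * μ)
            + 21 * r ^ 2 / ν ^ 3 * μ ^ 2 + 1 / 2 * (K * δ)) * Y
        + 3 * (r / ν) * P + S * (1 + Y)
        + (r / ν * (3 / 4 * K) + 1 / 2 * K + 1 / 2 * (K * esq v)) * I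
      = (A1 * X1 + A2 * X2 + A3 * Y + A4 * P + A5 * I)
        + (1 / 2 * (K * δ) * X1 + 1 / 2 * (K * δ) * Y + S * (1 + Y)
          + (1 / 2 * K + 1 / 2 * (K * esq v)) * I) := by
    intro X1 X2 Y P S I
    rw [hA1, hA2, hA3, hA4, hA5]
    ring
  rw [z]
  linarith

end field

end Pool.Agent.H4LA
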