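import Pool.Agent.H4LA.Gn4L
import Pool.Agent.H4LA.Sup

/-!
The maximum of the slice integrals of the fourth power with a weight.
-/

set_option autoImplicit false
set_option linter.unusedVariables false

open MeasureTheory Set Function Filter Topology
open scoped ENNReal ContDiff

namespace Pool.Agent.H4LA

open H459R3.NS

theorem pow4_le_vsq (v : Fin 3 → V → ℝ) (i : Fin 3) (y : V) : v i y ^ 4 ≤ vsq v y ^ 2 := by
  have h1 : v i y ^ 2 ≤ vsq v y :=
    Finset.single_le_sum (f := fun i => v i y ^ 2) (fun i _ => sq_nonneg _) (Finset.mem_univ i)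
  have h2 := pow_le_pow_left₀ (sq_nonneg _) h1 2
  rw [← pow_mul] at h2
  exact h2

/-- The multiplication for vector fields. -/
theorem mult2v {a r : ℝ} (h : Ey a r) : ∃ C : ℝ, 1 ≤ C ∧ ∀ G : V → ℝ, CP G → Ind 2 G →
    (∀ x, 0 ≤ G x) → ∀ N : ℝ, 0 ≤ N → (∫ x in cube, G x ^ r) ≤ N ^ r →
    ∀ v : Fin 3 → V → ℝ, (∀ i, SP (v i)) → ∀ x A B J,
    Hz (vsq v) x ≤ A → Hz (ga v) x ≤ B → Hz (fun y => vsq v y ^ 2) x ≤ J →
    Hz (fun y => G y ^ 2 * vsq v y) x
      ≤ C * (N ^ 2 * (A ^ al a r * J ^ be a r * (A + B) ^ gm a)) := by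
  obtain ⟨C, hC1, hC⟩ := mult2 h
  refine ⟨3 * C, by linarith, ?_⟩
  intro G cG iG G0 N hN hGN v hv x A B J hA hB hJ
  have e : (fun y => G y ^ 2 * vsq v y) = fun y => ∑ i, G y ^ 2 * v i y ^ 2 := by
    funext y
    unfold vsq
    rw [Finset.mul_sum]
  rw [e, Hz_sum fun i _ => (cG.pow 2).mul ((cp_of (hv i)).pow 2)]
  have h : ∀ i, Hz (fun y => G y ^ 2 * v i y ^ 2) x
      ≤ C * (N ^ 2 * (A ^ al a r * J ^ be a r * (A + B) ^ gm a)) := by
    intro i
    refine hC G cG iG G0 N hN hGN (v i) (hv i) x A B J ((Hz_le_vsq hv i x).trans hA)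
      ((Hz_le_ga hv i 0 x).trans hB) ((Hz_le_ga hv i 1 x).trans hB) ?_
    exact (Hz_mono ((cp_of (hv i)).pow 4) ((cp_of (vsq_sp hv)).pow 2) (pow4_le_vsq v i) x).trans hJ
  rw [Fin.sum_univ_three]
  linarith [h 0, h 1, h 2]

theorem Hz_cs2 {f g : V → ℝ} (cf : CP f) (cg : CP g) (x : V) :
    |Hz (fun y => f y * g y) x| ≤ √(Hz (fun y => f y ^ 2) x) * √(Hz (fun y => g y ^ 2) x) := by
  have h1 := abs_Hz_le (cf.mul cg) x
  have h2 := Hz_cs_abs cf cg x
  have e : (fun y => |f y * g y|) = fun y => |f y| * |g y| := by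
    funext y
    rw [abs_mul]
  rw [e] at h1
  exact h1.trans h2

/-- The maximum of the slice integrals of the fourth power. -/
theorem jsup {f ψ Θ : V → ℝ} (sf : SP f) (sψ : SP ψ) (iψ : I01 ψ) (ψ0 : ∀ x, 0 ≤ ψ x)
    (cΘ : CP Θ) (Θ0 : ∀ x, 0 ≤ Θ x)
    (hd : ∀ x, pd 2 ψ x ^ 2 * Hz (fun y => f y ^ 2) x ≤ ψ x * Θ x)
    {R P : ℝ} (R0 : 0 ≤ R)
    (h1 : ∫ x in cube, ψ x * Hz (fun y => f y ^ 2) x ≤ R ^ 2) (h2 : ∫ x in cube, Θ x ≤ R ^ 2)
    (h3 : ∫ x in cube, ψ x * Hz (fun y => pd 2 f y ^ 2) x ≤ R ^ 2)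
    (h4 : ∫ x in cube, ψ x * (Hz (fun y => f y ^ 2) x + (Hz (fun y => pd 0 f y ^ 2) x
      + Hz (fun y => pd 1 f y ^ 2) x)) ≤ P) (x : V) :
    ψ x ^ 2 * Hz (fun y => f y ^ 4) x ≤ 490 * (R ^ 2 * P) := by
  have cf := cp_of sf
  have cψ := cp_of sψ
  set F2 : V → ℝ := Hz (fun y => f y ^ 2) with hF2
  set F4 : V → ℝ := Hz (fun y => f y ^ 4) with hF4
  set F6 : V → ℝ := Hz (fun y => f y ^ 6) with hF6
  set D3 : V → ℝ := Hz (fun y => pd 2 f y ^ 2) with hD3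
  set D0 : V → ℝ := Hz (fun y => pd 0 f y ^ 2) with hD0
  set D1 : V → ℝ := Hz (fun y => pd 1 f y ^ 2) with hD1
  have c2 : CP F2 := (cf.pow 2).hz
  have c4 : CP F4 := (cf.pow 4).hz
  have c6 : CP F6 := (cf.pow 6).hz
  have cD3 : CP D3 := ((cp_of (sf.pd 2)).pow 2).hz
  have cD0 : CP D0 := ((cp_of (sf.pd 0)).pow 2).hz
  have cD1 : CP D1 := ((cp_of (sf.pd 1)).pow 2).hz
  have p2 : ∀ x, 0 ≤ F2 x := Hz_nonneg fun y => sq_nonneg _
  have p4 : ∀ x, 0 ≤ F4 x := Hz_nonneg fun y => (by decide : Even 4).pow_nonneg _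
  have p6 : ∀ x, 0 ≤ F6 x := Hz_nonneg fun y => (by decide : Even 6).pow_nonneg _
  have pD3 : ∀ x, 0 ≤ D3 x := Hz_nonneg fun y => sq_nonneg _
  have pD0 : ∀ x, 0 ≤ D0 x := Hz_nonneg fun y => sq_nonneg _
  have pD1 : ∀ x, 0 ≤ D1 x := Hz_nonneg fun y => sq_nonneg _
  have s4 : SP F4 := hz_sp (SP.powr sf 4)
  set J : V → ℝ := fun x => ψ x ^ 2 * F4 x with hJ
  have sJ : SP J := (SP.powr sψ 2).mul s4
  have cJ := cp_of sJ
  have iJ : I01 J := (iψ.powr 2).mul (i01_hz _)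
  have J0 : ∀ x, 0 ≤ J x := fun x => mul_nonneg (sq_nonneg _) (p4 x)
  -- the maximum
  obtain ⟨Cb, _, hCb⟩ := cJ.bdd
  have hbd : BddAbove (range J) := ⟨Cb, by
    rintro _ ⟨y, rfl⟩
    exact (le_abs_self _).trans (hCb y)⟩
  set S : ℝ := ⨆ x, J x with hS
  have hJS : ∀ x, J x ≤ S := fun x => le_ciSup hbd x
  have hS0 : 0 ≤ S := (J0 x).trans (hJS x)
  have hP0 : 0 ≤ P := le_trans (integral_nonneg fun x => mul_nonneg (ψ0 x)
    (add_nonneg (p2 x) (add_nonneg (pD0 x) (pD1 x)))) h4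
  -- the sixth power
  have g6 : ∀ x, F6 x ≤ F4 x * (10 * (F2 x + (D0 x + D1 x))) := by
    intro x
    have k1 := gn_step sf (x := x) (A := F2 x) (B := D0 x + D1 x) le_rfl
      (by have := pD1 x; simp only [hD0, hD1] at this ⊢; linarith)
      (by have := pD0 x; simp only [hD0, hD1] at this ⊢; linarith) 1
    have e1 : (fun y => f y ^ (2 * (1 + 1 + 1))) = fun y => f y ^ 6 := rfl
    have e2 : (fun y => f y ^ (2 * (1 + 1))) = fun y => f y ^ 4 := rfl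
    rw [e1, e2] at k1
    refine k1.trans (mul_le_mul_of_nonneg_left ?_ (p4 x))
    have q1 : √(F2 x) ^ 2 = F2 x := Real.sq_sqrt (p2 x)
    have q2 : √(D0 x + D1 x) ^ 2 = D0 x + D1 x := Real.sq_sqrt (add_nonneg (pD0 x) (pD1 x))
    push_cast
    have q3 := sq_nonneg (3 * √(F2 x) - √(D0 x + D1 x))
    have q4 : (√(F2 x) + (1 + 2) * √(D0 x + D1 x)) ^ 2
        = 10 * (√(F2 x) ^ 2 + √(D0 x + D1 x) ^ 2) - (3 * √(F2 x) - √(D0 x + D1 x)) ^ 2 := by ring
    rw [q4, q1, q2]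
    linarith
  -- the weights
  set a6 : V → ℝ := fun x => ψ x ^ 3 * F6 x with ha6
  have ca6 : CP a6 := (cψ.pow 3).mul c6
  have pa6 : ∀ x, 0 ≤ a6 x := fun x => mul_nonneg (pow_nonneg (ψ0 x) 3) (p6 x)
  set b2 : V → ℝ := fun x => ψ x * F2 x with hb2
  have cb2 : CP b2 := cψ.mul c2
  have pb2 : ∀ x, 0 ≤ b2 x := fun x => mul_nonneg (ψ0 x) (p2 x)
  set b3 : V → ℝ := fun x => ψ x * D3 x with hb3
  have cb3 : CP b3 := cψ.mul cD3
  have pb3 : ∀ x, 0 ≤ b3 x := fun x => mul_nonneg (ψ0 x) (pD3 x)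
  have hSix : ∫ x in cube, a6 x ≤ 10 * (S * P) := by
    have cq : CP fun x => ψ x * (F2 x + (D0 x + D1 x)) := cψ.mul (c2.add (cD0.add cD1))
    have k1 : ∫ x in cube, a6 x ≤ ∫ x in cube, (10 * S) * (ψ x * (F2 x + (D0 x + D1 x))) := by
      refine integral_mono ca6.int (cq.cmul _).int fun x => ?_
      have l1 := mul_le_mul_of_nonneg_left (g6 x) (pow_nonneg (ψ0 x) 3)
      have l2 : 0 ≤ 10 * (ψ x * (F2 x + (D0 x + D1 x))) :=
        mul_nonneg (by norm_num) (mul_nonneg (ψ0 x) (add_nonneg (p2 x) (add_nonneg (pD0 x) (pD1 x))))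
      have l3 := mul_le_mul_of_nonneg_right (hJS x) l2
      simp only [ha6, hJ] at l3 ⊢
      linarith
    rw [integral_const_mul] at k1
    have k2 := mul_le_mul_of_nonneg_left h4 (by positivity : 0 ≤ 10 * S)
    linarith
  -- the pointwise bounds
  have sqm : ∀ {p q : ℝ}, 0 ≤ p → √p * √q = √(p * q) := fun hp => (Real.sqrt_mul hp _).symm
  have t1 : ∀ x, J x ≤ √(a6 x) * √(b2 x) := by
    intro x
    have k1 : F4 x ≤ √(F6 x) * √(F2 x) := by
      have := Hz_cs2 (cf.pow 3) cf x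
      have e1 : (fun y => f y ^ 3 * f y) = fun y => f y ^ 4 := by
        funext y
        ring
      have e2 : (fun y => (f y ^ 3) ^ 2) = fun y => f y ^ 6 := by
        funext y
        ring
      rw [e1, e2] at this
      exact (le_abs_self _).trans this
    have k2 := mul_le_mul_of_nonneg_left k1 (sq_nonneg (ψ x))
    have e : ψ x ^ 2 * (√(F6 x) * √(F2 x)) = √(a6 x) * √(b2 x) := by
      rw [sqm (p6 x), sqm (pa6 x)]
      have e1 : a6 x * b2 x = (ψ x ^ 2) ^ 2 * (F6 x * F2 x) := by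
        simp only [ha6, hb2]
        ring
      rw [e1, Real.sqrt_mul (sq_nonneg _), Real.sqrt_sq (sq_nonneg _)]
    rw [← e]
    exact k2
  have t2 : ∀ x, |pd 2 J x| ≤ 2 * (√(a6 x) * √(Θ x)) + 4 * (√(a6 x) * √(b3 x)) := by
    intro x
    have e0 : pd 2 J x = 2 * (ψ x * pd 2 ψ x * F4 x)
        + ψ x ^ 2 * (4 * Hz (fun y => f y ^ 3 * pd 2 f y) x) := by
      have e1 : pd 2 J x = pd 2 (fun y => ψ y ^ 2) x * F4 x + ψ x ^ 2 * pd 2 F4 x :=
        (pd_mul (SP.powr sψ 2) s4 2 x).trans (add_comm _ _)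
      rw [e1, pd_pow sψ, hF4, pd2_hz (SP.powr sf 4)]
      have e2 : pd 2 (fun y => f y ^ 4) = fun y => 4 * (f y ^ 3 * pd 2 f y) := by
        funext y
        rw [pd_pow sf]
        push_cast
        ring
      rw [e2, Hz_cmul]
      push_cast
      ring
    have k1 : |ψ x * pd 2 ψ x * F4 x| ≤ √(a6 x) * √(Θ x) := by
      have l1 := t1 x
      rw [sqm (pa6 x)]
      apply Real.le_sqrt_of_sq_le
      rw [sq_abs]
      have l2 : F4 x ^ 2 ≤ F6 x * F2 x := by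
        have := Hz_cs2 (cf.pow 3) cf x
        have e1 : (fun y => f y ^ 3 * f y) = fun y => f y ^ 4 := by
          funext y
          ring
        have e2 : (fun y => (f y ^ 3) ^ 2) = fun y => f y ^ 6 := by
          funext y
          ring
        rw [e1, e2] at this
        have l3 := pow_le_pow_left₀ (abs_nonneg _) this 2
        rw [sq_abs, mul_pow] at l3
        refine l3.trans (le_of_eq ?_)
        have w1 : √(Hz (fun y => f y ^ 6) x) ^ 2 = F6 x := Real.sq_sqrt (p6 x)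
        have w2 : √(Hz (fun y => f y ^ 2) x) ^ 2 = F2 x := Real.sq_sqrt (p2 x)
        rw [w1, w2]
      have l4 := mul_le_mul_of_nonneg_left l2 (sq_nonneg (ψ x * pd 2 ψ x))
      have l5 := mul_le_mul_of_nonneg_left (hd x)
        (mul_nonneg (sq_nonneg (ψ x)) (p6 x) : 0 ≤ ψ x ^ 2 * F6 x)
      simp only [ha6]
      linarith
    have k2 : |ψ x ^ 2 * Hz (fun y => f y ^ 3 * pd 2 f y) x| ≤ √(a6 x) * √(b3 x) := by
      have l1 := Hz_cs2 (cf.pow 3) (cp_of (sf.pd 2)) x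
      have e2 : (fun y => (f y ^ 3) ^ 2) = fun y => f y ^ 6 := by
        funext y
        ring
      rw [e2] at l1
      rw [abs_mul, abs_of_nonneg (sq_nonneg (ψ x))]
      have l2 := mul_le_mul_of_nonneg_left l1 (sq_nonneg (ψ x))
      refine l2.trans (le_of_eq ?_)
      rw [sqm (pa6 x)]
      have e1 : a6 x * b3 x = (ψ x ^ 2) ^ 2 * (F6 x * D3 x) := by
        simp only [ha6, hb3]
        ring
      rw [e1, Real.sqrt_mul (sq_nonneg _), Real.sqrt_sq (sq_nonneg _), ← sqm (p6 x)]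
    have e1 : ψ x ^ 2 * (4 * Hz (fun y => f y ^ 3 * pd 2 f y) x)
        = 4 * (ψ x ^ 2 * Hz (fun y => f y ^ 3 * pd 2 f y) x) := by ring
    rw [e0, e1]
    refine (abs_add_le _ _).trans ?_
    rw [abs_mul, abs_mul 4, abs_of_pos (by norm_num : (0 : ℝ) < 2),
      abs_of_pos (by norm_num : (0 : ℝ) < 4)]
    linarith
  -- the integrals
  have u : ∀ {b : V → ℝ}, CP b → (∀ x, 0 ≤ b x) → ∫ x in cube, b x ≤ R ^ 2 →
      ∫ x in cube, √(a6 x) * √(b x) ≤ √(10 * (S * P)) * R := by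
    intro b cb b0 hb
    refine (cs_cube ca6.cont cb.cont pa6 b0).trans ?_
    have q1 : √(∫ x in cube, b x) ≤ R := by
      rw [Real.sqrt_le_left R0]
      exact hb
    exact mul_le_mul (Real.sqrt_le_sqrt hSix) q1 (Real.sqrt_nonneg _) (Real.sqrt_nonneg _)
  have main : ∀ x, J x ≤ 7 * (√(10 * (S * P)) * R) := by
    intro x
    have k1 := abs_le_Av sJ 2 x
    have cR : CP (fun y => |J y| + |pd 2 J y|) := cJ.abs.add (cp_of (sJ.pd 2)).abs
    have iR : I01 (fun y => |J y| + |pd 2 J y|) := iJ.abs.add (I01.pd2 sJ iJ).abs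
    rw [Av2_of_i01 cR iR] at k1
    have d1 : CP fun x => √(a6 x) * √(b2 x) := ca6.sqrt.mul cb2.sqrt
    have d2 : CP fun x => √(a6 x) * √(Θ x) := ca6.sqrt.mul cΘ.sqrt
    have d3 : CP fun x => √(a6 x) * √(b3 x) := ca6.sqrt.mul cb3.sqrt
    have k2 : ∫ x in cube, (|J x| + |pd 2 J x|) ≤ ∫ x in cube, (√(a6 x) * √(b2 x)
        + (2 * (√(a6 x) * √(Θ x)) + 4 * (√(a6 x) * √(b3 x)))) := by
      refine integral_mono cR.int (d1.add ((d2.cmul 2).add (d3.cmul 4))).int fun x => ?_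
      have l1 := t1 x
      have l2 := t2 x
      simp only
      rw [abs_of_nonneg (J0 x)]
      linarith
    rw [integral_add d1.int ((d2.cmul 2).add (d3.cmul 4)).int,
      integral_add (d2.cmul 2).int (d3.cmul 4).int, integral_const_mul, integral_const_mul] at k2
    have m1 := u cb2 pb2 h1
    have m2 := u cΘ Θ0 h2
    have m3 := u cb3 pb3 h3
    have m4 := le_abs_self (J x)
    linarith
  have hS2 : S ≤ 7 * (√(10 * (S * P)) * R) := ciSup_le main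
  have hSP : 0 ≤ 10 * (S * P) := by positivity
  have hS3 : S ^ 2 ≤ S * (490 * (R ^ 2 * P)) := by
    have k1 := pow_le_pow_left₀ hS0 hS2 2
    have k2 : (7 * (√(10 * (S * P)) * R)) ^ 2 = 49 * (√(10 * (S * P)) ^ 2 * R ^ 2) := by ring
    rw [k2, Real.sq_sqrt hSP] at k1
    linarith
  have hS4 : S ≤ 490 * (R ^ 2 * P) := by
    rcases hS0.eq_or_lt with h | h
    · rw [← h]
      positivity
    · rw [sq] at hS3
      exact le_of_mul_le_mul_left hS3 h
  exact (hJS x).trans hS4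

end Pool.Agent.H4LA
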