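import Pool.Agent.H459R3.NS.Ibp
import Pool.Agent.H631R3.PI

/-!
Smooth kernels, averages with smooth kernels, and the representation of a function in terms of its
Laplacian.
-/

set_option autoImplicit false
set_option linter.unusedVariables false

open MeasureTheory Set Function Filter Topology
open scoped ENNReal ContDiff

namespace Pool.Agent.H4LA

open H459R3.NS

/-- The cube `[-1, 1]³`. -/
def Qb : Set V := Icc (-1) 1

theorem Qb_compact : IsCompact Qb := isCompact_Icc

theorem Qb_closed : IsClosed Qb := isClosed_Icc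

/-- Smooth functions which vanish outside the cube. -/
structure Kn (A : V → ℝ) : Prop where
  smooth : ContDiff ℝ ∞ A
  zero : ∀ y, y ∉ Qb → A y = 0

theorem Kn.pd {A : V → ℝ} (hA : Kn A) (i : Fin 3) : Kn (pd i A) where
  smooth := (hA.smooth.fderiv_right (m := ∞) (by norm_cast)).clm_apply contDiff_const
  zero := by
    intro y hy
    unfold H459R3.NS.pd
    have h1 : A =ᶠ[𝓝 y] fun _ => 0 := by
      filter_upwards [Qb_closed.isOpen_compl.mem_nhds hy] with z hz
      exact hA.zero z hz
    rw [h1.fderiv_eq]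
    simp

theorem Kn.cont {A : V → ℝ} (hA : Kn A) : Continuous A := hA.smooth.continuous

theorem Kn.bdd {A : V → ℝ} (hA : Kn A) : ∃ C, 0 ≤ C ∧ ∀ y, |A y| ≤ C := by
  obtain ⟨C, hC⟩ := Qb_compact.exists_bound_of_continuousOn hA.cont.continuousOn
  refine ⟨|C|, abs_nonneg _, fun y => ?_⟩
  by_cases hy : y ∈ Qb
  · exact (hC y hy).trans (le_abs_self C)
  · rw [hA.zero y hy, abs_zero]
    exact abs_nonneg _

theorem Kn.compact {A : V → ℝ} (hA : Kn A) : HasCompactSupport A :=
  HasCompactSupport.intro Qb_compact hA.zero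

theorem Kn.int {A B : V → ℝ} (hA : Kn A) (hB : Continuous B) :
    Integrable (fun y => A y * B y) :=
  (hA.cont.mul hB).integrable_of_hasCompactSupport (hA.compact.mul_right)

theorem Kn.set_int {A B : V → ℝ} (hA : Kn A) :
    ∫ y in Qb, A y * B y = ∫ y, A y * B y :=
  setIntegral_eq_integral_of_forall_compl_eq_zero fun y hy => by rw [hA.zero y hy, zero_mul]

/-- Integration by parts. -/
theorem Kn.ibp {A B : V → ℝ} (hA : Kn A) (hB : ContDiff ℝ ∞ B) (i : Fin 3) :
    ∫ y in Qb, A y * H459R3.NS.pd i B y = -∫ y in Qb, H459R3.NS.pd i A y * B y := by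
  rw [hA.set_int, (hA.pd i).set_int]
  have hB' : Continuous (H459R3.NS.pd i B) :=
    (hB.continuous_fderiv (by norm_cast)).clm_apply continuous_const
  exact integral_mul_fderiv_eq_neg_fderiv_mul_of_integrable ((hA.pd i).int hB.continuous)
    (hA.int hB') (hA.int hB.continuous) (fun x _ => (hA.smooth.differentiable (by norm_cast)) x)
    (fun x _ => (hB.differentiable (by norm_cast)) x)

/-- The average of `f` with the kernel `A`. -/
noncomputable def cv (A f : V → ℝ) (r : ℝ) (x : V) : ℝ := ∫ y in Qb, A y * f (x + r • y)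

theorem pd_affine {f : V → ℝ} (hf : ContDiff ℝ ∞ f) (i : Fin 3) (r : ℝ) (x y : V) :
    pd i (fun y => f (x + r • y)) y = r * pd i f (x + r • y) := by
  unfold pd
  have h1 : HasFDerivAt (fun y : V => x + r • y) (r • ContinuousLinearMap.id ℝ V) y :=
    ((hasFDerivAt_id y).const_smul r).const_add x
  have h2 : HasFDerivAt (fun y => f (x + r • y))
      ((fderiv ℝ f (x + r • y)).comp (r • ContinuousLinearMap.id ℝ V)) y :=
    ((hf.differentiable (by norm_cast)) _).hasFDerivAt.comp y h1
  rw [h2.fderiv]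
  simp

theorem affine_smooth {f : V → ℝ} (hf : ContDiff ℝ ∞ f) (r : ℝ) (x : V) :
    ContDiff ℝ ∞ (fun y => f (x + r • y)) :=
  hf.comp (contDiff_const.add (contDiff_id.const_smul r))

theorem cv_pd {A f : V → ℝ} (hA : Kn A) (hf : ContDiff ℝ ∞ f) (i : Fin 3) (r : ℝ) (x : V) :
    cv (pd i A) f r x = -(r * cv A (pd i f) r x) := by
  have h := hA.ibp (affine_smooth hf r x) i
  unfold cv
  have e : ∀ y, A y * pd i (fun y => f (x + r • y)) y = r * (A y * pd i f (x + r • y)) := by
    intro y
    rw [pd_affine hf]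
    ring
  simp_rw [e] at h
  rw [integral_const_mul] at h
  linarith

theorem cv_sum {ι : Type} {s : Finset ι} {A : V → ℝ} {f : ι → V → ℝ} (hA : Kn A)
    (hf : ∀ i ∈ s, Continuous (f i)) (r : ℝ) (x : V) :
    cv A (fun y => ∑ i ∈ s, f i y) r x = ∑ i ∈ s, cv A (f i) r x := by
  unfold cv
  simp_rw [Finset.mul_sum]
  rw [integral_finsetSum]
  intro i hi
  have : Continuous fun y => A y * f i (x + r • y) :=
    hA.cont.mul ((hf i hi).comp (continuous_const.add (continuous_id.const_smul r)))
  exact this.continuousOn.integrableOn_compact Qb_compact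

theorem cv_neg {A f : V → ℝ} (r : ℝ) (x : V) :
    cv A (fun y => -f y) r x = -cv A f r x := by
  unfold cv
  rw [← integral_neg]
  congr 1
  funext y
  ring

/-- The average of `φ` over a cube. -/
noncomputable def BA (φ : V → ℝ) (r : ℝ) (x : V) : ℝ := ∫ y in Qb, φ (x + r • y)

theorem BA_intOn {φ : V → ℝ} (hφ : Continuous φ) (r : ℝ) (x : V) :
    IntegrableOn (fun y => φ (x + r • y)) Qb :=
  (hφ.comp (continuous_const.add (continuous_id.const_smul r))).continuousOn.integrableOn_compact
    Qb_compact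

theorem BA_mono {φ ψ : V → ℝ} (hφ : Continuous φ) (hψ : Continuous ψ) (h : ∀ x, φ x ≤ ψ x)
    (r : ℝ) (x : V) : BA φ r x ≤ BA ψ r x :=
  integral_mono (BA_intOn hφ r x) (BA_intOn hψ r x) fun _ => h _

theorem BA_nonneg {φ : V → ℝ} (h : ∀ x, 0 ≤ φ x) (r : ℝ) (x : V) : 0 ≤ BA φ r x :=
  integral_nonneg fun _ => h _

theorem BA_cmul (c : ℝ) (φ : V → ℝ) (r : ℝ) (x : V) :
    BA (fun y => c * φ y) r x = c * BA φ r x := by
  unfold BA
  rw [integral_const_mul]

theorem BA_sum {ι : Type} {s : Finset ι} {f : ι → V → ℝ}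
    (hf : ∀ i ∈ s, Continuous (f i)) (r : ℝ) (x : V) :
    BA (fun y => ∑ i ∈ s, f i y) r x = ∑ i ∈ s, BA (f i) r x := by
  unfold BA
  rw [integral_finsetSum]
  intro i hi
  exact BA_intOn (hf i hi) r x

theorem BA_cont {φ : V → ℝ} (hφ : Continuous φ) : Continuous fun z : V × ℝ => BA φ z.2 z.1 := by
  unfold BA
  apply continuous_parametric_integral_of_continuous _ Qb_compact
  exact hφ.comp (by fun_prop)

theorem abs_cv_le {A f : V → ℝ} (hf : Continuous f) (hA : Kn A) {C : ℝ} (hC : ∀ y, |A y| ≤ C)
    (r : ℝ) (x : V) : |cv A f r x| ≤ C * BA (fun y => |f y|) r x := by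
  unfold cv BA
  rw [← integral_const_mul]
  refine (abs_integral_le_integral_abs).trans ?_
  have c1 : Continuous fun y => A y * f (x + r • y) :=
    hA.cont.mul (hf.comp (continuous_const.add (continuous_id.const_smul r)))
  refine integral_mono (c1.abs.continuousOn.integrableOn_compact Qb_compact)
    ((BA_intOn hf.abs r x).const_mul C) fun y => ?_
  simp only
  rw [abs_mul]
  exact mul_le_mul_of_nonneg_right (hC y) (abs_nonneg _)

/-! ### The two kernels -/

/-- `|y|²` -/
noncomputable def nq (y : V) : ℝ := ∑ i, y i ^ 2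

theorem nq_smooth : ContDiff ℝ ∞ nq := by
  unfold nq
  exact ContDiff.sum fun i _ => (contDiff_apply ℝ ℝ i).pow 2

theorem nq_out {y : V} (hy : y ∉ Qb) : 1 ≤ nq y := by
  have h : ∃ i, 1 ≤ |y i| := by
    by_contra hc
    push Not at hc
    apply hy
    constructor
    · intro i
      have := (abs_lt.1 (hc i)).1
      simp only [Pi.neg_apply, Pi.one_apply]
      linarith
    · intro i
      have := (abs_lt.1 (hc i)).2
      simp only [Pi.one_apply]
      linarith
  obtain ⟨i, hi⟩ := h
  have h1 : 1 ≤ y i ^ 2 := by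
    rw [← sq_abs]
    nlinarith
  exact h1.trans (Finset.single_le_sum (f := fun i => y i ^ 2) (fun i _ => sq_nonneg _)
    (Finset.mem_univ i))

theorem pd_nq (i : Fin 3) (y : V) : pd i nq y = 2 * y i := by
  unfold pd nq
  have h1 : ∀ j ∈ (Finset.univ : Finset (Fin 3)), HasFDerivAt (fun y : V => y j ^ 2)
      ((2 * y j) • (ContinuousLinearMap.proj j : V →L[ℝ] ℝ)) y := by
    intro j _
    have h2 : HasFDerivAt (fun y : V => y j) (ContinuousLinearMap.proj j : V →L[ℝ] ℝ) y :=
      hasFDerivAt_apply j y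
    have := h2.pow 2
    refine this.congr_fderiv ?_
    ext z
    simp
  have h := HasFDerivAt.fun_sum h1
  rw [h.fderiv]
  simp [Pi.single_apply]

/-- The profile. -/
noncomputable def prf (t : ℝ) : ℝ := Real.smoothTransition (1 - t)

/-- Minus the integral of the profile. -/
noncomputable def prg (t : ℝ) : ℝ := ∫ s in (1 : ℝ)..t, prf s

theorem prf_smooth : ContDiff ℝ ∞ prf := by
  unfold prf
  exact Real.smoothTransition.contDiff.comp (contDiff_const.sub contDiff_id)

theorem prf_zero {t : ℝ} (ht : 1 ≤ t) : prf t = 0 :=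
  Real.smoothTransition.zero_of_nonpos (by linarith)

theorem prg_deriv (t : ℝ) : HasDerivAt prg (prf t) t :=
  intervalIntegral.integral_hasDerivAt_right (prf_smooth.continuous.intervalIntegrable _ _)
    (prf_smooth.continuous.stronglyMeasurableAtFilter _ _) prf_smooth.continuous.continuousAt

theorem prg_smooth : ContDiff ℝ ∞ prg := by
  rw [contDiff_infty_iff_deriv]
  refine ⟨fun t => (prg_deriv t).differentiableAt, ?_⟩
  have : deriv prg = prf := funext fun t => (prg_deriv t).deriv
  rw [this]
  exact prf_smooth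

theorem prg_zero {t : ℝ} (ht : 1 ≤ t) : prg t = 0 := by
  unfold prg
  have : ∫ s in (1 : ℝ)..t, prf s = ∫ s in (1 : ℝ)..t, (0 : ℝ) := by
    apply intervalIntegral.integral_congr
    intro s hs
    rw [uIcc_of_le ht] at hs
    exact prf_zero hs.1
  rw [this]
  simp

/-- The kernel. -/
noncomputable def kK (y : V) : ℝ := prf (nq y)

/-- The potential of the kernel. -/
noncomputable def kG (y : V) : ℝ := 1 / 2 * prg (nq y)

theorem kn_K : Kn kK where
  smooth := prf_smooth.comp nq_smooth
  zero := fun y hy => prf_zero (nq_out hy)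

theorem kn_G : Kn kG where
  smooth := contDiff_const.mul (prg_smooth.comp nq_smooth)
  zero := fun y hy => by
    unfold kG
    rw [prg_zero (nq_out hy), mul_zero]

theorem pd_G (i : Fin 3) (y : V) : pd i kG y = y i * kK y := by
  unfold kG pd
  have h1 : HasFDerivAt nq (fderiv ℝ nq y) y := ((nq_smooth.differentiable (by norm_cast)) y).hasFDerivAt
  have h2 : HasFDerivAt (fun y => prg (nq y)) (prf (nq y) • fderiv ℝ nq y) y :=
    (prg_deriv (nq y)).comp_hasFDerivAt y h1
  have h3 := h2.const_mul (1 / 2)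
  rw [h3.fderiv]
  have h4 := pd_nq i y
  unfold pd at h4
  simp only [smul_apply, smul_eq_mul, h4]
  unfold kK
  ring

/-- The mass of the kernel. -/
noncomputable def c0 : ℝ := ∫ y in Qb, kK y

theorem kK_nonneg (y : V) : 0 ≤ kK y := Real.smoothTransition.nonneg _

theorem c0_pos : 0 < c0 := by
  unfold c0
  have e : ∫ y in Qb, kK y = ∫ y, kK y :=
    setIntegral_eq_integral_of_forall_compl_eq_zero fun y hy => kn_K.zero y hy
  rw [e]
  apply kn_K.cont.integral_pos_of_hasCompactSupport_nonneg_nonzero kn_K.compact kK_nonneg (x := 0)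
  unfold kK prf nq
  simp

open Pool.Agent.H631R3 in
theorem cv_deriv {f : V → ℝ} (hf : ContDiff ℝ ∞ f) (x : V) (r : ℝ) :
    HasDerivAt (fun r => cv kK f r x) (∑ i, cv (pd i kG) (pd i f) r x) r := by
  set k : V × ℝ → ℝ := fun q => kK q.1 * f (x + q.2 • q.1) with hk
  have sk : ContDiff ℝ ∞ k :=
    (kn_K.smooth.comp contDiff_fst).mul (hf.comp (contDiff_const.add
      (contDiff_snd.smul contDiff_fst)))
  have h1 := hasFDerivAt_PI (μ := (volume : Measure V)) Qb_compact isOpen_univ isOpen_univ
    (subset_univ _) (k := k) (W := univ) (U := univ) (sk.of_le (by norm_cast)).contDiffOn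
    (mem_univ r)
  have h2 := fderiv_PI_apply (μ := (volume : Measure V)) Qb_compact isOpen_univ isOpen_univ
    (subset_univ _) (k := k) (W := univ) (U := univ) (sk.of_le (by norm_cast)).contDiffOn
    (mem_univ r) 1
  have h3 : HasDerivAt (fun r => cv kK f r x)
      (∫ s in Qb, fderiv ℝ k (s, r) ((0 : V), (1 : ℝ))) r := by
    have h4 := h1.hasDerivAt
    rw [← h1.fderiv, h2] at h4
    exact h4
  refine h3.congr_deriv ?_
  have h5 : ∀ s, fderiv ℝ k (s, r) ((0 : V), (1 : ℝ))
      = ∑ i, pd i kG s * pd i f (x + r • s) := by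
    intro s
    have a1 : HasFDerivAt k (fderiv ℝ k (s, r)) (s, r) :=
      ((sk.differentiable (by norm_cast)) _).hasFDerivAt
    have a2 : HasDerivAt (fun t : ℝ => ((s, t) : V × ℝ)) ((0 : V), (1 : ℝ)) r :=
      (hasDerivAt_const r s).prodMk (hasDerivAt_id r)
    have a3 : HasDerivAt (fun t => k (s, t)) (fderiv ℝ k (s, r) ((0 : V), (1 : ℝ))) r :=
      a1.comp_hasDerivAt r a2
    have b1 : HasFDerivAt f (fderiv ℝ f (x + r • s)) (x + r • s) :=
      ((hf.differentiable (by norm_cast)) _).hasFDerivAt
    have b2 : HasDerivAt (fun t : ℝ => x + t • s) s r := by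
      have := ((hasDerivAt_id r).smul_const s).const_add x
      simpa using this
    have b3 : HasDerivAt (fun t => kK s * f (x + t • s)) (kK s * fderiv ℝ f (x + r • s) s) r :=
      (b1.comp_hasDerivAt r b2).const_mul _
    have e := a3.unique b3
    rw [e]
    have h6 : fderiv ℝ f (x + r • s) s = ∑ i, s i * pd i f (x + r • s) := by
      have h7 : ∀ (L : V →L[ℝ] ℝ) (z : V), L z = ∑ i, z i * L (Pi.single i 1) := by
        intro L z
        have : z = ∑ i, z i • (Pi.single i (1 : ℝ) : V) := by
          funext j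
          simp [Finset.sum_apply, Pi.single_apply]
        conv_lhs => rw [this]
        rw [map_sum]
        refine Finset.sum_congr rfl fun i _ => ?_
        rw [map_smul]
        rfl
      exact h7 _ s
    rw [h6, Finset.mul_sum]
    refine Finset.sum_congr rfl fun i _ => ?_
    rw [pd_G]
    ring
  simp_rw [h5]
  rw [integral_finsetSum]
  · rfl
  · intro i _
    have hc : Continuous fun y => pd i kG y * pd i f (x + r • y) := by
      refine (kn_G.pd i).cont.mul ?_
      have : Continuous (pd i f) :=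
        (hf.continuous_fderiv (by norm_cast)).clm_apply continuous_const
      exact this.comp (continuous_const.add (continuous_id.const_smul r))
    exact hc.continuousOn.integrableOn_compact Qb_compact

theorem cv_cont {A f : V → ℝ} (hA : Continuous A) (hf : Continuous f) :
    Continuous fun z : V × ℝ => cv A f z.2 z.1 := by
  unfold cv
  apply continuous_parametric_integral_of_continuous _ Qb_compact
  exact (hA.comp continuous_snd).mul (hf.comp (by fun_prop))

/-- The representation. -/
theorem rep {p : V → ℝ} {h : Fin 3 → V → ℝ} (hp : SP p) (hh : ∀ i, SP (h i))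
    (hl : ∀ x, -lap p x = ∑ i, pd i (h i) x) (x : V) :
    c0 * p x = cv kK p 1 x + ∫ r in (0 : ℝ)..1, ∑ i, cv (pd i kG) (h i) r x := by
  have e1 : ∀ r, ∑ i, cv (pd i kG) (pd i p) r x = -∑ i, cv (pd i kG) (h i) r x := by
    intro r
    have a1 : ∀ i, cv (pd i kG) (pd i p) r x = -(r * cv kG (pd i (pd i p)) r x) := fun i =>
      cv_pd kn_G (hp.pd i).smooth i r x
    have a2 : ∀ i, cv (pd i kG) (h i) r x = -(r * cv kG (pd i (h i)) r x) := fun i =>
      cv_pd kn_G (hh i).smooth i r x
    simp_rw [a1, a2]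
    rw [Finset.sum_neg_distrib, Finset.sum_neg_distrib, ← Finset.mul_sum, ← Finset.mul_sum,
      ← cv_sum kn_G (fun i _ => ((hp.pd i).pd i).cont), ← cv_sum kn_G (fun i _ => ((hh i).pd i).cont)]
    have e : (fun y => ∑ i, pd i (h i) y) = fun y => -(∑ i, pd i (pd i p) y) := by
      funext y
      exact (hl y).symm
    rw [e, cv_neg]
    ring
  have h1 : ∫ r in (0 : ℝ)..1, ∑ i, cv (pd i kG) (pd i p) r x = cv kK p 1 x - cv kK p 0 x := by
    apply intervalIntegral.integral_eq_sub_of_hasDerivAt (f := fun r => cv kK p r x)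
    · intro r _
      exact cv_deriv hp.smooth x r
    · apply Continuous.intervalIntegrable
      apply continuous_finsetSum
      intro i _
      exact (cv_cont (kn_G.pd i).cont (hp.pd i).cont).comp (by fun_prop : Continuous fun r : ℝ => (x, r))
  simp_rw [e1] at h1
  rw [intervalIntegral.integral_neg] at h1
  have h2 : cv kK p 0 x = c0 * p x := by
    unfold cv c0
    rw [← integral_mul_const]
    congr 1
    funext y
    simp
  rw [h2] at h1
  linarith

end Pool.Agent.H4LA
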