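import Pool.Agent.H4LA.ArK
import Pool.Agent.H4LA.IngK
import Pool.Agent.H4LA.Key2
import Pool.Agent.H4LA.KeyK
import Pool.Agent.H4LA.PrsK

/-!
The inequality for the integral of a power of the slice energy: the conclusion.
-/

set_option autoImplicit false
set_option linter.unusedVariables false

open MeasureTheory Set Function Filter Topology
open scoped ENNReal ContDiff

namespace Pool.Agent.H4LA

open H459R3.NS

/-- The weighted sums. -/
theorem Z_bounds {v : Fin 3 → V → ℝ} (hv : ∀ i, SP (v i)) {m : ℕ} (hm : 2 ≤ m) {E : ℝ}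
    (hE0 : 0 ≤ E) (hE : esq v ≤ E) {k : V → ℝ} (ck : CP k) (k0 : ∀ x, 0 ≤ k x) {p L Kp : ℝ}
    (hp : 1 ≤ p) (hL : 0 < L) (hK : ∫ x in cube, k x ^ p ≤ Kp) (hKp : 0 ≤ Kp) {Y X2 S BU Z : ℝ}
    (hY : Y = ∫ x in cube, Hz (vsq (ww v)) x ^ (2 * m))
    (hX2 : X2 = ∫ x in cube, Hz (vsq (ww v)) x ^ (2 * m - 2) * pd 2 (Hz (vsq (ww v))) x ^ 2)
    (hS : S = Y + 2 * (√Y * √(m ^ 2 * X2)))
    (hBU : BU = 1 + 2 * 4 ^ (2 * m) * (1 + E ^ (2 * m)))
    (hZ : Z = BU * (L * (1 + Y) + (L ^ (1 - p) * Kp) * (1 + S))) :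
    (∫ x in cube, k x * (1 + Hz (vsq (ww v)) x ^ (2 * m)) ≤ Z) ∧
    ∀ ρ ∈ Ioc (0 : ℝ) 1, ∫ x in cube, k x * (Hz (vsq (ww v)) x ^ (2 * m)
      + BB 2 ρ (fun z => Hz (vsq v) z ^ (2 * m)) x) ≤ Z := by
  have hw := ww_sp hv
  set e : V → ℝ := Hz (vsq (ww v)) with he
  have se : SP e := hz_sp (vsq_sp hw)
  have ie : I01 e := i01_hz _
  have ce : CP e := cp_of se
  have e0 : ∀ x, 0 ≤ e x := Hz_nonneg (vsq_nonneg _)
  set U : V → ℝ := Hz (vsq v) with hU
  have cU : CP U := (cp_of (vsq_sp hv)).hz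
  have U0 : ∀ x, 0 ≤ U x := Hz_nonneg (vsq_nonneg _)
  have hfin := cube_finite
  have c1' : ∫ x in cube, (1 : ℝ) = 1 := by
    rw [setIntegral_const, Measure.real, volume_cube]
    simp
  have hY0 : 0 ≤ Y := by
    rw [hY]
    exact integral_nonneg fun x => pow_nonneg (e0 x) _
  have hX20 : 0 ≤ X2 := by
    rw [hX2]
    exact integral_nonneg fun x => mul_nonneg (pow_nonneg (e0 x) _) (sq_nonneg _)
  have hS0 : 0 ≤ S := by
    rw [hS]
    positivity
  have hBU1 : 1 ≤ BU := by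
    have : 0 ≤ 2 * 4 ^ (2 * m) * (1 + E ^ (2 * m)) := by positivity
    rw [hBU]
    linarith
  set Λ : ℝ := L ^ (1 - p) * Kp with hΛ
  have hΛ0 : 0 ≤ Λ := by positivity
  have sup_e : ∀ x, e x ^ (2 * m) ≤ S := by
    intro x
    have h1 := sup_i01 (SP.powr se m) (ie.powr m) x
    have e2 : ∀ x, (e x ^ m) ^ 2 = e x ^ (2 * m) := by
      intro x
      rw [← pow_mul, mul_comm]
    simp only [e2] at h1
    have e3 := int_pd_pow hv hm
    rw [← he, ← hX2] at e3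
    rw [e3, ← hY] at h1
    rw [hS]
    exact h1
  have hUe : ∀ z, U z ^ (2 * m) ≤ 4 ^ (2 * m) * (e z ^ (2 * m) + E ^ (2 * m)) := by
    intro z
    have h1 : U z ≤ 2 * (e z + E) := by
      have := Hz_vsq_le_ww hv z
      simp only [hU, he]
      linarith
    have h2 := pow_le_pow_left₀ (U0 z) h1 (2 * m)
    rw [mul_pow] at h2
    have h3 := add_pow_le' (e0 z) hE0 (2 * m)
    have h4 := mul_le_mul_of_nonneg_left h3 (by positivity : (0 : ℝ) ≤ 2 ^ (2 * m))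
    have h5 : (4 : ℝ) ^ (2 * m) = 2 ^ (2 * m) * 2 ^ (2 * m) := by
      rw [← mul_pow]
      norm_num
    rw [h5]
    linarith
  have hIU : ∫ x in cube, U x ^ (2 * m) ≤ 4 ^ (2 * m) * (Y + E ^ (2 * m)) := by
    rw [hY]
    exact int_vsq_pow_le hv hE (2 * m)
  have hZ2' : L * (1 + Y) + Λ * (1 + S) ≤ Z := by
    have : 0 ≤ L * (1 + Y) + Λ * (1 + S) := by positivity
    rw [hZ]
    exact le_mul_of_one_le_left this hBU1
  have hI1 : ∫ x in cube, (1 + e x ^ (2 * m)) = 1 + Y := by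
    rw [integral_add (integrable_const 1) (ce.pow _).int, c1', hY]
  have b4 : (0 : ℝ) ≤ 4 ^ (2 * m) := by positivity
  have bE : 0 ≤ E ^ (2 * m) := by positivity
  have eB : ∀ s : ℝ, BU * (1 + s) = (s + 2 * (4 ^ (2 * m) * (s + E ^ (2 * m))))
      + (1 + 2 * 4 ^ (2 * m) + 2 * (4 ^ (2 * m) * (E ^ (2 * m) * s))) := by
    intro s
    rw [hBU]
    ring
  refine ⟨?_, ?_⟩
  · refine le_trans ?_ hZ2'
    exact interp ck k0 ((CP.const 1).add (ce.pow (2 * m)))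
      (fun x => by have := pow_nonneg (e0 x) (2 * m); linarith) (S := 1 + S) (I := 1 + Y)
      hp hL (fun x => by linarith [sup_e x]) hK (le_of_eq hI1)
  · intro ρ hρ
    have cUm : CP fun z => U z ^ (2 * m) := cU.pow _
    have cBU : CP (BB 2 ρ (fun z => U z ^ (2 * m))) := BB_cp cUm 2 ρ
    have supU : ∀ x, e x ^ (2 * m) + BB 2 ρ (fun z => U z ^ (2 * m)) x ≤ BU * (1 + S) := by
      intro x
      have h1 : BB 2 ρ (fun z => U z ^ (2 * m)) x ≤ BB 2 ρ (fun _ => 4 ^ (2 * m) * (S + E ^ (2 * m))) x := by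
        refine BB_mono cUm.cont continuous_const (fun z => ?_) 2 ρ x
        refine (hUe z).trans (mul_le_mul_of_nonneg_left ?_ b4)
        linarith [sup_e z]
      rw [BB_const] at h1
      have h2 := sup_e x
      have h3 : 0 ≤ 1 + 2 * 4 ^ (2 * m) + 2 * (4 ^ (2 * m) * (E ^ (2 * m) * S)) := by positivity
      rw [eB]
      linarith
    have intU : ∫ x in cube, (e x ^ (2 * m) + BB 2 ρ (fun z => U z ^ (2 * m)) x)
        ≤ BU * (1 + Y) := by
      rw [integral_add (ce.pow _).int cBU.int, int_BB cUm, ← hY]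
      have h3 : 0 ≤ 1 + 2 * 4 ^ (2 * m) + 2 * (4 ^ (2 * m) * (E ^ (2 * m) * Y)) := by positivity
      rw [eB]
      linarith
    have := interp ck k0 ((ce.pow (2 * m)).add cBU)
      (fun x => add_nonneg (pow_nonneg (e0 x) _) (BB_nonneg (fun z => pow_nonneg (U0 z) _) 2 ρ x))
      hp hL supU hK intU
    refine this.trans (le_of_eq ?_)
    rw [hZ, hΛ]
    ring

theorem key_K {ν : ℝ} (hν : 0 < ν) {a r : ℝ} (h : Ex a r) {m : ℕ} (hm : 2 ≤ m) {E : ℝ}
    (hE0 : 0 ≤ E) : ∃ C, 0 ≤ C ∧ ∀ M : ℝ, 1 ≤ M →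
    ∀ (v : Fin 3 → V → ℝ) (p : V → ℝ) (F : Fin 3 → V → ℝ), (∀ i, SP (v i)) →
    (∀ x, ∑ i, pd i (v i) x = 0) → SP p → (∀ x, -lap p x = ∑ i, pd i (conv v i) x) →
    esq v ≤ E → (∀ i x, F i x = ν * lap (v i) x - conv v i x - pd i p x) →
    (∫ x in cube, NR r (Gb v) x ^ (a / r)) ≤ M ^ a →
    2 * ((2 * m : ℕ) : ℝ) * ∫ x in cube, Hz (vsq (ww v)) x ^ (2 * m - 1)
        * ∑ i, ww v i x * sb F i x
      ≤ C * ((1 + ysq v + M ^ s0 a r * (1 + Real.log (1 + ysq v) ^ 2) ^ bt a r)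
        * (1 + ∫ x in cube, Hz (vsq (ww v)) x ^ (2 * m))) := by
  have hr := h.hr
  have ha := h.ha
  obtain ⟨K, hK1, hKm⟩ := mult_vec hr
  obtain ⟨CP', hCP0, hCP⟩ := press_K h hm hE0
  have hr2 : 0 < r - 2 := by linarith
  have hr0 : 0 < r := by linarith
  have ha0 : 0 < a := by linarith
  have hK0 : 0 ≤ K := by linarith
  set n : ℝ := 2 * (m : ℝ) - 1 with hn
  have hm0 : (2 : ℝ) ≤ m := by exact_mod_cast hm
  have hn0 : 1 ≤ n := by linarith
  have hn00 : 0 ≤ n := by linarith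
  set B : ℝ := 3 / 4 * (n / ν * K) + 1 / 2 * K + 3 * (n / ν) * CP' with hB
  have hB0 : 0 ≤ B := by positivity
  set c0 : ℝ := 1 / (1 + 4 / ν * B + 24 / ν ^ 2 * CP') with hc0
  have hden : 0 < 1 + 4 / ν * B + 24 / ν ^ 2 * CP' := by positivity
  have hc00 : 0 < c0 := by positivity
  have hc01 : c0 ≤ 1 := by
    rw [hc0, div_le_one hden]
    have : 0 ≤ 4 / ν * B + 24 / ν ^ 2 * CP' := by positivity
    linarith
  have hc1 : c0 * (1 + 4 / ν * B + 24 / ν ^ 2 * CP') = 1 := by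
    rw [hc0]
    field_simp
  have a0 : 0 ≤ c0 * (4 / ν * B) := by positivity
  have a0' : 0 ≤ c0 * (24 / ν ^ 2 * CP') := by positivity
  have hcB : c0 * B ≤ ν / 4 := by
    have h1 : c0 * (4 / ν * B) ≤ 1 := by linarith
    have h2 : c0 * (4 / ν * B) = 4 * (c0 * B) / ν := by ring
    rw [h2, div_le_one hν] at h1
    linarith
  have hcP : 3 * (n / ν) * CP' * c0 ≤ ν / 8 * n := by
    have h1 : c0 * (24 / ν ^ 2 * CP') ≤ 1 := by linarith
    have h2 : 3 * (n / ν) * CP' * c0 = (ν / 8 * n) * (c0 * (24 / ν ^ 2 * CP')) := by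
      field_simp
      ring
    rw [h2]
    have h3 : 0 ≤ ν / 8 * n := by positivity
    exact mul_le_of_le_one_right h3 h1
  -- the constants for the sums
  set BU : ℝ := 1 + 2 * 4 ^ (2 * m) * (1 + E ^ (2 * m)) with hBU
  have hBU1 : 1 ≤ BU := by
    have : 0 ≤ 2 * 4 ^ (2 * m) * (1 + E ^ (2 * m)) := by positivity
    linarith
  have hBU0 : 0 ≤ BU := by linarith
  set c5 : ℝ := n / ν * (3 / 4 * K) + 1 / 2 * K + 1 / 2 * (K * E) with hc5
  have hc50 : 0 ≤ c5 := by positivity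
  set D1 : ℝ := (c5 + 3 * (n / ν) * CP') * BU with hD1
  have hD10 : 0 ≤ D1 := by positivity
  set κ : ℝ := (c0⁻¹ ^ (a / r)) ^ (2 / qq a r) with hκ
  have hκ0 : 0 ≤ κ := by positivity
  set D2 : ℝ := (2 * m * D1) ^ 2 / (4 * (ν / 8 * n)) with hD2
  have hD20 : 0 ≤ D2 := by positivity
  set D : ℝ := n / ν * (3 / 4 * K + 9 / 4 * (2 * E + 1))
    + 21 * n ^ 2 / ν ^ 3 * (2 * E ^ 2 + 8 * E) + 1 / 2 * K + 3 * (n / ν) * CP' * 2
    + (2 + 1 / 2 * (K * (E + 1))) + (2 * D1 + D2) * κ with hD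
  have hD0 : 0 ≤ D := by positivity
  refine ⟨2 * ((2 * m : ℕ) : ℝ) * D, by positivity, ?_⟩
  intro M hM1 v p F hv hdiv hp hl hE hF hM
  -- subtraction of the mean
  set c : ℝ := ∫ x in cube, p x with hc
  set p' : V → ℝ := fun x => p x - c with hp'
  have sp' : SP p' := hp.sub (SP.constf c)
  have dp' : ∀ i, pd i p' = pd i p := by
    intro i
    funext x
    rw [hp', pd_subf hp (SP.constf c)]
    have : pd i (fun _ : V => c) x = 0 := by
      unfold pd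
      simp
    rw [this, sub_zero]
  have lp' : ∀ x, -lap p' x = ∑ i, pd i (conv v i) x := by
    intro x
    rw [← hl x]
    unfold lap
    simp_rw [dp']
  have hfin := cube_finite
  have c1' : ∫ x in cube, (1 : ℝ) = 1 := by
    rw [setIntegral_const, Measure.real, volume_cube]
    simp
  have zp' : ∫ x in cube, p' x = 0 := by
    rw [hp', integral_sub hp.int (integrable_const c)]
    have : ∫ x in cube, c = c := by
      rw [setIntegral_const, Measure.real, volume_cube]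
      simp
    rw [this]
    linarith
  have hF' : ∀ i x, F i x = ν * lap (v i) x - conv v i x - pd i p' x := by
    intro i x
    rw [hF, dp']
  have hw := ww_sp hv
  set G : V → ℝ := Gb v with hG
  have cG : CP G := Gb_cp hv
  have G0 : ∀ x, 0 ≤ G x := Gb_nonneg v
  set e : V → ℝ := Hz (vsq (ww v)) with he
  have se : SP e := hz_sp (vsq_sp hw)
  have ie : I01 e := i01_hz _
  have ce : CP e := cp_of se
  have e0 : ∀ x, 0 ≤ e x := Hz_nonneg (vsq_nonneg _)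
  set y : ℝ := ysq v with hy
  have hy0 : 0 ≤ y := ysq_nonneg v
  have hη0 : 0 ≤ hsq v := hsq_nonneg v
  have hηy : hsq v ≤ y := hsq_le_ysq v
  have hEs := esq_nonneg v
  set Y : ℝ := ∫ x in cube, e x ^ (2 * m) with hY
  have hY0 : 0 ≤ Y := integral_nonneg fun x => pow_nonneg (e0 x) _
  set lg : ℝ := Real.log (1 + y) ^ 2 with hlg
  have hlg0 : 0 ≤ lg := sq_nonneg _
  set l : ℝ := 1 + lg with hl'
  have hl1 : 1 ≤ l := by linarith
  have hl0 : 0 < l := by linarith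
  set δ : ℝ := c0 / l with hδ
  have hδ0 : 0 < δ := by positivity
  have hδc : δ ≤ c0 := div_le_self hc00.le hl1
  have hδ1 : δ ≤ 1 := hδc.trans hc01
  have hδl : l * δ = c0 := by
    rw [hδ]
    field_simp
  set k : V → ℝ := kk r δ G with hk
  have ck : CP k := kk_cp hr cG
  have k1 : ∀ x, 1 ≤ k x := kk_one hr hδ0 hδ1 G0
  have k0 : ∀ x, 0 ≤ k x := fun x => by linarith [k1 x]
  set X1 : ℝ := ∫ x in cube, e x ^ (2 * m - 1) * Hz (ga (ww v)) x with hX1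
  have hX10 : 0 ≤ X1 :=
    integral_nonneg fun x => mul_nonneg (pow_nonneg (e0 x) _) (Hz_nonneg ga_nonneg x)
  set X2 : ℝ := ∫ x in cube, e x ^ (2 * m - 2) * pd 2 e x ^ 2 with hX2
  have hX20 : 0 ≤ X2 := integral_nonneg fun x => mul_nonneg (pow_nonneg (e0 x) _) (sq_nonneg _)
  -- the level
  set L : ℝ := lam a r δ l M with hL
  have hL1 : 1 ≤ L := lam_one h hδ0 hδ1 hl1 hM1
  have hL0 : 0 < L := by linarith
  set Λ : ℝ := L ^ (1 - pp a r) * (δ⁻¹ ^ (a / r) * M ^ a) with hΛ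
  have hM0 : 0 < M := by linarith
  have hΛ0 : 0 ≤ Λ := by positivity
  have hlΛ : l * Λ = √L := lam_sq h hδ0 hδ1 hl1 hM1
  set R : ℝ := M ^ s0 a r * l ^ bt a r with hR
  have hlL : l * L = κ * R := lam_eq h hc00 hl1 hM1
  have hR0 : 0 ≤ R := by positivity
  have hkint := kk_int h hδ0 cG G0 hM
  -- the supremum
  set S : ℝ := Y + 2 * (√Y * √(m ^ 2 * X2)) with hS
  have hS0 : 0 ≤ S := by positivity
  set Z : ℝ := BU * (L * (1 + Y) + Λ * (1 + S)) with hZ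
  obtain ⟨hZ2, hZ1⟩ := Z_bounds hv hm hE0 hE ck k0 h.pp_one hL0 hkint (by positivity) hY hX2 hS
    hBU hZ
  have hm1 : ∀ x z, Hz (fun y => fz G x y ^ 2 * vsq (ww v) y) z
      ≤ K * (δ * (Hz (vsq (ww v)) z + Hz (ga (ww v)) z) + k x * Hz (vsq (ww v)) z) := by
    intro x z
    have := hKm (fz G x) (fz_cp cG x) (fz_ind G x) (fz_nonneg G0 x) (Nx r G x) (Nx_one hr0 G0 x)
      (int_fz hr0 cG G0 x) δ hδ0 hδ1 (ww v) hw z _ _ le_rfl le_rfl
    rwa [Nx_pow hr0 G0] at this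
  have hm2 : ∀ x z, Hz (fun y => fz G x y ^ 2 * vsq v y) z
      ≤ K * (δ * (Hz (vsq v) z + Hz (ga v) z) + k x * Hz (vsq v) z) := by
    intro x z
    have := hKm (fz G x) (fz_cp cG x) (fz_ind G x) (fz_nonneg G0 x) (Nx r G x) (Nx_one hr0 G0 x)
      (int_fz hr0 cG G0 x) δ hδ0 hδ1 v hv z _ _ le_rfl le_rfl
    rwa [Nx_pow hr0 G0] at this
  set μ : ℝ := E + 2 * (√E * √(hsq v)) with hμ
  have hμ1 : esq v + 2 * (√(esq v) * √(hsq v)) ≤ μ := by
    have := mul_le_mul_of_nonneg_right (Real.sqrt_le_sqrt hE) (Real.sqrt_nonneg (hsq v))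
    rw [hμ]
    linarith
  have h2 := slice_K hv hdiv hν sp' hF' cG G0 (fun x => le_rfl) hm hμ1 ck hK0 hδ0.le k0 hm1 hm2
  have h1 := hCP G cG G0 M hM1 hM δ hδ0 hδ1 v p' hv hdiv sp' lp' zp' hE Z hZ1 hZ2
  rw [← he, ← hn] at h2
  rw [← he, ← hX1, ← hX2, ← hy, ← hY, ← hlg, ← hl'] at h1
  rw [← hX1, ← hX2, ← hY, ← hy] at h2
  set P : ℝ := ∫ x in cube, e x ^ (2 * m - 2) * Hz (fun y => G y * |p' y|) x ^ 2 with hP
  set KI : ℝ := ∫ x in cube, k x * (1 + e x ^ (2 * m)) with hKI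
  have hμK : μ ≤ (2 * E + 1) * (1 + y) := mu_le hE0 hη0 hηy
  have hμ2 : μ ^ 2 ≤ (2 * E ^ 2 + 8 * E) * (1 + y) := mu_sq_le hE0 hη0 hηy
  have hlM : l * M ^ 2 ≤ R := by
    have q1 : M ^ 2 ≤ M ^ s0 a r := by
      rw [← Real.rpow_natCast]
      apply Real.rpow_le_rpow_of_exponent_le hM1
      push_cast
      exact h.s0_two
    have q2 : l ≤ l ^ bt a r := by
      have q3 : l = l ^ (1 : ℝ) := (Real.rpow_one l).symm
      conv_lhs => rw [q3]
      apply Real.rpow_le_rpow_of_exponent_le hl1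
      have q4 := h.qq_one
      have q5 : 0 ≤ 2 / qq a r + 2 * a / (r * qq a r) := by positivity
      unfold bt
      linarith only [q5]
    have q5 := mul_le_mul q2 q1 (by positivity) (by positivity : 0 ≤ l ^ bt a r)
    rw [hR]
    linarith only [q5]
  have hKI0 : 0 ≤ KI := integral_nonneg fun x =>
    mul_nonneg (k0 x) (by have := pow_nonneg (e0 x) (2 * m); linarith only [this])
  have f6 := arith_Z (κ := κ) (R := R) (Q := 1 + y + R) (S := S) (Z := Z) (KI := KI) hν hn0 hK0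
    hCP0 hBU0 hc5 hE0 hE hD1 hκ0 hD2 (by linarith only [hm0]) hY0 hX20 hl1 hL1 hΛ0 hlΛ hlL
    (by linarith only [hy0]) hS hZ hZ2 hKI0
  have h5 := arith_K (M := M) (Z := Z) (Q := 1 + y + R) hν hn0 hK0 hCP0 hc00 hc01 hB hcB hcP hE0
    hE hEs hηy hy0 hY0 hδ0 hδc hδl hX10 hX20 rfl hR0 hlM h1 h2 f6 hμK hμ2
  rw [← hD] at h5
  have h6 := mul_le_mul_of_nonneg_left h5 (by positivity : (0 : ℝ) ≤ 2 * ((2 * m : ℕ) : ℝ))
  linarith only [h6]

end Pool.Agent.H4LA
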