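import Pool.Agent.H459R3.NS.Defs

/-!
The criterion: oscillation of the vertical component along vertical lines.
-/

set_option autoImplicit false
set_option linter.unusedVariables false

open MeasureTheory Set Function Filter Topology
open scoped ENNReal ContDiff

namespace Pool.Agent.H4LA

open H459R3.NS

variable {ν T : ℝ} {u : ℝ → V → V} {p : ℝ → V → ℝ}

/-! ### elementary inequalities -/

theorem log_sq_le {L θ : ℝ} (hL : 1 ≤ L) (hθ : 0 < θ) :
    1 + Real.log L ^ 2 ≤ (1 + 4 / θ ^ 2) * L ^ θ := by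
  have hL0 : 0 < L := by linarith
  have h1 : Real.log L ≤ L ^ (θ / 2) / (θ / 2) := Real.log_le_rpow_div hL0.le (by positivity)
  have h2 : 0 ≤ Real.log L := Real.log_nonneg hL
  have h3 := pow_le_pow_left₀ h2 h1 2
  have h4 : (L ^ (θ / 2) / (θ / 2)) ^ 2 = 4 / θ ^ 2 * L ^ θ := by
    have : (L ^ (θ / 2)) ^ 2 = L ^ θ := by
      rw [← Real.rpow_natCast, ← Real.rpow_mul hL0.le]
      congr 1
      push_cast
      ring
    rw [div_pow, this]
    field_simp
    ring
  rw [h4] at h3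
  have h5 : 1 ≤ L ^ θ := Real.one_le_rpow hL hθ.le
  linarith

theorem root_le {a c y θ : ℝ} {m : ℕ} (hm : 1 ≤ m) (ha : 0 ≤ a) (hc : 1 ≤ c) (hy : 0 ≤ y)
    (hθ : 1 / (4 * (m : ℝ)) ≤ θ) (h : a ^ (2 * m) ≤ c * √(1 + y)) : a ≤ c * (1 + y) ^ θ := by
  have hm0 : (0 : ℝ) < m := by exact_mod_cast hm
  set b : ℝ := c * (1 + y) ^ (1 / (4 * (m : ℝ))) with hb
  have hy1 : 1 ≤ 1 + y := by linarith
  have hb0 : 0 ≤ b := by positivity
  have h1 : c * √(1 + y) ≤ b ^ (2 * m) := by
    rw [hb, mul_pow]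
    have e1 : ((1 + y) ^ (1 / (4 * (m : ℝ)))) ^ (2 * m) = √(1 + y) := by
      rw [← Real.rpow_natCast, ← Real.rpow_mul (by linarith), Real.sqrt_eq_rpow]
      congr 1
      push_cast
      field_simp
      norm_num
    rw [e1]
    refine mul_le_mul_of_nonneg_right ?_ (Real.sqrt_nonneg _)
    calc c = c ^ 1 := (pow_one c).symm
      _ ≤ c ^ (2 * m) := pow_le_pow_right₀ hc (by omega)
  have h2 : a ≤ b := by
    by_contra hcon
    push Not at hcon
    have := pow_lt_pow_left₀ hcon hb0 (by omega : 2 * m ≠ 0)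
    linarith
  refine h2.trans ?_
  rw [hb]
  refine mul_le_mul_of_nonneg_left ?_ (by linarith)
  exact Real.rpow_le_rpow_of_exponent_le hy1 hθ

end Pool.Agent.H4LA
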