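import Pool.Agent.H4LA.EtaK
import Pool.Agent.H4LA.Gen4
import Pool.Agent.H4LA.KeyK2

/-!
The criterion in mixed norms, the first case.
-/

set_option autoImplicit false
set_option linter.unusedVariables false

open MeasureTheory Set Function Filter Topology
open scoped ENNReal ContDiff

namespace Pool.Agent.H4LA

open H459R3.NS

variable {ν T : ℝ} {u : ℝ → V → V} {p : ℝ → V → ℝ}

/-- The criterion. -/
theorem near4 (h : IsSol ν T u p) (hν : 0 < ν) (hT : 0 < T) {a r s : ℝ} (hx : Ex a r)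
    (hs : s0 a r < s) {N : ℝ → ℝ} (N1 : ∀ t ∈ Ioo 0 T, 1 ≤ N t)
    (hN : IntegrableOn (fun t => N t ^ s) (Ioo 0 T))
    (hb : ∀ t ∈ Ioo 0 T, Mix a r (N t) (fun i y => u t y i)) :
    ∃ M, ∀ t ∈ Ico 0 T, ∀ x i, |u t x i| ≤ M := by
  set y : ℝ → ℝ := fun t => ysq (fun i y => u t y i) with hy
  set η : ℝ → ℝ := fun t => hsq (fun i y => u t y i) with hη
  set π : ℝ → ℝ := fun t => psq (fun i y => u t y i) with hπ
  set Q : ℝ → ℝ := fun t => palin (u t) with hQ
  have y0 : ∀ t, 0 ≤ y t := fun t => ysq_nonneg _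
  have η0 : ∀ t, 0 ≤ η t := fun t => hsq_nonneg _
  have π0 : ∀ t, 0 ≤ π t := fun t => psq_nonneg _
  have Q0 : ∀ t, 0 ≤ Q t := fun t => palin_nonneg _
  have cy : ContinuousOn y (Ico 0 T) := h.enstrophy_continuousOn
  set E0 : ℝ := energy (u 0) with hE0
  set D : ℝ := E0 / (2 * ν) with hD
  have hyD : ∀ t ∈ Ico 0 T, ∫ s in (0 : ℝ)..t, y s ≤ D := fun t ht => h.int_enstrophy hν ht
  have hyI := integrableOn_of_bdd cy y0 hyD hT
  have hyI' : IntegrableOn y (Ioo 0 T) := by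
    rwa [← integrableOn_Ioc_iff_integrableOn_Ioo]
  have hr2 := hx.hr
  have ha2 := hx.ha
  have hr0 : 0 < r := by linarith
  have ha0 : 0 < a := by linarith
  have hq1 := hx.qq_one
  have hq0 : 0 < qq a r := by linarith
  set c' : ℝ := s0 a r with hc'
  have hc'0 : 0 < c' := by linarith [hx.s0_two]
  have hs0 : 0 < s := hc'0.trans hs
  set σ : ℝ := c' / s with hσ
  have hσ0 : 0 < σ := by positivity
  have hσ1 : σ < 1 := (div_lt_one hs0).2 hs
  set θ : ℝ := (1 - σ) / 4 with hθ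
  have hθ0 : 0 < θ := by
    have : 0 < 1 - σ := by linarith
    positivity
  set ρ : ℝ := θ / qq a r + σ with hρ
  have hρ0 : 0 ≤ ρ := by positivity
  have hθq : θ / qq a r ≤ θ := div_le_self hθ0.le hq1
  have hθρ : θ + ρ < 1 := by
    rw [hρ]
    linarith
  have hβ0 : 0 < bt a r := by
    unfold bt
    positivity
  obtain ⟨Cv, hCv1, hCv⟩ := v2f_K hx
  have hCv0 : 0 < Cv := by linarith
  -- the frequency
  set δ : ℝ := min 1 (ν ^ 2 / 43264 / Cv) with hδ
  have hδ0 : 0 < δ := lt_min one_pos (by positivity)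
  have hδ1 : δ ≤ 1 := min_le_left _ _
  have hCδ : Cv * δ ≤ ν ^ 2 / 43264 := by
    have := mul_le_mul_of_nonneg_left (min_le_right 1 (ν ^ 2 / 43264 / Cv)) hCv0.le
    refine this.trans (le_of_eq ?_)
    field_simp
  set c3 : ℝ := (δ⁻¹ ^ (a / r)) ^ (2 / qq a r) with hc3
  have hc30 : 0 ≤ c3 := by positivity
  have N0 : ∀ t ∈ Ioo 0 T, 0 < N t := fun t ht => by linarith [N1 t ht]
  set w : ℝ → ℝ := fun t => N t ^ s + (1 + y t) with hw
  have wI : IntegrableOn w (Ioo 0 T) := hN.add ((integrableOn_const (by simp)).add hyI')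
  have w0 : ∀ t ∈ Ioo 0 T, 0 ≤ w t := fun t ht =>
    add_nonneg (Real.rpow_nonneg (N0 t ht).le _) (by linarith [y0 t])
  have hE00 : 0 ≤ E0 := energy_nonneg _
  have hspt : ∀ t ∈ Ioo 0 T, ∀ i, SP (fun y => u t y i) := fun t ht => h.sp ⟨ht.1.le, ht.2⟩
  have hdivt : ∀ t ∈ Ioo 0 T, ∀ x, ∑ i, pd i (fun y => u t y i) x = 0 := fun t ht =>
    h.divfree t ⟨ht.1.le, ht.2⟩
  refine near_gen h hν hT hθ0 hρ0 hθρ w0 wI
    (slice_boundG h hν hT hc'0 hβ0 (fun m hm E hE => key_K hν hx hm hE) hs N1 hN hb hθ0)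
    fun ε hε0 => ?_
  set κ0 : ℝ := 5408 / ν * (1 + (2 * E0 ^ 2 + 8 * E0))
      + 2 * 10816 ^ 2 / ν ^ 3 * (2 * E0 ^ 2 + 8 * E0) + 16224 / ν * Cv
      + (10816 * Cv / ν) ^ 2 / (4 * ε) with hκ0
  have hκ00 : 0 ≤ κ0 := by positivity
  set κ : ℝ := κ0 * (1 + c3) with hκ
  have hκn : 0 ≤ κ := by positivity
  -- the growth of the horizontal part
  have hrate : ∀ P, 1 ≤ P → ∀ t ∈ Ioo 0 T, 1 + y t ≤ P →
      -(2 * ν * π t) - 2 * cubh (fun i y => u t y i)
      ≤ -(ν * π t) + κ * ((1 + η t) * y t + P ^ ρ * w t) + ε * P ^ (-θ) * Q t := by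
    intro P hP t ht hyP
    have hP0 : 0 < P := by linarith
    have hN1 := N1 t ht
    have hN0 := N0 t ht
    set Kp : ℝ := δ⁻¹ ^ (a / r) * N t ^ a with hKp
    have hKp1 : 1 ≤ Kp := one_le_mul_of_one_le_of_one_le
      (Real.one_le_rpow ((one_le_inv₀ hδ0).2 hδ1) (by positivity))
      (Real.one_le_rpow hN1 ha0.le)
    have hKp0 : 0 < Kp := by linarith
    set L : ℝ := (Kp ^ 2 * P ^ θ) ^ (1 / qq a r) with hL
    have hPθ : 1 ≤ P ^ θ := Real.one_le_rpow hP hθ0.le
    have hL1 : 1 ≤ L := Real.one_le_rpow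
      (one_le_mul_of_one_le_of_one_le (one_le_pow₀ hKp1) hPθ) (by positivity)
    have hL0 : 0 < L := by linarith
    set τ : ℝ := P ^ (-θ) with hτ
    have hτ0 : 0 < τ := by positivity
    have hτ1 : τ ≤ 1 := Real.rpow_le_one_of_one_le_of_nonpos hP (by linarith)
    set Λ : ℝ := L ^ (1 - pp a r) * Kp with hΛ
    have hΛ0 : 0 ≤ Λ := by positivity
    have hLq : L ^ qq a r = Kp ^ 2 * P ^ θ := by
      rw [hL, ← Real.rpow_mul (by positivity), one_div_mul_cancel hq0.ne', Real.rpow_one]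
    have hΛ2 : Λ ^ 2 ≤ τ * L := by
      apply le_of_eq
      have e1 : Λ ^ 2 = L ^ (2 - 2 * pp a r) * Kp ^ 2 := by
        rw [hΛ, mul_pow, ← Real.rpow_natCast (L ^ (1 - pp a r)), ← Real.rpow_mul hL0.le]
        congr 2
        push_cast
        ring
      have e2 : Kp ^ 2 = τ * L ^ qq a r := by
        rw [hLq, hτ, Real.rpow_neg hP0.le]
        field_simp
      have e3 : L ^ (2 - 2 * pp a r) * L ^ qq a r = L := by
        rw [← Real.rpow_add hL0]
        have : 2 - 2 * pp a r + qq a r = 1 := by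
          unfold qq
          ring
        rw [this, Real.rpow_one]
      rw [e1, e2]
      calc L ^ (2 - 2 * pp a r) * (τ * L ^ qq a r) = τ * (L ^ (2 - 2 * pp a r) * L ^ qq a r) := by
            ring
        _ = τ * L := by rw [e3]
    have hW := fun i j => hCv (N t) hN1 δ hδ0 hδ1 (fun i y => u t y i)
      (hspt t ht) (hb t ht) L hL0 i j
    rw [← hKp, ← hΛ] at hW
    have hcu := abs_cubh_le (hspt t ht) (hdivt t ht) hW
    have h4 : qsq (fun i y => u t y i) = Q t := rfl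
    have h1 := rate3 hν (esq_nonneg _) (h.energy_le hν ⟨ht.1.le, ht.2⟩) (η0 t) (π0 t) (y0 t)
      ((isq_nonneg _).trans (hW 0 0)) hCv0.le hδ0.le hδ1 hL1 hΛ0 hτ0 hτ1 hε0
      (Q0 t) hΛ2 hCδ hcu le_rfl
    rw [← hE0, ← hκ0] at h1
    refine h1.trans ?_
    -- the product of the level and the enstrophy
    have hLy : L * y t ≤ c3 * (P ^ ρ * w t) := by
      have e1 : L = c3 * (P ^ (θ / qq a r) * N t ^ c') := by
        rw [hL, hKp, mul_pow, Real.mul_rpow (by positivity) (by positivity),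
          Real.mul_rpow (by positivity) (by positivity), ← Real.rpow_mul hP0.le,
          ← Real.rpow_natCast (δ⁻¹ ^ (a / r)), ← Real.rpow_natCast (N t ^ a),
          ← Real.rpow_mul (by positivity : 0 ≤ δ⁻¹ ^ (a / r)),
          ← Real.rpow_mul (by positivity : 0 ≤ N t ^ a), ← Real.rpow_mul hN0.le]
        have q1 : ((2 : ℕ) : ℝ) * (1 / qq a r) = 2 / qq a r := by
          push_cast
          ring
        have q2 : a * (((2 : ℕ) : ℝ) * (1 / qq a r)) = c' := by
          rw [hc']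
          unfold s0
          push_cast
          ring
        have q3 : θ * (1 / qq a r) = θ / qq a r := by ring
        rw [q2, q1, q3, hc3]
        ring
      have l1 : 1 ≤ 1 + y t := by linarith [y0 t]
      have l3 := pow_split hN0.le l1 hc'0 hs
      rw [← hσ] at l3
      have l0 : 0 < 1 + y t := by linarith
      have l4 : y t ≤ (1 + y t) ^ (1 - σ) * P ^ σ := by
        have l5 : (1 + y t) ^ (1 - σ) * (1 + y t) ^ σ = 1 + y t := by
          rw [← Real.rpow_add l0]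
          simp
        have l6 : (1 + y t) ^ σ ≤ P ^ σ := Real.rpow_le_rpow l0.le hyP hσ0.le
        have l7 := mul_le_mul_of_nonneg_left l6 (Real.rpow_nonneg l0.le (1 - σ))
        linarith
      have l8 : N t ^ c' * y t ≤ w t * P ^ σ := by
        have l9 := mul_le_mul_of_nonneg_left l4 (Real.rpow_nonneg hN0.le c')
        have l10 := mul_le_mul_of_nonneg_right l3 (Real.rpow_nonneg hP0.le σ)
        simp only [hw]
        linarith
      have l11 := mul_le_mul_of_nonneg_left l8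
        (by positivity : 0 ≤ c3 * P ^ (θ / qq a r))
      rw [e1]
      have e2 : P ^ ρ = P ^ (θ / qq a r) * P ^ σ := by
        rw [hρ, Real.rpow_add hP0]
      rw [e2]
      linarith
    have hfin : κ0 * ((1 + η t + L) * y t) ≤ κ * ((1 + η t) * y t + P ^ ρ * w t) := by
      have q1 : 0 ≤ (1 + η t) * y t := mul_nonneg (by linarith [η0 t]) (y0 t)
      have q2 : 0 ≤ P ^ ρ * w t := mul_nonneg (Real.rpow_nonneg hP0.le _) (w0 t ht)
      have q3 : (1 + η t + L) * y t ≤ (1 + c3) * ((1 + η t) * y t + P ^ ρ * w t) := by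
        have q4 : 0 ≤ c3 * ((1 + η t) * y t) := mul_nonneg hc30 q1
        linarith
      have q5 := mul_le_mul_of_nonneg_left q3 hκ00
      rw [hκ]
      linarith
    linarith
  exact ⟨κ, hκn, hrate⟩

end Pool.Agent.H4LA
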