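import Pool.Agent.H4LA.En

/-!
Multiplication by functions of the horizontal coordinates which are integrable to a power
greater than two.
-/

set_option autoImplicit false
set_option linter.unusedVariables false

open MeasureTheory Set Function Filter Topology
open scoped ENNReal ContDiff

namespace Pool.Agent.H4LA

open H459R3.NS

theorem abs_le_line {f : V → ℝ} (hf : SP f) (j : Fin 3) {x : V} (hx : x ∈ cube) :
    |f x| ≤ ∫ s in (0 : ℝ)..1, (|f (update x j s)| + |pd j f (update x j s)|) := by
  set φ : ℝ → ℝ := fun s => f (update x j s) with hφ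
  set ψ : ℝ → ℝ := fun s => pd j f (update x j s) with hψ
  have cφ : Continuous φ := hf.cont.comp (cont_update x j)
  have cψ : Continuous ψ := (hf.pd j).cont.comp (cont_update x j)
  have hxj : x j ∈ Icc (0 : ℝ) 1 := ⟨hx.1 j, hx.2 j⟩
  have hxe : φ (x j) = f x := by
    simp only [hφ, update_eq_self]
  set M : ℝ := ∫ r in (0 : ℝ)..1, |ψ r| with hM
  have cM : Continuous fun r => |ψ r| := by fun_prop
  have key : ∀ s ∈ Icc (0 : ℝ) 1, |φ (x j)| ≤ |φ s| + M := by
    intro s hs
    have h1 : ∫ r in s..(x j), ψ r = φ (x j) - φ s := by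
      apply intervalIntegral.integral_eq_sub_of_hasDerivAt (f := φ)
      · intro r _
        exact hasDerivAt_line hf x j r
      · exact Continuous.intervalIntegrable (by fun_prop) _ _
    have h2 : |∫ r in s..(x j), ψ r| ≤ M := by
      calc |∫ r in s..(x j), ψ r| ≤ |(∫ r in s..(x j), |ψ r|)| :=
            by simpa only [Real.norm_eq_abs] using
              (intervalIntegral.norm_integral_le_abs_integral_norm (a := s) (b := x j)
                (f := ψ) (μ := volume))
        _ ≤ |(∫ r in (0 : ℝ)..1, |ψ r|)| := by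
            apply intervalIntegral.abs_integral_mono_interval
            · rw [uIoc_of_le zero_le_one]
              intro r hr
              rcases hr with ⟨ha, hb⟩
              constructor
              · exact (le_min hs.1 hxj.1).trans_lt ha
              · exact hb.trans (max_le hs.2 hxj.2)
            · exact Filter.Eventually.of_forall fun r => abs_nonneg _
            · exact Continuous.intervalIntegrable (by fun_prop) _ _
        _ = M := by
            rw [hM]
            apply abs_of_nonneg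
            exact intervalIntegral.integral_nonneg zero_le_one fun r _ => by positivity
    have h3 : φ (x j) = φ s + ∫ r in s..(x j), ψ r := by
      rw [h1]
      ring
    rw [h3]
    exact (abs_add_le _ _).trans (add_le_add le_rfl h2)
  have h3 : ∫ s in (0 : ℝ)..1, |φ (x j)| ≤ ∫ s in (0 : ℝ)..1, (|φ s| + M) := by
    apply intervalIntegral.integral_mono_on zero_le_one
    · exact intervalIntegrable_const
    · exact Continuous.intervalIntegrable (by fun_prop) _ _
    · exact key
  rw [intervalIntegral.integral_const, intervalIntegral.integral_add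
    (Continuous.intervalIntegrable (by fun_prop) _ _) intervalIntegrable_const,
    intervalIntegral.integral_const] at h3
  simp only [sub_zero, one_smul] at h3
  have h4 : ∫ s in (0 : ℝ)..1, (|f (update x j s)| + |pd j f (update x j s)|)
      = (∫ s in (0 : ℝ)..1, |φ s|) + M := by
    rw [hM, ← intervalIntegral.integral_add]
    · exact Continuous.intervalIntegrable (by fun_prop) _ _
    · exact cM.intervalIntegrable _ _
  rw [h4, ← hxe]
  exact h3

theorem abs_le_Av {f : V → ℝ} (hf : SP f) (j : Fin 3) (x : V) :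
    |f x| ≤ Av j (fun y => |f y| + |pd j f y|) x := by
  have hr : CP (fun y => |f y| + |pd j f y|) := (cp_of hf).abs.add (cp_of (hf.pd j)).abs
  set m : K3 := fun i => -⌊x i⌋ with hm
  set x' : V := x + fun i => (m i : ℝ) with hx'
  have h2 : x' ∈ cube := by
    constructor
    · intro i
      have := Int.floor_le (x i)
      simp only [hx', hm, Pi.zero_apply, Pi.add_apply]
      push_cast
      linarith
    · intro i
      have := Int.lt_floor_add_one (x i)
      simp only [hx', hm, Pi.one_apply, Pi.add_apply]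
      push_cast
      linarith
  have h1 : f x' = f x := hf.per.int m x
  have h3 : Av j (fun y => |f y| + |pd j f y|) x' = Av j (fun y => |f y| + |pd j f y|) x :=
    (hr.av j).per.int m x
  have h4 := abs_le_line hf j h2
  have h5 : Av j (fun y => |f y| + |pd j f y|) x'
      = ∫ s in (0 : ℝ)..1, (|f (update x' j s)| + |pd j f (update x' j s)|) :=
    Av_eq j _ x'
  rw [← h5, h1, h3] at h4
  exact h4

theorem Hz_prod {a b : V → ℝ} (ha : CP a) (hb : CP b) (x : V) :
    Hz (fun y => Av 1 a y * Av 0 b y) x = Hz a x * Hz b x := by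
  unfold Hz
  have e1 : Av 1 (fun y => Av 1 a y * Av 0 b y) = fun y => Av 1 a y * Av 1 (Av 0 b) y :=
    funext fun y => Av_mul (ind_Av 1 _) (Av 0 b) y
  have i2 : Ind 0 (Av 1 (Av 0 b)) := (ind_Av 0 _).av (by decide)
  have e2 : Av 0 (fun y => Av 1 a y * Av 1 (Av 0 b) y) x = Av 1 (Av 0 b) x * Av 0 (Av 1 a) x := by
    have : (fun y => Av 1 a y * Av 1 (Av 0 b) y) = fun y => Av 1 (Av 0 b) y * Av 1 a y := by
      funext y
      ring
    rw [this, Av_mul i2]
  rw [e1, e2, Av_comm hb (by decide : (1 : Fin 3) ≠ 0)]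
  ring

/-- The inequality of Gagliardo and Nirenberg on slices. -/
theorem gn {f : V → ℝ} (hf : SP f) {x : V} {A B : ℝ} (hA : Hz (fun y => f y ^ 2) x ≤ A)
    (hB0 : Hz (fun y => pd 0 f y ^ 2) x ≤ B) (hB1 : Hz (fun y => pd 1 f y ^ 2) x ≤ B) (n : ℕ) :
    Hz (fun y => f y ^ (2 * (n + 1))) x ≤ A * (√A + (n + 1) * √B) ^ (2 * n) := by
  have hA0 : 0 ≤ A := (Hz_nonneg (fun y => sq_nonneg _) x).trans hA
  have hB : 0 ≤ B := (Hz_nonneg (fun y => sq_nonneg _) x).trans hB0
  induction n with
  | zero => simpa using hA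
  | succ n ih =>
    set I : ℝ := Hz (fun y => f y ^ (2 * (n + 1))) x with hI
    have hI0 : 0 ≤ I := Hz_nonneg (fun y => (even_two_mul _).pow_nonneg _) x
    set F : V → ℝ := fun y => f y ^ (n + 2) with hF
    have sF : SP F := SP.powr hf _
    have cF := cp_of sF
    set R : Fin 3 → V → ℝ := fun j y => |F y| + |pd j F y| with hR
    have cR : ∀ j, CP (R j) := fun j => cF.abs.add (cp_of (sF.pd j)).abs
    have R0 : ∀ j y, 0 ≤ R j y := fun j y => add_nonneg (abs_nonneg _) (abs_nonneg _)
    have h1 : Hz (fun y => f y ^ (2 * (n + 1 + 1))) x ≤ Hz (R 1) x * Hz (R 0) x := by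
      rw [← Hz_prod (cR 1) (cR 0) x]
      apply Hz_mono ((cp_of hf).pow _) (((cR 1).av 1).mul ((cR 0).av 0))
      intro y
      have e : f y ^ (2 * (n + 1 + 1)) = |F y| * |F y| := by
        rw [abs_mul_abs_self]
        simp only [hF]
        rw [← pow_add]
        congr 1
        ring
      rw [e]
      exact mul_le_mul (abs_le_Av sF 1 y) (abs_le_Av sF 0 y) (abs_nonneg _)
        (Av_nonneg (R0 1) 1 y)
    have hsq : Hz (fun y => (f y ^ (n + 1)) ^ 2) x = I := by
      rw [hI]
      congr 1
      funext y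
      rw [← pow_mul]
      congr 1
      ring
    have h2 : ∀ j, Hz (fun y => pd j f y ^ 2) x ≤ B →
        Hz (R j) x ≤ √I * (√A + (n + 2) * √B) := by
      intro j hj
      rw [Hz_add cF.abs (cp_of (sF.pd j)).abs]
      have k1 : Hz (fun y => |F y|) x ≤ √I * √A := by
        have k := Hz_cs_abs (cp_of (SP.powr hf (n + 1))) (cp_of hf) x
        rw [hsq] at k
        have e : (fun y => |f y ^ (n + 1)| * |f y|) = fun y => |F y| := by
          funext y
          simp only [hF]
          rw [← abs_mul, ← pow_succ]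
        rw [e] at k
        exact k.trans (mul_le_mul_of_nonneg_left (Real.sqrt_le_sqrt hA) (Real.sqrt_nonneg _))
      have k2 : Hz (fun y => |pd j F y|) x ≤ (n + 2) * (√I * √B) := by
        have e : (fun y => |pd j F y|)
            = fun y => (n + 2 : ℝ) * (|f y ^ (n + 1)| * |pd j f y|) := by
          funext y
          simp only [hF]
          rw [pd_pow hf, abs_mul, abs_mul]
          push_cast
          have : |(n : ℝ) + 2| = n + 2 := abs_of_nonneg (by positivity)
          rw [this, mul_assoc]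
        rw [e, Hz_cmul]
        have k := Hz_cs_abs (cp_of (SP.powr hf (n + 1))) (cp_of (hf.pd j)) x
        rw [hsq] at k
        refine mul_le_mul_of_nonneg_left (k.trans ?_) (by positivity)
        exact mul_le_mul_of_nonneg_left (Real.sqrt_le_sqrt hj) (Real.sqrt_nonneg _)
      linarith
    set Q : ℝ := √A + (n + 2) * √B with hQ
    have hQ0 : 0 ≤ Q := by positivity
    have h3 : Hz (R 1) x * Hz (R 0) x ≤ (√I * Q) * (√I * Q) :=
      mul_le_mul (h2 1 hB1) (h2 0 hB0) (Hz_nonneg (R0 0) x) (by positivity)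
    have h4 : (√I * Q) * (√I * Q) = I * Q ^ 2 := by
      calc (√I * Q) * (√I * Q) = (√I * √I) * Q ^ 2 := by ring
        _ = I * Q ^ 2 := by rw [Real.mul_self_sqrt hI0]
    have h5 : I * Q ^ 2 ≤ A * Q ^ (2 * n) * Q ^ 2 := by
      refine mul_le_mul_of_nonneg_right (ih.trans ?_) (sq_nonneg _)
      refine mul_le_mul_of_nonneg_left ?_ hA0
      refine pow_le_pow_left₀ (by positivity) ?_ _
      rw [hQ]
      have := Real.sqrt_nonneg B
      linarith only [this]
    have h6 : A * Q ^ (2 * n) * Q ^ 2 = A * (√A + ((n + 1 : ℕ) + 1) * √B) ^ (2 * (n + 1)) := by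
      have e : √A + ((n + 1 : ℕ) + 1) * √B = Q := by
        rw [hQ]
        push_cast
        ring
      rw [e, mul_assoc, ← pow_add]
      rfl
    linarith

/-- Slice integrals as integrals over the cell. -/
theorem CP.frz {f : V → ℝ} (hf : CP f) (c : ℝ) : CP (fun z => f (update z 2 c)) where
  cont := hf.cont.comp (Continuous.update continuous_id 2 continuous_const)
  per := by
    intro i x
    show f (update (x + Pi.single i 1) 2 c) = f (update x 2 c)
    by_cases h : i = 2
    · subst h
      have : update (x + Pi.single (2 : Fin 3) (1 : ℝ)) 2 c = update x 2 c := by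
        funext k
        by_cases hk : k = 2
        · subst hk; simp
        · simp [hk]
      rw [this]
    · have : update (x + Pi.single i 1) 2 c = update x 2 c + Pi.single i 1 := by
        funext k
        by_cases hk : k = 2
        · subst hk
          simp [Ne.symm h]
        · simp [hk]
      rw [this, hf.per]

theorem Hz_cube {f : V → ℝ} (hf : CP f) (x : V) :
    Hz f x = ∫ z in cube, f (update z 2 (x 2)) := by
  have hi : Ind 2 (fun z => f (update z 2 (x 2))) := by
    intro z s
    simp only [update_idem]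
  rw [← Hz_ind2 (hf.frz (x 2)) hi x]
  unfold Hz Av
  congr 1
  funext s
  congr 1
  funext t
  congr 1
  funext k
  by_cases hk : k = 2
  · subst hk
    rw [update_self, update_of_ne (by decide), update_of_ne (by decide)]
  · rw [update_of_ne hk]

theorem mlt {r : ℝ} (hr : 2 < r) : ∃ C : ℝ, 1 ≤ C ∧ ∀ G : V → ℝ, CP G → Ind 2 G →
    (∀ x, 0 ≤ G x) → ∀ N : ℝ, 1 ≤ N → (∫ x in cube, G x ^ r) ≤ N ^ r →
    ∀ δ : ℝ, 0 < δ → δ ≤ 1 → ∀ f, SP f → ∀ x A B, Hz (fun y => f y ^ 2) x ≤ A →
    Hz (fun y => pd 0 f y ^ 2) x ≤ B → Hz (fun y => pd 1 f y ^ 2) x ≤ B →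
    Hz (fun y => G y ^ 2 * f y ^ 2) x
      ≤ C * (δ * (A + B) + (N ^ r / δ) ^ (2 / (r - 2)) * A) := by
  have hr2 : 0 < r - 2 := by linarith
  obtain ⟨n0, hn0⟩ := exists_nat_gt (r / (r - 2))
  set m : ℕ := n0 + 1 with hm
  set n : ℕ := m + 1 with hn
  have hm0 : (0 : ℝ) < m := by rw [hm]; positivity
  have hn' : (n : ℝ) = m + 1 := by rw [hn]; push_cast; ring
  have hnr : r / (r - 2) ≤ n := by
    rw [hn', hm]
    push_cast
    linarith
  have hn1 : (1 : ℝ) ≤ n := by rw [hn']; linarith
  have hn2 : (1 : ℝ) ≤ (n : ℝ) ^ 2 := one_le_pow₀ hn1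
  refine ⟨4 * (n : ℝ) ^ 2, by linarith only [hn2], ?_⟩
  intro G cG iG G0 N hN hGN δ hδ hδ1 f sf x A B hA hB0 hB1
  have hA0 : 0 ≤ A := (Hz_nonneg (fun y => sq_nonneg _) x).trans hA
  have hB : 0 ≤ B := (Hz_nonneg (fun y => sq_nonneg _) x).trans hB0
  have hNr : 1 ≤ N ^ r := Real.one_le_rpow hN (by linarith)
  set Λ : ℝ := N ^ r / δ with hΛ
  have hΛ1 : 1 ≤ Λ := by
    rw [hΛ, le_div_iff₀ hδ]
    linarith
  have hΛ0 : 0 < Λ := by linarith
  set lam : ℝ := Λ ^ (1 / (r - 2)) with hlam
  have hl1 : 1 ≤ lam := Real.one_le_rpow hΛ1 (by positivity)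
  have hl0 : 0 < lam := by linarith
  have hlΛ : lam ^ (r - 2) = Λ := by
    rw [hlam, ← Real.rpow_mul hΛ0.le, one_div, inv_mul_cancel₀ hr2.ne', Real.rpow_one]
  have hl2 : lam ^ 2 = Λ ^ (2 / (r - 2)) := by
    rw [hlam, ← Real.rpow_natCast, ← Real.rpow_mul hΛ0.le]
    congr 1
    push_cast
    ring
  rw [← hl2]
  -- the exponents
  set q : ℝ := n / m with hq
  have hq1 : 1 < q := by
    rw [hq, lt_div_iff₀ hm0, hn']
    linarith
  have hpq : (n : ℝ).HolderConjugate q := by
    rw [Real.holderConjugate_iff]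
    constructor
    · rw [hn']; linarith
    · rw [hq, hn']
      field_simp
      ring
  have h2q : 2 * q ≤ r := by
    rw [div_le_iff₀ hr2] at hnr
    rw [hq, mul_div_assoc', div_le_iff₀ hm0]
    rw [hn'] at hnr ⊢
    linarith
  -- the functions
  set F : V → ℝ := fun z => f (update z 2 (x 2)) with hF
  have cF : CP F := (cp_of sf).frz (x 2)
  set g : V → ℝ := fun z => max (G z - lam) 0 with hg
  have cg : Continuous g := (cG.cont.sub continuous_const).max continuous_const
  have g0 : ∀ z, 0 ≤ g z := fun z => le_max_right _ _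
  have e0 : Hz (fun y => G y ^ 2 * f y ^ 2) x = ∫ z in cube, G z ^ 2 * F z ^ 2 := by
    rw [Hz_cube ((cG.pow 2).mul ((cp_of sf).pow 2))]
    congr 1
    funext z
    simp only [hF, iG z]
  have eA : ∫ z in cube, F z ^ 2 ≤ A := by
    rw [Hz_cube ((cp_of sf).pow 2)] at hA
    exact hA
  have h1 : ∫ z in cube, G z ^ 2 * F z ^ 2
      ≤ ∫ z in cube, (2 * lam ^ 2 * F z ^ 2 + 2 * (g z ^ 2 * F z ^ 2)) := by
    refine integral_mono ((cG.pow 2).mul (cF.pow 2)).int (integrableOn_cube ?_) fun z => ?_
    · exact (continuous_const.mul (cF.cont.pow 2)).add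
        (continuous_const.mul ((cg.pow 2).mul (cF.cont.pow 2)))
    · have k1 : G z ≤ lam + g z := by
        have := le_max_left (G z - lam) 0
        simp only [hg]
        linarith
      have k2 : G z ^ 2 ≤ 2 * lam ^ 2 + 2 * g z ^ 2 := by
        have k3 := pow_le_pow_left₀ (G0 z) k1 2
        linarith only [k3, sq_nonneg (lam - g z)]
      have := mul_le_mul_of_nonneg_right k2 (sq_nonneg (F z))
      simp only
      linarith
  have i1 : IntegrableOn (fun z => 2 * lam ^ 2 * F z ^ 2) cube :=
    integrableOn_cube (continuous_const.mul (cF.cont.pow 2))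
  have i2 : IntegrableOn (fun z => 2 * (g z ^ 2 * F z ^ 2)) cube :=
    integrableOn_cube (continuous_const.mul ((cg.pow 2).mul (cF.cont.pow 2)))
  rw [integral_add i1 i2, integral_const_mul, integral_const_mul] at h1
  -- Hoelder
  have hfin := cube_finite
  have memc : ∀ {h : V → ℝ} {p : ℝ≥0∞}, Continuous h → MemLp h p (volume.restrict cube) := by
    intro h p hh
    have hK : IsCompact (cube : Set V) := isCompact_Icc
    obtain ⟨C, hC⟩ := hK.exists_bound_of_continuousOn hh.continuousOn
    refine MemLp.of_bound hh.aestronglyMeasurable C ?_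
    exact (ae_restrict_iff' measurableSet_Icc).2 (Filter.Eventually.of_forall hC)
  have h2 : ∫ z in cube, g z ^ 2 * F z ^ 2
      ≤ (∫ z in cube, (g z ^ 2) ^ q) ^ (1 / q) * (∫ z in cube, (F z ^ 2) ^ (n : ℝ)) ^ (1 / (n : ℝ)) :=
    integral_mul_le_Lp_mul_Lq_of_nonneg hpq.symm
      (Filter.Eventually.of_forall fun z => sq_nonneg _)
      (Filter.Eventually.of_forall fun z => sq_nonneg _)
      (memc (cg.pow 2)) (memc (cF.cont.pow 2))
  set Q : ℝ := (√A + n * √B) ^ 2 with hQ
  have hQ0 : 0 ≤ Q := sq_nonneg _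
  have h3 : ∫ z in cube, (F z ^ 2) ^ (n : ℝ) ≤ A * Q ^ m := by
    have k1 := gn sf hA hB0 hB1 m
    rw [Hz_cube ((cp_of sf).pow _)] at k1
    have e1 : ∀ z : V, (F z ^ 2) ^ (n : ℝ) = f (update z 2 (x 2)) ^ (2 * (m + 1)) := by
      intro z
      rw [Real.rpow_natCast, ← pow_mul]
    simp_rw [e1]
    refine k1.trans (le_of_eq ?_)
    rw [hQ, ← pow_mul, hn']
  set c : ℝ := lam ^ (2 * q - r) * N ^ r with hc
  have hc0 : 0 ≤ c := by positivity
  have h4 : ∫ z in cube, (g z ^ 2) ^ q ≤ c := by
    have k1 : ∫ z in cube, (g z ^ 2) ^ q ≤ ∫ z in cube, lam ^ (2 * q - r) * G z ^ r := by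
      refine integral_mono (integrableOn_cube ?_) (integrableOn_cube ?_) fun z => ?_
      · exact (cg.pow 2).rpow_const fun z => Or.inr (by linarith)
      · exact continuous_const.mul (cG.cont.rpow_const fun z => Or.inr (by linarith))
      · simp only
        have e1 : (g z ^ 2) ^ q = g z ^ (2 * q) := by
          rw [← Real.rpow_natCast, ← Real.rpow_mul (g0 z)]
          norm_num
        rw [e1]
        rcases le_or_gt (G z) lam with h | h
        · have : g z = 0 := max_eq_right (by linarith)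
          rw [this, Real.zero_rpow (by linarith)]
          have := G0 z
          positivity
        · have hG : 0 < G z := hl0.trans h
          have k2 : g z ≤ G z := max_le (by linarith) hG.le
          have k3 : g z ^ (2 * q) ≤ G z ^ (2 * q) := Real.rpow_le_rpow (g0 z) k2 (by linarith)
          have k4 : G z ^ (2 * q) = G z ^ (2 * q - r) * G z ^ r := by
            rw [← Real.rpow_add hG]
            congr 1
            ring
          have k5 : G z ^ (2 * q - r) ≤ lam ^ (2 * q - r) :=
            Real.rpow_le_rpow_of_nonpos hl0 h.le (by linarith)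
          rw [k4] at k3
          exact k3.trans (mul_le_mul_of_nonneg_right k5 (by positivity))
    rw [integral_const_mul] at k1
    exact k1.trans (mul_le_mul_of_nonneg_left hGN (by positivity))
  have hq0 : 0 < q := by linarith
  have hn0' : (0 : ℝ) < n := by linarith
  have iq : 1 / q = m / n := by
    rw [hq, one_div_div]
  have h5 : ∫ z in cube, g z ^ 2 * F z ^ 2 ≤ c ^ ((m : ℝ) / n) * (A * Q ^ m) ^ (1 / (n : ℝ)) := by
    refine h2.trans ?_
    rw [iq]
    refine mul_le_mul ?_ ?_ ?_ ?_
    · refine Real.rpow_le_rpow (integral_nonneg fun z => ?_) h4 (by positivity)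
      exact Real.rpow_nonneg (sq_nonneg _) _
    · refine Real.rpow_le_rpow (integral_nonneg fun z => ?_) h3 (by positivity)
      exact Real.rpow_nonneg (sq_nonneg _) _
    · refine Real.rpow_nonneg (integral_nonneg fun z => ?_) _
      exact Real.rpow_nonneg (sq_nonneg _) _
    · exact Real.rpow_nonneg hc0 _
  -- Young
  have hcδ : (c / δ) ^ (m : ℝ) = lam ^ 2 := by
    have e1 : c / δ = lam ^ (2 / (m : ℝ)) := by
      have e2 : N ^ r = Λ * δ := by
        rw [hΛ]
        field_simp
      rw [hc, e2, ← hlΛ]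
      have e3 : lam ^ (2 * q - r) * (lam ^ (r - 2) * δ) / δ = lam ^ (2 * q - r) * lam ^ (r - 2) := by
        field_simp
      rw [e3, ← Real.rpow_add hl0]
      congr 1
      rw [hq, hn']
      field_simp
      ring
    rw [e1, ← Real.rpow_mul hl0.le, div_mul_cancel₀ _ hm0.ne']
    exact Real.rpow_ofNat lam 2
  have h6 : c ^ ((m : ℝ) / n) * (A * Q ^ m) ^ (1 / (n : ℝ)) ≤ lam ^ 2 * A + δ * Q := by
    have hw : 1 / (n : ℝ) + m / n = 1 := by
      rw [hn']
      field_simp
      ring
    have k1 := Real.geom_mean_le_arith_mean2_weighted (w₁ := 1 / (n : ℝ)) (w₂ := m / n)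
      (p₁ := lam ^ 2 * A) (p₂ := δ * Q) (by positivity) (by positivity) (by positivity)
      (by positivity) hw
    have k2 : (lam ^ 2 * A) ^ (1 / (n : ℝ)) * (δ * Q) ^ ((m : ℝ) / n)
        = c ^ ((m : ℝ) / n) * (A * Q ^ m) ^ (1 / (n : ℝ)) := by
      rw [← hcδ, Real.mul_rpow (Real.rpow_nonneg (by positivity) _) hA0,
        Real.mul_rpow hA0 (by positivity), Real.mul_rpow hδ.le hQ0, ← Real.rpow_mul (by positivity),
        ← Real.rpow_natCast Q m, ← Real.rpow_mul hQ0, Real.div_rpow hc0 hδ.le]
      have e1 : (m : ℝ) * (1 / (n : ℝ)) = m / n := by ring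
      rw [e1]
      have e2 : 0 < δ ^ ((m : ℝ) / n) := Real.rpow_pos_of_pos hδ _
      field_simp
    rw [k2] at k1
    refine k1.trans ?_
    have w1 : 1 / (n : ℝ) ≤ 1 := by
      have : 0 ≤ (m : ℝ) / n := by positivity
      linarith
    have w2 : (m : ℝ) / n ≤ 1 := by
      have : 0 ≤ 1 / (n : ℝ) := by positivity
      linarith
    have k3 : 1 / (n : ℝ) * (lam ^ 2 * A) ≤ 1 * (lam ^ 2 * A) :=
      mul_le_mul_of_nonneg_right w1 (by positivity)
    have k4 : (m : ℝ) / n * (δ * Q) ≤ 1 * (δ * Q) :=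
      mul_le_mul_of_nonneg_right w2 (by positivity)
    linarith
  -- the end
  have hQ2 : Q ≤ 2 * (A + n ^ 2 * B) := by
    have k1 : Q ≤ 2 * (√A ^ 2 + (n * √B) ^ 2) := by
      rw [hQ]
      linarith only [sq_nonneg (√A - n * √B)]
    have k2 : √A ^ 2 = A := Real.sq_sqrt hA0
    have k3 : (n * √B) ^ 2 = n ^ 2 * B := by rw [mul_pow, Real.sq_sqrt hB]
    rw [k2, k3] at k1
    exact k1
  rw [e0]
  have k1 : 2 * lam ^ 2 * ∫ z in cube, F z ^ 2 ≤ 2 * lam ^ 2 * A :=
    mul_le_mul_of_nonneg_left eA (by positivity)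
  have k2 := mul_le_mul_of_nonneg_left hQ2 hδ.le
  have k3 : 4 * (lam ^ 2 * A) ≤ 4 * (n : ℝ) ^ 2 * (lam ^ 2 * A) := by
    have q0 : 0 ≤ lam ^ 2 * A := by positivity
    have q1 := mul_le_mul_of_nonneg_right hn2 q0
    linarith only [q1]
  have k4 : 4 * (δ * A) ≤ 4 * (n : ℝ) ^ 2 * (δ * A) := by
    have q0 : 0 ≤ δ * A := by positivity
    have q1 := mul_le_mul_of_nonneg_right hn2 q0
    linarith only [q1]
  linarith

end Pool.Agent.H4LA
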