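import Pool.Agent.H459R3.NS.Lp
import Pool.Agent.H4LA.Ker
import Pool.Agent.H4LA.Sup

/-!
The pressure: bounds for the integrals of its absolute value over horizontal slices.
-/

set_option autoImplicit false
set_option linter.unusedVariables false

open MeasureTheory Set Function Filter Topology
open scoped ENNReal ContDiff

namespace Pool.Agent.H4LA

open H459R3.NS

/-- Change of the order of integration. -/
theorem swap {Y Z : Type} [NormedAddCommGroup Y] [NormedAddCommGroup Z] [MeasurableSpace Y]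
    [MeasurableSpace Z] [BorelSpace Y] [BorelSpace Z] [SecondCountableTopology Y]
    [SecondCountableTopology Z] {μ : Measure Y} {ν : Measure Z} [IsFiniteMeasureOnCompacts μ]
    [IsFiniteMeasureOnCompacts ν] [SFinite μ] [SFinite ν] {S : Set Y} {R : Set Z}
    (hS : IsCompact S) (hR : IsCompact R) {F : Y × Z → ℝ} (hF : Continuous F) :
    ∫ y in S, ∫ z in R, F (y, z) ∂ν ∂μ = ∫ z in R, ∫ y in S, F (y, z) ∂μ ∂ν := by
  apply integral_integral_swap (f := fun y z => F (y, z))
  rw [Measure.prod_restrict]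
  exact hF.continuousOn.integrableOn_compact (hS.prod hR)

theorem Av_shift {f : V → ℝ} (hf : CP f) (j : Fin 3) (z x : V) :
    Av j (fun y => f (y + z)) x = Av j f (x + z) := by
  rw [Av_eq, Av_eq]
  have e : ∀ s, f (update x j s + z) = f (update (x + z) j (s + z j)) := by
    intro s
    congr 1
    funext k
    by_cases hk : k = j
    · subst hk; simp
    · simp [hk]
  simp_rw [e]
  have hp : Function.Periodic (fun s : ℝ => f (update (x + z) j s)) 1 := by
    intro s
    have : update (x + z) j (s + 1) = update (x + z) j s + Pi.single j 1 := by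
      funext k
      by_cases hk : k = j
      · subst hk; simp
      · simp [hk]
    simp only [this]
    exact hf.per j _
  have h1 := hp.intervalIntegral_add_eq (z j) 0
  have h2 := intervalIntegral.integral_comp_add_right (fun s : ℝ => f (update (x + z) j s))
    (a := 0) (b := 1) (z j)
  rw [h2]
  simp only [zero_add] at h1 ⊢
  rw [← h1, add_comm (1 : ℝ) (z j)]

theorem CP.shift {f : V → ℝ} (hf : CP f) (z : V) : CP (fun y => f (y + z)) :=
  ⟨hf.cont.comp (continuous_id.add continuous_const), fun i x => by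
    have : x + Pi.single i 1 + z = x + z + Pi.single i 1 := by abel
    simp only [this, hf.per i (x + z)]⟩

theorem Hz_shift {f : V → ℝ} (hf : CP f) (z x : V) :
    Hz (fun y => f (y + z)) x = Hz f (x + z) := by
  unfold Hz
  have : Av 1 (fun y => f (y + z)) = fun y => Av 1 f (y + z) := funext fun y => Av_shift hf 1 z y
  rw [this, Av_shift (hf.av 1)]

theorem int_shift {f : V → ℝ} (hf : CP f) (z : V) :
    ∫ x in cube, f (x + z) = ∫ x in cube, f x := by
  rw [← tri hf (0 + z), ← tri (hf.shift z) 0]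
  have e2 : Av 2 (fun y => f (y + z)) = fun y => Av 2 f (y + z) := funext fun y => Av_shift hf 2 z y
  have e0 : Av 0 (fun y => Av 2 f (y + z)) = fun y => Av 0 (Av 2 f) (y + z) :=
    funext fun y => Av_shift (hf.av 2) 0 z y
  rw [e2, e0, Av_shift ((hf.av 2).av 0)]

theorem BA_one_le {φ : V → ℝ} (hφ : CP φ) (h0 : ∀ x, 0 ≤ φ x) (x : V) :
    BA φ 1 x ≤ 27 * ∫ y in cube, φ y := by
  have c1 : CP (fun y => φ (y + x)) := hφ.shift x
  have hsub : Qb ⊆ box := by
    intro y hy
    refine ⟨hy.1, fun i => (hy.2 i).trans ?_⟩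
    simp only [Pi.ofNat_apply]
    norm_num
  have h1 : ENNReal.ofReal (BA φ 1 x) ≤ 27 * ENNReal.ofReal (∫ y in cube, φ y) := by
    unfold BA
    have e1 : ∫ y in Qb, φ (x + (1 : ℝ) • y) = ∫ y in Qb, φ (y + x) := by
      congr 1
      funext y
      rw [one_smul, add_comm]
    rw [e1, ofReal_integral_eq_lintegral_ofReal
      (c1.cont.continuousOn.integrableOn_compact Qb_compact)
      (Filter.Eventually.of_forall fun y => h0 _)]
    have e2 : ENNReal.ofReal (∫ y in cube, φ y) = ∫⁻ y in cube, ENNReal.ofReal (φ (y + x)) := by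
      rw [← int_shift hφ x, ofReal_integral_eq_lintegral_ofReal c1.int
        (Filter.Eventually.of_forall fun y => h0 _)]
    rw [e2]
    refine (lintegral_mono_set hsub).trans ?_
    exact lintegral_box_le c1.cont.measurable.ennreal_ofReal
      (fun i y => by simp only [c1.per i y])
  have h27 : (27 : ℝ≥0∞) = ENNReal.ofReal 27 := by norm_num
  rw [h27, ← ENNReal.ofReal_mul (by norm_num)] at h1
  exact (ENNReal.ofReal_le_ofReal_iff (mul_nonneg (by norm_num) (integral_nonneg h0))).1 h1

/-! ### averages with kernels as functions of the point -/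

open Pool.Agent.H631R3 in
theorem cv_smooth {A f : V → ℝ} (hA : Kn A) (hf : ContDiff ℝ ∞ f) (r : ℝ) :
    ContDiff ℝ ∞ (cv A f r) ∧ ∀ i x, pd i (cv A f r) x = cv A (pd i f) r x := by
  set k : V × V → ℝ := fun q => A q.1 * f (q.2 + r • q.1) with hk
  have sk : ContDiff ℝ ∞ k :=
    (hA.smooth.comp contDiff_fst).mul (hf.comp (contDiff_snd.add
      (contDiff_fst.const_smul r)))
  constructor
  · rw [← contDiffOn_univ]
    exact contDiffOn_PI (μ := (volume : Measure V)) Qb_compact isOpen_univ isOpen_univ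
      (subset_univ _) (k := k) (W := univ) sk.contDiffOn
  · intro i x
    have h2 := fderiv_PI_apply (μ := (volume : Measure V)) Qb_compact isOpen_univ isOpen_univ
      (subset_univ _) (k := k) (W := univ) (U := univ) (sk.of_le (by norm_cast)).contDiffOn
      (mem_univ x) (Pi.single i 1)
    unfold pd
    have e0 : fderiv ℝ (cv A f r) x (Pi.single i 1)
        = ∫ s in Qb, fderiv ℝ k (s, x) ((0 : V), Pi.single i 1) := h2
    rw [e0]
    unfold cv
    congr 1
    funext s
    have a1 : HasFDerivAt k (fderiv ℝ k (s, x)) (s, x) :=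
      ((sk.differentiable (by norm_cast)) _).hasFDerivAt
    have a2 : HasFDerivAt (fun y : V => ((s, y) : V × V)) (ContinuousLinearMap.inr ℝ V V) x :=
      hasFDerivAt_prodMk_right s x
    have a3 := a1.comp x a2
    have b1 : HasFDerivAt (fun y : V => y + r • s) (ContinuousLinearMap.id ℝ V) x :=
      (hasFDerivAt_id x).add_const _
    have b2 : HasFDerivAt (fun y => f (y + r • s))
        ((fderiv ℝ f (x + r • s)).comp (ContinuousLinearMap.id ℝ V)) x :=
      ((hf.differentiable (by norm_cast)) _).hasFDerivAt.comp x b1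
    have b3 := b2.const_mul (A s)
    have e := a3.unique b3
    have e1 := DFunLike.congr_fun e (Pi.single i (1 : ℝ) : V)
    simpa using e1

theorem cv_sp {A f : V → ℝ} (hA : Kn A) (hf : SP f) (r : ℝ) : SP (cv A f r) where
  smooth := (cv_smooth hA hf.smooth r).1
  per := fun i x => by
    unfold cv
    congr 1
    funext y
    have : x + Pi.single i 1 + r • y = x + r • y + Pi.single i 1 := by abel
    rw [this, hf.per]

theorem lap_cv {A f : V → ℝ} (hA : Kn A) (hf : SP f) (r : ℝ) (x : V) :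
    lap (cv A f r) x = cv A (lap f) r x := by
  unfold lap
  have e : ∀ j, pd j (cv A f r) = cv A (pd j f) r := fun j =>
    funext fun y => (cv_smooth hA hf.smooth r).2 j y
  have e2 : ∀ j, pd j (pd j (cv A f r)) x = cv A (pd j (pd j f)) r x := by
    intro j
    rw [e j]
    exact (cv_smooth hA (hf.pd j).smooth r).2 j x
  simp_rw [e2]
  rw [← cv_sum hA fun i _ => ((hf.pd i).pd i).cont]

theorem int_cv {A f : V → ℝ} (hA : Kn A) (hf : SP f) (r : ℝ) (h0 : ∫ x in cube, f x = 0) :
    ∫ x in cube, cv A f r x = 0 := by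
  unfold cv
  have hc : Continuous fun q : V × V => A q.2 * f (q.1 + r • q.2) :=
    (hA.cont.comp continuous_snd).mul (hf.cont.comp (by fun_prop))
  have hK : IsCompact (cube : Set V) := isCompact_Icc
  rw [swap (μ := (volume : Measure V)) (ν := (volume : Measure V)) hK Qb_compact hc]
  have e : ∀ y : V, ∫ x in cube, A y * f (x + r • y) = 0 := by
    intro y
    rw [integral_const_mul, int_shift (cp_of hf), h0, mul_zero]
  simp only [e]
  simp

theorem grd_le_lap {g : V → ℝ} (hg : SP g) (h0 : ∫ x in cube, g x = 0) : nrm g ≤ nrm (lap g) := by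
  have h1 := poincare hg h0
  have h2 : grd g ^ 2 ≤ nrm (lap g) * nrm g := by
    rw [grd_sq]
    have h3 := int_lap_mul hg hg
    have h4 := abs_int_mul_le hg.lap.cont hg.cont
    have e : ∑ j, ∫ x in cube, pd j g x * pd j g x = ∑ j, ∫ x in cube, pd j g x ^ 2 := by
      refine Finset.sum_congr rfl fun j _ => ?_
      congr 1
      funext x
      ring
    rw [e] at h3
    have h5 := (abs_le.1 h4).1
    linarith
  have h3 := grd_nonneg g
  have h4 : nrm (lap g) * nrm g ≤ nrm (lap g) * grd g :=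
    mul_le_mul_of_nonneg_left h1 (nrm_nonneg _)
  rcases eq_or_lt_of_le h3 with h | h
  · have := nrm_nonneg (lap g)
    linarith
  · have : grd g ≤ nrm (lap g) := by
      have : grd g * grd g ≤ grd g * nrm (lap g) := by nlinarith
      exact le_of_mul_le_mul_left this h
    linarith

theorem nrm_le_sup {g : V → ℝ} (hg : Continuous g) {b : ℝ} (hb0 : 0 ≤ b) (hb : ∀ x, |g x| ≤ b) :
    nrm g ≤ b := by
  have h1 : nrm g ^ 2 ≤ b ^ 2 := by
    rw [nrm_sq]
    have hfin := cube_finite
    have h2 : ∫ x in cube, g x ^ 2 ≤ ∫ x in cube, b ^ 2 := by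
      refine integral_mono (integrableOn_cube (hg.pow 2)) (integrable_const _) fun x => ?_
      simp only
      rw [← sq_abs (g x)]
      exact pow_le_pow_left₀ (abs_nonneg _) (hb x) 2
    have h3 : ∫ x in cube, b ^ 2 = b ^ 2 := by
      rw [setIntegral_const, Measure.real, volume_cube]
      simp
    rwa [h3] at h2
  exact le_of_sq_le_sq h1 hb0 |> fun h => h

/-! ### the bound for the pressure -/

section press

variable {v : Fin 3 → V → ℝ}

theorem sum_abs_le (v : Fin 3 → V → ℝ) (x : V) : ∑ i, ∑ j, |v i x * v j x| ≤ 3 * vsq v x := by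
  unfold vsq
  simp only [Fin.sum_univ_three, abs_mul]
  nlinarith [sq_abs (v 0 x), sq_abs (v 1 x), sq_abs (v 2 x), sq_nonneg (|v 0 x| - |v 1 x|),
    sq_nonneg (|v 0 x| - |v 2 x|), sq_nonneg (|v 1 x| - |v 2 x|)]

/-- Two integrations by parts. -/
theorem cv_two (hv : ∀ i, SP (v i)) {A : V → ℝ} (hA : Kn A) {C : ℝ}
    (hC : ∀ i j y, |pd j (pd i A) y| ≤ C) (r : ℝ) (x : V) :
    |r * ∑ i, cv (pd i A) (fun x => ∑ j, pd j (fun y => v i y * v j y) x) r x|
      ≤ 3 * C * BA (vsq v) r x := by
  have hC0 : 0 ≤ C := (abs_nonneg _).trans (hC 0 0 0)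
  have e1 : ∀ i, cv (pd i A) (fun x => ∑ j, pd j (fun y => v i y * v j y) x) r x
      = ∑ j, cv (pd i A) (pd j (fun y => v i y * v j y)) r x := fun i =>
    cv_sum (hA.pd i) (fun j _ => (((hv i).mul (hv j)).pd j).cont) r x
  have e2 : ∀ i j, cv (pd j (pd i A)) (fun y => v i y * v j y) r x
      = -(r * cv (pd i A) (pd j (fun y => v i y * v j y)) r x) := fun i j =>
    cv_pd (hA.pd i) ((hv i).mul (hv j)).smooth j r x
  have e3 : r * ∑ i, cv (pd i A) (fun x => ∑ j, pd j (fun y => v i y * v j y) x) r x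
      = -∑ i, ∑ j, cv (pd j (pd i A)) (fun y => v i y * v j y) r x := by
    simp_rw [e1, e2]
    rw [Finset.mul_sum, ← Finset.sum_neg_distrib]
    refine Finset.sum_congr rfl fun i _ => ?_
    rw [Finset.mul_sum, ← Finset.sum_neg_distrib]
    refine Finset.sum_congr rfl fun j _ => ?_
    ring
  rw [e3, abs_neg]
  have h1 : |∑ i, ∑ j, cv (pd j (pd i A)) (fun y => v i y * v j y) r x|
      ≤ ∑ i, ∑ j, C * BA (fun y => |v i y * v j y|) r x := by
    refine (Finset.abs_sum_le_sum_abs _ _).trans (Finset.sum_le_sum fun i _ => ?_)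
    refine (Finset.abs_sum_le_sum_abs _ _).trans (Finset.sum_le_sum fun j _ => ?_)
    exact abs_cv_le ((hv i).mul (hv j)).cont ((hA.pd i).pd j) (hC i j) r x
  refine h1.trans ?_
  have e4 : ∑ i, ∑ j, C * BA (fun y => |v i y * v j y|) r x
      = C * BA (fun y => ∑ i, ∑ j, |v i y * v j y|) r x := by
    rw [BA_sum fun i _ => continuous_finsetSum _ fun j _ => ((hv i).mul (hv j)).cont.abs,
      Finset.mul_sum]
    refine Finset.sum_congr rfl fun i _ => ?_
    rw [BA_sum fun j _ => ((hv i).mul (hv j)).cont.abs, Finset.mul_sum]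
  rw [e4]
  have h2 : BA (fun y => ∑ i, ∑ j, |v i y * v j y|) r x ≤ 3 * BA (vsq v) r x := by
    rw [← BA_cmul]
    exact BA_mono (continuous_finsetSum _ fun i _ => continuous_finsetSum _ fun j _ =>
      ((hv i).mul (hv j)).cont.abs) (continuous_const.mul (vsq_cont hv)) (sum_abs_le v) r x
  calc C * BA (fun y => ∑ i, ∑ j, |v i y * v j y|) r x ≤ C * (3 * BA (vsq v) r x) :=
        mul_le_mul_of_nonneg_left h2 hC0
    _ = 3 * C * BA (vsq v) r x := by ring

/-- `∑ |∑ vⱼ ∂ⱼ vᵢ|` -/
noncomputable def hh (v : Fin 3 → V → ℝ) (x : V) : ℝ := ∑ i, |conv v i x|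

theorem hh_nonneg (x : V) : 0 ≤ hh v x := Finset.sum_nonneg fun _ _ => abs_nonneg _

theorem hh_cp (hv : ∀ i, SP (v i)) : CP (hh v) := CP.sum fun i _ => (cp_of (sp_conv hv i)).abs

theorem exists_bound2 {A : V → ℝ} (hA : Kn A) :
    ∃ C, 0 ≤ C ∧ (∀ i y, |pd i A y| ≤ C) ∧ ∀ i j y, |pd j (pd i A) y| ≤ C := by
  choose C1 hC1 hC1' using fun i : Fin 3 => (hA.pd i).bdd
  choose C2 hC2 hC2' using fun i j : Fin 3 => ((hA.pd i).pd j).bdd
  have n2 : 0 ≤ ∑ i, ∑ j, C2 i j := Finset.sum_nonneg fun i _ => Finset.sum_nonneg fun j _ => hC2 i j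
  have n1 : 0 ≤ ∑ i, C1 i := Finset.sum_nonneg fun i _ => hC1 i
  refine ⟨(∑ i, C1 i) + ∑ i, ∑ j, C2 i j, by positivity, fun i y => ?_, fun i j y => ?_⟩
  · have : C1 i ≤ ∑ i, C1 i := Finset.single_le_sum (f := C1) (fun i _ => hC1 i) (Finset.mem_univ i)
    linarith [hC1' i y]
  · have h1 : C2 i j ≤ ∑ j, C2 i j :=
      Finset.single_le_sum (f := fun j => C2 i j) (fun j _ => hC2 i j) (Finset.mem_univ j)
    have h2 : ∑ j, C2 i j ≤ ∑ i, ∑ j, C2 i j :=
      Finset.single_le_sum (f := fun i => ∑ j, C2 i j)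
        (fun i _ => Finset.sum_nonneg fun j _ => hC2 i j) (Finset.mem_univ i)
    linarith [hC2' i j y]

/-- The pointwise bound for the pressure. -/
theorem press_pt : ∃ C, 0 ≤ C ∧ ∀ (v : Fin 3 → V → ℝ) (p : V → ℝ), (∀ i, SP (v i)) →
    (∀ x, ∑ i, pd i (v i) x = 0) → SP p → (∀ x, -lap p x = ∑ i, pd i (conv v i) x) →
    (∫ x in cube, p x = 0) → ∀ ε ∈ Ioc (0 : ℝ) 1, ∀ x,
    |p x| ≤ C * (esq v + (∫ r in Icc (0 : ℝ) ε, BA (hh v) r x)
      + ∫ r in Icc ε 1, (max r ε)⁻¹ * BA (vsq v) r x) := by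
  obtain ⟨CK, hK0, hK1, hK2⟩ := exists_bound2 kn_K
  obtain ⟨CG, hG0, hG1, hG2⟩ := exists_bound2 kn_G
  have hc4 := C4_nonneg
  set CL : ℝ := (1 + √C4) * (81 * CK) with hCL
  have hCL0 : 0 ≤ CL := by positivity
  refine ⟨(CL + 3 * CG + CG) / c0, by have := c0_pos; positivity, ?_⟩
  intro v p hv hdiv hp hl h0 ε hε x
  have hconv : ∀ i, conv v i = fun x => ∑ j, pd j (fun y => v i y * v j y) x := by
    intro i
    funext y
    have h2 : ∀ j, pd j (fun y => v i y * v j y) y =
        v i y * pd j (v j) y + v j y * pd j (v i) y := by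
      intro j
      rw [pd_mul (hv i) (hv j) j y]
      ring
    rw [Finset.sum_congr rfl fun j _ => h2 j, Finset.sum_add_distrib, ← Finset.mul_sum, hdiv,
      mul_zero, zero_add]
    rfl
  have sh : ∀ i, SP (conv v i) := fun i => sp_conv hv i
  have hE0 : 0 ≤ esq v := esq_nonneg v
  have eE : ∫ y in cube, vsq v y = esq v := by
    unfold vsq esq
    rw [integral_finsetSum _ fun i _ => (SP.sqr (hv i)).int]
  -- the low frequencies
  set L : V → ℝ := cv kK p 1 with hL
  have sL : SP L := cv_sp kn_K hp 1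
  have hL0 : ∫ x in cube, L x = 0 := int_cv kn_K hp 1 h0
  have hlapL : ∀ x, |lap L x| ≤ 81 * CK * esq v := by
    intro x
    rw [hL, lap_cv kn_K hp]
    have e1 : lap p = fun y => -(∑ i, pd i (conv v i) y) := by
      funext y
      rw [← hl y]
      ring
    rw [e1, cv_neg, abs_neg, cv_sum kn_K fun i _ => ((sh i).pd i).cont]
    have e2 : ∑ i, cv kK (pd i (conv v i)) 1 x
        = -(1 * ∑ i, cv (pd i kK) (fun x => ∑ j, pd j (fun y => v i y * v j y) x) 1 x) := by
      rw [one_mul, ← Finset.sum_neg_distrib]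
      refine Finset.sum_congr rfl fun i _ => ?_
      rw [← hconv i, cv_pd kn_K (sh i).smooth i 1 x]
      ring
    rw [e2, abs_neg]
    refine (cv_two hv kn_K hK2 1 x).trans ?_
    have h1 := BA_one_le (cp_of (vsq_sp hv)) (vsq_nonneg v) x
    rw [eE] at h1
    have := mul_le_mul_of_nonneg_left h1 (by positivity : 0 ≤ 3 * CK)
    linarith
  have hLx : |L x| ≤ CL * esq v := by
    have h1 := sup_le sL x
    have h2 := grd_le_lap sL hL0
    have h3 := nrm_le_sup sL.lap.cont (by positivity) hlapL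
    have h4 : nrm L + √C4 * nrm (lap L) ≤ (1 + √C4) * nrm (lap L) := by linarith
    have h5 := mul_le_mul_of_nonneg_left h3 (by positivity : 0 ≤ 1 + √C4)
    have e : (1 + √C4) * (81 * CK * esq v) = CL * esq v := by
      rw [hCL]
      ring
    linarith
  -- the rest
  have hrep := rep hp sh hl x
  set R : ℝ → ℝ := fun r => ∑ i, cv (pd i kG) (conv v i) r x with hR
  have cR : Continuous R := by
    apply continuous_finsetSum
    intro i _
    exact (cv_cont (kn_G.pd i).cont (sh i).cont).comp (by fun_prop : Continuous fun r : ℝ => (x, r))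
  have chh := hh_cp hv
  have cBh : Continuous fun r => BA (hh v) r x :=
    (BA_cont chh.cont).comp (by fun_prop : Continuous fun r : ℝ => (x, r))
  have cBv : Continuous fun r => BA (vsq v) r x :=
    (BA_cont (vsq_cont hv)).comp (by fun_prop : Continuous fun r : ℝ => (x, r))
  have hmax : ∀ r : ℝ, 0 < max r ε := fun r => lt_of_lt_of_le hε.1 (le_max_right _ _)
  have cinv : Continuous fun r : ℝ => (max r ε)⁻¹ :=
    (continuous_id.max continuous_const).inv₀ fun r => (hmax r).ne'
  have hR1 : ∀ r, |R r| ≤ CG * BA (hh v) r x := by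
    intro r
    simp only [hR]
    refine (Finset.abs_sum_le_sum_abs _ _).trans ?_
    unfold hh
    rw [BA_sum fun i _ => (sh i).cont.abs, Finset.mul_sum]
    exact Finset.sum_le_sum fun i _ => abs_cv_le (sh i).cont (kn_G.pd i) (hG1 i) r x
  have hR2 : ∀ r ∈ Icc ε 1, |R r| ≤ 3 * CG * ((max r ε)⁻¹ * BA (vsq v) r x) := by
    intro r hr
    have hr0 : 0 < r := hε.1.trans_le hr.1
    have h1 := cv_two hv kn_G hG2 r x
    have e1 : r * ∑ i, cv (pd i kG) (fun x => ∑ j, pd j (fun y => v i y * v j y) x) r x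
        = r * R r := by
      simp only [hR]
      congr 1
      refine Finset.sum_congr rfl fun i _ => ?_
      rw [hconv i]
    rw [e1, abs_mul, abs_of_pos hr0] at h1
    rw [max_eq_left hr.1]
    have h2 : |R r| = r⁻¹ * (r * |R r|) := by
      rw [← mul_assoc, inv_mul_cancel₀ hr0.ne', one_mul]
    rw [h2]
    calc r⁻¹ * (r * |R r|) ≤ r⁻¹ * (3 * CG * BA (vsq v) r x) :=
          mul_le_mul_of_nonneg_left h1 (inv_nonneg.2 hr0.le)
      _ = 3 * CG * (r⁻¹ * BA (vsq v) r x) := by ring
  have h3 : |∫ r in (0 : ℝ)..1, R r| ≤ CG * (∫ r in Icc (0 : ℝ) ε, BA (hh v) r x)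
      + 3 * CG * ∫ r in Icc ε 1, (max r ε)⁻¹ * BA (vsq v) r x := by
    have e1 : ∫ r in (0 : ℝ)..1, R r = (∫ r in (0 : ℝ)..ε, R r) + ∫ r in ε..1, R r :=
      (intervalIntegral.integral_add_adjacent_intervals (cR.intervalIntegrable _ _)
        (cR.intervalIntegrable _ _)).symm
    rw [e1]
    refine (abs_add_le _ _).trans (add_le_add ?_ ?_)
    · rw [intervalIntegral.integral_of_le hε.1.le, ← integral_Icc_eq_integral_Ioc,
        ← integral_const_mul]
      refine (abs_integral_le_integral_abs).trans ?_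
      exact integral_mono cR.abs.continuousOn.integrableOn_Icc
        (continuous_const.mul cBh).continuousOn.integrableOn_Icc fun r => hR1 r
    · rw [intervalIntegral.integral_of_le hε.2, ← integral_Icc_eq_integral_Ioc,
        ← integral_const_mul]
      refine (abs_integral_le_integral_abs).trans ?_
      exact setIntegral_mono_on cR.abs.continuousOn.integrableOn_Icc
        (continuous_const.mul (cinv.mul cBv)).continuousOn.integrableOn_Icc measurableSet_Icc hR2
  have hc0 := c0_pos
  have h4 : c0 * |p x| ≤ |L x| + |∫ r in (0 : ℝ)..1, R r| := by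
    have e : c0 * |p x| = |c0 * p x| := by rw [abs_mul, abs_of_pos hc0]
    rw [e, hrep]
    exact abs_add_le _ _
  set X1 : ℝ := ∫ r in Icc (0 : ℝ) ε, BA (hh v) r x with hX1
  set X2 : ℝ := ∫ r in Icc ε 1, (max r ε)⁻¹ * BA (vsq v) r x with hX2
  have n1 : 0 ≤ X1 := integral_nonneg fun r => BA_nonneg hh_nonneg r x
  have n2 : 0 ≤ X2 := integral_nonneg fun r =>
    mul_nonneg (inv_nonneg.2 (hmax r).le) (BA_nonneg (vsq_nonneg v) r x)
  have h5 : c0 * |p x| ≤ (CL + 3 * CG + CG) * (esq v + X1 + X2) := by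
    have a1 : 0 ≤ CL * X1 := by positivity
    have a2 : 0 ≤ CL * X2 := by positivity
    have a3 : 0 ≤ CG * esq v := by positivity
    have a4 : 0 ≤ CG * X1 := by positivity
    have a5 : 0 ≤ CG * X2 := by positivity
    nlinarith
  calc |p x| = (c0 * |p x|) / c0 := by field_simp
    _ ≤ ((CL + 3 * CG + CG) * (esq v + X1 + X2)) / c0 := div_le_div_of_nonneg_right h5 hc0.le
    _ = _ := by ring

end press

end Pool.Agent.H4LA
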