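import Pool.Agent.H4LA.FarK
import Pool.Agent.H4LA.JsL
import Pool.Agent.H4LA.KeyK

/-!
The weights.
-/

set_option autoImplicit false
set_option linter.unusedVariables false

open MeasureTheory Set Function Filter Topology
open scoped ENNReal ContDiff

namespace Pool.Agent.H4LA

open H459R3.NS

/-- The integral of the power of the slice energy. -/
noncomputable def Yv (m : ℕ) (v : Fin 3 → V → ℝ) : ℝ := ∫ x in cube, Hz (vsq (ww v)) x ^ (2 * m)

/-- The first part of the dissipation. -/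
noncomputable def X1v (m : ℕ) (v : Fin 3 → V → ℝ) : ℝ :=
  ∫ x in cube, Hz (vsq (ww v)) x ^ (2 * m - 1) * Hz (ga (ww v)) x

/-- The second part of the dissipation. -/
noncomputable def X2v (m : ℕ) (v : Fin 3 → V → ℝ) : ℝ :=
  ∫ x in cube, Hz (vsq (ww v)) x ^ (2 * m - 2) * pd 2 (Hz (vsq (ww v))) x ^ 2

/-- The dissipation with the lower order terms. -/
noncomputable def Xv (m : ℕ) (v : Fin 3 → V → ℝ) : ℝ :=
  X1v m v + X2v m v + (1 + ysq v) * (1 + Yv m v)

/-- The weight. -/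
noncomputable def ps (m : ℕ) (E : ℝ) (v : Fin 3 → V → ℝ) : V → ℝ :=
  fun x => (Hz (vsq (ww v)) x + E) ^ (2 * m - 1)

theorem Yv_nonneg (m : ℕ) (v : Fin 3 → V → ℝ) : 0 ≤ Yv m v :=
  integral_nonneg fun x => pow_nonneg (Hz_nonneg (vsq_nonneg _) x) _

theorem X1v_nonneg (m : ℕ) (v : Fin 3 → V → ℝ) : 0 ≤ X1v m v :=
  integral_nonneg fun x => mul_nonneg (pow_nonneg (Hz_nonneg (vsq_nonneg _) x) _)
    (Hz_nonneg ga_nonneg x)

theorem X2v_nonneg (m : ℕ) (v : Fin 3 → V → ℝ) : 0 ≤ X2v m v :=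
  integral_nonneg fun x => mul_nonneg (pow_nonneg (Hz_nonneg (vsq_nonneg _) x) _) (sq_nonneg _)

theorem B1_le_Xv (m : ℕ) (v : Fin 3 → V → ℝ) : 1 + Yv m v ≤ Xv m v := by
  have h1 := Yv_nonneg m v
  have h2 := X1v_nonneg m v
  have h3 := X2v_nonneg m v
  have h4 : 0 ≤ ysq v * (1 + Yv m v) := mul_nonneg (ysq_nonneg v) (by linarith)
  unfold Xv
  linarith

theorem one_le_Xv (m : ℕ) (v : Fin 3 → V → ℝ) : 1 ≤ Xv m v := by
  linarith [B1_le_Xv m v, Yv_nonneg m v]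

theorem ps_cp {m : ℕ} {E : ℝ} {v : Fin 3 → V → ℝ} (hv : ∀ i, SP (v i)) : CP (ps m E v) :=
  ((cp_of (vsq_sp (ww_sp hv))).hz.add (CP.const E)).pow _

theorem ps_nonneg {m : ℕ} {E : ℝ} (hE : 0 ≤ E) (v : Fin 3 → V → ℝ) (x : V) : 0 ≤ ps m E v x :=
  pow_nonneg (add_nonneg (Hz_nonneg (vsq_nonneg _) x) hE) _

theorem Hz_ga_ww_le {v : Fin 3 → V → ℝ} (hv : ∀ i, SP (v i)) (x : V) :
    Hz (ga (ww v)) x ≤ 2 * Hz (ga v) x + 4 * ysq v := by
  have hw := ww_sp hv
  have sm := mm_sp hv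
  have h1 : Hz (ga (ww v)) x ≤ Hz (fun y => 2 * ga v y
      + (2 * pd 0 (mm v) y ^ 2 + 2 * pd 1 (mm v) y ^ 2)) x := by
    apply Hz_mono (cp_of (ga_sp hw)) (((cp_of (ga_sp hv)).cmul 2).add
      ((((cp_of (sm.pd 0)).pow 2).cmul 2).add (((cp_of (sm.pd 1)).pow 2).cmul 2)))
    intro y
    have e3 : ∀ j, pd j (bb v) y = pd j (v 2) y - pd j (mm v) y := fun j =>
      pd_subf (hv 2) (mm_sp hv) j y
    have e4 := pd2_mm hv y
    have q : ∀ a b : ℝ, (a - b) ^ 2 ≤ 2 * a ^ 2 + 2 * b ^ 2 := fun a b => by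
      linarith only [sq_nonneg (a + b)]
    unfold ga
    simp only [Fin.sum_univ_three]
    show pd 0 (v 0) y ^ 2 + pd 1 (v 0) y ^ 2 + pd 2 (v 0) y ^ 2
      + (pd 0 (v 1) y ^ 2 + pd 1 (v 1) y ^ 2 + pd 2 (v 1) y ^ 2)
      + (pd 0 (bb v) y ^ 2 + pd 1 (bb v) y ^ 2 + pd 2 (bb v) y ^ 2)
      ≤ 2 * (pd 0 (v 0) y ^ 2 + pd 1 (v 0) y ^ 2 + pd 2 (v 0) y ^ 2
      + (pd 0 (v 1) y ^ 2 + pd 1 (v 1) y ^ 2 + pd 2 (v 1) y ^ 2)
      + (pd 0 (v 2) y ^ 2 + pd 1 (v 2) y ^ 2 + pd 2 (v 2) y ^ 2)) + _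
    have k0 := q (pd 0 (v 2) y) (pd 0 (mm v) y)
    have k1 := q (pd 1 (v 2) y) (pd 1 (mm v) y)
    simp only [e3, e4, sub_zero]
    linarith only [k0, k1, sq_nonneg (pd 0 (v 0) y), sq_nonneg (pd 1 (v 0) y),
      sq_nonneg (pd 2 (v 0) y), sq_nonneg (pd 0 (v 1) y), sq_nonneg (pd 1 (v 1) y),
      sq_nonneg (pd 2 (v 1) y), sq_nonneg (pd 2 (v 2) y)]
  rw [Hz_add ((cp_of (ga_sp hv)).cmul 2)
    ((((cp_of (sm.pd 0)).pow 2).cmul 2).add (((cp_of (sm.pd 1)).pow 2).cmul 2)),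
    Hz_add (((cp_of (sm.pd 0)).pow 2).cmul 2) (((cp_of (sm.pd 1)).pow 2).cmul 2), Hz_cmul, Hz_cmul,
    Hz_cmul] at h1
  have h2 := Hz_pd_mm_le hv mem0 x
  have h3 := Hz_pd_mm_le hv mem1 x
  have h4 := hsq_le_ysq v
  linarith

/-- The arithmetic of the weights. -/
theorem wm1 {a r : ℝ} (h : Ey a r) {ψ A B J c S X : ℝ} (hψ : 0 ≤ ψ) (hA : 0 ≤ A) (hB : 0 ≤ B)
    (hJ : 0 ≤ J) (hc : 1 ≤ c) (hS : 0 ≤ S) (hX : 0 ≤ X) (h1 : ψ * A ≤ c * √S)
    (h2 : ψ ^ 2 * J ≤ c * X ^ 2) :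
    ψ * (A ^ al a r * J ^ be a r * (A + B) ^ gm a)
      ≤ c * (S ^ (al a r / 2) * X ^ (2 * be a r) * (ψ * (A + B)) ^ gm a) := by
  have hal := h.al_pos
  have hbe := h.be_pos
  have hga := h.gm_pos
  have hc0 : 0 ≤ c := by linarith
  have hAB : 0 ≤ A + B := by linarith
  rcases hψ.eq_or_lt with h0 | h0
  · rw [← h0, zero_mul]
    positivity
  have e1 : ψ * (A ^ al a r * J ^ be a r * (A + B) ^ gm a)
      = (ψ * A) ^ al a r * (ψ ^ 2 * J) ^ be a r * (ψ * (A + B)) ^ gm a := by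
    rw [Real.mul_rpow hψ hA, Real.mul_rpow (sq_nonneg ψ) hJ, Real.mul_rpow hψ hAB,
      ← Real.rpow_natCast ψ 2, ← Real.rpow_mul hψ]
    have e2 : ψ = ψ ^ al a r * ψ ^ (((2 : ℕ) : ℝ) * be a r) * ψ ^ gm a := by
      rw [← Real.rpow_add h0, ← Real.rpow_add h0]
      have : al a r + ((2 : ℕ) : ℝ) * be a r + gm a = 1 := by
        have := exp_sum2 a r
        push_cast
        exact this
      rw [this, Real.rpow_one]
    conv_lhs => rw [e2]
    ring
  have k1 : (ψ * A) ^ al a r ≤ c ^ al a r * S ^ (al a r / 2) := by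
    refine (Real.rpow_le_rpow (by positivity) h1 hal.le).trans (le_of_eq ?_)
    rw [Real.mul_rpow hc0 (Real.sqrt_nonneg _), Real.sqrt_eq_rpow, ← Real.rpow_mul hS]
    congr 2
    ring
  have k2 : (ψ ^ 2 * J) ^ be a r ≤ c ^ be a r * X ^ (2 * be a r) := by
    refine (Real.rpow_le_rpow (by positivity) h2 hbe.le).trans (le_of_eq ?_)
    rw [Real.mul_rpow hc0 (sq_nonneg _), ← Real.rpow_natCast X 2, ← Real.rpow_mul hX]
    norm_num
  have k3 : c ^ al a r * c ^ be a r ≤ c := by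
    have hc1 : 0 < c := by linarith
    rw [← Real.rpow_add hc1]
    have e : al a r + be a r ≤ 1 := by
      have := exp_sum1 a r
      have hr := h.r_pos
      have : 0 < 2 / r := by positivity
      linarith
    have := Real.rpow_le_rpow_of_exponent_le hc e
    rwa [Real.rpow_one] at this
  rw [e1]
  have k4 := mul_le_mul k1 k2 (by positivity) (by positivity)
  have k5 := mul_le_mul_of_nonneg_right k4
    (by positivity : 0 ≤ (ψ * (A + B)) ^ gm a)
  refine k5.trans ?_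
  have k6 := mul_le_mul_of_nonneg_right k3
    (by positivity : 0 ≤ S ^ (al a r / 2) * X ^ (2 * be a r) * (ψ * (A + B)) ^ gm a)
  refine le_trans (le_of_eq ?_) k6
  ring

section field

variable {v : Fin 3 → V → ℝ} (hv : ∀ i, SP (v i))

include hv in
theorem int_e_n {m : ℕ} (hm : 2 ≤ m) :
    ∫ x in cube, Hz (vsq (ww v)) x ^ (2 * m - 1) ≤ 1 + Yv m v := by
  have ce : CP (Hz (vsq (ww v))) := (cp_of (vsq_sp (ww_sp hv))).hz
  have e0 : ∀ x, 0 ≤ Hz (vsq (ww v)) x := Hz_nonneg (vsq_nonneg _)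
  have hfin := cube_finite
  have c1 : ∫ x in cube, (1 : ℝ) = 1 := by
    rw [setIntegral_const, Measure.real, volume_cube]
    simp
  have h3 : ∫ x in cube, Hz (vsq (ww v)) x ^ (2 * m - 1)
      ≤ ∫ x in cube, (1 + Hz (vsq (ww v)) x ^ (2 * m)) :=
    integral_mono (ce.pow _).int ((CP.const 1).add (ce.pow _)).int fun x =>
      pow_one_le (e0 x) (by omega)
  rw [integral_add (integrable_const 1) (ce.pow _).int, c1] at h3
  exact h3

include hv in
theorem int_pow_E {q : ℕ} {E : ℝ} (hE : 0 ≤ E) :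
    ∫ x in cube, (Hz (vsq (ww v)) x + E) ^ q
      ≤ 2 ^ q * ((∫ x in cube, Hz (vsq (ww v)) x ^ q) + E ^ q) := by
  have ce : CP (Hz (vsq (ww v))) := (cp_of (vsq_sp (ww_sp hv))).hz
  have e0 : ∀ x, 0 ≤ Hz (vsq (ww v)) x := Hz_nonneg (vsq_nonneg _)
  have hfin := cube_finite
  have c1 : ∫ x in cube, (E ^ q : ℝ) = E ^ q := by
    rw [setIntegral_const, Measure.real, volume_cube]
    simp
  have h3 : ∫ x in cube, (Hz (vsq (ww v)) x + E) ^ q
      ≤ ∫ x in cube, 2 ^ q * (Hz (vsq (ww v)) x ^ q + E ^ q) :=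
    integral_mono ((ce.add (CP.const E)).pow _).int (((ce.pow _).add (CP.const _)).cmul _).int
      fun x => add_pow_le' (e0 x) hE q
  rw [integral_const_mul, integral_add (ce.pow _).int (integrable_const _), c1] at h3
  exact h3

end field

/-- The fourth powers. -/
theorem jv {v : Fin 3 → V → ℝ} (hv : ∀ i, SP (v i)) {m : ℕ} (hm : 2 ≤ m) {E : ℝ} (hE1 : 1 ≤ E)
    {q : Fin 3 → V → ℝ} (hq : ∀ i, SP (q i))
    (hU : ∀ x, Hz (vsq q) x ≤ 2 * (Hz (vsq (ww v)) x + E)) {c X : ℝ} (hc : 0 ≤ c) (hX : 0 ≤ X)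
    (h1 : ∫ x in cube, ps m E v x * (Hz (vsq q) x + Hz (ga q) x) ≤ c * X)
    (h2 : ∫ x in cube, 8 * (2 * (m : ℝ) - 1) ^ 2 * (ps m E v x * Hz (ga (ww v)) x) ≤ c * X)
    (x : V) : ps m E v x ^ 2 * Hz (fun y => vsq q y ^ 2) x ≤ 4410 * c ^ 2 * X ^ 2 := by
  have hw := ww_sp hv
  set e : V → ℝ := Hz (vsq (ww v)) with he
  have se : SP e := hz_sp (vsq_sp hw)
  have ie : I01 e := i01_hz _
  have ce : CP e := cp_of se
  have e0 : ∀ x, 0 ≤ e x := Hz_nonneg (vsq_nonneg _)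
  set d : V → ℝ := Hz (ga (ww v)) with hd
  have cd : CP d := (cp_of (ga_sp hw)).hz
  have d0 : ∀ x, 0 ≤ d x := Hz_nonneg ga_nonneg
  set n : ℝ := 2 * (m : ℝ) - 1 with hn
  have hnq : ((2 * m - 1 : ℕ) : ℝ) = n := by
    rw [Nat.cast_sub (by omega)]
    push_cast
    rfl
  set g : V → ℝ := fun x => e x + E with hg
  have sg : SP g := se.add (SP.constf E)
  have g0 : ∀ x, 0 ≤ g x := fun x => by
    have := e0 x
    simp only [hg]
    linarith
  have eg : ∀ x, e x ≤ g x := fun x => by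
    simp only [hg]
    linarith
  have dg : ∀ x, pd 2 g x = pd 2 e x := by
    intro x
    show fderiv ℝ (fun y => e y + E) x _ = fderiv ℝ e x _
    rw [fderiv_add_const]
  have sψ : SP (ps m E v) := SP.powr sg _
  have iψ : I01 (ps m E v) :=
    (show I01 (fun y => g y ^ (2 * m - 1)) from
      (ie.add (show I01 (fun _ : V => E) from ⟨fun _ _ => rfl, fun _ _ => rfl⟩)).powr _)
  have ψ0 : ∀ x, 0 ≤ ps m E v x := ps_nonneg (by linarith) v
  have cψ : CP (ps m E v) := cp_of sψ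
  set Θ : V → ℝ := fun x => 8 * n ^ 2 * (ps m E v x * d x) with hΘ
  have cΘ : CP Θ := (cψ.mul cd).cmul _
  have Θ0 : ∀ x, 0 ≤ Θ x := fun x => mul_nonneg (by positivity) (mul_nonneg (ψ0 x) (d0 x))
  have hR : √(c * X) ^ 2 = c * X := Real.sq_sqrt (by positivity)
  -- the derivative of the weight
  have hdψ : ∀ (f : V → ℝ), (∀ x, Hz (fun y => f y ^ 2) x ≤ Hz (vsq q) x) → ∀ x,
      pd 2 (ps m E v) x ^ 2 * Hz (fun y => f y ^ 2) x ≤ ps m E v x * Θ x := by
    intro f hf x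
    have k1 : pd 2 (ps m E v) x = n * g x ^ (2 * m - 2) * pd 2 e x := by
      have : pd 2 (ps m E v) x = ((2 * m - 1 : ℕ) : ℝ) * g x ^ (2 * m - 1 - 1) * pd 2 g x :=
        pd_pow sg _ 2 x
      rw [this, hnq, dg, Nat.sub_sub]
    have k2 : pd 2 e x ^ 2 ≤ 4 * (e x * d x) := by
      have l1 := pow_le_pow_left₀ (abs_nonneg _) (abs_pd2_slice hw x) 2
      rw [sq_abs, mul_pow, mul_pow] at l1
      have l2 : √(Hz (vsq (ww v)) x) ^ 2 = e x := Real.sq_sqrt (e0 x)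
      have l3 : √(Hz (ga (ww v)) x) ^ 2 = d x := Real.sq_sqrt (d0 x)
      rw [l2, l3] at l1
      linarith
    have k3 : Hz (fun y => f y ^ 2) x ≤ 2 * g x := (hf x).trans (hU x)
    have k4 : 0 ≤ Hz (fun y => f y ^ 2) x := Hz_nonneg (fun y => sq_nonneg _) x
    have k5 : pd 2 e x ^ 2 * Hz (fun y => f y ^ 2) x ≤ 4 * (g x * d x) * (2 * g x) := by
      refine mul_le_mul (k2.trans ?_) k3 k4 (by have := g0 x; have := d0 x; positivity)
      have := mul_le_mul_of_nonneg_right (eg x) (d0 x)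
      linarith
    have k6 := mul_le_mul_of_nonneg_left k5
      (by have := g0 x; positivity : 0 ≤ n ^ 2 * (g x ^ (2 * m - 2)) ^ 2)
    have k7 : ps m E v x * Θ x
        = n ^ 2 * (g x ^ (2 * m - 2)) ^ 2 * (4 * (g x * d x) * (2 * g x)) := by
      have l1 : ps m E v x = g x ^ (2 * m - 2) * g x := by
        have : ps m E v x = g x ^ (2 * m - 1) := rfl
        rw [this, ← pow_succ]
        congr 1
        omega
      simp only [hΘ]
      rw [l1]
      ring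
    rw [k1, k7]
    refine le_trans (le_of_eq ?_) k6
    ring
  have h2' : ∫ x in cube, Θ x ≤ √(c * X) ^ 2 := by
    rw [hR]
    exact h2
  -- the components
  have key : ∀ i, ps m E v x ^ 2 * Hz (fun y => q i y ^ 4) x ≤ 490 * (c * X * (c * X)) := by
    intro i
    have cU : CP (Hz (vsq q)) := (cp_of (vsq_sp hq)).hz
    have cG : CP (Hz (ga q)) := (cp_of (ga_sp hq)).hz
    have U0 : ∀ x, 0 ≤ Hz (vsq q) x := Hz_nonneg (vsq_nonneg _)
    have G0 : ∀ x, 0 ≤ Hz (ga q) x := Hz_nonneg ga_nonneg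
    have cf2 : CP (Hz (fun y => q i y ^ 2)) := ((cp_of (hq i)).pow 2).hz
    have cB : CP (fun x => ps m E v x * (Hz (vsq q) x + Hz (ga q) x)) := cψ.mul (cU.add cG)
    have b1 : ∫ x in cube, ps m E v x * Hz (fun y => q i y ^ 2) x ≤ √(c * X) ^ 2 := by
      rw [hR]
      refine le_trans (integral_mono (cψ.mul cf2).int cB.int fun x => ?_) h1
      refine mul_le_mul_of_nonneg_left ?_ (ψ0 x)
      have := Hz_le_vsq hq i x
      linarith [G0 x]
    have b3 : ∫ x in cube, ps m E v x * Hz (fun y => pd 2 (q i) y ^ 2) x ≤ √(c * X) ^ 2 := by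
      rw [hR]
      refine le_trans (integral_mono (cψ.mul ((cp_of ((hq i).pd 2)).pow 2).hz).int cB.int
        fun x => ?_) h1
      refine mul_le_mul_of_nonneg_left ?_ (ψ0 x)
      have := Hz_le_ga hq i 2 x
      linarith [U0 x]
    have b4 : ∫ x in cube, ps m E v x * (Hz (fun y => q i y ^ 2) x
        + (Hz (fun y => pd 0 (q i) y ^ 2) x + Hz (fun y => pd 1 (q i) y ^ 2) x)) ≤ c * X := by
      have c0 : CP (fun y => pd 0 (q i) y ^ 2) := (cp_of ((hq i).pd 0)).pow 2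
      have c1 : CP (fun y => pd 1 (q i) y ^ 2) := (cp_of ((hq i).pd 1)).pow 2
      refine le_trans (integral_mono (cψ.mul (cf2.add (c0.hz.add c1.hz))).int cB.int
        fun x => ?_) h1
      refine mul_le_mul_of_nonneg_left ?_ (ψ0 x)
      have l1 := Hz_le_vsq hq i x
      have l2 : Hz (fun y => pd 0 (q i) y ^ 2) x + Hz (fun y => pd 1 (q i) y ^ 2) x
          ≤ Hz (ga q) x := by
        rw [← Hz_add c0 c1]
        refine Hz_mono (c0.add c1) (cp_of (ga_sp hq)) (fun y => ?_) x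
        have k1 : pd 0 (q i) y ^ 2 + pd 1 (q i) y ^ 2 ≤ ∑ k, pd k (q i) y ^ 2 := by
          rw [Fin.sum_univ_three]
          linarith [sq_nonneg (pd 2 (q i) y)]
        refine k1.trans ?_
        exact Finset.single_le_sum (f := fun i => ∑ k, pd k (q i) y ^ 2)
          (fun i _ => Finset.sum_nonneg fun k _ => sq_nonneg _) (Finset.mem_univ i)
      linarith
    have := jsup (hq i) sψ iψ ψ0 cΘ Θ0 (hdψ (q i) (Hz_le_vsq hq i)) (Real.sqrt_nonneg _) b1 h2'
      b3 b4 x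
    rwa [hR] at this
  have c4 : ∀ i, CP (fun y => q i y ^ 4) := fun i => (cp_of (hq i)).pow 4
  have h3 : Hz (fun y => vsq q y ^ 2) x
      ≤ 3 * (Hz (fun y => q 0 y ^ 4) x + (Hz (fun y => q 1 y ^ 4) x
        + Hz (fun y => q 2 y ^ 4) x)) := by
    rw [← Hz_add (c4 1) (c4 2), ← Hz_add (c4 0) ((c4 1).add (c4 2)), ← Hz_cmul]
    refine Hz_mono ((cp_of (vsq_sp hq)).pow 2) (((c4 0).add ((c4 1).add (c4 2))).cmul 3)
      (fun y => ?_) x
    unfold vsq
    rw [Fin.sum_univ_three]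
    linarith only [sq_nonneg (q 0 y ^ 2 - q 1 y ^ 2), sq_nonneg (q 0 y ^ 2 - q 2 y ^ 2),
      sq_nonneg (q 1 y ^ 2 - q 2 y ^ 2)]
  have h4 := mul_le_mul_of_nonneg_left h3 (sq_nonneg (ps m E v x))
  have k0 := key 0
  have k1 := key 1
  have k2 := key 2
  refine h4.trans ?_
  linarith

/-- The bounds with the weight. -/
theorem wts {m : ℕ} (hm : 2 ≤ m) {E : ℝ} (hE1 : 1 ≤ E) : ∃ c, 1 ≤ c ∧
    ∀ v : Fin 3 → V → ℝ, (∀ i, SP (v i)) → esq v ≤ E →
    (∫ x in cube, ps m E v x * (Hz (vsq v) x + Hz (ga v) x) ≤ c * Xv m v) ∧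
    (∫ x in cube, ps m E v x * (Hz (vsq (ww v)) x + Hz (ga (ww v)) x) ≤ c * Xv m v) ∧
    (∀ x, (Hz (vsq (ww v)) x + E) ^ (2 * m) ≤ c * √((1 + Yv m v) * Xv m v)) ∧
    (∀ x, ps m E v x ^ 2 * Hz (fun y => vsq v y ^ 2) x ≤ c * Xv m v ^ 2) ∧
    (∀ x, ps m E v x ^ 2 * Hz (fun y => vsq (ww v) y ^ 2) x ≤ c * Xv m v ^ 2) := by
  have hE0 : 0 ≤ E := by linarith
  set n : ℕ := 2 * m - 1 with hn
  set b : ℝ := 2 ^ n * (6 + E ^ n) with hb
  have hb0 : 0 ≤ b := by positivity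
  set s1 : ℝ := 2 ^ n * (1 + E ^ n) with hs1
  have hs10 : 0 ≤ s1 := by positivity
  set s2 : ℝ := 2 ^ (2 * m) * (1 + E ^ (2 * m)) with hs2
  have hs20 : 0 ≤ s2 := by positivity
  set n' : ℝ := 2 * (m : ℝ) - 1 with hn'
  set c1 : ℝ := 2 * s2 + (1 + 8 * n' ^ 2) * (2 * b + 4 * s1) with hc1
  have hc10 : 0 ≤ c1 := by positivity
  set c2 : ℝ := 2 ^ (2 * m) * (1 + 2 * m + E ^ (2 * m)) with hc2
  have hc20 : 0 ≤ c2 := by positivity
  refine ⟨1 + c1 + c2 + 4410 * c1 ^ 2, by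
    have : 0 ≤ 4410 * c1 ^ 2 := by positivity
    linarith, ?_⟩
  intro v hv hE
  have hw := ww_sp hv
  set e : V → ℝ := Hz (vsq (ww v)) with he
  have se : SP e := hz_sp (vsq_sp hw)
  have ie : I01 e := i01_hz _
  have ce : CP e := cp_of se
  have e0 : ∀ x, 0 ≤ e x := Hz_nonneg (vsq_nonneg _)
  set U : V → ℝ := Hz (vsq v) with hU
  have cU : CP U := (cp_of (vsq_sp hv)).hz
  set D : V → ℝ := Hz (ga v) with hD
  have cD : CP D := (cp_of (ga_sp hv)).hz
  set d : V → ℝ := Hz (ga (ww v)) with hd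
  have cd : CP d := (cp_of (ga_sp hw)).hz
  set y : ℝ := ysq v with hy
  have hy0 : 0 ≤ y := ysq_nonneg v
  set Y : ℝ := Yv m v with hY
  have hY0 : 0 ≤ Y := Yv_nonneg m v
  set X : ℝ := Xv m v with hX
  have hX1 : 1 ≤ X := one_le_Xv m v
  have hX0 : 0 ≤ X := by linarith
  have hBX : 1 + Y ≤ X := B1_le_Xv m v
  have x1 := X1v_nonneg m v
  have x2 := X2v_nonneg m v
  have hXe : X = X1v m v + X2v m v + (1 + y) * (1 + Y) := rfl
  have hyB : 0 ≤ y * (1 + Y) := by positivity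
  have ψ0 : ∀ x, 0 ≤ ps m E v x := ps_nonneg hE0 v
  have cψ : CP (ps m E v) := ps_cp hv
  have hg0 : ∀ x, 0 ≤ e x + E := fun x => by linarith [e0 x]
  have hUe : ∀ x, U x ≤ 2 * (e x + E) := by
    intro x
    have := Hz_vsq_le_ww hv x
    simp only [hU, he]
    linarith
  have hψg : ∀ x, ps m E v x * (e x + E) = (e x + E) ^ (2 * m) := by
    intro x
    have : ps m E v x = (e x + E) ^ (2 * m - 1) := rfl
    rw [this, ← pow_succ]
    congr 1
    omega
  -- the integrals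
  have i1 : ∫ x in cube, ps m E v x ≤ s1 * (1 + Y) := by
    have k1 := int_pow_E hv (q := n) hE0
    have k2 := int_e_n hv hm
    rw [← he, ← hn, ← hY] at k2
    rw [← he] at k1
    have k3 : 2 ^ n * ((∫ x in cube, e x ^ n) + E ^ n) ≤ s1 * (1 + Y) := by
      have l1 : 0 ≤ E ^ n * Y := by positivity
      have l2 : (∫ x in cube, e x ^ n) + E ^ n ≤ (1 + E ^ n) * (1 + Y) := by linarith
      have l3 := mul_le_mul_of_nonneg_left l2 (by positivity : (0 : ℝ) ≤ 2 ^ n)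
      rw [hs1]
      linarith
    exact k1.trans k3
  have i2 : ∫ x in cube, (e x + E) ^ (2 * m) ≤ s2 * (1 + Y) := by
    have k1 := int_pow_E hv (q := 2 * m) hE0
    rw [← he] at k1
    have k3 : 2 ^ (2 * m) * ((∫ x in cube, e x ^ (2 * m)) + E ^ (2 * m)) ≤ s2 * (1 + Y) := by
      have l1 : 0 ≤ E ^ (2 * m) * Y := by positivity
      have l0 : ∫ x in cube, e x ^ (2 * m) = Y := rfl
      have l2 : (∫ x in cube, e x ^ (2 * m)) + E ^ (2 * m) ≤ (1 + E ^ (2 * m)) * (1 + Y) := by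
        rw [l0]
        linarith
      have l3 := mul_le_mul_of_nonneg_left l2 (by positivity : (0 : ℝ) ≤ 2 ^ (2 * m))
      rw [hs2]
      linarith
    exact k1.trans k3
  have i2' : s2 * (1 + Y) ≤ s2 * X := mul_le_mul_of_nonneg_left hBX hs20
  have i3 : ∫ x in cube, ps m E v x * D x ≤ b * X := by
    have k1 := int_W hv hE0 hm
    have k2 : X1v m v + y * (1 + Y) ≤ X := by
      rw [hXe]
      linarith
    exact k1.trans (mul_le_mul_of_nonneg_left k2 hb0)
  have i4 : ∫ x in cube, ps m E v x * d x ≤ (2 * b + 4 * s1) * X := by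
    have k1 : ∫ x in cube, ps m E v x * d x
        ≤ ∫ x in cube, (2 * (ps m E v x * D x) + 4 * y * ps m E v x) := by
      refine integral_mono (cψ.mul cd).int (((cψ.mul cD).cmul 2).add (cψ.cmul _)).int fun x => ?_
      have := mul_le_mul_of_nonneg_left (Hz_ga_ww_le hv x) (ψ0 x)
      simp only [hd, hD]
      linarith
    rw [integral_add ((cψ.mul cD).cmul 2).int (cψ.cmul _).int, integral_const_mul,
      integral_const_mul] at k1
    have k2 := mul_le_mul_of_nonneg_left i1 (by positivity : 0 ≤ 4 * y)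
    have k3 : y * (1 + Y) ≤ X := by
      rw [hXe]
      linarith
    have k4 := mul_le_mul_of_nonneg_left k3 (by positivity : 0 ≤ 4 * s1)
    linarith
  have hn0 : 0 ≤ 8 * n' ^ 2 := by positivity
  have hbs : 0 ≤ 2 * b + 4 * s1 := by positivity
  have hnb : 0 ≤ 8 * n' ^ 2 * ((2 * b + 4 * s1) * X) := by positivity
  have hbX : 0 ≤ b * X := by positivity
  have hsX : 0 ≤ s1 * X := by positivity
  have hs2X : 0 ≤ s2 * X := by positivity
  have r1 : ∫ x in cube, ps m E v x * (U x + D x) ≤ c1 * X := by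
    have k1 : ∫ x in cube, ps m E v x * (U x + D x)
        ≤ ∫ x in cube, (2 * (e x + E) ^ (2 * m) + ps m E v x * D x) := by
      refine integral_mono (cψ.mul (cU.add cD)).int
        ((((ce.add (CP.const E)).pow _).cmul 2).add (cψ.mul cD)).int fun x => ?_
      have := mul_le_mul_of_nonneg_left (hUe x) (ψ0 x)
      have := hψg x
      simp only
      linarith
    rw [integral_add (((ce.add (CP.const E)).pow _).cmul 2).int (cψ.mul cD).int,
      integral_const_mul] at k1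
    rw [hc1]
    linarith
  have r2 : ∫ x in cube, ps m E v x * (e x + d x) ≤ c1 * X := by
    have k1 : ∫ x in cube, ps m E v x * (e x + d x)
        ≤ ∫ x in cube, ((e x + E) ^ (2 * m) + ps m E v x * d x) := by
      refine integral_mono (cψ.mul (ce.add cd)).int
        (((ce.add (CP.const E)).pow _).add (cψ.mul cd)).int fun x => ?_
      have k2 := mul_nonneg (ψ0 x) hE0
      have k3 := hψg x
      simp only
      linarith
    rw [integral_add ((ce.add (CP.const E)).pow _).int (cψ.mul cd).int] at k1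
    rw [hc1]
    linarith
  have r3 : ∫ x in cube, 8 * n' ^ 2 * (ps m E v x * d x) ≤ c1 * X := by
    rw [integral_const_mul]
    have := mul_le_mul_of_nonneg_left i4 hn0
    rw [hc1]
    linarith
  have r4 : ∀ x, (e x + E) ^ (2 * m) ≤ c2 * √((1 + Y) * X) := by
    intro x
    have k1 := sup_i01 (SP.powr se m) (ie.powr m) x
    have k2 : ∀ x, (e x ^ m) ^ 2 = e x ^ (2 * m) := by
      intro x
      rw [← pow_mul, mul_comm]
    simp only [k2] at k1
    have k3 : ∫ x in cube, pd 2 (fun y => e y ^ m) x ^ 2 = m ^ 2 * X2v m v := int_pd_pow hv hm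
    have k4 : ∫ x in cube, e x ^ (2 * m) = Y := rfl
    rw [k3, k4] at k1
    have s0 : (1 : ℝ) ≤ √((1 + Y) * X) := by
      rw [Real.one_le_sqrt]
      exact one_le_mul_of_one_le_of_one_le (by linarith) hX1
    have s3 : Y ≤ √((1 + Y) * X) := by
      apply Real.le_sqrt_of_sq_le
      rw [sq]
      exact mul_le_mul (by linarith) (by linarith) hY0 (by linarith)
    have s4 : √Y * √(m ^ 2 * X2v m v) ≤ m * √((1 + Y) * X) := by
      rw [Real.sqrt_mul (by positivity), Real.sqrt_sq (by positivity),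
        Real.sqrt_mul (by linarith)]
      have l1 : √Y ≤ √(1 + Y) := Real.sqrt_le_sqrt (by linarith)
      have l2 : √(X2v m v) ≤ √X := Real.sqrt_le_sqrt (by
        rw [hXe]
        have : 0 ≤ (1 + y) * (1 + Y) := by positivity
        linarith)
      have l3 := mul_le_mul l1 l2 (Real.sqrt_nonneg _) (Real.sqrt_nonneg _)
      have l4 := mul_le_mul_of_nonneg_left l3 (by positivity : (0 : ℝ) ≤ m)
      linarith
    have k5 := add_pow_le' (e0 x) hE0 (2 * m)
    have k6 : e x ^ (2 * m) + E ^ (2 * m) ≤ (1 + 2 * m + E ^ (2 * m)) * √((1 + Y) * X) := by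
      have l1 := mul_le_mul_of_nonneg_left s0 (by positivity : 0 ≤ E ^ (2 * m))
      linarith
    have k7 := mul_le_mul_of_nonneg_left k6 (by positivity : (0 : ℝ) ≤ 2 ^ (2 * m))
    rw [hc2]
    linarith
  have r5 := jv hv hm hE1 hv hUe hc10 hX0 r1 r3
  have r6 := jv hv hm hE1 hw (fun x => by have := hg0 x; simp only [he] at this ⊢; linarith)
    hc10 hX0 r2 r3
  have hX2 : 0 ≤ X ^ 2 := sq_nonneg _
  have hS0 : 0 ≤ √((1 + Y) * X) := Real.sqrt_nonneg _
  have hc12 : 0 ≤ 4410 * c1 ^ 2 := by positivity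
  refine ⟨r1.trans ?_, r2.trans ?_, fun x => (r4 x).trans ?_, fun x => (r5 x).trans ?_,
    fun x => (r6 x).trans ?_⟩
  · exact mul_le_mul_of_nonneg_right (by linarith) hX0
  · exact mul_le_mul_of_nonneg_right (by linarith) hX0
  · exact mul_le_mul_of_nonneg_right (by linarith) hS0
  · exact mul_le_mul_of_nonneg_right (by linarith) hX2
  · exact mul_le_mul_of_nonneg_right (by linarith) hX2

end Pool.Agent.H4LA
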